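import Pool.Agent.Lib.CF.Basic

open Set Metric Filter Topology

namespace Pool.Agent.CF

namespace IsCurve

variable {ι : Type} {P : E → ℂ} {Γ : Set E} {e : ι → End}

/-- the projection to the first coordinate is open off the loops -/
theorem proj_nhds (h : IsCurve P Γ e) {y : E} (hy : y ∈ Γ) (hl : y ∉ loops e) :
    ∀ᶠ z in 𝓝 y.1, ∃ w, (z, w) ∈ Γ := by
  by_cases hw : dw P y = 0
  · obtain ⟨g, h1, h2, h3, -⟩ := h.chart_swap hy hl ((h.grad y hy).resolve_right (not_not.2 hw))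
    rcases h1.eventually_constant_or_nhds_le_map_nhds with h4 | h4
    · exfalso
      have h5 : ∀ᶠ w in 𝓝 y.2, P (y.1, w) = 0 := by
        filter_upwards [h3, h4] with w a b
        rw [← h2, ← b]; exact h.zero _ a
      have h6 : ∀ᶠ w in 𝓝 y.2, dw P (y.1, w) = 0 := by
        filter_upwards [h5.eventually_nhds] with w a
        exact (Filter.EventuallyEq.deriv_eq (f := fun _ => (0 : ℂ)) a).trans (by simp)
      exact h.ww y hy hw ((Filter.EventuallyEq.deriv_eq (f := fun _ => (0 : ℂ)) h6).trans (by simp))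
    · rw [← h2]
      exact h4 (mem_map.2 (h3.mono fun w a => ⟨w, a⟩))
  · obtain ⟨g, -, -, h3, -⟩ := h.chart hy hl hw
    exact h3.mono fun z a => ⟨g z, a⟩

/-- a curve whose loops lie over two discs with real centres lies over these discs -/
theorem proj_two (h : IsCurve P Γ e) {c1 c2 R1 R2 : ℝ}
    (hl : ∀ y ∈ loops e, ‖y.1 - c1‖ ≤ R1 ∨ ‖y.1 - c2‖ ≤ R2) :
    ∀ y ∈ Γ, y ∈ loops e ∨ ‖y.1 - c1‖ < R1 ∨ ‖y.1 - c2‖ < R2 := by
  intro y hy
  by_cases hyl : y ∈ loops e
  · exact Or.inl hyl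
  right
  let ψ : ℂ → ℝ := fun z => min (‖z - c1‖ - R1) (‖z - c2‖ - R2)
  have hψ : Continuous ψ := by fun_prop
  have key : ∀ x ∈ Γ, x ∉ loops e → ∃ x' ∈ Γ, ψ x.1 < ψ x'.1 := by
    intro x hx hxl
    obtain ⟨s, hs, hs'⟩ : ∃ s : ℝ, s * s = 1 ∧ 0 ≤ s * x.1.im := by
      rcases le_total 0 x.1.im with a | a
      · exact ⟨1, by simp, by simpa⟩
      · exact ⟨-1, by simp, by simpa⟩
    have h1 : Tendsto (fun t : ℝ => x.1 + (t * s : ℝ) * Complex.I) (𝓝[>] 0) (𝓝 x.1) := by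
      have : Continuous fun t : ℝ => x.1 + (t * s : ℝ) * Complex.I := by fun_prop
      simpa using (this.tendsto 0).mono_left nhdsWithin_le_nhds
    obtain ⟨t, ⟨w, hw⟩, ht⟩ := ((h1.eventually (h.proj_nhds hx hxl)).and self_mem_nhdsWithin).exists
    have h2 : ∀ c : ℝ, ‖x.1 - c‖ < ‖x.1 + (t * s : ℝ) * Complex.I - c‖ := by
      intro c
      have ht' : 0 < t := ht
      refine lt_of_pow_lt_pow_left₀ 2 (norm_nonneg _) ?_
      rw [Complex.sq_norm, Complex.sq_norm, Complex.normSq_apply, Complex.normSq_apply]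
      simp only [Complex.sub_re, Complex.add_re, Complex.mul_re, Complex.ofReal_re, Complex.I_re,
        Complex.ofReal_im, Complex.I_im, Complex.sub_im, Complex.add_im, Complex.mul_im]
      nlinarith [mul_pos ht' ht', mul_nonneg ht'.le hs']
    exact ⟨_, hw, min_lt_min (by linarith [h2 c1]) (by linarith [h2 c2])⟩
  obtain ⟨x, hx, hm⟩ := h.cpt.exists_isMaxOn ⟨y, hy⟩ (hψ.comp continuous_fst).continuousOn
  have h3 : x ∈ loops e := by
    by_contra a
    obtain ⟨x', b, c⟩ := key x hx a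
    exact absurd (hm b) (not_le.2 c)
  have h4 : ψ x.1 ≤ 0 := by
    rcases hl x h3 with a | a
    · exact (min_le_left _ _).trans (by linarith)
    · exact (min_le_right _ _).trans (by linarith)
  obtain ⟨x', b, c⟩ := key y hy hyl
  have h5 : ψ y.1 < 0 := c.trans_le ((hm b).trans h4)
  rcases min_lt_iff.1 h5 with a | a
  · left; linarith
  · right; linarith

end IsCurve

/-- privacy spreads: if `y` is the only point of a compact set over `y.1`, then the points over
nearby values are close to `y` -/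
theorem fibre_near {Γ : Set E} (hΓ : IsCompact Γ) {x : ℂ} {N : Set E} (hN : IsOpen N)
    (h : ∀ y ∈ Γ, y.1 = x → y ∈ N) : ∀ᶠ z in 𝓝 x, ∀ y ∈ Γ, y.1 = z → y ∈ N := by
  have h1 : IsClosed (Prod.fst '' (Γ \ N)) :=
    ((hΓ.diff hN).image continuous_fst).isClosed
  have h2 : x ∉ Prod.fst '' (Γ \ N) := by
    rintro ⟨y, ⟨a, b⟩, c⟩; exact b (h y a c)
  filter_upwards [h1.isOpen_compl.mem_nhds h2] with z hz y a b
  by_contra c; exact hz ⟨y, ⟨a, c⟩, b⟩

/-- near a private point of a loop only the sheet of this loop is present -/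
theorem IsCurve.private_nhds {ι : Type} {P : E → ℂ} {Γ : Set E} {e : ι → End}
    (h : IsCurve P Γ e) (j : ι) {x : ℂ} (hx : x ∈ (e j).circ)
    (hp : ∀ y ∈ Γ, y.1 = x → y.2 = (e j).w x) :
    ∀ᶠ z in 𝓝 x, ∀ w, (z, w) ∈ Γ ↔ w = (e j).w z ∧ (e j).side z := by
  obtain ⟨N, h1, h2, h3⟩ := _root_.eventually_nhds_iff.1 (h.loc j x hx)
  have h4 := fibre_near h.cpt (x := x) h2 fun y a b => by
    have : y = (x, (e j).w x) := Prod.ext b (hp y a b)
    rwa [this]
  have h5 : ContinuousAt (fun z => ((z, (e j).w z) : E)) x :=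
    continuousAt_id.prodMk (h.wan j x hx).continuousAt
  filter_upwards [h4, h5.eventually (h2.mem_nhds h3)] with z a b w
  refine ⟨fun c => (h1 _ (a _ c rfl)).1 c, ?_⟩
  rintro ⟨rfl, c⟩
  exact (h1 _ b).2 ⟨rfl, c⟩

end Pool.Agent.CF
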