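import Pool.Agent.Lib.CF.Blue3
import Pool.Agent.Lib.CF.Proj

open Set Metric Filter Topology

namespace Pool.Agent.CF

/-- a curve with its ends (loops and macro ports), hub and macro directions -/
structure Cv where
  P : E → ℂ
  Γ : Set E
  ι : Type
  fι : Fintype ι
  e : ι → End
  H : ι
  lam : ι → ℂ → ℂ

attribute [instance] Cv.fι

namespace Cv

def hub (A : Cv) : End := A.e A.H

def c (A : Cv) : ℂ := A.hub.c

def R (A : Cv) : ℝ := A.hub.r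

def nout (A : Cv) : ℕ := (Finset.univ.filter fun j => (A.e j).k = Kind.out).card

/-- the function whose total winding is the number `T` -/
noncomputable def W (A B : Cv) (j : A.ι) (z : ℂ) : ℂ :=
  A.lam j z * (A.e j).res (fun y => dw A.P y * B.P y) z

open Classical in
/-- the layer of depth `y` is added at the hub -/
noncomputable def grow (A : Cv) (y : ℝ) : Cv :=
  { A with
    Γ := A.Γ ∪ A.hub.gr (A.hub.ann (Icc (-y) 0))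
    e := fun j => if j = A.H then A.hub.move (-y) else A.e j }

/-- new directions -/
def rot (A : Cv) (lam : A.ι → ℂ → ℂ) : Cv := { A with lam := lam }

/-- new macro ports and new directions on the old ends -/
def addp (A : Cv) (π : Type) [Fintype π] (p : π → ℂ) (w lp : π → ℂ → ℂ) (lam : A.ι → ℂ → ℂ) :
    Cv :=
  ⟨A.P, A.Γ, A.ι ⊕ π, inferInstance, Sum.elim A.e fun k => ⟨p k, 0, Kind.pt, w k⟩, Sum.inl A.H,
    Sum.elim lam lp⟩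

/-- the ends of the union of the cut curve and the second curve -/
noncomputable def ee (C K : Cv) (s t : C.ι → ℝ) : C.ι ⊕ K.ι → End :=
  Sum.elim (fun j => (C.e j).adj (s j) (t j)) K.e

/-- the polynomial of the split -/
noncomputable def pA (C K : Cv) (G q : E → ℂ) : ℂ → E → ℂ := pen (fun x => G x * K.P x * C.P x) q

/-- the cut curve -/
def cut (C : Cv) (s t : C.ι → ℝ) (r1 h : ℝ) : Set E :=
  moved C.Γ C.e (fun j => (C.e j).adj (s j) (t j)) r1 h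

/-- the new curve -/
noncomputable def split (C K : Cv) (G q : E → ℂ) (s t : C.ι → ℝ) (d : C.ι ⊕ K.ι → ℂ × ℂ → ℂ)
    (lam : C.ι → ℂ → ℂ) (Γε : ℂ → Set E) (ε : ℂ) : Cv :=
  ⟨C.pA K G q ε, Γε ε, C.ι ⊕ K.ι, inferInstance, fun j => (C.ee K s t j).pert (d j) ε,
    Sum.inr K.H, Sum.elim lam K.lam⟩

/-- the secant direction on an end -/
noncomputable def sec (C K : Cv) (G q : E → ℂ) (l : End) : ℂ → ℂ :=
  l.res fun y => q y / (G y * K.P y * dw C.P y)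

end Cv

/-- over the closed disc only the sheet `w` of `A` is present -/
structure Priv (A B : Cv) (p : ℂ) (ρ : ℝ) (w : ℂ → ℂ) : Prop where
  ins : closedBall p ρ ⊆ ball A.c A.R
  far : ∀ z ∈ closedBall p ρ, 8 / 5 < ‖z - B.c‖
  an : AnalyticOnNhd ℂ w (closedBall p ρ)
  zero : ∀ᶠ z in 𝓝ˢ (closedBall p ρ), A.P (z, w z) = 0
  mem : ∀ z ∈ closedBall p ρ, (z, w z) ∈ A.Γ ∧ (z, w z) ∉ loops A.e ∧ dw A.P (z, w z) ≠ 0
  only : ∀ y ∈ A.Γ, y.1 ∈ closedBall p ρ → y.2 = w y.1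
  none : ∀ y ∈ B.Γ, y.1 ∉ closedBall p ρ

/-- conditions on `A` relative to `B` -/
structure Half (A B : Cv) (T : ℤ) : Prop where
  curve : IsCurve A.P A.Γ A.e
  out : A.hub.k = Kind.out
  cen : (A.c = 1 ∨ A.c = -1) ∧ B.c = -A.c
  rad : 3 / 2 < A.R ∧ A.R < 8 / 5
  ins : ∀ j, j ≠ A.H → closedBall (A.e j).c (A.e j).r ⊆ ball A.c A.R ∪ ball B.c B.R
  big : ∀ j, ∀ z ∈ (A.e j).circ, 1 / 4 < ‖z‖
  off : Off (brv A.P A.Γ) A.e ∧ Off (brv A.P A.Γ) B.e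
  lam : ∀ j, ∃ k, HasWind (A.e j) (A.lam j) k ∧ ((A.e j).k = Kind.pt → k = 1)
  priv : ∀ j, (A.e j).k = Kind.pt → Priv A B (A.e j).c 0 (A.e j).w
  tot : TotW A.e (A.W B) T

/-- the algebraic state -/
structure Alg (C K : Cv) (Nd : Finset E) (TC TK : ℤ) (D : ℕ) : Prop where
  hC : Half C K TC
  hK : Half K C TK
  nodal : Nodal C.P K.P C.Γ K.Γ C.e K.e Nd
  off : ∀ y ∈ Nd, (∀ j, y.1 ∉ (C.e j).circ) ∧ ∀ j, y.1 ∉ (K.e j).circ
  nout : C.nout ≤ D ∧ K.nout ≤ D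
  num : 3 * D + 1 ≤ Nd.card ∧ 2 * (Nd.card : ℤ) ≤ TC ∧ 0 ≤ TK
  pt : ∃ y ∈ C.Γ, ‖y.1‖ < 1 / 5

/-- two functions with the same winding -/
def SameW (l : End) (W W' : ℂ → ℂ) : Prop := ∃ k, HasWind l W k ∧ HasWind l W' k

theorem HasWind.analyticAt {l : End} {W : ℂ → ℂ} {k : ℤ} (h : HasWind l W k) :
    ∀ᶠ z in 𝓝ˢ l.circ, z ≠ l.c → AnalyticAt ℂ W z ∧ W z ≠ 0 := by
  obtain ⟨g, h1, h2⟩ := h
  refine eventually_nhdsSet_iff_forall.2 fun x hx => ?_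
  filter_upwards [(h1 x hx).eventually_analyticAt,
    (eventually_nhdsSet_iff_forall.1 h2 x hx).eventually_nhds] with z a b hz
  have h3 : z - l.c ≠ 0 := sub_ne_zero.2 hz
  refine ⟨AnalyticAt.congr (f := fun z => (z - l.c) ^ (-l.sgn * k) * Complex.exp (g z))
    (((analyticAt_id.sub analyticAt_const).zpow h3).mul a.cexp) ?_, ?_⟩
  · filter_upwards [b, isOpen_ne.mem_nhds hz] with u c d using (c d).symm
  · rw [b.self_of_nhds hz]; exact mul_ne_zero (zpow_ne_zero _ h3) (Complex.exp_ne_zero _)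

/-- the winding persists on the nearby circles -/
theorem HasWind.adj {l : End} {W : ℂ → ℂ} {k : ℤ} (h : HasWind l W k) (ho : l.ok) :
    ∃ δ > 0, ∀ s t, |s| < δ → t < δ → HasWind (l.adj s t) W k := by
  obtain ⟨g, h1, h2⟩ := h
  have h3 : ∀ᶠ z in 𝓝ˢ l.circ, AnalyticAt ℂ g z :=
    eventually_nhdsSet_iff_forall.2 fun x hx => (h1 x hx).eventually_analyticAt
  obtain ⟨δ, hδ, h4⟩ := End.shrink ho (h3.and h2)
  have h5 := fun (z : ℂ) (hz : z ∈ l.nearO δ δ) =>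
    h4 δ δ le_rfl le_rfl (l.nearO_subset_near le_rfl le_rfl hz)
  refine ⟨δ, hδ, fun s t hs ht => ?_⟩
  unfold End.adj
  split_ifs with hk h0
  · refine HasWind.of_fac (End.isOpen_nearO ho δ δ) ?_ (fun z hz => (h5 z hz).1) fun z hz a => ?_
    · rw [End.nearO_pt hk]; exact sphere_subset_ball ht
    · have : (l.hole t).sgn = l.sgn := by simp [End.sgn, End.hole, hk]
      rw [this]; exact (h5 z hz).2 a
  · exact ⟨g, h1, h2⟩
  · refine HasWind.of_fac (End.isOpen_nearO ho δ δ) ?_ (fun z hz => (h5 z hz).1)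
      fun z hz a => (h5 z hz).2 a
    rw [End.nearO_loop hk]; exact End.sphere_subset_ann (ho.pos hk) (abs_lt.1 hs)

/-- the private sector: both curves lie over the two hub discs, and near a point of the hub
circle outside the other big disc only the hub sheet is present -/
def St_ARC : Prop :=
  ∀ (C K : Cv) (T T' : ℤ), Half C K T → Half K C T' →
    (∀ y ∈ C.Γ ∪ K.Γ, ‖y.1 - C.c‖ ≤ C.R ∨ ‖y.1 - K.c‖ ≤ K.R) ∧
    (∃ h > 0, ∀ z ∈ C.hub.ann (Icc (-h) h), 8 / 5 ≤ ‖z - K.c‖ →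
      (∀ w, (z, w) ∈ C.Γ ↔ w = C.hub.w z ∧ 0 ≤ C.hub.dep z) ∧ (∀ w, (z, w) ∉ K.Γ) ∧
      (∀ j, j ≠ C.H → (C.e j).r < ‖z - (C.e j).c‖) ∧ ∀ j, (K.e j).r < ‖z - (K.e j).c‖) ∧
    ∃ h > 0, ∀ p ρ, closedBall p ρ ⊆ C.hub.ann (Ioo 0 h) →
      (∀ z ∈ closedBall p ρ, 8 / 5 < ‖z - K.c‖) → Priv C K p ρ C.hub.w

/-- privacy is an open condition and passes to smaller discs -/
def St_PRIVO : Prop :=
  ∀ (A B : Cv) (p : ℂ) (ρ : ℝ) (w : ℂ → ℂ), IsCurve A.P A.Γ A.e → IsCompact B.Γ → 0 ≤ ρ →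
    Priv A B p ρ w → (∃ ρ' > ρ, Priv A B p ρ' w) ∧ ∀ ρ' ≤ ρ, Priv A B p ρ' w

def St_GROW : Prop :=
  ∀ (C K : Cv) (Nd : Finset E) (TC TK : ℤ) (D : ℕ), Alg C K Nd TC TK D →
    ∀ᶠ y in 𝓝[>] (0 : ℝ), Alg (C.grow y) K Nd TC TK D ∧
      (∀ p ρ w, Priv C K p ρ w → Priv (C.grow y) K p ρ w) ∧
      ∀ p ρ w, Priv K C p ρ w → Priv K (C.grow y) p ρ w

def St_ROTA : Prop :=
  ∀ (C K : Cv) (Nd : Finset E) (TC TK : ℤ) (D : ℕ) (lam : C.ι → ℂ → ℂ), Alg C K Nd TC TK D →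
    (∀ j, SameW (C.e j) (C.lam j) (lam j)) → Alg (C.rot lam) K Nd TC TK D

def St_ADDP : Prop :=
  ∀ (C K : Cv) (Nd : Finset E) (TC TK : ℤ) (D : ℕ) (π : Type) [Fintype π] (p : π → ℂ)
    (w lp : π → ℂ → ℂ) (lam : C.ι → ℂ → ℂ), Alg C K Nd TC TK D → Function.Injective p →
    (∀ k, Priv C K (p k) 0 (w k) ∧ (∀ j, (C.e j).k = Kind.pt → (C.e j).c ≠ p k) ∧
      HasWind ⟨p k, 0, Kind.pt, w k⟩ (lp k) 1) →
    (∀ j, j ≠ C.H → SameW (C.e j) (C.lam j) (lam j)) →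
    (∃ k, HasWind C.hub (C.lam C.H) k ∧ HasWind C.hub (lam C.H) (k - Fintype.card π)) →
    Alg (C.addp π p w lp lam) K Nd TC TK D

/-- a generic value in a given open set -/
def St_GENA : Prop :=
  ∀ (C K : Cv) (Nd : Finset E) (TC TK : ℤ) (D : ℕ) (U : Set ℂ) (μ : Type) [Fintype μ]
    (c : μ → ℂ) (r : μ → ℝ), Alg C K Nd TC TK D → IsOpen U → U.Nonempty →
    ∃ a ∈ U, (∀ i, a ∉ sphere (c i) (r i)) ∧ (∀ j, a ∉ (K.e j).circ) ∧ (∀ j, a ∉ (C.e j).circ) ∧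
      (∀ y ∈ Nd, y.1 ≠ a) ∧ a ∉ brv K.P K.Γ ∧ a ∉ brv C.P C.Γ ∧
      ∃ Z : Finset E, SimpleZ C.P (fun y => y.1 - a) C.Γ C.e Z ∧ Z.card ≤ D

/-- the macro secant -/
def St_SECA : Prop :=
  ∀ (C K : Cv) (Nd : Finset E) (TC TK : ℤ) (D : ℕ) (a : ℂ) (Z : Finset E) (m : ℕ),
    Alg C K Nd TC TK D → SimpleZ C.P (fun y => y.1 - a) C.Γ C.e Z → (Z.card : ℤ) + m = TC →
    ∃ q G : E → ℂ, IsPoly q ∧ IsPoly G ∧ (∀ y ∈ C.Γ ∪ K.Γ, q y ≠ 0 ∧ G y ≠ 0) ∧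
      (∀ j, j ≠ C.H → SameW (C.e j) (C.lam j) (C.sec K (fun y => G y *
        ∏ i ∈ Finset.univ.filter fun i => (C.e i).k = Kind.pt, (y.1 - (C.e i).c))
        (fun y => (y.1 - a) * q y) (C.e j))) ∧
      SameW C.hub (C.lam C.H) fun z => (z - C.c) ^ m * C.sec K (fun y => G y *
        ∏ i ∈ Finset.univ.filter fun i => (C.e i).k = Kind.pt, (y.1 - (C.e i).c))
        (fun y => (y.1 - a) * q y) C.hub z

/-- numerator of the secant with the window factors -/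
noncomputable def qWin {π : Type} [Fintype π] (a0 a : ℂ) (q : E → ℂ) (u u' p' : π → ℂ) (y : E) : ℂ :=
  a0 * ((y.1 - a) * q y) * ∏ k, ((y.1 - u k) * (y.1 - u' k) * (y.1 - p' k))

/-- denominator of the secant with the window factors -/
noncomputable def gWin (C : Cv) {π : Type} [Fintype π] (G : E → ℂ) (p : π → ℂ) (y : E) : ℂ :=
  G y * (∏ i ∈ Finset.univ.filter fun i => (C.e i).k = Kind.pt, (y.1 - (C.e i).c)) *
    ∏ k, (y.1 - p k)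

/-- the curve with the new ports, all directions are the secant -/
noncomputable def Cv.win (C K : Cv) (π : Type) [Fintype π] (G q : E → ℂ) (p : π → ℂ) : Cv :=
  C.addp π p (fun _ => C.hub.w) (fun _ => C.sec K G q C.hub) fun j => C.sec K G q (C.e j)

open Classical in
/-- the secant with `m` windows: ports `p`, pinned zeros `u`, reflected points `u'`, `p'` -/
def St_WINQ : Prop :=
  ∀ (C K : Cv) (Nd : Finset E) (TC TK : ℤ) (D : ℕ), Alg C K Nd TC TK D → ∃ h > 0,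
    ∀ (a0 a : ℂ) (Z : Finset E) (q G : E → ℂ) (π : Type) [Fintype π] (p u u' p' : π → ℂ),
    a0 ≠ 0 → SimpleZ C.P (fun y => y.1 - a) C.Γ C.e Z → (∀ j, a ∉ (K.e j).circ) →
    (∀ y ∈ Nd, y.1 ≠ a) → IsPoly q → IsPoly G → (∀ y ∈ C.Γ ∪ K.Γ, q y ≠ 0 ∧ G y ≠ 0) →
    (∀ j, j ≠ C.H → SameW (C.e j) (C.lam j) (C.sec K (fun y => G y *
      ∏ i ∈ Finset.univ.filter fun i => (C.e i).k = Kind.pt, (y.1 - (C.e i).c))
      (fun y => (y.1 - a) * q y) (C.e j))) →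
    (SameW C.hub (C.lam C.H) fun z => (z - C.c) ^ Fintype.card π * C.sec K (fun y => G y *
      ∏ i ∈ Finset.univ.filter fun i => (C.e i).k = Kind.pt, (y.1 - (C.e i).c))
      (fun y => (y.1 - a) * q y) C.hub z) →
    Function.Injective p → Function.Injective u → (∀ k k', u k ≠ p k') →
    (∀ k, u k ≠ a ∧ p k ≠ a ∧ p k ∈ C.hub.ann (Ioo 0 h) ∧ u k ∈ C.hub.ann (Ioo 0 h) ∧
      u' k ∈ C.hub.ann (Ioo (-h) 0) ∧ p' k ∈ C.hub.ann (Ioo (-h) 0) ∧ 8 / 5 < ‖p k - K.c‖ ∧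
      8 / 5 < ‖u k - K.c‖ ∧ 8 / 5 < ‖u' k - K.c‖ ∧ 8 / 5 < ‖p' k - K.c‖) →
    Alg (C.win K π (gWin C G p) (qWin a0 a q u u' p') p) K Nd TC TK D ∧
      IsPoly (gWin C G p) ∧ IsPoly (qWin a0 a q u u' p') ∧ (∀ y ∈ K.Γ, gWin C G p y ≠ 0) ∧
      (∀ y ∈ C.Γ, gWin C G p y = 0 →
        ∃ j, ((C.win K π (gWin C G p) (qWin a0 a q u u' p') p).e j).k = Kind.pt ∧
          y = (((C.win K π (gWin C G p) (qWin a0 a q u u' p') p).e j).c,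
            ((C.win K π (gWin C G p) (qWin a0 a q u u' p') p).e j).w
              ((C.win K π (gWin C G p) (qWin a0 a q u u' p') p).e j).c)) ∧
      SimpleZ C.P (qWin a0 a q u u' p') C.Γ (C.win K π (gWin C G p) (qWin a0 a q u u' p') p).e
        (Z ∪ Finset.univ.image fun k => (u k, C.hub.w (u k))) ∧
      (∀ y ∈ Nd, qWin a0 a q u u' p' y ≠ 0) ∧
      ∀ y ∈ Z ∪ Finset.univ.image fun k => ((u k, C.hub.w (u k)) : E), ∀ j, y.1 ∉ (K.e j).circ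

/-- admissible cutting depths -/
def St_CUTS : Prop :=
  ∀ (C K : Cv) (T : ℤ), Half C K T → ∃ s0 > 0, ∀ j, (C.e j).k ≠ Kind.pt → ∀ s, 0 < s → s ≤ s0 →
    (∀ z ∈ (C.e j).ann (Icc 0 s), 1 / 4 < ‖z‖) ∧
      closedBall (C.e j).c ((C.e j).rad s) ⊆ ball C.c C.R ∪ ball K.c K.R

/-- hypotheses of the split -/
structure SplitIn (C K : Cv) (Nd Nd' : Finset E) (G q : E → ℂ) (Sig : Finset ℂ) (r1 h : ℝ)
    (s t : C.ι → ℝ) (d : C.ι ⊕ K.ι → ℂ × ℂ → ℂ) (lam : C.ι → ℂ → ℂ) : Prop where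
  pG : IsPoly G
  pq : IsPoly q
  geo : Geo C.P C.Γ C.e Sig r1 h
  sig : brv K.P K.Γ ⊆ Sig ∧ (∀ y ∈ Nd, y.1 ∈ Sig) ∧ ∀ y ∈ Nd', y.1 ∈ Sig
  gK : ∀ y ∈ K.Γ, G y ≠ 0
  gC : ∀ y ∈ C.Γ, G y = 0 → ∃ j, (C.e j).k = Kind.pt ∧ y = ((C.e j).c, (C.e j).w (C.e j).c)
  qz : SimpleZ C.P q C.Γ C.e Nd'
  qn : ∀ y ∈ Nd, q y ≠ 0
  qo : ∀ y ∈ Nd', ∀ j, y.1 ∉ (K.e j).circ
  dir : ∀ j, SameW (C.e j) (C.lam j) (C.sec K G q (C.e j))
  st : ∀ j, |s j| < 2 * h ∧ t j < 2 * r1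
  loop : ∀ j, (C.e j).k ≠ Kind.pt → 0 < s j ∧
    (∀ z ∈ (C.e j).ann (Icc 0 (s j)), 1 / 4 < ‖z‖) ∧
    closedBall (C.e j).c ((C.e j).rad (s j)) ⊆ ball C.c C.R ∪ ball K.c K.R
  port : ∀ j, (C.e j).k = Kind.pt → 0 < t j ∧ Priv C K (C.e j).c (t j) (C.e j).w
  fam : ∀ j, SheetFam (C.pA K G q) (C.ee K s t j).w (C.ee K s t j).circ (d j)
  new : ∀ j, SameW ((C.e j).adj (s j) (t j)) (lam j) (C.sec K G q (C.e j))

def St_SPLA : Prop :=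
  ∀ (C K : Cv) (Nd Nd' : Finset E) (TC TK : ℤ) (D : ℕ) (G q : E → ℂ) (Sig : Finset ℂ) (r1 h : ℝ)
    (s t : C.ι → ℝ) (d : C.ι ⊕ K.ι → ℂ × ℂ → ℂ) (lam : C.ι → ℂ → ℂ), Alg C K Nd TC TK D →
    SplitIn C K Nd Nd' G q Sig r1 h s t d lam →
    (Nd'.card : ℤ) = TC ∧ IsCurve C.P (C.cut s t r1 h) (fun j => (C.e j).adj (s j) (t j)) ∧
    ∃ Γε, SplitOut (C.pA K G q) (C.cut s t r1 h ∪ K.Γ)
        ({y | y ∈ C.cut s t r1 h ∧ dw C.P y = 0} ∪ {y | y ∈ K.Γ ∧ dw K.P y = 0} ∪ Nd)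
        (C.ee K s t) d Γε ∧
      (∀ᶠ y in 𝓝[>] (0 : ℝ), ∀ᶠ ε in 𝓝[≠] (0 : ℂ),
        Alg (C.split K G q s t d lam Γε ε) (C.grow y) Nd' (2 * TC + TK) (2 * TC - Nd.card) (2 * D)) ∧
      (∀ p ρ w d', Priv K C p ρ w → SheetFam (C.pA K G q) w (closedBall p ρ) d' →
        ∀ᶠ y in 𝓝[>] (0 : ℝ), ∀ᶠ ε in 𝓝[≠] (0 : ℂ),
          Priv (C.split K G q s t d lam Γε ε) (C.grow y) p ρ fun z => w z + ε * d' (z, ε)) ∧
      ∀ j, (C.e j).k = Kind.pt → ∀ ρ < t j, ∀ᶠ y in 𝓝[>] (0 : ℝ), ∀ᶠ ε in 𝓝[≠] (0 : ℂ),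
        Priv (C.grow y) (C.split K G q s t d lam Γε ε) (C.e j).c ρ (C.e j).w

end Pool.Agent.CF
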