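import Pool.Agent.Lib.CF.Alg

open Set Metric Filter Topology

namespace Pool.Agent.CF

namespace End

variable {e : End} {s t : ℝ}

theorem adj_loop (hk : e.k ≠ Kind.pt) : e.adj s t = e.move s := if_neg hk

theorem adj_pt (hk : e.k = Kind.pt) (ht : 0 < t) : e.adj s t = e.hole t := by simp [adj, hk, ht]

@[simp] theorem adj_c : (e.adj s t).c = e.c := by unfold adj; split_ifs <;> rfl

@[simp] theorem adj_w : (e.adj s t).w = e.w := by unfold adj; split_ifs <;> rfl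

theorem adj_res (H : E → ℂ) : (e.adj s t).res H = e.res H := by
  funext z; simp [res]

theorem adj_gr (A : Set ℂ) : (e.adj s t).gr A = e.gr A := by simp [gr]

theorem adj_out : (e.adj s t).k = Kind.out ↔ e.k = Kind.out := by
  unfold adj; split_ifs with h1 h2
  · simp [hole, h1]
  · rfl
  · rfl

theorem adj_ne_pt (h : e.k = Kind.pt → 0 < t) : (e.adj s t).k ≠ Kind.pt := by
  by_cases hk : e.k = Kind.pt
  · rw [adj_pt hk (h hk)]; simp [hole]
  · rw [adj_loop hk]; exact hk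

theorem adj_circ_subset (ho : e.ok) {a ρ : ℝ} (hs : |s| < a) (ht : t < ρ) (hρ : 0 < ρ) :
    (e.adj s t).circ ⊆ e.nearO a ρ := by
  unfold adj; split_ifs with h1 h2
  · rw [nearO_pt h1]; exact sphere_subset_ball ht
  · exact circ_subset_nearO ho ((abs_nonneg s).trans_lt hs) hρ
  · rw [nearO_loop h1]; exact sphere_subset_ann (ho.pos h1) (abs_lt.1 hs)

theorem side_move (hk : e.k ≠ Kind.pt) (hr : 0 < e.r) {z : ℂ} (hz : z ≠ e.c) :
    (e.move s).side z ↔ s ≤ e.dep z := by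
  rw [side_iff (e := e.move s) hk (rad_pos hr s) hz, dep_move hr s hz, sub_nonneg]

theorem side_hole {z : ℂ} : (e.hole t).side z ↔ t ≤ ‖z - e.c‖ := by simp [side, hole]

end End

namespace Cv

variable {A : Cv} {y : ℝ}

theorem grow_e_H : (A.grow y).e A.H = A.hub.move (-y) := if_pos rfl

theorem grow_e_ne {j : A.ι} (h : j ≠ A.H) : (A.grow y).e j = A.e j := if_neg h

theorem grow_hub : (A.grow y).hub = A.hub.move (-y) := grow_e_H

@[simp] theorem grow_c : (A.grow y).c = A.c := by rw [c, grow_hub]; rfl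

theorem grow_R : (A.grow y).R = A.hub.rad (-y) := by rw [R, grow_hub]; rfl

theorem grow_k (j : A.ι) : ((A.grow y).e j).k = (A.e j).k := by
  by_cases h : j = A.H
  · subst h; rw [grow_e_H]; rfl
  · rw [grow_e_ne h]

theorem grow_ec (j : A.ι) : ((A.grow y).e j).c = (A.e j).c := by
  by_cases h : j = A.H
  · subst h; rw [grow_e_H]; rfl
  · rw [grow_e_ne h]

theorem grow_w (j : A.ι) : ((A.grow y).e j).w = (A.e j).w := by
  by_cases h : j = A.H
  · subst h; rw [grow_e_H]; rfl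
  · rw [grow_e_ne h]

theorem grow_nout : (A.grow y).nout = A.nout := by
  unfold nout
  exact congrArg Finset.card (Finset.filter_congr fun j _ => by rw [grow_k])

theorem le_grow_R (hk : A.hub.k = Kind.out) (hr : 0 ≤ A.R) (hy : 0 ≤ y) : A.R ≤ (A.grow y).R := by
  rw [grow_R, End.rad, End.sgn, if_pos hk]
  exact le_mul_of_one_le_right hr (Real.one_le_exp (by simpa using hy))

end Cv

section cut

variable {ι : Type} {P : E → ℂ} {Γ : Set E} {e : ι → End} {Sig : Finset ℂ} {r1 h : ℝ}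
  {e' : ι → End}

theorem Geo.nearO_sub (_G : Geo P Γ e Sig r1 h) (j : ι) :
    (e j).nearO (2 * h) (2 * r1) ⊆ (e j).near (2 * h) (2 * r1) :=
  (e j).nearO_subset_near le_rfl le_rfl

theorem Geo.side_of_moved (G : Geo P Γ e Sig r1 h) {y : E} (hy : y ∈ moved Γ e e' r1 h) {j : ι}
    (hj : y ∈ (e j).gr ((e j).nearO (2 * h) (2 * r1))) : (e' j).side y.1 := by
  rcases hy with hy | ⟨i, h1, h2⟩
  · exact absurd hj (hy.2 j)
  · by_cases hij : i = j
    · exact hij ▸ h2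
    · exact absurd ((e j).gr_mono (G.nearO_sub j) hj) (disjoint_left.1 (G.disj hij) h1)

theorem Geo.mem_moved (G : Geo P Γ e Sig r1 h) {y : E} (hy : y ∈ Γ)
    (hs : ∀ j, y ∈ (e j).gr ((e j).nearO (2 * h) (2 * r1)) → (e' j).side y.1) :
    y ∈ moved Γ e e' r1 h := by
  by_cases a : ∃ j, y ∈ (e j).gr ((e j).nearO (2 * h) (2 * r1))
  · obtain ⟨j, hj⟩ := a
    exact Or.inr ⟨j, (e j).gr_mono (G.nearO_sub j) hj, hs j hj⟩
  · exact Or.inl ⟨hy, fun j hj => a ⟨j, hj⟩⟩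

theorem Geo.not_near (G : Geo P Γ e Sig r1 h) {b : ℂ} (hb : b ∈ Sig) (j : ι) :
    b ∉ (e j).near (2 * h) (2 * r1) := fun a => by
  have := G.sig j b a b hb
  simp at this; linarith [G.r1pos]

/-- cutting gives a subset -/
theorem Geo.cut_subset (G : Geo P Γ e Sig r1 h) (hc : IsCurve P Γ e) {s t : ι → ℝ}
    (hs : ∀ j, (e j).k ≠ Kind.pt → 0 ≤ s j) :
    moved Γ e (fun j => (e j).adj (s j) (t j)) r1 h ⊆ Γ := by
  rintro y (hy | ⟨j, h1, h2⟩)
  · exact hy.1
  · have : y = (y.1, (e j).w y.1) := Prod.ext rfl h1.2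
    rw [this]
    refine (G.mem j h1.1).2 ?_
    by_cases hk : (e j).k = Kind.pt
    · exact End.side_pt hk _
    · have h3 := h1.1
      rw [End.near_loop hk] at h3
      have hr := (hc.ok j).pos hk
      beta_reduce at h2
      rw [End.adj_loop hk, End.side_move hk hr h3.1] at h2
      exact (End.side_iff hk hr h3.1).2 ((hs j hk).trans h2)

end cut

theorem exists_wind (hW : St_WEXT) {e : End} {H : E → ℂ} (ho : e.ok) (hH : IsPoly H)
    (hw : AnalyticOnNhd ℂ e.w e.circ) (h0 : ∀ z ∈ e.circ, H (z, e.w z) ≠ 0) :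
    ∃ k, HasWind e (e.res H) k := by
  have ha := End.analyticOnNhd_res hH hw
  by_cases hk : e.k = Kind.pt
  · have hc : e.c ∈ e.circ := by rw [End.circ_pt ho hk]; rfl
    exact ⟨0, HasWind.of_pt ho hk (ha _ hc) (h0 _ hc)⟩
  · exact hW.1 e _ hk (ho.pos hk) ha h0

/-- a polynomial without zeros on a loop has no zeros on a thin layer -/
theorem layer_ne {e : End} (ho : e.ok) (hk : e.k ≠ Kind.pt) (hw : AnalyticOnNhd ℂ e.w e.circ)
    {H : E → ℂ} (hH : IsPoly H) (h0 : ∀ z ∈ e.circ, H (z, e.w z) ≠ 0) :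
    ∀ᶠ y in 𝓝[>] (0 : ℝ), ∀ x ∈ e.gr (e.ann (Icc (-y) y)), H x ≠ 0 := by
  have h1 : ∀ᶠ z in 𝓝ˢ e.circ, e.res H z ≠ 0 := eventually_nhdsSet_iff_forall.2 fun z hz =>
    (End.analyticOnNhd_res hH hw z hz).continuousAt.eventually_ne (h0 z hz)
  obtain ⟨δ, hδ, h2⟩ := End.shrink ho h1
  filter_upwards [Ioo_mem_nhdsGT hδ] with y hy x hx
  have h3 : x = (x.1, e.w x.1) := Prod.ext rfl hx.2
  rw [h3]
  refine h2 y δ hy.2.le le_rfl ?_
  rw [End.near_loop hk]; exact hx.1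

theorem Priv.norm_gt {A B : Cv} {p : ℂ} {ρ : ℝ} {w : ℂ → ℂ} (h : Priv A B p ρ w)
    (hB : ‖B.c‖ = 1) {z : ℂ} (hz : z ∈ closedBall p ρ) : 3 / 5 < ‖z‖ := by
  have := h.far z hz
  have := norm_sub_le z B.c
  linarith

theorem Half.norm_c {A B : Cv} {T : ℤ} (h : Half A B T) : ‖A.c‖ = 1 ∧ ‖B.c‖ = 1 := by
  obtain ⟨a, b⟩ := h.cen
  rcases a with a | a <;> simp [a, b]

end Pool.Agent.CF
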