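import Pool.Agent.Lib.CF.Div

open Set Metric Filter Topology

namespace Pool.Agent.CF

namespace HasWind

variable {e : End} {W W' : ℂ → ℂ} {k k' : ℤ}

theorem congr (h : HasWind e W k) (h' : ∀ᶠ z in 𝓝ˢ e.circ, z ≠ e.c → W' z = W z) :
    HasWind e W' k := by
  obtain ⟨g, h1, h2⟩ := h
  exact ⟨g, h1, by filter_upwards [h2, h'] with z a b hz using (b hz).trans (a hz)⟩

theorem congr' (h : HasWind e W k) (h' : ∀ z, W' z = W z) : HasWind e W' k :=
  h.congr (Eventually.of_forall fun z _ => h' z)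

theorem cast (h : HasWind e W k) (h' : k = k') : HasWind e W k' := h' ▸ h

/-- the winding number does not depend on the sheet -/
theorem setW (w : ℂ → ℂ) : HasWind (e.setW w) W k ↔ HasWind e W k := Iff.rfl

theorem of_eq {e' : End} (h : HasWind e W k) (h1 : e'.c = e.c) (h2 : e'.r = e.r)
    (h3 : e'.k = e.k) : HasWind e' W k := by
  have : e' = e.setW e'.w := by cases e'; cases e; simp_all [End.setW]
  rw [this]; exact h

theorem ne_zero (h : HasWind e W k) : ∀ᶠ z in 𝓝ˢ e.circ, z ≠ e.c → W z ≠ 0 := by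
  obtain ⟨g, -, h2⟩ := h
  filter_upwards [h2] with z a hz
  rw [a hz]; exact mul_ne_zero (zpow_ne_zero _ (sub_ne_zero.2 hz)) (Complex.exp_ne_zero _)

theorem mul (h : HasWind e W k) (h' : HasWind e W' k') :
    HasWind e (fun z => W z * W' z) (k + k') := by
  obtain ⟨g, h1, h2⟩ := h; obtain ⟨g', h3, h4⟩ := h'
  refine ⟨fun z => g z + g' z, h1.add h3, ?_⟩
  filter_upwards [h2, h4] with z a b hz
  rw [a hz, b hz, mul_add, zpow_add₀ (sub_ne_zero.2 hz), Complex.exp_add]; ring

theorem inv (h : HasWind e W k) : HasWind e (fun z => (W z)⁻¹) (-k) := by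
  obtain ⟨g, h1, h2⟩ := h
  refine ⟨fun z => -g z, h1.neg, ?_⟩
  filter_upwards [h2] with z a hz
  rw [a hz, mul_neg, zpow_neg, Complex.exp_neg, mul_inv]

theorem div (h : HasWind e W k) (h' : HasWind e W' k') :
    HasWind e (fun z => W z / W' z) (k - k') :=
  ((h.mul h'.inv).congr' fun _ => div_eq_mul_inv _ _).cast (by ring)

theorem exp {g : ℂ → ℂ} (h : AnalyticOnNhd ℂ g e.circ) :
    HasWind e (fun z => Complex.exp (g z)) 0 :=
  ⟨g, h, Eventually.of_forall fun z _ => by simp⟩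

theorem const {a : ℂ} (ha : a ≠ 0) : HasWind e (fun _ => a) 0 :=
  (exp (g := fun _ => Complex.log a) analyticOnNhd_const).congr' fun _ => (Complex.exp_log ha).symm

theorem pow (h : HasWind e W k) (n : ℕ) : HasWind e (fun z => W z ^ n) (n * k) := by
  induction n with
  | zero => exact ((const one_ne_zero).congr' fun _ => by simp).cast (by simp)
  | succ n ih => exact ((ih.mul h).congr' fun _ => pow_succ _ _).cast (by push_cast; ring)

theorem zpow (h : HasWind e W k) (n : ℤ) : HasWind e (fun z => W z ^ n) (n * k) := by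
  rcases n.eq_nat_or_neg with ⟨m, rfl | rfl⟩
  · exact (h.pow m).congr' fun _ => zpow_natCast _ _
  · exact ((h.pow m).inv.congr' fun _ => by simp).cast (by ring)

theorem prod {ι : Type*} (s : Finset ι) {f : ι → ℂ → ℂ} {n : ι → ℤ}
    (h : ∀ i ∈ s, HasWind e (f i) (n i)) :
    HasWind e (fun z => ∏ i ∈ s, f i z) (∑ i ∈ s, n i) := by
  classical
  induction s using Finset.induction_on with
  | empty => exact ((const one_ne_zero).congr' fun _ => by simp).cast (by simp)
  | insert a s ha ih =>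
    exact (((h a (by simp)).mul (ih fun i hi => h i (by simp [hi]))).congr' fun _ => by
      rw [Finset.prod_insert ha]).cast (by rw [Finset.sum_insert ha])

theorem self (e : End) : HasWind e (fun z => z - e.c) (-e.sgn) := by
  refine ⟨fun _ => 0, analyticOnNhd_const, Eventually.of_forall fun z _ => ?_⟩
  have : -e.sgn * -e.sgn = 1 := by rcases e.sgn_cases with h | h <;> simp [h.2]
  simp [this]

theorem of_slit (h : AnalyticOnNhd ℂ W e.circ) (h1 : ∀ z ∈ e.circ, W z ∈ Complex.slitPlane) :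
    HasWind e W 0 := by
  refine (exp (g := fun z => Complex.log (W z)) fun z hz => (h z hz).clog (h1 z hz)).congr ?_
  refine eventually_nhdsSet_iff_forall.2 fun z hz => ?_
  filter_upwards [(h z hz).continuousAt.eventually_ne (Complex.slitPlane_ne_zero (h1 z hz))]
    with x hx _ using (Complex.exp_log hx).symm

theorem near_one (h : AnalyticOnNhd ℂ W e.circ) (h1 : ∀ z ∈ e.circ, ‖W z - 1‖ < 1) :
    HasWind e W 0 :=
  of_slit h fun z hz => by simpa using Complex.mem_slitPlane_of_norm_lt_one (h1 z hz)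

/-- Rouche type perturbation -/
theorem perturb (h : HasWind e W k) (hW : AnalyticOnNhd ℂ W e.circ)
    (hW' : AnalyticOnNhd ℂ W' e.circ) (h1 : ∀ z ∈ e.circ, ‖W' z - W z‖ < ‖W z‖) :
    HasWind e W' k := by
  have h0 : ∀ z ∈ e.circ, W z ≠ 0 := fun z hz => norm_pos_iff.1 ((norm_nonneg _).trans_lt (h1 z hz))
  have h2 : HasWind e (fun z => W' z / W z) 0 := by
    refine near_one (hW'.div hW h0) fun z hz => ?_
    rw [div_sub_one (h0 z hz), norm_div, div_lt_one (norm_pos_iff.2 (h0 z hz))]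
    exact h1 z hz
  refine ((h.mul h2).congr ?_).cast (add_zero k)
  filter_upwards [h.ne_zero] with z a hz
  field_simp [a hz]

/-- at a point end a nonvanishing analytic function has winding `0` -/
theorem of_pt (ho : e.ok) (hk : e.k = Kind.pt) (h : AnalyticAt ℂ W e.c) (h0 : W e.c ≠ 0) :
    HasWind e W 0 := by
  refine (const h0).perturb analyticOnNhd_const ?_ ?_
  · rw [End.circ_pt ho hk]; rintro _ rfl; exact h
  · rw [End.circ_pt ho hk]; rintro _ rfl; simpa using h0

/-- a simple zero at a point end -/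
theorem of_pt_simple (ho : e.ok) (hk : e.k = Kind.pt) (h : AnalyticAt ℂ W e.c) (h0 : W e.c = 0)
    (h1 : deriv W e.c ≠ 0) : HasWind e W (-1) := by
  obtain ⟨p, hp⟩ := h
  have h2 : AnalyticAt ℂ (dslope W e.c) e.c := hp.has_fpower_series_dslope_fslope.analyticAt
  have h3 := (self e).mul (of_pt ho hk h2 (by simpa using h1))
  have h4 : e.sgn = 1 := by simp [End.sgn, hk]
  refine (h3.congr' fun z => ?_).cast (by simp [h4])
  have := sub_smul_dslope W e.c z
  rw [h0, sub_zero, smul_eq_mul] at this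
  exact this.symm

theorem lin_out {b : ℂ} (hb : e.r < ‖b - e.c‖) (hr : 0 ≤ e.r) : HasWind e (fun z => z - b) 0 := by
  have h0 : e.c - b ≠ 0 := by
    rw [← norm_pos_iff, norm_sub_rev]; linarith
  refine (const h0).perturb analyticOnNhd_const (fun z _ => by fun_prop) fun z hz => ?_
  rw [sub_sub_sub_cancel_right, mem_sphere_iff_norm.1 hz, norm_sub_rev]; exact hb

theorem lin_in {b : ℂ} (hb : ‖b - e.c‖ < e.r) : HasWind e (fun z => z - b) (-e.sgn) := by
  refine (self e).perturb (fun z _ => by fun_prop) (fun z _ => by fun_prop) fun z hz => ?_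
  rw [sub_sub_sub_cancel_left, mem_sphere_iff_norm.1 hz, norm_sub_rev]; exact hb

/-- two functions with the same winding differ by an exponential -/
theorem ratio (h : HasWind e W k) (h' : HasWind e W' k) :
    ∃ l, AnalyticOnNhd ℂ l e.circ ∧ ∀ᶠ z in 𝓝ˢ e.circ, z ≠ e.c → W' z = W z * Complex.exp (l z) := by
  obtain ⟨g, h1, h2⟩ := h; obtain ⟨g', h3, h4⟩ := h'
  refine ⟨fun z => g' z - g z, h3.sub h1, ?_⟩
  filter_upwards [h2, h4] with z a b hz
  rw [a hz, b hz, mul_assoc, ← Complex.exp_add]; simp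

/-- a factorisation on an open set gives the winding on every circle about `c` inside -/
theorem of_fac {U : Set ℂ} (hU : IsOpen U) (hs : e.circ ⊆ U) {g : ℂ → ℂ}
    (hg : AnalyticOnNhd ℂ g U)
    (h : ∀ z ∈ U, z ≠ e.c → W z = (z - e.c) ^ (-e.sgn * k) * Complex.exp (g z)) : HasWind e W k :=
  ⟨g, hg.mono hs, mem_of_superset (hU.mem_nhdsSet.2 hs) h⟩

/-- stability in a jointly analytic family -/
theorem family {Φ : ℂ × ℂ → ℂ} (hΦ : AnalyticOnNhd ℂ Φ (e.circ ×ˢ {0}))
    (h0 : ∀ z ∈ e.circ, Φ (z, 0) ≠ 0) (h : HasWind e (fun z => Φ (z, 0)) k) :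
    ∀ᶠ ε in 𝓝 (0 : ℂ), HasWind e (fun z => Φ (z, ε)) k := by
  have h1 := eventually_analyticOnNhd e.isCompact_circ hΦ
  have h2 : ∀ᶠ ε in 𝓝 (0 : ℂ), ∀ z ∈ e.circ, ‖Φ (z, ε) - Φ (z, 0)‖ < ‖Φ (z, 0)‖ := by
    refine e.isCompact_circ.eventually_forall_of_forall_eventually fun z hz => ?_
    have h3 := (hΦ (z, 0) ⟨hz, rfl⟩).continuousAt
    have h4 : ContinuousAt (fun p : ℂ × ℂ => Φ (p.2, p.1)) (0, z) :=
      ContinuousAt.comp (g := Φ) (f := fun p : ℂ × ℂ => (p.2, p.1)) h3 (by fun_prop)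
    have h5 : ContinuousAt (fun p : ℂ × ℂ => Φ (p.2, 0)) (0, z) :=
      ContinuousAt.comp (g := Φ) (f := fun p : ℂ × ℂ => (p.2, 0)) h3 (by fun_prop)
    exact (h4.sub h5).norm.eventually_lt h5.norm (by simpa using h0 z hz)
  filter_upwards [h1, h2] with ε a b using h.perturb h1.self_of_nhds a b

/-- a polynomial (or analytic function) restricted to the perturbed sheets -/
theorem pert {H : E → ℂ} {d : ℂ × ℂ → ℂ} (hw : AnalyticOnNhd ℂ e.w e.circ)
    (hd : AnalyticOnNhd ℂ d (e.circ ×ˢ {0})) (hH : ∀ z ∈ e.circ, AnalyticAt ℂ H (z, e.w z))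
    (h0 : ∀ z ∈ e.circ, H (z, e.w z) ≠ 0) (h : HasWind e (e.res H) k) :
    ∀ᶠ ε in 𝓝 (0 : ℂ), HasWind e (fun z => H (z, e.w z + ε * d (z, ε))) k := by
  refine family (Φ := fun p => H (p.1, e.w p.1 + p.2 * d p)) ?_ (by simpa using h0)
    (h.congr' fun z => by simp [End.res])
  rintro ⟨z, ε⟩ ⟨hz, rfl⟩
  refine AnalyticAt.comp (g := H) (f := fun p : ℂ × ℂ => (p.1, e.w p.1 + p.2 * d p))
    (by simpa using hH z hz) (analyticAt_fst.prod ?_)
  exact ((hw z hz).comp (f := Prod.fst) analyticAt_fst).add (analyticAt_snd.mul (hd _ ⟨hz, rfl⟩))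

end HasWind

theorem End.move_zero (e : End) : e.move 0 = e := by cases e; simp [End.move]

theorem End.analyticOnNhd_res {e : End} {H : E → ℂ} {A : Set ℂ} (hH : IsPoly H)
    (hw : AnalyticOnNhd ℂ e.w A) : AnalyticOnNhd ℂ (e.res H) A := fun z hz =>
  (hH.analyticAt _).comp (f := fun z => (z, e.w z)) (analyticAt_id.prod (hw z hz))

theorem Geo.off {ι : Type} {P : E → ℂ} {Γ : Set E} {e : ι → End} {Sig : Finset ℂ} {r1 h : ℝ}
    (hc : IsCurve P Γ e) (G : Geo P Γ e Sig r1 h) : Off (Sig : Set ℂ) e := fun b hb j hj => by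
  have h1 := G.r1pos; have h2 := G.hpos
  have := G.sig j b ((e j).nearO_subset_near le_rfl le_rfl
    (End.circ_subset_nearO (hc.ok j) (by positivity) (by positivity) hj)) b hb
  simp at this; linarith

end Pool.Agent.CF
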