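import Pool.Agent.Lib.CF.AlgB
import Pool.Agent.Lib.SH.Init0

/-! The initial algebraic state. -/

open Set Metric Filter Topology

namespace Pool.Agent.CF

open Pool.Agent.Lib.SH.Init

/-- the graph of `f` over a disc with the direction `(z - c) ^ m` -/
noncomputable def cv0 (f : ℂ → ℂ) (c : ℂ) (R : ℝ) (m : ℤ) : Cv :=
  ⟨gP f, gd f c R, Unit, inferInstance, fun _ => gE f c R, (), fun _ z => (z - c) ^ m⟩

theorem half0 {f g : ℂ → ℂ} {c c' : ℂ} {R R' : ℝ} {m m' n : ℤ} (hf : IsPoly fun y => f y.1)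
    (hc : (c = 1 ∨ c = -1) ∧ c' = -c) (hR : 3 / 2 < R ∧ R < 8 / 5)
    (hw : HasWind (gE f c R) ((gE f c R).res (gP g)) n) :
    Half (cv0 f c R m) (cv0 g c' R' m') (m + n) := by
  have h1 : HasWind (gE f c R) (fun z => (z - c) ^ m) m :=
    ((HasWind.self (gE f c R)).zpow m).cast (by simp [End.sgn, gE])
  have h2 : ‖c‖ = 1 := by rcases hc.1 with a | a <;> simp [a]
  refine ⟨isCurve (ι := Unit) hf (by linarith [hR.1]), rfl, hc, hR, fun j hj => absurd rfl hj,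
    fun j z hz => ?_, ⟨fun b hb => ?_, fun b hb => ?_⟩,
    fun j => ⟨m, h1, fun h => (by cases h)⟩, fun j h => (by cases h), fun _ => m + n, fun j => ?_,
    by simp [cv0]⟩
  · have h3 : ‖z - c‖ = R := mem_sphere_iff_norm.1 hz
    linarith [norm_sub_le z c, hR.1]
  · exact absurd hb (by simp [cv0, brv_gd])
  · exact absurd hb (by simp [cv0, brv_gd])
  · exact (h1.mul hw).congr' fun z => by simp [Cv.W, cv0, End.res, dw_gP]

theorem alg0 {B : Finset ℂ} {c : ℂ} {R R' : ℝ} {m m' : ℤ} (hc : c = 1 ∨ c = -1)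
    (hR : 3 / 2 < R ∧ R < 8 / 5) (hR' : 3 / 2 < R' ∧ R' < 8 / 5) (hB : ∀ b ∈ B, ‖b‖ ≤ 1 / 2)
    (h4 : 4 ≤ B.card) (hm : (B.card : ℤ) ≤ m) (hm' : -(B.card : ℤ) ≤ m') :
    Alg (cv0 (fun _ => 0) c R m) (cv0 (pB B) (-c) R' m') (nodes B) (m + B.card) (m' + B.card) 1 := by
  have h2 : ‖c‖ = 1 := by rcases hc with a | a <;> simp [a]
  have h3 : ∀ b ∈ B, ‖b - c‖ < R ∧ ‖b - -c‖ < R' := fun b hb =>
    ⟨by linarith [norm_sub_le b c, hB b hb, hR.1],
      by linarith [norm_sub_le b (-c), hB b hb, hR'.1, norm_neg c]⟩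
  have h5 : (nodes B).card = B.card := Finset.card_map _
  refine ⟨half0 (IsPoly.const 0) ⟨hc, rfl⟩ hR (wind_left fun b hb => (h3 b hb).1),
    half0 (pB_poly B) ⟨by rcases hc with a | a <;> simp [a], (neg_neg c).symm⟩ hR'
      (wind_right fun b hb => (h3 b hb).2), nodal h3, fun y hy => ⟨fun j a => ?_, fun j a => ?_⟩,
    ⟨?_, ?_⟩, by rw [h5]; omega, (0, 0), ⟨?_, rfl⟩, by simp⟩
  · exact (h3 _ (mem_nodes.1 hy).1).1.ne (mem_sphere_iff_norm.1 a)
  · exact (h3 _ (mem_nodes.1 hy).1).2.ne (mem_sphere_iff_norm.1 a)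
  · exact (Finset.card_filter_le _ _).trans (by simp [cv0])
  · exact (Finset.card_filter_le _ _).trans (by simp [cv0])
  · simp [h2]; linarith [hR.1]

end Pool.Agent.CF
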