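import Pool.Agent.Lib.CF.Blue

open Set Metric Filter Topology MeasureTheory

namespace Pool.Agent.CF

namespace Collar

theorem half {Z N F u v : Set E} (hZ : IsPreconnected Z) (hN : IsOpen N) (hF : IsClosed F)
    (h1 : Z ∩ F ⊆ N) (hu : IsOpen u) (hv : IsOpen v) (h2 : Z \ F ⊆ u ∪ v)
    (h3 : (Z \ F) ∩ (u ∩ v) = ∅) (h4 : (Z ∩ N) \ F ⊆ u) : Z \ F ⊆ u ∨ Z \ F ⊆ v := by
  have h5 : Z ⊆ (u ∪ N) ∪ (v ∩ Fᶜ) := by
    intro z hz
    by_cases hf : z ∈ F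
    · exact Or.inl (Or.inr (h1 ⟨hz, hf⟩))
    · rcases h2 ⟨hz, hf⟩ with h | h
      · exact Or.inl (Or.inl h)
      · exact Or.inr ⟨h, hf⟩
  have h6 : Z ∩ ((u ∪ N) ∩ (v ∩ Fᶜ)) = ∅ := by
    refine eq_empty_of_forall_notMem ?_
    rintro z ⟨hz, h, h', hf⟩
    have hu' : z ∈ u := h.elim id fun a => h4 ⟨⟨hz, a⟩, hf⟩
    have : z ∈ (Z \ F) ∩ (u ∩ v) := ⟨⟨hz, hf⟩, hu', h'⟩
    rw [h3] at this
    exact this
  rcases isPreconnected_iff_subset_of_disjoint.1 hZ _ _ (hu.union hN) (hv.inter hF.isOpen_compl)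
    h5 h6 with h | h
  · exact Or.inl fun z hz => (h hz.1).elim id fun a => h4 ⟨⟨hz.1, a⟩, hz.2⟩
  · exact Or.inr fun z hz => (h hz.1).1

theorem one {Z N F : Set E} (hZ : IsPreconnected Z) (hN : IsOpen N) (hF : IsClosed F)
    (h1 : Z ∩ F ⊆ N) (hM : IsPreconnected ((Z ∩ N) \ F)) : IsPreconnected (Z \ F) := by
  refine isPreconnected_iff_subset_of_disjoint.2 fun u v hu hv h2 h3 => ?_
  have hs : (Z ∩ N) \ F ⊆ Z \ F := fun z hz => ⟨hz.1.1, hz.2⟩
  rcases isPreconnected_iff_subset_of_disjoint.1 hM u v hu hv (hs.trans h2)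
    (subset_eq_empty (inter_subset_inter_left _ hs) h3) with h | h
  · exact half hZ hN hF h1 hu hv h2 h3 h
  · exact (half hZ hN hF h1 hv hu (by rwa [union_comm]) (by rwa [inter_comm v u]) h).symm

end Collar

theorem st_collar : St_COLLAR := by
  intro ι _ Z N F hZ hN hF h1 hd hM
  classical
  have key : ∀ s : Finset ι, IsPreconnected (Z \ ⋃ j ∈ s, F j) := by
    intro s
    induction s using Finset.induction_on with
    | empty => simpa using hZ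
    | insert i s hi ih =>
      have e1 : Z \ ⋃ j ∈ insert i s, F j = (Z \ ⋃ j ∈ s, F j) \ F i := by
        rw [Finset.set_biUnion_insert, union_comm, sdiff_sdiff]
      have e2 : ((Z \ ⋃ j ∈ s, F j) ∩ N i) \ F i = (Z ∩ N i) \ F i := by
        ext z
        refine ⟨fun h => ⟨⟨h.1.1.1, h.1.2⟩, h.2⟩, fun h => ⟨⟨⟨h.1.1, fun a => ?_⟩, h.1.2⟩, h.2⟩⟩
        obtain ⟨j, hj, hz⟩ := mem_iUnion₂.1 a
        have hne : i ≠ j := fun e => hi (e ▸ hj)
        exact disjoint_left.1 (hd hne) h.1 ⟨h.1.1, h1 j ⟨h.1.1, hz⟩⟩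
      rw [e1]
      exact Collar.one ih (hN i) (hF i) (fun z hz => h1 i ⟨hz.1.1, hz.2⟩) (e2 ▸ hM i)
  simpa using key Finset.univ

theorem st_gen : St_GEN := by
  intro ι _ c r U hU hne
  by_contra h
  have h1 : U ⊆ ⋃ j, sphere (c j) (r j) := by
    intro a ha
    by_contra h2
    exact h ⟨a, ha, fun j hj => h2 (mem_iUnion.2 ⟨j, hj⟩)⟩
  have h2 : (volume : Measure ℂ) (⋃ j, sphere (c j) (r j)) = 0 :=
    measure_iUnion_null fun j => Measure.addHaar_sphere _ _ _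
  exact hU.measure_ne_zero volume hne (measure_mono_null h1 h2)

end Pool.Agent.CF
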