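import Pool.Agent.Lib.CF.Blue

open Set Metric Filter Topology MeasureTheory intervalIntegral

namespace Pool.Agent.CF

theorem st_cut : St_CUT := by
  refine ⟨2, two_pos, fun t0 t1 l h hl => ?_⟩
  have d0 : 0 < t1 - t0 := sub_pos.2 h
  obtain ⟨β, hβ⟩ : ∃ β : ℝ → ℝ, β = fun t => 6 / (t1 - t0) ^ 3 * max ((t - t0) * (t1 - t)) 0 :=
    ⟨_, rfl⟩
  have c : Continuous β := by rw [hβ]; fun_prop
  have p : ∀ t, 0 ≤ β t := fun t => by rw [hβ]; positivity
  have z : ∀ t, t ≤ t0 ∨ t1 ≤ t → β t = 0 := fun t ht => by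
    rw [hβ]
    refine mul_eq_zero_of_right _ (max_eq_right ?_)
    rcases ht with ht | ht <;> nlinarith
  have i1 : ∫ t in t0..t1, β t = 1 := by
    rw [integral_eq_sub_of_hasDerivAt (f := fun t =>
      6 / (t1 - t0) ^ 3 * ((t1 - t0) * (t - t0) ^ 2 / 2 - (t - t0) ^ 3 / 3)) (fun t ht => ?_)
      (c.intervalIntegrable _ _)]
    · field_simp
      ring
    · rw [uIcc_of_le h.le] at ht
      have e := (hasDerivAt_id' t).sub_const t0
      refine (((((e.pow 2).const_mul (t1 - t0)).div_const 2).sub ((e.pow 3).div_const 3)).const_mul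
        (6 / (t1 - t0) ^ 3)).congr_deriv ?_
      rw [hβ]
      dsimp only
      rw [max_eq_left (mul_nonneg (sub_nonneg.2 ht.1) (sub_nonneg.2 ht.2))]
      push_cast
      ring
  have iz : ∀ a b, (a ≤ t0 ∧ b ≤ t0) ∨ (t1 ≤ a ∧ t1 ≤ b) → ∫ t in a..b, β t = 0 := fun a b hab => by
    rw [integral_congr (g := fun _ => 0) fun t ht => z t ?_, intervalIntegral.integral_zero]
    rcases hab with k | k
    exacts [Or.inl (ht.2.trans (max_le k.1 k.2)), Or.inr ((le_min k.1 k.2).trans ht.1)]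
  obtain ⟨B, hB⟩ : ∃ B : ℝ → ℝ, B = fun t => ∫ s in t0..t, β s := ⟨_, rfl⟩
  have dB : ∀ t, HasDerivAt B (β t) t := fun t => hB ▸ (c.integral_hasStrictDerivAt t0 t).hasDerivAt
  have cB : Continuous B := continuous_iff_continuousAt.2 fun t => (dB t).continuousAt
  have mB : Monotone B := monotone_of_deriv_nonneg (fun t => (dB t).differentiableAt) fun t => by
    rw [(dB t).deriv]; exact p t
  have B0 : ∀ t ≤ t0, B t = 0 := fun t ht => by rw [hB]; exact iz _ _ (Or.inl ⟨le_rfl, ht⟩)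
  have B1 : ∀ t, t1 ≤ t → B t = 1 := fun t ht => by
    rw [hB]
    dsimp only
    rw [← integral_add_adjacent_intervals (c.intervalIntegrable t0 t1) (c.intervalIntegrable t1 t),
      i1, iz _ _ (Or.inr ⟨le_rfl, ht⟩), add_zero]
  have Bb : ∀ t, 0 ≤ B t ∧ B t ≤ 1 := fun t =>
    ⟨B0 _ (min_le_right t t0) ▸ mB (min_le_left t t0), B1 _ (le_max_right t t1) ▸ mB (le_max_left t t1)⟩
  obtain ⟨φ, hφ⟩ : ∃ φ : ℝ → ℝ, φ = fun t => (∫ s in t..t + l, B s) / l := ⟨_, rfl⟩
  have dφ : ∀ t, HasDerivAt φ ((B (t + l) - B t) / l) t := fun t => by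
    have : φ = fun t => ((∫ s in t0..t + l, B s) - ∫ s in t0..t, B s) / l := by
      rw [hφ]
      exact funext fun t => by
        rw [integral_interval_sub_left (cB.intervalIntegrable _ _) (cB.intervalIntegrable _ _)]
    rw [this]
    exact (((cB.integral_hasStrictDerivAt t0 (t + l)).hasDerivAt.comp_add_const t l).sub
      (cB.integral_hasStrictDerivAt t0 t).hasDerivAt).div_const l
  have e1 : deriv φ = fun t => (B (t + l) - B t) / l := funext fun t => (dφ t).deriv
  have d2 : ∀ t, HasDerivAt (deriv φ) ((β (t + l) - β t) / l) t := fun t =>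
    e1 ▸ (((dB (t + l)).comp_add_const t l).sub (dB t)).div_const l
  have cst : ∀ t a, (∀ s ∈ Icc t (t + l), B s = a) → φ t = a := fun t a k => by
    rw [hφ]
    dsimp only
    rw [integral_congr (g := fun _ => a) (by rwa [uIcc_of_le (by linarith)]),
      intervalIntegral.integral_const, add_sub_cancel_left, smul_eq_mul, mul_div_cancel_left₀ _ hl.ne']
  refine ⟨φ, β, ?_, c, fun t => ⟨p t, ?_⟩, fun t ht => z t ?_, i1, fun t => ?_,
    fun t ht => cst t 0 fun s hs => B0 s (by linarith [hs.2]),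
    fun t ht => cst t 1 fun s hs => B1 s (ht.trans hs.1), fun t => (d2 t).deriv⟩
  · rw [← one_add_one_eq_two, contDiff_succ_iff_deriv, contDiff_one_iff_deriv]
    refine ⟨fun t => (dφ t).differentiableAt, by simp, fun t => (d2 t).differentiableAt, ?_⟩
    rw [funext fun t => (d2 t).deriv]
    fun_prop
  · rw [hβ]
    calc 6 / (t1 - t0) ^ 3 * max ((t - t0) * (t1 - t)) 0 ≤ 6 / (t1 - t0) ^ 3 * ((t1 - t0) ^ 2 / 3) := by
          gcongr
          exact max_le (by nlinarith [sq_nonneg (t - t0 - (t1 - t))]) (by positivity)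
      _ = _ := by field_simp; norm_num
  · by_contra! k
    exact ht ⟨k.1.le, k.2.le⟩
  · have tl : t ≤ t + l := by linarith
    rw [hφ]
    refine ⟨div_nonneg (integral_nonneg tl fun s _ => (Bb s).1) hl.le, (div_le_one hl).2 ?_⟩
    simpa using integral_mono_on (μ := volume) tl (cB.intervalIntegrable _ _)
      (_root_.intervalIntegrable_const (c := (1 : ℝ))) fun s _ => (Bb s).2

end Pool.Agent.CF
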