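import Pool.Agent.Lib.CF.Blue

/-! A bounded subharmonic function has a nonnegative Laplacian in the sense of distributions. -/

open Set Metric Filter Topology MeasureTheory

namespace Pool.Agent.CF

namespace DistB

/-- the second derivative -/
noncomputable def D2 (p : ℂ → ℝ) (z : ℂ) : ℂ →L[ℝ] ℂ →L[ℝ] ℝ := fderiv ℝ (fderiv ℝ p) z

lemma lap_eq (p : ℂ → ℝ) (z : ℂ) : lap p z = D2 p z 1 1 + D2 p z Complex.I Complex.I := by
  simp only [lap, InnerProductSpace.laplacian_eq_iteratedFDeriv_complexPlane,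
    iteratedFDeriv_two_apply, D2]
  simp

lemma rot (A : ℂ →L[ℝ] ℂ →L[ℝ] ℝ) (e : ℂ) (he : ‖e‖ = 1) :
    A e e + A (Complex.I * e) (Complex.I * e) = A 1 1 + A Complex.I Complex.I := by
  have h1 : e = e.re • (1 : ℂ) + e.im • Complex.I := by
    apply Complex.ext <;> simp
  have h2 : Complex.I * e = (-e.im) • (1 : ℂ) + e.re • Complex.I := by
    apply Complex.ext <;> simp
  have h3 : e.re ^ 2 + e.im ^ 2 = 1 := by
    have := Complex.sq_norm e
    rw [he, Complex.normSq_apply] at this
    nlinarith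
  rw [h2]
  generalize e.re = c at h1 h3
  generalize e.im = s at h1 h3
  rw [h1]
  simp only [map_add, map_smul, ContinuousLinearMap.add_apply, ContinuousLinearMap.smul_apply,
    smul_eq_mul]
  linear_combination (A 1 1 + A Complex.I Complex.I) * h3

lemma second_diff {p : ℂ → ℝ} (hp : ContDiff ℝ 2 p) (z e : ℂ) (he : ‖e‖ = 1) (r ω : ℝ)
    (hr : 0 < r) (hω : ∀ x, dist x z ≤ r → |D2 p x e e - D2 p z e e| ≤ ω) :
    |p (z + r * e) + p (z - r * e) - 2 * p z - r ^ 2 * D2 p z e e| ≤ 2 * ω * r ^ 2 := by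
  have hp1 : Differentiable ℝ p := hp.differentiable (by norm_num)
  have hp2 : Differentiable ℝ (fderiv ℝ p) :=
    (hp.fderiv_right (m := 1) (by norm_num)).differentiable (by norm_num)
  have l1 : ∀ (σ t : ℝ), HasDerivAt (fun t : ℝ => z + (σ * t) • e) (σ • e) t := fun σ t => by
    have := ((hasDerivAt_id t).const_mul σ).smul_const e
    simpa using this.const_add z
  have d1 : ∀ (σ t : ℝ), HasDerivAt (fun t : ℝ => p (z + (σ * t) • e))
      (σ * fderiv ℝ p (z + (σ * t) • e) e) t := fun σ t => by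
    have := (hp1 (z + (σ * t) • e)).hasFDerivAt.comp_hasDerivAt t (l1 σ t)
    rw [map_smul, smul_eq_mul] at this
    exact this
  have d2 : ∀ (σ t : ℝ), HasDerivAt (fun t : ℝ => fderiv ℝ p (z + (σ * t) • e) e)
      (σ * D2 p (z + (σ * t) • e) e e) t := fun σ t => by
    have h1 := (hp2 (z + (σ * t) • e)).hasFDerivAt.comp_hasDerivAt t (l1 σ t)
    have h2 := h1.clm_apply (hasDerivAt_const t e)
    rw [map_smul, map_zero, add_zero] at h2
    exact h2
  set a : ℝ := D2 p z e e with ha
  have hb : ∀ (σ t : ℝ), |σ| = 1 → t ∈ Icc (0 : ℝ) r → |D2 p (z + (σ * t) • e) e e - a| ≤ ω := by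
    intro σ t hσ ht
    exact hω (z + (σ * t) • e) (by
      rw [dist_eq_norm, add_sub_cancel_left, norm_smul, he, Real.norm_eq_abs, abs_mul, hσ,
        abs_of_nonneg ht.1]
      linarith [ht.2])
  have hω0 : 0 ≤ ω := (abs_nonneg _).trans (hω z (by simp [hr.le]))
  have k1 : ∀ t ∈ Icc (0 : ℝ) r,
      ‖(fderiv ℝ p (z + (1 * t) • e) e - fderiv ℝ p (z + (-1 * t) • e) e - 2 * t * a) -
        (fderiv ℝ p (z + (1 * 0 : ℝ) • e) e - fderiv ℝ p (z + (-1 * 0 : ℝ) • e) e - 2 * 0 * a)‖ ≤
        2 * ω * (t - 0) := by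
    refine norm_image_sub_le_of_norm_deriv_le_segment'
      (f := fun t : ℝ => fderiv ℝ p (z + (1 * t) • e) e - fderiv ℝ p (z + (-1 * t) • e) e - 2 * t * a)
      (f' := fun t => 1 * D2 p (z + (1 * t) • e) e e - (-1) * D2 p (z + (-1 * t) • e) e e - 2 * a)
      (fun t _ => ?_) (fun t ht => ?_)
    · have h3 : HasDerivAt (fun t : ℝ => 2 * t * a) (2 * a) t := by
        simpa using ((hasDerivAt_id t).const_mul 2).mul_const a
      exact (((d2 1 t).sub (d2 (-1) t)).sub h3).hasDerivWithinAt
    · have h4 := hb 1 t (by simp) (Ico_subset_Icc_self ht)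
      have h5 := hb (-1) t (by simp) (Ico_subset_Icc_self ht)
      rw [Real.norm_eq_abs, abs_le] at *
      constructor <;> linarith [h4.1, h4.2, h5.1, h5.2]
  have k2 := norm_image_sub_le_of_norm_deriv_le_segment'
      (f := fun t : ℝ => p (z + (1 * t) • e) + p (z + (-1 * t) • e) - t ^ 2 * a)
      (f' := fun t => 1 * fderiv ℝ p (z + (1 * t) • e) e + (-1) * fderiv ℝ p (z + (-1 * t) • e) e -
        2 * t * a) (C := 2 * ω * r) (a := 0) (b := r)
      (fun t _ => by
        have h3 : HasDerivAt (fun t : ℝ => t ^ 2 * a) (2 * t * a) t := by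
          simpa using (hasDerivAt_pow 2 t).mul_const a
        exact (((d1 1 t).add (d1 (-1) t)).sub h3).hasDerivWithinAt)
      (fun t ht => by
        have h4 := k1 t (Ico_subset_Icc_self ht)
        have h5 : 2 * ω * (t - 0) ≤ 2 * ω * r :=
          mul_le_mul_of_nonneg_left (by linarith [ht.2]) (by linarith)
        refine le_trans (le_of_eq ?_) (h4.trans h5)
        congr 1
        simp only [mul_zero, zero_smul, add_zero]
        ring) r ⟨hr.le, le_rfl⟩
  have e1 : z + (1 * r) • e = z + r * e := by simp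
  have e2 : z + (-1 * r) • e = z - r * e := by simp [sub_eq_add_neg]
  simp only [e1, e2, mul_zero, zero_smul, add_zero, Real.norm_eq_abs] at k2
  refine le_trans (le_of_eq ?_) (k2.trans (le_of_eq (by ring)))
  congr 1
  ring

section mainpart

variable {v p : ℂ → ℝ} {K : Set ℂ} {δ B : ℝ}

lemma int_mul (hv : Measurable v) (hB : ∀ z, |v z| ≤ B) {q : ℂ → ℝ} (hq : Integrable q) :
    Integrable fun z => v z * q z :=
  hq.bdd_mul (c := B) hv.aestronglyMeasurable (Eventually.of_forall fun z => hB z)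

lemma p_int (hK : IsCompact K) (hp : ContDiff ℝ 2 p) (hpK : ∀ z, z ∉ K → p z = 0) :
    Integrable p :=
  hp.continuous.integrable_of_hasCompactSupport (HasCompactSupport.intro hK hpK)

lemma D2_zero (hK : IsCompact K) (hpK : ∀ z, z ∉ K → p z = 0) (z : ℂ) (hz : z ∉ K) :
    D2 p z = 0 := by
  have h1 : p =ᶠ[𝓝 z] fun _ => 0 := by
    filter_upwards [hK.isClosed.isOpen_compl.mem_nhds hz] with x hx using hpK x hx
  have h2 := h1.fderiv (𝕜 := ℝ)
  have h3 := h2.fderiv_eq (𝕜 := ℝ)
  unfold D2
  rw [h3]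
  simp

lemma D2_cont (hp : ContDiff ℝ 2 p) : Continuous (D2 p) :=
  (hp.fderiv_right (m := 1) (by norm_num)).continuous_fderiv (by norm_num)

lemma lap_int (hK : IsCompact K) (hp : ContDiff ℝ 2 p) (hpK : ∀ z, z ∉ K → p z = 0) :
    Integrable (lap p) := by
  have h1 : lap p = fun z => D2 p z 1 1 + D2 p z Complex.I Complex.I := funext (lap_eq p)
  have h2 : Continuous (lap p) := by
    rw [h1]
    have := D2_cont hp
    fun_prop
  refine h2.integrable_of_hasCompactSupport (HasCompactSupport.intro hK fun z hz => ?_)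
  rw [lap_eq, D2_zero hK hpK z hz]
  simp

/-- the correlation of `v` with the translates of `p` -/
noncomputable def T (v p : ℂ → ℝ) (w : ℂ) : ℝ := ∫ z, v z * p (z - w)

lemma T_eq (v p : ℂ → ℝ) (w : ℂ) : T v p w = ∫ z, v (z + w) * p z := by
  unfold T
  rw [← integral_add_right_eq_self (fun z => v z * p (z - w)) w]
  simp

lemma mean (hK : IsCompact K) (hv : Measurable v) (hB : ∀ z, |v z| ≤ B) (hp : ContDiff ℝ 2 p)
    (hp0 : ∀ z, 0 ≤ p z) (hpK : ∀ z, z ∉ K → p z = 0) (r : ℝ)
    (hsub : ∀ z ∈ K, v z ≤ Real.circleAverage v z r) (ω : ℂ) (hω : ‖ω‖ = 1) :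
    IntervalIntegrable (fun θ : ℝ => T v p (r * (ω * Complex.exp (θ * Complex.I)))) volume 0
      (2 * Real.pi) ∧
    2 * Real.pi * T v p 0 ≤
      ∫ θ in (0 : ℝ)..2 * Real.pi, T v p (r * (ω * Complex.exp (θ * Complex.I))) := by
  have hpi := Real.pi_pos
  have ip := p_int hK hp hpK
  have hm : Measurable fun q : ℝ × ℂ => v (q.2 + r * (ω * Complex.exp (q.1 * Complex.I))) :=
    hv.comp (by fun_prop)
  have hI : Integrable (fun q : ℝ × ℂ => v (q.2 + r * (ω * Complex.exp (q.1 * Complex.I))) * p q.2)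
      ((volume.restrict (Ioc (0 : ℝ) (2 * Real.pi))).prod volume) := by
    have h1 : Integrable (fun q : ℝ × ℂ => p q.2)
        ((volume.restrict (Ioc (0 : ℝ) (2 * Real.pi))).prod volume) := ip.comp_snd _
    exact h1.bdd_mul (c := B) hm.aestronglyMeasurable (Eventually.of_forall fun q => hB _)
  simp only [T_eq]
  refine ⟨(intervalIntegrable_iff_integrableOn_Ioc_of_le (by positivity)).mpr
    hI.integral_prod_left, ?_⟩
  rw [intervalIntegral.integral_of_le (by positivity), integral_integral_swap hI,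
    ← integral_const_mul]
  refine integral_mono ((int_mul (hv.comp (by fun_prop)) (fun z => hB _) ip).const_mul _)
    hI.integral_prod_right fun z => ?_
  simp only [add_zero]
  rw [integral_mul_const, ← mul_assoc]
  by_cases hz : z ∈ K
  · refine mul_le_mul_of_nonneg_right ?_ (hp0 z)
    have h1 := hsub z hz
    rw [Real.circleAverage_eq_integral_add (Complex.arg ω),
      intervalIntegral.integral_of_le (by positivity), smul_eq_mul] at h1
    have h2 : ∀ θ : ℝ, circleMap z r (θ + Complex.arg ω) =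
        z + r * (ω * Complex.exp (θ * Complex.I)) := fun θ => by
      have h3 := Complex.norm_mul_exp_arg_mul_I ω
      rw [hω] at h3
      simp only [Complex.ofReal_one, one_mul] at h3
      unfold circleMap
      push_cast
      rw [add_mul, Complex.exp_add, h3]
      ring
    simp only [h2] at h1
    rw [inv_mul_eq_div, le_div_iff₀ (by positivity)] at h1
    linarith
  · simp [hpK z hz]

lemma four (hK : IsCompact K) (hv : Measurable v) (hB : ∀ z, |v z| ≤ B) (hp : ContDiff ℝ 2 p)
    (hpK : ∀ z, z ∉ K → p z = 0) (r ω : ℝ) (hr : 0 < r) (hrδ : r ≤ δ)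
    (hω : ∀ z ∈ cthickening δ K, ∀ x e, ‖e‖ = 1 → dist x z ≤ r → |D2 p x e e - D2 p z e e| ≤ ω)
    (e : ℂ) (he : ‖e‖ = 1) :
    T v p (r * (1 * e)) + T v p (r * (-1 * e)) + T v p (r * (Complex.I * e)) +
        T v p (r * (-Complex.I * e)) ≤
      4 * T v p 0 + r ^ 2 * ((∫ z, v z * lap p z) +
        4 * ω * B * (volume (cthickening δ K)).toReal) := by
  have ip := p_int hK hp hpK
  have iT : ∀ w : ℂ, Integrable fun z => v z * p (z - w) := fun w =>
    int_mul hv hB (ip.comp_sub_right w)
  have iL := int_mul hv hB (lap_int hK hp hpK)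
  have hK' : IsCompact (cthickening δ K) := hK.cthickening
  have iC : Integrable ((cthickening δ K).indicator fun _ : ℂ => 4 * ω * B) :=
    (integrable_indicator_iff hK'.measurableSet).mpr (integrableOn_const hK'.measure_lt_top.ne)
  have eC : ∫ z, (cthickening δ K).indicator (fun _ : ℂ => 4 * ω * B) z =
      4 * ω * B * (volume (cthickening δ K)).toReal := by
    rw [integral_indicator hK'.measurableSet, setIntegral_const, smul_eq_mul, mul_comm]
    rfl
  have iLC : Integrable fun z => v z * lap p z +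
      (cthickening δ K).indicator (fun _ : ℂ => 4 * ω * B) z := iL.add iC
  have i2 : ∀ a b : ℂ, Integrable fun z => v z * p (z - a) + v z * p (z - b) := fun a b =>
    (iT a).add (iT b)
  have i3 : ∀ a b c : ℂ, Integrable fun z => v z * p (z - a) + v z * p (z - b) + v z * p (z - c) :=
    fun a b c => (i2 a b).add (iT c)
  unfold T
  rw [← eC, ← integral_add iL iC, ← integral_const_mul, ← integral_const_mul,
    ← integral_add ((iT 0).const_mul _) (iLC.const_mul _),
    ← integral_add (iT _) (iT _), ← integral_add (i2 _ _) (iT _),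
    ← integral_add (i3 _ _ _) (iT _)]
  refine integral_mono ((i3 _ _ _).add (iT _))
    (((iT 0).const_mul _).add (iLC.const_mul _)) fun z => ?_
  simp only [sub_zero]
  have heI : ‖Complex.I * e‖ = 1 := by rw [norm_mul, Complex.norm_I, he, one_mul]
  have e1 : z - r * (1 * e) = z - r * e := by ring
  have e2 : z - r * (-1 * e) = z + r * e := by ring
  have e3 : z - r * (-Complex.I * e) = z + r * (Complex.I * e) := by ring
  rw [e1, e2, e3]
  by_cases hz : z ∈ cthickening δ K
  · have s1 := second_diff hp z e he r ω hr fun x hx => hω z hz x e he hx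
    have s2 := second_diff hp z (Complex.I * e) heI r ω hr fun x hx => hω z hz x _ heI hx
    have s3 := rot (D2 p z) e he
    rw [← lap_eq] at s3
    rw [indicator_of_mem hz]
    set S : ℝ := p (z - r * e) + p (z + r * e) + p (z - r * (Complex.I * e)) +
      p (z + r * (Complex.I * e)) - 4 * p z - r ^ 2 * lap p z with hS
    have s4 : |S| ≤ 4 * ω * r ^ 2 := by
      rw [abs_le] at s1 s2 ⊢
      rw [hS, ← s3]
      constructor <;> nlinarith [s1.1, s1.2, s2.1, s2.2]
    have s5 : v z * S ≤ B * (4 * ω * r ^ 2) := by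
      refine (le_abs_self _).trans ?_
      rw [abs_mul]
      exact mul_le_mul (hB z) s4 (abs_nonneg _) ((abs_nonneg _).trans (hB z))
    rw [hS] at s5
    nlinarith [s5]
  · have hout : ∀ w : ℂ, ‖w‖ ≤ r → p (z + w) = 0 := fun w hw => hpK _ fun h =>
      hz (mem_cthickening_of_dist_le z (z + w) δ K h (by
        rw [dist_eq_norm, sub_add_cancel_left, norm_neg]; linarith))
    have n1 : ∀ w : ℂ, ‖w‖ = 1 → ‖(r : ℂ) * w‖ ≤ r := fun w hw => by
      rw [norm_mul, hw, mul_one, Complex.norm_real, Real.norm_eq_abs, abs_of_pos hr]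
    have hzK : z ∉ K := fun h => hz (self_subset_cthickening K h)
    have z1 := hout _ (n1 e he)
    have z2 := hout _ (n1 _ heI)
    have z3 := hout (-(r * e)) (by rw [norm_neg]; exact n1 e he)
    have z4 := hout (-(r * (Complex.I * e))) (by rw [norm_neg]; exact n1 _ heI)
    rw [← sub_eq_add_neg] at z3 z4
    rw [z1, z2, z3, z4, hpK z hzK, indicator_of_notMem hz, lap_eq, D2_zero hK hpK z hzK]
    simp

lemma main_ineq (hK : IsCompact K) (hδ : 0 < δ) (hv : Measurable v) (hB : ∀ z, |v z| ≤ B)
    (hp : ContDiff ℝ 2 p) (hp0 : ∀ z, 0 ≤ p z) (hpK : ∀ z, z ∉ K → p z = 0)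
    (hsub : ∀ z ∈ K, ∀ r, 0 < r → r ≤ δ → v z ≤ Real.circleAverage v z r) :
    0 ≤ ∫ z, v z * lap p z := by
  have hpi := Real.pi_pos
  have hB0 : 0 ≤ B := (abs_nonneg _).trans (hB 0)
  have hcq : Continuous fun q : ℂ × ℂ => D2 p q.1 q.2 q.2 := by
    have := D2_cont hp
    fun_prop
  have hK2 : IsCompact (cthickening δ (cthickening δ K) ×ˢ sphere (0 : ℂ) 1) :=
    hK.cthickening.cthickening.prod (isCompact_sphere _ _)
  have huc := hK2.uniformContinuousOn_of_continuous hcq.continuousOn
  set c : ℝ := 4 * B * (volume (cthickening δ K)).toReal with hc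
  have hc0 : 0 ≤ c := by positivity
  refine le_of_forall_pos_le_add fun ε hε => ?_
  have hω : 0 < ε / (c + 1) := by positivity
  obtain ⟨η, hη, H⟩ := Metric.uniformContinuousOn_iff.mp huc _ hω
  set r : ℝ := min δ (η / 2) with hr
  have hr0 : 0 < r := lt_min hδ (by linarith)
  have hr1 : r ≤ δ := min_le_left _ _
  have hr2 : r ≤ η / 2 := min_le_right _ _
  have h4 := four (δ := δ) hK hv hB hp hpK r (ε / (c + 1)) hr0 hr1 fun z hz x e he hx => by
    have := H (x, e) ⟨mem_cthickening_of_dist_le x z δ _ hz (hx.trans hr1), by simpa using he⟩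
      (z, e) ⟨self_subset_cthickening _ hz, by simpa using he⟩ (by
        rw [Prod.dist_eq, dist_self, max_lt_iff]
        exact ⟨by linarith, hη⟩)
    rw [Real.dist_eq] at this
    exact this.le
  have m := mean hK hv hB hp hp0 hpK r fun z hz => hsub z hz r hr0 hr1
  obtain ⟨i1, m1⟩ := m 1 (by simp)
  obtain ⟨i2, m2⟩ := m (-1) (by simp)
  obtain ⟨i3, m3⟩ := m Complex.I (by simp)
  obtain ⟨i4, m4⟩ := m (-Complex.I) (by simp)
  have h5 := intervalIntegral.integral_mono_on (by positivity : (0 : ℝ) ≤ 2 * Real.pi)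
    (((i1.add i2).add i3).add i4) intervalIntegrable_const
    fun θ _ => h4 (Complex.exp (θ * Complex.I)) (Complex.norm_exp_ofReal_mul_I θ)
  rw [intervalIntegral.integral_add ((i1.add i2).add i3) i4,
    intervalIntegral.integral_add (i1.add i2) i3, intervalIntegral.integral_add i1 i2,
    intervalIntegral.integral_const, smul_eq_mul, sub_zero] at h5
  have h6 : 0 ≤ 2 * Real.pi * (r ^ 2 * ((∫ z, v z * lap p z) +
      4 * (ε / (c + 1)) * B * (volume (cthickening δ K)).toReal)) := by linarith
  have h7 := nonneg_of_mul_nonneg_right h6 (by positivity)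
  have h8 := nonneg_of_mul_nonneg_right h7 (by positivity)
  have h9 : 4 * (ε / (c + 1)) * B * (volume (cthickening δ K)).toReal ≤ ε := by
    have : 4 * (ε / (c + 1)) * B * (volume (cthickening δ K)).toReal = ε * (c / (c + 1)) := by
      rw [hc]; ring
    rw [this]
    exact mul_le_of_le_one_right hε.le ((div_le_one (by linarith)).mpr (by linarith))
  linarith

end mainpart

lemma meas {u : ℂ → ℝ} {U : Set ℂ} (hU : IsOpen U) (hu : UpperSemicontinuousOn u U) :
    Measurable (U.indicator u) := by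
  refine measurable_of_Iio fun c => ?_
  have h1 : IsOpen {x | x ∈ U ∧ u x < c} := by
    refine isOpen_iff_mem_nhds.mpr fun x hx => ?_
    have h2 := hu x hx.1 c hx.2
    rw [hU.nhdsWithin_eq hx.1] at h2
    filter_upwards [h2, hU.mem_nhds hx.1] with y h3 h4 using ⟨h4, h3⟩
  by_cases hc : 0 < c
  · have : U.indicator u ⁻¹' Iio c = {x | x ∈ U ∧ u x < c} ∪ Uᶜ := by
      ext x
      by_cases hx : x ∈ U <;> simp [hx, hc]
    rw [this]
    exact h1.measurableSet.union hU.measurableSet.compl
  · have : U.indicator u ⁻¹' Iio c = {x | x ∈ U ∧ u x < c} := by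
      ext x
      by_cases hx : x ∈ U <;> simp [hx, hc]
    rw [this]
    exact h1.measurableSet

end DistB

open DistB in
theorem st_dist (hD : St_SMD) : St_DIST := by
  intro u ψ U K hU hu hK hKU hψ hψ0 hψK
  obtain ⟨δ, hδ, hδU⟩ := hK.exists_cthickening_subset_open hU hKU
  obtain ⟨B, hB⟩ := hu.bdd
  have hv := meas hU hu.usc
  have hvB : ∀ z, |U.indicator u z| ≤ |B| := fun z => by
    by_cases hz : z ∈ U
    · rw [indicator_of_mem hz]; exact (hB z hz).trans (le_abs_self _)
    · rw [indicator_of_notMem hz, abs_zero]; exact abs_nonneg _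
  have hloc : ∀ z ∈ U, U.indicator ψ =ᶠ[𝓝 z] ψ := fun z hz => by
    filter_upwards [hU.mem_nhds hz] with x hx using indicator_of_mem hx _
  have hpK : ∀ z, z ∉ K → U.indicator ψ z = 0 := fun z hz => by
    by_cases h : z ∈ U
    · rw [indicator_of_mem h]; exact hψK z h hz
    · exact indicator_of_notMem h _
  have hp : ContDiff ℝ 2 (U.indicator ψ) := by
    refine contDiff_iff_contDiffAt.mpr fun z => ?_
    by_cases hz : z ∈ U
    · exact (hψ.contDiffAt (hU.mem_nhds hz)).congr_of_eventuallyEq (hloc z hz)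
    · have h1 : U.indicator ψ =ᶠ[𝓝 z] fun _ => 0 := by
        filter_upwards [hK.isClosed.isOpen_compl.mem_nhds fun h => hz (hKU h)] with x hx
          using hpK x hx
      exact contDiffAt_const.congr_of_eventuallyEq h1
  have hp0 : ∀ z, 0 ≤ U.indicator ψ z := fun z => by
    by_cases h : z ∈ U
    · rw [indicator_of_mem h]; exact hψ0 z h
    · rw [indicator_of_notMem h]
  have hsub : ∀ z ∈ K, ∀ r, 0 < r → r ≤ δ →
      U.indicator u z ≤ Real.circleAverage (U.indicator u) z r := fun z hz r hr hrδ => by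
    have h1 : closedBall z r ⊆ U :=
      ((closedBall_subset_closedBall hrδ).trans (closedBall_subset_cthickening hz δ)).trans hδU
    rw [indicator_of_mem (hKU hz), Real.circleAverage_congr_sphere (f₂ := u) fun x hx =>
      indicator_of_mem (h1 (sphere_subset_closedBall (by rwa [abs_of_pos hr] at hx))) _]
    exact hD u U z r hU hu hr h1
  have heq : U.indicator (fun z => u z * lap ψ z) =
      fun z => U.indicator u z * lap (U.indicator ψ) z := by
    funext z
    by_cases hz : z ∈ U
    · rw [indicator_of_mem hz, indicator_of_mem hz]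
      congr 1
      exact ((InnerProductSpace.laplacian_congr_nhds (hloc z hz)).eq_of_nhds).symm
    · rw [indicator_of_notMem hz, indicator_of_notMem hz, zero_mul]
  refine ⟨(integrable_indicator_iff hU.measurableSet).mp ?_, ?_⟩
  · rw [heq]
    exact int_mul hv hvB (lap_int hK hp hpK)
  · rw [← integral_indicator hU.measurableSet, heq]
    exact main_ineq hK hδ hv hvB hp hp0 hpK hsub

end Pool.Agent.CF
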