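import Pool.Agent.Lib.CF.Blue

open Set Metric Filter Topology MeasureTheory

namespace Pool.Agent.CF

namespace Env

/-- the solid tube over a closed disc -/
def box (g : ℂ → ℂ) (c : ℂ) (r τ : ℝ) : Set E := {x | x.1 ∈ closedBall c r ∧ ‖x.2 - g x.1‖ ≤ τ}

theorem box_cpt {g : ℂ → ℂ} {c : ℂ} {r τ : ℝ} (hg : ContinuousOn g (closedBall c r)) :
    IsCompact (box g c r τ) := by
  have h1 : box g c r τ =
      (fun p : E => (p.1, g p.1 + p.2)) '' (closedBall c r ×ˢ closedBall 0 τ) := by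
    ext x
    constructor
    · rintro ⟨h1, h2⟩
      exact ⟨(x.1, x.2 - g x.1), ⟨h1, mem_closedBall_zero_iff.2 h2⟩, by simp⟩
    · rintro ⟨p, ⟨h1, h2⟩, rfl⟩
      exact ⟨h1, by simpa using h2⟩
  rw [h1]
  refine ((isCompact_closedBall c r).prod (isCompact_closedBall 0 τ)).image_of_continuousOn ?_
  exact continuousOn_fst.prodMk
    ((hg.comp continuousOn_fst fun p hp => hp.1).add continuousOn_snd)

theorem box_int {g : ℂ → ℂ} {c : ℂ} {r τ : ℝ} {x : E} (hg : ContinuousAt g x.1)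
    (h1 : x.1 ∈ ball c r) (h2 : ‖x.2 - g x.1‖ < τ) : x ∈ interior (box g c r τ) := by
  have a1 : ∀ᶠ y in 𝓝 x, y.1 ∈ ball c r := continuousAt_fst.eventually (isOpen_ball.mem_nhds h1)
  have a2 : ∀ᶠ y : E in 𝓝 x, ‖y.2 - g y.1‖ < τ :=
    (continuousAt_snd.sub (hg.comp continuousAt_fst)).norm.eventually_lt continuousAt_const h2
  refine mem_interior_iff_mem_nhds.2 ?_
  filter_upwards [a1, a2] with y b1 b2 using ⟨ball_subset_closedBall b1, b2.le⟩

theorem labs_cont {φ : E → ℝ} {U : Set E} (h : LAbs φ U) : ContinuousOn φ U := fun y hy => by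
  obtain ⟨G, hG, e⟩ := h y hy
  exact (hG.continuousAt.norm.congr (EventuallyEq.symm e)).continuousWithinAt

variable {X : Set E} {φ : E → ℝ} {τ N : ℝ} {y : E}

theorem env_ge : -N ≤ env X φ τ N y := by
  rw [env, Real.le_log_iff_exp_le (lt_max_of_lt_right (Real.exp_pos _))]
  exact le_max_right _ _

theorem env_le {t : ℝ} (hN : -N ≤ t)
    (h : ∀ x ∈ X, y.1 = x.1 → ‖x.2 - y.2‖ ≤ τ → φ x ≤ Real.exp t) : env X φ τ N y ≤ t := by
  rw [env, Real.log_le_iff_le_exp (lt_max_of_lt_right (Real.exp_pos _))]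
  refine max_le (Real.sSup_le ?_ (Real.exp_pos _).le) (Real.exp_le_exp.2 hN)
  rintro _ ⟨x, ⟨h1, h2, h3⟩, rfl⟩
  exact h x h1 h2 h3

theorem le_env {B : ℝ} (h : ∀ x ∈ X, y.1 = x.1 → ‖x.2 - y.2‖ ≤ τ → φ x ≤ B) {x : E} (h1 : x ∈ X)
    (h2 : y.1 = x.1) (h3 : ‖x.2 - y.2‖ ≤ τ) : φ x ≤ Real.exp (env X φ τ N y) := by
  rw [env, Real.exp_log (lt_max_of_lt_right (Real.exp_pos _))]
  refine le_max_of_le_left (le_csSup ⟨B, ?_⟩ ⟨x, ⟨h1, h2, h3⟩, rfl⟩)
  rintro _ ⟨x, ⟨h1, h2, h3⟩, rfl⟩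
  exact h x h1 h2 h3

end Env

open Env in
theorem st_env (hT : St_TM) : St_ENV := by
  intro X K O Ω φ τ N B hLM hτ hO hφ hK hne hB
  have hB' : ∀ y ∈ Ω, ∀ x ∈ X, y.1 = x.1 → ‖x.2 - y.2‖ ≤ τ → φ x ≤ B :=
    fun y hy x h1 h2 h3 => hB x h1 ⟨y, hy, h2, h3⟩
  have hbd : ∀ y ∈ Ω, |env X φ τ N y| ≤ |N| + |B| := fun y hy => by
    have h1 : env X φ τ N y ≤ |N| + |B| :=
      env_le (by linarith [neg_abs_le N, neg_le_abs N, abs_nonneg B]) fun x h1 h2 h3 => by
        linarith [hB' y hy x h1 h2 h3, Real.add_one_le_exp (|N| + |B|), le_abs_self B, abs_nonneg N]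
    have h2 : -N ≤ env X φ τ N y := env_ge
    exact abs_le.2 ⟨by linarith [le_abs_self N, abs_nonneg B], h1⟩
  refine ⟨⟨_, hbd⟩, fun U g hU hg hΩ => ?_⟩
  have hsub : ∀ c r, closedBall c r ⊆ U → box g c r τ ⊆ tube Ω τ := fun c r h x hx =>
    ⟨(x.1, g x.1), hΩ _ (h hx.1), rfl, hx.2⟩
  have hcpt : ∀ c r, closedBall c r ⊆ U → IsCompact (box g c r τ) := fun c r h =>
    box_cpt (hg.continuousOn.mono h)
  have husc : UpperSemicontinuousOn (fun z => env X φ τ N (z, g z)) U := by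
    intro c hc t ht
    obtain ⟨r, hr, hrU⟩ := nhds_basis_closedBall.mem_iff.1 (hU.mem_nhds hc)
    obtain ⟨s, hs1, hs2⟩ := exists_between ht
    have hZ := hLM.compact (hcpt c r hrU) ((hsub c r hrU).trans hO)
    have hφZ : ContinuousOn φ (X ∩ box g c r τ) :=
      (labs_cont hφ).mono (inter_subset_right.trans (hsub c r hrU))
    have hA : IsCompact (X ∩ box g c r τ ∩ φ ⁻¹' Ici (Real.exp s)) :=
      hZ.of_isClosed_subset (hφZ.preimage_isClosed_of_isClosed hZ.isClosed isClosed_Ici)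
        inter_subset_left
    have hA' := (hA.image continuous_fst).isClosed
    have hc' : c ∉ Prod.fst '' (X ∩ box g c r τ ∩ φ ⁻¹' Ici (Real.exp s)) := by
      rintro ⟨x, ⟨⟨h1, h2⟩, h3⟩, rfl⟩
      have h4 := le_env (N := N) (hB' _ (hΩ _ hc)) h1 rfl h2.2
      exact absurd (Real.exp_le_exp.1 (le_trans h3 h4)) (not_le.2 hs1)
    refine mem_nhdsWithin_of_mem_nhds ?_
    filter_upwards [hA'.isOpen_compl.mem_nhds hc', closedBall_mem_nhds c hr] with z h1 h2
    refine lt_of_le_of_lt (env_le (env_ge.trans hs1.le) fun x a1 a2 a3 => ?_) hs2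
    obtain rfl : z = x.1 := a2
    by_contra a4
    exact h1 ⟨x, ⟨⟨a1, h2, a3⟩, (not_le.1 a4).le⟩, rfl⟩
  refine ⟨husc, ⟨_, fun z hz => hbd _ (hΩ z hz)⟩, fun c hc => ?_⟩
  obtain ⟨r0, hr0, hr0U⟩ := nhds_basis_closedBall.mem_iff.1 (hU.mem_nhds hc)
  filter_upwards [Ioo_mem_nhdsGT hr0] with r hr
  have hrU : closedBall c r ⊆ U := (closedBall_subset_closedBall hr.2.le).trans hr0U
  have hsU : sphere c r ⊆ U := sphere_subset_closedBall.trans hrU
  refine le_of_forall_pos_le_add fun η hη => ?_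
  obtain ⟨G, hG1, hG2⟩ := hT c r _ _ hr.1 (husc.mono hsU) (fun z hz => hbd _ (hΩ z (hsU hz))) η hη
  refine le_trans ?_ hG2
  have hGd : Differentiable ℂ fun z => Complex.exp (-G.eval z) := G.differentiable.neg.cexp
  have hnorm : ∀ z, ‖Complex.exp (-G.eval z)‖ = Real.exp (-(G.eval z).re) := fun z => by
    rw [Complex.norm_exp, Complex.neg_re]
  have hN : -N ≤ (G.eval c).re := by
    have := Complex.norm_le_of_forall_mem_frontier_norm_le (U := ball c r) isBounded_ball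
      hGd.diffContOnCl (C := Real.exp N) (fun z hz => by
        rw [frontier_ball c hr.1.ne'] at hz
        rw [hnorm]
        have h1 : -N ≤ env X φ τ N (z, g z) := env_ge
        exact Real.exp_le_exp.2 (by linarith [hG1 z hz])) (subset_closure (mem_ball_self hr.1))
    rw [hnorm, Real.exp_le_exp] at this
    linarith
  have hiff : ∀ x : E, φ x * ‖Complex.exp (-G.eval x.1)‖ ≤ 1 ↔ φ x ≤ Real.exp (G.eval x.1).re :=
    fun x => by rw [hnorm, Real.exp_neg, ← div_eq_mul_inv, div_le_one (Real.exp_pos _)]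
  have key := hLM.maxp (hcpt c r hrU) ((hsub c r hrU).trans hO)
    (ψ := fun x => φ x * ‖Complex.exp (-G.eval x.1)‖) (b := 1)
    (((labs_cont hφ).mono (inter_subset_right.trans (hsub c r hrU))).mul
      (hGd.continuous.comp continuous_fst).norm.continuousOn)
    (fun x h1 h2 h3 => by
      by_cases h4 : x ∈ K
      · simp [hK x h1 h4 (hsub c r hrU h2)]
      have h5 := h3.resolve_left h4
      have h6 : x.1 ∈ U := hrU h2.1
      have h7 : ‖x.2 - g x.1‖ < τ := lt_of_le_of_ne h2.2 (hne x h1 h4 _ (hΩ _ h6) rfl)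
      have h8 : x.1 ∈ sphere c r := by
        by_contra a
        exact h5 (box_int (hg _ h6).continuousAt (lt_of_le_of_ne h2.1 a) h7)
      exact (hiff x).2 ((le_env (N := N) (hB' _ (hΩ _ h6)) h1 rfl h2.2).trans
        (Real.exp_le_exp.2 (hG1 _ h8))))
    (fun x _ h2 _ _ => by
      obtain ⟨F, hF, e⟩ := hφ x (hsub c r hrU (interior_subset h2))
      have hF' : AnalyticAt ℂ (fun x : E => F x * Complex.exp (-G.eval x.1)) x :=
        hF.mul ((hGd.analyticAt x.1).comp analyticAt_fst)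
      obtain ⟨F1, a1, a2, a3⟩ := HULL.abs_support hF'
      refine ⟨F1, a1, by rw [a2, norm_mul, e.self_of_nhds], ?_⟩
      filter_upwards [e] with y hy _
      rw [hy, ← norm_mul]
      exact a3 y)
  refine env_le hN fun x a1 a2 a3 => ?_
  obtain rfl : c = x.1 := a2
  exact (hiff x).1 (key x a1 ⟨mem_closedBall_self hr.1.le, a3⟩)

end Pool.Agent.CF
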