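import Pool.Agent.Lib.CF.Defs

open Set Metric Filter Topology MeasureTheory

namespace Pool.Agent.CF

/-! ### partial derivatives -/

theorem hasDerivAt_graph {F : E → ℂ} {f g : ℂ → ℂ} {f' g' z : ℂ}
    (hF : DifferentiableAt ℂ F (f z, g z)) (hf : HasDerivAt f f' z) (hg : HasDerivAt g g' z) :
    HasDerivAt (fun x => F (f x, g x)) (fderiv ℂ F (f z, g z) (f', g')) z :=
  hF.hasFDerivAt.comp_hasDerivAt z (hf.prodMk hg)

theorem hasDerivAt_dz {F : E → ℂ} {y : E} (hF : DifferentiableAt ℂ F y) :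
    HasDerivAt (fun z => F (z, y.2)) (fderiv ℂ F y (1, 0)) y.1 :=
  hasDerivAt_graph (f := fun z => z) (g := fun _ => y.2) hF (hasDerivAt_id _) (hasDerivAt_const _ _)

theorem hasDerivAt_dw {F : E → ℂ} {y : E} (hF : DifferentiableAt ℂ F y) :
    HasDerivAt (fun w => F (y.1, w)) (fderiv ℂ F y (0, 1)) y.2 :=
  hasDerivAt_graph (f := fun _ => y.1) (g := fun z => z) hF (hasDerivAt_const _ _) (hasDerivAt_id _)

theorem dz_eq {F : E → ℂ} {y : E} (hF : DifferentiableAt ℂ F y) : dz F y = fderiv ℂ F y (1, 0) :=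
  (hasDerivAt_dz hF).deriv

theorem dw_eq {F : E → ℂ} {y : E} (hF : DifferentiableAt ℂ F y) : dw F y = fderiv ℂ F y (0, 1) :=
  (hasDerivAt_dw hF).deriv

theorem fderiv_apply {F : E → ℂ} {y : E} (hF : DifferentiableAt ℂ F y) (a b : ℂ) :
    fderiv ℂ F y (a, b) = dz F y * a + dw F y * b := by
  have : ((a, b) : E) = a • ((1, 0) : E) + b • ((0, 1) : E) := by simp
  rw [this, map_add, map_smul, map_smul, dz_eq hF, dw_eq hF]; simp [mul_comm]

/-- chain rule along a curve -/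
theorem hasDerivAt_curve {F : E → ℂ} {f g : ℂ → ℂ} {f' g' z : ℂ}
    (hF : DifferentiableAt ℂ F (f z, g z)) (hf : HasDerivAt f f' z) (hg : HasDerivAt g g' z) :
    HasDerivAt (fun x => F (f x, g x)) (dz F (f z, g z) * f' + dw F (f z, g z) * g') z :=
  fderiv_apply hF f' g' ▸ hasDerivAt_graph hF hf hg

theorem analyticAt_dz {F : E → ℂ} {y : E} (hF : AnalyticAt ℂ F y) : AnalyticAt ℂ (dz F) y := by
  have h : AnalyticAt ℂ (fun x => fderiv ℂ F x (1, 0)) y :=
    (ContinuousLinearMap.apply ℂ ℂ ((1, 0) : E)).analyticAt _ |>.comp hF.fderiv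
  refine h.congr ?_
  filter_upwards [hF.eventually_analyticAt] with x hx using (dz_eq hx.differentiableAt).symm

theorem analyticAt_dw {F : E → ℂ} {y : E} (hF : AnalyticAt ℂ F y) : AnalyticAt ℂ (dw F) y := by
  have h : AnalyticAt ℂ (fun x => fderiv ℂ F x (0, 1)) y :=
    (ContinuousLinearMap.apply ℂ ℂ ((0, 1) : E)).analyticAt _ |>.comp hF.fderiv
  refine h.congr ?_
  filter_upwards [hF.eventually_analyticAt] with x hx using (dw_eq hx.differentiableAt).symm

theorem analyticAt_jac {F G : E → ℂ} {y : E} (hF : AnalyticAt ℂ F y) (hG : AnalyticAt ℂ G y) :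
    AnalyticAt ℂ (jac F G) y :=
  ((analyticAt_dz hF).mul (analyticAt_dw hG)).sub ((analyticAt_dw hF).mul (analyticAt_dz hG))

theorem dz_congr {F G : E → ℂ} {y : E} (h : F =ᶠ[𝓝 y] G) : dz F y = dz G y := by
  have : ContinuousAt (fun z : ℂ => ((z, y.2) : E)) y.1 := by fun_prop
  exact Filter.EventuallyEq.deriv_eq (this.eventually h)

theorem dw_congr {F G : E → ℂ} {y : E} (h : F =ᶠ[𝓝 y] G) : dw F y = dw G y := by
  have : ContinuousAt (fun z : ℂ => ((y.1, z) : E)) y.2 := by fun_prop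
  exact Filter.EventuallyEq.deriv_eq (this.eventually h)

theorem dz_mul {F G : E → ℂ} {y : E} (hF : DifferentiableAt ℂ F y) (hG : DifferentiableAt ℂ G y) :
    dz (fun x => F x * G x) y = dz F y * G y + F y * dz G y := by
  rw [dz_eq hF, dz_eq hG]; exact ((hasDerivAt_dz hF).fun_mul (hasDerivAt_dz hG)).deriv

theorem dw_mul {F G : E → ℂ} {y : E} (hF : DifferentiableAt ℂ F y) (hG : DifferentiableAt ℂ G y) :
    dw (fun x => F x * G x) y = dw F y * G y + F y * dw G y := by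
  rw [dw_eq hF, dw_eq hG]; exact ((hasDerivAt_dw hF).fun_mul (hasDerivAt_dw hG)).deriv

theorem dz_add {F G : E → ℂ} {y : E} (hF : DifferentiableAt ℂ F y) (hG : DifferentiableAt ℂ G y) :
    dz (fun x => F x + G x) y = dz F y + dz G y := by
  rw [dz_eq hF, dz_eq hG]; exact ((hasDerivAt_dz hF).fun_add (hasDerivAt_dz hG)).deriv

theorem dw_add {F G : E → ℂ} {y : E} (hF : DifferentiableAt ℂ F y) (hG : DifferentiableAt ℂ G y) :
    dw (fun x => F x + G x) y = dw F y + dw G y := by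
  rw [dw_eq hF, dw_eq hG]; exact ((hasDerivAt_dw hF).fun_add (hasDerivAt_dw hG)).deriv

theorem dz_sub {F G : E → ℂ} {y : E} (hF : DifferentiableAt ℂ F y) (hG : DifferentiableAt ℂ G y) :
    dz (fun x => F x - G x) y = dz F y - dz G y := by
  rw [dz_eq hF, dz_eq hG]; exact ((hasDerivAt_dz hF).fun_sub (hasDerivAt_dz hG)).deriv

theorem dw_sub {F G : E → ℂ} {y : E} (hF : DifferentiableAt ℂ F y) (hG : DifferentiableAt ℂ G y) :
    dw (fun x => F x - G x) y = dw F y - dw G y := by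
  rw [dw_eq hF, dw_eq hG]; exact ((hasDerivAt_dw hF).fun_sub (hasDerivAt_dw hG)).deriv

@[simp] theorem dz_const (a : ℂ) (y : E) : dz (fun _ => a) y = 0 := by simp [dz]
@[simp] theorem dw_const (a : ℂ) (y : E) : dw (fun _ => a) y = 0 := by simp [dw]
@[simp] theorem dz_fst (y : E) : dz (fun x => x.1) y = 1 := by simp [dz]
@[simp] theorem dw_fst (y : E) : dw (fun x => x.1) y = 0 := by simp [dw]
@[simp] theorem dz_snd (y : E) : dz (fun x => x.2) y = 0 := by simp [dz]
@[simp] theorem dw_snd (y : E) : dw (fun x => x.2) y = 1 := by simp [dw]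

/-- derivative of `H` along a local graph of `P = 0` -/
theorem hasDerivAt_res {H P : E → ℂ} {g : ℂ → ℂ} {z : ℂ} (hH : DifferentiableAt ℂ H (z, g z))
    (hP : DifferentiableAt ℂ P (z, g z)) (hg : DifferentiableAt ℂ g z)
    (h0 : ∀ᶠ x in 𝓝 z, P (x, g x) = 0) (hw : dw P (z, g z) ≠ 0) :
    HasDerivAt (fun x => H (x, g x)) (jac H P (z, g z) / dw P (z, g z)) z := by
  have h1 := hasDerivAt_curve (f := fun x => x) hP (hasDerivAt_id z) hg.hasDerivAt
  have h2 : HasDerivAt (fun x => P (x, g x)) 0 z :=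
    (hasDerivAt_const z (0 : ℂ)).congr_of_eventuallyEq h0
  have h3 := h1.unique h2
  have h4 := hasDerivAt_curve (f := fun x => x) hH (hasDerivAt_id z) hg.hasDerivAt
  have : jac H P (z, g z) / dw P (z, g z) = dz H (z, g z) * 1 + dw H (z, g z) * deriv g z := by
    rw [div_eq_iff hw, jac]; linear_combination (-dw H (z, g z)) * h3
  rwa [this]

/-! ### the implicit function theorem -/

theorem ift_gen {A : Type*} [NormedAddCommGroup A] [NormedSpace ℂ A] [CompleteSpace A]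
    {F : A × ℂ → ℂ} {y : A × ℂ} (hF : AnalyticAt ℂ F y) (h0 : F y = 0)
    (hw : fderiv ℂ F y (0, 1) ≠ 0) :
    ∃ g : A → ℂ, AnalyticAt ℂ g y.1 ∧ g y.1 = y.2 ∧ (∀ᶠ z in 𝓝 y.1, F (z, g z) = 0) ∧
      ∀ᶠ x in 𝓝 y, (F x = 0 ↔ x.2 = g x.1) := by
  have hc : ContDiffAt ℂ ⊤ F y := hF.contDiffAt
  have hi : (fderiv ℂ F y ∘L .inr ℂ A ℂ).IsInvertible := by
    refine ⟨ContinuousLinearEquiv.unitsEquivAut ℂ (Units.mk0 _ hw), ?_⟩
    ext; simp
  refine ⟨hc.implicitFunction (by simp) hi, ?_, hc.implicitFunction_apply_self _ _, ?_, ?_⟩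
  · exact (hc.contDiffAt_implicitFunction (by simp) hi).analyticAt
  · simpa [h0] using hc.eventually_apply_implicitFunction (by simp) hi
  · filter_upwards [hc.eventually_apply_eq_iff_implicitFunction (by simp) hi] with x hx
    rw [← h0, hx, eq_comm]

theorem ift {F : E → ℂ} {y : E} (hF : AnalyticAt ℂ F y) (h0 : F y = 0) (hw : dw F y ≠ 0) :
    ∃ g : ℂ → ℂ, AnalyticAt ℂ g y.1 ∧ g y.1 = y.2 ∧ (∀ᶠ z in 𝓝 y.1, F (z, g z) = 0) ∧
      ∀ᶠ x in 𝓝 y, (F x = 0 ↔ x.2 = g x.1) :=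
  ift_gen hF h0 (dw_eq hF.differentiableAt ▸ hw)

theorem ift_swap {F : E → ℂ} {y : E} (hF : AnalyticAt ℂ F y) (h0 : F y = 0) (hz : dz F y ≠ 0) :
    ∃ g : ℂ → ℂ, AnalyticAt ℂ g y.2 ∧ g y.2 = y.1 ∧ (∀ᶠ w in 𝓝 y.2, F (g w, w) = 0) ∧
      ∀ᶠ x in 𝓝 y, (F x = 0 ↔ x.1 = g x.2) := by
  have hs : AnalyticAt ℂ (fun x : E => F x.swap) y.swap :=
    AnalyticAt.comp (g := F) (f := Prod.swap) hF (analyticAt_snd.prod analyticAt_fst)
  obtain ⟨g, h1, h2, h3, h4⟩ := ift hs h0 hz
  exact ⟨g, h1, h2, h3, (continuous_swap.tendsto y).eventually h4⟩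

/-- uniqueness: near a regular point the zeros lie on any given graph of zeros -/
theorem ift_unique {F : E → ℂ} {w : ℂ → ℂ} {z : ℂ} (hF : AnalyticAt ℂ F (z, w z))
    (hc : ContinuousAt w z) (h0 : ∀ᶠ x in 𝓝 z, F (x, w x) = 0) (hw : dw F (z, w z) ≠ 0) :
    ∀ᶠ x in 𝓝 ((z, w z) : E), (F x = 0 ↔ x.2 = w x.1) := by
  obtain ⟨g, -, -, -, h4⟩ := ift hF h0.self_of_nhds hw
  have h5 : ContinuousAt (fun x : ℂ => ((x, w x) : E)) z := continuousAt_id.prodMk hc
  have h6 : ∀ᶠ x in 𝓝 z, w x = g x := by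
    filter_upwards [h5.eventually h4, h0] with x a b using a.1 b
  filter_upwards [h4, (continuous_fst.tendsto ((z, w z) : E)).eventually h6] with x a b
  rw [a, b]

/-! ### polynomial functions -/

namespace IsPoly

variable {F G : E → ℂ}

theorem analyticAt (h : IsPoly F) (y : E) : AnalyticAt ℂ F y := by
  induction h with
  | const a => exact analyticAt_const
  | fst => exact analyticAt_fst
  | snd => exact analyticAt_snd
  | add _ _ a b => exact a.add b
  | mul _ _ a b => exact a.mul b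

theorem differentiableAt (h : IsPoly F) (y : E) : DifferentiableAt ℂ F y :=
  (h.analyticAt y).differentiableAt

theorem continuous (h : IsPoly F) : Continuous F :=
  continuous_iff_continuousAt.2 fun y => (h.analyticAt y).continuousAt

theorem congr (h : IsPoly F) (e : ∀ y, F y = G y) : IsPoly G := (funext e : F = G) ▸ h

theorem neg (h : IsPoly F) : IsPoly fun y => -F y :=
  ((const (-1)).mul h).congr fun _ => by simp

theorem sub (h : IsPoly F) (h' : IsPoly G) : IsPoly fun y => F y - G y :=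
  (h.add h'.neg).congr fun _ => by ring

theorem pow (h : IsPoly F) (n : ℕ) : IsPoly fun y => F y ^ n := by
  induction n with
  | zero => exact (const 1).congr fun _ => by simp
  | succ n ih => exact (ih.mul h).congr fun _ => by ring

theorem sum {ι : Type*} (s : Finset ι) {f : ι → E → ℂ} (h : ∀ i ∈ s, IsPoly (f i)) :
    IsPoly fun y => ∑ i ∈ s, f i y := by
  classical
  induction s using Finset.induction_on with
  | empty => exact (const 0).congr fun _ => by simp
  | insert a s ha ih =>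
    exact ((h a (by simp)).add (ih fun i hi => h i (by simp [hi]))).congr fun _ => by
      rw [Finset.sum_insert ha]

theorem prod {ι : Type*} (s : Finset ι) {f : ι → E → ℂ} (h : ∀ i ∈ s, IsPoly (f i)) :
    IsPoly fun y => ∏ i ∈ s, f i y := by
  classical
  induction s using Finset.induction_on with
  | empty => exact (const 1).congr fun _ => by simp
  | insert a s ha ih =>
    exact ((h a (by simp)).mul (ih fun i hi => h i (by simp [hi]))).congr fun _ => by
      rw [Finset.prod_insert ha]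

theorem comp {A B : E → ℂ} (h : IsPoly F) (hA : IsPoly A) (hB : IsPoly B) :
    IsPoly fun y => F (A y, B y) := by
  induction h with
  | const a => exact const a
  | fst => exact hA
  | snd => exact hB
  | add _ _ a b => exact a.add b
  | mul _ _ a b => exact a.mul b

theorem dz (h : IsPoly F) : IsPoly (dz F) := by
  induction h with
  | const a => exact (const 0).congr fun _ => by simp
  | fst => exact (const 1).congr fun _ => by simp
  | snd => exact (const 0).congr fun _ => by simp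
  | add f g a b =>
    exact (a.add b).congr fun y => (dz_add (f.differentiableAt y) (g.differentiableAt y)).symm
  | mul f g a b =>
    exact ((a.mul g).add (f.mul b)).congr fun y =>
      (dz_mul (f.differentiableAt y) (g.differentiableAt y)).symm

theorem dw (h : IsPoly F) : IsPoly (dw F) := by
  induction h with
  | const a => exact (const 0).congr fun _ => by simp
  | fst => exact (const 0).congr fun _ => by simp
  | snd => exact (const 1).congr fun _ => by simp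
  | add f g a b =>
    exact (a.add b).congr fun y => (dw_add (f.differentiableAt y) (g.differentiableAt y)).symm
  | mul f g a b =>
    exact ((a.mul g).add (f.mul b)).congr fun y =>
      (dw_mul (f.differentiableAt y) (g.differentiableAt y)).symm

theorem exists_mv (h : IsPoly F) :
    ∃ p : MvPolynomial (Fin 2) ℂ, ∀ y : E, F y = MvPolynomial.eval ![y.1, y.2] p := by
  induction h with
  | const a => exact ⟨MvPolynomial.C a, fun _ => by simp⟩
  | fst => exact ⟨MvPolynomial.X 0, fun _ => by simp⟩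
  | snd => exact ⟨MvPolynomial.X 1, fun _ => by simp⟩
  | add _ _ a b =>
    obtain ⟨p, hp⟩ := a; obtain ⟨q, hq⟩ := b
    exact ⟨p + q, fun y => by simp [hp, hq]⟩
  | mul _ _ a b =>
    obtain ⟨p, hp⟩ := a; obtain ⟨q, hq⟩ := b
    exact ⟨p * q, fun y => by simp [hp, hq]⟩

theorem of_mv (p : MvPolynomial (Fin 2) ℂ) :
    IsPoly fun y => MvPolynomial.eval ![y.1, y.2] p := by
  induction p using MvPolynomial.induction_on with
  | C a => exact (const a).congr fun _ => by simp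
  | add p q a b => exact (a.add b).congr fun _ => by simp
  | mul_X p i a =>
    fin_cases i
    · exact (a.mul fst).congr fun _ => by simp
    · exact (a.mul snd).congr fun _ => by simp

end IsPoly

theorem mem_hull_iff {K : Set E} {x : E} :
    x ∈ HULL.hull K ↔ ∀ F, IsPoly F → ∀ M : ℝ, (∀ y ∈ K, ‖F y‖ ≤ M) → ‖F x‖ ≤ M := by
  refine ⟨fun h F hF M hM => ?_, fun h p M hM => h _ (IsPoly.of_mv p) M hM⟩
  obtain ⟨p, hp⟩ := hF.exists_mv
  rw [hp]; exact h p M fun y hy => hp y ▸ hM y hy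

/-! ### ends -/

namespace End

variable {e : End}

theorem sgn_cases (e : End) : (e.k = Kind.out ∧ e.sgn = -1) ∨ (e.k ≠ Kind.out ∧ e.sgn = 1) := by
  unfold sgn; split_ifs with h <;> simp [h]

theorem sgn_mul_self (e : End) : (e.sgn : ℝ) * e.sgn = 1 := by
  rcases e.sgn_cases with h | h <;> simp [h.2]

theorem abs_sgn (e : End) : |(e.sgn : ℝ)| = 1 := by
  rcases e.sgn_cases with h | h <;> simp [h.2]

theorem rad_pos (hr : 0 < e.r) (s : ℝ) : 0 < e.rad s := mul_pos hr (Real.exp_pos _)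

@[simp] theorem rad_zero (e : End) : e.rad 0 = e.r := by simp [rad]

theorem log_rad (hr : 0 < e.r) (s : ℝ) : Real.log (e.rad s) = Real.log e.r + e.sgn * s := by
  rw [rad, Real.log_mul hr.ne' (Real.exp_pos _).ne', Real.log_exp]

theorem norm_eq_rad (hr : 0 < e.r) {z : ℂ} (hz : z ≠ e.c) : ‖z - e.c‖ = e.rad (e.dep z) := by
  have : 0 < ‖z - e.c‖ := norm_pos_iff.2 (sub_ne_zero.2 hz)
  rw [rad, dep, ← mul_assoc, sgn_mul_self, one_mul, Real.exp_log (div_pos this hr)]
  field_simp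

theorem dep_of_norm (hr : 0 < e.r) {z : ℂ} {s : ℝ} (h : ‖z - e.c‖ = e.rad s) :
    z ≠ e.c ∧ e.dep z = s := by
  refine ⟨fun a => ?_, ?_⟩
  · have := rad_pos hr s; rw [← h, a] at this; simp at this
  · rw [dep, h, rad, mul_div_cancel_left₀ _ hr.ne', Real.log_exp, ← mul_assoc, sgn_mul_self,
      one_mul]

theorem mem_sphere_rad (hr : 0 < e.r) {z : ℂ} {s : ℝ} :
    z ∈ sphere e.c (e.rad s) ↔ z ≠ e.c ∧ e.dep z = s := by
  rw [mem_sphere_iff_norm]
  exact ⟨dep_of_norm hr, fun h => h.2 ▸ norm_eq_rad hr h.1⟩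

theorem mem_circ (hr : 0 < e.r) {z : ℂ} : z ∈ e.circ ↔ z ≠ e.c ∧ e.dep z = 0 := by
  rw [← mem_sphere_rad hr, rad_zero, circ]

theorem sphere_subset_ann (hr : 0 < e.r) {s : ℝ} {I : Set ℝ} (hs : s ∈ I) :
    sphere e.c (e.rad s) ⊆ e.ann I := fun _ hz =>
  ⟨((mem_sphere_rad hr).1 hz).1, ((mem_sphere_rad hr).1 hz).2.symm ▸ hs⟩

theorem ann_mono {I J : Set ℝ} (h : I ⊆ J) : e.ann I ⊆ e.ann J := fun _ hz => ⟨hz.1, h hz.2⟩

theorem continuousAt_dep (hr : 0 < e.r) {z : ℂ} (hz : z ≠ e.c) : ContinuousAt e.dep z := by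
  have : ‖z - e.c‖ / e.r ≠ 0 := (div_pos (norm_pos_iff.2 (sub_ne_zero.2 hz)) hr).ne'
  unfold dep
  exact continuousAt_const.mul (ContinuousAt.log (by fun_prop) this)

theorem continuous_rad (e : End) : Continuous e.rad := by unfold rad; fun_prop

theorem isOpen_ann (hr : 0 < e.r) {I : Set ℝ} (hI : IsOpen I) : IsOpen (e.ann I) := by
  refine isOpen_iff_mem_nhds.2 fun z hz => ?_
  filter_upwards [isOpen_ne.mem_nhds hz.1, (continuousAt_dep hr hz.1).eventually (hI.mem_nhds hz.2)]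
    with x a b using ⟨a, b⟩

theorem ann_eq_image (hr : 0 < e.r) (I : Set ℝ) :
    e.ann I = (fun p : ℝ × ℝ => circleMap e.c (e.rad p.1) p.2) '' (I ×ˢ Icc 0 (2 * Real.pi)) := by
  ext z
  refine ⟨fun hz => ?_, ?_⟩
  · have h1 : z ∈ sphere e.c |e.rad (e.dep z)| := by
      rw [abs_of_pos (rad_pos hr _)]; exact (mem_sphere_rad hr).2 ⟨hz.1, rfl⟩
    rw [← image_circleMap_Ioc] at h1
    obtain ⟨θ, h2, h3⟩ := h1
    exact ⟨(e.dep z, θ), ⟨hz.2, Ioc_subset_Icc_self h2⟩, h3⟩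
  · rintro ⟨p, hp, rfl⟩
    exact sphere_subset_ann hr hp.1 (circleMap_mem_sphere _ (rad_pos hr _).le _)

theorem continuous_param (e : End) :
    Continuous fun p : ℝ × ℝ => circleMap e.c (e.rad p.1) p.2 := by
  have := e.continuous_rad
  unfold circleMap; fun_prop

theorem isCompact_ann (hr : 0 < e.r) {I : Set ℝ} (hI : IsCompact I) : IsCompact (e.ann I) :=
  ann_eq_image hr I ▸ (hI.prod isCompact_Icc).image e.continuous_param

theorem isPreconnected_ann (hr : 0 < e.r) {I : Set ℝ} (hI : IsPreconnected I) :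
    IsPreconnected (e.ann I) :=
  ann_eq_image hr I ▸ (hI.prod isPreconnected_Icc).image _ e.continuous_param.continuousOn

theorem side_iff (hk : e.k ≠ Kind.pt) (hr : 0 < e.r) {z : ℂ} (hz : z ≠ e.c) :
    e.side z ↔ 0 ≤ e.dep z := by
  have h0 : 0 < ‖z - e.c‖ / e.r := div_pos (norm_pos_iff.2 (sub_ne_zero.2 hz)) hr
  unfold side dep sgn
  cases h : e.k
  · simp [Real.log_nonpos_iff h0.le, div_le_one hr]
  · simp [Real.log_nonneg_iff h0, one_le_div hr]
  · exact absurd h hk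

theorem side_pt (hk : e.k = Kind.pt) (z : ℂ) : e.side z := by simp [side, hk]

theorem isClosed_side (e : End) : IsClosed {z | e.side z} := by
  unfold side
  cases h : e.k <;> simp
  · exact isClosed_le (by fun_prop) continuous_const
  · exact isClosed_le continuous_const (by fun_prop)

theorem ok.pos (h : e.ok) (hk : e.k ≠ Kind.pt) : 0 < e.r := by simpa [ok, hk] using h

theorem ok.zero (h : e.ok) (hk : e.k = Kind.pt) : e.r = 0 := by simpa [ok, hk] using h

theorem circ_pt (h : e.ok) (hk : e.k = Kind.pt) : e.circ = {e.c} := by simp [circ, h.zero hk]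

theorem isCompact_circ (e : End) : IsCompact e.circ := isCompact_sphere _ _

theorem near_pt (hk : e.k = Kind.pt) (a ρ : ℝ) : e.near a ρ = closedBall e.c ρ := if_pos hk
theorem near_loop (hk : e.k ≠ Kind.pt) (a ρ : ℝ) : e.near a ρ = e.ann (Icc (-a) a) := if_neg hk
theorem nearO_pt (hk : e.k = Kind.pt) (a ρ : ℝ) : e.nearO a ρ = ball e.c ρ := if_pos hk
theorem nearO_loop (hk : e.k ≠ Kind.pt) (a ρ : ℝ) : e.nearO a ρ = e.ann (Ioo (-a) a) := if_neg hk

theorem isCompact_near (h : e.ok) (a ρ : ℝ) : IsCompact (e.near a ρ) := by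
  unfold near; split_ifs with hk
  · exact isCompact_closedBall _ _
  · exact isCompact_ann (h.pos hk) isCompact_Icc

theorem isOpen_nearO (h : e.ok) (a ρ : ℝ) : IsOpen (e.nearO a ρ) := by
  unfold nearO; split_ifs with hk
  · exact isOpen_ball
  · exact isOpen_ann (h.pos hk) isOpen_Ioo

theorem nearO_subset_near (e : End) {a ρ a' ρ' : ℝ} (h1 : a ≤ a') (h2 : ρ ≤ ρ') :
    e.nearO a ρ ⊆ e.near a' ρ' := by
  unfold nearO near; split_ifs with hk
  · exact ball_subset_closedBall.trans (closedBall_subset_closedBall h2)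
  · exact ann_mono (Ioo_subset_Icc_self.trans (Icc_subset_Icc (by linarith) h1))

theorem near_mono (e : End) {a ρ a' ρ' : ℝ} (h1 : a ≤ a') (h2 : ρ ≤ ρ') :
    e.near a ρ ⊆ e.near a' ρ' := by
  unfold near; split_ifs with hk
  · exact closedBall_subset_closedBall h2
  · exact ann_mono (Icc_subset_Icc (by linarith) h1)

theorem nearO_mono (e : End) {a ρ a' ρ' : ℝ} (h1 : a ≤ a') (h2 : ρ ≤ ρ') :
    e.nearO a ρ ⊆ e.nearO a' ρ' := by
  unfold nearO; split_ifs with hk
  · exact ball_subset_ball h2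
  · exact ann_mono (Ioo_subset_Ioo (by linarith) h1)

theorem near_subset_nearO (e : End) {a ρ a' ρ' : ℝ} (h1 : a < a') (h2 : ρ < ρ') :
    e.near a ρ ⊆ e.nearO a' ρ' := by
  unfold nearO near; split_ifs with hk
  · exact closedBall_subset_ball h2
  · exact ann_mono (Icc_subset_Ioo (by linarith) h1)

theorem circ_subset_nearO (h : e.ok) {a ρ : ℝ} (ha : 0 < a) (hρ : 0 < ρ) :
    e.circ ⊆ e.nearO a ρ := by
  unfold nearO; split_ifs with hk
  · rw [circ_pt h hk]; simpa using hρ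
  · intro z hz
    obtain ⟨h1, h2⟩ := (mem_circ (h.pos hk)).1 hz
    exact ⟨h1, by rw [h2]; exact ⟨by linarith, ha⟩⟩

/-- neighbourhoods of the circle contain the thin annuli -/
theorem shrink (h : e.ok) {N : Set ℂ} (hN : N ∈ 𝓝ˢ e.circ) :
    ∃ δ > 0, ∀ a ρ, a ≤ δ → ρ ≤ δ → e.near a ρ ⊆ N := by
  obtain ⟨U, hU, h1, h2⟩ := mem_nhdsSet_iff_exists.1 hN
  obtain ⟨ε, hε, h3⟩ := e.isCompact_circ.exists_cthickening_subset_open hU h1
  by_cases hk : e.k = Kind.pt
  · refine ⟨ε, hε, fun a ρ _ hρ z hz => h2 (h3 ?_)⟩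
    rw [near_pt hk] at hz
    rw [circ_pt h hk, cthickening_singleton _ hε.le]
    exact closedBall_subset_closedBall hρ hz
  · have hr := h.pos hk
    have h4 : ∀ᶠ s in 𝓝 (0 : ℝ), dist (e.rad s) (e.rad 0) < ε :=
      e.continuous_rad.continuousAt.eventually (ball_mem_nhds _ hε)
    obtain ⟨δ, hδ, h5⟩ := Metric.eventually_nhds_iff.1 h4
    refine ⟨δ / 2, by positivity, fun a ρ ha _ z hz => h2 (h3 ?_)⟩
    rw [near_loop hk] at hz
    have h6 : dist (e.dep z) 0 < δ := by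
      rw [Real.dist_eq, sub_zero, abs_lt]; constructor <;> linarith [hz.2.1, hz.2.2]
    have h7 := h5 h6
    rw [rad_zero, ← norm_eq_rad hr hz.1, Real.dist_eq] at h7
    have h8 : 0 < ‖z - e.c‖ := norm_pos_iff.2 (sub_ne_zero.2 hz.1)
    refine mem_cthickening_of_dist_le z (e.c + (e.r / ‖z - e.c‖ : ℝ) * (z - e.c)) _ _ ?_ ?_
    · rw [circ, mem_sphere_iff_norm, add_sub_cancel_left, norm_mul, Complex.norm_real,
        Real.norm_eq_abs, abs_of_pos (div_pos hr h8)]
      field_simp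
    · have : z - (e.c + (e.r / ‖z - e.c‖ : ℝ) * (z - e.c)) =
          ((‖z - e.c‖ - e.r) / ‖z - e.c‖ : ℝ) * (z - e.c) := by
        have : ((‖z - e.c‖ : ℝ) : ℂ) ≠ 0 := by exact_mod_cast h8.ne'
        push_cast; field_simp; ring
      rw [dist_eq_norm, this, norm_mul, Complex.norm_real, Real.norm_eq_abs, abs_div,
        abs_of_pos h8, div_mul_cancel₀ _ h8.ne']
      exact h7.le

theorem gr_eq_image (e : End) (A : Set ℂ) : e.gr A = (fun z => ((z, e.w z) : E)) '' A := by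
  ext y
  exact ⟨fun h => ⟨y.1, h.1, Prod.ext rfl h.2.symm⟩, by rintro ⟨z, hz, rfl⟩; exact ⟨hz, rfl⟩⟩

theorem gr_mono (e : End) {A B : Set ℂ} (h : A ⊆ B) : e.gr A ⊆ e.gr B := fun _ hy => ⟨h hy.1, hy.2⟩

theorem isCompact_gr {A : Set ℂ} (hA : IsCompact A) (hw : ContinuousOn e.w A) :
    IsCompact (e.gr A) :=
  e.gr_eq_image A ▸ hA.image_of_continuousOn (continuousOn_id.prodMk hw)

theorem isPreconnected_gr {A : Set ℂ} (hA : IsPreconnected A) (hw : ContinuousOn e.w A) :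
    IsPreconnected (e.gr A) :=
  e.gr_eq_image A ▸ hA.image _ (continuousOn_id.prodMk hw)

theorem dep_move (hr : 0 < e.r) (s : ℝ) {z : ℂ} (hz : z ≠ e.c) :
    (e.move s).dep z = e.dep z - s := by
  have h0 : ‖z - e.c‖ ≠ 0 := norm_ne_zero_iff.2 (sub_ne_zero.2 hz)
  have h1 : (e.move s).sgn = e.sgn := rfl
  have h2 := e.sgn_mul_self
  show ((e.move s).sgn : ℝ) * Real.log (‖z - e.c‖ / e.rad s) = _
  rw [h1, dep, Real.log_div h0 (rad_pos hr s).ne', Real.log_div h0 hr.ne', log_rad hr]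
  linear_combination (-s) * h2

theorem rad_move (e : End) (s t : ℝ) : (e.move s).rad t = e.rad (s + t) := by
  have h1 : (e.move s).sgn = e.sgn := rfl
  show e.rad s * Real.exp ((e.move s).sgn * t) = _
  rw [h1, rad, rad, mul_add, Real.exp_add, mul_assoc]

end End

/-! ### curves -/

namespace IsCurve

variable {ι : Type} {P : E → ℂ} {Γ : Set E} {e : ι → End}

theorem mem_of_circ (h : IsCurve P Γ e) (j : ι) {z : ℂ} (hz : z ∈ (e j).circ) :
    (z, (e j).w z) ∈ Γ := by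
  refine (h.loc j z hz).self_of_nhds.2 ⟨rfl, ?_⟩
  have : ‖z - (e j).c‖ = (e j).r := mem_sphere_iff_norm.1 hz
  exact ⟨fun _ => this.le, fun _ => this.ge⟩

theorem ends_subset (h : IsCurve P Γ e) : ends e ⊆ Γ := by
  rintro y ⟨j, h1, h2⟩
  have := h.mem_of_circ j h1
  rwa [← h2] at this

theorem loops_subset (h : IsCurve P Γ e) : loops e ⊆ Γ := fun _ ⟨j, _, a⟩ =>
  h.ends_subset ⟨j, a⟩

theorem isCompact_end (h : IsCurve P Γ e) (j : ι) : IsCompact ((e j).gr (e j).circ) :=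
  End.isCompact_gr (e j).isCompact_circ (h.wan j).continuousOn

theorem isCompact_loops [Fintype ι] (h : IsCurve P Γ e) : IsCompact (loops e) := by
  have : loops e = ⋃ j : {j // (e j).k ≠ Kind.pt}, (e j).gr (e j).circ := by
    ext y; simp [loops]
  rw [this]
  exact isCompact_iUnion fun j => h.isCompact_end j

/-- near a regular point off the loops the curve is an analytic graph -/
theorem chart (h : IsCurve P Γ e) {y : E} (hy : y ∈ Γ) (hl : y ∉ loops e) (hw : dw P y ≠ 0) :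
    ∃ g : ℂ → ℂ, AnalyticAt ℂ g y.1 ∧ g y.1 = y.2 ∧ (∀ᶠ z in 𝓝 y.1, (z, g z) ∈ Γ) ∧
      ∀ᶠ x in 𝓝 y, (x ∈ Γ ↔ x.2 = g x.1) := by
  obtain ⟨g, h1, h2, -, h4⟩ := ift (h.poly.analyticAt y) (h.zero y hy) hw
  have h5 : ∀ᶠ x in 𝓝 y, (x ∈ Γ ↔ x.2 = g x.1) := by
    filter_upwards [h4, h.int y hy hl] with x a b using ⟨fun c => a.1 (h.zero x c), fun c => b (a.2 c)⟩
  have h6 : Tendsto (fun z : ℂ => ((z, g z) : E)) (𝓝 y.1) (𝓝 y) := by
    have : ContinuousAt (fun z : ℂ => ((z, g z) : E)) y.1 := continuousAt_id.prodMk h1.continuousAt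
    rwa [ContinuousAt, h2] at this
  exact ⟨g, h1, h2, (h6.eventually h5).mono fun z a => a.2 rfl, h5⟩

/-- near a branch point (or any point with `dz P ≠ 0`) off the loops: a graph over `w` -/
theorem chart_swap (h : IsCurve P Γ e) {y : E} (hy : y ∈ Γ) (hl : y ∉ loops e) (hw : dz P y ≠ 0) :
    ∃ g : ℂ → ℂ, AnalyticAt ℂ g y.2 ∧ g y.2 = y.1 ∧ (∀ᶠ w in 𝓝 y.2, (g w, w) ∈ Γ) ∧
      ∀ᶠ x in 𝓝 y, (x ∈ Γ ↔ x.1 = g x.2) := by
  obtain ⟨g, h1, h2, -, h4⟩ := ift_swap (h.poly.analyticAt y) (h.zero y hy) hw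
  have h5 : ∀ᶠ x in 𝓝 y, (x ∈ Γ ↔ x.1 = g x.2) := by
    filter_upwards [h4, h.int y hy hl] with x a b using ⟨fun c => a.1 (h.zero x c), fun c => b (a.2 c)⟩
  have h6 : Tendsto (fun z : ℂ => ((g z, z) : E)) (𝓝 y.2) (𝓝 y) := by
    have : ContinuousAt (fun z : ℂ => ((g z, z) : E)) y.2 := h1.continuousAt.prodMk continuousAt_id
    rwa [ContinuousAt, h2] at this
  exact ⟨g, h1, h2, (h6.eventually h5).mono fun z a => a.2 rfl, h5⟩

end IsCurve

theorem Geo.mem {ι : Type} {P : E → ℂ} {Γ : Set E} {e : ι → End} {Sig : Finset ℂ} {r1 h : ℝ}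
    (G : Geo P Γ e Sig r1 h) (j : ι) {z : ℂ} (hz : z ∈ (e j).near (2 * h) (2 * r1)) :
    (z, (e j).w z) ∈ Γ ↔ (e j).side z := by
  simpa using (G.loc j z hz).self_of_nhds

/-! ### subharmonic functions -/

theorem aestronglyMeasurable_of_usc {u : ℂ → ℝ} {A : Set ℂ} (h : UpperSemicontinuousOn u A)
    (hA : MeasurableSet A) : AEStronglyMeasurable u (volume.restrict A) := by
  have h1 : Measurable (A.domRestrict u) := (upperSemicontinuousOn_iff_restrict.2 h).measurable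
  exact ((aemeasurable_restrict_iff_comap_subtype hA).2 h1.aemeasurable).aestronglyMeasurable

theorem SM.mono {u : ℂ → ℝ} {U V : Set ℂ} (h : SM u U) (hV : V ⊆ U) : SM u V :=
  ⟨h.usc.mono hV, h.bdd.imp fun _ a z hz => a z (hV hz), fun z hz => h.sub z (hV hz)⟩

theorem SM.integrableOn {u : ℂ → ℝ} {U A : Set ℂ} (h : SM u U) (hA : A ⊆ U)
    (hm : MeasurableSet A) (hb : Bornology.IsBounded A) : IntegrableOn u A := by
  obtain ⟨B, hB⟩ := h.bdd
  refine IntegrableOn.of_bound hb.measure_lt_top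
    (aestronglyMeasurable_of_usc (h.usc.mono hA) hm) B ?_
  filter_upwards [ae_restrict_mem hm] with z hz using hB z (hA hz)

theorem SMc.mono {u : E → ℝ} {Ω Ω' : Set E} (h : SMc u Ω) (hV : Ω' ⊆ Ω) : SMc u Ω' :=
  ⟨h.bdd.imp fun _ a z hz => a z (hV hz), fun U g a b c => h.sm U g a b fun z hz => hV (c z hz)⟩

theorem tr_eq_sum {Γ : Set E} {z : ℂ} (h : (fib Γ z).Finite) (f : E → ℝ) :
    tr Γ f z = ∑ w ∈ h.toFinset, f (z, w) := finsum_mem_eq_finite_toFinset_sum _ h

theorem tube_mono {A B : Set E} {τ τ' : ℝ} (h : A ⊆ B) (h' : τ ≤ τ') : tube A τ ⊆ tube B τ' :=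
  fun _ ⟨y, a, b, c⟩ => ⟨y, h a, b, c.trans h'⟩

theorem mem_tube_gr {e : End} {A : Set ℂ} {τ : ℝ} {x : E} :
    x ∈ tube (e.gr A) τ ↔ x.1 ∈ A ∧ ‖x.2 - e.w x.1‖ ≤ τ :=
  ⟨fun ⟨y, a, b, c⟩ => ⟨b ▸ a.1, by rwa [← b, ← a.2]⟩, fun h => ⟨(x.1, e.w x.1), ⟨h.1, rfl⟩, rfl, h.2⟩⟩

end Pool.Agent.CF
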