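import Pool.Agent.Lib.CF.Blue
import Pool.Agent.Lib.CF.Basic

open Set Metric Filter Topology

namespace Pool.Agent.CF

namespace FIB

theorem slice {P : E → ℂ} (h : IsPoly P) :
    ∃ d : ℕ, ∀ z, ∃ q : Polynomial ℂ, q.natDegree ≤ d ∧ ∀ w, P (z, w) = q.eval w := by
  induction h with
  | const a => exact ⟨0, fun _ => ⟨Polynomial.C a, by simp, fun _ => by simp⟩⟩
  | fst => exact ⟨0, fun z => ⟨Polynomial.C z, by simp, fun _ => by simp⟩⟩
  | snd => exact ⟨1, fun _ => ⟨Polynomial.X, by simp, fun _ => by simp⟩⟩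
  | add _ _ a b =>
    obtain ⟨d, hd⟩ := a
    obtain ⟨d', hd'⟩ := b
    refine ⟨max d d', fun z => ?_⟩
    obtain ⟨p, p1, p2⟩ := hd z
    obtain ⟨q, q1, q2⟩ := hd' z
    exact ⟨p + q, (Polynomial.natDegree_add_le p q).trans (max_le_max p1 q1),
      fun w => by simp [p2, q2]⟩
  | mul _ _ a b =>
    obtain ⟨d, hd⟩ := a
    obtain ⟨d', hd'⟩ := b
    refine ⟨d + d', fun z => ?_⟩
    obtain ⟨p, p1, p2⟩ := hd z
    obtain ⟨q, q1, q2⟩ := hd' z
    exact ⟨p * q, Polynomial.natDegree_mul_le.trans (add_le_add p1 q1),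
      fun w => by simp [p2, q2]⟩

theorem isolated {P : E → ℂ} (h : IsPoly P) {y : E} (h1 : dw P y = 0) (h2 : dz P y ≠ 0)
    (h3 : dw (dw P) y ≠ 0) : ∀ᶠ x in 𝓝[≠] y, ((P x, dw P x) : E) ≠ (0, 0) := by
  have hd := (h.differentiableAt y).hasFDerivAt.prodMk (h.dw.differentiableAt y).hasFDerivAt
  refine hd.eventually_ne ?_
  obtain ⟨K, -, hK⟩ := LinearMap.exists_antilipschitzWith
    (((fderiv ℂ P y).prod (fderiv ℂ (dw P) y) : E →L[ℂ] E) : E →ₗ[ℂ] E) (by
      rw [LinearMap.ker_eq_bot']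
      rintro ⟨a, b⟩ hab
      have e1 : fderiv ℂ P y (a, b) = 0 := congrArg Prod.fst hab
      have e2 : fderiv ℂ (dw P) y (a, b) = 0 := congrArg Prod.snd hab
      rw [fderiv_apply (h.differentiableAt y), h1, zero_mul, add_zero] at e1
      have ha : a = 0 := (mul_eq_zero.1 e1).resolve_left h2
      rw [fderiv_apply (h.dw.differentiableAt y), ha, mul_zero, zero_add] at e2
      have hb : b = 0 := (mul_eq_zero.1 e2).resolve_left h3
      rw [ha, hb]; rfl)
  exact ⟨K, hK⟩

end FIB

theorem st_fib : St_FIB := by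
  intro ι P Γ e h
  constructor
  · obtain ⟨d, hd⟩ := FIB.slice h.poly
    refine ⟨d, fun z => ?_⟩
    obtain ⟨q, q1, q2⟩ := hd z
    rcases (fib Γ z).eq_empty_or_nonempty with h0 | ⟨w, hw⟩
    · rw [h0]; simp
    have hq : q ≠ 0 := by
      rintro rfl
      have e1 : ∀ v, dw P (z, v) = 0 := fun v => by
        have : (fun v => P (z, v)) = fun _ => 0 := funext fun v => by simp [q2]
        simp [dw, this]
      refine h.ww (z, w) hw (e1 w) ?_
      have : (fun v => dw P (z, v)) = fun _ => 0 := funext e1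
      show deriv (fun v => dw P (z, v)) w = 0
      rw [this]; simp
    classical
    have hs : fib Γ z ⊆ (q.roots.toFinset : Set ℂ) := fun v hv => by
      have := h.zero (z, v) hv
      rw [q2] at this
      simpa [hq] using this
    refine ⟨(Finset.finite_toSet _).subset hs, (ncard_le_ncard hs (Finset.finite_toSet _)).trans ?_⟩
    rw [ncard_coe_finset]
    exact (Multiset.toFinset_card_le _).trans ((Polynomial.card_roots' q).trans q1)
  · have hc : IsCompact {y | y ∈ Γ ∧ dw P y = 0} :=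
      h.cpt.inter_right (isClosed_eq h.poly.dw.continuous continuous_const)
    refine hc.finite (isDiscrete_iff_nhdsNE.2 fun y hy => ?_)
    rw [inf_principal_eq_bot]
    filter_upwards [FIB.isolated h.poly hy.2 ((h.grad y hy.1).resolve_right (not_not.2 hy.2))
      (h.ww y hy.1 hy.2)] with x hx hx'
    exact hx (Prod.ext (h.zero x hx'.1) hx'.2)

end Pool.Agent.CF
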