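import Pool.Agent.Lib.CF.Blue

open Set Metric Filter Topology MeasureTheory

namespace Pool.Agent.CF

namespace FLX

theorem lap_sum {ι : Type} (s : Finset ι) (f : ι → ℂ → ℝ) (z : ℂ)
    (h : ∀ i ∈ s, ContDiffAt ℝ 2 (f i) z) :
    lap (fun x => ∑ i ∈ s, f i x) z = ∑ i ∈ s, lap (f i) z := by
  classical
  induction s using Finset.induction_on with
  | empty => simp [lap]
  | insert a s ha ih =>
    have h1 := h a (Finset.mem_insert_self _ _)
    have h2 : ∀ i ∈ s, ContDiffAt ℝ 2 (f i) z := fun i hi => h i (Finset.mem_insert_of_mem hi)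
    have h3 : ContDiffAt ℝ 2 (fun x => ∑ i ∈ s, f i x) z := ContDiffAt.sum h2
    have e : (fun x => ∑ i ∈ insert a s, f i x) = f a + fun x => ∑ i ∈ s, f i x := by
      funext x; simp [Finset.sum_insert ha]
    rw [Finset.sum_insert ha, ← ih h2, e]
    exact h1.laplacian_add h3

theorem lap_congr {f g : ℂ → ℝ} {z : ℂ} (h : f =ᶠ[𝓝 z] g) : lap f z = lap g z :=
  (InnerProductSpace.laplacian_congr_nhds h).eq_of_nhds

/-- A box in which the curve is one graph. -/
structure Box (Γ Ω : Set E) (D : Set ℂ) (B : Set E) (g : ℂ → ℂ) : Prop where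
  oD : IsOpen D
  oB : IsOpen B
  an : AnalyticOnNhd ℂ g D
  mem : ∀ z ∈ D, (z, g z) ∈ Ω ∧ (z, g z) ∈ B
  fst : ∀ x ∈ B, x.1 ∈ D
  eq : ∀ x ∈ B, x ∈ Γ → x.2 = g x.1

theorem ex_box {Γ Ω : Set E} (hG : Graphs Γ Ω) {y : E} (hy : y ∈ Ω) :
    ∃ (D : Set ℂ) (B : Set E) (g : ℂ → ℂ), Box Γ Ω D B g ∧ y ∈ B := by
  obtain ⟨g, ha, he, h1, h2⟩ := hG y hy
  obtain ⟨V, hV, oV, yV⟩ := _root_.eventually_nhds_iff.1 h2
  have hc : ContinuousAt (fun z => (z, g z)) y.1 := continuousAt_id.prodMk ha.continuousAt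
  have h3 : ∀ᶠ z in 𝓝 y.1, (z, g z) ∈ V := by
    apply hc.eventually_mem
    rw [he]
    exact oV.mem_nhds yV
  obtain ⟨D, hD, oD, yD⟩ := _root_.eventually_nhds_iff.1 ((h1.and h3).and ha.eventually_analyticAt)
  refine ⟨D, V ∩ Prod.fst ⁻¹' D, g, ⟨oD, oV.inter (oD.preimage continuous_fst),
    fun z hz => (hD z hz).2, fun z hz => ⟨(hD z hz).1.1, (hD z hz).1.2, hz⟩, fun x hx => hx.2,
    fun x hx => hV x hx.1⟩, yV, yD⟩

theorem pou {ι : Type} [Fintype ι] {K : Set E} (hK : IsClosed K) (B : ι → Set E)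
    (ho : ∀ i, IsOpen (B i)) (hc : K ⊆ ⋃ i, B i) : ∃ χ : ι → E → ℝ, (∀ i, ContDiff ℝ 2 (χ i)) ∧
      (∀ i x, 0 ≤ χ i x) ∧ (∀ i, tsupport (χ i) ⊆ B i) ∧ ∀ x ∈ K, ∑ i, χ i x = 1 := by
  obtain ⟨f, hf⟩ := SmoothPartitionOfUnity.exists_isSubordinate (modelWithCornersSelf ℝ E) hK B ho hc
  refine ⟨fun i => f i, fun i => ?_, fun i x => f.nonneg i x, fun i => hf i, fun x hx => ?_⟩
  · exact ((f i).contMDiff.contDiff).of_le (WithTop.coe_le_coe.2 (le_top : (2 : ℕ∞) ≤ ⊤))
  · rw [← finsum_eq_sum_of_fintype]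
    exact f.sum_eq_one hx

theorem cd_graph {g : ℂ → ℂ} {z : ℂ} (hg : AnalyticAt ℂ g z) {χ : E → ℝ} (hχ : ContDiff ℝ 2 χ) :
    ContDiffAt ℝ 2 (fun x => χ (x, g x)) z :=
  hχ.contDiffAt.comp z (contDiffAt_id.prodMk (hg.contDiffAt.restrict_scalars ℝ))

end FLX

open FLX

theorem st_flx (hD : St_DIST) : St_FLX := by
  classical
  intro Γ Ω K u Ψ L hfin hΩ hG hK hKΩ hu hΨ h0 hL M hM hle
  have hb : ∀ y : K, ∃ (D : Set ℂ) (B : Set E) (g : ℂ → ℂ), Box Γ Ω D B g ∧ (y : E) ∈ B :=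
    fun y => ex_box hG (hKΩ y.2)
  choose D B g hbox hyB using hb
  obtain ⟨t, ht⟩ := hK.elim_finite_subcover B (fun y => (hbox y).oB)
    (fun y hy => mem_iUnion.2 ⟨⟨y, hy⟩, hyB _⟩)
  obtain ⟨χ, cχ, pχ, sχ, oneχ⟩ := pou hK.isClosed (fun i : t => B i) (fun i => (hbox i).oB)
    (fun y hy => by
      obtain ⟨i, hi, h⟩ := mem_iUnion₂.1 (ht hy)
      exact mem_iUnion.2 ⟨⟨i, hi⟩, h⟩)
  obtain ⟨ψ, hψ⟩ : ∃ ψ : t → ℂ → ℝ, ∀ i z, ψ i z = χ i (z, g i z) * Ψ (z, g i z) :=
    ⟨_, fun _ _ => rfl⟩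
  have hψ' : ∀ i, ψ i = fun z => χ i (z, g i z) * Ψ (z, g i z) := fun i => funext (hψ i)
  have hdist : ∀ i : t, IntegrableOn (fun z => u (z, g i z) * lap (ψ i) z) (D i) ∧
      0 ≤ ∫ z in D i, u (z, g i z) * lap (ψ i) z := by
    intro i
    have bx := hbox i
    refine hD (fun z => u (z, g i z)) (ψ i) (D i) (Prod.fst '' (K ∩ tsupport (χ i))) bx.oD
      (hu.sm _ _ bx.oD bx.an fun z hz => (bx.mem z hz).1)
      ((hK.inter_right (isClosed_tsupport _)).image continuous_fst) ?_ ?_ ?_ ?_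
    · rintro _ ⟨x, hx, rfl⟩
      exact bx.fst x (sχ i hx.2)
    · intro z hz
      rw [hψ']
      refine ((cd_graph (bx.an z hz) (cχ i)).mul ?_).contDiffWithinAt
      exact (hL (z, g i z) (bx.mem z hz).1 (g i) (bx.an z hz) rfl
        (Filter.eventually_of_mem (bx.oD.mem_nhds hz) fun x hx => (bx.mem x hx).1)).1
    · intro z hz
      rw [hψ]
      exact mul_nonneg (pχ _ _) (hΨ _ (hΩ (bx.mem z hz).1))
    · intro z hz hn
      rw [hψ]
      by_cases hk : (z, g i z) ∈ K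
      · have : (z, g i z) ∉ tsupport (χ i) := fun h => hn ⟨_, ⟨hk, h⟩, rfl⟩
        rw [image_eq_zero_of_notMem_tsupport this, zero_mul]
      · rw [(h0 _ (hΩ (bx.mem z hz).1) hk).1, mul_zero]
  have hLs : ∀ y ∈ Γ, L y = ∑ i : t, if y ∈ B i then lap (ψ i) y.1 else 0 := by
    intro y hy
    by_cases hyΩ : y ∈ Ω
    · obtain ⟨g', ha, he, h1, -⟩ := hG y hyΩ
      obtain ⟨c1, c2⟩ := hL y hyΩ g' ha he h1
      have hc : ContinuousAt (fun z => (z, g' z)) y.1 := continuousAt_id.prodMk ha.continuousAt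
      have hy' : (y.1, g' y.1) = y := by rw [he]
      have e1 : (fun z => Ψ (z, g' z)) =ᶠ[𝓝 y.1] fun z => ∑ i : t, χ i (z, g' z) * Ψ (z, g' z) := by
        filter_upwards [h1] with z hz
        rw [← Finset.sum_mul]
        by_cases hk : (z, g' z) ∈ K
        · rw [oneχ _ hk, one_mul]
        · rw [(h0 _ (hΩ hz) hk).1, mul_zero]
      rw [← c2, lap_congr e1, lap_sum _ _ _ fun i _ => (cd_graph ha (cχ i)).mul c1]
      refine Finset.sum_congr rfl fun i _ => ?_
      split_ifs with hB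
      · apply lap_congr
        have h3 : ∀ᶠ z in 𝓝 y.1, (z, g' z) ∈ B i := by
          apply hc.eventually_mem
          rw [hy']
          exact (hbox i).oB.mem_nhds hB
        filter_upwards [h1, h3] with z hz1 hz3
        have : g' z = g i z := (hbox i).eq _ hz3 (hΩ hz1)
        rw [hψ, this]
      · have h3 : ∀ᶠ z in 𝓝 y.1, (z, g' z) ∈ (tsupport (χ i))ᶜ := by
          apply hc.eventually_mem
          rw [hy']
          exact (isClosed_tsupport _).isOpen_compl.mem_nhds fun h => hB (sχ i h)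
        have e2 : (fun z => χ i (z, g' z) * Ψ (z, g' z)) =ᶠ[𝓝 y.1] fun _ => (0 : ℝ) := by
          filter_upwards [h3] with z hz
          rw [image_eq_zero_of_notMem_tsupport hz, zero_mul]
        rw [lap_congr e2]
        simp [lap]
    · rw [(h0 y hy fun h => hyΩ (hKΩ h)).2]
      refine (Finset.sum_eq_zero fun i _ => if_neg fun hB => hyΩ ?_).symm
      have h1 := (hbox i).eq y hB hy
      have h2 := ((hbox i).mem _ ((hbox i).fst y hB)).1
      rwa [← h1] at h2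
  have htr : ∀ z, tr Γ (fun y => u y * L y) z =
      ∑ i : t, (D i).indicator (fun z => u (z, g i z) * lap (ψ i) z) z := by
    intro z
    unfold tr
    rw [finsum_mem_eq_finite_toFinset_sum _ (hfin z)]
    have e : ∀ w ∈ (hfin z).toFinset, u (z, w) * L (z, w) =
        ∑ i : t, if (z, w) ∈ B i then u (z, w) * lap (ψ i) z else 0 := by
      intro w hw
      rw [hLs (z, w) ((hfin z).mem_toFinset.1 hw), Finset.mul_sum]
      exact Finset.sum_congr rfl fun i _ => by split_ifs <;> simp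
    rw [Finset.sum_congr rfl e, Finset.sum_comm]
    refine Finset.sum_congr rfl fun i _ => ?_
    by_cases hz : z ∈ D i
    · rw [indicator_of_mem hz, Finset.sum_eq_single (g i z), if_pos ((hbox i).mem z hz).2]
      · intro w hw hne
        exact if_neg fun hB => hne ((hbox i).eq _ hB ((hfin z).mem_toFinset.1 hw))
      · intro hn
        exact absurd ((hfin z).mem_toFinset.2 (hΩ ((hbox i).mem z hz).1)) hn
    · rw [indicator_of_notMem hz]
      exact Finset.sum_eq_zero fun w _ => if_neg fun hB => hz ((hbox i).fst _ hB)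
  have hi : ∀ i : t, Integrable ((D i).indicator fun z => u (z, g i z) * lap (ψ i) z) := fun i =>
    (integrable_indicator_iff (hbox i).oD.measurableSet).2 (hdist i).1
  calc (0 : ℝ) ≤ ∑ i : t, ∫ z, (D i).indicator (fun z => u (z, g i z) * lap (ψ i) z) z :=
        Finset.sum_nonneg fun i _ => by
          rw [integral_indicator (hbox i).oD.measurableSet]
          exact (hdist i).2
    _ = ∫ z, ∑ i : t, (D i).indicator (fun z => u (z, g i z) * lap (ψ i) z) z :=
        (integral_finsetSum _ fun i _ => hi i).symm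
    _ ≤ ∫ z, M z := integral_mono (integrable_finsetSum _ fun i _ => hi i) hM fun z => by
        have := hle z
        rwa [htr] at this

end Pool.Agent.CF
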