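import Pool.Agent.Lib.CF.Blue
import Pool.Agent.Lib.CF.Basic

open Set Metric Filter Topology MeasureTheory

namespace Pool.Agent.CF

namespace FT0

theorem int_shrink {f : ℝ → ℝ} {a b c d : ℝ} (h1 : a ≤ c) (h2 : c ≤ d) (h3 : d ≤ b)
    (h : ∀ t, t ∉ Icc c d → f t = 0) : ∫ t in a..b, f t = ∫ t in c..d, f t := by
  rw [intervalIntegral.integral_of_le (by linarith), intervalIntegral.integral_of_le h2,
    ← integral_Icc_eq_integral_Ioc, ← integral_Icc_eq_integral_Ioc]
  exact setIntegral_eq_of_subset_of_forall_sdiff_eq_zero measurableSet_Icc (Icc_subset_Icc h1 h3)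
    fun x hx => h x hx.2

theorem loopB (hP : St_POL) {e : End} (hk : e.k ≠ Kind.pt) (hr : 0 < e.r) {h κ : ℝ} (hh : 0 < h)
    {φ β : ℝ → ℝ} (hβ : Continuous β) (h0 : ∀ t, 0 ≤ β t)
    (hz : ∀ t, t ∉ Icc (5 * h / 8) (3 * h / 4) → β t = 0)
    (h1 : ∫ t in (5 * h / 8)..(3 * h / 4), β t = 1)
    (hd : ∀ t, deriv (deriv φ) t = (β (t + h / 2) - β t) / (h / 2)) {F : ℂ → ℝ}
    (hF : IntegrableOn F (e.ann (Icc (h / 8) (3 * h / 4))))
    (hs : ∀ s ∈ Icc (5 * h / 8) (3 * h / 4), Real.circleAverage F e.c (e.rad (s - h / 2)) ≤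
      Real.circleAverage F e.c (e.rad s) + κ * (h / 2)) :
    Integrable (fun z => F z * wt e φ (h / 8) (3 * h / 4) z) ∧
      ∫ z, F z * wt e φ (h / 8) (3 * h / 4) z ≤ 2 * Real.pi * κ := by
  have hab : h / 8 ≤ 3 * h / 4 := by linarith
  have hm : MeasurableSet (e.ann (Icc (h / 8) (3 * h / 4))) :=
    (End.isCompact_ann hr isCompact_Icc).measurableSet
  obtain ⟨a1, -, a3⟩ := hP e F (fun s => (β (s + h / 2) - β s) / (h / 2)) _ _ hk hr hab
    (by fun_prop) hF
  obtain ⟨-, I1, -⟩ := hP e F (fun s => β (s + h / 2)) _ _ hk hr hab (by fun_prop) hF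
  obtain ⟨-, I2, -⟩ := hP e F β _ _ hk hr hab hβ hF
  have e1 : (fun z => F z * wt e φ (h / 8) (3 * h / 4) z) =
      (e.ann (Icc (h / 8) (3 * h / 4))).indicator fun z =>
        F z * ((β (e.dep z + h / 2) - β (e.dep z)) / (h / 2) / ‖z - e.c‖ ^ 2) := by
    funext z
    rw [wt, ← indicator_mul_right]
    simp only [hd]
  rw [e1, integrable_indicator_iff hm, integral_indicator hm, a3]
  refine ⟨a1, mul_le_mul_of_nonneg_left ?_ (by positivity)⟩
  set A : ℝ → ℝ := fun s => Real.circleAverage F e.c (e.rad s) with hA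
  have e2 : ∫ s in (h / 8)..(3 * h / 4), (β (s + h / 2) - β s) / (h / 2) * A s =
      ((∫ s in (h / 8)..(3 * h / 4), β (s + h / 2) * A s) -
        ∫ s in (h / 8)..(3 * h / 4), β s * A s) / (h / 2) := by
    rw [← intervalIntegral.integral_sub I1 I2, ← intervalIntegral.integral_div]
    congr 1; funext s; ring
  have e3 : ∫ s in (h / 8)..(3 * h / 4), β (s + h / 2) * A s =
      ∫ s in (5 * h / 8)..(3 * h / 4), β s * A (s - h / 2) := by
    have := intervalIntegral.integral_comp_add_right (a := h / 8) (b := 3 * h / 4)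
      (fun s => β s * A (s - h / 2)) (h / 2)
    simp only [add_sub_cancel_right] at this
    rw [this]
    exact int_shrink (by linarith) (by linarith) (by linarith) fun t ht => by rw [hz t ht, zero_mul]
  have e4 : ∫ s in (h / 8)..(3 * h / 4), β s * A s =
      ∫ s in (5 * h / 8)..(3 * h / 4), β s * A s :=
    int_shrink (by linarith) (by linarith) le_rfl fun t ht => by rw [hz t ht, zero_mul]
  have I3 : IntervalIntegrable (fun s => β s * A (s - h / 2)) volume (5 * h / 8) (3 * h / 4) := by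
    have := I1.comp_sub_right (h / 2)
    simp only [sub_add_cancel] at this
    refine this.mono_set ?_
    rw [uIcc_of_le (by linarith), uIcc_of_le (by linarith)]
    exact Icc_subset_Icc (by linarith) (by linarith)
  have I4 : IntervalIntegrable (fun s => β s * A s) volume (5 * h / 8) (3 * h / 4) := by
    refine I2.mono_set ?_
    rw [uIcc_of_le (by linarith), uIcc_of_le (by linarith)]
    exact Icc_subset_Icc (by linarith) le_rfl
  have I5 : IntervalIntegrable (fun s => β s * (κ * (h / 2))) volume (5 * h / 8) (3 * h / 4) :=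
    (hβ.mul continuous_const).intervalIntegrable _ _
  have i1 := intervalIntegral.integral_mono_on (by linarith) I3 (I4.add I5) fun s hs' => by
    rw [← mul_add]; exact mul_le_mul_of_nonneg_left (hs s hs') (h0 s)
  rw [intervalIntegral.integral_add I4 I5, intervalIntegral.integral_mul_const, h1, one_mul] at i1
  rw [e2, e3, e4, div_le_iff₀ (by linarith)]
  linarith

theorem ptB (hP : St_POL) (c : ℂ) {r1 r2 l β0 C Λ S κ : ℝ} (hr1 : 0 < r1) (hr2 : 0 < r2)
    (hl : l = Real.log (r1 / (4 * r2))) (hl0 : 0 < l) (hβ0 : 0 < β0) {φ β : ℝ → ℝ}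
    (hβ : Continuous β) (h0 : ∀ t, 0 ≤ β t ∧ β t ≤ β0 / (0 - -Real.log 2))
    (hz : ∀ t, t ∉ Icc (-Real.log 2) 0 → β t = 0) (h1 : ∫ t in (-Real.log 2)..0, β t = 1)
    (hd : ∀ t, deriv (deriv φ) t = (β (t + l) - β t) / l) (hκ : |κ| ≤ S) {v G : ℂ → ℝ}
    (hG : Integrable G) (hG0 : ∀ z, 0 ≤ G z) (hGi : ∫ z, G z ≤ Λ * r1 ^ 2)
    (hv : ∀ z, (2 * r2 ≤ ‖z - c‖ → ‖z - c‖ ≤ 4 * r2 → v z ≤ C + κ * Real.log (r1 / ‖z - c‖)) ∧
      (r1 / 2 ≤ ‖z - c‖ → ‖z - c‖ ≤ r1 → -v z ≤ G z)) :
    ∃ M : ℂ → ℝ, Integrable M ∧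
      (∀ z, v z * wt (punc c r1) φ (Real.log (2 * r2 / r1)) 0 z ≤ M z) ∧
      ∫ z, M z ≤ 2 * Real.pi * κ + (2 * Real.pi * (C + S) + 4 * β0 / Real.log 2 * Λ) / l := by
  have hl2 : 0 < Real.log 2 := Real.log_pos one_lt_two
  have hl2' : Real.log 2 ≤ 1 := by linarith [Real.log_two_lt_d9]
  have h4 : Real.log (4 * r2) = 2 * Real.log 2 + Real.log r2 := by
    rw [Real.log_mul (by norm_num) hr2.ne', show (4 : ℝ) = 2 ^ 2 by norm_num, Real.log_pow]
    norm_num
  have h2 : Real.log (2 * r2) = Real.log 2 + Real.log r2 := Real.log_mul two_ne_zero hr2.ne'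
  have hl' : l = Real.log r1 - 2 * Real.log 2 - Real.log r2 := by
    rw [hl, Real.log_div hr1.ne' (by positivity), h4]; ring
  have ha : Real.log (2 * r2 / r1) = -Real.log 2 - l := by
    rw [Real.log_div (by positivity) hr1.ne', h2, hl']; ring
  have hk : (punc c r1).k ≠ Kind.pt := by simp [punc]
  have hr : 0 < (punc c r1).r := hr1
  have hcp := End.isCompact_ann hr (isCompact_Icc (a := -Real.log 2 - l) (b := 0))
  have hm := hcp.measurableSet
  obtain ⟨a1, -, a3⟩ := hP (punc c r1) (fun _ => 1) (fun s => (C + κ * l + S) / l * β (s + l))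
    (-Real.log 2 - l) 0 hk hr (by linarith) (by fun_prop)
    (integrableOn_const hcp.measure_lt_top.ne)
  have a1' := (integrable_indicator_iff hm).2 a1
  have hc0 : 0 ≤ 4 * β0 / Real.log 2 / (l * r1 ^ 2) := by positivity
  refine ⟨_, a1'.add (hG.const_mul (4 * β0 / Real.log 2 / (l * r1 ^ 2))), fun z => ?_, ?_⟩
  · rw [ha, wt, Pi.add_apply]
    by_cases hz' : z ∈ (punc c r1).ann (Icc (-Real.log 2 - l) 0)
    swap
    · rw [indicator_of_notMem hz', indicator_of_notMem hz', mul_zero, zero_add]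
      exact mul_nonneg hc0 (hG0 z)
    rw [indicator_of_mem hz', indicator_of_mem hz', hd]
    have hn : 0 < ‖z - c‖ := norm_pos_iff.2 (sub_ne_zero.2 hz'.1)
    have hdep : (punc c r1).dep z = Real.log ‖z - c‖ - Real.log r1 := by
      simp [End.dep, End.sgn, punc, Real.log_div hn.ne' hr1.ne']
    have hc : (punc c r1).c = c := rfl
    rw [hc]
    generalize (punc c r1).dep z = d at hdep ⊢
    have b1 : β (d + l) * v z ≤ β (d + l) * (C + κ * l + S) := by
      by_cases hb : d + l ∈ Icc (-Real.log 2) 0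
      swap
      · rw [hz _ hb, zero_mul, zero_mul]
      refine mul_le_mul_of_nonneg_left ?_ (h0 _).1
      have := (hv z).1 ((Real.log_le_log_iff (by positivity) hn).1 (by linarith [hb.1]))
        ((Real.log_le_log_iff hn (by positivity)).1 (by linarith [hb.2]))
      rw [Real.log_div hr1.ne' hn.ne'] at this
      have e : κ * (Real.log r1 - Real.log ‖z - c‖) = κ * l + κ * (-(d + l)) := by
        rw [hdep]; ring
      have h5 : κ * (-(d + l)) ≤ S := by
        have h6 := (abs_le.1 hκ).2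
        have h7 := (abs_nonneg κ).trans hκ
        nlinarith [hb.1, hb.2]
      linarith
    have b2 : β d * -v z / ‖z - c‖ ^ 2 ≤ 4 * β0 / Real.log 2 / r1 ^ 2 * G z := by
      by_cases hb : d ∈ Icc (-Real.log 2) 0
      swap
      · rw [hz _ hb, zero_mul, zero_div]
        exact mul_nonneg (by positivity) (hG0 z)
      have n1 : r1 / 2 ≤ ‖z - c‖ := (Real.log_le_log_iff (by positivity) hn).1 (by
        rw [Real.log_div hr1.ne' two_ne_zero]; linarith [hb.1])
      have n2 : ‖z - c‖ ≤ r1 := (Real.log_le_log_iff hn hr1).1 (by linarith [hb.2])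
      have n3 := (hv z).2 n1 n2
      have n4 := (h0 d).2
      rw [sub_neg_eq_add, zero_add] at n4
      have n5 := hG0 z
      calc β d * -v z / ‖z - c‖ ^ 2 ≤ β d * G z / ‖z - c‖ ^ 2 := by
            gcongr; exact (h0 d).1
        _ ≤ β0 / Real.log 2 * G z / (r1 / 2) ^ 2 := by gcongr
        _ = _ := by field_simp; ring
    have b3 : β (d + l) * v z / ‖z - c‖ ^ 2 ≤ β (d + l) * (C + κ * l + S) / ‖z - c‖ ^ 2 := by
      gcongr
    have b4 := div_le_div_of_nonneg_right (add_le_add b3 b2) hl0.le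
    calc _ = (β (d + l) * v z / ‖z - c‖ ^ 2 + β d * -v z / ‖z - c‖ ^ 2) / l := by ring
      _ ≤ _ := b4
      _ = _ := by field_simp
  · simp only [Pi.add_apply]
    rw [integral_add a1' (hG.const_mul _), integral_indicator hm, a3, integral_const_mul]
    simp only [Real.circleAverage_const, mul_one]
    rw [intervalIntegral.integral_const_mul, intervalIntegral.integral_comp_add_right,
      int_shrink (c := -Real.log 2) (d := 0) (by linarith) (by linarith) (by linarith) hz, h1]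
    have := mul_le_mul_of_nonneg_left hGi hc0
    have e1 : 4 * β0 / Real.log 2 / (l * r1 ^ 2) * (Λ * r1 ^ 2) = 4 * β0 / Real.log 2 * Λ / l := by
      field_simp
    have e2 : 2 * Real.pi * ((C + κ * l + S) / l * 1) =
        2 * Real.pi * κ + 2 * Real.pi * (C + S) / l := by field_simp; ring
    rw [e1] at this
    rw [e2, add_div]
    linarith

theorem ann_reg {ι : Type} {P : E → ℂ} {Γ : Set E} {e : ι → End} {Sig : Finset ℂ} {r1 h r2 : ℝ}
    (hC : IsCurve P Γ e) (hG : Geo P Γ e Sig r1 h) (hr : r2 ≤ r1) {j : ι}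
    (hk : (e j).k ≠ Kind.pt) {z : ℂ} (hz : z ∈ (e j).ann (Ioo (h / 16) (2 * h))) :
    z ∈ (e j).near (2 * h) (2 * r1) ∧ (z, (e j).w z) ∈ reg Γ e Sig (h / 16) r2 r2 := by
  have hh := hG.hpos
  have hr1 := hG.r1pos
  have h1 : z ∈ (e j).near (2 * h) (2 * r1) := by
    rw [End.near_loop hk]
    exact ⟨hz.1, by linarith [hz.2.1], hz.2.2.le⟩
  refine ⟨h1, (hG.mem j h1).2 ((End.side_iff hk ((hC.ok j).pos hk) hz.1).2
    (by linarith [hz.2.1])), fun b hb => ?_, fun i hi => ?_⟩
  · have := hG.sig j z h1 b hb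
    show r2 < ‖z - b‖
    linarith
  · by_cases hij : i = j
    · subst hij
      have := hi.1
      rw [End.near_loop hk] at this
      exact absurd this.2.2 (not_le.2 hz.2.1)
    · exact Set.disjoint_left.1 (hG.disj hij)
        ((e i).gr_mono ((e i).near_mono (by linarith) (by linarith)) hi) ⟨h1, rfl⟩

end FT0

open FT0 in
theorem st_ft0 (hCUT : St_CUT) (hP : St_POL) (hA : St_FTA) : St_FT0 := by
  obtain ⟨β0, hβ0, hcut⟩ := hCUT
  have hl2 : 0 < Real.log 2 := Real.log_pos one_lt_two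
  refine ⟨1 + 4 * β0 / Real.log 2, by positivity, ?_⟩
  intro ι _ P Γ e Sig r1 h r2 u κ κb C Λ S G hC hG hr2 hr21 hu hC0 hΛ hS hκ hκb hGi hG0 hGI
    hloop hpt hsig
  have hh := hG.hpos
  have hr1 := hG.r1pos
  have hl0 : 0 < Real.log (r1 / (4 * r2)) :=
    Real.log_pos (by rw [lt_div_iff₀ (by positivity)]; linarith)
  obtain ⟨φ1, β1, p1, p2, p3, p4, p5, p6, p7, p8, p9⟩ :=
    hcut (5 * h / 8) (3 * h / 4) (h / 2) (by linarith) (by linarith)
  obtain ⟨φ2, β2, q1, q2, q3, q4, q5, q6, q7, q8, q9⟩ :=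
    hcut (-Real.log 2) 0 _ (by linarith) hl0
  have ha : Real.log (2 * r2 / r1) = -Real.log 2 - Real.log (r1 / (4 * r2)) := by
    rw [← Real.log_inv 2, ← Real.log_div (by norm_num) (by positivity)]
    congr 1
    field_simp
    norm_num
  set D := (2 * Real.pi * (C + S) + 4 * β0 / Real.log 2 * Λ) / Real.log (r1 / (4 * r2)) with hD
  have hpi := Real.pi_gt_three
  have hD0 : 0 ≤ D := by positivity
  have H1 : ∀ j, ∃ M : ℂ → ℝ, Integrable M ∧ (∀ z, (u (z, (e j).w z) *
      if (e j).k = Kind.pt then wt (punc (e j).c r1) φ2 (Real.log (2 * r2 / r1)) 0 z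
      else wt (e j) φ1 (h / 8) (3 * h / 4) z) ≤ M z) ∧ ∫ z, M z ≤ 2 * Real.pi * κ j + D := by
    intro j
    by_cases hk : (e j).k = Kind.pt
    · simp only [if_pos hk]
      exact ptB hP _ hr1 hr2 rfl hl0 hβ0 q2 q3 q4 q5 q9 (hκ j) hGi hG0 hGI (hpt j hk)
    · simp only [if_neg hk]
      have hr := (hC.ok j).pos hk
      have hreg := fun z hz => ann_reg hC hG (r2 := r2) (by linarith) hk (z := z) hz
      have hsm := hu.sm _ (e j).w (End.isOpen_ann hr isOpen_Ioo)
        (fun z hz => hG.wan j z (hreg z hz).1) fun z hz => (hreg z hz).2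
      have hcp := End.isCompact_ann hr (isCompact_Icc (a := h / 8) (b := 3 * h / 4))
      obtain ⟨a1, a2⟩ := loopB hP hk hr hh p2 (fun t => (p3 t).1) p4 p5 p9
        (hsm.integrableOn (End.ann_mono (Icc_subset_Ioo (by linarith) (by linarith)))
          hcp.measurableSet hcp.isBounded) (hloop j hk)
      exact ⟨_, a1, fun z => le_rfl, by linarith⟩
  have H2 : ∀ b : ℂ, ∃ M : ℂ → ℝ, b ∈ Sig → Integrable M ∧
      (∀ z, tr Γ u z * wt (punc b r1) φ2 (Real.log (2 * r2 / r1)) 0 z ≤ M z) ∧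
      ∫ z, M z ≤ 2 * Real.pi * κb b + D := by
    intro b
    by_cases hb : b ∈ Sig
    · obtain ⟨M, hM⟩ := ptB hP b hr1 hr2 rfl hl0 hβ0 q2 q3 q4 q5 q9 (hκb b hb) hGi hG0 hGI
        (hsig b hb)
      exact ⟨M, fun _ => hM⟩
    · exact ⟨0, fun h => absurd h hb⟩
  choose M1 m1 m2 m3 using H1
  choose M2 hM2 using H2
  have i1 : Integrable fun z => ∑ j, M1 j z := integrable_finsetSum _ fun j _ => m1 j
  have i2 : Integrable fun z => ∑ b ∈ Sig, M2 b z :=
    integrable_finsetSum _ fun b hb => (hM2 b hb).1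
  have key := hA ι P Γ e Sig r1 h r2 u φ1 φ2 hC hG hr2 hr21 hu p1 q1 p6 q6
    (fun t ht => p7 t (by linarith)) p8 (fun t ht => q7 t (by rw [← ha]; exact ht)) q8
    (fun z => ∑ j, M1 j z + ∑ b ∈ Sig, M2 b z) (i1.add i2) fun z =>
      add_le_add (Finset.sum_le_sum fun j _ => m2 j z)
        (Finset.sum_le_sum fun b hb => (hM2 b hb).2.1 z)
  rw [integral_add i1 i2, integral_finsetSum _ fun j _ => m1 j,
    integral_finsetSum _ fun b hb => (hM2 b hb).1] at key
  have s1 := Finset.sum_le_sum fun j (_ : j ∈ Finset.univ) => m3 j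
  have s2 := Finset.sum_le_sum fun b hb => (hM2 b hb).2.2
  rw [Finset.sum_add_distrib, ← Finset.mul_sum, Finset.sum_const, nsmul_eq_mul] at s1 s2
  rw [Finset.card_univ] at s1
  have hD1 : D ≤ 2 * Real.pi *
      ((1 + 4 * β0 / Real.log 2) * (C + Λ + S) / Real.log (r1 / (4 * r2))) := by
    rw [hD, ← mul_div_assoc]
    refine div_le_div_of_nonneg_right ?_ hl0.le
    have hb : 0 ≤ 4 * β0 / Real.log 2 := by positivity
    generalize 4 * β0 / Real.log 2 = b at hb
    have t1 := mul_nonneg hb hΛ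
    have t2 := mul_nonneg hb (add_nonneg hC0 hS)
    nlinarith
  have hN : (0 : ℝ) ≤ Fintype.card ι + Sig.card := by positivity
  have hD2 := mul_le_mul_of_nonneg_left hD1 hN
  refine nonneg_of_mul_nonneg_right (a := 2 * Real.pi) ?_ (by linarith)
  calc 0 ≤ 2 * Real.pi * ∑ j, κ j + 2 * Real.pi * ∑ b ∈ Sig, κb b +
        (Fintype.card ι + Sig.card) * D := by linarith
    _ ≤ _ := add_le_add_right hD2 _
    _ = _ := by ring

end Pool.Agent.CF
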