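import Pool.Agent.Lib.CF.Blue

open Set Metric Filter Topology MeasureTheory

namespace Pool.Agent.CF

namespace FTA

/-- twice differentiable with given Laplacian -/
def LP (f : ℂ → ℝ) (z : ℂ) (l : ℝ) : Prop := ContDiffAt ℝ 2 f z ∧ lap f z = l

lemma LP.congr {f g : ℂ → ℝ} {z : ℂ} {l : ℝ} (h : LP g z l) (e : f =ᶠ[𝓝 z] g) : LP f z l :=
  ⟨h.1.congr_of_eventuallyEq e,
    (InnerProductSpace.laplacian_congr_nhds e).self_of_nhds.trans h.2⟩

lemma LP.const (c : ℝ) (z : ℂ) : LP (fun _ => c) z 0 :=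
  ⟨contDiffAt_const, by simp [lap]⟩

lemma LP.add {f g : ℂ → ℝ} {z : ℂ} {l m : ℝ} (h : LP f z l) (k : LP g z m) :
    LP (fun x => f x + g x) z (l + m) :=
  ⟨h.1.add k.1, (h.1.laplacian_add k.1).trans (by rw [← h.2, ← k.2])⟩

lemma LP.sum {σ : Type} (s : Finset σ) {f : σ → ℂ → ℝ} {z : ℂ} {l : σ → ℝ}
    (h : ∀ i, LP (f i) z (l i)) : LP (fun x => ∑ i ∈ s, f i x) z (∑ i ∈ s, l i) := by
  classical
  induction s using Finset.induction_on with
  | empty => simpa using LP.const 0 z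
  | insert i s hi ih => simpa only [Finset.sum_insert hi] using (h i).add ih

/-- radial cut-off, zero at the centre -/
noncomputable def cut (e : End) (φ : ℝ → ℝ) (z : ℂ) : ℝ := if z = e.c then 0 else φ (e.dep z)

/-- radial data -/
structure RD (e : End) (φ : ℝ → ℝ) (a b : ℝ) : Prop where
  pos : 0 < e.r
  cd : ContDiff ℝ 2 φ
  bd : ∀ t, 0 ≤ φ t ∧ φ t ≤ 1
  lo : ∀ t ≤ a, φ t = 0
  hi : ∀ t, b ≤ t → φ t = 1

lemma RD.dd {e : End} {φ : ℝ → ℝ} {a b : ℝ} (h : RD e φ a b) {t : ℝ} (ht : t ∉ Icc a b) :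
    deriv (deriv φ) t = 0 := by
  have key : ∀ c : ℝ, φ =ᶠ[𝓝 t] (fun _ => c) → deriv (deriv φ) t = 0 := fun c k => by
    rw [k.deriv.deriv_eq]
    simp
  rw [mem_Icc, not_and_or, not_le, not_le] at ht
  rcases ht with k | k
  · exact key 0 (mem_of_superset (Iio_mem_nhds k) fun s hs => h.lo s (le_of_lt hs))
  · exact key 1 (mem_of_superset (Ioi_mem_nhds k) fun s hs => h.hi s (le_of_lt hs))

lemma RD.lp (hR : St_RAD) {e : End} {φ : ℝ → ℝ} {a b : ℝ} (h : RD e φ a b) {z : ℂ}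
    (hz : z ≠ e.c) : LP (fun x => cut e φ x + -1) z (wt e φ a b z) := by
  obtain ⟨h1, h2⟩ := hR e φ z h.pos h.cd hz
  have k : LP (fun x => φ (e.dep x)) z (wt e φ a b z) := by
    refine ⟨h1, h2.trans ?_⟩
    by_cases m : z ∈ e.ann (Icc a b)
    · rw [wt, indicator_of_mem m]
    · rw [wt, indicator_of_notMem m, h.dd fun k => m ⟨hz, k⟩, zero_div]
  have k2 := k.add (LP.const (-1) z)
  rw [add_zero] at k2
  refine k2.congr ?_
  filter_upwards [isOpen_ne.mem_nhds hz] with x hx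
  simp only [cut, if_neg hx]

lemma RD.cut_ge {e : End} {φ : ℝ → ℝ} {a b : ℝ} (h : RD e φ a b) (z : ℂ) : 0 ≤ cut e φ z := by
  unfold cut
  split_ifs
  · exact le_rfl
  · exact (h.bd _).1

lemma RD.inner {e : End} {φ : ℝ → ℝ} {a b : ℝ} (h : RD e φ a b) {z : ℂ}
    (hz : z = e.c ∨ e.dep z < a) : cut e φ z = 0 ∧ wt e φ a b z = 0 := by
  refine ⟨?_, indicator_of_notMem (fun m => ?_) _⟩
  · unfold cut
    split_ifs with k
    · rfl
    · exact h.lo _ (hz.resolve_left k).le
  · exact (hz.resolve_left m.1).not_ge m.2.1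

lemma punc_dep (b : ℂ) (r : ℝ) (z : ℂ) : (punc b r).dep z = Real.log (‖z - b‖ / r) := by
  simp [End.dep, End.sgn, punc]

lemma punc_in {b z : ℂ} {r ρ : ℝ} (hr : 0 < r) (h : ‖z - b‖ < ρ) :
    z = (punc b r).c ∨ (punc b r).dep z < Real.log (ρ / r) := by
  refine (em (z = b)).imp_right fun k => ?_
  rw [punc_dep]
  exact Real.log_lt_log (div_pos (norm_pos_iff.2 (sub_ne_zero.2 k)) hr) (by gcongr)

lemma punc_out {b z : ℂ} {r : ℝ} (hr : 0 < r) (h : r < ‖z - b‖) :
    z ≠ (punc b r).c ∧ 0 < (punc b r).dep z := by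
  refine ⟨fun k => ?_, ?_⟩
  · have k' : z = b := k
    rw [k', sub_self, norm_zero] at h
    exact lt_asymm hr h
  · rw [punc_dep]
    exact Real.log_pos ((one_lt_div hr).2 h)

lemma sgn_cases (e : End) : (e.sgn : ℝ) = 1 ∨ (e.sgn : ℝ) = -1 := by
  unfold End.sgn
  split_ifs <;> simp

lemma ann_eq {e : End} (hr : 0 < e.r) (a : ℝ) : e.ann (Icc (-a) a) =
    {z | e.r * Real.exp (-a) ≤ ‖z - e.c‖ ∧ ‖z - e.c‖ ≤ e.r * Real.exp a} := by
  have key : ∀ z, z ≠ e.c → (e.dep z ∈ Icc (-a) a ↔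
      e.r * Real.exp (-a) ≤ ‖z - e.c‖ ∧ ‖z - e.c‖ ≤ e.r * Real.exp a) := fun z hz => by
    have p : 0 < ‖z - e.c‖ / e.r := div_pos (norm_pos_iff.2 (sub_ne_zero.2 hz)) hr
    rw [← le_div_iff₀' hr, ← div_le_iff₀' hr, ← Real.le_log_iff_exp_le p,
      ← Real.log_le_iff_le_exp p, End.dep, mem_Icc]
    rcases sgn_cases e with k | k <;> rw [k] <;> constructor <;> rintro ⟨h1, h2⟩ <;>
      constructor <;> linarith
  ext z
  constructor
  · rintro ⟨h1, h2⟩
    exact (key z h1).1 h2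
  · intro h
    have hz : z ≠ e.c := fun k => by
      have h1 := h.1
      rw [k, sub_self, norm_zero] at h1
      exact (mul_pos hr (Real.exp_pos _)).not_ge h1
    exact ⟨hz, (key z hz).2 h⟩

lemma near_closed {e : End} (h : e.ok) (a ρ : ℝ) : IsClosed (e.near a ρ) := by
  unfold End.near
  unfold End.ok at h
  split_ifs at h ⊢ with k
  · exact isClosed_closedBall
  · rw [ann_eq h]
    have c : Continuous fun z : ℂ => ‖z - e.c‖ := by fun_prop
    exact (isClosed_le continuous_const c).inter (isClosed_le c continuous_const)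

lemma nearO_open {e : End} (h : e.ok) (a ρ : ℝ) : IsOpen (e.nearO a ρ) := by
  unfold End.nearO
  unfold End.ok at h
  split_ifs at h ⊢ with k
  · exact isOpen_ball
  · refine isOpen_iff_mem_nhds.2 fun z hz => ?_
    have c1 : ContinuousAt e.dep z := by
      unfold End.dep
      refine continuousAt_const.mul (ContinuousAt.log (by fun_prop) ?_)
      exact (div_pos (norm_pos_iff.2 (sub_ne_zero.2 hz.1)) h).ne'
    exact inter_mem (isOpen_ne.mem_nhds hz.1) (c1 (isOpen_Ioo.mem_nhds hz.2))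

lemma nearO_sub (e : End) (a ρ : ℝ) : e.nearO a ρ ⊆ e.near a ρ := by
  unfold End.nearO End.near
  split_ifs
  · exact ball_subset_closedBall
  · exact fun z hz => ⟨hz.1, Ioo_subset_Icc_self hz.2⟩

lemma near_sub (e : End) {a ρ a' ρ' : ℝ} (h : a < a') (k : ρ < ρ') :
    e.near a ρ ⊆ e.nearO a' ρ' := by
  unfold End.nearO End.near
  split_ifs
  · exact closedBall_subset_ball k
  · exact fun z hz => ⟨hz.1, by linarith [hz.2.1], by linarith [hz.2.2]⟩

lemma side_iff {e : End} (hk : e.k ≠ Kind.pt) (hr : 0 < e.r) {z : ℂ} (hz : z ≠ e.c) :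
    e.side z ↔ 0 ≤ e.dep z := by
  have p : 0 < ‖z - e.c‖ / e.r := div_pos (norm_pos_iff.2 (sub_ne_zero.2 hz)) hr
  unfold End.side End.dep End.sgn
  cases hk' : e.k with
  | pt => exact (hk hk').elim
  | out =>
    simp only [if_true, reduceCtorEq, forall_true_left, IsEmpty.forall_iff, and_true]
    push_cast
    rw [neg_one_mul, neg_nonneg, Real.log_nonpos_iff p.le, div_le_one hr]
  | inn =>
    simp only [reduceCtorEq, if_false, forall_true_left, IsEmpty.forall_iff, true_and]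
    push_cast
    rw [one_mul, Real.log_nonneg_iff p, one_le_div hr]

lemma gr_closed {e : End} {A : Set ℂ} (hA : IsClosed A) (hw : ContinuousOn e.w A) :
    IsClosed (e.gr A) := by
  have h1 : ContinuousOn (fun y : E => y.2 - e.w y.1) (Prod.fst ⁻¹' A) :=
    continuous_snd.continuousOn.sub (hw.comp continuous_fst.continuousOn fun y hy => hy)
  have h2 := h1.preimage_isClosed_of_isClosed (hA.preimage continuous_fst)
    (isClosed_singleton (x := (0 : ℂ)))
  have e1 : e.gr A = Prod.fst ⁻¹' A ∩ (fun y : E => y.2 - e.w y.1) ⁻¹' {0} := by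
    ext y
    simp [End.gr, sub_eq_zero]
  rwa [e1]

/-- the radial data of an end -/
lemma end_data {e : End} (ok : e.ok) {r1 h r2 : ℝ} {φ1 φ2 : ℝ → ℝ} (hh : 0 < h) (h2 : 0 < r2)
    (h1 : 0 < r1) (c1 : ContDiff ℝ 2 φ1) (b1 : ∀ t, 0 ≤ φ1 t ∧ φ1 t ≤ 1)
    (l1 : ∀ t ≤ h / 8, φ1 t = 0) (u1 : ∀ t, 3 * h / 4 ≤ t → φ1 t = 1)
    (hp : ∀ b, RD (punc b r1) φ2 (Real.log (2 * r2 / r1)) 0) :
    ∃ (f : End) (φ : ℝ → ℝ) (a b : ℝ), RD f φ a b ∧
      (∀ z, (if e.k = Kind.pt then wt (punc e.c r1) φ2 (Real.log (2 * r2 / r1)) 0 z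
        else wt e φ1 (h / 8) (3 * h / 4) z) = wt f φ a b z) ∧
      (∀ z ∈ e.nearO (h / 8) (2 * r2), z = f.c ∨ f.dep z < a) ∧
      (∀ z ∈ e.nearO (2 * h) (2 * r1), z ∉ e.near h r1 → e.side z → z ≠ f.c ∧ b ≤ f.dep z) ∧
      (∀ z ∈ f.ann (Icc a b), z ∈ e.nearO (2 * h) (2 * r1) ∧ e.side z) ∧
      ∀ z ∈ e.nearO (2 * h) (2 * r1), z ∉ e.near (h / 16) r2 → z ≠ f.c := by
  unfold End.ok at ok
  by_cases k : e.k = Kind.pt
  · refine ⟨punc e.c r1, φ2, _, 0, hp _, fun z => if_pos k, ?_⟩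
    simp only [End.nearO, End.near, if_pos k, mem_ball, mem_closedBall, dist_eq_norm, not_le]
    refine ⟨fun z hz => punc_in h1 hz, fun z _ hz _ => (punc_out h1 hz).imp_right le_of_lt,
      fun z hz => ⟨?_, ?_⟩, fun z _ hz m => ?_⟩
    · by_contra m
      exact (punc_out h1 (by linarith [not_lt.1 m] : r1 < ‖z - e.c‖)).2.not_ge hz.2.2
    · exact ⟨fun m => by rw [k] at m; exact absurd m (by decide),
        fun m => by rw [k] at m; exact absurd m (by decide)⟩
    · have m' : z = e.c := m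
      rw [m', sub_self, norm_zero] at hz
      exact lt_asymm h2 hz
  · rw [if_neg k] at ok
    refine ⟨e, φ1, _, _, ⟨ok, c1, b1, l1, u1⟩, fun z => if_neg k, ?_⟩
    simp only [End.nearO, End.near, if_neg k]
    refine ⟨fun z hz => Or.inr hz.2.2, fun z hz m s => ⟨hz.1, ?_⟩, fun z hz => ⟨⟨hz.1, ?_, ?_⟩, ?_⟩,
      fun z hz _ => hz.1⟩
    · have s0 := (side_iff k ok hz.1).1 s
      by_contra m'
      exact m ⟨hz.1, by linarith, by linarith [not_le.1 m']⟩
    · linarith [hz.2.1]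
    · linarith [hz.2.2]
    · exact (side_iff k ok hz.1).2 (by linarith [hz.2.1])

end FTA

open FTA

theorem st_fta (hF : St_FIB) (hG : St_REG) (hR : St_RAD) (hX : St_FLX) : St_FTA := by
  intro ι _ P Γ e Sig r1 h r2 u φ1 φ2 hC hg h2 h64 hu c1 c2 b1 b2 l1 u1 l2 u2 M hM hle
  classical
  have h1 := hg.r1pos
  have hh := hg.hpos
  have hp : ∀ b, RD (punc b r1) φ2 (Real.log (2 * r2 / r1)) 0 := fun b => ⟨h1, c2, b2, l2, u2⟩
  choose f φ a b d1 d2 d3 d4 d5 d6 using fun j =>
    end_data (hC.ok j) hh h2 h1 c1 b1 l1 u1 hp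
  obtain ⟨⟨D, hD⟩, -⟩ := hF ι P Γ e hC
  obtain ⟨g1, g2⟩ := hG ι P Γ e Sig r1 h hC hg
  have hgr := (g1 (h / 16) r2 (by linarith) (by linarith) h2 (by linarith)).2 r2 h2.le
  have hK := g2 (h / 8) (2 * r2) (by linarith) (by linarith) (by linarith) (by linarith)
  let A : ι ⊕ Sig → E → Prop :=
    Sum.elim (fun j y => y ∈ (e j).gr ((e j).nearO (2 * h) (2 * r1))) fun b y => ‖y.1 - b‖ < 2 * r1
  let F : ι ⊕ Sig → End := Sum.elim f fun b => punc b r1
  let Φ : ι ⊕ Sig → ℝ → ℝ := Sum.elim φ fun _ => φ2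
  let α : ι ⊕ Sig → ℝ := Sum.elim a fun _ => Real.log (2 * r2 / r1)
  let β : ι ⊕ Sig → ℝ := Sum.elim b fun _ => 0
  have hd : ∀ i, RD (F i) (Φ i) (α i) (β i) := fun i => by
    cases i with
    | inl j => exact d1 j
    | inr b => exact hp b
  have hdis : ∀ y i i', A i y → A i' y → i = i' := fun y i i' m m' => by
    cases i with
    | inl j =>
      cases i' with
      | inl j' =>
        by_contra k
        exact disjoint_left.1 (hg.disj fun k' : j = j' => k (by rw [k']))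
          ⟨nearO_sub _ _ _ m.1, m.2⟩ ⟨nearO_sub _ _ _ m'.1, m'.2⟩
      | inr c => exact (lt_asymm (hg.sig j _ (nearO_sub _ _ _ m.1) c c.2) m').elim
    | inr c =>
      cases i' with
      | inl j' => exact (lt_asymm (hg.sig j' _ (nearO_sub _ _ _ m'.1) c c.2) m).elim
      | inr c' =>
        by_contra k
        have k1 := hg.dd c c.2 c' c'.2 fun k' => k (by rw [Subtype.ext k'])
        have k2 : ‖(c : ℂ) - c'‖ ≤ ‖y.1 - c'‖ + ‖y.1 - c‖ := by
          have : (c : ℂ) - c' = (y.1 - c') - (y.1 - c) := by ring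
          rw [this]
          exact norm_sub_le _ _
        have m1 : ‖y.1 - c‖ < 2 * r1 := m
        have m2 : ‖y.1 - c'‖ < 2 * r1 := m'
        linarith
  have one : ∀ (t : ι ⊕ Sig → ℝ) y i, A i y → ∑ i', (if A i' y then t i' else 0) = t i :=
    fun t y i m => by
      rw [Finset.sum_eq_single i (fun i' _ k => if_neg fun m' => k (hdis y _ _ m' m))
        (fun k => (k (Finset.mem_univ _)).elim), if_pos m]
  refine hX Γ (reg Γ e Sig (h / 16) r2 r2) (core Γ e Sig (2 * r2) (h / 8)) u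
    (fun y => 1 + ∑ i, if A i y then cut (F i) (Φ i) y.1 + -1 else 0)
    (fun y => ∑ i, if A i y then wt (F i) (Φ i) (α i) (β i) y.1 else 0)
    (fun z => (hD z).1) (fun y hy => hy.1) hgr hK (fun y hy => ⟨hy.1, fun c hc => ?_, fun j m => ?_⟩)
    hu (fun y _ => ?_) (fun y hy hn => ?_) (fun y hy g ga gy gΩ => ?_) M hM fun z => ?_
  · linarith [hy.2.1 c hc]
  · exact hy.2.2 j ⟨near_sub _ (by linarith) (by linarith) m.1, m.2⟩
  · by_cases k : ∃ i, A i y
    · obtain ⟨i, m⟩ := k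
      rw [one _ y i m]
      linarith [(hd i).cut_ge y.1]
    · rw [Finset.sum_eq_zero fun i _ => if_neg fun m => k ⟨i, m⟩]
      norm_num
  · obtain ⟨i, m, m'⟩ : ∃ i, A i y ∧ (y.1 = (F i).c ∨ (F i).dep y.1 < α i) := by
      by_cases k : ∀ c ∈ Sig, 2 * r2 ≤ ‖y.1 - c‖
      · obtain ⟨j, m⟩ : ∃ j, y ∈ (e j).gr ((e j).nearO (h / 8) (2 * r2)) := by
          by_contra k'
          exact hn ⟨hy, k, fun j m => k' ⟨j, m⟩⟩
        exact ⟨Sum.inl j, ⟨near_sub _ (by linarith) (by linarith) (nearO_sub _ _ _ m.1), m.2⟩,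
          d3 j _ m.1⟩
      · push Not at k
        obtain ⟨c, hc, k⟩ := k
        exact ⟨Sum.inr ⟨c, hc⟩, (by linarith : ‖y.1 - c‖ < 2 * r1), punc_in h1 k⟩
    obtain ⟨k1, k2⟩ := (hd i).inner m'
    beta_reduce
    rw [one _ y i m, one _ y i m, k1, k2]
    norm_num
  · have gt : Tendsto (fun z => (z, g z)) (𝓝 y.1) (𝓝 y) := by
      have : ContinuousAt (fun z => (z, g z)) y.1 := continuousAt_id.prodMk ga.continuousAt
      have k := this.tendsto
      rwa [gy] at k
    have key : ∀ i, (A i y ∧ y.1 ≠ (F i).c ∧ ∀ᶠ z in 𝓝 y.1, A i (z, g z)) ∨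
        (¬ A i y ∧ ∀ᶠ z in 𝓝 y.1, A i (z, g z) → z ≠ (F i).c ∧ β i ≤ (F i).dep z) := fun i => by
      cases i with
      | inl j =>
        by_cases m : A (Sum.inl j) y
        · refine Or.inl ⟨m, d6 j _ m.1 fun k => hy.2.2 j ⟨k, m.2⟩, ?_⟩
          have k1 := hg.loc j _ (nearO_sub _ _ _ m.1)
          rw [← m.2] at k1
          filter_upwards [gt.eventually k1, gΩ, (nearO_open (hC.ok j) _ _).mem_nhds m.1]
            with z z1 z2 z3
          exact ⟨z3, (z1.1 z2.1).1⟩
        · refine Or.inr ⟨m, ?_⟩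
          have s1 : (e j).near h r1 ⊆ (e j).nearO (2 * h) (2 * r1) :=
            near_sub _ (by linarith) (by linarith)
          have k1 := gr_closed (near_closed (hC.ok j) h r1)
            ((hg.wan j).continuousOn.mono (s1.trans (nearO_sub _ _ _)))
          filter_upwards [gt.eventually (k1.isOpen_compl.mem_nhds fun k => m ⟨s1 k.1, k.2⟩), gΩ]
            with z z1 z2 z3
          refine d4 j z z3.1 (fun k => z1 ⟨k, z3.2⟩) ?_
          have k2 := (hg.loc j z (nearO_sub _ _ _ z3.1)).self_of_nhds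
          have k3 : g z = (e j).w z := z3.2
          rw [← k3] at k2
          exact (k2.1 z2.1).2
      | inr c =>
        have cn : ContinuousAt (fun z : ℂ => ‖z - c‖) y.1 := by fun_prop
        by_cases m : A (Sum.inr c) y
        · refine Or.inl ⟨m, fun k => ?_, cn.eventually (Iio_mem_nhds m)⟩
          have k1 := hy.2.1 c c.2
          have k2 : y.1 = c := k
          rw [k2, sub_self, norm_zero] at k1
          exact lt_asymm h2 k1
        · refine Or.inr ⟨m, ?_⟩
          have m1 : r1 < ‖y.1 - c‖ := by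
            have : ¬ ‖y.1 - c‖ < 2 * r1 := m
            linarith [not_lt.1 this]
          filter_upwards [cn.eventually (Ioi_mem_nhds m1)] with z z1 _
          exact (punc_out h1 z1).imp_right le_of_lt
    have k := (LP.const 1 y.1).add (LP.sum Finset.univ
      (f := fun i z => if A i (z, g z) then cut (F i) (Φ i) z + -1 else 0)
      (l := fun i => if A i y then wt (F i) (Φ i) (α i) (β i) y.1 else 0) fun i => by
        rcases key i with ⟨m1, m2, m3⟩ | ⟨m1, m2⟩
        · rw [if_pos m1]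
          exact ((hd i).lp hR m2).congr (m3.mono fun z hz => if_pos hz)
        · rw [if_neg m1]
          refine (LP.const 0 y.1).congr (m2.mono fun z hz => ?_)
          beta_reduce
          split_ifs with m
          · rw [cut, if_neg (hz m).1, (hd i).hi _ (hz m).2]
            norm_num
          · rfl)
    rw [zero_add] at k
    exact k
  · refine le_trans (le_of_eq ?_) (hle z)
    have hz := (hD z).1
    simp only [tr, finsum_mem_eq_finite_toFinset_sum _ hz, Finset.mul_sum, d2]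
    rw [Finset.sum_comm, Fintype.sum_sum_type]
    congr 1
    · refine Finset.sum_congr rfl fun j _ => ?_
      by_cases m : z ∈ (f j).ann (Icc (a j) (b j))
      · obtain ⟨m1, m2⟩ := d5 j z m
        have m3 : (z, (e j).w z) ∈ Γ :=
          (hg.loc j z (nearO_sub _ _ _ m1)).self_of_nhds.2 ⟨rfl, m2⟩
        rw [Finset.sum_eq_single ((e j).w z) (fun w _ k => ?_)
          (fun k => (k (hz.mem_toFinset.2 m3)).elim), if_pos ⟨m1, rfl⟩]
        · rfl
        · rw [if_neg fun k' => k k'.2, mul_zero]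
      · have m1 : wt (f j) (φ j) (a j) (b j) z = 0 := indicator_of_notMem m _
        rw [m1, mul_zero]
        refine Finset.sum_eq_zero fun w _ => ?_
        split_ifs
        · exact mul_eq_zero_of_right _ m1
        · exact mul_zero _
    · rw [← Finset.sum_coe_sort Sig]
      refine Finset.sum_congr rfl fun c _ => ?_
      rw [Finset.sum_mul]
      refine Finset.sum_congr rfl fun w _ => ?_
      split_ifs with m
      · rfl
      · have m1 : r1 < ‖z - c‖ := by
          have : ¬ ‖z - c‖ < 2 * r1 := m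
          linarith [not_lt.1 this]
        rw [wt, indicator_of_notMem fun k => (punc_out h1 m1).2.not_ge k.2.2]

end Pool.Agent.CF
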