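import Pool.Agent.Lib.CF.Blue
import Pool.Agent.Lib.CF.Basic

open Set Metric Filter Topology

namespace Pool.Agent.CF

namespace GeoAux

theorem ev_lt {ε : ℝ} (hε : 0 < ε) (k : ℝ) : ∀ᶠ p : ℝ × ℝ in 𝓝 0, k * p.1 < ε ∧ k * p.2 < ε := by
  have h1 : ContinuousAt (fun p : ℝ × ℝ => k * p.1) 0 := by fun_prop
  have h2 : ContinuousAt (fun p : ℝ × ℝ => k * p.2) 0 := by fun_prop
  have a1 := h1.eventually (gt_mem_nhds (show (fun p : ℝ × ℝ => k * p.1) 0 < ε by simpa using hε))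
  have a2 := h2.eventually (gt_mem_nhds (show (fun p : ℝ × ℝ => k * p.2) 0 < ε by simpa using hε))
  exact a1.and a2

theorem ev_near {e : End} (h : e.ok) {Q : ℂ → Prop} (hQ : ∀ z ∈ e.circ, ∀ᶠ x in 𝓝 z, Q x) :
    ∀ᶠ p : ℝ × ℝ in 𝓝 0, ∀ z ∈ e.near (2 * p.2) (2 * p.1), Q z := by
  have hN : {x | Q x} ∈ 𝓝ˢ e.circ := mem_nhdsSet_iff_forall.2 hQ
  obtain ⟨δ, hδ, H⟩ := End.shrink h hN
  filter_upwards [ev_lt hδ 2] with p hp z hz using H _ _ hp.2.le hp.1.le hz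

theorem cont_graph {w : ℂ → ℂ} {z : ℂ} (hw : AnalyticAt ℂ w z) :
    ContinuousAt (fun x : ℂ => ((x, w x) : E)) z :=
  continuousAt_id.prodMk hw.continuousAt

end GeoAux

open GeoAux in
theorem st_geo : St_GEO := by
  intro ι _ P Γ e Sig H hbr hoff
  have h1 : ∀ᶠ p : ℝ × ℝ in 𝓝 0, ∀ b ∈ Sig, ∀ b' ∈ Sig, b ≠ b' → 4 * p.1 < ‖b - b'‖ := by
    refine (Finset.eventually_all Sig).2 fun b _ => (Finset.eventually_all Sig).2 fun b' _ => ?_
    by_cases hb : b = b'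
    · exact Eventually.of_forall fun _ a => absurd hb a
    · filter_upwards [ev_lt (norm_pos_iff.2 (sub_ne_zero.2 hb)) 4] with p hp _ using hp.1
  have h2 : ∀ᶠ p : ℝ × ℝ in 𝓝 0, ∀ j, ∀ z ∈ (e j).near (2 * p.2) (2 * p.1),
      AnalyticAt ℂ (e j).w z :=
    eventually_all.2 fun j => ev_near (H.ok j) fun z hz => (H.wan j z hz).eventually_analyticAt
  have h3 : ∀ᶠ p : ℝ × ℝ in 𝓝 0, ∀ j, ∀ z ∈ (e j).near (2 * p.2) (2 * p.1),
      P (z, (e j).w z) = 0 ∧ dw P (z, (e j).w z) ≠ 0 := by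
    refine eventually_all.2 fun j => ev_near (H.ok j) fun z hz => ?_
    have a := (mem_nhdsSet_iff_forall.1 (H.wz j)) z hz
    have c : ContinuousAt (fun x : ℂ => dw P (x, (e j).w x)) z :=
      (H.poly.dw.continuous.continuousAt).comp (cont_graph (H.wan j z hz))
    filter_upwards [a, c.eventually_ne (H.wreg j z hz)] with x a b using ⟨a, b⟩
  have h4 : ∀ᶠ p : ℝ × ℝ in 𝓝 0, ∀ j, ∀ z ∈ (e j).near (2 * p.2) (2 * p.1),
      ∀ᶠ y in 𝓝 ((z, (e j).w z) : E), (y ∈ Γ ↔ y.2 = (e j).w y.1 ∧ (e j).side y.1) :=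
    eventually_all.2 fun j => ev_near (H.ok j) fun z hz =>
      (cont_graph (H.wan j z hz)).eventually (H.loc j z hz).eventually_nhds
  have h5 : ∀ᶠ p : ℝ × ℝ in 𝓝 0, ∀ j, ∀ b ∈ Sig, ∀ z ∈ (e j).near (2 * p.2) (2 * p.1),
      2 * p.1 < ‖z - b‖ := by
    refine eventually_all.2 fun j => (Finset.eventually_all Sig).2 fun b hb => ?_
    have hc : ((e j).circ)ᶜ ∈ 𝓝 b :=
      (e j).isCompact_circ.isClosed.isOpen_compl.mem_nhds (hoff b hb j)
    obtain ⟨ε, hε, h⟩ := nhds_basis_closedBall.mem_iff.1 hc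
    have a : ∀ z ∈ (e j).circ, ∀ᶠ x in 𝓝 z, ε < ‖x - b‖ := by
      intro z hz
      have hz' : ε < ‖z - b‖ := by
        by_contra hn
        exact h (mem_closedBall_iff_norm.2 (not_lt.1 hn)) hz
      have c : ContinuousAt (fun x : ℂ => ‖x - b‖) z := by fun_prop
      exact c.eventually (lt_mem_nhds hz')
    filter_upwards [ev_near (H.ok j) a, ev_lt hε 2] with p hp hq z hz using hq.1.trans (hp z hz)
  have h6 : ∀ᶠ p : ℝ × ℝ in 𝓝 0, ∀ i j, i ≠ j →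
      Disjoint ((e i).gr ((e i).near (2 * p.2) (2 * p.1)))
        ((e j).gr ((e j).near (2 * p.2) (2 * p.1))) := by
    refine eventually_all.2 fun i => eventually_all.2 fun j => ?_
    by_cases hij : i = j
    · exact Eventually.of_forall fun _ a => absurd hij a
    obtain ⟨U, V, hU, hV, hiU, hjV, hUV⟩ :=
      SeparatedNhds.of_isCompact_isCompact (H.isCompact_end i) (H.isCompact_end j) (H.disj hij)
    have a : ∀ (k : ι) (W : Set E), IsOpen W → (e k).gr (e k).circ ⊆ W →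
        ∀ᶠ p : ℝ × ℝ in 𝓝 0, (e k).gr ((e k).near (2 * p.2) (2 * p.1)) ⊆ W := by
      intro k W hW hk
      have b : ∀ z ∈ (e k).circ, ∀ᶠ x in 𝓝 z, ((x, (e k).w x) : E) ∈ W := fun z hz =>
        (cont_graph (H.wan k z hz)).eventually (hW.mem_nhds (hk ⟨hz, rfl⟩))
      filter_upwards [ev_near (H.ok k) b] with p hp y hy
      have c := hp y.1 hy.1
      rwa [← hy.2] at c
    filter_upwards [a i U hU hiU, a j V hV hjV] with p hp hq _ using hUV.mono hp hq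
  obtain ⟨δ, hδ, h⟩ := Metric.eventually_nhds_iff.1
    (h1.and (h2.and (h3.and (h4.and (h5.and h6)))))
  refine ⟨δ, hδ, fun r1 hh a b c d => ?_⟩
  have hd : dist ((r1, hh) : ℝ × ℝ) 0 < δ := by
    rw [Prod.dist_eq]
    simp only [Prod.fst_zero, Prod.snd_zero, dist_zero_right, Real.norm_eq_abs]
    rw [abs_of_pos a, abs_of_pos c]
    exact max_lt b d
  obtain ⟨g1, g2, g3, g4, g5, g6⟩ := h hd
  exact ⟨a, c, hbr, g1, g2, g3, g4, fun j z hz b hb => g5 j b hb z hz, fun i j hij => g6 i j hij⟩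

end Pool.Agent.CF
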