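import Pool.Agent.Lib.CF.Blue

open Set Metric Filter Topology MeasureTheory

namespace Pool.Agent.CF

namespace Har

/-- a chart of `Γ` about `y` inside `Ω` -/
structure Chart (Γ Ω : Set E) (y : E) (g : ℂ → ℂ) (r : ℝ) : Prop where
  pos : 0 < r
  an : AnalyticOnNhd ℂ g (ball y.1 (4 * r))
  mem : ∀ z ∈ ball y.1 (4 * r), (z, g z) ∈ Ω
  gr : ∀ x ∈ ball y r, x ∈ Γ → x.2 = g x.1

theorem exists_chart {Γ Ω : Set E} (h : Graphs Γ Ω) {y : E} (hy : y ∈ Ω) :
    ∃ g r, Chart Γ Ω y g r := by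
  obtain ⟨g, h1, -, h3, h4⟩ := h y hy
  obtain ⟨a, ha, h5⟩ := Metric.eventually_nhds_iff_ball.1 (h1.eventually_analyticAt.and h3)
  obtain ⟨b, hb, h6⟩ := Metric.eventually_nhds_iff_ball.1 h4
  have e1 : 4 * min (a / 4) b ≤ a := by have := min_le_left (a / 4) b; linarith
  exact ⟨g, min (a / 4) b, by positivity, fun z hz => (h5 z (ball_subset_ball e1 hz)).1,
    fun z hz => (h5 z (ball_subset_ball e1 hz)).2,
    fun x hx => h6 x (ball_subset_ball (min_le_right _ _) hx)⟩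

theorem Chart.mono {Γ Ω Ω' : Set E} {y : E} {g : ℂ → ℂ} {r : ℝ} (h : Chart Γ Ω y g r)
    (hs : Ω ⊆ Ω') : Chart Γ Ω' y g r :=
  ⟨h.pos, h.an, fun z hz => hs (h.mem z hz), h.gr⟩

theorem smc_mono {u : E → ℝ} {Ω Ω' : Set E} (h : SMc u Ω') (hs : Ω ⊆ Ω') : SMc u Ω :=
  ⟨let ⟨B, hB⟩ := h.bdd; ⟨B, fun y hy => hB y (hs hy)⟩,
    fun U g h1 h2 h3 => h.sm U g h1 h2 fun z hz => hs (h3 z hz)⟩

theorem fst_mem {x y : E} {r : ℝ} (h : x ∈ ball y r) : x.1 ∈ ball y.1 r := by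
  rw [mem_ball, Prod.dist_eq] at h
  exact (le_max_left _ _).trans_lt h

theorem vol_real (c : ℂ) {r : ℝ} (hr : 0 ≤ r) :
    (volume : Measure ℂ).real (closedBall c r) = Real.pi * r ^ 2 := by
  rw [Measure.real, Complex.volume_closedBall]
  simp [ENNReal.toReal_ofReal hr, mul_comm]

theorem Chart.area (hA : St_AREA) {Γ Ω : Set E} {y : E} {g : ℂ → ℂ} {r : ℝ}
    (h : Chart Γ Ω y g r) {u : E → ℝ} {C : ℝ} (hu : SMc u Ω) (hC : ∀ x ∈ Ω, u x ≤ C) :
    IntegrableOn (fun z => C - u (z, g z)) (closedBall y.1 r) ∧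
      ∀ x ∈ ball y r, x ∈ Γ →
        ∫ z in closedBall y.1 r, (C - u (z, g z)) ≤ Real.pi * (2 * r) ^ 2 * (C - u x) := by
  have hr := h.pos
  have hsm := hu.sm _ g isOpen_ball h.an h.mem
  have hc : ∀ (c : ℂ) (s : ℝ), IntegrableOn (fun _ : ℂ => C) (closedBall c s) := fun c s =>
    integrableOn_const (isCompact_closedBall c s).measure_lt_top.ne
  refine ⟨(hc _ _).sub (hA _ _ y.1 r isOpen_ball hsm hr
    (closedBall_subset_ball (by linarith))).1, fun x hx hxΓ => ?_⟩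
  have h1 := fst_mem hx
  rw [mem_ball] at h1
  have h2 : closedBall x.1 (2 * r) ⊆ ball y.1 (4 * r) := fun z hz => by
    rw [mem_closedBall] at hz
    rw [mem_ball]
    have := dist_triangle z x.1 y.1
    linarith
  have h3 : closedBall y.1 r ⊆ closedBall x.1 (2 * r) := fun z hz => by
    rw [mem_closedBall] at hz ⊢
    have := dist_triangle z y.1 x.1
    rw [dist_comm y.1] at this
    linarith
  obtain ⟨h4, h5⟩ := hA _ _ x.1 (2 * r) isOpen_ball hsm (by linarith) h2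
  have e : (x.1, g x.1) = x := by rw [← h.gr x hx hxΓ]
  simp only [e] at h5
  calc ∫ z in closedBall y.1 r, (C - u (z, g z))
      ≤ ∫ z in closedBall x.1 (2 * r), (C - u (z, g z)) := by
        refine setIntegral_mono_set ((hc _ _).sub h4) ?_ h3.eventuallyLE
        filter_upwards [ae_restrict_mem measurableSet_closedBall] with z hz
        exact sub_nonneg.2 (hC _ (h.mem z (h2 hz)))
    _ = Real.pi * (2 * r) ^ 2 * C - ∫ z in closedBall x.1 (2 * r), u (z, g z) := by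
        rw [integral_sub (hc _ _) h4, setIntegral_const, vol_real _ (by linarith), smul_eq_mul]
    _ ≤ _ := by linarith

/-- smallness of `C - u` passes from a point in `A` to a point in `B` -/
def Step (Γ Ω A B : Set E) : Prop :=
  ∃ Λ : ℝ, 0 ≤ Λ ∧ ∀ (u : E → ℝ) (C : ℝ), SMc u Ω → (∀ x ∈ Ω, u x ≤ C) →
    ∀ x ∈ A, x ∈ Γ → ∃ x' ∈ B, x' ∈ Γ ∧ C - u x' ≤ Λ * (C - u x)

theorem Step.mono {Γ Ω Ω' A A' B : Set E} (h : Step Γ Ω A B) (hs : Ω ⊆ Ω') (hA : A' ⊆ A) :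
    Step Γ Ω' A' B :=
  let ⟨Λ, h0, h1⟩ := h
  ⟨Λ, h0, fun u C hu hC x hx => h1 u C (smc_mono hu hs) (fun y hy => hC y (hs hy)) x (hA hx)⟩

theorem Step.trans {Γ Ω A B D : Set E} (h : Step Γ Ω A B) (h' : Step Γ Ω B D) :
    Step Γ Ω A D := by
  obtain ⟨Λ, h0, h1⟩ := h
  obtain ⟨Λ', h0', h1'⟩ := h'
  refine ⟨Λ' * Λ, mul_nonneg h0' h0, fun u C hu hC x hx hxΓ => ?_⟩
  obtain ⟨x', h2, h3, h4⟩ := h1 u C hu hC x hx hxΓ
  obtain ⟨x'', h5, h6, h7⟩ := h1' u C hu hC x' h2 h3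
  exact ⟨x'', h5, h6, h7.trans (by rw [mul_assoc]; exact mul_le_mul_of_nonneg_left h4 h0')⟩

theorem Chart.step (hA : St_AREA) {Γ Ω : Set E} (hΩ : Ω ⊆ Γ) {y : E} {g : ℂ → ℂ} {r : ℝ}
    (h : Chart Γ Ω y g r) {b : E} (hb : b ∈ ball y r) (hbΓ : b ∈ Γ) {ε : ℝ} (hε : 0 < ε) :
    Step Γ Ω (ball y r) (ball b ε) := by
  have hr := h.pos
  have hs : ball y.1 r ⊆ ball y.1 (4 * r) := ball_subset_ball (by linarith)
  have h1 := fst_mem hb
  have e : (b.1, g b.1) = b := by rw [← h.gr b hb hbΓ]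
  have hc : ContinuousAt (fun z => ((z, g z) : E)) b.1 :=
    continuousAt_id.prodMk (h.an _ (hs h1)).continuousAt
  have h2 : ∀ᶠ z in 𝓝 b.1, ((z, g z) : E) ∈ ball b ε :=
    hc.eventually_mem (by rw [e]; exact ball_mem_nhds b hε)
  obtain ⟨δ, hδ, h3⟩ := Metric.nhds_basis_closedBall.eventually_iff.1
    (h2.and (isOpen_ball.mem_nhds h1))
  have h4 : closedBall b.1 δ ⊆ closedBall y.1 r := fun z hz => ball_subset_closedBall (h3 hz).2
  refine ⟨(Real.pi * δ ^ 2)⁻¹ * (Real.pi * (2 * r) ^ 2), by positivity,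
    fun u C hu hC x hx hxΓ => ?_⟩
  obtain ⟨h5, h6⟩ := h.area hA hu hC
  obtain ⟨z, hz, h7⟩ := exists_le_setAverage (measure_closedBall_pos volume b.1 hδ).ne'
    (isCompact_closedBall b.1 δ).measure_lt_top.ne (h5.mono_set h4)
  refine ⟨(z, g z), (h3 hz).1, hΩ (h.mem z (hs (h3 hz).2)), h7.trans ?_⟩
  rw [setAverage_eq, vol_real _ hδ.le, smul_eq_mul, mul_assoc]
  refine mul_le_mul_of_nonneg_left (le_trans ?_ (h6 x hx hxΓ)) (by positivity)
  refine setIntegral_mono_set h5 ?_ h4.eventuallyLE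
  filter_upwards [ae_restrict_mem measurableSet_closedBall] with z hz
  exact sub_nonneg.2 (hC _ (h.mem z (closedBall_subset_ball (by linarith) hz)))

/-- the chain relation -/
def Rel (Γ : Set E) (Ω : ℕ → Set E) (a b : E) : Prop :=
  ∃ ε > 0, ∃ n, ∀ ε' > 0, Step Γ (Ω n) (ball a ε) (ball b ε')

theorem rel (hA : St_AREA) {Γ : Set E} {Ω : ℕ → Set E} (hm : Monotone Ω)
    (hG : ∀ n, Ω n ⊆ Γ ∧ Graphs Γ (Ω n)) (hc : IsPreconnected (⋃ n, Ω n)) {a b : E}
    (ha : a ∈ ⋃ n, Ω n) (hb : b ∈ ⋃ n, Ω n) : Rel Γ Ω a b := by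
  have hU : (⋃ n, Ω n) ⊆ Γ := iUnion_subset fun n => (hG n).1
  refine hc.induction₂' (Rel Γ Ω) (fun y hy => ?_) ?_ ha hb
  · obtain ⟨n, hn⟩ := mem_iUnion.1 hy
    obtain ⟨g, r, h⟩ := exists_chart (hG n).2 hn
    filter_upwards [self_mem_nhdsWithin, mem_nhdsWithin_of_mem_nhds (ball_mem_nhds y h.pos)]
      with x hx hx'
    refine ⟨⟨r, h.pos, n, fun ε hε => h.step hA (hG n).1 hx' (hU hx) hε⟩, ?_⟩
    obtain ⟨δ, hδ, h1⟩ := Metric.isOpen_iff.1 isOpen_ball x hx'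
    exact ⟨δ, hδ, n, fun ε hε =>
      (h.step hA (hG n).1 (mem_ball_self h.pos) (hU hy) hε).mono Subset.rfl h1⟩
  · intro x y z _ _ _ h1 h2
    obtain ⟨ε, hε, n, h1⟩ := h1
    obtain ⟨ε', hε', n', h2⟩ := h2
    exact ⟨ε, hε, max n n', fun δ hδ => ((h1 ε' hε').mono (hm (le_max_left _ _)) Subset.rfl).trans
      ((h2 δ hδ).mono (hm (le_max_right _ _)) Subset.rfl)⟩

end Har

open Har in
theorem st_har (hA : St_AREA) : St_HAR := by
  classical
  intro Γ K Ω hm hG hc hK hKU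
  have hU : (⋃ n, Ω n) ⊆ Γ := iUnion_subset fun n => (hG n).1
  have h1 : ∀ y ∈ K, ∃ n g r, Chart Γ (Ω n) y g r := fun y hy =>
    let ⟨n, hn⟩ := mem_iUnion.1 (hKU hy)
    ⟨n, exists_chart (hG n).2 hn⟩
  choose! m g r hch using h1
  obtain ⟨s, hs, hcov⟩ := hK.elim_nhds_subcover (fun y => ball y (r y))
    fun y hy => ball_mem_nhds y (hch y hy).pos
  have h2 : ∀ a ∈ K, ∀ b ∈ K, ∃ n, m b ≤ n ∧ Step Γ (Ω n) (ball a (r a)) (ball b (r b)) := by
    intro a ha b hb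
    obtain ⟨ε, hε, n, h⟩ := rel hA hm hG hc (hKU ha) (hKU hb)
    refine ⟨max (m b) (max (m a) n), le_max_left _ _, ?_⟩
    exact ((((hch a ha).step hA (hG _).1 (mem_ball_self (hch a ha).pos) (hU (hKU ha)) hε).mono
      (hm (le_max_left _ _)) Subset.rfl).trans
      ((h _ (hch b hb).pos).mono (hm (le_max_right _ _)) Subset.rfl)).mono
      (hm (le_max_right _ _)) Subset.rfl
  choose! N hN hst using h2
  set n := s.sup fun a => s.sup fun b => N a b with hn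
  have hle : ∀ a ∈ s, ∀ b ∈ s, N a b ≤ n := fun a ha b hb =>
    (Finset.le_sup (f := fun b => N a b) hb).trans
      (Finset.le_sup (f := fun a => s.sup fun b => N a b) ha)
  have h3 : ∀ a ∈ s, ∀ b ∈ s, Step Γ (Ω n) (ball a (r a)) (ball b (r b)) := fun a ha b hb =>
    (hst a (hs a ha) b (hs b hb)).mono (hm (hle a ha b hb)) Subset.rfl
  have h4 : ∀ b ∈ s, Chart Γ (Ω n) b (g b) (r b) := fun b hb =>
    (hch b (hs b hb)).mono (hm ((hN b (hs b hb) b (hs b hb)).trans (hle b hb b hb)))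
  unfold Step at h3
  choose! Λ hΛ0 hΛ using h3
  have hS : ∀ a ∈ s, 0 ≤ ∑ b ∈ s, Real.pi * (2 * r b) ^ 2 * Λ a b := fun a ha =>
    Finset.sum_nonneg fun b hb => mul_nonneg (by positivity) (hΛ0 a ha b hb)
  refine ⟨n, 1 + ∑ a ∈ s, ∑ b ∈ s, Real.pi * (2 * r b) ^ 2 * Λ a b,
    add_pos_of_pos_of_nonneg one_pos (Finset.sum_nonneg hS), fun u C hC hu huC hy => ?_⟩
  obtain ⟨y, hy, hy0⟩ := hy
  obtain ⟨a, ha, hya⟩ := mem_iUnion₂.1 (hcov hy)
  have hint : ∀ b ∈ s, Integrable ((closedBall b.1 (r b)).indicator fun z => C - u (z, g b z)) :=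
    fun b hb => (integrable_indicator_iff measurableSet_closedBall).2 ((h4 b hb).area hA hu huC).1
  have hpos : ∀ b ∈ s, ∀ z, 0 ≤ (closedBall b.1 (r b)).indicator (fun z => C - u (z, g b z)) z :=
    fun b hb z => indicator_nonneg (fun z hz => sub_nonneg.2 (huC _ ((h4 b hb).mem z
      (closedBall_subset_ball (by linarith [(h4 b hb).pos]) hz)))) z
  refine ⟨fun z => ∑ b ∈ s, (closedBall b.1 (r b)).indicator (fun z => C - u (z, g b z)) z,
    integrable_finsetSum s hint, fun z => Finset.sum_nonneg fun b hb => hpos b hb z, ?_,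
    fun z T hT => ?_⟩
  · rw [integral_finsetSum s hint]
    calc ∑ b ∈ s, ∫ z, (closedBall b.1 (r b)).indicator (fun z => C - u (z, g b z)) z
        ≤ ∑ b ∈ s, Real.pi * (2 * r b) ^ 2 * Λ a b * C := by
          refine Finset.sum_le_sum fun b hb => ?_
          rw [integral_indicator measurableSet_closedBall]
          obtain ⟨x, h5, h6, h7⟩ := hΛ a ha b hb u C hu huC y hya (hU (hKU hy))
          refine (((h4 b hb).area hA hu huC).2 x h5 h6).trans ?_
          rw [mul_assoc (Real.pi * (2 * r b) ^ 2)]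
          refine mul_le_mul_of_nonneg_left (h7.trans ?_) (by positivity)
          exact mul_le_mul_of_nonneg_left (by linarith) (hΛ0 a ha b hb)
      _ ≤ _ := by
          rw [← Finset.sum_mul]
          refine mul_le_mul_of_nonneg_right ?_ hC.le
          have := Finset.single_le_sum hS ha
          linarith
  · have h5 : ∀ w ∈ T, ∃ b ∈ s, ((z, w) : E) ∈ ball b (r b) := fun w hw => by
      obtain ⟨b, hb, h⟩ := mem_iUnion₂.1 (hcov (hT w hw))
      exact ⟨b, hb, h⟩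
    choose! j hj hj' using h5
    have h6 : ∀ w ∈ T, w = g (j w) z := fun w hw =>
      (h4 _ (hj w hw)).gr _ (hj' w hw) (hU (hKU (hT w hw)))
    have h7 : InjOn j T := fun w hw w' hw' e => by rw [h6 w hw, h6 w' hw', e]
    calc ∑ w ∈ T, (C - u (z, w))
        = ∑ w ∈ T, (closedBall (j w).1 (r (j w))).indicator
            (fun z => C - u (z, g (j w) z)) z := by
          refine Finset.sum_congr rfl fun w hw => ?_
          rw [indicator_of_mem (ball_subset_closedBall (fst_mem (hj' w hw))), ← h6 w hw]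
      _ = ∑ b ∈ T.image j, (closedBall b.1 (r b)).indicator (fun z => C - u (z, g b z)) z :=
          (Finset.sum_image (f := fun b : E =>
            (closedBall b.1 (r b)).indicator (fun z => C - u (z, g b z)) z) h7).symm
      _ ≤ _ := Finset.sum_le_sum_of_subset_of_nonneg (Finset.image_subset_iff.2 hj)
          fun b hb _ => hpos b hb z

end Pool.Agent.CF
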