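import Pool.Agent.Lib.CF.B_POL

open Set Metric Filter Topology MeasureTheory

namespace Pool.Agent.CF

namespace LOW

theorem circInt {v : ℂ → ℝ} {U : Set ℂ} (h : SM v U) {c : ℂ} {ρ : ℝ} (hρ : 0 < ρ)
    (hU : sphere c ρ ⊆ U) : CircleIntegrable v c ρ := by
  obtain ⟨B, hB⟩ := h.bdd
  have hm : ∀ θ, circleMap c ρ θ ∈ U := fun θ => hU (circleMap_mem_sphere c hρ.le θ)
  have h1 : Measurable (v ∘ circleMap c ρ) := (upperSemicontinuousOn_univ_iff.1
    (h.usc.comp (continuous_circleMap c ρ).continuousOn fun θ _ => hm θ)).measurable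
  exact (intervalIntegrable_const (c := B)).mono_fun' h1.aestronglyMeasurable
    (Eventually.of_forall fun θ => hB _ (hm θ))

theorem conv (hT : St_TC) {e : End} (hr : 0 < e.r) {v : ℂ → ℝ} {a b s s1 s2 : ℝ}
    (h : SM v (e.ann (Ioo a b))) (h0 : a < s) (h1 : s < s1) (h2 : s1 < s2) (h3 : s2 < b) :
    (s2 - s) * Real.circleAverage v e.c (e.rad s1) ≤
      (s2 - s1) * Real.circleAverage v e.c (e.rad s) +
        (s1 - s) * Real.circleAverage v e.c (e.rad s2) := by
  have hlt : ∀ s t, e.rad s < e.rad t ↔ e.sgn * s < e.sgn * t := fun s t => by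
    rw [End.rad, End.rad, mul_lt_mul_iff_right₀ hr, Real.exp_lt_exp]
  have hle : ∀ s t, e.rad s ≤ e.rad t ↔ e.sgn * s ≤ e.sgn * t := fun s t => by
    rw [End.rad, End.rad, mul_le_mul_iff_right₀ hr, Real.exp_le_exp]
  have hl : ∀ s t, Real.log (e.rad s / e.rad t) = e.sgn * (s - t) := fun s t => by
    rw [Real.log_div (End.rad_pos hr _).ne' (End.rad_pos hr _).ne', End.log_rad hr, End.log_rad hr]
    ring
  have hs : e.ann (Icc s s2) ⊆ e.ann (Ioo a b) := End.ann_mono (Icc_subset_Ioo h0 h3)
  rcases e.sgn_cases with ⟨-, k⟩ | ⟨-, k⟩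
  · rw [POL.ann_eq hr (p := s2) (q := s) fun t => by simp [hle, k, and_comm]] at hs
    have := hT v _ e.c _ (e.rad s1) _ (End.isOpen_ann hr isOpen_Ioo) h (End.rad_pos hr s2)
      ((hlt _ _).2 (by simpa [k] using h2)) ((hlt _ _).2 (by simpa [k] using h1)) hs
    simp only [hl, k] at this
    push_cast at this
    linarith
  · rw [POL.ann_eq hr (p := s) (q := s2) fun t => by simp [hle, k]] at hs
    have := hT v _ e.c _ (e.rad s1) _ (End.isOpen_ann hr isOpen_Ioo) h (End.rad_pos hr s)
      ((hlt _ _).2 (by simpa [k] using h1)) ((hlt _ _).2 (by simpa [k] using h2)) hs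
    simp only [hl, k] at this
    push_cast at this
    linarith

end LOW

open LOW in
theorem st_low (hT : St_TC) (hP : St_POL) : St_LOW := by
  intro e h hk hr hh
  set m := e.r * Real.exp (-h) with hm
  have hm0 : 0 < m := by positivity
  refine ⟨8 / (Real.pi * h * m ^ 2), by positivity, fun v G C Λ hv hC hG hG0 hvG hΛ s hs => ?_⟩
  have hci : ∀ t ∈ Ioo (h / 16) (2 * h), CircleIntegrable v e.c (e.rad t) := fun t ht =>
    circInt hv (End.rad_pos hr t) (End.sphere_subset_ann hr ht)
  have hM : ∀ t ∈ Ioo (h / 16) (2 * h), Real.circleAverage v e.c (e.rad t) ≤ C := fun t ht =>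
    Real.circleAverage_mono_on_of_le_circle (hci t ht) fun z hz =>
      hC z (End.sphere_subset_ann hr ht (by rwa [abs_of_pos (End.rad_pos hr t)] at hz))
  have hsub : Icc (7 * h / 8) h ⊆ Ioo (h / 16) (2 * h) := Icc_subset_Ioo (by linarith) (by linarith)
  have hA := End.isCompact_ann hr (isCompact_Icc (a := 7 * h / 8) (b := h))
  have hF : IntegrableOn (fun z => C - v z) (e.ann (Icc (7 * h / 8) h)) :=
    (integrableOn_const hA.measure_lt_top.ne).sub
      (hv.integrableOn (End.ann_mono hsub) hA.measurableSet hA.isBounded)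
  obtain ⟨p1, p2, p3⟩ := hP e _ (fun _ => 1) _ _ hk hr (by linarith) continuous_const hF
  have q1 : ∫ _ in (7 * h / 8)..h, (C - Real.circleAverage v e.c (e.rad s)) / 2 ≤
      ∫ t in (7 * h / 8)..h, 1 * Real.circleAverage (fun z => C - v z) e.c (e.rad t) := by
    refine intervalIntegral.integral_mono_on (by linarith) intervalIntegrable_const p2 fun t ht => ?_
    rw [one_mul, Real.circleAverage_fun_sub (circleIntegrable_const _ _ _) (hci t (hsub ht)),
      Real.circleAverage_const]
    have c1 := conv hT hr hv (s := s) (s1 := t) (s2 := 3 * h / 2) (by linarith [hs.1])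
      (by linarith [hs.2, ht.1]) (by linarith [ht.2]) (by linarith)
    have c2 := mul_le_mul_of_nonneg_left (hM (3 * h / 2) ⟨by linarith, by linarith⟩)
      (show 0 ≤ t - s by linarith [hs.2, ht.1])
    have c3 := mul_nonneg (sub_nonneg.2 (hM s ⟨by linarith [hs.1], by linarith [hs.2]⟩))
      (show 0 ≤ h - t by linarith [ht.2])
    have c4 := mul_nonneg (sub_nonneg.2 (hM t (hsub ht)))
      (show 0 ≤ s - h / 2 by linarith [hs.1])
    refine le_of_mul_le_mul_left ?_ hh
    nlinarith
  have q2 : ∫ z in e.ann (Icc (7 * h / 8) h), (C - v z) * (1 / ‖z - e.c‖ ^ 2) ≤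
      ∫ z in e.ann (Icc (7 * h / 8) h), G z * (1 / m ^ 2) := by
    refine setIntegral_mono_on p1 (hG.integrableOn.mul_const _) hA.measurableSet fun z hz => ?_
    have : m ≤ ‖z - e.c‖ := by
      rw [End.norm_eq_rad hr hz.1, End.rad, hm]
      have a1 := neg_abs_le (e.sgn * e.dep z)
      rw [abs_mul, e.abs_sgn, one_mul, abs_of_pos (by linarith [hz.2.1])] at a1
      gcongr
      linarith [hz.2.2]
    have := hG0 z
    gcongr
    exact hvG z hz
  have q3 : ∫ z in e.ann (Icc (7 * h / 8) h), G z ≤ Λ :=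
    (setIntegral_le_integral hG (Eventually.of_forall hG0)).trans hΛ
  rw [integral_mul_const, p3] at q2
  rw [intervalIntegral.integral_const, smul_eq_mul] at q1
  have q4 := (mul_le_mul_of_nonneg_left q1 Real.two_pi_pos.le).trans
    (q2.trans (mul_le_mul_of_nonneg_right q3 (by positivity)))
  rw [mul_one_div, le_div_iff₀ (by positivity)] at q4
  rw [div_mul_eq_mul_div, le_div_iff₀ (by positivity)]
  linarith

end Pool.Agent.CF
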