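import Pool.Agent.Lib.CF.Blue
import Pool.Agent.Lib.CF.Basic

open Set Metric Filter Topology

namespace Pool.Agent.CF

namespace Maxc

/-- a set containing an injective analytic disc through `y` has no peak at `y` -/
theorem noPeak_of_disc {X : Set E} {y : E} {γ : ℂ → E} {t : ℂ} (hγ : AnalyticAt ℂ γ t)
    (h0 : γ t = y) (hX : ∀ᶠ s in 𝓝 t, γ s ∈ X) (hi : ∀ s, γ s = y → s = t) :
    HULL.NoPeak X y := by
  intro G hG hp
  subst h0
  have h1 : AnalyticAt ℂ (fun s => Complex.exp (G (γ s))) t := (hG.comp hγ).cexp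
  have h2 : ∀ᶠ s in 𝓝 t, s ≠ t → (G (γ s)).re < (G (γ t)).re := by
    filter_upwards [hγ.continuousAt.eventually hp, hX] with s a b c using a b fun d => c (hi s d)
  have h3 : IsLocalMax (norm ∘ fun s => Complex.exp (G (γ s))) t := by
    filter_upwards [h2] with s a
    by_cases c : s = t
    · rw [c]
    · simp only [Function.comp_apply, Complex.norm_exp]
      exact Real.exp_le_exp.2 (a c).le
  have h4 := Complex.eventually_eq_of_isLocalMax_norm
    (h1.eventually_analyticAt.mono fun s a => a.differentiableAt) h3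
  have h5 : ∀ᶠ s in 𝓝[≠] t, False := by
    filter_upwards [mem_nhdsWithin_of_mem_nhds h2, mem_nhdsWithin_of_mem_nhds h4,
      self_mem_nhdsWithin] with s a b c
    have h6 := congrArg norm b
    rw [Complex.norm_exp, Complex.norm_exp] at h6
    exact (a c).ne (Real.exp_injective h6)
  exact h5.exists.elim fun _ a => a

theorem noPeak {ι : Type} {P : E → ℂ} {Γ : Set E} {e : ι → End} (h : IsCurve P Γ e) {y : E}
    (hy : y ∈ Γ) (hl : y ∉ loops e) : HULL.NoPeak Γ y := by
  rcases h.grad y hy with hz | hw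
  · obtain ⟨g, h1, h2, h3, -⟩ := h.chart_swap hy hl hz
    exact noPeak_of_disc (γ := fun s => (g s, s)) (h1.prod analyticAt_id) (Prod.ext h2 rfl) h3
      fun s a => congrArg Prod.snd a
  · obtain ⟨g, h1, h2, h3, -⟩ := h.chart hy hl hw
    exact noPeak_of_disc (γ := fun s => (s, g s)) (analyticAt_id.prod h1) (Prod.ext rfl h2) h3
      fun s a => congrArg Prod.fst a

end Maxc

theorem st_maxc : St_MAXC := by
  intro ι _ P Γ e h x hx
  refine mem_hull_iff.2 fun F hF M hM => ?_
  refine HULL.maxabs HULL.c2 h.cpt (ψ := fun y => ‖F y‖) hF.continuous.norm.continuousOn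
    (fun y hy hb => ⟨Maxc.noPeak h hy fun a => absurd (hM y a) (not_le.2 hb), F,
      hF.analyticAt y, Eventually.of_forall fun _ _ => rfl⟩) x hx

theorem st_znear : St_ZNEAR := by
  intro ι _ P Γ e h a ha
  have key : ∀ y ∈ Γ, ∀ᶠ x in 𝓝 y, P x = 0 →
      x ∈ Γ ∨ ∃ j, (e j).k ≠ Kind.pt ∧ x ∈ (e j).gr ((e j).ann (Ioo (-a) 0)) := by
    intro y hy
    by_cases hl : y ∈ loops e
    · obtain ⟨j, hk, h1, h2⟩ := hl
      have hr := (h.ok j).pos hk
      obtain ⟨z, w⟩ := y
      obtain rfl : w = (e j).w z := h2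
      obtain ⟨h3, h4⟩ := (End.mem_circ hr).1 h1
      have h5 := ift_unique (h.poly.analyticAt _) (h.wan j z h1).continuousAt
        ((h.wz j).filter_mono (nhds_le_nhdsSet h1)) (h.wreg j z h1)
      have h6 : ∀ᶠ s in 𝓝 z, s ≠ (e j).c ∧ -a < (e j).dep s :=
        (eventually_ne_nhds h3).and
          ((End.continuousAt_dep hr h3).eventually (lt_mem_nhds (by rw [h4]; linarith)))
      filter_upwards [h5, h.loc j z h1,
        (continuous_fst.tendsto ((z, (e j).w z) : E)).eventually h6] with x b c d f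
      by_cases hs : (e j).side x.1
      · exact Or.inl (c.2 ⟨b.1 f, hs⟩)
      · exact Or.inr ⟨j, hk, ⟨d.1, d.2, not_le.1 fun g => hs ((End.side_iff hk hr d.1).2 g)⟩, b.1 f⟩
    · exact (h.int y hy hl).mono fun x b c => Or.inl (b c)
  obtain ⟨R, hR, h1⟩ := h.cpt.exists_thickening_subset_open isOpen_interior
    fun y hy => mem_interior_iff_mem_nhds.2 (key y hy)
  exact ⟨R, hR, fun x hx => interior_subset (h1 hx)⟩

end Pool.Agent.CF
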