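import Pool.Agent.Lib.CF.Blue
import Pool.Agent.Lib.CF.Basic

open Set Metric Filter Topology MeasureTheory

namespace Pool.Agent.CF

namespace MOVE

theorem pre_ring (c : ℂ) {I : Set ℝ} (hI : IsPreconnected I) (h0 : ∀ r ∈ I, 0 ≤ r) :
    IsPreconnected {z : ℂ | ‖z - c‖ ∈ I} := by
  have e : {z : ℂ | ‖z - c‖ ∈ I} = (fun p : ℝ × ℝ => circleMap c p.1 p.2) '' (I ×ˢ univ) := by
    ext z
    refine ⟨fun hz => ⟨(‖z - c‖, Complex.arg (z - c)), ⟨hz, mem_univ _⟩, ?_⟩, ?_⟩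
    · simp only [circleMap]
      rw [Complex.norm_mul_exp_arg_mul_I]; ring
    · rintro ⟨p, hp, rfl⟩
      have := circleMap_mem_sphere c (h0 _ hp.1) p.2
      rw [mem_sphere_iff_norm] at this
      show ‖circleMap c p.1 p.2 - c‖ ∈ I
      rw [this]; exact hp.1
  rw [e]
  refine (hI.prod isPreconnected_univ).image _ (Continuous.continuousOn ?_)
  unfold circleMap; fun_prop

theorem side_ev (e : End) {z : ℂ} (hs : e.side z) (hc : e.k ≠ Kind.pt → z ∉ e.circ) :
    ∀ᶠ x in 𝓝 z, e.side x := by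
  have hn : Continuous fun x : ℂ => ‖x - e.c‖ := by fun_prop
  cases hk : e.k
  · have h1 : ‖z - e.c‖ < e.r := lt_of_le_of_ne (hs.1 hk) fun h =>
      hc (by simp [hk]) (mem_sphere_iff_norm.2 h)
    filter_upwards [hn.continuousAt.eventually (gt_mem_nhds h1)] with x hx
    exact ⟨fun _ => hx.le, fun h => by simp [hk] at h⟩
  · have h1 : e.r < ‖z - e.c‖ := lt_of_le_of_ne (hs.2 hk) fun h =>
      hc (by simp [hk]) (mem_sphere_iff_norm.2 h.symm)
    filter_upwards [hn.continuousAt.eventually (lt_mem_nhds h1)] with x hx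
    exact ⟨fun h => by simp [hk] at h, fun _ => hx.le⟩
  · exact Eventually.of_forall fun x => End.side_pt hk x

/-- What is needed about the new end. -/
structure Adj (e e' : End) (a ρ a' ρ' : ℝ) : Prop where
  w : e'.w = e.w
  ok : e'.ok
  circ : e'.circ ⊆ e.near a ρ
  side : ∀ z ∈ e.near a' ρ', z ∉ e.near a ρ → (e'.side z ↔ e.side z)
  preA : IsPreconnected {z | z ∈ e.near a' ρ' ∧ e'.side z ∧ (e'.k ≠ Kind.pt → z ∉ e'.circ)}
  preB : IsPreconnected {z | z ∈ e.nearO a' ρ' ∧ e.side z ∧ z ∉ e.near a ρ}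
  neB : {z | z ∈ e.nearO a' ρ' ∧ e.side z ∧ z ∉ e.near a ρ}.Nonempty

theorem adj_pt {e : End} (hk : e.k = Kind.pt) {a ρ a' ρ' : ℝ} (h0 : 0 < ρ) (h1 : ρ < ρ') :
    IsPreconnected {z | z ∈ e.nearO a' ρ' ∧ e.side z ∧ z ∉ e.near a ρ} ∧
    {z | z ∈ e.nearO a' ρ' ∧ e.side z ∧ z ∉ e.near a ρ}.Nonempty := by
  have e1 : {z | z ∈ e.nearO a' ρ' ∧ e.side z ∧ z ∉ e.near a ρ} = {z | ‖z - e.c‖ ∈ Ioo ρ ρ'} := by
    ext z
    simp [End.near_pt hk, End.nearO_pt hk, End.side_pt hk, dist_eq_norm, and_comm]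
  rw [e1]
  refine ⟨pre_ring _ isPreconnected_Ioo fun r hr => (h0.trans hr.1).le,
    e.c + ((ρ + ρ') / 2 : ℝ), ?_⟩
  show ‖e.c + ((ρ + ρ') / 2 : ℝ) - e.c‖ ∈ Ioo ρ ρ'
  rw [add_sub_cancel_left, Complex.norm_real, Real.norm_eq_abs, abs_of_pos (by linarith)]
  constructor <;> linarith

theorem adj {e : End} (he : e.ok) {s t a ρ a' ρ' : ℝ} (hs : |s| < a) (ha : a < a') (ht : t < ρ)
    (h0 : 0 < ρ) (h1 : ρ < ρ') : Adj e (e.adj s t) a ρ a' ρ' := by
  by_cases hk : e.k = Kind.pt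
  · obtain ⟨b1, b2⟩ := adj_pt (a := a) (a' := a') hk h0 h1
    by_cases ht0 : 0 < t
    · have e0 : e.adj s t = e.hole t := by simp [End.adj, hk, ht0]
      have sd : ∀ z, (e.hole t).side z ↔ t ≤ ‖z - e.c‖ := fun z => by simp [End.side, End.hole]
      rw [e0]
      refine ⟨rfl, by simpa [End.ok, End.hole] using ht0, ?_, ?_, ?_, b1, b2⟩
      · rw [End.near_pt hk]
        exact sphere_subset_closedBall.trans (closedBall_subset_closedBall ht.le)
      · intro z _ hz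
        rw [End.near_pt hk, mem_closedBall, dist_eq_norm, not_le] at hz
        rw [sd]
        exact ⟨fun _ => End.side_pt hk z, fun _ => by linarith⟩
      · have e1 : {z | z ∈ e.near a' ρ' ∧ (e.hole t).side z ∧
            ((e.hole t).k ≠ Kind.pt → z ∉ (e.hole t).circ)} = {z | ‖z - e.c‖ ∈ Ioc t ρ'} := by
          ext z
          have c1 : z ∈ (e.hole t).circ ↔ ‖z - e.c‖ = t := mem_sphere_iff_norm
          have c2 : (e.hole t).k ≠ Kind.pt := by simp [End.hole]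
          simp only [mem_ofPred_eq, sd, c1, End.near_pt hk, mem_closedBall, dist_eq_norm, mem_Ioc]
          exact ⟨fun h => ⟨lt_of_le_of_ne h.2.1 fun g => h.2.2 c2 g.symm, h.1⟩,
            fun h => ⟨h.2, h.1.le, fun _ => h.1.ne'⟩⟩
        rw [e1]
        exact pre_ring _ isPreconnected_Ioc fun r hr => (ht0.trans hr.1).le
    · have e0 : e.adj s t = e := by simp [End.adj, hk, ht0]
      rw [e0]
      refine ⟨rfl, he, ?_, fun _ _ _ => Iff.rfl, ?_, b1, b2⟩
      · rw [End.near_pt hk, End.circ_pt he hk]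
        simpa using h0.le
      · have e1 : {z | z ∈ e.near a' ρ' ∧ e.side z ∧ (e.k ≠ Kind.pt → z ∉ e.circ)} =
            closedBall e.c ρ' := by
          ext z
          simp [End.near_pt hk, End.side_pt hk, hk]
        rw [e1]
        exact (convex_closedBall _ _).isPreconnected
  · have hr := he.pos hk
    have e0 : e.adj s t = e.move s := by simp [End.adj, hk]
    have hr' : 0 < (e.move s).r := End.rad_pos hr s
    have hk' : (e.move s).k ≠ Kind.pt := hk
    obtain ⟨s1, s2⟩ := abs_lt.1 hs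
    have sd : ∀ z, z ≠ e.c → ((e.move s).side z ↔ s ≤ e.dep z) := fun z hz => by
      rw [End.side_iff hk' hr' hz, End.dep_move hr s hz, sub_nonneg]
    have ci : ∀ z, z ∈ (e.move s).circ ↔ z ≠ e.c ∧ e.dep z = s := fun z =>
      End.mem_sphere_rad hr
    have eB : {z | z ∈ e.nearO a' ρ' ∧ e.side z ∧ z ∉ e.near a ρ} = e.ann (Ioo a a') := by
      ext z
      simp only [mem_ofPred_eq, End.near_loop hk, End.nearO_loop hk, End.ann, mem_Ioo, mem_Icc]
      constructor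
      · rintro ⟨⟨z0, -, z2⟩, z3, z4⟩
        rw [End.side_iff hk hr z0] at z3
        refine ⟨z0, ?_, z2⟩
        by_contra hn
        exact z4 ⟨z0, by linarith, not_lt.1 hn⟩
      · rintro ⟨z0, z1, z2⟩
        exact ⟨⟨z0, by linarith, z2⟩, (End.side_iff hk hr z0).2 (by linarith),
          fun h => by linarith [h.2.2]⟩
    rw [e0]
    refine ⟨rfl, by simpa [End.ok, hk'] using hr', ?_, ?_, ?_, ?_, ?_⟩
    · intro z hz
      obtain ⟨z0, z1⟩ := (ci z).1 hz
      rw [End.near_loop hk]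
      exact ⟨z0, by rw [z1]; exact ⟨s1.le, s2.le⟩⟩
    · intro z hz hn
      rw [End.near_loop hk] at hz hn
      rw [sd z hz.1, End.side_iff hk hr hz.1]
      have : e.dep z < -a ∨ a < e.dep z := by
        by_contra hc
        rw [not_or, not_lt, not_lt] at hc
        exact hn ⟨hz.1, hc⟩
      rcases this with g | g
      · exact ⟨fun _ => by linarith, fun _ => by linarith⟩
      · exact ⟨fun _ => by linarith, fun _ => by linarith⟩
    · have e1 : {z | z ∈ e.near a' ρ' ∧ (e.move s).side z ∧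
          ((e.move s).k ≠ Kind.pt → z ∉ (e.move s).circ)} = e.ann (Ioc s a') := by
        ext z
        simp only [mem_ofPred_eq, End.near_loop hk, End.ann, mem_Ioc, mem_Icc, ci]
        constructor
        · rintro ⟨⟨z0, -, z2⟩, z3, z4⟩
          exact ⟨z0, lt_of_le_of_ne ((sd z z0).1 z3) fun g => z4 hk' ⟨z0, g.symm⟩, z2⟩
        · rintro ⟨z0, z1, z2⟩
          exact ⟨⟨z0, by linarith, z2⟩, (sd z z0).2 z1.le, fun _ g => z1.ne' g.2⟩
      rw [e1]
      exact End.isPreconnected_ann hr isPreconnected_Ioc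
    · rw [eB]
      exact End.isPreconnected_ann hr isPreconnected_Ioo
    · rw [eB]
      obtain ⟨z, hz⟩ : (sphere e.c (e.rad ((a + a') / 2))).Nonempty :=
        NormedSpace.sphere_nonempty.2 (End.rad_pos hr _).le
      exact ⟨z, End.sphere_subset_ann hr (mem_Ioo.2 ⟨by linarith, by linarith⟩) hz⟩

theorem pre_union {ι : Type} [Fintype ι] {C : Set E} {A : ι → Set E} (hC : IsPreconnected C)
    (hA : ∀ j, IsPreconnected (A j)) (hn : ∀ j, (C ∩ A j).Nonempty) :
    IsPreconnected (C ∪ ⋃ j, A j) := by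
  classical
  have : ∀ T : Finset ι, IsPreconnected (C ∪ ⋃ j ∈ T, A j) := by
    intro T
    induction T using Finset.induction_on with
    | empty => simpa using hC
    | insert a T _ ih =>
      rw [Finset.set_biUnion_insert, union_comm (A a), ← union_assoc]
      obtain ⟨x, x1, x2⟩ := hn a
      exact ih.union x (Or.inl x1) x2 (hA a)
  simpa using this Finset.univ

theorem main (hC : St_COLLAR) {ι : Type} [Fintype ι] {P : E → ℂ} {Γ : Set E} {e e' : ι → End}
    {Sig : Finset ℂ} {r1 h : ℝ} {a ρ : ι → ℝ} (C : IsCurve P Γ e) (G : Geo P Γ e Sig r1 h)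
    (ha0 : ∀ j, 0 < a j) (ha : ∀ j, a j < 2 * h) (hρ0 : ∀ j, 0 < ρ j) (hρ : ∀ j, ρ j < 2 * r1)
    (A : ∀ j, Adj (e j) (e' j) (a j) (ρ j) (2 * h) (2 * r1)) :
    IsCurve P (moved Γ e e' r1 h) e' := by
  have ON : ∀ j, (e j).nearO (2 * h) (2 * r1) ⊆ (e j).near (2 * h) (2 * r1) := fun j =>
    (e j).nearO_subset_near le_rfl le_rfl
  have FO : ∀ j, (e j).near (a j) (ρ j) ⊆ (e j).nearO (2 * h) (2 * r1) := fun j =>
    (e j).near_subset_nearO (ha j) (hρ j)
  have cF : ∀ j, (e j).circ ⊆ (e j).near (a j) (ρ j) := fun j =>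
    (End.circ_subset_nearO (C.ok j) (ha0 j) (hρ0 j)).trans ((e j).nearO_subset_near le_rfl le_rfl)
  have gr' : ∀ j S, (e' j).gr S = (e j).gr S := fun j S => by simp only [End.gr, (A j).w]
  have oO := fun j => End.isOpen_nearO (C.ok j) (2 * h) (2 * r1)
  have cN : ∀ j, IsCompact ((e j).gr ((e j).near (2 * h) (2 * r1))) := fun j =>
    End.isCompact_gr (End.isCompact_near (C.ok j) _ _) (G.wan j).continuousOn
  have cF' : ∀ j, IsClosed ((e j).gr ((e j).near (a j) (ρ j))) := fun j =>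
    (End.isCompact_gr (End.isCompact_near (C.ok j) _ _)
      ((G.wan j).continuousOn.mono ((FO j).trans (ON j)))).isClosed
  have pt : ∀ j S y, y ∈ (e j).gr S → y = (y.1, (e j).w y.1) := fun j S y hy =>
    Prod.ext rfl hy.2
  have gmem : ∀ j y, y ∈ (e j).gr ((e j).near (2 * h) (2 * r1)) → (y ∈ Γ ↔ (e j).side y.1) :=
    fun j y hy => by rw [← G.mem j hy.1, ← pt j _ y hy]
  have same : ∀ i j y, y ∈ (e i).gr ((e i).near (2 * h) (2 * r1)) →
      y ∈ (e j).gr ((e j).near (2 * h) (2 * r1)) → i = j := fun i j y hi hj => by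
    by_contra hne
    exact disjoint_left.1 (G.disj hne) hi hj
  have cl : ∀ j, IsClosed (Γ \ (e j).gr ((e j).nearO (2 * h) (2 * r1))) := by
    intro j
    refine isOpen_compl_iff.1 (isOpen_iff_mem_nhds.2 fun y hy => ?_)
    by_cases hΓ : y ∈ Γ
    · have hg : y ∈ (e j).gr ((e j).nearO (2 * h) (2 * r1)) := by
        by_contra hn
        exact hy ⟨hΓ, hn⟩
      have h1 := G.loc j y.1 (ON j hg.1)
      rw [← pt j _ y hg] at h1
      filter_upwards [h1, continuous_fst.continuousAt.eventually ((oO j).mem_nhds hg.1)]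
        with x x1 x2 hx
      exact hx.2 ⟨x2, (x1.1 hx.1).1⟩
    · filter_upwards [C.cpt.isClosed.isOpen_compl.mem_nhds hΓ] with x x1 hx using x1 hx.1
  have sub : ∀ x ∈ Γ, (∀ j, x ∉ (e j).gr ((e j).near (a j) (ρ j))) → x ∈ moved Γ e e' r1 h := by
    intro x hx hn
    by_cases hO : ∀ j, x ∉ (e j).gr ((e j).nearO (2 * h) (2 * r1))
    · exact Or.inl ⟨hx, hO⟩
    · simp only [not_forall, not_not] at hO
      obtain ⟨j, hj⟩ := hO
      have hN := (e j).gr_mono (ON j) hj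
      exact Or.inr ⟨j, hN, ((A j).side _ hN.1 fun g => hn j ⟨g, hj.2⟩).2 ((gmem j x hN).1 hx)⟩
  have key : ∀ j, ∀ z ∈ (e j).nearO (2 * h) (2 * r1), ∀ᶠ y in 𝓝 ((z, (e j).w z) : E),
      (y ∈ moved Γ e e' r1 h ↔ y.2 = (e j).w y.1 ∧ (e' j).side y.1) := by
    intro j z hz
    have h1 : ∀ᶠ y in 𝓝 ((z, (e j).w z) : E), ∀ i, i ≠ j →
        y ∉ (e i).gr ((e i).near (2 * h) (2 * r1)) := by
      rw [eventually_all]
      intro i
      by_cases hij : i = j
      · exact Eventually.of_forall fun _ g => absurd hij g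
      · filter_upwards [(cN i).isClosed.isOpen_compl.mem_nhds
          (fun g => hij (same i j _ g ⟨ON j hz, rfl⟩))] with y hy _ using hy
    have h2 : ∀ᶠ y in 𝓝 ((z, (e j).w z) : E), y.1 ∈ (e j).nearO (2 * h) (2 * r1) :=
      continuous_fst.continuousAt.eventually ((oO j).mem_nhds hz)
    filter_upwards [h1, h2, G.loc j z (ON j hz)] with y y1 y2 y3
    constructor
    · rintro (⟨g1, g2⟩ | ⟨i, g1, g2⟩)
      · exact absurd ⟨y2, (y3.1 g1).1⟩ (g2 j)
      · by_cases hij : i = j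
        · subst hij
          exact ⟨g1.2, g2⟩
        · exact absurd g1 (y1 i hij)
    · exact fun g => Or.inr ⟨j, ⟨ON j y2, g.1⟩, g.2⟩
  have zw : ∀ j y, y ∈ (e j).gr ((e j).near (2 * h) (2 * r1)) → P y = 0 ∧ dw P y ≠ 0 :=
    fun j y hy => by rw [pt j _ y hy]; exact G.wz j _ hy.1
  have c' : ∀ j, (e' j).circ ⊆ (e j).nearO (2 * h) (2 * r1) := fun j => (A j).circ.trans (FO j)
  have lF : ∀ y ∈ loops e, ∃ j, y ∈ (e j).gr ((e j).near (a j) (ρ j)) := fun y ⟨j, _, hj⟩ =>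
    ⟨j, (e j).gr_mono (cF j) hj⟩
  refine ⟨C.poly, ?_, ?_, ?_, ?_, fun j => (A j).ok, ?_, ?_, ?_, ?_, ?_, ?_, ?_⟩
  · have e1 : moved Γ e e' r1 h = (Γ ∩ ⋂ j, (Γ \ (e j).gr ((e j).nearO (2 * h) (2 * r1)))) ∪
        ⋃ j, ((e j).gr ((e j).near (2 * h) (2 * r1)) ∩ Prod.fst ⁻¹' {z | (e' j).side z}) := by
      ext y
      simp only [moved, mem_ofPred_eq, mem_union, mem_inter_iff, mem_iInter, Set.mem_sdiff, mem_iUnion,
        mem_preimage]
      exact or_congr ⟨fun g => ⟨g.1, fun j => ⟨g.1, g.2 j⟩⟩, fun g => ⟨g.1, fun j => (g.2 j).2⟩⟩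
        Iff.rfl
    rw [e1]
    exact (C.cpt.inter_right (isClosed_iInter cl)).union (isCompact_iUnion fun j =>
      (cN j).inter_right ((e' j).isClosed_side.preimage continuous_fst))
  · rintro y (g | ⟨j, g, -⟩)
    · exact C.zero y g.1
    · exact (zw j y g).1
  · rintro y (g | ⟨j, g, -⟩)
    · exact C.grad y g.1
    · exact Or.inr (zw j y g).2
  · rintro y (g | ⟨j, g, -⟩)
    · exact C.ww y g.1
    · exact fun g' => absurd g' (zw j y g).2
  · intro j
    rw [(A j).w]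
    exact (G.wan j).mono ((c' j).trans (ON j))
  · intro j
    rw [(A j).w]
    filter_upwards [(oO j).mem_nhdsSet.2 (c' j)] with z hz using (G.wz j z (ON j hz)).1
  · intro j z hz
    rw [(A j).w]
    exact (G.wz j z (ON j (c' j hz))).2
  · intro j z hz
    rw [(A j).w]
    exact key j z (c' j hz)
  · intro y hy hl
    by_cases hO : ∀ j, y ∉ (e j).gr ((e j).nearO (2 * h) (2 * r1))
    · have hΓ : y ∈ Γ := by
        rcases hy with g | ⟨j, g1, g2⟩
        · exact g.1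
        · exact (gmem j y g1).2 (((A j).side _ g1.1 fun g => hO j ⟨FO j g, g1.2⟩).1 g2)
      have hF : ∀ j, y ∉ (e j).gr ((e j).near (a j) (ρ j)) := fun j g =>
        hO j ((e j).gr_mono (FO j) g)
      have h1 : ∀ᶠ x in 𝓝 y, ∀ j, x ∉ (e j).gr ((e j).near (a j) (ρ j)) :=
        eventually_all.2 fun j => (cF' j).isOpen_compl.mem_nhds (hF j)
      filter_upwards [h1, C.int y hΓ fun g => (lF y g).elim hF] with x x1 x2 hx
      exact sub x (x2 hx) x1
    · simp only [not_forall, not_not] at hO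
      obtain ⟨j, hj⟩ := hO
      have k1 := key j y.1 hj.1
      have k2 := ift_unique (w := (e j).w) (z := y.1) (C.poly.analyticAt _)
        (G.wan j _ (ON j hj.1)).continuousAt
        (Filter.eventually_of_mem ((oO j).mem_nhds hj.1) fun z hz => (G.wz j z (ON j hz)).1)
        (G.wz j _ (ON j hj.1)).2
      rw [← pt j _ y hj] at k1 k2
      have k3 := side_ev (e' j) (k1.self_of_nhds.1 hy).2
        fun g1 g2 => hl ⟨j, g1, by rw [gr']; exact ⟨g2, hj.2⟩⟩
      filter_upwards [k1, k2, continuous_fst.continuousAt.eventually k3] with x x1 x2 x3 hx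
      exact x1.2 ⟨x2.1 hx, x3⟩
  · have eB : ∀ j, ((Γ \ loops e) ∩ (Γ \ (e j).gr ((e j).nearO (2 * h) (2 * r1)))ᶜ) \
        (e j).gr ((e j).near (a j) (ρ j)) = (e j).gr {z | z ∈ (e j).nearO (2 * h) (2 * r1) ∧
          (e j).side z ∧ z ∉ (e j).near (a j) (ρ j)} := by
      intro j
      ext y
      constructor
      · rintro ⟨⟨⟨y1, -⟩, y2⟩, y3⟩
        have hg : y ∈ (e j).gr ((e j).nearO (2 * h) (2 * r1)) := by
          by_contra hn
          exact y2 ⟨y1, hn⟩
        exact ⟨⟨hg.1, (gmem j y ((e j).gr_mono (ON j) hg)).1 y1, fun g => y3 ⟨g, hg.2⟩⟩, hg.2⟩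
      · rintro ⟨⟨y1, y2, y3⟩, y4⟩
        have hN : y ∈ (e j).gr ((e j).near (2 * h) (2 * r1)) := ⟨ON j y1, y4⟩
        refine ⟨⟨⟨(gmem j y hN).2 y2, fun g => ?_⟩, fun g => g.2 ⟨y1, y4⟩⟩, fun g => y3 g.1⟩
        obtain ⟨i, hi⟩ := lF y g
        obtain rfl := same i j y ((e i).gr_mono ((FO i).trans (ON i)) hi) hN
        exact y3 hi.1
    have inO : ∀ j y, y ∈ (Γ \ loops e) ∩ (Γ \ (e j).gr ((e j).nearO (2 * h) (2 * r1)))ᶜ →
        y ∈ (e j).gr ((e j).near (2 * h) (2 * r1)) := fun j y hy => by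
      by_contra hn
      exact hy.2 ⟨hy.1.1, fun g => hn ((e j).gr_mono (ON j) g)⟩
    have pC := hC ι (Γ \ loops e) (fun j => (Γ \ (e j).gr ((e j).nearO (2 * h) (2 * r1)))ᶜ)
      (fun j => (e j).gr ((e j).near (a j) (ρ j))) C.conn (fun j => (cl j).isOpen_compl) cF'
      (fun j y hy g => g.2 ((e j).gr_mono (FO j) hy.2))
      (fun i j hij => disjoint_left.2 fun y g1 g2 => hij (same i j y (inO i y g1) (inO j y g2)))
      (fun j => by
        rw [eB]
        exact End.isPreconnected_gr (A j).preB ((G.wan j).continuousOn.mono fun z hz => ON j hz.1))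
    have notl : ∀ y, (∀ j, y ∉ (e j).gr ((e j).near (a j) (ρ j))) → y ∉ loops e' :=
      fun y hy ⟨j, _, g⟩ => hy j ((e j).gr_mono (A j).circ (gr' j _ ▸ g))
    have e1 : moved Γ e e' r1 h \ loops e' =
        ((Γ \ loops e) \ ⋃ j, (e j).gr ((e j).near (a j) (ρ j))) ∪
        ⋃ j, (e j).gr {z | z ∈ (e j).near (2 * h) (2 * r1) ∧ (e' j).side z ∧
          ((e' j).k ≠ Kind.pt → z ∉ (e' j).circ)} := by
      ext y
      simp only [mem_union, Set.mem_sdiff, mem_iUnion, not_exists]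
      constructor
      · rintro ⟨⟨g1, g2⟩ | ⟨j, g1, g2⟩, hl⟩
        · have hF : ∀ j, y ∉ (e j).gr ((e j).near (a j) (ρ j)) := fun j g =>
            g2 j ((e j).gr_mono (FO j) g)
          exact Or.inl ⟨⟨g1, fun g => (lF y g).elim hF⟩, hF⟩
        · exact Or.inr ⟨j, ⟨g1.1, g2, fun k1 k2 => hl ⟨j, k1, by rw [gr']; exact ⟨k2, g1.2⟩⟩⟩, g1.2⟩
      · rintro (⟨⟨g1, -⟩, g2⟩ | ⟨j, ⟨g1, g2, g3⟩, g4⟩)
        · exact ⟨sub y g1 g2, notl y g2⟩
        · refine ⟨Or.inr ⟨j, ⟨g1, g4⟩, g2⟩, ?_⟩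
          rintro ⟨i, k1, k2⟩
          rw [gr'] at k2
          obtain rfl := same i j y ((e i).gr_mono ((c' i).trans (ON i)) k2) ⟨g1, g4⟩
          exact g3 k1 k2.1
    rw [e1]
    refine pre_union pC (fun j => End.isPreconnected_gr (A j).preA
      ((G.wan j).continuousOn.mono fun z hz => hz.1)) fun j => ?_
    obtain ⟨z, z1, z2, z3⟩ := (A j).neB
    have hy : ((z, (e j).w z) : E) ∈ (e j).gr {z | z ∈ (e j).nearO (2 * h) (2 * r1) ∧
        (e j).side z ∧ z ∉ (e j).near (a j) (ρ j)} := ⟨⟨z1, z2, z3⟩, rfl⟩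
    rw [← eB] at hy
    refine ⟨(z, (e j).w z), ⟨hy.1.1, fun g => ?_⟩,
      ⟨ON j z1, ((A j).side z (ON j z1) z3).2 z2, fun _ g => z3 ((A j).circ g)⟩, rfl⟩
    obtain ⟨i, hi⟩ := mem_iUnion.1 g
    obtain rfl := same i j _ ((e i).gr_mono ((FO i).trans (ON i)) hi) ⟨ON j z1, rfl⟩
    exact z3 hi.1
  · intro i j hij
    rw [gr', gr']
    exact (G.disj hij).mono ((e i).gr_mono ((c' i).trans (ON i))) ((e j).gr_mono ((c' j).trans (ON j)))

end MOVE

theorem st_move (hC : St_COLLAR) : St_MOVE := by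
  intro ι _ P Γ e Sig r1 h s t C G hst
  have h1 := G.r1pos
  have b1 : ∀ j, |s j| < (|s j| + 2 * h) / 2 := fun j => by linarith [(hst j).1]
  have b2 : ∀ j, (|s j| + 2 * h) / 2 < 2 * h := fun j => by linarith [(hst j).1]
  have b3 : ∀ j, t j < (max (t j) 0 + 2 * r1) / 2 := fun j => by
    linarith [(hst j).2, le_max_left (t j) 0]
  have b4 : ∀ j, 0 < (max (t j) 0 + 2 * r1) / 2 := fun j => by linarith [le_max_right (t j) 0]
  have b5 : ∀ j, (max (t j) 0 + 2 * r1) / 2 < 2 * r1 := fun j => by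
    have : max (t j) 0 < 2 * r1 := max_lt (hst j).2 (by linarith)
    linarith
  exact MOVE.main hC C G (fun j => (abs_nonneg _).trans_lt (b1 j)) b2 b4 b5
    fun j => MOVE.adj (C.ok j) (b1 j) (b2 j) (b3 j) (b4 j) (b5 j)

end Pool.Agent.CF
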