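import Pool.Agent.Lib.CF.Blue
import Pool.Agent.Lib.CF.Basic

open Set Metric Filter Topology MeasureTheory

namespace Pool.Agent.CF

namespace PART

theorem small {M ε r1 : ℝ} (hM : 0 ≤ M) (hε : 0 < ε) (hr : 0 < r1) :
    ∃ r > 0, ∀ r2, 0 < r2 → r2 ≤ r → M / Real.log (r1 / (4 * r2)) ≤ ε := by
  refine ⟨r1 / 4 * Real.exp (-(M / ε + 1)), by positivity, fun r2 h1 h2 => ?_⟩
  have h3 : M / ε + 1 ≤ Real.log (r1 / (4 * r2)) := by
    rw [Real.le_log_iff_exp_le (by positivity), le_div_iff₀ (by positivity)]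
    have h4 : Real.exp (M / ε + 1) * Real.exp (-(M / ε + 1)) = 1 := by
      rw [← Real.exp_add]; simp
    have h5 := mul_le_mul_of_nonneg_left h2 (Real.exp_pos (M / ε + 1)).le
    nlinarith
  have h6 : 0 ≤ M / ε := by positivity
  rw [div_le_iff₀ (by linarith)]
  have h7 : ε * (M / ε) = M := by field_simp
  nlinarith

theorem env_le {X : Set E} {φ : E → ℝ} {τ N A : ℝ} {y : E} (hN : -N ≤ A)
    (h : ∀ x ∈ X, y.1 = x.1 → ‖x.2 - y.2‖ ≤ τ → φ x ≤ Real.exp A) : env X φ τ N y ≤ A := by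
  unfold env
  rw [Real.log_le_iff_le_exp (lt_max_of_lt_right (Real.exp_pos _))]
  refine max_le (Real.sSup_le ?_ (Real.exp_pos _).le) (Real.exp_le_exp.2 hN)
  rintro _ ⟨x, ⟨a, b, c⟩, rfl⟩
  exact h x a b c

theorem le_env {X : Set E} {φ : E → ℝ} {τ N B : ℝ} {y x : E}
    (h : ∀ x ∈ X, y.1 = x.1 → ‖x.2 - y.2‖ ≤ τ → φ x ≤ B) (h1 : x ∈ X) (h2 : y.1 = x.1)
    (h3 : ‖x.2 - y.2‖ ≤ τ) : φ x ≤ Real.exp (env X φ τ N y) := by
  unfold env
  rw [Real.exp_log (lt_max_of_lt_right (Real.exp_pos _))]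
  refine le_max_of_le_left (le_csSup ⟨B, ?_⟩ ⟨x, ⟨h1, h2, h3⟩, rfl⟩)
  rintro _ ⟨x, ⟨a, b, c⟩, rfl⟩
  exact h x a b c

variable {ι : Type} {P : E → ℂ} {Γ : Set E} {e : ι → End} {Sig : Finset ℂ} {r1 h : ℝ}

/-- a point of a sheet lies on no other sheet -/
theorem sheet (G : Geo P Γ e Sig r1 h) (j : ι) {z : ℂ} (hz : z ∈ (e j).near (2 * h) (2 * r1))
    {A : ι → Set ℂ} (hA : ∀ i, A i ⊆ (e i).near (2 * h) (2 * r1)) (hj : z ∉ A j) (i : ι) :
    ((z, (e j).w z) : E) ∉ (e i).gr (A i) := by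
  intro hi
  by_cases hij : i = j
  · subst hij; exact hj hi.1
  · exact Set.disjoint_left.1 (G.disj hij) ((e i).gr_mono (hA i) hi) ⟨hz, rfl⟩

theorem sheet_reg (G : Geo P Γ e Sig r1 h) (j : ι) {z : ℂ} {a ρ ρ' : ℝ}
    (hz : z ∈ (e j).near (2 * h) (2 * r1)) (hs : (e j).side z) (ha : a ≤ 2 * h) (hρ : ρ ≤ 2 * r1)
    (hρ' : ρ' ≤ 2 * r1) (hj : z ∉ (e j).near a ρ') :
    ((z, (e j).w z) : E) ∈ reg Γ e Sig a ρ ρ' :=
  ⟨(G.mem j hz).2 hs, fun b hb => hρ.trans_lt (G.sig j z hz b hb),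
    sheet G j hz (fun i => (e i).near_mono ha hρ') hj⟩

theorem sheet_core (G : Geo P Γ e Sig r1 h) (j : ι) {z : ℂ} {a ρ : ℝ}
    (hz : z ∈ (e j).near (2 * h) (2 * r1)) (hs : (e j).side z) (ha : a ≤ 2 * h) (hρ : ρ ≤ 2 * r1)
    (hj : z ∉ (e j).nearO a ρ) : ((z, (e j).w z) : E) ∈ core Γ e Sig ρ a :=
  ⟨(G.mem j hz).2 hs, fun b hb => hρ.trans (G.sig j z hz b hb).le,
    sheet G j hz (fun i => (e i).nearO_subset_near ha hρ) hj⟩

theorem loop_reg (G : Geo P Γ e Sig r1 h) (j : ι) (hk : (e j).k ≠ Kind.pt) (hr : 0 < (e j).r)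
    {z : ℂ} {ρ ρ' : ℝ} (hz : z ∈ (e j).ann (Ioo (h / 16) (2 * h))) (hρ : ρ ≤ 2 * r1)
    (hρ' : ρ' ≤ 2 * r1) : ((z, (e j).w z) : E) ∈ reg Γ e Sig (h / 16) ρ ρ' := by
  have := G.hpos
  refine sheet_reg G j ?_ ((End.side_iff hk hr hz.1).2 (by linarith [hz.2.1])) (by linarith) hρ hρ' ?_
  · rw [End.near_loop hk]; exact ⟨hz.1, by linarith [hz.2.1], hz.2.2.le⟩
  · rw [End.near_loop hk]; exact fun a => absurd a.2.2 (not_le.2 hz.2.1)

theorem loop_core (G : Geo P Γ e Sig r1 h) (j : ι) (hk : (e j).k ≠ Kind.pt) (hr : 0 < (e j).r)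
    {z : ℂ} (hz : z ∈ (e j).ann (Icc (7 * h / 8) h)) :
    ((z, (e j).w z) : E) ∈ core Γ e Sig (r1 / 2) (h / 2) := by
  have := G.hpos
  have := G.r1pos
  refine sheet_core G j ?_ ((End.side_iff hk hr hz.1).2 (by linarith [hz.2.1])) (by linarith)
    (by linarith) ?_
  · rw [End.near_loop hk]; exact ⟨hz.1, by linarith [hz.2.1], by linarith [hz.2.2]⟩
  · rw [End.nearO_loop hk]; exact fun a => absurd a.2.2 (not_lt.2 (by linarith [hz.2.1]))

theorem pt_core (G : Geo P Γ e Sig r1 h) (j : ι) (hk : (e j).k = Kind.pt) {z : ℂ}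
    (h1 : r1 / 2 ≤ ‖z - (e j).c‖) (h2 : ‖z - (e j).c‖ ≤ r1) :
    ((z, (e j).w z) : E) ∈ core Γ e Sig (r1 / 2) (h / 2) := by
  have := G.hpos
  have := G.r1pos
  refine sheet_core G j ?_ (End.side_pt hk z) (by linarith) (by linarith) ?_
  · rw [End.near_pt hk, mem_closedBall_iff_norm]; linarith
  · rw [End.nearO_pt hk, mem_ball_iff_norm]; exact not_lt.2 h1

/-- distances to the other punctures and the ends, for a point near a puncture -/
theorem punc_far (G : Geo P Γ e Sig r1 h) {b z : ℂ} (hb : b ∈ Sig) (hz : ‖z - b‖ ≤ r1) :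
    (∀ b' ∈ Sig, ‖z - b‖ ≤ ‖z - b'‖) ∧ ∀ j, z ∉ (e j).near (2 * h) (2 * r1) := by
  have := G.r1pos
  refine ⟨fun b' hb' => ?_, fun j hj => absurd (G.sig j z hj b hb) (not_lt.2 (by linarith))⟩
  by_cases hbb : b = b'
  · rw [hbb]
  · have h1 := G.dd b hb b' hb' hbb
    have h2 : ‖b - b'‖ ≤ ‖z - b‖ + ‖z - b'‖ := by
      have : b - b' = (z - b') - (z - b) := by ring
      rw [this, add_comm]; exact norm_sub_le _ _
    linarith

theorem punc_reg (G : Geo P Γ e Sig r1 h) {b z w : ℂ} (hb : b ∈ Sig) (hz : ‖z - b‖ ≤ r1)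
    (hw : (z, w) ∈ Γ) {a ρ ρ' : ℝ} (ha : a ≤ 2 * h) (hρ : ρ < ‖z - b‖) (hρ' : ρ' ≤ 2 * r1) :
    ((z, w) : E) ∈ reg Γ e Sig a ρ ρ' :=
  ⟨hw, fun b' hb' => hρ.trans_le ((punc_far G hb hz).1 b' hb'),
    fun j hj => (punc_far G hb hz).2 j ((e j).near_mono ha hρ' hj.1)⟩

theorem punc_core (G : Geo P Γ e Sig r1 h) {b z w : ℂ} (hb : b ∈ Sig) (hz : ‖z - b‖ ≤ r1)
    (hw : (z, w) ∈ Γ) (hρ : r1 / 2 ≤ ‖z - b‖) : ((z, w) : E) ∈ core Γ e Sig (r1 / 2) (h / 2) := by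
  have := G.hpos
  have := G.r1pos
  exact ⟨hw, fun b' hb' => hρ.trans ((punc_far G hb hz).1 b' hb'), fun j hj =>
    (punc_far G hb hz).2 j ((e j).nearO_subset_near (by linarith) (by linarith) hj.1)⟩

theorem reg_mono {a ρ ρ' σ σ' : ℝ} (h1 : σ ≤ ρ) (h2 : σ' ≤ ρ') :
    reg Γ e Sig a ρ ρ' ⊆ reg Γ e Sig a σ σ' := fun _ hy =>
  ⟨hy.1, fun b hb => h1.trans_lt (hy.2.1 b hb),
    fun j hj => hy.2.2 j ((e j).gr_mono ((e j).near_mono le_rfl h2) hj)⟩

theorem log_bd {r1 r2 t k S : ℝ} (h2 : 0 < r2) (h3 : r2 ≤ t) (h4 : t ≤ r1) (hk : |k| ≤ S) :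
    |k * Real.log (r1 / t)| ≤ S * Real.log (r1 / r2) := by
  have ht : 0 < t := h2.trans_le h3
  have h5 : 0 ≤ Real.log (r1 / t) := Real.log_nonneg ((one_le_div ht).2 h4)
  have h6 : Real.log (r1 / t) ≤ Real.log (r1 / r2) :=
    Real.log_le_log (div_pos (ht.trans_le h4) ht) (by gcongr; exact (ht.trans_le h4).le)
  rw [abs_mul, abs_of_nonneg h5]
  exact mul_le_mul hk h6 h5 ((abs_nonneg _).trans hk)

/-- the slope inequality for the envelope at a loop -/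
theorem slope (hU : St_USC) {e : End} {X : Set E} {φ : E → ℝ} {v : ℂ → ℝ} {τ h C L κ Λ1 : ℝ}
    (hr : 0 < e.r) (hh : 0 < h) (hv : SM v (e.ann (Ioo (h / 16) (2 * h))))
    (hC : ∀ z ∈ e.ann (Ioo (h / 16) (2 * h)), v z ≤ C)
    (hlo : ∀ x ∈ X, x.1 ∈ e.ann (Ioo (h / 16) (2 * h)) → ‖x.2 - e.w x.1‖ ≤ τ →
      φ x ≤ Real.exp (v x.1))
    (hup : ∀ z A, -Λ1 ≤ A → (∀ x ∈ X, z = x.1 → ‖x.2 - e.w z‖ ≤ τ → φ x ≤ Real.exp A) → v z ≤ A)
    {s : ℝ} (hs : s ∈ Icc (5 * h / 8) (3 * h / 4)) (hL : -L ≤ Real.circleAverage v e.c (e.rad s))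
    (H : ∀ f : ℂ → ℝ, Continuous f →
      (∀ z ∈ sphere e.c (e.rad s), f z ≤ C) → -L ≤ Real.circleAverage f e.c (e.rad s) →
      (∀ x ∈ X, x.1 ∈ sphere e.c (e.rad s) → ‖x.2 - e.w x.1‖ ≤ τ → φ x ≤ Real.exp (f x.1)) →
      ∃ Bd : ℂ → ℝ, ContinuousOn Bd (sphere e.c (e.rad (s - h / 2))) ∧
        (∀ z ∈ sphere e.c (e.rad (s - h / 2)), -Λ1 ≤ Bd z) ∧
        (∀ x ∈ X, x.1 ∈ sphere e.c (e.rad (s - h / 2)) → ‖x.2 - e.w x.1‖ ≤ τ →
          φ x ≤ Real.exp (Bd x.1)) ∧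
        Real.circleAverage Bd e.c (e.rad (s - h / 2)) ≤
          Real.circleAverage f e.c (e.rad s) + κ * (h / 2)) :
    Real.circleAverage v e.c (e.rad (s - h / 2)) ≤
      Real.circleAverage v e.c (e.rad s) + κ * (h / 2) := by
  obtain ⟨B, hB⟩ := hv.bdd
  have s1 : sphere e.c (e.rad s) ⊆ e.ann (Ioo (h / 16) (2 * h)) :=
    End.sphere_subset_ann hr ⟨by linarith [hs.1], by linarith [hs.2]⟩
  have s2 : sphere e.c (e.rad (s - h / 2)) ⊆ e.ann (Ioo (h / 16) (2 * h)) :=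
    End.sphere_subset_ann hr ⟨by linarith [hs.1], by linarith [hs.2]⟩
  have p1 := End.rad_pos hr s
  have p2 := End.rad_pos hr (s - h / 2)
  obtain ⟨i1, a1⟩ := hU e.c _ v B p1 (hv.usc.mono s1) fun z hz => hB z (s1 hz)
  obtain ⟨i2, -⟩ := hU e.c _ v B p2 (hv.usc.mono s2) fun z hz => hB z (s2 hz)
  refine le_of_forall_pos_le_add fun η hη => ?_
  obtain ⟨g, g1, g2, g3⟩ := a1 C (fun z hz => hC z (s1 hz)) η hη
  have g4 : Real.circleAverage v e.c (e.rad s) ≤ Real.circleAverage g e.c (e.rad s) :=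
    Real.circleAverage_mono i1 (g1.continuousOn.circleIntegrable p1.le) fun z hz =>
      (g2 z (by rwa [abs_of_pos p1] at hz)).1
  obtain ⟨Bd, b1, b2, b3, b4⟩ := H g g1 (fun z hz => (g2 z hz).2) (hL.trans g4) fun x hx a b =>
    (hlo x hx (s1 a) b).trans (Real.exp_le_exp.2 (g2 _ a).1)
  have g5 : Real.circleAverage v e.c (e.rad (s - h / 2)) ≤
      Real.circleAverage Bd e.c (e.rad (s - h / 2)) :=
    Real.circleAverage_mono i2 (b1.circleIntegrable p2.le) fun z hz => by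
      rw [abs_of_pos p2] at hz
      refine hup z _ (b2 z hz) fun x hx a b => ?_
      subst a
      exact b3 x hx hz b
  linarith

end PART

open PART in
theorem st_part (hU : St_USC) (hF : St_FIB) (hR : St_REG) (hH : St_HAR) (hL : St_LOW)
    (hE : St_ENV) (hT : St_FT0) : St_PART := by
  classical
  intro ι _ P Γ e Sig r1 h hc G
  have hr1 := G.r1pos
  have hh := G.hpos
  obtain ⟨⟨D, hD⟩, -⟩ := hF ι P Γ e hc
  obtain ⟨R1, R2⟩ := hR ι P Γ e Sig r1 h hc G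
  obtain ⟨R3, R4⟩ := R1 (h / 16) (r1 / 4) (by linarith) (by linarith) (by linarith) (by linarith)
  have hun : (⋃ n : ℕ, reg Γ e Sig (h / 16) (1 / ((n : ℝ) + 1)) (r1 / 4)) =
      reg Γ e Sig (h / 16) 0 (r1 / 4) := by
    refine Subset.antisymm (iUnion_subset fun n => reg_mono (by positivity) le_rfl) fun y hy => ?_
    have : ∀ᶠ n : ℕ in atTop, ∀ b ∈ Sig, 1 / ((n : ℝ) + 1) < ‖y.1 - b‖ :=
      (eventually_all_finset Sig).2 fun b hb =>
        (tendsto_one_div_add_atTop_nhds_zero_nat (𝕜 := ℝ)).eventually (gt_mem_nhds (hy.2.1 b hb))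
    obtain ⟨n, hn⟩ := this.exists
    exact mem_iUnion.2 ⟨n, hy.1, hn, hy.2.2⟩
  obtain ⟨n, ΛH, hΛH, HH⟩ := hH Γ (core Γ e Sig (r1 / 2) (h / 2))
    (fun n : ℕ => reg Γ e Sig (h / 16) (1 / ((n : ℝ) + 1)) (r1 / 4))
    (fun m n hmn => reg_mono (Nat.one_div_le_one_div hmn) le_rfl)
    (fun n => ⟨fun y hy => hy.1, R4 _ (by positivity)⟩) (hun ▸ R3)
    (R2 (h / 2) (r1 / 2) (by linarith) (by linarith) (by linarith) (by linarith))
    (by
      rw [hun]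
      exact fun y hy => ⟨hy.1, fun b hb => by linarith [hy.2.1 b hb], fun j hj => hy.2.2 j
        ((e j).gr_mono ((e j).near_subset_nearO (by linarith) (by linarith)) hj)⟩)
  have hlow : ∀ j, ∃ Λ2 > 0, (e j).k ≠ Kind.pt →
      ∀ (v G : ℂ → ℝ) (C Λ : ℝ), SM v ((e j).ann (Ioo (h / 16) (2 * h))) →
      (∀ z ∈ (e j).ann (Ioo (h / 16) (2 * h)), v z ≤ C) → Integrable G → (∀ z, 0 ≤ G z) →
      (∀ z ∈ (e j).ann (Icc (7 * h / 8) h), C - v z ≤ G z) → ∫ z, G z ≤ Λ →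
      ∀ s ∈ Icc (5 * h / 8) (3 * h / 4),
        C - Real.circleAverage v (e j).c ((e j).rad s) ≤ Λ2 * Λ := fun j => by
    by_cases hk : (e j).k = Kind.pt
    · exact ⟨1, one_pos, fun a => absurd hk a⟩
    · obtain ⟨L, a, b⟩ := hL (e j) h hk ((hc.ok j).pos hk) hh
      exact ⟨L, a, fun _ => b⟩
  choose Λ2 hΛ2 HL using hlow
  have hs2 : 0 ≤ ∑ j, Λ2 j := Finset.sum_nonneg fun j _ => (hΛ2 j).le
  obtain ⟨c0, hc0, HT⟩ := hT
  refine ⟨(∑ j, Λ2 j) * ΛH + 1, by positivity, fun C hC κ hκ => ?_⟩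
  set S := ∑ j, |κ j| with hS
  have hS0 : 0 ≤ S := Finset.sum_nonneg fun j _ => abs_nonneg _
  have hSj : ∀ j, |κ j| ≤ S := fun j =>
    Finset.single_le_sum (f := fun j => |κ j|) (fun j _ => abs_nonneg _) (Finset.mem_univ j)
  have hC0 : 0 < C := by linarith
  obtain ⟨r, hr, hsm⟩ := small (M := (Fintype.card ι + Sig.card) * c0 *
    ((D + 1) * C + ΛH * C / r1 ^ 2 + S)) (ε := 1 / 16) (r1 := r1) (by positivity) (by norm_num) hr1
  refine ⟨min r (min (r1 / 64) (1 / ((n : ℝ) + 1))), by positivity, ?_⟩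
  intro r2 h2 h20 X K O τ φ hLM hτ hO hA hK hb h1 hpt hex hSL
  have h21 : r2 ≤ r := h20.trans (min_le_left _ _)
  have h22 : r2 ≤ r1 / 64 := h20.trans ((min_le_right _ _).trans (min_le_left _ _))
  have h23 : r2 ≤ 1 / ((n : ℝ) + 1) := h20.trans ((min_le_right _ _).trans (min_le_right _ _))
  have hsl : ∀ j, ∃ Λ1 : ℝ, (e j).k ≠ Kind.pt → _ := fun j => by
    by_cases hk : (e j).k = Kind.pt
    · exact ⟨0, fun a => absurd hk a⟩
    · obtain ⟨L, a⟩ := hSL j hk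
      exact ⟨L, fun _ => a⟩
  choose Λ1 HS using hsl
  have hl0 : 0 ≤ S * Real.log (r1 / r2) :=
    mul_nonneg hS0 (Real.log_nonneg ((one_le_div h2).2 (by linarith)))
  set N := ∑ j, |Λ1 j| + S * Real.log (r1 / r2) with hN
  have hN0 : 0 ≤ ∑ j, |Λ1 j| := Finset.sum_nonneg fun j _ => abs_nonneg _
  have hNj : ∀ j, Λ1 j ≤ N := fun j => by
    have := Finset.single_le_sum (f := fun j => |Λ1 j|) (fun j _ => abs_nonneg _)
      (Finset.mem_univ j)
    linarith [le_abs_self (Λ1 j)]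
  -- global bound
  have hB : ∀ x ∈ X, x ∈ tube (reg Γ e Sig (h / 16) r2 r2) τ →
      φ x ≤ Real.exp (C + S * Real.log (r1 / r2)) := by
    rintro x hx ⟨y, hy, a, b⟩
    by_cases hy' : ∀ j, y ∉ (e j).gr ((e j).near (h / 16) (r1 / 4))
    · exact (h1 x hx ⟨y, ⟨hy.1, hy.2.1, hy'⟩, a, b⟩).trans (Real.exp_le_exp.2 (by linarith))
    · obtain ⟨j, hj⟩ := not_forall.1 hy'
      have hj := not_not.1 hj
      have hj' : y.1 ∉ (e j).near (h / 16) r2 := fun c => hy.2.2 j ⟨c, hj.2⟩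
      have hk : (e j).k = Kind.pt := by
        by_contra hk
        have := hj.1
        rw [End.near_loop hk] at this hj'
        exact hj' this
      have c1 := hj.1
      rw [End.near_pt hk, mem_closedBall_iff_norm, a] at c1 hj'
      have c2 := not_le.1 hj'
      refine (hpt j hk x hx c2 c1 (by rw [← a, ← hj.2]; exact b)).trans (Real.exp_le_exp.2 ?_)
      have := log_bd (r1 := r1) h2 c2.le (by linarith) (hSj j)
      linarith [le_abs_self (κ j * Real.log (r1 / ‖x.1 - (e j).c‖))]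
  have hu : SMc (env X φ τ N) (reg Γ e Sig (h / 16) r2 r2) :=
    hE X K O _ φ τ N _ hLM hτ hO hA hK hb hB
  have huC : ∀ y ∈ reg Γ e Sig (h / 16) r2 (r1 / 4), env X φ τ N y ≤ C := fun y hy =>
    env_le (by linarith) fun x hx a b => h1 x hx ⟨y, hy, a, b⟩
  have hlo : ∀ y ∈ reg Γ e Sig (h / 16) r2 r2, ∀ x ∈ X, y.1 = x.1 → ‖x.2 - y.2‖ ≤ τ →
      φ x ≤ Real.exp (env X φ τ N y) := fun y hy x hx a b =>
    le_env (fun x hx a b => hB x hx ⟨y, hy, a, b⟩) hx a b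
  obtain ⟨Gf, g1, g2, g3, g4⟩ := HH (env X φ τ N) C hC0
    (hu.mono (reg_mono h23 (by linarith))) (fun y hy => huC y (reg_mono h23 le_rfl hy)) (by
      obtain ⟨x, hx, ⟨y, hy, a, b⟩, c⟩ := hex
      have hy' : y ∈ reg Γ e Sig (h / 16) r2 r2 :=
        ⟨hy.1, fun b hb => by linarith [hy.2.1 b hb], fun j hj => hy.2.2 j
          ((e j).gr_mono ((e j).near_subset_nearO (by linarith) (by linarith)) hj)⟩
      refine ⟨y, ⟨hy.1, fun b hb => by linarith [hy.2.1 b hb], fun j hj => hy.2.2 j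
          ((e j).gr_mono ((e j).nearO_mono (by linarith) (by linarith)) hj)⟩, ?_⟩
      exact Real.one_le_exp_iff.1 (c.trans (hlo y hy' x hx a b)))
  have g5 : ∀ z w, (z, w) ∈ core Γ e Sig (r1 / 2) (h / 2) → C - env X φ τ N (z, w) ≤ Gf z :=
    fun z w hw => by simpa using g4 z {w} (by simpa using hw)
  have hD0 : (0 : ℝ) ≤ D * C := by positivity
  have key := HT ι P Γ e Sig r1 h r2 (env X φ τ N) κ (fun _ => 0) ((D + 1) * C)
    (ΛH * C / r1 ^ 2) S Gf hc G h2 h22 hu (by positivity) (by positivity) hS0 hSj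
    (fun _ _ => by simpa using hS0) g1 g2 (by rwa [div_mul_cancel₀ _ (by positivity)])
    (fun j hk s hs => ?_) (fun j hk z => ⟨fun a b => ?_, fun a b => ?_⟩)
    (fun b hb z => ⟨fun a1 a2 => ?_, fun a1 a2 => ?_⟩)
  · have := hsm r2 h2 h21
    simp only [Finset.sum_const_zero] at key
    linarith
  · have hr := (hc.ok j).pos hk
    have m1 : ∀ z ∈ (e j).ann (Ioo (h / 16) (2 * h)),
        ((z, (e j).w z) : E) ∈ reg Γ e Sig (h / 16) r2 r2 := fun z hz =>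
      loop_reg G j hk hr hz (by linarith) (by linarith)
    have m2 : SM (fun z => env X φ τ N (z, (e j).w z)) ((e j).ann (Ioo (h / 16) (2 * h))) :=
      hu.sm _ _ (End.isOpen_ann hr isOpen_Ioo) (fun z hz => G.wan j z (by
        rw [End.near_loop hk]; exact ⟨hz.1, by linarith [hz.2.1], hz.2.2.le⟩)) m1
    have m3 : ∀ z ∈ (e j).ann (Ioo (h / 16) (2 * h)), env X φ τ N (z, (e j).w z) ≤ C :=
      fun z hz => huC _ (loop_reg G j hk hr hz (by linarith) (by linarith))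
    have m4 := HL j hk _ Gf C _ m2 m3 g1 g2 (fun z hz => g5 z _ (loop_core G j hk hr hz)) g3 s hs
    have m5 : Λ2 j ≤ ∑ j, Λ2 j :=
      Finset.single_le_sum (f := Λ2) (fun j _ => (hΛ2 j).le) (Finset.mem_univ j)
    have m6 : Λ2 j * (ΛH * C) ≤ (∑ j, Λ2 j) * (ΛH * C) := by gcongr
    exact slope hU hr hh m2 m3 (fun x hx a b => hlo _ (m1 _ a) x hx rfl b)
      (fun z A a b => env_le (by linarith [hNj j]) b) hs (by nlinarith) (HS j hk s hs)
  · have := log_bd (r1 := r1) (t := ‖z - (e j).c‖) h2 (by linarith) (by linarith) (hSj j)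
    have c := neg_abs_le (κ j * Real.log (r1 / ‖z - (e j).c‖))
    refine (env_le (A := C + κ j * Real.log (r1 / ‖z - (e j).c‖)) (by linarith)
      fun x hx c d => ?_).trans (by linarith)
    have c : z = x.1 := c
    subst c
    exact hpt j hk x hx (by linarith) (by linarith) d
  · have := g5 z _ (pt_core G j hk a b)
    linarith
  · rw [tr_eq_sum (hD z).1]
    have c1 : ∑ w ∈ (hD z).1.toFinset, env X φ τ N (z, w) ≤ (hD z).1.toFinset.card • C :=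
      Finset.sum_le_card_nsmul _ _ _ fun w hw => huC _ (punc_reg G hb (by linarith)
        ((hD z).1.mem_toFinset.1 hw) (by linarith) (by linarith) (by linarith))
    have c2 : ((hD z).1.toFinset.card : ℝ) ≤ D := by
      rw [← ncard_eq_toFinset_card _ (hD z).1]; exact_mod_cast (hD z).2
    rw [nsmul_eq_mul] at c1
    nlinarith
  · rw [tr_eq_sum (hD z).1]
    have c1 := g4 z (hD z).1.toFinset fun w hw =>
      punc_core G hb a2 ((hD z).1.mem_toFinset.1 hw) a1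
    rw [Finset.sum_sub_distrib] at c1
    have c2 : 0 ≤ ∑ _w ∈ (hD z).1.toFinset, C := Finset.sum_nonneg fun _ _ => hC0.le
    linarith

end Pool.Agent.CF
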