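import Pool.Agent.Lib.CF.Blue
import Pool.Agent.Lib.CF.Basic

open Set Metric Filter Topology MeasureTheory

namespace Pool.Agent.CF

namespace Pol0

theorem symm_eq (c : ℂ) (p : ℝ × ℝ) : c + Complex.polarCoord.symm p = circleMap c p.1 p.2 := by
  rw [Complex.polarCoord_symm_apply, circleMap, Complex.exp_mul_I]
  push_cast
  rfl

theorem integrable_polar {f : ℂ → ℝ} (hf : Integrable f) (c : ℂ) :
    IntegrableOn (fun p : ℝ × ℝ => p.1 * f (circleMap c p.1 p.2))
      (Ioi (0 : ℝ) ×ˢ Ioo (-Real.pi) Real.pi) := by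
  have h1 : Integrable fun q : ℝ × ℝ => f (c + Complex.measurableEquivRealProd.symm q) :=
    (Complex.volume_preserving_equiv_real_prod.symm.integrable_comp_emb
      Complex.measurableEquivRealProd.symm.measurableEmbedding).2 (hf.comp_add_left c)
  have h2 := (integrableOn_image_iff_integrableOn_abs_det_fderiv_smul volume
    polarCoord.open_target.measurableSet
    (fun p _ => (hasFDerivAt_polarCoord_symm p).hasFDerivWithinAt) polarCoord.symm.injOn _).1
    h1.integrableOn
  refine h2.congr_fun (fun p hp => ?_) polarCoord.open_target.measurableSet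
  simp only [det_fderivPolarCoordSymm, Complex.measurableEquivRealProd_symm_polarCoord_symm_apply,
    symm_eq, smul_eq_mul]
  rw [abs_of_pos hp.1]

theorem integral_polar (f : ℂ → ℝ) (c : ℂ) :
    ∫ z, f z = ∫ p in Ioi (0 : ℝ) ×ˢ Ioo (-Real.pi) Real.pi, p.1 * f (circleMap c p.1 p.2) := by
  rw [← integral_add_left_eq_self f c, ← Complex.integral_comp_polarCoord_symm]
  simp only [symm_eq, smul_eq_mul]
  rfl

theorem inner_eq (F : ℂ → ℝ) (c : ℂ) (ρ : ℝ) :
    ∫ θ in Ioo (-Real.pi) Real.pi, ρ * F (circleMap c ρ θ) =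
      2 * Real.pi * (ρ * Real.circleAverage F c ρ) := by
  have hp := Real.pi_pos
  have t0 : (fun θ => F (circleMap c ρ θ)).Periodic (2 * Real.pi) :=
    fun x => by simp [periodic_circleMap c ρ x]
  have h1 := t0.intervalIntegral_add_eq 0 (-Real.pi)
  rw [zero_add, show -Real.pi + 2 * Real.pi = Real.pi by ring] at h1
  rw [integral_const_mul, ← integral_Ioc_eq_integral_Ioo,
    ← intervalIntegral.integral_of_le (by linarith), ← h1, Real.circleAverage_def, smul_eq_mul]
  field_simp

end Pol0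

open Pol0 in
theorem st_pol0 : St_POL0 := by
  intro F c a b ha hab hF
  have hp := Real.pi_pos
  set A : Set ℂ := {z | a ≤ ‖z - c‖ ∧ ‖z - c‖ ≤ b} with hA
  have hm : MeasurableSet A :=
    (isClosed_Icc.preimage (f := fun z : ℂ => ‖z - c‖) (by fun_prop)).measurableSet
  have h1 := integrable_polar ((integrable_indicator_iff hm).2 hF) c
  have hs : Ioc a b ⊆ Ioi 0 := fun ρ h => ha.trans_lt h.1
  have hn : ∀ ρ : ℝ, 0 < ρ → ∀ θ, ‖circleMap c ρ θ - c‖ = ρ := fun ρ h θ => by
    rw [circleMap_sub_center, norm_circleMap_zero, abs_of_pos h]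
  have h2 : ∀ ρ ∈ Ioc a b, ∫ θ in Ioo (-Real.pi) Real.pi, ρ * A.indicator F (circleMap c ρ θ) =
      2 * Real.pi * (ρ * Real.circleAverage F c ρ) := fun ρ h => by
    rw [← inner_eq]
    congr 1
    funext θ
    rw [indicator_of_mem]
    show a ≤ _ ∧ _ ≤ b
    rw [hn ρ (hs h)]
    exact ⟨h.1.le, h.2⟩
  have h3 : IntegrableOn (fun ρ : ℝ => ∫ θ in Ioo (-Real.pi) Real.pi,
      ρ * A.indicator F (circleMap c ρ θ)) (Ioi 0) := by
    rw [IntegrableOn, Measure.volume_eq_prod, ← Measure.prod_restrict] at h1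
    exact h1.integral_prod_left
  constructor
  · rw [intervalIntegrable_iff_integrableOn_Ioc_of_le hab]
    refine IntegrableOn.congr_fun
      (((h3.mono_set hs).congr_fun h2 measurableSet_Ioc).const_mul (2 * Real.pi)⁻¹)
      (fun ρ _ => ?_) measurableSet_Ioc
    field_simp
  · rw [← integral_indicator hm, integral_polar _ c, Measure.volume_eq_prod,
      setIntegral_prod _ h1, intervalIntegral.integral_of_le hab, ← integral_const_mul,
      ← setIntegral_congr_fun measurableSet_Ioc h2]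
    refine setIntegral_eq_of_subset_of_ae_sdiff_eq_zero measurableSet_Ioi.nullMeasurableSet hs ?_
    filter_upwards [Measure.ae_ne volume a] with ρ h0 h
    have : ∀ θ, circleMap c ρ θ ∉ A := fun θ h' => by
      have h4 : a ≤ ‖circleMap c ρ θ - c‖ ∧ ‖circleMap c ρ θ - c‖ ≤ b := h'
      rw [hn ρ h.1] at h4
      exact h.2 ⟨lt_of_le_of_ne h4.1 (Ne.symm h0), h4.2⟩
    simp [indicator_of_notMem (this _)]

theorem st_area (hD : St_SMD) : St_AREA := by
  intro u U c r hU hu hr hs
  have hp := Real.pi_pos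
  have h1 : IntegrableOn u (closedBall c r) :=
    hu.integrableOn hs measurableSet_closedBall isBounded_closedBall
  refine ⟨h1, ?_⟩
  have e : closedBall c r = {z | 0 ≤ ‖z - c‖ ∧ ‖z - c‖ ≤ r} := by
    ext z; simp [mem_closedBall, dist_eq_norm]
  rw [e] at h1 ⊢
  obtain ⟨h2, h3⟩ := st_pol0 u c 0 r le_rfl hr.le h1
  have h4 : ∫ ρ in (0 : ℝ)..r, ρ * u c ≤ ∫ ρ in (0 : ℝ)..r, ρ * Real.circleAverage u c ρ := by
    refine intervalIntegral.integral_mono_on hr.le
      ((by fun_prop : Continuous fun ρ : ℝ => ρ * u c).intervalIntegrable _ _) h2 fun ρ h => ?_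
    rcases h.1.eq_or_lt with h0 | h0
    · simp [← h0]
    · exact mul_le_mul_of_nonneg_left
        (hD u U c ρ hU hu h0 ((closedBall_subset_closedBall h.2).trans hs)) h0.le
  rw [intervalIntegral.integral_mul_const, integral_id] at h4
  rw [h3]
  nlinarith

end Pool.Agent.CF
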