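import Pool.Agent.Lib.CF.Blue
import Pool.Agent.Lib.CF.Basic

open Set Metric Filter Topology MeasureTheory

namespace Pool.Agent.CF

namespace Punc

theorem punctured (c : ℂ) {δ : ℝ} (hδ : 0 < δ) : IsPreconnected (ball c δ \ {c}) := by
  have h := End.isPreconnected_ann (e := ⟨c, δ, Kind.inn, fun _ => 0⟩) hδ
    (isPreconnected_Iio (a := (0 : ℝ)))
  have e : (⟨c, δ, Kind.inn, fun _ => 0⟩ : End).ann (Iio 0) = ball c δ \ {c} := by
    ext z
    simp only [End.ann, End.dep, End.sgn, mem_ofPred_eq, mem_Iio, Set.mem_sdiff, mem_ball,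
      mem_singleton_iff, dist_eq_norm]
    rw [and_comm]
    refine and_congr_left fun hz => ?_
    have h0 : 0 < ‖z - c‖ / δ := div_pos (norm_pos_iff.2 (sub_ne_zero.2 hz)) hδ
    simp only [reduceCtorEq, if_false, Int.cast_one, one_mul]
    rw [Real.log_neg_iff h0, div_lt_one hδ]
  rwa [e] at h

theorem remove (hC : St_COLLAR) {Z : Set E} (hZ : IsPreconnected Z) {y : E} {p : E → ℂ}
    {φ : ℂ → E} (hp : Continuous p) (hpφ : ∀ z, p (φ z) = z)
    (hφ : ∀ᶠ z in 𝓝 (p y), ContinuousAt φ z) (hy : φ (p y) = y)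
    (h : ∀ᶠ x in 𝓝 y, (x ∈ Z ↔ x = φ (p x))) : IsPreconnected (Z \ {y}) := by
  obtain ⟨V, hV, hVo, hyV⟩ := _root_.eventually_nhds_iff.1 h
  have h1 : ∀ᶠ z in 𝓝 (p y), φ z ∈ V :=
    hφ.self_of_nhds.eventually_mem (by rw [hy]; exact hVo.mem_nhds hyV)
  obtain ⟨δ, hδ, h2⟩ := Metric.eventually_nhds_iff_ball.1 (hφ.and h1)
  have e : (Z ∩ (V ∩ p ⁻¹' ball (p y) δ)) \ {y} = φ '' (ball (p y) δ \ {p y}) := by
    ext x
    constructor
    · rintro ⟨⟨h3, h4, h5⟩, h6⟩
      have h7 := (hV x h4).1 h3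
      refine ⟨p x, ⟨h5, fun e => h6 ?_⟩, h7.symm⟩
      rw [mem_singleton_iff] at e ⊢
      rw [h7, e, hy]
    · rintro ⟨z, ⟨h3, h4⟩, rfl⟩
      refine ⟨⟨(hV _ (h2 z h3).2).2 (by rw [hpφ]), (h2 z h3).2, ?_⟩, fun e => h4 ?_⟩
      · rw [mem_preimage, hpφ]; exact h3
      · rw [mem_singleton_iff] at e ⊢
        rw [← e, hpφ]
  have h3 := hC Unit Z (fun _ => V ∩ p ⁻¹' ball (p y) δ) (fun _ => {y}) hZ
    (fun _ => hVo.inter (isOpen_ball.preimage hp)) (fun _ => isClosed_singleton)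
    (fun _ x hx => by rw [hx.2]; exact ⟨hyV, mem_ball_self hδ⟩) Subsingleton.pairwise
    (fun _ => by
      rw [e]
      exact (punctured _ hδ).image _ fun z hz => (h2 z hz.1).1.continuousWithinAt)
  rwa [iUnion_const] at h3

end Punc

open Punc in
theorem st_punc (hC : St_COLLAR) : St_PUNC := by
  intro ι _ P Γ e T hc hT
  induction T, hT using Set.Finite.induction_on with
  | empty => rw [sdiff_empty]; exact hc.conn
  | @insert y T hyT hT ih =>
    have e1 : (Γ \ loops e) \ insert y T = ((Γ \ loops e) \ T) \ {y} := by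
      ext x; simp only [Set.mem_sdiff, mem_insert_iff, mem_singleton_iff, not_or]; tauto
    rw [e1]
    by_cases hy : y ∈ Γ \ loops e
    swap
    · rwa [sdiff_singleton_eq_self fun h => hy h.1]
    have h1 : ∀ᶠ x in 𝓝 y, x ∉ loops e := hc.isCompact_loops.isClosed.isOpen_compl.mem_nhds hy.2
    have h2 : ∀ᶠ x in 𝓝 y, x ∉ T := hT.isClosed.isOpen_compl.mem_nhds hyT
    rcases hc.grad y hy.1 with hw | hw
    · obtain ⟨g, h3, h4, -, h5⟩ := hc.chart_swap hy.1 hy.2 hw
      refine remove hC ih (p := Prod.snd) (φ := fun w => (g w, w)) continuous_snd (fun _ => rfl)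
        (h3.eventually_analyticAt.mono fun z hz => hz.continuousAt.prodMk continuousAt_id)
        (Prod.ext h4 rfl) ?_
      filter_upwards [h1, h2, h5] with x a b c
      simp only [Set.mem_sdiff, a, b, c, not_false_eq_true, and_true, Prod.ext_iff]
    · obtain ⟨g, h3, h4, -, h5⟩ := hc.chart hy.1 hy.2 hw
      refine remove hC ih (p := Prod.fst) (φ := fun z => (z, g z)) continuous_fst (fun _ => rfl)
        (h3.eventually_analyticAt.mono fun z hz => continuousAt_id.prodMk hz.continuousAt)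
        (Prod.ext rfl h4) ?_
      filter_upwards [h1, h2, h5] with x a b c
      simp only [Set.mem_sdiff, a, b, c, not_false_eq_true, and_true, Prod.ext_iff, true_and]

end Pool.Agent.CF
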