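import Pool.Agent.Lib.CF.Blue

open Set Metric Filter Topology Complex

namespace Pool.Agent.CF

namespace Rad

/-- squared distance to `c` -/
def N (c x : ℂ) : ℝ := (x.re - c.re) * (x.re - c.re) + (x.im - c.im) * (x.im - c.im)

theorem N_eq (c x : ℂ) : N c x = ‖x - c‖ ^ 2 := by
  rw [← normSq_eq_norm_sq, normSq_apply]; rfl

theorem N_pos {c x : ℂ} (h : x ≠ c) : 0 < N c x := by
  rw [N_eq]; exact pow_pos (norm_pos_iff.2 (sub_ne_zero.2 h)) 2

theorem dre (c x : ℂ) : HasFDerivAt (fun x : ℂ => x.re - c.re) reCLM x :=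
  reCLM.hasFDerivAt.sub_const _

theorem dim (c x : ℂ) : HasFDerivAt (fun x : ℂ => x.im - c.im) imCLM x :=
  imCLM.hasFDerivAt.sub_const _

theorem dN (c x : ℂ) :
    HasFDerivAt (N c) ((2 * (x.re - c.re)) • reCLM + (2 * (x.im - c.im)) • imCLM) x := by
  refine (((dre c x).mul (dre c x)).add ((dim c x).mul (dim c x))).congr_fderiv ?_
  rw [two_mul, two_mul, add_smul, add_smul]

theorem dep_eq (e : End) (hr : 0 < e.r) {x : ℂ} (h : x ≠ e.c) :
    e.dep x = e.sgn * (Real.log (N e.c x) / 2 - Real.log e.r) := by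
  rw [End.dep, N_eq, Real.log_div (norm_ne_zero_iff.2 (sub_ne_zero.2 h)) hr.ne', Real.log_pow]
  push_cast
  ring

theorem dep_ev (e : End) (hr : 0 < e.r) {x : ℂ} (h : x ≠ e.c) :
    e.dep =ᶠ[𝓝 x] fun y => e.sgn * (Real.log (N e.c y) / 2 - Real.log e.r) :=
  (eventually_ne_nhds h).mono fun _ hy => dep_eq e hr hy

theorem ddep (e : End) (hr : 0 < e.r) {x : ℂ} (h : x ≠ e.c) :
    HasFDerivAt e.dep ((e.sgn * ((x.re - e.c.re) * (N e.c x)⁻¹)) • reCLM +
      (e.sgn * ((x.im - e.c.im) * (N e.c x)⁻¹)) • imCLM) x := by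
  have := (((((dN e.c x).log (N_pos h).ne').mul_const (2 : ℝ)⁻¹).sub_const (Real.log e.r)).const_mul
    (e.sgn : ℝ)).congr_of_eventuallyEq (dep_ev e hr h)
  refine this.congr_fderiv ?_
  ext v
  simp
  ring

end Rad

open Rad in
theorem st_rad : St_RAD := by
  intro e φ z hr hφ hz
  have h1 : Differentiable ℝ φ := hφ.differentiable (by norm_num)
  have h2 : Differentiable ℝ (deriv φ) := by
    have : ContDiff ℝ (1 + 1) φ := by rwa [one_add_one_eq_two]
    exact (contDiff_succ_iff_deriv.1 this).2.2.differentiable one_ne_zero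
  refine ⟨hφ.contDiffAt.comp z (ContDiffAt.congr_of_eventuallyEq ?_ (dep_ev e hr hz)), ?_⟩
  · have : ContDiffAt ℝ 2 (N e.c) z := by
      unfold N
      have a := (reCLM.contDiff (n := 2)).contDiffAt (x := z)
      have b := (imCLM.contDiff (n := 2)).contDiffAt (x := z)
      exact ((a.sub contDiffAt_const).mul (a.sub contDiffAt_const)).add
        ((b.sub contDiffAt_const).mul (b.sub contDiffAt_const))
    exact contDiffAt_const.mul (((this.log (N_pos hz).ne').div_const _).sub contDiffAt_const)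
  have ev : fderiv ℝ (fun x => φ (e.dep x)) =ᶠ[𝓝 z] fun x =>
      (deriv φ (e.dep x) * (e.sgn * ((x.re - e.c.re) * (N e.c x)⁻¹))) • reCLM +
        (deriv φ (e.dep x) * (e.sgn * ((x.im - e.c.im) * (N e.c x)⁻¹))) • imCLM :=
    (eventually_ne_nhds hz).mono fun x hx => by
      refine ((h1 _).hasDerivAt.comp_hasFDerivAt x (ddep e hr hx)).fderiv.trans ?_
      rw [smul_add, smul_smul, smul_smul]
  have d1 := (h2 _).hasDerivAt.comp_hasFDerivAt z (ddep e hr hz)
  have d2 := (hasDerivAt_inv (N_pos hz).ne').comp_hasFDerivAt z (dN e.c z)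
  have d := ((d1.mul (((dre e.c z).mul d2).const_mul (e.sgn : ℝ))).smul_const reCLM).add
    ((d1.mul (((dim e.c z).mul d2).const_mul (e.sgn : ℝ))).smul_const imCLM)
  have s : (e.sgn : ℝ) ^ 2 = 1 := by unfold End.sgn; split_ifs <;> simp
  have n := (N_pos hz).ne'
  rw [lap, InnerProductSpace.laplacian_eq_iteratedFDeriv_complexPlane, ← N_eq]
  simp only [iteratedFDeriv_two_apply]
  rw [(d.congr_of_eventuallyEq ev).fderiv]
  simp
  field_simp
  unfold N
  linear_combination ((z.re - e.c.re) ^ 2 + (z.im - e.c.im) ^ 2) * deriv (deriv φ) (e.dep z) * s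

end Pool.Agent.CF
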