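import Pool.Agent.Lib.CF.Blue
import Pool.Agent.Lib.CF.Basic

open Set Metric Filter Topology

namespace Pool.Agent.CF

namespace REG

variable {ι : Type} {P : E → ℂ} {Γ : Set E} {e : ι → End} {Sig : Finset ℂ} {r1 h : ℝ}

/-- the graph over an open part of the collar is relatively open in the curve -/
theorem relopen (G : Geo P Γ e Sig r1 h) (j : ι) {A : Set ℂ} (hA : IsOpen A)
    (hs : A ⊆ (e j).near (2 * h) (2 * r1)) :
    ∃ N : Set E, IsOpen N ∧ ∀ y ∈ Γ, (y ∈ N ↔ y ∈ (e j).gr A) := by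
  refine ⟨interior {x | x ∈ Γ → x ∈ (e j).gr A}, isOpen_interior, fun y hy =>
    ⟨fun a => interior_subset a hy, fun a => mem_interior_iff_mem_nhds.2 ?_⟩⟩
  have hy' : y = (y.1, (e j).w y.1) := Prod.ext rfl a.2
  have h1 := G.loc j y.1 (hs a.1)
  rw [← hy'] at h1
  filter_upwards [h1, (continuous_fst.tendsto y).eventually (hA.mem_nhds a.1)] with x b c d
  exact ⟨c, (b.1 d).1⟩

theorem closed_gr (hc : IsCurve P Γ e) (G : Geo P Γ e Sig r1 h) (j : ι) {a ρ : ℝ}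
    (ha : a ≤ 2 * h) (hρ : ρ ≤ 2 * r1) : IsClosed ((e j).gr ((e j).near a ρ)) :=
  (End.isCompact_gr (End.isCompact_near (hc.ok j) a ρ)
    ((G.wan j).continuousOn.mono ((e j).near_mono ha hρ))).isClosed

theorem circ_near (hc : IsCurve P Γ e) (j : ι) {a ρ : ℝ} (ha : 0 < a) (hρ : 0 < ρ) :
    (e j).circ ⊆ (e j).near a ρ :=
  (End.circ_subset_nearO (hc.ok j) ha hρ).trans ((e j).nearO_subset_near le_rfl le_rfl)

theorem ring_conn (c : ℂ) {a b : ℝ} (ha : 0 < a) :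
    IsPreconnected (ball c b \ closedBall c a) := by
  have : ball c b \ closedBall c a =
      (fun p : ℝ × ℝ => circleMap c p.1 p.2) '' (Ioo a b ×ˢ univ) := by
    ext z
    simp only [Set.mem_sdiff, mem_ball, mem_closedBall, not_le]
    refine ⟨fun hz => ?_, ?_⟩
    · have h1 : z ∈ sphere c |dist z c| := by rw [abs_of_nonneg dist_nonneg]; rfl
      rw [← range_circleMap] at h1
      obtain ⟨θ, h2⟩ := h1
      exact ⟨(dist z c, θ), ⟨⟨hz.2, hz.1⟩, trivial⟩, h2⟩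
    · rintro ⟨p, hp, rfl⟩
      have h1 : dist (circleMap c p.1 p.2) c = p.1 :=
        circleMap_mem_sphere c (ha.trans hp.1.1).le p.2
      show dist (circleMap c p.1 p.2) c < b ∧ a < dist (circleMap c p.1 p.2) c
      rw [h1]; exact ⟨hp.1.2, hp.1.1⟩
  rw [this]
  refine (isPreconnected_Ioo.prod isPreconnected_univ).image _ (Continuous.continuousOn ?_)
  unfold circleMap; fun_prop

theorem collar_conn {f : End} (hf : f.ok) {a ρ a' ρ' : ℝ} (ha : 0 < a) (hρ : 0 < ρ) :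
    IsPreconnected {z | (z ∈ f.nearO a' ρ' ∧ f.side z) ∧ z ∉ f.near a ρ} := by
  by_cases hk : f.k = Kind.pt
  · have : {z | (z ∈ f.nearO a' ρ' ∧ f.side z) ∧ z ∉ f.near a ρ} =
        ball f.c ρ' \ closedBall f.c ρ := by
      ext z
      rw [End.nearO_pt hk, End.near_pt hk]
      exact ⟨fun h => ⟨h.1.1, h.2⟩, fun h => ⟨⟨h.1, End.side_pt hk z⟩, h.2⟩⟩
    rw [this]; exact ring_conn _ hρ
  · have hr := hf.pos hk
    have : {z | (z ∈ f.nearO a' ρ' ∧ f.side z) ∧ z ∉ f.near a ρ} = f.ann (Ioo a a') := by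
      ext z
      rw [End.nearO_loop hk, End.near_loop hk]
      refine ⟨fun h => ⟨h.1.1.1, ?_, h.1.1.2.2⟩, fun h => ⟨⟨⟨h.1, ?_, h.2.2⟩, ?_⟩, fun b => ?_⟩⟩
      · have h0 := (End.side_iff hk hr h.1.1.1).1 h.1.2
        by_contra h1
        exact h.2 ⟨h.1.1.1, by linarith, not_lt.1 h1⟩
      · linarith [h.2.1, h.2.2]
      · exact (End.side_iff hk hr h.1).2 (by linarith [h.2.1])
      · linarith [b.2.2, h.2.1]
    rw [this]; exact End.isPreconnected_ann hr isPreconnected_Ioo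

theorem not_loops (hc : IsCurve P Γ e) {a ρ : ℝ} (ha : 0 < a) (hρ : 0 < ρ) {y : E}
    (hy : ∀ j, y ∉ (e j).gr ((e j).near a ρ)) : y ∉ loops e :=
  fun ⟨j, _, b⟩ => hy j ((e j).gr_mono (circ_near hc j ha hρ) b)

theorem graphs [Fintype ι] (hc : IsCurve P Γ e) (G : Geo P Γ e Sig r1 h) {a ρ ρ' : ℝ} (ha : 0 < a)
    (ha' : a ≤ 2 * h) (hρ : 0 ≤ ρ) (h0 : 0 < ρ') (h1 : ρ' ≤ 2 * r1) :
    Graphs Γ (reg Γ e Sig a ρ ρ') := by
  rintro y ⟨y1, y2, y3⟩
  have hw : dw P y ≠ 0 := fun b => by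
    have := y2 y.1 (G.br ⟨y, y1, b, rfl⟩)
    rw [sub_self, norm_zero] at this
    exact absurd hρ (not_le.2 this)
  obtain ⟨g, g1, g2, g3, g4⟩ := hc.chart y1 (not_loops hc ha h0 y3) hw
  refine ⟨g, g1, g2, ?_, g4.mono fun x b => b.1⟩
  have h6 : Tendsto (fun z : ℂ => ((z, g z) : E)) (𝓝 y.1) (𝓝 y) := by
    have : ContinuousAt (fun z : ℂ => ((z, g z) : E)) y.1 := continuousAt_id.prodMk g1.continuousAt
    rwa [ContinuousAt, g2] at this
  have h7 : ∀ᶠ z in 𝓝 y.1, ∀ b ∈ Sig, ρ < ‖z - b‖ :=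
    (eventually_all_finset Sig).2 fun b hb =>
      (isOpen_lt continuous_const (by fun_prop : Continuous fun z : ℂ => ‖z - b‖)).mem_nhds (y2 b hb)
  have h8 : ∀ᶠ x in 𝓝 y, ∀ j, x ∉ (e j).gr ((e j).near a ρ') :=
    eventually_all.2 fun j => (closed_gr hc G j ha' h1).isOpen_compl.mem_nhds (y3 j)
  filter_upwards [g3, h7, h6.eventually h8] with z b c d using ⟨b, c, d⟩

theorem core_cpt (hc : IsCurve P Γ e) (G : Geo P Γ e Sig r1 h) {a ρ : ℝ} (ha : a ≤ 2 * h)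
    (hρ : ρ ≤ 2 * r1) : IsCompact (core Γ e Sig ρ a) := by
  choose N hN hN' using fun j => relopen G j (End.isOpen_nearO (hc.ok j) a ρ)
    ((e j).nearO_subset_near ha hρ)
  have : core Γ e Sig ρ a = Γ ∩ ((⋂ b ∈ Sig, {y : E | ρ ≤ ‖y.1 - b‖}) ∩ ⋂ j, (N j)ᶜ) := by
    ext y
    simp only [core, mem_inter_iff, mem_iInter, mem_compl_iff, Set.mem_ofPred_eq]
    exact ⟨fun b => ⟨b.1, b.2.1, fun j c => b.2.2 j ((hN' j y b.1).1 c)⟩,
      fun b => ⟨b.1, b.2.1, fun j c => b.2.2 j ((hN' j y b.1).2 c)⟩⟩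
  rw [this]
  exact hc.cpt.inter_right ((isClosed_biInter fun b _ =>
    isClosed_le continuous_const (by fun_prop)).inter
      (isClosed_iInter fun j => (hN j).isClosed_compl))

end REG

theorem st_reg (hF : St_FIB) (hP : St_PUNC) (hC : St_COLLAR) : St_REG := by
  intro ι _ P Γ e Sig r1 h hc G
  refine ⟨fun a ρ' ha ha' h0 h1 => ⟨?_, fun ρ hρ => REG.graphs hc G ha ha'.le hρ h0 h1.le⟩,
    fun a ρ _ ha _ hρ => REG.core_cpt hc G ha hρ⟩
  obtain ⟨⟨D, hD⟩, -⟩ := hF ι P Γ e hc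
  have hT : {y : E | y ∈ Γ ∧ y.1 ∈ Sig}.Finite := by
    refine (Sig.finite_toSet.biUnion fun b _ =>
      (hD b).1.image fun w => ((b, w) : E)).subset fun y hy => ?_
    exact mem_biUnion hy.2 ⟨y.2, hy.1, rfl⟩
  choose N hN hN' using fun j => REG.relopen G j (End.isOpen_nearO (hc.ok j) (2 * h) (2 * r1))
    ((e j).nearO_subset_near le_rfl le_rfl)
  have key := hC ι _ N (fun j => (e j).gr ((e j).near a ρ')) (hP ι P Γ e _ hc hT) hN
    (fun j => REG.closed_gr hc G j ha'.le h1.le)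
    (fun j y hy => (hN' j y hy.1.1.1).2 ((e j).gr_mono ((e j).near_subset_nearO ha' h1) hy.2))
    (fun i j hij => Set.disjoint_left.2 fun y b c => Set.disjoint_left.1 (G.disj hij)
      ((e i).gr_mono ((e i).nearO_subset_near le_rfl le_rfl) ((hN' i y b.1.1.1).1 b.2))
      ((e j).gr_mono ((e j).nearO_subset_near le_rfl le_rfl) ((hN' j y c.1.1.1).1 c.2)))
    (fun j => by
      have hs := (e j).nearO_subset_near (le_refl (2 * h)) (le_refl (2 * r1))
      have : ((Γ \ loops e) \ {y : E | y ∈ Γ ∧ y.1 ∈ Sig} ∩ N j) \ (e j).gr ((e j).near a ρ') =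
          (e j).gr {z | (z ∈ (e j).nearO (2 * h) (2 * r1) ∧ (e j).side z) ∧
            z ∉ (e j).near a ρ'} := by
        ext y
        refine ⟨fun b => ?_, fun b => ?_⟩
        · have b1 := (hN' j y b.1.1.1.1).1 b.1.2
          have hy' : y = (y.1, (e j).w y.1) := Prod.ext rfl b1.2
          exact ⟨⟨⟨b1.1, (G.mem j (hs b1.1)).1 (hy' ▸ b.1.1.1.1)⟩, fun c => b.2 ⟨c, b1.2⟩⟩, b1.2⟩
        · have hy' : y = (y.1, (e j).w y.1) := Prod.ext rfl b.2
          have y1 : y ∈ Γ := hy' ▸ (G.mem j (hs b.1.1.1)).2 b.1.1.2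
          refine ⟨⟨⟨⟨y1, ?_⟩, fun c => ?_⟩, (hN' j y y1).2 ⟨b.1.1.1, b.2⟩⟩, fun c => b.1.2 c.1⟩
          · rintro ⟨i, -, c⟩
            by_cases hij : i = j
            · subst hij
              exact b.1.2 (REG.circ_near hc i ha h0 c.1)
            · exact Set.disjoint_left.1 (G.disj hij)
                ((e i).gr_mono (REG.circ_near hc i (by linarith) (by linarith)) c)
                ⟨hs b.1.1.1, b.2⟩
          · have := G.sig j y.1 (hs b.1.1.1) y.1 c.2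
            rw [sub_self, norm_zero] at this
            linarith
      rw [this]
      exact End.isPreconnected_gr (REG.collar_conn (hc.ok j) ha h0)
        ((G.wan j).continuousOn.mono fun z hz => hs hz.1.1))
  have : reg Γ e Sig a 0 ρ' =
      ((Γ \ loops e) \ {y : E | y ∈ Γ ∧ y.1 ∈ Sig}) \ ⋃ j, (e j).gr ((e j).near a ρ') := by
    ext y
    refine ⟨fun b => ⟨⟨⟨b.1, REG.not_loops hc ha h0 b.2.2⟩, fun c => ?_⟩, fun c => ?_⟩,
      fun b => ⟨b.1.1.1, fun c hc' => ?_, fun j c => b.2 (mem_iUnion.2 ⟨j, c⟩)⟩⟩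
    · simpa using b.2.1 y.1 c.2
    · obtain ⟨j, c⟩ := mem_iUnion.1 c
      exact b.2.2 j c
    · exact norm_pos_iff.2 (sub_ne_zero.2 fun d => b.1.2 ⟨b.1.1.1, d ▸ hc'⟩)
  rw [this]; exact key

end Pool.Agent.CF
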