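import Pool.Agent.Lib.CF.Blue

open Set Metric Filter Topology

namespace Pool.Agent.CF

namespace Shell

lemma step1 (A S : Set E) (hA : IsCompact A)
    (H : ∀ y0 ∈ A, ∀ᶠ p : E × E in 𝓝 (y0, y0), p.1 ∈ A → p.2 ∈ S → p.1.1 = p.2.1 → p.1 = p.2) :
    ∃ τ0 > 0, ∀ y ∈ A, ∀ x ∈ S, y.1 = x.1 → ‖x.2 - y.2‖ ≤ τ0 → y = x := by
  have hD : IsCompact ((fun y : E => (y, y)) '' A) := hA.image (by fun_prop)
  have hs : (fun y : E => (y, y)) '' A ⊆
      interior {p : E × E | p.1 ∈ A → p.2 ∈ S → p.1.1 = p.2.1 → p.1 = p.2} := by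
    rintro _ ⟨y, hy, rfl⟩
    exact mem_interior_iff_mem_nhds.2 (H y hy)
  obtain ⟨δ, hδ, hsub⟩ := hD.exists_cthickening_subset_open isOpen_interior hs
  refine ⟨δ, hδ, fun y hy x hx h1 h2 => ?_⟩
  have hm : (y, x) ∈ cthickening δ ((fun y : E => (y, y)) '' A) := by
    refine mem_cthickening_of_dist_le (y, x) (y, y) δ _ ⟨y, hy, rfl⟩ ?_
    rw [Prod.dist_eq, Prod.dist_eq (x := x), dist_self, ← h1, dist_self, dist_eq_norm]
    exact max_le hδ.le (max_le hδ.le h2)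
  exact interior_subset (hsub hm) hy hx h1

lemma step2 (A S : Set E) (hA : IsCompact A) (hS : IsCompact S) (a τ0 : ℝ)
    (H : ∀ y ∈ A, ∀ x ∈ S, y.1 = x.1 → ‖x.2 - y.2‖ ≤ τ0 → ‖x.2 - y.2‖ < a) :
    ∃ R0 > 0, ∀ x ∈ thickening R0 S, ∀ y ∈ A, y.1 = x.1 → ‖x.2 - y.2‖ ≤ τ0 → ‖x.2 - y.2‖ < a := by
  have hV : IsCompact {v : ℂ | a ≤ ‖v‖ ∧ ‖v‖ ≤ τ0} := by
    refine (isCompact_closedBall (0 : ℂ) τ0).of_isClosed_subset
      ((isClosed_le continuous_const continuous_norm).inter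
        (isClosed_le continuous_norm continuous_const)) fun v hv => ?_
    exact mem_closedBall_zero_iff.2 hv.2
  have hT : IsCompact ((fun p : E × ℂ => ((p.1.1, p.1.2 + p.2) : E)) ''
      (A ×ˢ {v : ℂ | a ≤ ‖v‖ ∧ ‖v‖ ≤ τ0})) := (hA.prod hV).image (by fun_prop)
  obtain ⟨δ, hδ, hsub⟩ := hS.exists_thickening_subset_open hT.isClosed.isOpen_compl (by
    rintro _ hx ⟨⟨y, v⟩, ⟨hy, hv⟩, rfl⟩
    have h1 := H y hy _ hx rfl (by simpa using hv.2)
    simp only [add_sub_cancel_left] at h1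
    exact absurd hv.1 (not_le.2 h1))
  refine ⟨δ, hδ, fun x hx y hy h1 h2 => ?_⟩
  by_contra h3
  refine hsub hx ⟨(y, x.2 - y.2), ⟨hy, not_lt.1 h3, h2⟩, ?_⟩
  exact Prod.ext h1 (by simp)

lemma poly_an {P : E → ℂ} (h : IsPoly P) (y : E) : AnalyticAt ℂ P y := by
  induction h with
  | const a => exact analyticAt_const
  | fst => exact analyticAt_fst
  | snd => exact analyticAt_snd
  | add _ _ h1 h2 => exact h1.add h2
  | mul _ _ h1 h2 => exact h1.mul h2

lemma dw_eq {P : E → ℂ} {y : E} (h : DifferentiableAt ℂ P y) : dw P y = fderiv ℂ P y (0, 1) := by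
  have h1 : HasDerivAt (fun w : ℂ => ((y.1, w) : E)) (0, 1) y.2 :=
    (hasDerivAt_const y.2 y.1).prodMk (hasDerivAt_id y.2)
  exact (h.hasFDerivAt.comp_hasDerivAt_of_eq y.2 h1 rfl).deriv

lemma inj_near {P : E → ℂ} {y0 : E} (h : AnalyticAt ℂ P y0) (hd : dw P y0 ≠ 0) :
    ∀ᶠ p : E × E in 𝓝 (y0, y0), P p.1 = P p.2 → p.1.1 = p.2.1 → p.1 = p.2 := by
  have hpos : 0 < ‖dw P y0‖ / 2 := half_pos (norm_pos_iff.2 hd)
  filter_upwards [h.hasStrictFDerivAt.isLittleO.bound hpos] with p hp h1 h2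
  have e : p.1 - p.2 = (p.1.2 - p.2.2) • ((0, 1) : E) := Prod.ext (by simp [h2]) (by simp)
  rw [h1, sub_self, zero_sub, norm_neg, e, map_smul, ← dw_eq h.differentiableAt, norm_smul,
    norm_smul] at hp
  have e1 : ‖((0, 1) : E)‖ = 1 := by simp [Prod.norm_def]
  rw [e1, mul_one] at hp
  have h3 : ‖p.1.2 - p.2.2‖ = 0 := by
    by_contra h4
    have h5 : 0 < ‖p.1.2 - p.2.2‖ := lt_of_le_of_ne (norm_nonneg _) (Ne.symm h4)
    nlinarith [mul_pos h5 hpos]
  exact Prod.ext h2 (sub_eq_zero.1 (norm_eq_zero.1 h3))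

lemma ann_cpt (e : End) (hr : 0 < e.r) (a b : ℝ) : IsCompact (e.ann (Icc a b)) := by
  have hcn : Continuous fun z : ℂ => ‖z - e.c‖ / e.r := by fun_prop
  have key : ∀ a b : ℝ, IsCompact {z : ℂ | z ≠ e.c ∧ Real.log (‖z - e.c‖ / e.r) ∈ Icc a b} := by
    intro a b
    have e1 : {z : ℂ | z ≠ e.c ∧ Real.log (‖z - e.c‖ / e.r) ∈ Icc a b} =
        {z : ℂ | Real.exp a ≤ ‖z - e.c‖ / e.r ∧ ‖z - e.c‖ / e.r ≤ Real.exp b} := by
      ext z
      constructor
      · rintro ⟨h1, h2, h3⟩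
        have hp : 0 < ‖z - e.c‖ / e.r := div_pos (norm_pos_iff.2 (sub_ne_zero.2 h1)) hr
        exact ⟨(Real.le_log_iff_exp_le hp).1 h2, (Real.log_le_iff_le_exp hp).1 h3⟩
      · rintro ⟨h1, h2⟩
        have hp : 0 < ‖z - e.c‖ / e.r := (Real.exp_pos a).trans_le h1
        refine ⟨?_, (Real.le_log_iff_exp_le hp).2 h1, (Real.log_le_iff_le_exp hp).2 h2⟩
        rintro rfl
        simp at hp
    rw [e1]
    refine (isCompact_closedBall e.c (Real.exp b * e.r)).of_isClosed_subset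
      ((isClosed_le continuous_const hcn).inter (isClosed_le hcn continuous_const)) fun z hz => ?_
    exact mem_closedBall_iff_norm.2 ((div_le_iff₀ hr).1 hz.2)
  by_cases hk : e.k = Kind.out
  · have e2 : e.ann (Icc a b) =
        {z : ℂ | z ≠ e.c ∧ Real.log (‖z - e.c‖ / e.r) ∈ Icc (-b) (-a)} := by
      ext z
      simp only [End.ann, End.dep, End.sgn, if_pos hk, mem_setOf_eq, mem_Icc]
      push_cast
      constructor
      · rintro ⟨h1, h2, h3⟩
        exact ⟨h1, by linarith, by linarith⟩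
      · rintro ⟨h1, h2, h3⟩
        exact ⟨h1, by linarith, by linarith⟩
    rw [e2]
    exact key _ _
  · have e2 : e.ann (Icc a b) = {z : ℂ | z ≠ e.c ∧ Real.log (‖z - e.c‖ / e.r) ∈ Icc a b} := by
      ext z
      simp only [End.ann, End.dep, End.sgn, if_neg hk, mem_setOf_eq, mem_Icc, Int.cast_one,
        one_mul]
    rw [e2]
    exact key _ _

lemma gr_cpt (e : End) (A : Set ℂ) (hA : IsCompact A) (hw : ContinuousOn e.w A) :
    IsCompact (e.gr A) := by
  have e1 : e.gr A = (fun z => ((z, e.w z) : E)) '' A := by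
    ext y
    constructor
    · rintro ⟨h1, h2⟩
      exact ⟨y.1, h1, Prod.ext rfl h2.symm⟩
    · rintro ⟨z, hz, rfl⟩
      exact ⟨hz, rfl⟩
  rw [e1]
  exact hA.image_of_continuousOn (continuousOn_id.prodMk hw)

lemma dep_nonneg (e : End) (hk : e.k ≠ Kind.pt) (hr : 0 < e.r) (z : ℂ) (hs : e.side z) :
    0 ≤ e.dep z := by
  unfold End.dep End.sgn
  by_cases ho : e.k = Kind.out
  · rw [if_pos ho]
    have h1 := Real.log_nonpos (div_nonneg (norm_nonneg (z - e.c)) hr.le)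
      ((div_le_one hr).2 (hs.1 ho))
    push_cast
    linarith
  · rw [if_neg ho]
    have hi : e.k = Kind.inn := by
      cases h : e.k
      · exact absurd h ho
      · rfl
      · exact absurd h hk
    have h1 := Real.log_nonneg ((one_le_div hr).2 (hs.2 hi))
    push_cast
    linarith

end Shell

theorem st_shell : St_SHELL := by
  intro ι _ P Γ Γ' e Sig r1 h hc hg hΓ'
  have hS : IsCompact (Γ ∪ Γ') := hc.cpt.union hΓ'
  have hsnd : ∀ y0 : E, Tendsto (fun p : E × E => p.2) (𝓝 (y0, y0)) (𝓝 y0) :=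
    fun y0 => continuous_snd.continuousAt
  refine ⟨fun hI ρ hρ => ?_, fun j hj => ?_⟩
  · have hA : IsCompact {y : E | y ∈ Γ ∧ ∀ b ∈ Sig, ρ ≤ ‖y.1 - b‖} := by
      refine hc.cpt.inter_right (t := {y : E | ∀ b ∈ Sig, ρ ≤ ‖y.1 - b‖}) ?_
      simp only [setOf_forall]
      exact isClosed_iInter fun b => isClosed_iInter fun _ =>
        isClosed_le continuous_const (by fun_prop)
    obtain ⟨τ0, hτ0, H⟩ := Shell.step1 _ (Γ ∪ Γ') hA (by
      rintro y0 ⟨h1, h2⟩
      have hn : y0.1 ∉ Sig := fun hb => by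
        have h3 := h2 _ hb
        rw [sub_self, norm_zero] at h3
        exact absurd hρ (not_lt.2 h3)
      have hd : dw P y0 ≠ 0 := fun hd => hn (hg.br ⟨y0, h1, hd, rfl⟩)
      have hn' : y0 ∈ Γ'ᶜ := fun hy => hn (hI y0 h1 hy)
      filter_upwards [Shell.inj_near (Shell.poly_an hc.poly y0) hd,
        hsnd y0 (hΓ'.isClosed.isOpen_compl.mem_nhds hn')] with p p1 p2 q1 q2 q3
      rcases q2 with q2 | q2
      · exact p1 (by rw [hc.zero _ q1.1, hc.zero _ q2]) q3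
      · exact absurd q2 p2)
    refine ⟨τ0, hτ0, fun τ' hτ' => ?_⟩
    obtain ⟨R0, hR0, H2⟩ := Shell.step2 _ _ hA hS τ' τ0 fun y hy x hx h1 h2 => by
      rw [H y hy x hx h1 h2, sub_self, norm_zero]
      exact hτ'
    exact ⟨R0, hR0, fun x hx y hy hb => H2 x hx y ⟨hy, hb⟩⟩
  · have hok := hc.ok j
    have hN : IsCompact ((e j).near (2 * h) (2 * r1)) := by
      unfold End.near
      unfold End.ok at hok
      split_ifs at hok ⊢ with hk
      · exact isCompact_closedBall _ _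
      · exact Shell.ann_cpt _ hok _ _
    have hA := Shell.gr_cpt (e j) _ hN (hg.wan j).continuousOn
    obtain ⟨τ0, hτ0, H⟩ := Shell.step1 _ (Γ ∪ Γ') hA (by
      rintro y0 hy0
      have hn' : y0 ∈ Γ'ᶜ := fun hy => Set.disjoint_left.1 hj hy hy0
      have e0 : (y0.1, (e j).w y0.1) = y0 := Prod.ext rfl hy0.2.symm
      have hl := hg.loc j y0.1 hy0.1
      rw [e0] at hl
      filter_upwards [hsnd y0 hl,
        hsnd y0 (hΓ'.isClosed.isOpen_compl.mem_nhds hn')] with p p1 p2 q1 q2 q3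
      rcases q2 with q2 | q2
      · exact Prod.ext q3 (by rw [q1.2, q3, (Iff.mp p1 q2).1])
      · exact absurd q2 p2)
    refine ⟨τ0, hτ0, fun τ' hτ' => ?_⟩
    obtain ⟨R0, hR0, H2⟩ := Shell.step2 _ _ hA hS τ' τ0 fun y hy x hx h1 h2 => by
      rw [H y hy x hx h1 h2, sub_self, norm_zero]
      exact hτ'
    by_cases hk : (e j).k = Kind.pt
    · exact ⟨R0, hR0, fun x hx h1 h2 =>
        ⟨H2 x hx (x.1, (e j).w x.1) ⟨h1, rfl⟩ rfl h2, fun h3 => absurd hk h3⟩⟩
    · have hr : 0 < (e j).r := by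
        unfold End.ok at hok
        rwa [if_neg hk] at hok
      have hne : (e j).near (2 * h) (2 * r1) = (e j).ann (Icc (-(2 * h)) (2 * h)) := by
        unfold End.near
        rw [if_neg hk]
      have hsub : (e j).ann (Icc (-(2 * h)) (-τ')) ⊆ (e j).near (2 * h) (2 * r1) := by
        rw [hne]
        exact fun z hz => ⟨hz.1, hz.2.1, hz.2.2.trans (by linarith [hg.hpos])⟩
      have hA' := Shell.gr_cpt (e j) _ (Shell.ann_cpt _ hr (-(2 * h)) (-τ'))
        ((hg.wan j).continuousOn.mono hsub)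
      obtain ⟨R1, hR1, H3⟩ := Shell.step2 _ _ hA' hS 0 τ0 fun y hy x hx h1 h2 => by
        exfalso
        have hy' : y ∈ (e j).gr ((e j).near (2 * h) (2 * r1)) := ⟨hsub hy.1, hy.2⟩
        have e1 := H y hy' x hx h1 h2
        rw [← e1] at hx
        rcases hx with hx | hx
        · have e0 : (y.1, (e j).w y.1) = y := Prod.ext rfl hy.2.symm
          have hl := (hg.loc j y.1 hy'.1).self_of_nhds
          rw [e0] at hl
          have h4 := Shell.dep_nonneg _ hk hr _ (hl.1 hx).2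
          have h5 := hy.1.2.2
          linarith
        · exact Set.disjoint_left.1 hj hx hy'
      refine ⟨min R0 R1, lt_min hR0 hR1, fun x hx h1 h2 =>
        ⟨H2 x (thickening_mono (min_le_left _ _) _ hx) (x.1, (e j).w x.1) ⟨h1, rfl⟩ rfl h2,
          fun _ => ?_⟩⟩
      by_contra h4
      rw [hne] at h1
      have h5 := H3 x (thickening_mono (min_le_right _ _) _ hx) (x.1, (e j).w x.1)
        ⟨⟨h1.1, h1.2.1, not_lt.1 h4⟩, rfl⟩ rfl h2
      exact absurd h5 (not_lt.2 (norm_nonneg _))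

end Pool.Agent.CF
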