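import Pool.Agent.Lib.CF.Blue

open Set Metric Filter Topology

namespace Pool.Agent.CF

namespace SMMP

theorem avg_re {H : ℂ → ℂ} {c : ℂ} {r : ℝ} (hr : 0 < r) (hH : AnalyticOnNhd ℂ H (closedBall c r)) :
    CircleIntegrable (fun z => (H z).re) c r ∧
      Real.circleAverage (fun z => (H z).re) c r = (H c).re := by
  have ha : |r| = r := abs_of_pos hr
  have hc : ContinuousOn H (sphere c |r|) := by
    rw [ha]
    exact hH.continuousOn.mono sphere_subset_closedBall
  have hi : CircleIntegrable H c r := hc.circleIntegrable'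
  refine ⟨(Complex.continuous_re.comp_continuousOn hc).circleIntegrable', ?_⟩
  have h1 := Complex.reCLM.circleAverage_comp_comm hi
  have h2 : DiffContOnCl ℂ H (ball c |r|) := by
    rw [ha]
    refine DifferentiableOn.diffContOnCl ?_
    rw [closure_ball c hr.ne']
    exact hH.differentiableOn
  rw [h2.circleAverage] at h1
  exact h1

theorem intu (hU : St_USC) {u : ℂ → ℝ} {U : Set ℂ} (hu : SM u U) {c : ℂ} {r : ℝ} (hr : 0 < r)
    (hs : sphere c r ⊆ U) : CircleIntegrable u c r := by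
  obtain ⟨B, hB⟩ := hu.bdd
  exact (hU c r u B hr (hu.usc.mono hs) fun z hz => hB z (hs hz)).1

end SMMP

open SMMP in
theorem st_smmp (hU : St_USC) : St_SMMP := by
  intro u h U W _ hu hW hWU hh hL hb z0 hz0
  by_contra hlt
  rw [not_le] at hlt
  obtain ⟨R, hR⟩ := hW.isBounded.exists_norm_le
  have hR0 : 0 ≤ R := (norm_nonneg _).trans (hR z0 hz0)
  set η : ℝ := (u z0 - h z0) / (R ^ 2 + 1) with hη
  have hd : 0 < R ^ 2 + 1 := by positivity
  have hη0 : 0 < η := div_pos (by linarith) hd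
  have hη1 : η * (R ^ 2 + 1) = u z0 - h z0 := div_mul_cancel₀ _ hd.ne'
  have hF : UpperSemicontinuousOn (fun z => u z + (η * ‖z‖ ^ 2 - h z)) W :=
    (hu.usc.mono hWU).add (ContinuousOn.upperSemicontinuousOn
      ((by fun_prop : Continuous fun z : ℂ => η * ‖z‖ ^ 2).continuousOn.sub hh))
  obtain ⟨z1, hz1, hm⟩ := hF.exists_isMaxOn ⟨z0, hz0⟩ hW
  have hm' : ∀ z ∈ W, u z + (η * ‖z‖ ^ 2 - h z) ≤ u z1 + (η * ‖z1‖ ^ 2 - h z1) := fun z hz => hm hz
  have hin : z1 ∈ interior W := by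
    by_contra hn
    have h1 := hb z1 hz1 hn
    have h2 := hm' z0 hz0
    have h3 : ‖z1‖ ^ 2 ≤ R ^ 2 := pow_le_pow_left₀ (norm_nonneg _) (hR z1 hz1) 2
    have h4 : η * ‖z1‖ ^ 2 ≤ η * R ^ 2 := mul_le_mul_of_nonneg_left h3 hη0.le
    have h5 : 0 ≤ η * ‖z0‖ ^ 2 := by positivity
    nlinarith
  obtain ⟨G, hG, hGe⟩ := hL z1 hin
  have hev : ∀ᶠ x in 𝓝 z1, x ∈ W ∧ AnalyticAt ℂ G x ∧ h x = (G x).re :=
    (show ∀ᶠ x in 𝓝 z1, x ∈ W from mem_interior_iff_mem_nhds.1 hin).and
      (hG.eventually_analyticAt.and hGe)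
  obtain ⟨ρ, hρ, hball⟩ := Metric.eventually_nhds_iff_ball.1 hev
  have hsm : ∀ᶠ r in 𝓝[>] (0 : ℝ), r ∈ Ioo 0 ρ := Ioo_mem_nhdsGT hρ
  obtain ⟨r, hr, hur⟩ := (hsm.and (hu.sub z1 (hWU hz1))).exists
  have hcb : closedBall z1 r ⊆ ball z1 ρ := closedBall_subset_ball hr.2
  let M : ℝ := u z1 + (η * ‖z1‖ ^ 2 - h z1) - η * (‖z1‖ ^ 2 + r ^ 2)
  let H : ℂ → ℂ := fun z => G z - (η : ℂ) * (2 * (starRingEnd ℂ) z1 * (z - z1)) + (M : ℂ)
  have hH : AnalyticOnNhd ℂ H (closedBall z1 r) := fun z hz =>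
    ((hball z (hcb hz)).2.1.sub (by fun_prop)).add analyticAt_const
  obtain ⟨hi, hav⟩ := avg_re hr.1 hH
  have hiu : CircleIntegrable u z1 r :=
    intu hU hu hr.1 fun z hz => hWU (hball z (hcb (sphere_subset_closedBall hz))).1
  have hle : Real.circleAverage u z1 r ≤ Real.circleAverage (fun z => (H z).re) z1 r := by
    refine Real.circleAverage_mono hiu hi fun z hz => ?_
    rw [abs_of_pos hr.1] at hz
    obtain ⟨hzW, -, hzh⟩ := hball z (hcb (sphere_subset_closedBall hz))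
    have h1 := hm' z hzW
    have h2 : ‖z - z1‖ = r := mem_sphere_iff_norm.1 hz
    have h3 : ‖z‖ ^ 2 = ‖z1‖ ^ 2 + r ^ 2 + (2 * (starRingEnd ℂ) z1 * (z - z1)).re := by
      rw [← h2]
      simp only [Complex.sq_norm, Complex.normSq_apply, Complex.mul_re, Complex.sub_re,
        Complex.sub_im, Complex.conj_re, Complex.conj_im, Complex.mul_im, Complex.re_ofNat,
        Complex.im_ofNat]
      ring
    have h4 : (H z).re = (G z).re - η * (2 * (starRingEnd ℂ) z1 * (z - z1)).re + M := by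
      simp only [H, Complex.add_re, Complex.sub_re, Complex.ofReal_re, Complex.re_ofReal_mul]
    rw [h4, ← hzh]
    rw [h3] at h1
    simp only [M]
    linarith
  have h5 : (H z1).re = h z1 + M := by
    simp only [H, sub_self, mul_zero, sub_zero, Complex.add_re, Complex.ofReal_re]
    rw [(hball z1 (mem_ball_self hρ)).2.2]
  have h6 : 0 < η * r ^ 2 := mul_pos hη0 (pow_pos hr.1 2)
  rw [hav, h5] at hle
  simp only [M] at hle
  linarith

open SMMP in
theorem st_smd (hU : St_USC) (hT : St_TM) : St_SMD := by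
  intro u U c r hUo hu hr hcU
  obtain ⟨B, hB⟩ := hu.bdd
  have hs : sphere c r ⊆ U := sphere_subset_closedBall.trans hcU
  refine le_of_forall_pos_le_add fun η hη => ?_
  obtain ⟨G, hG1, hG2⟩ := hT c r u B hr (hu.usc.mono hs) (fun z hz => hB z (hs hz)) η hη
  refine le_trans ?_ hG2
  refine st_smmp hU u (fun z => (G.eval z).re) U (closedBall c r) hUo hu (isCompact_closedBall c r)
    hcU (Complex.continuous_re.comp G.continuous).continuousOn ?_ ?_ c (mem_closedBall_self hr.le)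
  · exact fun z _ => ⟨fun x => G.eval x, G.differentiable.analyticAt z, Eventually.of_forall
      fun _ => rfl⟩
  · intro z hz hn
    rw [interior_closedBall c hr.ne'] at hn
    exact hG1 z (le_antisymm hz (not_lt.1 hn))

end Pool.Agent.CF
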