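import Pool.Agent.Lib.CF.Blue

open Set Metric Filter Topology MeasureTheory

namespace Pool.Agent.CF

namespace TC

theorem circInt {u : ℂ → ℝ} {U : Set ℂ} (hu : SM u U) {c : ℂ} {r : ℝ} (hr : 0 ≤ r)
    (hU : sphere c r ⊆ U) : CircleIntegrable u c r := by
  obtain ⟨B, hB⟩ := hu.bdd
  have hm : ∀ θ, circleMap c r θ ∈ U := fun θ => hU (circleMap_mem_sphere c hr θ)
  have h1 : UpperSemicontinuous fun θ => u (circleMap c r θ) := by
    intro θ y hy
    have h2 := hu.usc _ (hm θ) y hy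
    have h3 : Tendsto (circleMap c r) (𝓝 θ) (𝓝[U] circleMap c r θ) :=
      tendsto_nhdsWithin_iff.2 ⟨(continuous_circleMap c r).tendsto θ, Eventually.of_forall hm⟩
    exact h3.eventually h2
  refine (intervalIntegrable_const (c := B)).mono_fun' h1.measurable.aestronglyMeasurable ?_
  exact Eventually.of_forall fun θ => hB _ (hm θ)

/-- solution of the Dirichlet problem on an annulus for the data `f` and `0` -/
def Dir (c : ℂ) (s t : ℝ) (f : ℂ → ℝ) (m : ℝ) : Prop :=
  ∃ h : ℂ → ℝ, ContinuousOn h {c}ᶜ ∧ LRe h {c}ᶜ ∧ (∀ z, ‖z - c‖ = s → h z = f z) ∧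
    (∀ z, ‖z - c‖ = t → h z = 0) ∧
    ∀ r > 0, Real.circleAverage h c r = m * (Real.log (t / r) / Real.log (t / s))

theorem sph {c : ℂ} {r : ℝ} (hr : 0 < r) : sphere c |r| ⊆ {c}ᶜ := by
  intro z hz h
  rw [mem_singleton_iff] at h
  rw [h, mem_sphere, dist_self, abs_of_pos hr] at hz
  exact hr.ne hz

theorem lre_add {f g : ℂ → ℝ} {U : Set ℂ} (hf : LRe f U) (hg : LRe g U) :
    LRe (fun z => f z + g z) U := by
  intro z hz
  obtain ⟨F, h1, h2⟩ := hf z hz
  obtain ⟨G, h3, h4⟩ := hg z hz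
  refine ⟨fun x => F x + G x, h1.add h3, ?_⟩
  filter_upwards [h2, h4] with x a b
  rw [a, b, Complex.add_re]

theorem Dir.add {c : ℂ} {s t : ℝ} {f g : ℂ → ℝ} {m n : ℝ} (hf : Dir c s t f m)
    (hg : Dir c s t g n) : Dir c s t (fun z => f z + g z) (m + n) := by
  obtain ⟨h, a1, a2, a3, a4, a5⟩ := hf
  obtain ⟨k, b1, b2, b3, b4, b5⟩ := hg
  refine ⟨fun z => h z + k z, a1.add b1, lre_add a2 b2, fun z hz => by simp only [a3 z hz, b3 z hz],
    fun z hz => by simp only [a4 z hz, b4 z hz, add_zero], fun r hr => ?_⟩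
  rw [Real.circleAverage_fun_add (a1.mono (sph hr)).circleIntegrable'
    (b1.mono (sph hr)).circleIntegrable', a5 r hr, b5 r hr, add_mul]

theorem dir_const (c : ℂ) {s t : ℝ} (hs : 0 < s) (ht : 0 < t) (hst : s ≠ t) (m : ℝ) :
    Dir c s t (fun _ => m) m := by
  have hL : Real.log (t / s) ≠ 0 := by
    rw [Real.log_div ht.ne' hs.ne', sub_ne_zero]
    exact fun h => hst (Real.log_injOn_pos ht hs h).symm
  refine ⟨fun z => m * (Real.log (t / ‖z - c‖) / Real.log (t / s)), ?_, ?_, ?_, ?_, ?_⟩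
  · intro z hz
    have h0 : ‖z - c‖ ≠ 0 := norm_ne_zero_iff.2 (sub_ne_zero.2 hz)
    refine ContinuousAt.continuousWithinAt ?_
    have h1 : ContinuousAt (fun x : ℂ => t / ‖x - c‖) z :=
      continuousAt_const.div (by fun_prop) h0
    exact continuousAt_const.mul ((h1.log (div_ne_zero ht.ne' h0)).div_const _)
  · intro z hz
    have h0 : z - c ≠ 0 := sub_ne_zero.2 hz
    refine ⟨fun x => ((m / Real.log (t / s) : ℝ) : ℂ) *
      (((Real.log t - Real.log ‖z - c‖ : ℝ) : ℂ) - Complex.log ((x - c) / (z - c))), ?_, ?_⟩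
    · refine analyticAt_const.mul (analyticAt_const.sub (AnalyticAt.clog (by fun_prop) ?_))
      rw [div_self h0]
      exact Complex.one_mem_slitPlane
    · filter_upwards [isOpen_compl_singleton.mem_nhds hz] with x hx
      have h1 : ‖x - c‖ ≠ 0 := norm_ne_zero_iff.2 (sub_ne_zero.2 hx)
      rw [Complex.re_ofReal_mul, Complex.sub_re, Complex.ofReal_re, Complex.log_re, norm_div,
        Real.log_div h1 (norm_ne_zero_iff.2 h0), Real.log_div ht.ne' h1]
      ring
  · intro z hz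
    simp only [hz, div_self hL, mul_one]
  · intro z hz
    simp only [hz, div_self ht.ne', Real.log_one, zero_div, mul_zero]
  · intro r hr
    refine Real.circleAverage_const_on_circle fun z hz => ?_
    rw [mem_sphere, dist_eq_norm, abs_of_pos hr] at hz
    simp only [hz]

theorem dir_mono (c : ℂ) {s t : ℝ} (hs : 0 < s) (ht : 0 < t) (hst : s ≠ t) (a : ℂ) (k : ℕ) :
    Dir c s t (fun z => (a * (z - c) ^ (k + 1)).re) 0 := by
  set n := k + 1 with hn
  have hd : (s ^ (2 * n))⁻¹ - (t ^ (2 * n))⁻¹ ≠ 0 := by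
    rw [sub_ne_zero]
    intro h
    exact hst ((pow_left_inj₀ hs.le ht.le (by omega)).1 (inv_injective h))
  set β : ℝ := ((s ^ (2 * n))⁻¹ - (t ^ (2 * n))⁻¹)⁻¹ with hβ
  refine ⟨fun z => (a * (z - c) ^ n).re * (β * ((‖z - c‖ ^ (2 * n))⁻¹ - (t ^ (2 * n))⁻¹)),
    ?_, ?_, ?_, ?_, ?_⟩
  · intro z hz
    have h0 : ‖z - c‖ ^ (2 * n) ≠ 0 := pow_ne_zero _ (norm_ne_zero_iff.2 (sub_ne_zero.2 hz))
    refine ContinuousAt.continuousWithinAt ?_
    have h1 : ContinuousAt (fun x : ℂ => (‖x - c‖ ^ (2 * n))⁻¹) z :=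
      ContinuousAt.inv₀ (by fun_prop) h0
    exact ContinuousAt.mul (by fun_prop) (continuousAt_const.mul (h1.sub continuousAt_const))
  · intro z hz
    have h0 : (z - c) ^ n ≠ 0 := pow_ne_zero _ (sub_ne_zero.2 hz)
    refine ⟨fun x => (β : ℂ) * ((starRingEnd ℂ) a * ((x - c) ^ n)⁻¹ -
      (((t ^ (2 * n))⁻¹ : ℝ) : ℂ) * (a * (x - c) ^ n)), ?_, ?_⟩
    · have h2 : AnalyticAt ℂ (fun x : ℂ => (x - c) ^ n) z := by fun_prop
      exact analyticAt_const.mul ((analyticAt_const.mul (h2.inv h0)).sub (by fun_prop))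
    · refine Eventually.of_forall fun x => ?_
      have h1 : ((starRingEnd ℂ) a * ((x - c) ^ n)⁻¹).re =
          (a * (x - c) ^ n).re * (‖x - c‖ ^ (2 * n))⁻¹ := by
        rw [Complex.inv_def, ← mul_assoc, ← map_mul, Complex.re_mul_ofReal, Complex.conj_re,
          Complex.normSq_eq_norm_sq, norm_pow, ← pow_mul, mul_comm n 2]
      rw [Complex.re_ofReal_mul, Complex.sub_re, Complex.re_ofReal_mul, h1]
      ring
  · intro z hz
    simp only [hz, hβ, inv_mul_cancel₀ hd, mul_one]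
  · intro z hz
    simp only [hz, sub_self, mul_zero]
  · intro r hr
    have h1 : Real.circleAverage (fun z => a * (z - c) ^ n) c r = 0 := by
      have : DiffContOnCl ℂ (fun z => a * (z - c) ^ n) (ball c |r|) :=
        Differentiable.diffContOnCl (by fun_prop)
      rw [this.circleAverage]
      simp [hn]
    have h2 := Complex.reCLM.circleAverage_comp_comm (f := fun z => a * (z - c) ^ n) (c := c)
      (R := r) (ContinuousOn.circleIntegrable' (by fun_prop))
    rw [h1, map_zero] at h2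
    rw [zero_mul, Real.circleAverage_congr_sphere (f₂ := fun z =>
      (β * ((r ^ (2 * n))⁻¹ - (t ^ (2 * n))⁻¹)) • (Complex.reCLM ∘ fun z => a * (z - c) ^ n) z),
      Real.circleAverage_fun_smul, h2, smul_zero]
    intro z hz
    rw [mem_sphere, dist_eq_norm, abs_of_pos hr] at hz
    simp only [hz, Function.comp, Complex.reCLM_apply, smul_eq_mul]
    ring

theorem dir_poly (c : ℂ) {s t : ℝ} (hs : 0 < s) (ht : 0 < t) (hst : s ≠ t) (q : Polynomial ℂ) :
    Dir c s t (fun z => (q.eval (z - c)).re) (q.eval 0).re := by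
  induction q using Polynomial.induction_on' with
  | add p q hp hq => simpa only [Polynomial.eval_add, Complex.add_re] using hp.add hq
  | monomial n a =>
    cases n with
    | zero => simpa using dir_const c hs ht hst a.re
    | succ k => simpa [Polynomial.eval_monomial] using dir_mono c hs ht hst a k

theorem dir_poly' (c : ℂ) {s t : ℝ} (hs : 0 < s) (ht : 0 < t) (hst : s ≠ t) (q : Polynomial ℂ) :
    Dir c s t (fun z => (q.eval z).re) (q.eval c).re := by
  simpa [Polynomial.taylor_eval] using dir_poly c hs ht hst (Polynomial.taylor c q)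

end TC

open TC in
theorem st_tc (hT : St_TM) (hM : St_SMMP) : St_TC := by
  intro u U c r0 r r1 hU hu h0 h01 h1 hW
  have hr : 0 < r := h0.trans h01
  have hr1 : 0 < r1 := hr.trans h1
  have hlt : r0 < r1 := h01.trans h1
  obtain ⟨B, hB⟩ := hu.bdd
  have hs : ∀ ρ, r0 ≤ ρ → ρ ≤ r1 → sphere c ρ ⊆ {z | r0 ≤ ‖z - c‖ ∧ ‖z - c‖ ≤ r1} := by
    intro ρ a b z hz
    rw [mem_sphere, dist_eq_norm] at hz
    simp only [mem_ofPred_eq, hz, a, b, and_self]
  have hL : 0 < Real.log (r1 / r0) := Real.log_pos ((one_lt_div h0).2 hlt)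
  have hA : 0 < Real.log (r1 / r) := Real.log_pos ((one_lt_div hr).2 h1)
  have hC : 0 < Real.log (r / r0) := Real.log_pos ((one_lt_div h0).2 h01)
  have hsum : Real.log (r1 / r) + Real.log (r / r0) = Real.log (r1 / r0) := by
    rw [Real.log_div hr1.ne' hr.ne', Real.log_div hr.ne' h0.ne', Real.log_div hr1.ne' h0.ne']
    ring
  refine le_of_forall_pos_le_add fun ε hε => ?_
  have hη : 0 < ε / Real.log (r1 / r0) := div_pos hε hL
  have s0 := (hs r0 le_rfl hlt.le).trans hW
  have s1 := (hs r1 hlt.le le_rfl).trans hW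
  obtain ⟨G0, a0, b0⟩ := hT c r0 u B h0 (hu.usc.mono s0) (fun z hz => hB z (s0 hz)) _ hη
  obtain ⟨G1, a1, b1⟩ := hT c r1 u B hr1 (hu.usc.mono s1) (fun z hz => hB z (s1 hz)) _ hη
  obtain ⟨h, c1, c2, c3, c4, c5⟩ := dir_poly' c h0 hr1 hlt.ne G0
  obtain ⟨k, d1, d2, d3, d4, d5⟩ := dir_poly' c hr1 h0 hlt.ne' G1
  have hWc : {z | r0 ≤ ‖z - c‖ ∧ ‖z - c‖ ≤ r1} ⊆ {c}ᶜ := by
    intro z hz h
    rw [mem_singleton_iff] at h
    have := hz.1
    rw [h, sub_self, norm_zero] at this
    exact absurd h0 (not_lt.2 this)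
  have hn : Continuous fun z : ℂ => ‖z - c‖ := by fun_prop
  have hcl : IsClosed {z : ℂ | r0 ≤ ‖z - c‖ ∧ ‖z - c‖ ≤ r1} :=
    (isClosed_le continuous_const hn).inter (isClosed_le hn continuous_const)
  have hcp : IsCompact {z : ℂ | r0 ≤ ‖z - c‖ ∧ ‖z - c‖ ≤ r1} :=
    (isCompact_closedBall c r1).of_isClosed_subset hcl fun z hz => by
      rw [mem_closedBall, dist_eq_norm]; exact hz.2
  have hop : IsOpen {z : ℂ | r0 < ‖z - c‖ ∧ ‖z - c‖ < r1} :=
    (isOpen_lt continuous_const hn).inter (isOpen_lt hn continuous_const)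
  have key := hM u (fun z => h z + k z) U _ hU hu hcp hW ((c1.add d1).mono hWc)
    (fun z hz => lre_add c2 d2 z (hWc (interior_subset hz))) (by
      intro z hz hi
      rcases hz.1.eq_or_lt with e | e
      · rw [c3 z e.symm, d4 z e.symm, add_zero]
        exact a0 z (by rw [mem_sphere, dist_eq_norm, e])
      rcases hz.2.eq_or_lt with e' | e'
      · rw [c4 z e', d3 z e', zero_add]
        exact a1 z (by rw [mem_sphere, dist_eq_norm, e'])
      exact (hi (interior_maximal (fun x hx => And.intro hx.1.le hx.2.le) hop ⟨e, e'⟩)).elim)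
  have sr := hs r h01.le h1.le
  have i1 := (c1.mono (sph hr)).circleIntegrable'
  have i2 := (d1.mono (sph hr)).circleIntegrable'
  have m := Real.circleAverage_mono (f₂ := fun z => h z + k z) (circInt hu hr.le (sr.trans hW))
    (i1.add i2) (fun z hz => key z (sr (by rwa [abs_of_pos hr] at hz)))
  rw [Real.circleAverage_fun_add i1 i2, c5 r hr, d5 r hr] at m
  have e1 : Real.log (r0 / r) / Real.log (r0 / r1) = Real.log (r / r0) / Real.log (r1 / r0) := by
    rw [← inv_div r r0, ← inv_div r1 r0, Real.log_inv, Real.log_inv, neg_div_neg_eq]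
  rw [e1] at m
  have m2 := mul_le_mul_of_nonneg_left m hL.le
  have e2 : Real.log (r1 / r0) * ((G0.eval c).re * (Real.log (r1 / r) / Real.log (r1 / r0)) +
      (G1.eval c).re * (Real.log (r / r0) / Real.log (r1 / r0))) =
      Real.log (r1 / r) * (G0.eval c).re + Real.log (r / r0) * (G1.eval c).re := by
    field_simp
  rw [e2] at m2
  have m3 := mul_le_mul_of_nonneg_left b0 hA.le
  have m4 := mul_le_mul_of_nonneg_left b1 hC.le
  have e3 : Real.log (r1 / r) * (ε / Real.log (r1 / r0)) +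
      Real.log (r / r0) * (ε / Real.log (r1 / r0)) = ε := by
    rw [← add_mul, hsum]; field_simp
  linarith [mul_add (Real.log (r1 / r)) (Real.circleAverage u c r0) (ε / Real.log (r1 / r0)),
    mul_add (Real.log (r / r0)) (Real.circleAverage u c r1) (ε / Real.log (r1 / r0))]

end Pool.Agent.CF
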