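import Pool.Agent.Lib.CF.Blue

open Set Metric Filter Topology

namespace Pool.Agent.CF

namespace TMC

theorem span_re (c : ℂ) {r : ℝ} (hr : 0 < r) (g : C(AddCircle (1 : ℝ), ℂ))
    (hg : g ∈ Submodule.span ℂ (range (fourier (T := 1)))) : ∀ a : ℂ, ∃ G : Polynomial ℂ,
      ∀ t, (G.eval (c + r * (AddCircle.toCircle t : ℂ))).re = (a * g t).re := by
  have hr' : (r : ℂ) ≠ 0 := by exact_mod_cast hr.ne'
  induction hg using Submodule.span_induction with
  | mem x hx =>
    obtain ⟨n, rfl⟩ := hx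
    intro a
    have h1 : ∀ (m : ℕ) (b : ℂ) (t : AddCircle (1 : ℝ)), (Polynomial.C b *
        (Polynomial.C (r : ℂ)⁻¹ * (Polynomial.X - Polynomial.C c)) ^ m).eval
        (c + r * (AddCircle.toCircle t : ℂ)) = b * fourier (m : ℤ) t := by
      intro m b t
      simp only [Polynomial.eval_mul, Polynomial.eval_C, Polynomial.eval_pow, Polynomial.eval_sub,
        Polynomial.eval_X, add_sub_cancel_left, inv_mul_cancel_left₀ hr']
      rw [fourier_apply, natCast_zsmul, AddCircle.toCircle_nsmul]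
      simp
    obtain ⟨m, rfl | rfl⟩ := Int.eq_nat_or_neg n
    · exact ⟨_, fun t => by rw [h1 m a t]⟩
    · exact ⟨_, fun t => by
        rw [h1 m ((starRingEnd ℂ) a) t, fourier_neg, ← Complex.conj_re, map_mul, Complex.conj_conj]⟩
  | zero => exact fun a => ⟨0, fun t => by simp⟩
  | add x y _ _ hx hy =>
    intro a
    obtain ⟨G, hG⟩ := hx a
    obtain ⟨G', hG'⟩ := hy a
    exact ⟨G + G', fun t => by
      rw [Polynomial.eval_add, Complex.add_re, hG, hG', ContinuousMap.add_apply, mul_add,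
        Complex.add_re]⟩
  | smul b x _ hx =>
    intro a
    obtain ⟨G, hG⟩ := hx (a * b)
    exact ⟨G, fun t => by rw [hG, ContinuousMap.smul_apply, smul_eq_mul, mul_assoc]⟩

end TMC

theorem st_tmc : St_TMC := by
  intro c r f hr hf η hη
  have hm : ∀ t : AddCircle (1 : ℝ), c + r * (AddCircle.toCircle t : ℂ) ∈ sphere c r := fun t => by
    simp [abs_of_pos hr]
  have hc : Continuous fun t : AddCircle (1 : ℝ) => c + r * (AddCircle.toCircle t : ℂ) :=
    continuous_const.add (continuous_const.mul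
      (continuous_subtype_val.comp AddCircle.continuous_toCircle))
  let F : C(AddCircle (1 : ℝ), ℂ) := ⟨fun t => (f (c + r * (AddCircle.toCircle t : ℂ)) : ℂ),
    Complex.continuous_ofReal.comp (hf.comp_continuous hc hm)⟩
  have hF : F ∈ closure (Submodule.span ℂ (range (fourier (T := 1))) :
      Set C(AddCircle (1 : ℝ), ℂ)) := by
    rw [← Submodule.topologicalClosure_coe, span_fourier_closure_eq_top]
    trivial
  obtain ⟨g, hg, hd⟩ := Metric.mem_closure_iff.1 hF η hη
  obtain ⟨G, hG⟩ := TMC.span_re c hr g hg 1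
  refine ⟨G, fun z hz => ?_⟩
  have hr' : (r : ℂ) ≠ 0 := by exact_mod_cast hr.ne'
  have hz1 : (z - c) / r ∈ sphere (0 : ℂ) 1 := by
    rw [mem_sphere_iff_norm] at hz
    simp [hz, abs_of_pos hr, hr.ne']
  obtain ⟨t, ht⟩ := (AddCircle.homeomorphCircle (T := 1) one_ne_zero).surjective ⟨_, hz1⟩
  rw [AddCircle.homeomorphCircle_apply] at ht
  have hzt : c + r * (AddCircle.toCircle t : ℂ) = z := by
    rw [ht]
    show c + r * ((z - c) / r) = z
    field_simp
    ring
  have h1 := hG t
  rw [hzt, one_mul] at h1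
  have h2 : dist (F t) (g t) ≤ dist F g := ContinuousMap.dist_apply_le_dist t
  have h3 : F t = (f z : ℂ) := by
    show (f (c + r * (AddCircle.toCircle t : ℂ)) : ℂ) = _
    rw [hzt]
  rw [h3, dist_comm, dist_eq_norm] at h2
  have h4 := Complex.abs_re_le_norm (g t - f z)
  rw [Complex.sub_re, Complex.ofReal_re] at h4
  rw [h1]
  linarith

end Pool.Agent.CF
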