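import Pool.Agent.Lib.CF.Blue
import Pool.Agent.Lib.CF.Basic

open Set Metric Filter Topology

namespace Pool.Agent.CF

namespace Trz

lemma bd {α : Type*} {l : Filter α} {f : α → ℂ} {d : ℂ} (h : Tendsto f l (𝓝 d)) (hd : d ≠ 0) :
    ∃ C, ∀ᶠ x in l, f x ≠ 0 ∧ |Real.log ‖f x‖| ≤ C := by
  have h1 : Tendsto (fun x => |Real.log ‖f x‖|) l (𝓝 |Real.log ‖d‖|) :=
    (h.norm.log (norm_ne_zero_iff.2 hd)).abs
  refine ⟨|Real.log ‖d‖| + 1, (h.eventually_ne hd).and ?_⟩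
  exact h1.eventually_le_const (lt_add_one _)

lemma simple {f : ℂ → ℂ} {d b : ℂ} (h : HasDerivAt f d b) (hd : d ≠ 0) (h0 : f b = 0) :
    ∃ C, ∀ᶠ z in 𝓝[≠] b, |Real.log ‖f z‖ - Real.log ‖z - b‖| ≤ C := by
  obtain ⟨C, hC⟩ := bd (hasDerivAt_iff_tendsto_slope.1 h) hd
  refine ⟨C, ?_⟩
  filter_upwards [hC, self_mem_nhdsWithin] with z hz hzb
  have h1 : z - b ≠ 0 := sub_ne_zero.2 hzb
  rw [slope_def_field, h0, sub_zero] at hz
  have h2 : f z ≠ 0 := fun e => hz.1 (by rw [e, zero_div])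
  rw [norm_div, Real.log_div (norm_ne_zero_iff.2 h2) (norm_ne_zero_iff.2 h1)] at hz
  exact hz.2

end Trz

theorem st_trz (hF : St_FIB) : St_TRZ := by
  intro ι _ P H Γ e b Z hc hH hb hZ hs
  classical
  obtain ⟨⟨D, hD⟩, -⟩ := hF ι P Γ e hc
  have hg : ∀ w : ℂ, ∃ (g : ℂ → ℂ) (C : ℝ), w ∈ Z → ContinuousAt g b ∧ g b = w ∧
      (∀ᶠ z in 𝓝 b, (z, g z) ∈ Γ) ∧ (∀ᶠ x in 𝓝 ((b, w) : E), x ∈ Γ → x.2 = g x.1) ∧
      ∀ᶠ z in 𝓝[≠] b, |Real.log ‖H (z, g z)‖ - Real.log ‖z - b‖| ≤ C := by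
    intro w
    by_cases hw : w ∈ Z
    · obtain ⟨hm, h0⟩ := (hZ w).1 hw
      obtain ⟨g, g1, g2, g3, g4⟩ := ift (hc.poly.analyticAt (b, w)) (hc.zero _ hm) (hs w hw).1
      have g2' : g b = w := g2
      have hcont : ContinuousAt (fun z : ℂ => ((z, g z) : E)) b :=
        continuousAt_id.prodMk g1.continuousAt
      have hl : ((b, w) : E) ∉ loops e := by
        rintro ⟨j, -, hj⟩
        exact hb j hj.1
      have hin := hc.int _ hm hl
      have hjac := hs w hw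
      have hHa := hH _ hm
      rw [← g2'] at hin hjac hHa h0
      obtain ⟨C, hC⟩ := Trz.simple (hasDerivAt_res hHa.differentiableAt
        (hc.poly.differentiableAt _) g1.differentiableAt g3 hjac.1)
        (div_ne_zero hjac.2 hjac.1) h0
      refine ⟨g, C, fun _ => ⟨g1.continuousAt, g2', ?_, ?_, hC⟩⟩
      · filter_upwards [hcont.eventually hin, g3] with z h1 h2 using h1 h2
      · filter_upwards [g4] with x h1 h2 using h1.1 (hc.zero x h2)
    · exact ⟨fun _ => 0, 0, fun h => absurd h hw⟩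
  choose g C hg using hg
  have hC' : ∀ w : ℂ, ∃ C' : ℝ, (b, w) ∈ Γ → ∀ᶠ x in 𝓝 ((b, w) : E), x ∈ Γ →
      (∃ v ∈ Z, g v x.1 = x.2) ∨ |Real.log ‖H x‖| ≤ C' := by
    intro w
    by_cases hw : w ∈ Z
    · refine ⟨0, fun _ => ?_⟩
      filter_upwards [(hg w hw).2.2.2.1] with x h1 h2 using Or.inl ⟨w, hw, (h1 h2).symm⟩
    · by_cases hm : (b, w) ∈ Γ
      · obtain ⟨C', h1⟩ := Trz.bd (hH _ hm).continuousAt.tendsto fun h0 => hw ((hZ w).2 ⟨hm, h0⟩)
        refine ⟨C', fun _ => ?_⟩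
        filter_upwards [h1] with x h2 _ using Or.inr h2.2
      · exact ⟨0, fun h => absurd h hm⟩
  choose C' hC' using hC'
  obtain ⟨B, hB⟩ := ((hD b).1.image C').bddAbove
  have htube : ∀ᶠ z in 𝓝 b, ∀ y ∈ Γ, y ∈ Γ → y.1 = z →
      (∃ v ∈ Z, g v y.1 = y.2) ∨ |Real.log ‖H y‖| ≤ max B 0 := by
    refine hc.cpt.eventually_forall_of_forall_eventually fun y hy => ?_
    by_cases h1 : y.1 = b
    · have e0 : ((b, y.2) : E) = y := Prod.ext h1.symm rfl
      have hm : ((b, y.2) : E) ∈ Γ := e0.symm ▸ hy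
      have h2 := hC' y.2 hm
      rw [e0] at h2
      have h3 : C' y.2 ≤ max B 0 := (hB ⟨y.2, hm, rfl⟩).trans (le_max_left _ _)
      have h4 : Tendsto (fun p : ℂ × E => p.2) (𝓝 (b, y)) (𝓝 y) := continuous_snd.continuousAt
      filter_upwards [h4.eventually h2] with p h5 h6 _
      exact (h5 h6).imp id fun h7 => h7.trans h3
    · have h2 : ContinuousAt (fun p : ℂ × E => p.2.1 - p.1) (b, y) := by fun_prop
      filter_upwards [h2.eventually_ne (sub_ne_zero.2 h1)] with p h3 _ h4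
      exact absurd (sub_eq_zero.2 h4) h3
  have hinj : ∀ᶠ z in 𝓝 b, ∀ v ∈ Z, ∀ w ∈ Z, v ≠ w → g v z ≠ g w z := by
    rw [Filter.eventually_all_finset]
    intro v hv
    rw [Filter.eventually_all_finset]
    intro w hw
    by_cases hvw : v = w
    · exact Eventually.of_forall fun _ h => absurd hvw h
    · have h1 : ContinuousAt (fun z => g v z - g w z) b := (hg v hv).1.sub (hg w hw).1
      have h2 : g v b - g w b ≠ 0 := by
        rw [(hg v hv).2.1, (hg w hw).2.1]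
        exact sub_ne_zero.2 hvw
      filter_upwards [h1.eventually_ne h2] with z h3 _ using sub_ne_zero.1 h3
  have hmem : ∀ᶠ z in 𝓝 b, ∀ v ∈ Z, (z, g v z) ∈ Γ :=
    (Filter.eventually_all_finset Z).2 fun v hv => (hg v hv).2.2.1
  have hest : ∀ᶠ z in 𝓝[≠] b, ∀ v ∈ Z, |Real.log ‖H (z, g v z)‖ - Real.log ‖z - b‖| ≤ C v :=
    (Filter.eventually_all_finset Z).2 fun v hv => (hg v hv).2.2.2.2
  refine ⟨D * max B 0 + ∑ v ∈ Z, C v, ?_⟩
  filter_upwards [nhdsWithin_le_nhds htube, nhdsWithin_le_nhds hinj, nhdsWithin_le_nhds hmem,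
    hest] with z h1 h2 h3 h4
  have hsub : Z.image (fun v => g v z) ⊆ (hD z).1.toFinset := by
    intro w hw
    obtain ⟨v, hv, rfl⟩ := Finset.mem_image.1 hw
    exact (Set.Finite.mem_toFinset _).2 (h3 v hv)
  have e1 : tr Γ (fun y => Real.log ‖H y‖) z - Z.card * Real.log ‖z - b‖ =
      ∑ w ∈ (hD z).1.toFinset \ Z.image (fun v => g v z), Real.log ‖H (z, w)‖ +
        ∑ v ∈ Z, (Real.log ‖H (z, g v z)‖ - Real.log ‖z - b‖) := by
    rw [tr, finsum_mem_eq_finite_toFinset_sum _ (hD z).1, ← Finset.sum_sdiff hsub,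
      Finset.sum_image fun v hv w hw h => by_contra fun hne => h2 v hv w hw hne h,
      Finset.sum_sub_distrib, Finset.sum_const, nsmul_eq_mul]
    ring
  rw [e1]
  refine (abs_add_le _ _).trans (add_le_add ?_ ?_)
  · refine (Finset.abs_sum_le_sum_abs _ _).trans
      ((Finset.sum_le_card_nsmul _ _ (max B 0) fun w hw => ?_).trans ?_)
    · obtain ⟨w1, w2⟩ := Finset.mem_sdiff.1 hw
      have w3 : w ∈ fib Γ z := (Set.Finite.mem_toFinset _).1 w1
      rcases h1 (z, w) w3 w3 rfl with ⟨v, hv, h5⟩ | h5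
      · exact absurd (Finset.mem_image.2 ⟨v, hv, h5⟩) w2
      · exact h5
    · rw [nsmul_eq_mul]
      refine mul_le_mul_of_nonneg_right ?_ (le_max_right _ _)
      have h5 := (hD z).2
      rw [Set.ncard_eq_toFinset_card _ (hD z).1] at h5
      exact_mod_cast (Finset.card_le_card Finset.sdiff_subset).trans h5
  · exact (Finset.abs_sum_le_sum_abs _ _).trans (Finset.sum_le_sum h4)

end Pool.Agent.CF
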