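import Pool.Agent.Lib.CF.Blue

/-! Tubes about a curve. -/

open Set Metric Filter Topology

namespace Pool.Agent.CF

namespace Tube

theorem nearO_sub (e : End) {a ρ a' ρ' : ℝ} (ha : a ≤ a') (hρ : ρ ≤ ρ') :
    e.nearO a ρ ⊆ e.near a' ρ' := by
  unfold End.nearO End.near
  split_ifs
  · exact ball_subset_closedBall.trans (closedBall_subset_closedBall hρ)
  · exact fun z hz => ⟨hz.1, by linarith [hz.2.1], by linarith [hz.2.2]⟩

theorem near_sub (e : End) {a ρ a' ρ' : ℝ} (ha : a < a') (hρ : ρ < ρ') :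
    e.near a ρ ⊆ e.nearO a' ρ' := by
  unfold End.nearO End.near
  split_ifs
  · exact closedBall_subset_ball hρ
  · exact fun z hz => ⟨hz.1, by linarith [hz.2.1], by linarith [hz.2.2]⟩

theorem nearO_nhds {e : End} (he : e.ok) {a ρ : ℝ} {z : ℂ} (hz : z ∈ e.nearO a ρ) :
    e.nearO a ρ ∈ 𝓝 z := by
  unfold End.nearO End.ok at *
  split_ifs at *
  · exact isOpen_ball.mem_nhds hz
  · have h1 : ContinuousAt e.dep z := continuousAt_const.mul
      (ContinuousAt.log (by fun_prop) (div_ne_zero (norm_ne_zero_iff.2 (sub_ne_zero.2 hz.1)) he.ne'))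
    exact inter_mem (isOpen_ne.mem_nhds hz.1) (h1 (isOpen_Ioo.mem_nhds hz.2))

theorem close {g : ℂ → ℂ} {y : E} (hg : ContinuousAt g y.1) (e : y.2 = g y.1) {τ : ℝ} (hτ : 0 < τ) :
    ∀ᶠ x in 𝓝 y, ‖x.2 - g x.1‖ ≤ τ := by
  have h1 : ContinuousAt (fun x : E => ‖x.2 - g x.1‖) y :=
    (continuousAt_snd.sub (hg.comp continuousAt_fst)).norm
  exact (h1.eventually (gt_mem_nhds (by simpa [e] using hτ))).mono fun _ h => h.le

theorem disc_open (Sig : Finset ℂ) (r : ℝ) : IsOpen {x : E | ∃ b ∈ Sig, ‖x.1 - b‖ < r} := by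
  rw [show {x : E | ∃ b ∈ Sig, ‖x.1 - b‖ < r} = ⋃ b ∈ Sig, {x : E | ‖x.1 - b‖ < r} by ext; simp]
  exact isOpen_biUnion fun b _ => isOpen_lt (by fun_prop) continuous_const

theorem disc_closed (Sig : Finset ℂ) (r : ℝ) : IsClosed {x : E | ∃ b ∈ Sig, ‖x.1 - b‖ ≤ r} := by
  rw [show {x : E | ∃ b ∈ Sig, ‖x.1 - b‖ ≤ r} = ⋃ b ∈ Sig, {x : E | ‖x.1 - b‖ ≤ r} by ext; simp]
  exact isClosed_biUnion_finset fun b _ => isClosed_le (by fun_prop) continuous_const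

theorem both {Γ Γ' O : Set E} (h : IsCompact Γ) (h' : IsCompact Γ') (hO : IsOpen O)
    (hs : Γ ∩ Γ' ⊆ O) : ∃ R > 0, cthickening R Γ ∩ cthickening R Γ' ⊆ O := by
  obtain ⟨δ, δ0, hδ⟩ := (h.inter_right h'.isClosed).exists_thickening_subset_open hO hs
  obtain ⟨ε, ε0, hε⟩ := Disjoint.exists_cthickenings (s := Γ \ thickening (δ / 2) (Γ ∩ Γ')) (t := Γ')
    (disjoint_left.2 fun y hy hy' => hy.2 (self_subset_thickening (half_pos δ0) _ ⟨hy.1, hy'⟩))
    (h.diff isOpen_thickening) h'.isClosed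
  have m0 : 0 < min ε (δ / 2) := lt_min ε0 (half_pos δ0)
  refine ⟨_, m0, fun x hx => hδ ?_⟩
  have h1 := hx.1
  rw [h.cthickening_eq_biUnion_closedBall m0.le, mem_iUnion₂] at h1
  obtain ⟨y, hy, hxy⟩ := h1
  rw [mem_closedBall, le_min_iff] at hxy
  by_cases hw : y ∈ thickening (δ / 2) (Γ ∩ Γ')
  · obtain ⟨w, hw, hd⟩ := mem_thickening_iff.1 hw
    exact mem_thickening_iff.2 ⟨w, hw, by linarith [dist_triangle x y w, hxy.2]⟩
  · exact absurd (cthickening_mono (min_le_left _ _) _ hx.2)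
      (disjoint_left.1 hε (mem_cthickening_of_dist_le x y ε _ ⟨hy, hw⟩ hxy.1))

theorem half {ι : Type} {P : E → ℂ} {Γ : Set E} {e : ι → End} {Sig : Finset ℂ} {r1 h τ R : ℝ}
    (hg : Geo P Γ e Sig r1 h) {x : E}
    (hx : x ∈ closure {x : E | (∃ b ∈ Sig, ‖x.1 - b‖ < r1) ∧ x ∈ thickening R Γ}) :
    x ∈ cthickening R Γ ∧ ∀ j, x ∉ tube ((e j).gr ((e j).near h r1)) τ := by
  refine ⟨closure_thickening_subset_cthickening R Γ (closure_mono (fun _ k => k.2) hx), ?_⟩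
  rintro j ⟨y, hy, e1, -⟩
  obtain ⟨b, hb, h1⟩ := (disc_closed Sig r1).closure_subset_iff.2
    (fun _ k => k.1.imp fun _ m => ⟨m.1, m.2.le⟩) hx
  have r0 := hg.r1pos
  have h0 := hg.hpos
  have := hg.sig j _ (nearO_sub _ le_rfl le_rfl (near_sub _ (by linarith) (by linarith) hy.1)) b hb
  rw [e1] at this
  linarith

end Tube

open Tube in
theorem st_tube (hR : St_REG) : St_TUBE := by
  intro ι _ P Γ e Sig r1 h hc hg τ hτ
  have r0 := hg.r1pos
  have h0 := hg.hpos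
  suffices H : ∀ y ∈ Γ, ∀ᶠ x in 𝓝 y, x ∈ tube (core Γ e Sig r1 h) τ ∨
      (∃ j, x ∈ tube ((e j).gr ((e j).near h r1)) τ) ∨ ∃ b ∈ Sig, ‖x.1 - b‖ < r1 by
    obtain ⟨R0, h1, h2⟩ := hc.cpt.exists_thickening_subset_open isOpen_interior
      fun y hy => mem_interior_iff_mem_nhds.2 (H y hy)
    exact ⟨R0, h1, fun x hx => by have := interior_subset (h2 hx); exact this⟩
  intro y hy
  by_cases h1 : ∃ b ∈ Sig, ‖y.1 - b‖ < r1
  · exact mem_of_superset ((disc_open Sig r1).mem_nhds h1) fun x hx => Or.inr (Or.inr hx)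
  by_cases h2 : ∃ j, y ∈ (e j).gr ((e j).nearO h r1)
  · obtain ⟨j, h3, h4⟩ := h2
    filter_upwards [close (hg.wan j _ (nearO_sub _ (by linarith) (by linarith) h3)).continuousAt h4 hτ,
      continuousAt_fst (nearO_nhds (hc.ok j) h3)] with x a1 a2
    exact Or.inr (Or.inl ⟨j, (x.1, (e j).w x.1), ⟨nearO_sub _ le_rfl le_rfl a2, rfl⟩, rfl, a1⟩)
  push Not at h1 h2
  obtain ⟨g, g1, g2, g3, -⟩ := ((hR ι P Γ e Sig r1 h hc hg).1 (h / 2) (r1 / 2) (by linarith)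
    (by linarith) (by linarith) (by linarith)).2 (r1 / 2) (by linarith) y
    ⟨hy, fun b hb => by linarith [h1 b hb], fun j k =>
      h2 j ⟨near_sub _ (by linarith) (by linarith) k.1, k.2⟩⟩
  filter_upwards [close g1.continuousAt g2.symm hτ, continuousAt_fst g3] with x a1 a2
  by_cases b1 : ∃ b ∈ Sig, ‖x.1 - b‖ < r1
  · exact Or.inr (Or.inr b1)
  by_cases b2 : ∃ j, (x.1, g x.1) ∈ (e j).gr ((e j).nearO h r1)
  · obtain ⟨j, b3, b4⟩ := b2
    exact Or.inr (Or.inl ⟨j, (x.1, g x.1), ⟨nearO_sub _ le_rfl le_rfl b3, b4⟩, rfl, a1⟩)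
  push Not at b1 b2
  exact Or.inl ⟨(x.1, g x.1), ⟨a2.1, b1, b2⟩, rfl, a1⟩

open Tube in
theorem st_vb (hT : St_TUBE) : St_VB := by
  intro ι ι' _ _ P P' Γ Γ' e e' Sig Sig' r1 h r1' h' hc hg hc' hg' hI
  obtain ⟨R1, R10, hR1⟩ := both hc.cpt hc'.cpt ((disc_open Sig r1).inter (disc_open Sig' r1'))
    fun y hy => ⟨⟨_, (hI y hy.1 hy.2).1, by simpa using hg.r1pos⟩,
      _, (hI y hy.1 hy.2).2, by simpa using hg'.r1pos⟩
  refine ⟨R1, R10, fun R R0 hR τ hτ => ?_⟩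
  obtain ⟨a, a0, ha⟩ := hT ι P Γ e Sig r1 h hc hg τ hτ
  obtain ⟨a', a0', ha'⟩ := hT ι' P' Γ' e' Sig' r1' h' hc' hg' τ hτ
  refine ⟨min R (min a a'), by positivity, fun x hx hcl => ?_⟩
  have c1 : ∀ S : Set E, thickening R S ⊆ cthickening R1 S := fun S =>
    (thickening_subset_cthickening R S).trans (cthickening_mono hR S)
  rw [thickening_union] at hx
  rw [closure_union] at hcl
  rcases hx with hx | hx
  · have t1 := thickening_mono (min_le_left _ _) _ hx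
    rcases hcl with hcl | hcl
    · rcases ha x (thickening_mono ((min_le_right _ _).trans (min_le_left _ _)) _ hx) with k | ⟨j, k⟩ | k
      · exact Or.inr (Or.inl k)
      · exact absurd k ((half hg hcl).2 j)
      · exact Or.inl (Or.inl ⟨k, t1⟩)
    · exact Or.inl (Or.inl ⟨(hR1 ⟨c1 _ t1, cthickening_mono hR _ (half (τ := τ) hg' hcl).1⟩).1, t1⟩)
  · have t1 := thickening_mono (min_le_left _ _) _ hx
    rcases hcl with hcl | hcl
    · exact Or.inl (Or.inr ⟨(hR1 ⟨cthickening_mono hR _ (half (τ := τ) hg hcl).1, c1 _ t1⟩).2, t1⟩)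
    · rcases ha' x (thickening_mono ((min_le_right _ _).trans (min_le_right _ _)) _ hx) with k | ⟨j, k⟩ | k
      · exact Or.inr (Or.inr k)
      · exact absurd k ((half hg' hcl).2 j)
      · exact Or.inl (Or.inr ⟨k, t1⟩)

end Pool.Agent.CF
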