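import Pool.Agent.Lib.CF.Blue

open Set Metric Filter Topology MeasureTheory

namespace Pool.Agent.CF

namespace Usc

/-- the sup-convolution of `f` over the set `S` -/
noncomputable def env (S : Set ℂ) (f : ℂ → ℝ) (n : ℕ) (z : ℂ) : ℝ :=
  sSup ((fun x => f x - n * dist x z) '' S)

lemma bdd {S : Set ℂ} {f : ℂ → ℝ} {B : ℝ} (hB : ∀ x ∈ S, f x ≤ B) (n : ℕ) (z : ℂ) :
    BddAbove ((fun x => f x - n * dist x z) '' S) := by
  refine ⟨B, ?_⟩
  rintro _ ⟨x, hx, rfl⟩
  have h1 := hB x hx
  have h2 : 0 ≤ (n : ℝ) * dist x z := by positivity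
  simp only
  linarith

lemma le_env {S : Set ℂ} {f : ℂ → ℝ} {B : ℝ} (hB : ∀ x ∈ S, f x ≤ B) (n : ℕ) (z : ℂ) {x : ℂ}
    (hx : x ∈ S) : f x - n * dist x z ≤ env S f n z :=
  le_csSup (bdd hB n z) ⟨x, hx, rfl⟩

lemma env_le {S : Set ℂ} (hS : S.Nonempty) {f : ℂ → ℝ} (n : ℕ) (z : ℂ) {a : ℝ}
    (h : ∀ x ∈ S, f x - n * dist x z ≤ a) : env S f n z ≤ a := by
  refine csSup_le (hS.image _) ?_
  rintro _ ⟨x, hx, rfl⟩
  exact h x hx

lemma env_le_bound {S : Set ℂ} (hS : S.Nonempty) {f : ℂ → ℝ} {B : ℝ} (hB : ∀ x ∈ S, f x ≤ B)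
    (n : ℕ) (z : ℂ) : env S f n z ≤ B := by
  refine env_le hS n z fun x hx => ?_
  have h1 := hB x hx
  have h2 : 0 ≤ (n : ℝ) * dist x z := by positivity
  linarith

lemma self_le_env {S : Set ℂ} {f : ℂ → ℝ} {B : ℝ} (hB : ∀ x ∈ S, f x ≤ B) (n : ℕ) {z : ℂ}
    (hz : z ∈ S) : f z ≤ env S f n z := by
  have h := le_env hB n z hz
  simpa using h

lemma env_lip {S : Set ℂ} (hS : S.Nonempty) {f : ℂ → ℝ} {B : ℝ} (hB : ∀ x ∈ S, f x ≤ B)
    (n : ℕ) (z w : ℂ) : env S f n z ≤ env S f n w + n * dist z w := by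
  refine env_le hS n z fun x hx => ?_
  have h1 := le_env hB n w hx
  have h2 : dist x w ≤ dist x z + dist z w := dist_triangle _ _ _
  have h3 : (n : ℝ) * dist x w ≤ n * (dist x z + dist z w) :=
    mul_le_mul_of_nonneg_left h2 (Nat.cast_nonneg n)
  nlinarith

lemma env_cont {S : Set ℂ} (hS : S.Nonempty) {f : ℂ → ℝ} {B : ℝ} (hB : ∀ x ∈ S, f x ≤ B)
    (n : ℕ) : Continuous (env S f n) := by
  have h : LipschitzWith (n : NNReal) (env S f n) := by
    refine LipschitzWith.of_le_add_mul _ fun z w => ?_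
    simpa using env_lip hS hB n z w
  exact h.continuous

lemma env_tendsto {S : Set ℂ} {f : ℂ → ℝ} {B : ℝ} (hB : ∀ x ∈ S, |f x| ≤ B)
    (hf : UpperSemicontinuousOn f S) {z : ℂ} (hz : z ∈ S) :
    Tendsto (fun n => env S f n z) atTop (𝓝 (f z)) := by
  have hB' : ∀ x ∈ S, f x ≤ B := fun x hx => (le_abs_self _).trans (hB x hx)
  rw [tendsto_order]
  refine ⟨fun a ha => Eventually.of_forall fun n => ha.trans_le (self_le_env hB' n hz), ?_⟩
  intro a ha
  obtain ⟨b, hb1, hb2⟩ := exists_between ha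
  have h1 : ∀ᶠ x in 𝓝[S] z, f x < b := hf z hz b hb1
  rw [eventually_nhdsWithin_iff, Metric.eventually_nhds_iff] at h1
  obtain ⟨δ, hδ, h2⟩ := h1
  filter_upwards [eventually_ge_atTop ⌈(B - b) / δ⌉₊] with n hn
  have hn' : (B - b) / δ ≤ n := (Nat.le_ceil _).trans (by exact_mod_cast hn)
  rw [div_le_iff₀ hδ] at hn'
  refine lt_of_le_of_lt (env_le ⟨z, hz⟩ n z fun x hx => ?_) hb2
  by_cases hd : dist x z < δ
  · have h3 := h2 hd hx
    have h4 : 0 ≤ (n : ℝ) * dist x z := by positivity
    linarith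
  · have h3 : (n : ℝ) * δ ≤ n * dist x z :=
      mul_le_mul_of_nonneg_left (not_lt.1 hd) (Nat.cast_nonneg n)
    have h4 := hB' x hx
    linarith

lemma circleIntegrable_of_usc {c : ℂ} {r : ℝ} {f : ℂ → ℝ} {B : ℝ} (hr : 0 < r)
    (hf : UpperSemicontinuousOn f (sphere c r)) (hB : ∀ z ∈ sphere c r, |f z| ≤ B) :
    CircleIntegrable f c r := by
  have h1 : UpperSemicontinuous (f ∘ circleMap c r) := by
    rw [← upperSemicontinuousOn_univ_iff]
    exact hf.comp (continuous_circleMap c r).continuousOn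
      fun θ _ => circleMap_mem_sphere c hr.le θ
  have h2 : Measurable (f ∘ circleMap c r) := h1.measurable
  refine (intervalIntegrable_const (c := B)).mono_fun' h2.aestronglyMeasurable ?_
  exact Eventually.of_forall fun θ => hB _ (circleMap_mem_sphere c hr.le θ)

lemma avg_tendsto {c : ℂ} {r : ℝ} {f : ℂ → ℝ} {B : ℝ} (hr : 0 < r)
    (hf : UpperSemicontinuousOn f (sphere c r)) (hB : ∀ z ∈ sphere c r, |f z| ≤ B) :
    Tendsto (fun n => Real.circleAverage (env (sphere c r) f n) c r) atTop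
      (𝓝 (Real.circleAverage f c r)) := by
  have hS : (sphere c r).Nonempty := NormedSpace.sphere_nonempty.2 hr.le
  have hB' : ∀ x ∈ sphere c r, f x ≤ B := fun x hx => (le_abs_self _).trans (hB x hx)
  simp only [Real.circleAverage_def]
  refine Tendsto.const_smul ?_ _
  refine intervalIntegral.tendsto_integral_filter_of_dominated_convergence (fun _ => B) ?_ ?_
    intervalIntegrable_const ?_
  · exact Eventually.of_forall fun n =>
      ((env_cont hS hB' n).comp (continuous_circleMap c r)).aestronglyMeasurable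
  · refine Eventually.of_forall fun n => Eventually.of_forall fun θ _ => ?_
    have hm := circleMap_mem_sphere c hr.le θ
    have h1 := self_le_env hB' n hm
    have h2 := env_le_bound hS hB' n (circleMap c r θ)
    have h3 := (abs_le.1 (hB _ hm)).1
    rw [Real.norm_eq_abs, abs_le]
    constructor <;> linarith
  · exact Eventually.of_forall fun θ _ => env_tendsto hB hf (circleMap_mem_sphere c hr.le θ)

lemma avg_re (G : Polynomial ℂ) (c : ℂ) (r : ℝ) :
    Real.circleAverage (fun z => (G.eval z).re) c r = (G.eval c).re := by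
  have h1 : Real.circleAverage (fun z => G.eval z) c r = G.eval c :=
    DiffContOnCl.circleAverage G.differentiable.diffContOnCl
  have h2 := Complex.reCLM.circleAverage_comp_comm (f := fun z => G.eval z) (c := c) (R := r)
    G.continuous.continuousOn.circleIntegrable'
  rw [h1] at h2
  exact h2

end Usc

theorem st_usc : St_USC := by
  intro c r f B hr hf hB
  refine ⟨Usc.circleIntegrable_of_usc hr hf hB, fun B' hB' η hη => ?_⟩
  have hS : (sphere c r).Nonempty := NormedSpace.sphere_nonempty.2 hr.le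
  have h1 := Usc.avg_tendsto hr hf hB
  have h2 : ∀ᶠ n in atTop, Real.circleAverage (Usc.env (sphere c r) f n) c r <
      Real.circleAverage f c r + η := h1.eventually (gt_mem_nhds (by linarith))
  obtain ⟨n, hn⟩ := h2.exists
  exact ⟨Usc.env (sphere c r) f n, Usc.env_cont hS hB' n,
    fun z hz => ⟨Usc.self_le_env hB' n hz, Usc.env_le_bound hS hB' n z⟩, hn.le⟩

theorem st_tm (h1 : St_TMC) : St_TM := by
  intro c r f B hr hf hB η hη
  have hB' : ∀ x ∈ sphere c r, f x ≤ B := fun x hx => (le_abs_self _).trans (hB x hx)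
  obtain ⟨g, hg, hfg, hav⟩ := (st_usc c r f B hr hf hB).2 B hB' (η / 3) (by positivity)
  obtain ⟨G, hG⟩ := h1 c r g hr hg.continuousOn (η / 3) (by positivity)
  refine ⟨G + Polynomial.C ((η / 3 : ℝ) : ℂ), fun z hz => ?_, ?_⟩
  · have h2 := (abs_le.1 (hG z hz)).1
    have h3 := (hfg z hz).1
    simp only [Polynomial.eval_add, Polynomial.eval_C, Complex.add_re, Complex.ofReal_re]
    linarith
  · have hgi : CircleIntegrable g c r := hg.continuousOn.circleIntegrable'
    have h2 : Real.circleAverage (fun z => (G.eval z).re) c r ≤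
        Real.circleAverage (fun z => g z + η / 3) c r := by
      refine Real.circleAverage_mono ?_ ?_ fun z hz => ?_
      · exact (Complex.continuous_re.comp G.continuous).continuousOn.circleIntegrable'
      · exact (hg.add continuous_const).continuousOn.circleIntegrable'
      · rw [abs_of_pos hr] at hz
        have h3 := (abs_le.1 (hG z hz)).2
        linarith
    rw [Usc.avg_re, Real.circleAverage_fun_add hgi (circleIntegrable_const _ _ _),
      Real.circleAverage_const] at h2
    simp only [Polynomial.eval_add, Polynomial.eval_C, Complex.add_re, Complex.ofReal_re]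
    linarith

end Pool.Agent.CF
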