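import Pool.Agent.Lib.CF.B_WFAC

open Set Metric Filter Topology

namespace Pool.Agent.CF

namespace WEXT

/-- a power with an analytic logarithm near a circle is trivial -/
theorem pow_uniq {c : ℂ} {ρ : ℝ} (hρ : 0 < ρ) {n : ℤ} {g : ℂ → ℂ}
    (h : ∀ z ∈ sphere c ρ, AnalyticAt ℂ g z ∧ ∀ᶠ x in 𝓝 z, (x - c) ^ n = Complex.exp (g x)) :
    n = 0 := by
  have hd : ∀ z ∈ sphere c ρ, HasDerivWithinAt g (n * (z - c)⁻¹) (sphere c ρ) z := by
    intro z hz
    have z0 : z - c ≠ 0 := by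
      rw [← norm_pos_iff, mem_sphere_iff_norm.1 hz]; exact hρ
    have h1 := (h z hz).1.differentiableAt.hasDerivAt
    have h2 : HasDerivAt (fun x => (x - c) ^ n) (n * (z - c) ^ (n - 1)) z :=
      (hasDerivAt_zpow n (z - c) (Or.inl z0)).comp_sub_const z c
    have h3 := h2.unique (h1.cexp.congr_of_eventuallyEq (h z hz).2)
    rw [← (h z hz).2.self_of_nhds, zpow_sub_one₀ z0] at h3
    refine (h1.congr_deriv ?_).hasDerivWithinAt
    have h4 := zpow_ne_zero n z0
    refine mul_left_cancel₀ h4 ?_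
    rw [← h3]; ring
  have h5 := circleIntegral.integral_eq_zero_of_hasDerivWithinAt hρ.le hd
  rw [circleIntegral.integral_const_mul, circleIntegral.integral_sub_center_inv c hρ.ne'] at h5
  simpa [Real.pi_ne_zero] using h5

/-- a circle in a neighbourhood of the end -/
theorem exists_sphere {e : End} (he : e.ok) {N : Set ℂ} (hN : N ∈ 𝓝ˢ e.circ) :
    ∃ ρ > 0, sphere e.c ρ ⊆ N := by
  by_cases hk : e.k = Kind.pt
  · obtain ⟨δ, hδ, h⟩ := End.shrink he hN
    refine ⟨δ, hδ, subset_trans ?_ (h δ δ le_rfl le_rfl)⟩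
    rw [End.near_pt hk]
    exact sphere_subset_closedBall
  · exact ⟨e.r, he.pos hk, subset_of_mem_nhdsSet hN⟩

theorem ann_mem {e : End} (hr : 0 < e.r) {a b : ℝ} (ha : a < 0) (hb : 0 < b) :
    e.ann (Ioo a b) ∈ 𝓝ˢ e.circ := by
  refine (End.isOpen_ann hr isOpen_Ioo).mem_nhdsSet.2 fun z hz => ?_
  have := (End.mem_circ hr).1 hz
  exact ⟨this.1, this.2.symm ▸ ⟨ha, hb⟩⟩

theorem ok_of {e : End} (hk : e.k ≠ Kind.pt) (hr : 0 < e.r) : e.ok := by simpa [End.ok, hk] using hr

theorem hasWind_of {e : End} (hr : 0 < e.r) {a b : ℝ} (ha : a < 0) (hb : 0 < b) {W g : ℂ → ℂ}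
    {k : ℤ} (hg : AnalyticOnNhd ℂ g (e.ann (Ioo a b)))
    (h : ∀ z ∈ e.ann (Ioo a b), W z = (z - e.c) ^ (-e.sgn * k) * Complex.exp (g z)) :
    HasWind e W k := by
  refine ⟨g, hg.mono (subset_of_mem_nhdsSet (ann_mem hr ha hb)), ?_⟩
  filter_upwards [ann_mem hr ha hb] with z hz _ using h z hz

/-- closed annuli between two circles -/
theorem between {e : End} (hr : 0 < e.r) {a b s s' : ℝ} (hs : s ∈ Ioo a b) (hs' : s' ∈ Ioo a b)
    {z : ℂ} (h1 : e.rad s ≤ ‖z - e.c‖) (h2 : ‖z - e.c‖ ≤ e.rad s') : z ∈ e.ann (Ioo a b) := by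
  have p1 := End.rad_pos hr s
  have p2 : 0 < ‖z - e.c‖ := p1.trans_le h1
  have hz : z ≠ e.c := sub_ne_zero.1 (norm_pos_iff.1 p2)
  have l1 := Real.log_le_log p1 h1
  have l2 := Real.log_le_log p2 h2
  rw [End.norm_eq_rad hr hz, End.log_rad hr, End.log_rad hr] at l1 l2
  refine ⟨hz, ?_⟩
  rcases e.sgn_cases with h | h
  · simp only [h.2, Int.cast_neg, Int.cast_one] at l1 l2
    exact ⟨by linarith [hs'.1], by linarith [hs.2]⟩
  · simp only [h.2, Int.cast_one] at l1 l2
    exact ⟨by linarith [hs.1], by linarith [hs'.2]⟩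

theorem mean_eq {e : End} (hr : 0 < e.r) {g : ℂ → ℂ} {a b s s' : ℝ}
    (hg : AnalyticOnNhd ℂ g (e.ann (Ioo a b))) (hs : s ∈ Ioo a b) (hs' : s' ∈ Ioo a b)
    (hle : e.rad s ≤ e.rad s') :
    Real.circleAverage (fun z => (g z).re) e.c (e.rad s) =
      Real.circleAverage (fun z => (g z).re) e.c (e.rad s') := by
  have key : ∀ t ∈ Ioo a b, Real.circleAverage (fun z => (g z).re) e.c (e.rad t) =
      ((2 * Real.pi * Complex.I)⁻¹ • ∮ z in C(e.c, e.rad t), (z - e.c)⁻¹ • g z).re := by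
    intro t ht
    have p := End.rad_pos hr t
    have hi : CircleIntegrable g e.c (e.rad t) :=
      (hg.continuousOn.mono (End.sphere_subset_ann hr ht)).circleIntegrable p.le
    rw [← Real.circleAverage_eq_circleIntegral p.ne']
    exact Complex.reCLM.circleAverage_comp_comm hi
  rw [key s hs, key s' hs',
    Complex.circleIntegral_sub_center_inv_smul_eq_of_differentiable_on_annulus_off_countable
      (End.rad_pos hr s) hle countable_empty (hg.continuousOn.mono fun z hz => ?_)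
      fun z hz => (hg z ?_).differentiableAt]
  · refine between hr hs hs' ?_ (mem_closedBall_iff_norm.1 hz.1)
    exact not_lt.1 fun h => hz.2 (mem_ball_iff_norm.2 h)
  · refine between hr hs hs' ?_ (mem_ball_iff_norm.1 hz.1.1).le
    exact (not_le.1 fun h => hz.1.2 (mem_closedBall_iff_norm.2 h)).le

end WEXT

open WEXT in
theorem st_wuni : St_WUNI := by
  rintro e W k k' he ⟨g, hg, h⟩ ⟨g', hg', h'⟩
  have hN : ∀ᶠ z in 𝓝ˢ e.circ, AnalyticAt ℂ g z ∧ AnalyticAt ℂ g' z ∧ ∀ᶠ x in 𝓝 z, x ≠ e.c →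
      (x - e.c) ^ (-e.sgn * k) * Complex.exp (g x) =
        (x - e.c) ^ (-e.sgn * k') * Complex.exp (g' x) := by
    refine eventually_nhdsSet_iff_forall.2 fun z hz => ?_
    refine (hg z hz).eventually_analyticAt.and ((hg' z hz).eventually_analyticAt.and ?_)
    refine eventually_eventually_nhds.2 ?_
    filter_upwards [eventually_nhdsSet_iff_forall.1 h z hz, eventually_nhdsSet_iff_forall.1 h' z hz]
      with x a b hx
    rw [← a hx, ← b hx]
  obtain ⟨ρ, hρ, hs⟩ := exists_sphere he hN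
  have := pow_uniq (c := e.c) (n := -e.sgn * k - -e.sgn * k') (g := fun x => g' x - g x) hρ
    fun z hz => by
      obtain ⟨a1, a2, a3⟩ := hs hz
      have z0 : z ≠ e.c := by
        rw [← sub_ne_zero, ← norm_pos_iff, mem_sphere_iff_norm.1 hz]; exact hρ
      refine ⟨a2.sub a1, ?_⟩
      filter_upwards [a3, isOpen_ne.mem_nhds z0] with x hx x0
      have x1 : x - e.c ≠ 0 := sub_ne_zero.2 x0
      rw [zpow_sub₀ x1, Complex.exp_sub,
        div_eq_div_iff (zpow_ne_zero _ x1) (Complex.exp_ne_zero _), hx x0, mul_comm]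
  rcases e.sgn_cases with h | h <;> rw [h.2] at this <;> omega

open WEXT in
theorem st_wext (hF : St_WFAC) : St_WEXT := by
  refine ⟨fun e W hk hr hW h0 => ?_, fun e W k a b hk hr ha hb hW h0 hw => ?_,
    fun e W k ρ hk hr hW h0 hw => ?_, fun e g a b _ hr hg s hs s' hs' => ?_⟩
  · have hN : ∀ᶠ z in 𝓝ˢ e.circ, AnalyticAt ℂ W z ∧ W z ≠ 0 :=
      eventually_nhdsSet_iff_forall.2 fun z hz => (hW z hz).eventually_analyticAt.and
        ((hW z hz).continuousAt.eventually_ne (h0 z hz))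
    obtain ⟨δ, hδ, h⟩ := End.shrink (ok_of hk hr) hN
    have h1 : ∀ z ∈ e.ann (Ioo (-δ) δ), AnalyticAt ℂ W z ∧ W z ≠ 0 := fun z hz => by
      refine h δ δ le_rfl le_rfl ?_
      rw [End.near_loop hk]
      exact End.ann_mono Ioo_subset_Icc_self hz
    obtain ⟨k, g, hg, hm⟩ := hF e W (-δ) δ hk hr (fun z hz => (h1 z hz).1) fun z hz => (h1 z hz).2
    exact ⟨k, hasWind_of hr (by linarith) hδ hg hm⟩
  · obtain ⟨k', g, hg, hm⟩ := hF e W a b hk hr hW h0
    obtain rfl := st_wuni e W k k' (ok_of hk hr) hw (hasWind_of hr ha hb hg hm)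
    exact ⟨g, hg, hm⟩
  · obtain ⟨g, hg, h⟩ := hw
    have hs : e.sgn = 1 := by simp [End.sgn, hk]
    have hc : e.c ∈ e.circ := by simp [End.circ, hr]
    have h1 := eventually_nhdsSet_iff_forall.1 h _ hc
    classical
    have hV : AnalyticOnNhd ℂ (fun z => if z = e.c then Complex.exp (g e.c) else
        W z * (z - e.c) ^ k) (ball e.c ρ) := by
      intro z hz
      by_cases z0 : z = e.c
      · rw [z0]
        refine (hg _ hc).cexp.congr ?_
        filter_upwards [h1] with x hx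
        rw [Function.comp_apply]
        split_ifs with x0
        · rw [x0]
        · have x1 := zpow_ne_zero k (sub_ne_zero.2 x0)
          rw [hx x0, hs, neg_one_mul, zpow_neg]
          field_simp
      · have a1 : AnalyticAt ℂ (fun x => W x * (x - e.c) ^ k) z :=
          (hW z ⟨hz, z0⟩).mul (AnalyticAt.zpow (f := fun x => x - e.c) (by fun_prop)
            (sub_ne_zero.2 z0))
        refine a1.congr ?_
        filter_upwards [isOpen_ne.mem_nhds z0] with x hx
        rw [if_neg hx]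
    obtain ⟨G, hG, -, hE⟩ := WFAC.convex_log isOpen_ball (convex_ball e.c ρ) hV fun z hz => by
      split_ifs with z0
      · exact Complex.exp_ne_zero _
      · exact mul_ne_zero (h0 z ⟨hz, z0⟩) (zpow_ne_zero k (sub_ne_zero.2 z0))
    refine ⟨G, hG, fun z hz => ?_⟩
    have z0 : z ≠ e.c := hz.2
    have z1 := zpow_ne_zero k (sub_ne_zero.2 z0)
    rw [← hE z hz.1, if_neg z0, zpow_neg]
    field_simp
  · rcases le_total (e.rad s) (e.rad s') with h | h
    · exact mean_eq hr hg hs hs' h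
    · exact (mean_eq hr hg hs' hs h).symm

end Pool.Agent.CF
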