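import Pool.Agent.Lib.CF.Blue
import Pool.Agent.Lib.CF.Basic

open Set Metric Filter Topology

namespace Pool.Agent.CF

namespace WFAC

/-- a nonvanishing analytic function on an open convex set has an analytic logarithm -/
theorem convex_log {S : Set ℂ} (So : IsOpen S) (Sc : Convex ℝ S) {V : ℂ → ℂ}
    (Va : AnalyticOnNhd ℂ V S) (V0 : ∀ ζ ∈ S, V ζ ≠ 0) :
    ∃ G : ℂ → ℂ, AnalyticOnNhd ℂ G S ∧ (∀ ζ ∈ S, HasDerivAt G (deriv V ζ / V ζ) ζ) ∧
      ∀ ζ ∈ S, V ζ = Complex.exp (G ζ) := by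
  rcases S.eq_empty_or_nonempty with rfl | ⟨t, ht⟩
  · exact ⟨0, fun _ h => h.elim, fun _ h => h.elim, fun _ h => h.elim⟩
  obtain ⟨G, hG0⟩ := Sc.exists_forall_hasDerivWithinAt (Va.deriv.div Va V0).differentiableOn
  have hG : ∀ ζ ∈ S, HasDerivAt G (deriv V ζ / V ζ) ζ := fun ζ hζ =>
    (hG0 ζ hζ).hasDerivAt (So.mem_nhds hζ)
  have hd : ∀ ζ ∈ S, HasDerivAt (fun x => V x * Complex.exp (-G x)) 0 ζ := fun ζ hζ => by
    have h1 := (Va ζ hζ).differentiableAt.hasDerivAt.fun_mul (hG ζ hζ).fun_neg.cexp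
    have h2 := V0 ζ hζ
    refine h1.congr_deriv ?_
    field_simp
    ring
  have hc : ∀ ζ ∈ S, V ζ * Complex.exp (-G ζ) = V t * Complex.exp (-G t) := fun ζ hζ =>
    So.is_const_of_deriv_eq_zero Sc.isPreconnected
      (fun x hx => (hd x hx).differentiableAt.differentiableWithinAt)
      (fun x hx => (hd x hx).deriv) hζ ht
  have hG' : ∀ ζ ∈ S, HasDerivAt (fun x => G x + Complex.log (V t * Complex.exp (-G t)))
      (deriv V ζ / V ζ) ζ := fun ζ hζ => (hG ζ hζ).add_const _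
  refine ⟨fun x => G x + Complex.log (V t * Complex.exp (-G t)), ?_, hG', fun ζ hζ => ?_⟩
  · exact DifferentiableOn.analyticOnNhd
      (fun x hx => (hG' x hx).differentiableAt.differentiableWithinAt) So
  · rw [Complex.exp_add, Complex.exp_log (mul_ne_zero (V0 t ht) (Complex.exp_ne_zero _)),
      ← hc ζ hζ, Complex.exp_neg]
    have := Complex.exp_ne_zero (G ζ)
    field_simp

/-- factorisation on an annulus -/
theorem core (c : ℂ) {I : Set ℝ} (hI : IsOpen I) (hc : Convex ℝ I) {W : ℂ → ℂ}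
    (hW : AnalyticOnNhd ℂ W {z | z ≠ c ∧ Real.log ‖z - c‖ ∈ I})
    (h0 : ∀ z ∈ {z | z ≠ c ∧ Real.log ‖z - c‖ ∈ I}, W z ≠ 0) :
    ∃ (m : ℤ) (g : ℂ → ℂ), AnalyticOnNhd ℂ g {z | z ≠ c ∧ Real.log ‖z - c‖ ∈ I} ∧
      ∀ z ∈ {z | z ≠ c ∧ Real.log ‖z - c‖ ∈ I}, W z = (z - c) ^ m * Complex.exp (g z) := by
  rcases I.eq_empty_or_nonempty with rfl | ⟨t, ht⟩
  · exact ⟨0, 0, fun z hz => hz.2.elim, fun z hz => hz.2.elim⟩
  have So : IsOpen (Complex.re ⁻¹' I) := hI.preimage Complex.continuous_re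
  have Sc : Convex ℝ (Complex.re ⁻¹' I) := hc.linear_preimage Complex.reLm
  have mem : ∀ ζ ∈ Complex.re ⁻¹' I,
      c + Complex.exp ζ ∈ {z | z ≠ c ∧ Real.log ‖z - c‖ ∈ I} := fun ζ hζ => by
    refine ⟨by simp, ?_⟩
    rw [add_sub_cancel_left, Complex.norm_exp, Real.log_exp]
    exact hζ
  have Va : AnalyticOnNhd ℂ (fun ζ => W (c + Complex.exp ζ)) (Complex.re ⁻¹' I) := fun ζ hζ =>
    AnalyticAt.comp (g := W) (f := fun ζ => c + Complex.exp ζ) (hW _ (mem ζ hζ))
      (analyticAt_const.add analyticAt_cexp)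
  obtain ⟨G, Ga, Gd, Ge⟩ := convex_log So Sc Va fun ζ hζ => h0 _ (mem ζ hζ)
  have sh : ∀ ζ ∈ Complex.re ⁻¹' I, ∀ n : ℤ,
      ζ + n * (2 * Real.pi * Complex.I) ∈ Complex.re ⁻¹' I := fun ζ hζ n => by
    simpa using hζ
  have sh1 : ∀ ζ ∈ Complex.re ⁻¹' I, ζ + 2 * Real.pi * Complex.I ∈ Complex.re ⁻¹' I :=
    fun ζ hζ => by simpa using hζ
  have per : ∀ ζ, W (c + Complex.exp (ζ + 2 * Real.pi * Complex.I)) = W (c + Complex.exp ζ) :=
    fun ζ => by rw [Complex.exp_periodic ζ]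
  have hd : ∀ ζ ∈ Complex.re ⁻¹' I,
      HasDerivAt (fun x => G (x + 2 * Real.pi * Complex.I) - G x) 0 ζ := fun ζ hζ => by
    have h1 := ((Gd _ (sh1 ζ hζ)).comp_add_const ζ _).fun_sub (Gd ζ hζ)
    refine h1.congr_deriv ?_
    rw [← deriv_comp_add_const (fun ζ => W (c + Complex.exp ζ))]
    simp only [per, sub_self]
  have tS : (t : ℂ) ∈ Complex.re ⁻¹' I := by simpa using ht
  have hcst : ∀ ζ ∈ Complex.re ⁻¹' I, G (ζ + 2 * Real.pi * Complex.I) - G ζ =
      G (t + 2 * Real.pi * Complex.I) - G t := fun ζ hζ =>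
    So.is_const_of_deriv_eq_zero Sc.isPreconnected
      (fun x hx => (hd x hx).differentiableAt.differentiableWithinAt)
      (fun x hx => (hd x hx).deriv) hζ tS
  obtain ⟨m, hm⟩ : ∃ m : ℤ, G (t + 2 * Real.pi * Complex.I) - G t =
      m * (2 * Real.pi * Complex.I) := by
    rw [← Complex.exp_eq_one_iff, Complex.exp_sub, ← Ge _ (sh1 _ tS), ← Ge _ tS, per]
    exact div_self (h0 _ (mem _ tS))
  have step : ∀ ζ ∈ Complex.re ⁻¹' I, G (ζ + 2 * Real.pi * Complex.I) =
      G ζ + m * (2 * Real.pi * Complex.I) := fun ζ hζ => by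
    rw [← hm, ← hcst ζ hζ]; ring
  have stepn : ∀ ζ ∈ Complex.re ⁻¹' I, ∀ n : ℤ, G (ζ + n * (2 * Real.pi * Complex.I)) =
      G ζ + m * (n * (2 * Real.pi * Complex.I)) := fun ζ hζ n => by
    induction n using Int.induction_on with
    | zero => simp
    | succ n ih =>
      have := step _ (sh ζ hζ n)
      push_cast at this ih ⊢
      rw [add_mul, one_mul, ← add_assoc, this, ih]; ring
    | pred n ih =>
      have := step _ (sh ζ hζ (-n - 1))
      push_cast at this ih ⊢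
      rw [show ζ + (-(n : ℂ) - 1) * (2 * Real.pi * Complex.I) + 2 * Real.pi * Complex.I =
        ζ + -(n : ℂ) * (2 * Real.pi * Complex.I) by ring, ih] at this
      linear_combination -this
  have lg : ∀ z ∈ {z | z ≠ c ∧ Real.log ‖z - c‖ ∈ I}, Complex.log (z - c) ∈ Complex.re ⁻¹' I :=
    fun z hz => by simpa [Complex.log_re] using hz.2
  have Ao : IsOpen {z : ℂ | z ≠ c ∧ Real.log ‖z - c‖ ∈ I} := by
    refine isOpen_iff_mem_nhds.2 fun z hz => ?_
    have : ContinuousAt (fun x : ℂ => Real.log ‖x - c‖) z :=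
      ContinuousAt.log (by fun_prop) (norm_ne_zero_iff.2 (sub_ne_zero.2 hz.1))
    filter_upwards [isOpen_ne.mem_nhds hz.1, this.eventually (hI.mem_nhds hz.2)] with x a b
      using ⟨a, b⟩
  refine ⟨m, fun z => G (Complex.log (z - c)) - m * Complex.log (z - c), fun z hz => ?_,
    fun z hz => ?_⟩
  · have z0 : z - c ≠ 0 := sub_ne_zero.2 hz.1
    have a1 : AnalyticAt ℂ (fun x => Complex.log (z - c) + Complex.log ((x - c) / (z - c))) z := by
      refine analyticAt_const.add (AnalyticAt.clog (by fun_prop (disch := exact z0)) ?_)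
      rw [div_self z0]; exact Complex.one_mem_slitPlane
    have a2 : AnalyticAt ℂ
        (fun x => G (Complex.log (z - c) + Complex.log ((x - c) / (z - c)))) z := by
      refine AnalyticAt.comp (g := G) ?_ a1
      simpa [div_self z0] using Ga _ (lg z hz)
    refine (a2.sub (analyticAt_const.mul a1 (f := fun _ => (m : ℂ)))).congr ?_
    filter_upwards [Ao.mem_nhds hz] with x hx
    have x0 : x - c ≠ 0 := sub_ne_zero.2 hx.1
    obtain ⟨n, hn⟩ : ∃ n : ℤ, Complex.log (z - c) + Complex.log ((x - c) / (z - c)) =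
        Complex.log (x - c) + n * (2 * Real.pi * Complex.I) := by
      rw [← Complex.exp_eq_exp_iff_exists_int, Complex.exp_add, Complex.exp_log z0,
        Complex.exp_log x0, Complex.exp_log (div_ne_zero x0 z0)]
      field_simp
    simp only [Pi.sub_apply, Pi.mul_apply]
    rw [hn, stepn _ (lg x hx) n]
    ring
  · have z0 : z - c ≠ 0 := sub_ne_zero.2 hz.1
    have h1 := Ge _ (lg z hz)
    rw [Complex.exp_log z0, add_sub_cancel] at h1
    rw [h1, Complex.exp_sub, Complex.exp_int_mul, Complex.exp_log z0]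
    have := zpow_ne_zero m z0
    field_simp

end WFAC

theorem st_wfac : St_WFAC := by
  intro e W a b _ hr hW h0
  have hA : e.ann (Ioo a b) = {z | z ≠ e.c ∧ Real.log ‖z - e.c‖ ∈
      (fun t : ℝ => (e.sgn : ℝ) * (t - Real.log e.r)) ⁻¹' Ioo a b} := by
    ext z
    refine and_congr_right fun hz => ?_
    rw [End.dep, Real.log_div (norm_ne_zero_iff.2 (sub_ne_zero.2 hz)) hr.ne']
    rfl
  have hI : IsOpen ((fun t : ℝ => (e.sgn : ℝ) * (t - Real.log e.r)) ⁻¹' Ioo a b) :=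
    isOpen_Ioo.preimage (by fun_prop)
  have hc : Convex ℝ ((fun t : ℝ => (e.sgn : ℝ) * (t - Real.log e.r)) ⁻¹' Ioo a b) := by
    intro x hx y hy u v hu hv huv
    have := convex_Ioo a b hx hy hu hv huv
    simp only [mem_preimage, smul_eq_mul] at this ⊢
    rw [show (e.sgn : ℝ) * (u * x + v * y - Real.log e.r) = u * (e.sgn * (x - Real.log e.r)) +
      v * (e.sgn * (y - Real.log e.r)) by linear_combination (e.sgn * Real.log e.r) * huv]
    exact this
  rw [hA] at hW h0 ⊢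
  obtain ⟨m, g, hg, hm⟩ := WFAC.core e.c hI hc hW h0
  refine ⟨-e.sgn * m, g, hg, fun z hz => ?_⟩
  have : -e.sgn * (-e.sgn * m) = m := by
    rcases e.sgn_cases with h | h <;> simp [h.2]
  rw [this]
  exact hm z hz

end Pool.Agent.CF
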