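import Pool.Agent.Lib.CF.B_ADDPT
import Pool.Agent.Lib.CF.B_COLLAR
import Pool.Agent.Lib.CF.B_CUT
import Pool.Agent.Lib.CF.B_DIST
import Pool.Agent.Lib.CF.B_ENV
import Pool.Agent.Lib.CF.B_FIB
import Pool.Agent.Lib.CF.B_FLX
import Pool.Agent.Lib.CF.B_FT0
import Pool.Agent.Lib.CF.B_FTA
import Pool.Agent.Lib.CF.B_GEO
import Pool.Agent.Lib.CF.B_HAR
import Pool.Agent.Lib.CF.B_LOW
import Pool.Agent.Lib.CF.B_MAXC
import Pool.Agent.Lib.CF.B_MOVE
import Pool.Agent.Lib.CF.B_PART
import Pool.Agent.Lib.CF.B_POL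
import Pool.Agent.Lib.CF.B_POL0
import Pool.Agent.Lib.CF.B_PUNC
import Pool.Agent.Lib.CF.B_RAD
import Pool.Agent.Lib.CF.B_REG
import Pool.Agent.Lib.CF.B_SHELL
import Pool.Agent.Lib.CF.B_SMMP
import Pool.Agent.Lib.CF.B_TC
import Pool.Agent.Lib.CF.B_TMC
import Pool.Agent.Lib.CF.B_TRZ
import Pool.Agent.Lib.CF.B_TUBE
import Pool.Agent.Lib.CF.B_USC
import Pool.Agent.Lib.CF.B_WEXT
import Pool.Agent.Lib.CF.B_WFAC
import Pool.Agent.Lib.CF.Wind

namespace Pool.Agent.CF

theorem all_tm : St_TM := st_tm st_tmc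
theorem all_smmp : St_SMMP := st_smmp st_usc
theorem all_smd : St_SMD := st_smd st_usc all_tm
theorem all_pol : St_POL := st_pol st_pol0
theorem all_punc : St_PUNC := st_punc st_collar
theorem all_reg : St_REG := st_reg st_fib all_punc st_collar
theorem all_ft0 : St_FT0 :=
  st_ft0 st_cut all_pol (st_fta st_fib all_reg st_rad (st_flx (st_dist all_smd)))
theorem all_part : St_PART :=
  st_part st_usc st_fib all_reg (st_har (st_area all_smd)) (st_low (st_tc all_tm all_smmp) all_pol)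
    (st_env all_tm) all_ft0
theorem all_wext : St_WEXT := st_wext st_wfac
theorem all_trz : St_TRZ := st_trz st_fib
theorem all_tube : St_TUBE := st_tube all_reg
theorem all_vb : St_VB := st_vb all_tube
theorem all_move : St_MOVE := st_move st_collar

end Pool.Agent.CF
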