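import Pool.Agent.Lib.CF.B_PART

open Set Metric Filter Topology MeasureTheory

namespace Pool.Agent.CF

namespace ARG

theorem sm_log {F : ℂ → ℂ} {U : Set ℂ} {σ B : ℝ} (hU : IsOpen U) (hF : AnalyticOnNhd ℂ F U)
    (h0 : ∀ z ∈ U, F z ≠ 0) (hB : ∀ z ∈ U, |σ * Real.log ‖F z‖| ≤ B) :
    SM (fun z => σ * Real.log ‖F z‖) U := by
  refine ⟨ContinuousOn.upperSemicontinuousOn (continuousOn_const.mul
    (hF.continuousOn.norm.log fun z hz => norm_ne_zero_iff.2 (h0 z hz))), ⟨B, hB⟩, fun z hz => ?_⟩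
  filter_upwards [nhdsWithin_le_nhds (eventually_closedBall_subset (hU.mem_nhds hz)),
    self_mem_nhdsWithin] with r h1 h2
  have h3 : InnerProductSpace.HarmonicOnNhd (fun z => Real.log ‖F z‖) (closedBall z |r|) := by
    rw [abs_of_pos h2]
    exact fun x hx => (hF x (h1 hx)).harmonicAt_log_norm (h0 x (h1 hx))
  have h4 := Real.circleAverage_fun_smul (a := σ) (f := fun z => Real.log ‖F z‖) (c := z) (R := r)
  simp only [smul_eq_mul] at h4
  rw [h4, h3.circleAverage_eq]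

theorem log_fac {W G a : ℂ} {n : ℤ} (ha : a ≠ 0) (h : W = a ^ n * Complex.exp G) :
    Real.log ‖W‖ = n * Real.log ‖a‖ + G.re := by
  rw [h, norm_mul, norm_zpow, Complex.norm_exp,
    Real.log_mul (zpow_ne_zero _ (norm_ne_zero_iff.2 ha)) (Real.exp_pos _).ne', Real.log_zpow,
    Real.log_exp]

theorem avg_loop {e : End} {W g : ℂ → ℂ} {k : ℤ} {σ s : ℝ} {I : Set ℝ} (hr : 0 < e.r) (hs : s ∈ I)
    (h : ∀ z ∈ e.ann I, AnalyticAt ℂ g z ∧
      (z ≠ e.c → W z = (z - e.c) ^ (-e.sgn * k) * Complex.exp (g z))) :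
    Real.circleAverage (fun z => σ * Real.log ‖W z‖) e.c (e.rad s) =
      σ * (-(k * s) - e.sgn * k * Real.log e.r +
        Real.circleAverage (fun z => (g z).re) e.c (e.rad s)) := by
  have p := End.rad_pos hr s
  have s1 := End.sphere_subset_ann hr hs
  have h1 : EqOn (fun z => σ * Real.log ‖W z‖)
      (fun z => σ • ((-(k * s) - e.sgn * k * Real.log e.r) + (g z).re)) (sphere e.c |e.rad s|) := by
    intro z hz
    rw [abs_of_pos p] at hz
    have := log_fac (sub_ne_zero.2 (s1 hz).1) ((h z (s1 hz)).2 (s1 hz).1)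
    have h2 := e.sgn_mul_self
    simp only [smul_eq_mul]
    rw [this, mem_sphere_iff_norm.1 hz, End.log_rad hr]
    push_cast
    linear_combination (-σ * k * s) * h2
  have h3 : CircleIntegrable (fun z => (g z).re) e.c (e.rad s) :=
    ContinuousOn.circleIntegrable p.le fun z hz =>
      (Complex.continuous_re.continuousAt.comp (h z (s1 hz)).1.continuousAt).continuousWithinAt
  rw [Real.circleAverage_congr_sphere h1, Real.circleAverage_fun_smul,
    Real.circleAverage_fun_add (circleIntegrable_const _ _ _) h3, Real.circleAverage_const,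
    smul_eq_mul]

theorem bd2 {ι : Type} [Fintype ι] (T : Finset ℂ) (f : ι → ℝ) (g : ℂ → ℝ) (hf : ∀ j, 0 ≤ f j)
    (hg : ∀ b, 0 ≤ g b) : ∃ C, 0 ≤ C ∧ (∀ j, f j ≤ C) ∧ ∀ b ∈ T, g b ≤ C := by
  have h1 : 0 ≤ ∑ j, f j := Finset.sum_nonneg fun j _ => hf j
  have h2 : 0 ≤ ∑ b ∈ T, g b := Finset.sum_nonneg fun j _ => hg j
  refine ⟨∑ j, f j + ∑ b ∈ T, g b, by linarith, fun j => ?_, fun b hb => ?_⟩
  · linarith [Finset.single_le_sum (f := f) (fun j _ => hf j) (Finset.mem_univ j)]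
  · linarith [Finset.single_le_sum (f := g) (fun j _ => hg j) hb]

end ARG

open PART ARG in
theorem st_arg (hF : St_FIB) (hG : St_GEO) (hR : St_REG) (hW : St_WEXT) (hZ : St_TRZ)
    (hT : St_FT0) : St_ARG := by
  classical
  intro ι _ P H Γ e Z k hc hoff hH hz0 hzZ hwind
  obtain ⟨⟨D, hD⟩, hfin⟩ := hF ι P Γ e hc
  obtain ⟨Sig, hZS, hbr, hoff'⟩ : ∃ Sig : Finset ℂ, (∀ y ∈ Z, y.1 ∈ Sig) ∧ brv P Γ ⊆ Sig ∧
      Off (Sig : Set ℂ) e := by
    refine ⟨hfin.toFinset.image Prod.fst ∪ Z.image Prod.fst, fun y hy =>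
      Finset.mem_union_right _ (Finset.mem_image_of_mem _ hy), ?_, fun b hb j => ?_⟩
    · rintro _ ⟨y, a, b, rfl⟩
      exact Finset.mem_union_left _ (Finset.mem_image_of_mem _ (hfin.mem_toFinset.2 ⟨a, b⟩))
    · rcases Finset.mem_union.1 hb with a | a <;> obtain ⟨y, hy, rfl⟩ := Finset.mem_image.1 a
      · exact hoff _ ⟨y, (hfin.mem_toFinset.1 hy).1, (hfin.mem_toFinset.1 hy).2, rfl⟩ j
      · exact (hzZ y hy).2.2.2.2 j
  obtain ⟨δ, hδ, HG⟩ := hG ι P Γ e Sig hc hbr hoff'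
  choose g hg1 hg2 using hwind
  have hsm : ∀ {d : ℝ}, 0 < d → ∀ c : ℝ, ∀ᶠ t in 𝓝[>] (0 : ℝ), c * t < d := fun {d} hd c => by
    have : ContinuousAt (fun t : ℝ => c * t) 0 := by fun_prop
    exact nhdsWithin_le_nhds (this.eventually (gt_mem_nhds (by simpa using hd)))
  have hev : ∀ j, ∀ᶠ t in 𝓝[>] (0 : ℝ), ∀ z ∈ (e j).near (2 * t) (2 * t), AnalyticAt ℂ (g j) z ∧
      (z ≠ (e j).c → (e j).res H z =
        (z - (e j).c) ^ (-(e j).sgn * k j) * Complex.exp (g j z)) := fun j => by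
    obtain ⟨d, hd, a⟩ := End.shrink (hc.ok j)
      ((eventually_nhdsSet_iff_forall.2 fun z hz => (hg1 j z hz).eventually_analyticAt).and (hg2 j))
    filter_upwards [hsm hd 2] with t ht using fun z hz => a _ _ ht.le ht.le hz
  obtain ⟨t, ⟨ht1, ht2⟩, ht0⟩ :=
    (((eventually_all.2 hev).and (hsm hδ 1)).and self_mem_nhdsWithin).exists
  have ht0 : 0 < t := ht0
  rw [one_mul] at ht2
  have G := HG t t ht0 ht2 ht0 ht2
  obtain ⟨-, R2⟩ := hR ι P Γ e Sig t t hc G
  have hcore : ∀ a ρ, 0 < a → a ≤ 2 * t → 0 < ρ → ρ ≤ 2 * t → ∃ B, 0 ≤ B ∧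
      ∀ y ∈ core Γ e Sig ρ a, H y ≠ 0 ∧ |Real.log ‖H y‖| ≤ B := fun a ρ h1 h2 h3 h4 => by
    have n0 : ∀ y ∈ core Γ e Sig ρ a, H y ≠ 0 := fun y hy h0 => by
      rcases hz0 y hy.1 h0 with c | ⟨j, c, rfl⟩
      · have := hy.2.1 _ (hZS y c)
        simp at this; linarith
      · exact hy.2.2 j ⟨by rw [End.nearO_pt c]; exact mem_ball_self h3, rfl⟩
    obtain ⟨B, hB⟩ := (R2 a ρ h1 h2 h3 h4).exists_bound_of_continuousOn
      ((hH.continuousOn.mono fun y hy => hy.1).norm.log fun y hy => norm_ne_zero_iff.2 (n0 y hy))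
    exact ⟨|B|, abs_nonneg _, fun y hy => ⟨n0 y hy, (hB y hy).trans (le_abs_self _)⟩⟩
  obtain ⟨B1, hB10, hB1⟩ := hcore (t / 2) (t / 2) (by linarith) (by linarith) (by linarith)
    (by linarith)
  have hB2 : ∀ j, ∃ B, ∀ z ∈ (e j).near (2 * t) (2 * t), ‖(g j z).re‖ ≤ B := fun j =>
    (End.isCompact_near (hc.ok j) _ _).exists_bound_of_continuousOn fun z hz =>
      (Complex.continuous_re.continuousAt.comp (ht1 j z hz).1.continuousAt).continuousWithinAt
  choose B2 hB2 using hB2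
  obtain ⟨m, hsum, hm⟩ : ∃ m : ℂ → ℕ, ∑ b ∈ Sig, m b = Z.card ∧
      ∀ b, ∃ T : Finset ℂ, T.card = m b ∧ ∀ w, w ∈ T ↔ (b, w) ∈ Z := by
    refine ⟨fun b => ((Z.filter fun y => y.1 = b).image Prod.snd).card, ?_, fun b =>
      ⟨_, rfl, fun w => ?_⟩⟩
    · rw [Finset.card_eq_sum_card_fiberwise (f := Prod.fst) (t := Sig) fun y hy => hZS y hy]
      refine Finset.sum_congr rfl fun b _ => Finset.card_image_of_injOn fun y hy y' hy' a => ?_
      exact Prod.ext ((Finset.mem_filter.1 hy).2.trans (Finset.mem_filter.1 hy').2.symm) a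
    · simp only [Finset.mem_image, Finset.mem_filter]
      exact ⟨by rintro ⟨y, ⟨a, rfl⟩, rfl⟩; exact a, fun a => ⟨_, ⟨a, rfl⟩, rfl⟩⟩
  have htr : ∀ b, ∃ C : ℝ, b ∈ Sig → ∀ᶠ r in 𝓝[>] (0 : ℝ), ∀ z, z ≠ b → ‖z - b‖ ≤ 4 * r →
      |tr Γ (fun y => Real.log ‖H y‖) z - m b * Real.log ‖z - b‖| ≤ C := fun b => by
    by_cases hb : b ∈ Sig
    · obtain ⟨T, hT1, hm'⟩ := hm b
      obtain ⟨C, hC⟩ := hZ ι P H Γ e b T hc hH
        (hoff' b hb) (fun w => (hm' w).trans ⟨fun a => ⟨(hzZ _ a).1, (hzZ _ a).2.1⟩, fun a => by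
          rcases hz0 _ a.1 a.2 with c | ⟨j, c, d⟩
          · exact c
          · refine absurd ?_ (hoff' b hb j)
            rw [End.circ_pt (hc.ok j) c]
            exact (Prod.ext_iff.1 d).1⟩)
        fun w hw => ⟨(hzZ _ ((hm' w).1 hw)).2.2.1, (hzZ _ ((hm' w).1 hw)).2.2.2.1⟩
      obtain ⟨d, hd, a⟩ := Metric.eventually_nhds_iff.1 (eventually_nhdsWithin_iff.1 hC)
      refine ⟨C, fun _ => ?_⟩
      filter_upwards [hsm hd 4] with r hr z h1 h2
      rw [← hT1]
      exact a (y := z) (by rw [dist_eq_norm]; linarith) h1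
    · exact ⟨0, fun a => absurd a hb⟩
  choose Cb hCb using htr
  obtain ⟨c0, hc0, HT⟩ := hT
  obtain ⟨C, C0, C3, C4⟩ := bd2 Sig (fun j => |k j * Real.log t| + |B2 j|)
    (fun b => |Cb b| + |m b * Real.log t|) (fun _ => by positivity) fun _ => by positivity
  obtain ⟨S, S0, S3, S4⟩ := bd2 Sig (fun j => |(k j : ℝ)|) (fun b => (m b : ℝ))
    (fun _ => by positivity) fun _ => by positivity
  obtain ⟨Gf, g1, g2, g3⟩ : ∃ Gf : ℂ → ℝ, Integrable Gf ∧ (∀ z, 0 ≤ Gf z) ∧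
      ∀ z w, (z, w) ∈ Γ → Gf z = (D + 1) * B1 := by
    have hK : IsCompact (Prod.fst '' Γ) := hc.cpt.image continuous_fst
    exact ⟨(Prod.fst '' Γ).indicator fun _ => (D + 1) * B1,
      (integrableOn_const hK.measure_lt_top.ne).integrable_indicator hK.measurableSet,
      fun z => indicator_nonneg (fun _ _ => by positivity) z,
      fun z w a => indicator_of_mem (s := Prod.fst '' Γ) ⟨_, a, rfl⟩ _⟩
  have g4 : 0 ≤ ∫ z, Gf z := integral_nonneg g2
  have main : ∀ σ : ℝ, |σ| = 1 → 0 ≤ σ * (∑ j, (k j : ℝ) - Z.card) := fun σ hσ => by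
    have hab : ∀ x : ℝ, |σ * x| = |x| := fun x => by rw [abs_mul, hσ, one_mul]
    have hle : ∀ x : ℝ, σ * x ≤ |x| ∧ -(σ * x) ≤ |x| := fun x =>
      hab x ▸ ⟨le_abs_self _, neg_le_abs _⟩
    refine le_of_forall_pos_le_add fun ε hε => ?_
    obtain ⟨r, hr, hsm'⟩ := small (M := (Fintype.card ι + Sig.card) * c0 *
      (C + (∫ z, Gf z) / t ^ 2 + S)) (r1 := t) (by positivity) hε ht0
    obtain ⟨r2, ⟨⟨q1, q2⟩, q3⟩, h2⟩ := (((((eventually_all_finset Sig).2 fun b hb =>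
      hCb b hb).and (hsm hr 1)).and (hsm ht0 64)).and self_mem_nhdsWithin).exists
    have h2 : 0 < r2 := h2
    obtain ⟨B3, -, hB3⟩ := hcore (t / 16) r2 (by linarith) (by linarith) h2 (by linarith)
    have sub : reg Γ e Sig (t / 16) r2 r2 ⊆ core Γ e Sig r2 (t / 16) := fun y hy =>
      ⟨hy.1, fun b hb => (hy.2.1 b hb).le, fun j hj => hy.2.2 j
        ((e j).gr_mono ((e j).nearO_subset_near le_rfl le_rfl) hj)⟩
    have hu : SMc (fun y => σ * Real.log ‖H y‖) (reg Γ e Sig (t / 16) r2 r2) :=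
      ⟨⟨B3, fun y hy => (hab _).trans_le (hB3 y (sub hy)).2⟩, fun U f a b c =>
        sm_log (F := fun z => H (z, f z)) a
          (fun z hz => AnalyticAt.comp (g := H) (f := fun z => (z, f z)) (hH _ (c z hz).1)
            (analyticAt_id.prod (b z hz)))
          (fun z hz => (hB3 _ (sub (c z hz))).1) fun z hz =>
            (hab _).trans_le (hB3 _ (sub (c z hz))).2⟩
    have htr : ∀ z, tr Γ (fun y => σ * Real.log ‖H y‖) z = σ * tr Γ (fun y => Real.log ‖H y‖) z :=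
      fun z => by rw [tr_eq_sum (hD z).1, tr_eq_sum (hD z).1, Finset.mul_sum]
    have key := HT ι P Γ e Sig t t r2 _ (fun j => σ * k j) (fun b => σ * -(m b)) C
      ((∫ z, Gf z) / t ^ 2) S Gf hc G h2 (by linarith) hu C0 (by positivity)
      S0 (fun j => (hab _).trans_le (S3 j))
      (fun b hb => by rw [hab, abs_neg, Nat.abs_cast]; exact S4 b hb) g1 g2
      (by rw [div_mul_cancel₀ _ (by positivity)])
      (fun j hk s hs => ?_) (fun j hk z => ⟨fun a b => ?_, fun a b => ?_⟩)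
      (fun b hb z => ⟨fun a1 a2 => ?_, fun a1 a2 => ?_⟩)
    · have := hsm' r2 h2 (by linarith)
      have h5 : (∑ b ∈ Sig, (m b : ℝ)) = Z.card := by exact_mod_cast hsum
      rw [← Finset.mul_sum, ← Finset.mul_sum, Finset.sum_neg_distrib, h5] at key
      linarith
    · have hr := (hc.ok j).pos hk
      have m1 : ∀ z ∈ (e j).ann (Ioo (-(2 * t)) (2 * t)), z ∈ (e j).near (2 * t) (2 * t) :=
        fun z hz => by rw [End.near_loop hk]; exact End.ann_mono Ioo_subset_Icc_self hz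
      have i1 : s ∈ Ioo (-(2 * t)) (2 * t) := ⟨by linarith [hs.1], by linarith [hs.2]⟩
      have i2 : s - t / 2 ∈ Ioo (-(2 * t)) (2 * t) := ⟨by linarith [hs.1], by linarith [hs.2]⟩
      have e1 := avg_loop (σ := σ) hr i1 fun z hz => ht1 j z (m1 z hz)
      have e2 := avg_loop (σ := σ) hr i2 fun z hz => ht1 j z (m1 z hz)
      have e3 := hW.2.2.2 (e j) (g j) _ _ hk hr (fun z hz => (ht1 j z (m1 z hz)).1) _ i1 _ i2
      simp only [End.res] at e1 e2
      rw [e1, e2, e3]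
      exact le_of_eq (by ring)
    · have n1 : z ∈ (e j).near (2 * t) (2 * t) := by
        rw [End.near_pt hk, mem_closedBall_iff_norm]; linarith
      have n2 : 0 < ‖z - (e j).c‖ := by linarith
      have n3 := norm_pos_iff.1 n2
      have n4 := log_fac n3 ((ht1 j z n1).2 (sub_ne_zero.1 n3))
      have n5 : (e j).sgn = 1 := by simp [End.sgn, hk]
      simp only [End.res, n5] at n4
      have n6 := (hle (g j z).re).1
      have n7 := (hle (k j * Real.log t)).2
      have n8 := (hB2 j z n1).trans (le_abs_self _)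
      rw [Real.norm_eq_abs] at n8
      rw [n4, Real.log_div ht0.ne' n2.ne']
      push_cast
      nlinarith [C3 j]
    · have n1 := pt_core G j hk a b
      have := (hle (Real.log ‖H (z, (e j).w z)‖)).2.trans (hB1 _ n1).2
      have hD0 : (0 : ℝ) ≤ D * B1 := by positivity
      rw [g3 z _ n1.1]
      linarith
    · have n2 : 0 < ‖z - b‖ := by linarith
      have n1 := (q1 b hb z (sub_ne_zero.1 (norm_pos_iff.1 n2)) a2).trans (le_abs_self _)
      have n3 := (hle _).1.trans n1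
      have n4 := (hle (m b * Real.log t)).1
      rw [htr, Real.log_div ht0.ne' n2.ne']
      nlinarith [C4 b hb]
    · rw [tr_eq_sum (hD z).1, ← Finset.sum_neg_distrib]
      rcases (hD z).1.toFinset.eq_empty_or_nonempty with c | ⟨w, hw⟩
      · rw [c]; simpa using g2 z
      · have c1 : ∑ w ∈ (hD z).1.toFinset, -(σ * Real.log ‖H (z, w)‖) ≤
            (hD z).1.toFinset.card • B1 := Finset.sum_le_card_nsmul _ _ _ fun w hw =>
          (hle _).2.trans (hB1 _ (punc_core G hb a2 ((hD z).1.mem_toFinset.1 hw) a1)).2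
        have c2 : ((hD z).1.toFinset.card : ℝ) ≤ D := by
          rw [← ncard_eq_toFinset_card _ (hD z).1]; exact_mod_cast (hD z).2
        rw [nsmul_eq_mul] at c1
        rw [g3 z w ((hD z).1.mem_toFinset.1 hw)]
        nlinarith
  have a := main 1 (by simp)
  have b := main (-1) (by simp)
  have : (∑ j, (k j : ℝ)) = Z.card := by linarith
  exact_mod_cast this

end Pool.Agent.CF
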