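import Pool.Agent.Lib.CF.Blue2

open Set Metric Filter Topology

namespace Pool.Agent.CF

namespace Ch1

/-- divided differences of a polynomial function -/
structure Had (F : E → ℂ) (A B : E × E → ℂ) : Prop where
  anA : ∀ p, AnalyticAt ℂ A p
  anB : ∀ p, AnalyticAt ℂ B p
  polA : ∀ y, IsPoly fun x => A (x, y)
  polB : ∀ y, IsPoly fun x => B (x, y)
  eq : ∀ x y, F x - F y = (x.1 - y.1) * A (x, y) + (x.2 - y.2) * B (x, y)
  dz : ∀ y, A (y, y) = dz F y
  dw : ∀ y, B (y, y) = dw F y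

theorem had {F : E → ℂ} (h : IsPoly F) : ∃ A B, Had F A B := by
  induction h with
  | const a =>
    exact ⟨fun _ => 0, fun _ => 0, fun _ => analyticAt_const, fun _ => analyticAt_const,
      fun _ => IsPoly.const 0, fun _ => IsPoly.const 0, fun _ _ => by simp, fun _ => by simp,
      fun _ => by simp⟩
  | fst =>
    exact ⟨fun _ => 1, fun _ => 0, fun _ => analyticAt_const, fun _ => analyticAt_const,
      fun _ => IsPoly.const 1, fun _ => IsPoly.const 0, fun _ _ => by simp, fun _ => by simp,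
      fun _ => by simp⟩
  | snd =>
    exact ⟨fun _ => 0, fun _ => 1, fun _ => analyticAt_const, fun _ => analyticAt_const,
      fun _ => IsPoly.const 0, fun _ => IsPoly.const 1, fun _ _ => by simp, fun _ => by simp,
      fun _ => by simp⟩
  | @add F G f g a b =>
    obtain ⟨A, B, a⟩ := a
    obtain ⟨A', B', b⟩ := b
    refine ⟨fun p => A p + A' p, fun p => B p + B' p, fun p => (a.anA p).add (b.anA p),
      fun p => (a.anB p).add (b.anB p), fun y => (a.polA y).add (b.polA y),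
      fun y => (a.polB y).add (b.polB y), fun x y => ?_, fun y => ?_, fun y => ?_⟩
    · linear_combination a.eq x y + b.eq x y
    · rw [dz_add (f.differentiableAt y) (g.differentiableAt y), a.dz, b.dz]
    · rw [dw_add (f.differentiableAt y) (g.differentiableAt y), a.dw, b.dw]
  | @mul F G f g a b =>
    obtain ⟨A, B, a⟩ := a
    obtain ⟨A', B', b⟩ := b
    have h1 : ∀ p : E × E, AnalyticAt ℂ (fun p : E × E => F p.1) p := fun p =>
      AnalyticAt.comp (g := F) (f := Prod.fst) (f.analyticAt _) analyticAt_fst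
    have h2 : ∀ p : E × E, AnalyticAt ℂ (fun p : E × E => G p.2) p := fun p =>
      AnalyticAt.comp (g := G) (f := Prod.snd) (g.analyticAt _) analyticAt_snd
    refine ⟨fun p => A p * G p.2 + F p.1 * A' p, fun p => B p * G p.2 + F p.1 * B' p,
      fun p => ((a.anA p).mul (h2 p)).add ((h1 p).mul (b.anA p)),
      fun p => ((a.anB p).mul (h2 p)).add ((h1 p).mul (b.anB p)),
      fun y => ((a.polA y).mul (IsPoly.const (G y))).add (f.mul (b.polA y)),
      fun y => ((a.polB y).mul (IsPoly.const (G y))).add (f.mul (b.polB y)),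
      fun x y => ?_, fun y => ?_, fun y => ?_⟩
    · linear_combination G y * a.eq x y + F x * b.eq x y
    · rw [dz_mul (f.differentiableAt y) (g.differentiableAt y), a.dz, b.dz]
    · rw [dw_mul (f.differentiableAt y) (g.differentiableAt y), a.dw, b.dw]

theorem small {s d h β k c : ℂ} {M δ : ℝ} (e : ‖s * d‖ = ‖h * β‖) (hM : ‖k * β‖ ≤ M)
    (hc : ‖c‖ * M < δ) (hδ : 0 < δ) (hs : δ ≤ ‖s‖) (hh : h ≠ 0) : ‖k * (c * d)‖ < ‖h‖ := by
  have h0 : 0 < ‖h‖ := norm_pos_iff.2 hh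
  have h1 : 0 < ‖s‖ := hδ.trans_le hs
  refine lt_of_mul_lt_mul_left ?_ h1.le
  rw [norm_mul, norm_mul] at e
  rw [norm_mul] at hM
  calc ‖s‖ * ‖k * (c * d)‖ = ‖c‖ * ‖k‖ * (‖s‖ * ‖d‖) := by rw [norm_mul, norm_mul]; ring
    _ = ‖c‖ * (‖k‖ * ‖β‖) * ‖h‖ := by rw [e]; ring
    _ ≤ ‖c‖ * M * ‖h‖ := by gcongr
    _ < δ * ‖h‖ := by gcongr
    _ ≤ ‖s‖ * ‖h‖ := by gcongr

theorem bound {Γ : Set E} (hΓ : IsCompact Γ) (y0 : E) {K : E → ℂ} (hK : Continuous K)
    {A : E × E → ℂ} (hA : Continuous A) :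
    ∃ M, ∀ x ∈ Γ, ∀ y ∈ closedBall y0 1, ‖K x * A (x, y)‖ ≤ M := by
  have hc : Continuous fun p : E × E => K p.1 * A p := (hK.comp continuous_fst).mul hA
  obtain ⟨M, hM⟩ := (hΓ.prod (isCompact_closedBall y0 1)).exists_bound_of_continuousOn
    hc.continuousOn
  exact ⟨M, fun x hx y hy => hM (x, y) ⟨hx, hy⟩⟩

end Ch1

theorem st_ch1 : St_CH1 := by
  intro ι _ C K Γ e y0 hC hK hy0 hl hw hK0
  obtain ⟨g, hg1, hg2, hg3, hg4⟩ := hC.chart hy0 hl hw
  obtain ⟨A, B, hAB⟩ := Ch1.had hC.poly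
  have cA : Continuous A := continuous_iff_continuousAt.2 fun p => (hAB.anA p).continuousAt
  have cB : Continuous B := continuous_iff_continuousAt.2 fun p => (hAB.anB p).continuousAt
  obtain ⟨M1, hM1⟩ := Ch1.bound hC.cpt y0 hK.continuous cA
  obtain ⟨M2, hM2⟩ := Ch1.bound hC.cpt y0 hK.continuous cB
  have an : ∀ (y : E) (z : ℂ), AnalyticAt ℂ g z →
      AnalyticAt ℂ (fun p : E × ℂ => K (p.2, g p.2) * B ((p.2, g p.2), p.1)) (y, z) := by
    intro y z hz
    have h1 : AnalyticAt ℂ (fun p : E × ℂ => ((p.2, g p.2) : E)) (y, z) :=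
      analyticAt_snd.prod (AnalyticAt.comp (g := g) (f := Prod.snd) hz analyticAt_snd)
    exact (AnalyticAt.comp (g := K) (hK.analyticAt _) h1).mul
      (AnalyticAt.comp (g := B) (hAB.anB _) (h1.prod analyticAt_fst))
  obtain ⟨L, t, ht, hL⟩ := ((an y0 y0.1 hg1).contDiffAt (n := 1)).exists_lipschitzOnWith
  obtain ⟨t1, ht1, t2, ht2, ht12⟩ := mem_nhds_prod_iff.1 ht
  obtain ⟨U, hU1, hU2, hU3⟩ := _root_.eventually_nhds_iff.1
    (hg1.eventually_analyticAt.and (hg3.and (show ∀ᶠ z in 𝓝 y0.1, z ∈ t2 from ht2)))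
  have hev : ∀ᶠ x in 𝓝 y0, (x ∈ Γ ↔ x.2 = g x.1) ∧ x ∉ loops e ∧ x.1 ∈ U ∧ dw C x ≠ 0 :=
    hg4.and (Filter.Eventually.and (hC.isCompact_loops.isClosed.isOpen_compl.mem_nhds hl)
      ((continuous_fst.continuousAt.eventually (hU2.mem_nhds hU3)).and
        (hC.poly.dw.continuous.continuousAt.eventually_ne hw)))
  obtain ⟨δ2, hδ2, hbox⟩ := Metric.eventually_nhds_iff.1 hev
  obtain ⟨δ, hδ, hδa, hδb⟩ : ∃ δ : ℝ, 0 < δ ∧ 2 * δ ≤ δ2 ∧ δ ≤ 1 :=
    ⟨min (δ2 / 2) 1, by positivity, by linarith [min_le_left (δ2 / 2) 1], min_le_right _ _⟩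
  have cD : Continuous fun p : E × E => K p.2 * B (p.2, p.1) :=
    (hK.continuous.comp continuous_snd).mul (cB.comp (continuous_snd.prodMk continuous_fst))
  have hD0 : (fun p : E × E => K p.2 * B (p.2, p.1)) (y0, y0) ≠ 0 :=
    mul_ne_zero hK0 (by rw [hAB.dw]; exact hw)
  have cc : Tendsto (fun p : E × E => ‖-(p.2.1 - p.1.1) / (K p.2 * B (p.2, p.1))‖) (𝓝 (y0, y0))
      (𝓝 0) := by
    have h1 : ContinuousAt (fun p : E × E => ‖-(p.2.1 - p.1.1) / (K p.2 * B (p.2, p.1))‖)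
        (y0, y0) := (ContinuousAt.div (by fun_prop) cD.continuousAt hD0).norm
    simpa using h1.tendsto
  have sm : ∀ (M η : ℝ), 0 < η → ∀ᶠ p : E × E in 𝓝 (y0, y0),
      ‖-(p.2.1 - p.1.1) / (K p.2 * B (p.2, p.1))‖ * M < η := fun M η hη =>
    (cc.mul_const M).eventually (gt_mem_nhds (by simpa using hη))
  obtain ⟨u, hu, v, hv, huv⟩ := mem_nhds_prod_iff.1 ((sm M1 δ hδ).and ((sm M2 δ hδ).and
    ((sm L 1 one_pos).and (cD.continuousAt.eventually_ne hD0))))
  refine ⟨u ∩ v ∩ ball y0 δ ∩ t1 ∩ {x | K x ≠ 0}, inter_mem (inter_mem (inter_mem (inter_mem hu hv)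
    (ball_mem_nhds _ hδ)) ht1) (hK.continuous.continuousAt.eventually_ne hK0), ?_⟩
  rintro y ⟨⟨⟨⟨yu, -⟩, yb⟩, yt⟩, yK⟩ y' ⟨⟨⟨⟨-, yv'⟩, yb'⟩, -⟩, -⟩ hy hy' h hh hz hj
  have by1 := hbox (show dist y y0 < δ2 by linarith [mem_ball.1 yb])
  have by2 := hbox (show dist y' y0 < δ2 by linarith [mem_ball.1 yb'])
  have gy : y.2 = g y.1 := by1.1.1 hy
  have gy' : y'.2 = g y'.1 := by2.1.1 hy'
  by_cases hyy : y.1 = y'.1
  · have e1 : y = y' := Prod.ext hyy (by rw [gy, gy', hyy])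
    subst e1
    refine ⟨fun _ => 0, IsPoly.const 0, by simpa using hz, by simpa using hj, fun x hx => ?_⟩
    have : h x ≠ 0 := fun a => by1.2.1 ((hz x (hC.loops_subset hx)).1 a ▸ hx)
    simpa using this
  obtain ⟨s1, s2, s3, s4⟩ := huv (mk_mem_prod yu yv')
  simp only at s1 s2 s3 s4
  obtain ⟨c, hc⟩ : ∃ c, c = -(y'.1 - y.1) / (K y' * B (y', y)) := ⟨_, rfl⟩
  rw [← hc] at s1 s2 s3
  have hc0 : c ≠ 0 := by
    rw [hc]
    exact div_ne_zero (neg_ne_zero.2 (sub_ne_zero.2 (Ne.symm hyy))) s4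
  have hc1 : y'.1 - y.1 + c * (K y' * B (y', y)) = 0 := by
    rw [hc, div_mul_cancel₀ _ s4, add_neg_cancel]
  obtain ⟨A', B', hh'⟩ := Ch1.had hh
  have hy0' : h y = 0 := (hz y hy).2 rfl
  have id1 : ∀ x ∈ Γ, (x.1 - y.1) * (A' (x, y) * B (x, y) - B' (x, y) * A (x, y)) =
      h x * B (x, y) := by
    intro x hx
    have a := hAB.eq x y
    have b := hh'.eq x y
    rw [hC.zero x hx, hC.zero y hy] at a
    rw [hy0'] at b
    linear_combination B' (x, y) * a - B (x, y) * b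
  have id2 : ∀ x ∈ Γ, (x.2 - y.2) * (A' (x, y) * B (x, y) - B' (x, y) * A (x, y)) =
      -(h x * A (x, y)) := by
    intro x hx
    have a := hAB.eq x y
    have b := hh'.eq x y
    rw [hC.zero x hx, hC.zero y hy] at a
    rw [hy0'] at b
    linear_combination A (x, y) * b - A' (x, y) * a
  have pD : IsPoly fun x => c * (A' (x, y) * B (x, y) - B' (x, y) * A (x, y)) :=
    (IsPoly.const c).mul (((hh'.polA y).mul (hAB.polB y)).sub ((hh'.polB y).mul (hAB.polA y)))
  have yc : y ∈ closedBall y0 1 := mem_closedBall.2 (by linarith [mem_ball.1 yb])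
  have off : ∀ x ∈ Γ, δ2 ≤ dist x y0 →
      ‖K x * (c * (A' (x, y) * B (x, y) - B' (x, y) * A (x, y)))‖ < ‖h x‖ := by
    intro x hx hd
    have h1 : δ ≤ dist x y := by linarith [dist_triangle x y y0, mem_ball.1 yb]
    have h2 : h x ≠ 0 := fun a => by
      rw [(hz x hx).1 a, dist_self] at h1
      linarith
    rw [Prod.dist_eq, le_max_iff, dist_eq_norm, dist_eq_norm] at h1
    rcases h1 with h1 | h1
    · exact Ch1.small (by rw [id1 x hx]) (hM2 x hx y yc) s2 hδ h1 h2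
    · exact Ch1.small (by rw [id2 x hx, norm_neg]) (hM1 x hx y yc) s1 hδ h1 h2
  have lip : ∀ z ∈ U, ‖K (z, g z) * B ((z, g z), y) - K y' * B (y', y)‖ ≤ L * ‖z - y'.1‖ := by
    intro z hzU
    have h1 := hL.dist_le_mul (y, z) (ht12 (mk_mem_prod yt (hU1 z hzU).2.2)) (y, y'.1)
      (ht12 (mk_mem_prod yt (hU1 _ by2.2.2.1).2.2))
    rw [dist_prod_same_left] at h1
    simp only [← gy', dist_eq_norm] at h1
    exact h1
  have inj : ∀ z ∈ U, z - y.1 + c * (K (z, g z) * B ((z, g z), y)) = 0 → z = y'.1 := by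
    intro z hzU h1
    by_contra h2
    have h3 : 0 < ‖z - y'.1‖ := norm_pos_iff.2 (sub_ne_zero.2 h2)
    have h4 : z - y'.1 = -(c * (K (z, g z) * B ((z, g z), y) - K y' * B (y', y))) := by
      linear_combination h1 - hc1
    have h5 : ‖z - y'.1‖ ≤ ‖c‖ * (L * ‖z - y'.1‖) := by
      conv_lhs => rw [h4, norm_neg, norm_mul]
      exact mul_le_mul_of_nonneg_left (lip z hzU) (norm_nonneg _)
    nlinarith
  have id3 : ∀ x ∈ Γ, (x.1 - y.1) *
      (h x + K x * (c * (A' (x, y) * B (x, y) - B' (x, y) * A (x, y)))) =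
      h x * (x.1 - y.1 + c * (K x * B (x, y))) := fun x hx => by
    linear_combination K x * c * id1 x hx
  have z' : h y' + K y' * (c * (A' (y', y) * B (y', y) - B' (y', y) * A (y', y))) = 0 := by
    have := id3 y' hy'
    rw [hc1, mul_zero] at this
    exact (mul_eq_zero.1 this).resolve_left (sub_ne_zero.2 (Ne.symm hyy))
  refine ⟨_, pD, fun x hx => ⟨fun h1 => ?_, fun h1 => h1 ▸ z'⟩, ?_, fun x hx => ?_⟩
  · by_cases hd : δ2 ≤ dist x y0
    · have h2 := off x hx hd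
      rw [eq_neg_of_add_eq_zero_right h1, norm_neg] at h2
      exact absurd h2 (lt_irrefl _)
    · have bx := hbox (not_le.1 hd)
      have gx : x.2 = g x.1 := bx.1.1 hx
      by_cases hxy : x = y
      · rw [hxy, hy0', zero_add, hh'.dz, hh'.dw, hAB.dz, hAB.dw] at h1
        exact absurd h1 (mul_ne_zero yK (mul_ne_zero hc0 hj))
      · have h2 := id3 x hx
        rw [h1, mul_zero] at h2
        have h3 := (mul_eq_zero.1 h2.symm).resolve_left fun a => hxy ((hz x hx).1 a)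
        have h4 : x.1 = y'.1 := inj x.1 bx.2.2.1 (by rw [← gx]; exact h3)
        exact Prod.ext h4 (by rw [gx, gy', h4])
  · intro hj0
    have ag := (hU1 _ by2.2.2.1).1
    have ey : ((y'.1, g y'.1) : E) = y' := by rw [← gy']
    have evΓ : ∀ᶠ z in 𝓝 y'.1, (z, g z) ∈ Γ :=
      mem_of_superset (hU2.mem_nhds by2.2.2.1) fun z a => (hU1 z a).2.1
    have ev0 : ∀ᶠ z in 𝓝 y'.1, C (z, g z) = 0 := evΓ.mono fun z a => hC.zero _ a
    have dwy : dw C (y'.1, g y'.1) ≠ 0 := by rw [ey]; exact by2.2.2.2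
    have d1 := hasDerivAt_res ((hh.add (hK.mul pD)).differentiableAt _)
      (hC.poly.differentiableAt _) ag.differentiableAt ev0 dwy
    have d2 := hasDerivAt_res (hh.differentiableAt _) (hC.poly.differentiableAt _)
      ag.differentiableAt ev0 dwy
    have d3 : DifferentiableAt ℂ (fun z => K (z, g z) * B ((z, g z), y)) y'.1 :=
      (AnalyticAt.comp (g := fun p : E × ℂ => K (p.2, g p.2) * B ((p.2, g p.2), p.1))
        (f := fun z : ℂ => (y, z)) (an y y'.1 ag)
        (analyticAt_const.prod analyticAt_id)).differentiableAt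
    have d4 : ‖deriv (fun z => K (z, g z) * B ((z, g z), y)) y'.1‖ ≤ L := by
      refine d3.hasDerivAt.le_of_lip' L.2 ?_
      filter_upwards [hU2.mem_nhds by2.2.2.1] with z hzU
      rw [ey]
      exact lip z hzU
    have d5 := (((hasDerivAt_id y'.1).sub_const y.1).fun_mul d1)
    have d6 := d2.fun_mul (((hasDerivAt_id y'.1).sub_const y.1).fun_add
      (d3.hasDerivAt.const_mul c))
    have d7 := d5.unique (d6.congr_of_eventuallyEq (evΓ.mono fun z a => id3 _ a))
    simp only [ey, id] at d7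
    rw [hj0, z', hc1] at d7
    have h1 : h y' ≠ 0 := fun a => hyy (by rw [(hz y' hy').1 a])
    have h2 : 1 + c * deriv (fun z => K (z, g z) * B ((z, g z), y)) y'.1 = 0 := by
      refine (mul_eq_zero.1 ?_).resolve_left h1
      linear_combination -d7
    have h3 : (1 : ℝ) = ‖c‖ * ‖deriv (fun z => K (z, g z) * B ((z, g z), y)) y'.1‖ := by
      rw [← norm_mul, eq_neg_of_add_eq_zero_right h2, norm_neg, norm_one]
    have h4 := mul_le_mul_of_nonneg_left d4 (norm_nonneg c)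
    linarith
  · refine off x (hC.loops_subset hx) (not_lt.1 fun a => (hbox a).2.1 hx)

end Pool.Agent.CF
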