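import Pool.Agent.Lib.CF.Blue2

open Set Metric Filter Topology

namespace Pool.Agent.CF

namespace Chain

theorem perturb {e : End} {W V : ℂ → ℂ} {k : ℤ} (hW : AnalyticOnNhd ℂ W e.circ)
    (hV : AnalyticOnNhd ℂ V e.circ) (h : ∀ z ∈ e.circ, ‖V z‖ < ‖W z‖) (hk : HasWind e W k) :
    HasWind e (fun z => W z + V z) k := by
  obtain ⟨g, hg, hk⟩ := hk
  have h0 : ∀ z ∈ e.circ, W z ≠ 0 := fun z hz => norm_pos_iff.1 ((norm_nonneg _).trans_lt (h z hz))
  have hu : ∀ z ∈ e.circ, AnalyticAt ℂ (fun x => 1 + V x / W x) z := fun z hz =>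
    analyticAt_const.add ((hV z hz).div (hW z hz) (h0 z hz))
  have hs : ∀ z ∈ e.circ, 1 + V z / W z ∈ Complex.slitPlane := fun z hz =>
    Complex.mem_slitPlane_of_norm_lt_one (by
      rw [norm_div, div_lt_one (norm_pos_iff.2 (h0 z hz))]; exact h z hz)
  refine ⟨fun z => g z + Complex.log (1 + V z / W z), fun z hz => (hg z hz).add ((hu z hz).clog (hs z hz)), ?_⟩
  have e1 : ∀ᶠ z in 𝓝ˢ e.circ, W z ≠ 0 ∧ 1 + V z / W z ≠ 0 :=
    eventually_nhdsSet_iff_forall.2 fun z hz =>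
      ((hW z hz).continuousAt.eventually_ne (h0 z hz)).and
        ((hu z hz).continuousAt.eventually_ne (Complex.slitPlane_ne_zero (hs z hz)))
  filter_upwards [hk, e1] with z a b hz
  rw [Complex.exp_add, Complex.exp_log b.2, ← mul_assoc, ← a hz]
  field_simp [b.1]

theorem res_an {ι : Type} {C H : E → ℂ} {Γ : Set E} {e : ι → End} (h : IsCurve C Γ e)
    (hH : IsPoly H) (j : ι) : AnalyticOnNhd ℂ ((e j).res H) (e j).circ := fun z hz =>
  (hH.analyticAt _).comp (f := fun z => ((z, (e j).w z) : E)) (analyticAt_id.prod (h.wan j z hz))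

end Chain

open Chain

theorem st_chain (hF : St_FIB) (hP : St_PUNC) (hC : St_CH1) : St_CHAIN := by
  intro ι _ C K Γ e y0 y hc hK hfin h1 h2 h3 h4 h5 h6 h7 h8 h9
  set T : Set E := {x | x ∈ Γ ∧ dw C x = 0} ∪ {x | x ∈ Γ ∧ K x = 0} with hT
  have hpre := hP ι C Γ e T hc ((hF ι C Γ e hc).2.union hfin)
  have hmem : ∀ x, x ∈ (Γ \ loops e) \ T ↔ x ∈ Γ ∧ x ∉ loops e ∧ dw C x ≠ 0 ∧ K x ≠ 0 := fun x => by
    simp only [hT, mem_diff, mem_union, mem_setOf_eq]; tauto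
  let Good : E → Prop := fun y => ∃ D : E → ℂ, IsPoly D ∧
    (∀ x ∈ Γ, x.1 - y0.1 + K x * D x = 0 ↔ x = y) ∧
    jac (fun x => x.1 - y0.1 + K x * D x) C y ≠ 0 ∧
    ∀ j k, (e j).k ≠ Kind.pt → HasWind (e j) (fun z => z - y0.1) k →
      HasWind (e j) ((e j).res fun x => x.1 - y0.1 + K x * D x) k
  have step : ∀ a b : E, (∀ h : E → ℂ, IsPoly h → (∀ x ∈ Γ, h x = 0 ↔ x = a) → jac h C a ≠ 0 →
      ∃ D : E → ℂ, IsPoly D ∧ (∀ x ∈ Γ, h x + K x * D x = 0 ↔ x = b) ∧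
        jac (fun x => h x + K x * D x) C b ≠ 0 ∧ ∀ x ∈ loops e, ‖K x * D x‖ < ‖h x‖) →
      Good a → Good b := by
    rintro a b H ⟨D, d1, d2, d3, d4⟩
    have hp : IsPoly fun x : E => x.1 - y0.1 + K x * D x :=
      (IsPoly.fst.sub (IsPoly.const _)).add (hK.mul d1)
    obtain ⟨D', e1, e2, e3, e4⟩ := H _ hp d2 d3
    have eq : (fun x : E => x.1 - y0.1 + K x * (D x + D' x)) =
        fun x => x.1 - y0.1 + K x * D x + K x * D' x := funext fun x => by ring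
    refine ⟨fun x => D x + D' x, d1.add e1, fun x hx => ?_, by rw [eq]; exact e3, fun j k hj hk => ?_⟩
    · rw [← e2 x hx, congrFun eq x]
    · rw [eq]
      exact perturb (res_an hc hp j) (res_an hc (hK.mul e1) j)
        (fun z hz => e4 _ ⟨j, hj, hz, rfl⟩) (d4 j k hj hk)
  have key : Good y0 → Good y := by
    refine hpre.induction₂' (fun a b => Good a → Good b) (fun x hx => ?_)
      (fun _ _ _ _ _ _ f g a => g (f a)) ((hmem y0).2 ⟨h1, h2, h3, h4⟩) ((hmem y).2 ⟨h6, h7, h8, h9⟩)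
    obtain ⟨x1, x2, x3, x4⟩ := (hmem x).1 hx
    obtain ⟨N, hN, H⟩ := hC ι C K Γ e x hc hK x1 x2 x3 x4
    filter_upwards [mem_nhdsWithin_of_mem_nhds hN, self_mem_nhdsWithin] with b hb hb'
    have b1 := ((hmem b).1 hb').1
    exact ⟨step x b (H x (mem_of_mem_nhds hN) b hb x1 b1), step b x (H b hb x (mem_of_mem_nhds hN) b1 x1)⟩
  have eq : (fun x : E => x.1 - y0.1 + K x * 0) = fun x => x.1 - y0.1 := funext fun x => by ring
  refine key ⟨fun _ => 0, IsPoly.const 0, fun x hx => ?_, ?_, fun j k _ hk => ?_⟩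
  · rw [mul_zero, add_zero, sub_eq_zero]
    exact ⟨h5 x hx, fun h => h ▸ rfl⟩
  · rw [eq, jac, dz_sub differentiableAt_fst (differentiableAt_const _),
      dw_sub differentiableAt_fst (differentiableAt_const _)]
    simpa using h3
  · rw [eq]; exact hk

end Pool.Agent.CF
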