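import Pool.Agent.Lib.CF.Blue2

open Set Metric Filter Topology

namespace Pool.Agent.CF

namespace Lnode

/-- a pair of analytic functions with nonzero Jacobian is a local chart -/
lemma chart {X Y : E → ℂ} {y : E} (hX : AnalyticAt ℂ X y) (hY : AnalyticAt ℂ Y y)
    (hJ : jac X Y y ≠ 0) :
    ∃ Φ : OpenPartialHomeomorph E E, y ∈ Φ.source ∧ ∀ x, Φ x = (X x, Y x) := by
  have hs : HasStrictFDerivAt (fun x => ((X x, Y x) : E))
      ((fderiv ℂ X y).prod (fderiv ℂ Y y)) y :=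
    hX.hasStrictFDerivAt.prodMk hY.hasStrictFDerivAt
  have hinj : Function.Injective ((fderiv ℂ X y).prod (fderiv ℂ Y y)) := by
    rw [injective_iff_map_eq_zero]
    rintro ⟨a, b⟩ h
    rw [ContinuousLinearMap.prod_apply, fderiv_apply hX.differentiableAt,
      fderiv_apply hY.differentiableAt, Prod.mk_eq_zero] at h
    obtain ⟨h1, h2⟩ := h
    have ha : jac X Y y * a = 0 := by
      unfold jac
      linear_combination dw Y y * h1 - dw X y * h2
    have hb : jac X Y y * b = 0 := by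
      unfold jac
      linear_combination dz X y * h2 - dz Y y * h1
    rw [(mul_eq_zero.1 ha).resolve_left hJ, (mul_eq_zero.1 hb).resolve_left hJ]
    rfl
  have hker : ((fderiv ℂ X y).prod (fderiv ℂ Y y)).ker = ⊥ := LinearMap.ker_eq_bot.2 hinj
  have hran : ((fderiv ℂ X y).prod (fderiv ℂ Y y)).range = ⊤ :=
    LinearMap.range_eq_top.2 (LinearMap.injective_iff_surjective.1 hinj)
  have hs' : HasStrictFDerivAt (fun x => ((X x, Y x) : E))
      ((ContinuousLinearEquiv.ofBijective _ hker hran : E ≃L[ℂ] E) : E →L[ℂ] E) y := by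
    rw [ContinuousLinearEquiv.coe_ofBijective]
    exact hs
  exact ⟨hs'.toOpenPartialHomeomorph _, hs'.mem_toOpenPartialHomeomorph_source, fun _ => rfl⟩

lemma annulus_conn {r1 r2 : ℝ} (h : 0 ≤ r1) :
    IsPreconnected {u : ℂ | r1 < ‖u‖ ∧ ‖u‖ < r2} := by
  have he : {u : ℂ | r1 < ‖u‖ ∧ ‖u‖ < r2} =
      (fun p : ℝ × ℝ => circleMap 0 p.1 p.2) '' (Ioo r1 r2 ×ˢ univ) := by
    ext u
    refine ⟨fun hu => ⟨(‖u‖, u.arg), ⟨hu, mem_univ _⟩, ?_⟩, ?_⟩
    · simp [circleMap]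
    · rintro ⟨p, hp, rfl⟩
      have h1 : ‖circleMap 0 p.1 p.2‖ = p.1 := by
        rw [norm_circleMap_zero, abs_of_pos (h.trans_lt hp.1.1)]
      simpa [h1] using hp.1
  rw [he]
  refine (isPreconnected_Ioo.prod isPreconnected_univ).image _ (Continuous.continuousOn ?_)
  unfold circleMap
  fun_prop

/-- the hyperbola in the bidisc -/
lemma hyp_eq {a : ℝ} (ha : 0 < a) {ε : ℂ} (hε : ε ≠ 0) :
    {p : E | p.1 * p.2 = ε} ∩ ball 0 a =
      (fun u : ℂ => ((u, ε / u) : E)) '' {u : ℂ | ‖ε‖ / a < ‖u‖ ∧ ‖u‖ < a} := by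
  ext ⟨u, v⟩
  simp only [mem_inter_iff, mem_ofPred_eq, mem_ball_zero_iff, Prod.norm_mk, max_lt_iff, mem_image,
    Prod.mk.injEq]
  constructor
  · rintro ⟨h1, h2, h3⟩
    have hu : u ≠ 0 := fun h => hε (by rw [← h1, h, zero_mul])
    refine ⟨u, ⟨?_, h2⟩, rfl, ?_⟩
    · rw [div_lt_iff₀ ha, ← h1, norm_mul]
      exact mul_lt_mul_of_pos_left h3 (norm_pos_iff.2 hu)
    · rw [← h1]
      field_simp
  · rintro ⟨u', ⟨h1, h2⟩, rfl, rfl⟩
    have hu : 0 < ‖u'‖ := (div_nonneg (norm_nonneg _) ha.le).trans_lt h1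
    have hu' : u' ≠ 0 := norm_pos_iff.1 hu
    refine ⟨by field_simp, h2, ?_⟩
    rw [norm_div, div_lt_iff₀ hu]
    rw [div_lt_iff₀ ha] at h1
    linarith

lemma hyp_conn {a : ℝ} (ha : 0 < a) {ε : ℂ} (hε : ε ≠ 0) :
    IsPreconnected ({p : E | p.1 * p.2 = ε} ∩ ball 0 a) := by
  rw [hyp_eq ha hε]
  refine (annulus_conn (div_nonneg (norm_nonneg _) ha.le)).image _ ?_
  refine continuousOn_id.prodMk (continuousOn_const.div continuousOn_id fun u hu => ?_)
  exact norm_pos_iff.1 ((div_nonneg (norm_nonneg _) ha.le).trans_lt hu.1)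

lemma hyp_ne {a : ℝ} (ha : 0 < a) {ε : ℂ} (hε : ε ≠ 0) (h : ‖ε‖ < a * a) :
    ({p : E | p.1 * p.2 = ε} ∩ ball 0 a).Nonempty := by
  rw [hyp_eq ha hε]
  have h1 : ‖ε‖ / a < a := by rwa [div_lt_iff₀ ha]
  obtain ⟨t, ht1, ht2⟩ := exists_between h1
  have ht : 0 ≤ t := (div_nonneg (norm_nonneg _) ha.le).trans ht1.le
  refine Nonempty.image _ ⟨(t : ℂ), ?_⟩
  simp only [mem_ofPred_eq, Complex.norm_real, Real.norm_eq_abs, abs_of_nonneg ht]
  exact ⟨ht1, ht2⟩

lemma conn_model {X Y : E → ℂ} {y : E} (hX : AnalyticAt ℂ X y) (hY : AnalyticAt ℂ Y y)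
    (hX0 : X y = 0) (hY0 : Y y = 0) (hJ : jac X Y y ≠ 0) :
    LocConn (fun ε x => X x * Y x - ε) y := by
  obtain ⟨Φ, hy, hΦ⟩ := chart hX hY hJ
  intro N hN
  have h0 : Φ y = 0 := by rw [hΦ, hX0, hY0]; rfl
  have h1 : Φ '' (N ∩ Φ.source) ∈ 𝓝 (0 : E) := by
    rw [← h0]
    exact Φ.image_mem_nhds hy (inter_mem hN (Φ.open_source.mem_nhds hy))
  obtain ⟨a, ha, hball⟩ := Metric.mem_nhds_iff.1 h1
  have htar : ball (0 : E) a ⊆ Φ.target := fun p hp => by
    obtain ⟨x, hx, rfl⟩ := hball hp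
    exact Φ.map_source hx.2
  refine ⟨Φ.source ∩ Φ ⁻¹' ball 0 a, Φ.isOpen_inter_preimage isOpen_ball,
    ⟨hy, by rw [mem_preimage, h0]; exact mem_ball_self ha⟩, ?_, ?_⟩
  · intro x hx
    obtain ⟨x', hx', he⟩ := hball hx.2
    rw [← Φ.injOn hx'.2 hx.1 he]
    exact hx'.1
  · have h2 : ∀ᶠ ε in 𝓝 (0 : ℂ), ‖ε‖ < a * a := by
      have := ball_mem_nhds (0 : ℂ) (mul_pos ha ha)
      filter_upwards [this] with ε hε using mem_ball_zero_iff.1 hε
    filter_upwards [self_mem_nhdsWithin, mem_nhdsWithin_of_mem_nhds h2] with ε hε hε2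
    have he : {x | X x * Y x - ε = 0} ∩ (Φ.source ∩ Φ ⁻¹' ball 0 a) =
        Φ.symm '' ({p : E | p.1 * p.2 = ε} ∩ ball 0 a) := by
      ext x
      constructor
      · rintro ⟨h3, h4, h5⟩
        refine ⟨Φ x, ⟨?_, h5⟩, Φ.left_inv h4⟩
        rw [mem_ofPred_eq, hΦ]
        exact sub_eq_zero.1 h3
      · rintro ⟨p, ⟨h3, h4⟩, rfl⟩
        have h5 := Φ.right_inv (htar h4)
        refine ⟨?_, Φ.map_target (htar h4), by rw [mem_preimage, h5]; exact h4⟩
        rw [hΦ] at h5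
        have h6 : X (Φ.symm p) = p.1 := congrArg Prod.fst h5
        have h7 : Y (Φ.symm p) = p.2 := congrArg Prod.snd h5
        rw [mem_ofPred_eq, sub_eq_zero, h6, h7]
        exact h3
    rw [he]
    exact ⟨(hyp_conn ha hε).image _ (Φ.continuousOn_symm.mono fun p hp => htar hp.2),
      (hyp_ne ha hε hε2).image _⟩

lemma smooth_model {X Y q : E → ℂ} {A : ℂ → E → ℂ} {y : E} (hX : AnalyticAt ℂ X y)
    (hY : AnalyticAt ℂ Y y) (hq : AnalyticAt ℂ q y) (hq0 : q y ≠ 0) (hJ : jac X Y y ≠ 0)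
    (hA : ∀ᶠ x in 𝓝 y, ∀ ε, A ε x = q x * (X x * Y x - ε)) : LocSmooth A y := by
  have h1 := hX.eventually_analyticAt
  have h2 := hY.eventually_analyticAt
  have h3 := hq.eventually_analyticAt
  have h4 := hq.continuousAt.eventually_ne hq0
  have h5 := (analyticAt_jac hX hY).continuousAt.eventually_ne hJ
  refine ⟨_, ((h1.and h2).and (h3.and h4)).and (h5.and hA.eventually_nhds), ?_⟩
  rintro ε hε x ⟨⟨⟨a1, a2⟩, a3, a4⟩, a5, a6⟩ h0
  have e1 : A ε =ᶠ[𝓝 x] fun x => q x * (X x * Y x - ε) := a6.mono fun x h => h ε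
  have e0 : X x * Y x - ε = 0 := by
    rw [e1.self_of_nhds] at h0
    exact (mul_eq_zero.1 h0).resolve_left a4
  have d1 := a1.differentiableAt
  have d2 := a2.differentiableAt
  have d3 := a3.differentiableAt
  have d4 : DifferentiableAt ℂ (fun x => X x * Y x) x := d1.mul d2
  have d5 : DifferentiableAt ℂ (fun x => X x * Y x - ε) x := d4.sub_const ε
  by_contra hn
  rw [not_or, not_not, not_not, dz_congr e1, dw_congr e1, dz_mul d3 d5, dw_mul d3 d5,
    dz_sub d4 (differentiableAt_const ε), dw_sub d4 (differentiableAt_const ε), dz_mul d1 d2,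
    dw_mul d1 d2, e0, dz_const, dw_const] at hn
  obtain ⟨n1, n2⟩ := hn
  have hx : q x * jac X Y x * X x = 0 := by
    unfold jac
    linear_combination dz X x * n2 - dw X x * n1
  have hx0 : X x = 0 := (mul_eq_zero.1 hx).resolve_left (mul_ne_zero a4 a5)
  rw [hx0, zero_mul, zero_sub, neg_eq_zero] at e0
  exact hε e0

lemma conn_congr {A A' : ℂ → E → ℂ} {y : E} (h : LocConn A' y)
    (hA : ∀ᶠ x in 𝓝 y, ∀ ε, A ε x = 0 ↔ A' ε x = 0) : LocConn A y := by
  intro N hN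
  obtain ⟨B, h1, h2, h3, h4⟩ := h _ (inter_mem hN hA)
  refine ⟨B, h1, h2, fun x hx => (h3 hx).1, h4.mono fun ε hε => ?_⟩
  have he : {x | A ε x = 0} ∩ B = {x | A' ε x = 0} ∩ B := by
    ext x
    exact and_congr_left fun hx => (h3 hx).2 ε
  rw [he]
  exact hε

end Lnode

theorem st_lnode : St_LNODE := by
  intro C K G q y hC hK hG hq hC0 hK0 hJ hG0 hq0
  have aC := hC.analyticAt y
  have aK := hK.analyticAt y
  have aq := hq.analyticAt y
  have aU : AnalyticAt ℂ (fun x => G x / q x) y := (hG.analyticAt y).div aq hq0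
  have aX : AnalyticAt ℂ (fun x => G x / q x * C x) y := aU.mul aC
  have hJ' : jac (fun x => G x / q x * C x) K y ≠ 0 := by
    have : jac (fun x => G x / q x * C x) K y = -(G y / q y * jac K C y) := by
      unfold jac
      rw [dz_mul aU.differentiableAt aC.differentiableAt,
        dw_mul aU.differentiableAt aC.differentiableAt, hC0]
      ring
    rw [this]
    exact neg_ne_zero.2 (mul_ne_zero (div_ne_zero hG0 hq0) hJ)
  have hne := aq.continuousAt.eventually_ne hq0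
  have hA : ∀ᶠ x in 𝓝 y, ∀ ε, pen (fun x => G x * K x * C x) q ε x =
      q x * (G x / q x * C x * K x - ε) := by
    filter_upwards [hne] with x hx ε
    unfold pen
    field_simp
  refine ⟨Lnode.conn_congr (Lnode.conn_model aX aK (by simp [hC0]) hK0 hJ') ?_,
    Lnode.smooth_model aX aK aq hq0 hJ' hA⟩
  filter_upwards [hne, hA] with x h1 h2 ε
  rw [h2 ε, mul_eq_zero, or_iff_right h1]

end Pool.Agent.CF
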