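import Pool.Agent.Lib.CF.Blue2

open Set Metric Filter Topology

namespace Pool.Agent.CF

namespace LREG

theorem core {A : ℂ → E → ℂ} {y : E} {g : ℂ × ℂ → ℂ} (hg : AnalyticAt ℂ g (y.1, 0))
    (h0 : g (y.1, 0) = y.2)
    (h : ∀ᶠ x in 𝓝 (((y.1, 0), y.2) : (ℂ × ℂ) × ℂ), A x.1.2 (x.1.1, x.2) = 0 ↔ x.2 = g x.1) :
    LocConn A y := by
  intro N hN
  obtain ⟨σ1, s1, h1⟩ := Metric.mem_nhds_iff.1 hN
  obtain ⟨σ2, s2, h2⟩ := Metric.eventually_nhds_iff.1 h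
  have s0 : 0 < min σ1 σ2 := lt_min s1 s2
  have h3 : ∀ᶠ p in 𝓝 ((y.1, 0) : ℂ × ℂ), ContinuousAt g p ∧ g p ∈ ball y.2 (min σ1 σ2) :=
    (hg.eventually_analyticAt.mono fun _ a => a.continuousAt).and
      (hg.continuousAt.eventually (by rw [h0]; exact ball_mem_nhds _ s0))
  obtain ⟨ρ1, r1, h4⟩ := Metric.eventually_nhds_iff.1 h3
  set ρ := min ρ1 (min σ1 σ2) with hρ
  have r0 : 0 < ρ := lt_min r1 s0
  refine ⟨ball y.1 ρ ×ˢ ball y.2 (min σ1 σ2), isOpen_ball.prod isOpen_ball,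
    ⟨mem_ball_self r0, mem_ball_self s0⟩, fun x hx => h1 ?_, ?_⟩
  · rw [mem_ball, Prod.dist_eq, max_lt_iff]
    exact ⟨hx.1.trans_le ((min_le_right _ _).trans (min_le_left _ _)),
      hx.2.trans_le (min_le_left _ _)⟩
  filter_upwards [nhdsWithin_le_nhds (ball_mem_nhds (0 : ℂ) r0)] with ε hε
  have k1 : ∀ z ∈ ball y.1 ρ, dist ((z, ε) : ℂ × ℂ) (y.1, 0) < ρ := fun z hz => by
    rw [Prod.dist_eq, max_lt_iff]; exact ⟨hz, hε⟩
  have k2 : ∀ z ∈ ball y.1 ρ, ∀ w ∈ ball y.2 (min σ1 σ2), (A ε (z, w) = 0 ↔ w = g (z, ε)) :=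
    fun z hz w hw => h2 (y := ((z, ε), w)) (by
      rw [Prod.dist_eq, max_lt_iff]
      exact ⟨(k1 z hz).trans_le ((min_le_right _ _).trans (min_le_right _ _)),
        hw.trans_le (min_le_right _ _)⟩)
  have k3 := fun z hz => h4 ((k1 z hz).trans_le (min_le_left _ _))
  have e : {x | A ε x = 0} ∩ ball y.1 ρ ×ˢ ball y.2 (min σ1 σ2) =
      (fun z => ((z, g (z, ε)) : E)) '' ball y.1 ρ := by
    ext x
    refine ⟨fun hx => ⟨x.1, hx.2.1, Prod.ext rfl ((k2 _ hx.2.1 _ hx.2.2).1 hx.1).symm⟩, ?_⟩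
    rintro ⟨z, hz, rfl⟩
    exact ⟨(k2 z hz _ (k3 z hz).2).2 rfl, hz, (k3 z hz).2⟩
  rw [e]
  refine ⟨(convex_ball _ _).isPreconnected.image _ fun z hz => ?_, (nonempty_ball.2 r0).image _⟩
  exact (continuousAt_id.prodMk ((k3 z hz).1.comp (f := fun z => ((z, ε) : ℂ × ℂ))
    (by fun_prop))).continuousWithinAt

theorem reg {F0 F1 : E → ℂ} {y : E} (a0 : AnalyticAt ℂ F0 y) (a1 : AnalyticAt ℂ F1 y)
    (h0 : F0 y = 0) (hw : dw F0 y ≠ 0) : LocConn (pen F0 F1) y := by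
  have hp : AnalyticAt ℂ (fun x : (ℂ × ℂ) × ℂ => ((x.1.1, x.2) : E)) ((y.1, 0), y.2) :=
    (analyticAt_fst.comp analyticAt_fst).prod analyticAt_snd
  have hF : AnalyticAt ℂ (fun x : (ℂ × ℂ) × ℂ => pen F0 F1 x.1.2 (x.1.1, x.2)) ((y.1, 0), y.2) :=
    (a0.comp_of_eq hp rfl).sub ((analyticAt_snd.comp analyticAt_fst).mul (a1.comp_of_eq hp rfl))
  have hd := hF.differentiableAt.hasFDerivAt.comp_hasDerivAt (f := fun w : ℂ => ((y.1, 0), w)) y.2
    ((hasDerivAt_const _ _).prodMk (hasDerivAt_id _))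
  have hd' : HasDerivAt ((fun x : (ℂ × ℂ) × ℂ => pen F0 F1 x.1.2 (x.1.1, x.2)) ∘
      fun w : ℂ => ((y.1, 0), w)) (dw F0 y) y.2 := by
    simpa [pen, Function.comp_def, dw_eq a0.differentiableAt] using
      hasDerivAt_dw a0.differentiableAt
  obtain ⟨g, g1, g2, -, g3⟩ := ift_gen hF (by simpa [pen] using h0) (hd'.unique hd ▸ hw)
  exact core g1 g2 g3

theorem swap {A : ℂ → E → ℂ} {y : E} (h : LocConn (fun ε x => A ε x.swap) y.swap) :
    LocConn A y := by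
  intro N hN
  obtain ⟨B, b1, b2, b3, b4⟩ := h (Prod.swap ⁻¹' N) (continuous_swap.continuousAt.preimage_mem_nhds hN)
  refine ⟨Prod.swap ⁻¹' B, b1.preimage continuous_swap, b2, fun x hx => b3 hx, b4.mono fun ε k => ?_⟩
  have e : {x | A ε x = 0} ∩ Prod.swap ⁻¹' B = Prod.swap '' ({x : E | A ε x.swap = 0} ∩ B) := by
    rw [image_swap_eq_preimage_swap]; rfl
  rw [e]
  exact ⟨k.1.image _ continuous_swap.continuousOn, k.2.image _⟩

end LREG

theorem st_lreg : St_LREG := by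
  intro F0 F1 y p0 p1 h0 h
  rcases h with h | h
  · exact LREG.swap (LREG.reg (F0 := fun x => F0 x.swap) (F1 := fun x => F1 x.swap)
      ((p0.comp IsPoly.snd IsPoly.fst).analyticAt _) ((p1.comp IsPoly.snd IsPoly.fst).analyticAt _)
      h0 h)
  · exact LREG.reg (p0.analyticAt y) (p1.analyticAt y) h0 h

theorem st_nerve : St_NERVE := by
  intro Z0 Z W l hc h1 h2 hZ hB hN hW
  choose! B b1 b2 b3 using hB
  obtain ⟨t, t1, t2⟩ := hc.elim_nhds_subcover B fun y hy => (b1 y hy).mem_nhds (b2 y hy)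
  obtain ⟨η, hη, h3⟩ := hc.exists_thickening_subset_open
    (isOpen_biUnion fun y hy => b1 y (t1 y hy)) t2
  have := Subtype.preconnectedSpace hZ
  have h4 : ∀ i j : t, Relation.TransGen
      (fun a b : t => ((Subtype.val : Z → E) ⁻¹' B a ∩ Subtype.val ⁻¹' B b).Nonempty) i j := by
    have hne : ∀ i : t, ((Subtype.val : Z → E) ⁻¹' B i).Nonempty := fun i => by
      obtain ⟨x, hx, hx'⟩ := mem_closure_iff.1 (h2 (t1 i i.2)) _ (b1 i (t1 i i.2)) (b2 i (t1 i i.2))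
      exact ⟨⟨x, hx'⟩, hx⟩
    refine fun i j => IsPreconnected.transGen_of_iUnion ?_
      (fun i : t => (b1 i (t1 i i.2)).preimage continuous_subtype_val) i j (hne i) (hne j)
    have e : ⋃ i : t, (Subtype.val : Z → E) ⁻¹' B i = univ := eq_univ_of_forall fun x => by
      obtain ⟨i, hi, hx⟩ := mem_iUnion₂.1 (t2 (h1 x.2))
      exact mem_iUnion.2 ⟨⟨i, hi⟩, hx⟩
    rw [e]; exact isPreconnected_univ
  have h5 : ∀ᶠ ε in l, ∀ a b : t,
      ((Subtype.val : Z → E) ⁻¹' B a ∩ Subtype.val ⁻¹' B b).Nonempty →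
        (W ε ∩ B a ∩ (W ε ∩ B b)).Nonempty := by
    refine eventually_all.2 fun a => eventually_all.2 fun b => eventually_imp_distrib_left.2 ?_
    rintro ⟨x, hx⟩
    filter_upwards [hN x x.2 (B a ∩ B b) (((b1 a (t1 a a.2)).inter (b1 b (t1 b b.2))).mem_nhds hx)]
      with ε ⟨u, u1, u2, u3⟩ using ⟨u, ⟨u1, u2⟩, u1, u3⟩
  filter_upwards [h5, hW η hη, eventually_all.2 fun a : t => b3 a (t1 a a.2)] with ε k1 k2 k3
  have e : W ε = ⋃ i : t, W ε ∩ B i := by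
    refine Subset.antisymm (fun x hx => ?_) (iUnion_subset fun _ => inter_subset_left)
    obtain ⟨i, hi, hx'⟩ := mem_iUnion₂.1 (h3 (k2 hx))
    exact mem_iUnion.2 ⟨⟨i, hi⟩, hx, hx'⟩
  rw [e]
  exact IsPreconnected.iUnion_of_reflTransGen k3 fun i j => (Relation.TransGen.mono k1 _ _ (h4 i j)).to_reflTransGen

end Pool.Agent.CF
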