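import Pool.Agent.Lib.CF.Blue3

open Set Metric Filter Topology

namespace Pool.Agent.CF

namespace NN

theorem isolated {C q : E → ℂ} (hC : IsPoly C) (hq : IsPoly q) {y : E} (h0 : C y = 0)
    (hw : dw C y ≠ 0) (hj : jac q C y ≠ 0) : ∀ᶠ x in 𝓝 y, C x = 0 → q x = 0 → x = y := by
  obtain ⟨g, h1, h2, h3, h4⟩ := ift (hC.analyticAt y) h0 hw
  have e : ((y.1, g y.1) : E) = y := Prod.ext rfl h2
  have h5 := hasDerivAt_res (H := q) (P := C) (g := g) (z := y.1) (hq.differentiableAt _)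
    (hC.differentiableAt _) h1.differentiableAt h3 (by rwa [e])
  rw [e] at h5
  have h6 := eventually_nhdsWithin_iff.1 (h5.eventually_ne (c := 0) (div_ne_zero hj hw))
  filter_upwards [h4, continuousAt_fst.eventually h6] with x a b c d
  have h7 := a.1 c
  have h8 : x.1 = y.1 := by
    by_contra h8
    exact b h8 (by rw [← h7]; exact d)
  exact Prod.ext h8 (by rw [h7, h8, h2])

theorem dw_pen {C K G q : E → ℂ} (hC : IsPoly C) (hK : IsPoly K) (hG : IsPoly G) (hq : IsPoly q)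
    (ε : ℂ) {y : E} (h0 : C y = 0) :
    dw (pen (fun x => G x * K x * C x) q ε) y = G y * K y * dw C y - ε * dw q y := by
  unfold pen
  rw [dw_sub (((hG.mul hK).mul hC).differentiableAt y)
    (((IsPoly.const ε).mul hq).differentiableAt y),
    dw_mul ((hG.mul hK).differentiableAt y) (hC.differentiableAt y),
    dw_mul ((IsPoly.const ε).differentiableAt y) (hq.differentiableAt y), h0, dw_const]
  ring

theorem dz_pen {C K G q : E → ℂ} (hC : IsPoly C) (hK : IsPoly K) (hG : IsPoly G) (hq : IsPoly q)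
    (ε : ℂ) {y : E} (h0 : C y = 0) :
    dz (pen (fun x => G x * K x * C x) q ε) y = G y * K y * dz C y - ε * dz q y := by
  unfold pen
  rw [dz_sub (((hG.mul hK).mul hC).differentiableAt y)
    (((IsPoly.const ε).mul hq).differentiableAt y),
    dz_mul ((hG.mul hK).differentiableAt y) (hC.differentiableAt y),
    dz_mul ((IsPoly.const ε).differentiableAt y) (hq.differentiableAt y), h0, dz_const]
  ring

end NN

open NN in
theorem st_nn : St_NN := by
  intro ι κ μ _ _ C K G q Γ Γ' Γc Br e e' ec Nd Nd' d Γε hC hK hN hG hq hG0 hq0 hd hS hsub hc hy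
  have hn : ∀ y ∈ Nd', y ∉ Γ' := fun y h h' =>
    hq0 y (hN.right y h' (hC.zero y (hy y h).1)) (hy y h).2.1
  have hk : ∀ y ∈ Nd', K y ≠ 0 := fun y h h' => hq0 y (hN.left y (hy y h).1 h') (hy y h).2.1
  have he : ∀ y ∈ Nd', y ∉ ends (Sum.elim e e') := by
    rintro y h ⟨j | j, hj⟩
    · exact (hy y h).2.2.2.2.1 ⟨j, hj⟩
    · exact hn y h (hK.ends_subset ⟨j, hj⟩)
  obtain ⟨R, hR, h1⟩ := hS.inner Nd' Nd'.finite_toSet.isCompact fun y h =>
    ⟨Or.inl (hy y h).1, fun ⟨j, _, hj⟩ => he y h ⟨j, hj⟩⟩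
  have h2 : ∀ᶠ x in 𝓝ˢ (Γ ∪ Γ'), C x = 0 → q x = 0 → x ∈ Nd' := by
    refine eventually_nhdsSet_iff_forall.2 fun y h => ?_
    by_cases a : C y = 0
    · by_cases b : q y = 0
      · have c : y ∈ Nd' :=
          h.elim (fun h => (hc y (hsub h)).2 b) fun h => absurd b (hq0 y (hN.right y h a))
        filter_upwards [isolated hC.poly hq a (hy y c).2.2.1 (hy y c).2.2.2.1] with x u v w
        rwa [u v w]
      · filter_upwards [hq.continuous.continuousAt.eventually_ne b] with x u _ w using absurd w u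
    · filter_upwards [hC.poly.continuous.continuousAt.eventually_ne a] with x u v using absurd v u
  obtain ⟨η, hη, h3⟩ := (hasBasis_nhdsSet_thickening (hC.cpt.union hK.cpt)).eventually_iff.1 h2
  have h4 : ∀ᶠ ε in 𝓝 (0 : ℂ), ∀ y ∈ Nd', G y * K y * dw C y - ε * dw q y ≠ 0 :=
    (eventually_all_finset _).2 fun y h => ContinuousAt.eventually_ne (by fun_prop) (by
      rw [zero_mul, sub_zero]
      exact mul_ne_zero (mul_ne_zero (hG0 y (Or.inl (hy y h).1)) (hk y h)) (hy y h).2.2.1)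
  have h5 : ∀ᶠ ε in 𝓝 (0 : ℂ), ∀ y ∈ Nd', ∀ j,
      y ∉ ((Sum.elim e e' j).pert (d j) ε).gr (Sum.elim e e' j).circ :=
    (eventually_all_finset _).2 fun y h => eventually_all.2 fun j => by
      by_cases a : y.1 ∈ (Sum.elim e e' j).circ
      · have b : ContinuousAt (fun ε : ℂ => d j (y.1, ε)) 0 :=
          (hd j (y.1, 0) ⟨a, rfl⟩).continuousAt.comp_of_eq (by fun_prop) rfl
        have c : ∀ᶠ ε in 𝓝 (0 : ℂ), (Sum.elim e e' j).w y.1 + ε * d j (y.1, ε) ≠ y.2 :=
          ContinuousAt.eventually_ne (continuousAt_const.add (continuousAt_id.mul b)) (by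
            rw [zero_mul, add_zero]
            exact fun u => he y h ⟨j, a, u.symm⟩)
        filter_upwards [c] with ε u v using u v.2.symm
      · exact Eventually.of_forall fun ε v => a v.1
  filter_upwards [h1, hS.curve, hS.close η hη, nhdsWithin_le_nhds h4, nhdsWithin_le_nhds h5,
    self_mem_nhdsWithin] with ε a1 a2 a3 a4 a5 a6
  have a7 : ε ≠ 0 := a6
  have a8 : ∀ y, C y = 0 → pen (fun x => G x * K x * C x) q ε y = 0 → q y = 0 := fun y u v => by
    simpa [pen, u, a7] using v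
  refine ⟨fun y h => ?_, fun y h u => h3 (a3.1 h) u (a8 y u (a2.zero y h)),
    fun y h u => (hc y h).2 (a8 y (hc y h).1 u)⟩
  obtain ⟨b1, b2, b3, b4, -, b6⟩ := hy y h
  have b7 := hC.zero y b1
  refine ⟨(a1 y (self_subset_thickening hR _ h) (by simp [pen, b7, b2])).1, hsub b1, ?_, b3, ?_,
    fun ⟨j, hj⟩ => a5 y h j hj, b6⟩
  · rw [dw_pen hC.poly hK.poly hG hq ε b7]
    exact a4 y h
  · have b8 : jac C (pen (fun x => G x * K x * C x) q ε) y = ε * jac q C y := by
      rw [jac, dw_pen hC.poly hK.poly hG hq ε b7, dz_pen hC.poly hK.poly hG hq ε b7, jac]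
      ring
    rw [b8]
    exact mul_ne_zero a7 b4

theorem st_offp : St_OFFP := by
  intro ι μ _ A Γ0 Br e d Γε Z hS hB hZ h
  have h1 : ∀ᶠ x in 𝓝ˢ Br, ∀ i, x.1 ∉ Z i :=
    eventually_nhdsSet_iff_forall.2 fun y hy => eventually_all.2 fun i =>
      continuousAt_fst.eventually ((hZ i).isOpen_compl.mem_nhds (h y hy i))
  obtain ⟨η, hη, h2⟩ := (hasBasis_nhdsSet_thickening hB).eventually_iff.1 h1
  filter_upwards [hS.close η hη] with ε a
  rintro _ ⟨y, u, v, rfl⟩
  exact h2 (a.2.2 y u v)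

end Pool.Agent.CF
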