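import Pool.Agent.Lib.CF.Blue2
import Pool.Agent.Lib.CF.B_GEO

open Set Metric Filter Topology

namespace Pool.Agent.CF

namespace PA

theorem ev_le {ε : ℝ} (hε : 0 < ε) : ∀ᶠ p : ℝ × ℝ in 𝓝 0, p.1 ≤ ε ∧ p.2 ≤ ε := by
  filter_upwards [GeoAux.ev_lt hε 1] with p hp
  simp only [one_mul] at hp
  exact ⟨hp.1.le, hp.2.le⟩

theorem ev_set {e : End} (h : e.ok) {N : Set ℂ} (hN : N ∈ 𝓝ˢ e.circ) :
    ∀ᶠ p : ℝ × ℝ in 𝓝 0, e.near p.1 p.1 ⊆ N := by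
  obtain ⟨δ, hδ, H⟩ := End.shrink h hN
  filter_upwards [ev_le hδ] with p hp using H _ _ hp.1 hp.1

theorem ev_near {e : End} (h : e.ok) {Q : ℂ → Prop} (hQ : ∀ z ∈ e.circ, ∀ᶠ x in 𝓝 z, Q x) :
    ∀ᶠ p : ℝ × ℝ in 𝓝 0, ∀ z ∈ e.near p.1 p.1, Q z :=
  ev_set h (N := {x | Q x}) (mem_nhdsSet_iff_forall.2 hQ)

theorem split_prod {Z : Set ℂ} (hZ : IsCompact Z) {Q : ℂ × ℂ → Prop}
    (hQ : ∀ᶠ p in 𝓝ˢ (Z ×ˢ ({0} : Set ℂ)), Q p) :
    ∃ N ∈ 𝓝ˢ Z, ∃ M ∈ 𝓝 (0 : ℂ), ∀ z ∈ N, ∀ ν ∈ M, Q (z, ν) := by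
  rw [hZ.nhdsSet_prod_eq isCompact_singleton, nhdsSet_singleton] at hQ
  obtain ⟨N, hN, M, hM, h⟩ := mem_prod_iff.1 hQ
  exact ⟨N, hN, M, hM, fun z hz ν hν => h (mk_mem_prod hz hν)⟩

theorem ev_tube {e : End} (h : e.ok) (hw : AnalyticOnNhd ℂ e.w e.circ) {Q : E → Prop}
    (hQ : ∀ z ∈ e.circ, ∀ᶠ y in 𝓝 ((z, e.w z) : E), Q y) :
    ∀ᶠ p : ℝ × ℝ in 𝓝 0, ∀ y ∈ tube (e.gr (e.near p.1 p.1)) p.2, Q y := by
  have h1 : ∀ᶠ p in 𝓝ˢ (e.circ ×ˢ ({0} : Set ℂ)), Q (p.1, e.w p.1 + p.2) := by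
    refine mem_nhdsSet_iff_forall.2 ?_
    rintro ⟨z, ν⟩ ⟨hz, hν⟩
    obtain rfl : ν = 0 := hν
    have c1 : ContinuousAt (fun p : ℂ × ℂ => e.w p.1) (z, 0) :=
      ContinuousAt.comp (f := Prod.fst) (hw z hz).continuousAt continuousAt_fst
    have c : ContinuousAt (fun p : ℂ × ℂ => ((p.1, e.w p.1 + p.2) : E)) (z, 0) :=
      continuousAt_fst.prodMk (c1.add continuousAt_snd)
    exact c.eventually (by simpa using hQ z hz)
  obtain ⟨N, hN, M, hM, H⟩ := split_prod e.isCompact_circ h1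
  obtain ⟨σ, hσ, hM'⟩ := nhds_basis_closedBall.mem_iff.1 hM
  filter_upwards [ev_set h hN, ev_le hσ] with p hp hq y hy
  obtain ⟨x, hx, h2, h3⟩ := hy
  have h4 := H x.1 (hp hx.1) (y.2 - x.2) (hM' (mem_closedBall_zero_iff.2 (h3.trans hq.2)))
  simp only [← hx.2, add_sub_cancel] at h4
  rwa [h2] at h4

end PA

open PA GeoAux in
theorem st_pa : St_PA := by
  intro ι _ F0 F1 Γ Nd e d H hS
  have h2 : ∀ᶠ p : ℝ × ℝ in 𝓝 0, ∀ j, ∀ z ∈ (e j).near p.1 p.1, AnalyticAt ℂ (e j).w z :=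
    eventually_all.2 fun j => PA.ev_near (H.ok j) fun z hz => (H.wan j z hz).eventually_analyticAt
  have h3 : ∀ᶠ p : ℝ × ℝ in 𝓝 0, ∀ j, ∀ z ∈ (e j).near p.1 p.1,
      F0 (z, (e j).w z) = 0 ∧ dw F0 (z, (e j).w z) ≠ 0 := by
    refine eventually_all.2 fun j => PA.ev_near (H.ok j) fun z hz => ?_
    have a := (mem_nhdsSet_iff_forall.1 (H.wz j)) z hz
    have c : ContinuousAt (fun x : ℂ => dw F0 (x, (e j).w x)) z :=
      (H.poly.dw.continuous.continuousAt).comp (cont_graph (H.wan j z hz))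
    filter_upwards [a, c.eventually_ne (H.wreg j z hz)] with x a b using ⟨a, b⟩
  have h4 : ∀ᶠ p : ℝ × ℝ in 𝓝 0, ∀ j, ∀ y ∈ tube ((e j).gr ((e j).near p.1 p.1)) p.2,
      (y ∈ Γ ↔ y.2 = (e j).w y.1 ∧ (e j).side y.1) :=
    eventually_all.2 fun j => ev_tube (H.ok j) (H.wan j) (H.loc j)
  have h5 : ∀ᶠ p : ℝ × ℝ in 𝓝 0, ∀ j, ∀ z ∈ (e j).near p.1 p.1, AnalyticAt ℂ (d j) (z, 0) := by
    refine eventually_all.2 fun j => PA.ev_near (H.ok j) fun z hz => ?_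
    have c : ContinuousAt (fun x : ℂ => ((x, 0) : ℂ × ℂ)) z := by fun_prop
    exact c.eventually ((hS j).1 (z, 0) ⟨hz, rfl⟩).eventually_analyticAt
  have h6 : ∀ᶠ p : ℝ × ℝ in 𝓝 0, ∀ i j, i ≠ j →
      Disjoint (tube ((e i).gr ((e i).near p.1 p.1)) p.2)
        (tube ((e j).gr ((e j).near p.1 p.1)) p.2) := by
    refine eventually_all.2 fun i => eventually_all.2 fun j => ?_
    by_cases hij : i = j
    · exact Eventually.of_forall fun _ a => absurd hij a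
    have cp : ∀ k, IsCompact ((e k).gr (e k).circ) := fun k =>
      End.isCompact_gr (e k).isCompact_circ (H.wan k).continuousOn
    obtain ⟨U, V, hU, hV, hiU, hjV, hUV⟩ :=
      SeparatedNhds.of_isCompact_isCompact (cp i) (cp j) (H.disj hij)
    have a : ∀ (k : ι) (W : Set E), IsOpen W → (e k).gr (e k).circ ⊆ W →
        ∀ᶠ p : ℝ × ℝ in 𝓝 0, tube ((e k).gr ((e k).near p.1 p.1)) p.2 ⊆ W := fun k W hW hk =>
      ev_tube (H.ok k) (H.wan k) (Q := fun y => y ∈ W) fun z hz => hW.mem_nhds (hk ⟨hz, rfl⟩)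
    filter_upwards [a i U hU hiU, a j V hV hjV] with p hp hq _ using hUV.mono hp hq
  have h7 : ∀ᶠ p : ℝ × ℝ in 𝓝 0, ∀ j, ∀ᶠ ε in 𝓝 (0 : ℂ), ∀ z ∈ (e j).near p.1 p.1, ∀ ν : ℂ,
      ‖ν‖ ≤ p.2 → (pen F0 F1 ε (z, (e j).w z + ν) = 0 ↔ ν = ε * d j (z, ε)) := by
    refine eventually_all.2 fun j => ?_
    obtain ⟨σ, hσ, h⟩ := (hS j).2
    obtain ⟨N, hN, M, hM, H'⟩ := split_prod (e j).isCompact_circ h
    filter_upwards [ev_set (H.ok j) hN, ev_le hσ] with p hp hq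
    filter_upwards [hM] with ε hε z hz ν hν using H' z (hp hz) ε hε ν (hν.trans hq.2)
  obtain ⟨δ, hδ, h⟩ := Metric.eventually_nhds_iff.1
    (h2.and (h3.and (h4.and (h5.and (h6.and h7)))))
  have hd : dist ((δ / 2, δ / 2) : ℝ × ℝ) 0 < δ := by
    rw [Prod.dist_eq]
    simp only [Prod.fst_zero, Prod.snd_zero, dist_zero_right, Real.norm_eq_abs, max_self]
    rw [abs_of_pos (half_pos hδ)]
    exact half_lt_self hδ
  obtain ⟨g2, g3, g4, g5, g6, g7⟩ := h hd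
  have ha := half_pos hδ
  generalize δ / 2 = a at g2 g3 g4 g5 g6 g7 ha
  have hz : {y | F0 y = 0 → y ∈ Γ ∨ ∃ j, y ∈ (e j).gr ((e j).nearO a a) ∧ ¬(e j).side y.1} ∈
      𝓝ˢ Γ := by
    refine mem_nhdsSet_iff_forall.2 fun y hy => ?_
    by_cases hl : y ∈ loops e
    · obtain ⟨j, -, h1, h2⟩ := hl
      obtain ⟨z, w⟩ := y
      obtain rfl : w = (e j).w z := h2
      have b1 := ift_unique (H.poly.analyticAt _) (H.wan j z h1).continuousAt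
        ((mem_nhdsSet_iff_forall.1 (H.wz j)) z h1) (H.wreg j z h1)
      have b2 : ∀ᶠ x : E in 𝓝 (z, (e j).w z), x.1 ∈ (e j).nearO a a :=
        continuousAt_fst.eventually
          ((End.isOpen_nearO (H.ok j) a a).mem_nhds (End.circ_subset_nearO (H.ok j) ha ha h1))
      filter_upwards [b1, b2, H.loc j z h1] with x c1 c2 c3 c4
      by_cases hs : (e j).side x.1
      · exact Or.inl (c3.2 ⟨c1.1 c4, hs⟩)
      · exact Or.inr ⟨j, ⟨c2, c1.1 c4⟩, hs⟩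
    · filter_upwards [H.int y hy hl] with x c1 c2 using Or.inl (c1 c2)
  obtain ⟨U, hU, h1, h2⟩ := mem_nhdsSet_iff_exists.1 hz
  obtain ⟨R, hR, h3⟩ := H.cpt.exists_cthickening_subset_open hU h1
  refine ⟨R, a, a, hR, ha, ha, g2, g3, fun i j hij => g6 i j hij, g4, fun y hy => h2 (h3 hy),
    fun j => ?_, eventually_all.2 g7⟩
  rintro ⟨z, ν⟩ ⟨hz, hν⟩
  obtain rfl : ν = 0 := hν
  exact g5 j z hz

end Pool.Agent.CF
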