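import Pool.Agent.Lib.CF.Blue2

open Set Metric Filter Topology

namespace Pool.Agent.CF

namespace PB

/-- tube lemma without a parameter -/
theorem thick {K : Set E} (hK : IsCompact K) {Q : E → Prop} (h : ∀ y ∈ K, ∀ᶠ x in 𝓝 y, Q x) :
    ∃ η > 0, ∀ x ∈ thickening η K, Q x :=
  (hasBasis_nhdsSet_thickening hK).eventually_iff.1 (eventually_nhdsSet_iff_forall.2 h)

/-- tube lemma with a parameter -/
theorem thick2 {K : Set E} (hK : IsCompact K) {Q : ℂ → E → Prop}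
    (h : ∀ y ∈ K, ∀ᶠ p : ℂ × E in 𝓝 (0, y), Q p.1 p.2) :
    ∃ η > 0, ∀ᶠ ε in 𝓝 (0 : ℂ), ∀ x ∈ thickening η K, Q ε x := by
  have h1 : ∀ᶠ p : ℂ × E in 𝓝ˢ (({0} : Set ℂ) ×ˢ K), Q p.1 p.2 :=
    eventually_nhdsSet_iff_forall.2 fun p hp => by
      obtain ⟨a, y⟩ := p
      obtain rfl : a = 0 := hp.1
      exact h y hp.2
  rw [isCompact_singleton.nhdsSet_prod_eq hK, nhdsSet_singleton] at h1
  obtain ⟨pa, h2, pb, h3, h4⟩ := eventually_prod_iff.1 h1
  obtain ⟨η, h5, h6⟩ := (hasBasis_nhdsSet_thickening hK).eventually_iff.1 h3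
  exact ⟨η, h5, h2.mono fun ε hε x hx => h4 hε (h6 hx)⟩

theorem ev_snd {y : E} {Q : E → Prop} (h : ∀ᶠ x in 𝓝 y, Q x) :
    ∀ᶠ p : ℂ × E in 𝓝 (0, y), Q p.2 :=
  (continuous_snd.tendsto ((0 : ℂ), y)).eventually h

theorem ev_fst {y : E} {Q : ℂ → Prop} (h : ∀ᶠ x in 𝓝 (0 : ℂ), Q x) :
    ∀ᶠ p : ℂ × E in 𝓝 (0, y), Q p.1 :=
  (continuous_fst.tendsto ((0 : ℂ), y)).eventually h

theorem ev_pen {F0 F1 : E → ℂ} (h0 : IsPoly F0) (h1 : IsPoly F1) {y : E} (h : F0 y ≠ 0) :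
    ∀ᶠ p : ℂ × E in 𝓝 (0, y), pen F0 F1 p.1 p.2 ≠ 0 := by
  have a := h0.continuous
  have b := h1.continuous
  have c : Continuous fun p : ℂ × E => pen F0 F1 p.1 p.2 := by unfold pen; fun_prop
  exact c.continuousAt.eventually_ne (by simpa [pen] using h)

theorem dw_pen {F0 F1 : E → ℂ} (h0 : IsPoly F0) (h1 : IsPoly F1) (ε : ℂ) (y : E) :
    dw (pen F0 F1 ε) y = pen (dw F0) (dw F1) ε y := by
  have a : dw (fun x => F0 x - ε * F1 x) y = dw F0 y - dw (fun x => ε * F1 x) y :=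
    dw_sub (h0.differentiableAt y) (((IsPoly.const ε).mul h1).differentiableAt y)
  have b : dw (fun x => ε * F1 x) y = dw (fun _ => ε) y * F1 y + ε * dw F1 y :=
    dw_mul (differentiableAt_const ε) (h1.differentiableAt y)
  show dw (fun x => F0 x - ε * F1 x) y = dw F0 y - ε * dw F1 y
  rw [a, b]; simp

theorem isClosed_tube {e : End} {A : Set ℂ} (hA : IsClosed A) (hw : ContinuousOn e.w A) (σ : ℝ) :
    IsClosed (tube (e.gr A) σ) := by
  have h1 : ContinuousOn (fun x : E => ‖x.2 - e.w x.1‖) (Prod.fst ⁻¹' A) :=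
    (continuous_snd.continuousOn.sub (hw.comp continuous_fst.continuousOn fun _ hx => hx)).norm
  have h2 := h1.preimage_isClosed_of_isClosed (hA.preimage continuous_fst) (isClosed_Iic (a := σ))
  have : tube (e.gr A) σ = Prod.fst ⁻¹' A ∩ (fun x : E => ‖x.2 - e.w x.1‖) ⁻¹' Iic σ := by
    ext x; exact mem_tube_gr
  rwa [this]

theorem isOpen_tubeO {e : End} (h : e.ok) {a : ℝ} (hw : ContinuousOn e.w (e.near a a)) (σ : ℝ) :
    IsOpen (tubeO e a σ) := by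
  have h1 : ContinuousOn (fun x : E => ‖x.2 - e.w x.1‖) (Prod.fst ⁻¹' e.nearO a a) :=
    (continuous_snd.continuousOn.sub (hw.comp continuous_fst.continuousOn fun _ hx =>
      e.nearO_subset_near le_rfl le_rfl hx)).norm
  exact h1.isOpen_inter_preimage ((End.isOpen_nearO h a a).preimage continuous_fst)
    (isOpen_Iio (a := σ))

theorem tubeO_subset (e : End) (a σ : ℝ) : tubeO e a σ ⊆ tube (e.gr (e.near a a)) σ :=
  fun _ hx => mem_tube_gr.2 ⟨e.nearO_subset_near le_rfl le_rfl hx.1, hx.2.le⟩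

variable {ι : Type} {F0 F1 : E → ℂ} {Γ Nd : Set E} {e : ι → End} {d : ι → ℂ × ℂ → ℂ} {R a σ : ℝ}

/-- a point of the curve is off the closed tube of a loop, or on the sheet at depth `≥ 0` -/
theorem dich (hC : PreCurve F0 Γ e Nd) (hD : PData F0 F1 Γ e d R a σ) (j : ι)
    (hk : (e j).k ≠ Kind.pt) {y : E} (hy : y ∈ Γ) :
    (∀ᶠ x in 𝓝 y, x ∉ tube ((e j).gr ((e j).near a a)) σ) ∨
      (y.1 ≠ (e j).c ∧ 0 ≤ (e j).dep y.1 ∧ y.2 = (e j).w y.1) := by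
  by_cases h : y ∈ tube ((e j).gr ((e j).near a a)) σ
  · obtain ⟨h1, h2⟩ := (hD.loc j y h).1 hy
    have h3 := (mem_tube_gr.1 h).1
    rw [End.near_loop hk] at h3
    exact Or.inr ⟨h3.1, (End.side_iff hk ((hC.ok j).pos hk) h3.1).1 h2, h1⟩
  · exact Or.inl ((isClosed_tube (End.isCompact_near (hC.ok j) a a).isClosed
      (hD.wan j).continuousOn σ).isOpen_compl.mem_nhds h)

theorem ev_dep {e : End} (hr : 0 < e.r) {y : E} (hy : y.1 ≠ e.c) {s : ℝ} (hs : s < e.dep y.1) :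
    ∀ᶠ x : E in 𝓝 y, x.1 ≠ e.c ∧ s < e.dep x.1 :=
  (continuous_fst.tendsto y).eventually (p := fun z => z ≠ e.c ∧ s < e.dep z)
    ((eventually_ne_nhds hy).and ((End.continuousAt_dep hr hy).eventually (lt_mem_nhds hs)))

theorem part1 (hC : PreCurve F0 Γ e Nd) (h1 : IsPoly F1) (hD : PData F0 F1 Γ e d R a σ) {η : ℝ}
    (hη : 0 < η) : ∀ᶠ ε in 𝓝 (0 : ℂ), pset F0 F1 Γ e R a σ ε ⊆ thickening η Γ ∧
      ∀ y ∈ pset F0 F1 Γ e R a σ ε, dw (pen F0 F1 ε) y = 0 →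
        ∃ y0 ∈ Γ, dw F0 y0 = 0 ∧ dist y y0 < η := by
  have key := (hC.cpt.cthickening (r := R)).eventually_forall_of_forall_eventually (x₀ := (0 : ℂ))
    (P := fun ε y => y ∈ pset F0 F1 Γ e R a σ ε → y ∈ thickening η Γ ∧
      (dw (pen F0 F1 ε) y = 0 → ∃ y0 ∈ Γ, dw F0 y0 = 0 ∧ dist y y0 < η)) fun y0 hy0 => by
    by_cases h0 : F0 y0 = 0
    · rcases hD.zer y0 hy0 h0 with h | ⟨j, h, h'⟩
      · have hb : ∀ᶠ x in 𝓝 y0, dist x y0 < η := ball_mem_nhds y0 hη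
        by_cases hw : dw F0 y0 = 0
        · filter_upwards [ev_snd hb] with p hp _
          exact ⟨mem_thickening_iff.2 ⟨y0, h, hp⟩, fun _ => ⟨y0, h, hw, hp⟩⟩
        · filter_upwards [ev_snd hb, ev_pen hC.poly.dw h1.dw hw] with p hp hq _
          exact ⟨mem_thickening_iff.2 ⟨y0, h, hp⟩,
            fun hz => absurd (dw_pen hC.poly h1 _ _ ▸ hz) hq⟩
      · have a1 : ∀ᶠ x in 𝓝 y0, x ∈ tubeO (e j) a σ :=
          (isOpen_tubeO (hC.ok j) (hD.wan j).continuousOn σ).mem_nhds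
            ⟨h.1, by rw [h.2, sub_self, norm_zero]; exact hD.spos⟩
        have a2 : ∀ᶠ x : E in 𝓝 y0, ¬(e j).side x.1 :=
          (continuous_fst.tendsto y0).eventually ((e j).isClosed_side.isOpen_compl.mem_nhds h')
        filter_upwards [ev_snd a1, ev_snd a2] with p hp hq hx
        exact absurd (hx.2.2 j hp) hq
    · filter_upwards [ev_pen hC.poly h1 h0] with p hp hx
      exact absurd hx.2.1 hp
  exact key.mono fun ε hε => ⟨fun y hy => (hε y hy.1 hy).1, fun y hy => (hε y hy.1 hy).2⟩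

theorem ev_cth (hD : PData F0 F1 Γ e d R a σ) {y : E} (hy : y ∈ Γ) :
    ∀ᶠ x in 𝓝 y, x ∈ cthickening R Γ := by
  filter_upwards [ball_mem_nhds y hD.Rpos] with x hx
  exact mem_cthickening_of_dist_le x y R Γ hy (le_of_lt hx)

theorem part2 [Fintype ι] (hC : PreCurve F0 Γ e Nd) (hD : PData F0 F1 Γ e d R a σ) {a' : ℝ}
    (ha : 0 < a') : ∃ R' > 0, ∀ᶠ ε in 𝓝 (0 : ℂ), ∀ y ∈ thickening R' Γ, pen F0 F1 ε y = 0 →
      y ∈ pset F0 F1 Γ e R a σ ε ∨
        ∃ j, (e j).k ≠ Kind.pt ∧ y ∈ ((e j).pert (d j) ε).gr ((e j).ann (Ioo (-a') 0)) := by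
  refine thick2 hC.cpt fun y0 hy0 => ?_
  have a1 : ∀ᶠ x in 𝓝 y0, ∀ j, (e j).k ≠ Kind.pt → x ∈ tubeO (e j) a σ → -a' < (e j).dep x.1 := by
    refine eventually_all.2 fun j => ?_
    by_cases hk : (e j).k = Kind.pt
    · exact Eventually.of_forall fun _ h => absurd hk h
    rcases dich hC hD j hk hy0 with h | h
    · exact h.mono fun x hx _ h' => absurd (tubeO_subset _ _ _ h') hx
    · exact (ev_dep ((hC.ok j).pos hk) h.1 (s := -a') (by linarith [h.2.1])).mono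
        fun x hx _ _ => hx.2
  filter_upwards [ev_snd a1, ev_snd (ev_cth hD hy0), ev_fst hD.sheet] with p h1 h2 h3 h0
  by_cases h : ∀ j, p.2 ∈ tubeO (e j) a σ → (e j).side p.2.1
  · exact Or.inl ⟨h2, h0, h⟩
  push Not at h
  obtain ⟨j, h4, h5⟩ := h
  have hk : (e j).k ≠ Kind.pt := fun hk => h5 (End.side_pt hk _)
  have h6 := h4.1
  rw [End.nearO_loop hk] at h6
  have h7 := (h3 j p.2.1 ((e j).nearO_subset_near le_rfl le_rfl h4.1) _ h4.2.le).1
    (by simpa using h0)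
  refine Or.inr ⟨j, hk, ⟨h6.1, h1 j hk h4, ?_⟩, ?_⟩
  · exact not_le.1 fun h8 => h5 ((End.side_iff hk ((hC.ok j).pos hk) h6.1).2 h8)
  · show p.2.2 = (e j).w p.2.1 + p.1 * d j (p.2.1, p.1)
    rw [← h7]; ring

theorem ev_small [Fintype ι] (hC : PreCurve F0 Γ e Nd) (hD : PData F0 F1 Γ e d R a σ) :
    ∀ᶠ ε in 𝓝 (0 : ℂ), ∀ j, ∀ z ∈ (e j).near a a, ‖ε * d j (z, ε)‖ < σ := by
  refine eventually_all.2 fun j => ?_
  refine (End.isCompact_near (hC.ok j) a a).eventually_forall_of_forall_eventually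
    (P := fun ε z => ‖ε * d j (z, ε)‖ < σ) fun z hz => ?_
  have h1 : ContinuousAt (d j) (z, 0) := (hD.dan j (z, 0) ⟨hz, rfl⟩).continuousAt
  have h2 : ContinuousAt (fun p : ℂ × ℂ => d j (p.2, p.1)) (0, z) :=
    ContinuousAt.comp (f := fun p : ℂ × ℂ => (p.2, p.1)) h1 (by fun_prop)
  have h3 : ContinuousAt (fun p : ℂ × ℂ => ‖p.1 * d j (p.2, p.1)‖) (0, z) :=
    (continuousAt_fst.mul h2).norm
  exact h3.eventually (gt_mem_nhds (by simpa using hD.spos))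

theorem part3 [Fintype ι] (hC : PreCurve F0 Γ e Nd) (hD : PData F0 F1 Γ e d R a σ) {Z0 : Set E}
    (hZ : IsCompact Z0) (hs : Z0 ⊆ Γ \ loops e) : ∃ R' > 0, ∀ᶠ ε in 𝓝 (0 : ℂ),
      ∀ y ∈ thickening R' Z0, pen F0 F1 ε y = 0 →
        y ∈ pset F0 F1 Γ e R a σ ε \ loops fun j => (e j).pert (d j) ε := by
  refine thick2 hZ fun y0 hy0 => ?_
  have a1 : ∀ᶠ x in 𝓝 y0, ∀ j, (e j).k ≠ Kind.pt → x ∈ tube ((e j).gr ((e j).near a a)) σ →
      x.1 ≠ (e j).c ∧ 0 < (e j).dep x.1 := by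
    refine eventually_all.2 fun j => ?_
    by_cases hk : (e j).k = Kind.pt
    · exact Eventually.of_forall fun _ h => absurd hk h
    rcases dich hC hD j hk (hs hy0).1 with h | h
    · exact h.mono fun x hx _ h' => absurd h' hx
    · have h1 : 0 < (e j).dep y0.1 := lt_of_le_of_ne h.2.1 fun h2 => (hs hy0).2
        ⟨j, hk, (End.mem_circ ((hC.ok j).pos hk)).2 ⟨h.1, h2.symm⟩, h.2.2⟩
      exact (ev_dep ((hC.ok j).pos hk) h.1 h1).mono fun x hx _ _ => hx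
  filter_upwards [ev_snd a1, ev_snd (ev_cth hD (hs hy0).1), ev_fst (ev_small hC hD)] with
    p h1 h2 h3 h0
  refine ⟨⟨h2, h0, fun j hj => ?_⟩, ?_⟩
  · by_cases hk : (e j).k = Kind.pt
    · exact End.side_pt hk _
    · obtain ⟨h4, h5⟩ := h1 j hk (tubeO_subset _ _ _ hj)
      exact (End.side_iff hk ((hC.ok j).pos hk) h4).2 h5.le
  · rintro ⟨j, hk, h4, h5⟩
    have h6 : p.2.1 ∈ (e j).circ := h4
    have h7 : p.2.2 = (e j).w p.2.1 + p.1 * d j (p.2.1, p.1) := h5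
    have h8 := (e j).nearO_subset_near le_rfl le_rfl
      (End.circ_subset_nearO (hC.ok j) hD.apos hD.apos h6)
    have h9 := h1 j hk (mem_tube_gr.2 ⟨h8, by
      rw [h7, add_sub_cancel_left]; exact (h3 j _ h8).le⟩)
    exact h9.2.ne' ((End.mem_circ ((hC.ok j).pos hk)).1 h6).2

end PB

theorem st_pb : St_PB := fun _ _ _ _ _ _ _ _ _ _ _ hC h1 hD =>
  ⟨fun _ hη => PB.part1 hC h1 hD hη, fun _ ha => PB.part2 hC hD ha,
    fun _ hZ hs => PB.part3 hC hD hZ hs⟩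

theorem st_priv : St_PRIV := by
  refine ⟨fun Γ Z w hΓ hZ hw h σ hσ => PB.thick hΓ fun y hy => ?_,
    fun Γ Z hΓ hZ h => PB.thick hΓ fun y hy => ?_⟩
  · by_cases hz : y.1 ∈ Z
    · have h1 : ContinuousWithinAt (fun x : E => ‖x.2 - w x.1‖) (Prod.fst ⁻¹' Z) y :=
        (continuous_snd.continuousWithinAt.sub
          ((hw y.1 hz).comp continuous_fst.continuousWithinAt fun _ hx => hx)).norm
      have h2 : ‖y.2 - w y.1‖ < σ := by rw [h y hy hz, sub_self, norm_zero]; exact hσ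
      exact eventually_nhdsWithin_iff.1 (h1.eventually (gt_mem_nhds h2))
    · filter_upwards [(continuous_fst.tendsto y).eventually
        (hZ.isClosed.isOpen_compl.mem_nhds hz)] with x hx h' using absurd h' hx
  · exact (continuous_fst.tendsto y).eventually (hZ.isOpen_compl.mem_nhds (h y hy))

end Pool.Agent.CF
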