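import Pool.Agent.Lib.CF.Blue2

open Set Metric Filter Topology

namespace Pool.Agent.CF

namespace Pc

theorem tube_ev {X : Type} [PseudoMetricSpace X] {Γ : Set X} (hΓ : IsCompact Γ)
    {Q : X × ℂ → Prop} (h : ∀ y ∈ Γ, ∀ᶠ p in 𝓝 (y, (0 : ℂ)), Q p) :
    ∃ η > 0, ∀ᶠ ε in 𝓝 (0 : ℂ), ∀ x ∈ thickening η Γ, Q (x, ε) := by
  have h1 : Γ ×ˢ ({0} : Set ℂ) ⊆ interior {p | Q p} := by
    rintro ⟨y, ε⟩ ⟨hy, rfl⟩
    exact mem_interior_iff_mem_nhds.2 (h y hy)
  obtain ⟨u, v, hu, hv, h2, h3, h4⟩ :=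
    generalized_tube_lemma hΓ isCompact_singleton isOpen_interior h1
  obtain ⟨η, hη, h5⟩ := hΓ.exists_thickening_subset_open hu h2
  refine ⟨η, hη, ?_⟩
  filter_upwards [hv.mem_nhds (h3 rfl)] with ε hε x hx
  exact interior_subset (h4 (mk_mem_prod (h5 hx) hε))

theorem poly_pen {F0 F1 : E → ℂ} (h0 : IsPoly F0) (h1 : IsPoly F1) (ε : ℂ) :
    IsPoly (pen F0 F1 ε) := h0.sub ((IsPoly.const ε).mul h1)

theorem dz_pen {F0 F1 : E → ℂ} (h0 : IsPoly F0) (h1 : IsPoly F1) (ε : ℂ) :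
    dz (pen F0 F1 ε) = pen (dz F0) (dz F1) ε := by
  funext y
  have h := dz_sub (h0.differentiableAt y) (((IsPoly.const ε).mul h1).differentiableAt y)
  rw [dz_mul (F := fun _ => ε) (differentiableAt_const _) (h1.differentiableAt y)] at h
  refine h.trans ?_
  simp [pen]

theorem dw_pen {F0 F1 : E → ℂ} (h0 : IsPoly F0) (h1 : IsPoly F1) (ε : ℂ) :
    dw (pen F0 F1 ε) = pen (dw F0) (dw F1) ε := by
  funext y
  have h := dw_sub (h0.differentiableAt y) (((IsPoly.const ε).mul h1).differentiableAt y)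
  rw [dw_mul (F := fun _ => ε) (differentiableAt_const _) (h1.differentiableAt y)] at h
  refine h.trans ?_
  simp [pen]

theorem cont_pen {F0 F1 : E → ℂ} (h0 : IsPoly F0) (h1 : IsPoly F1) :
    Continuous fun p : E × ℂ => pen F0 F1 p.2 p.1 :=
  (h0.continuous.comp continuous_fst).sub (continuous_snd.mul (h1.continuous.comp continuous_fst))

theorem ev_pen {F0 F1 : E → ℂ} (h0 : IsPoly F0) (h1 : IsPoly F1) {y : E} (hy : F0 y ≠ 0) :
    ∀ᶠ p : E × ℂ in 𝓝 (y, 0), pen F0 F1 p.2 p.1 ≠ 0 :=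
  (cont_pen h0 h1).continuousAt.eventually_ne (by simpa [pen] using hy)

theorem contOn {e : End} {A : Set ℂ} (hw : ContinuousOn e.w A) :
    ContinuousOn (fun x : E => ‖x.2 - e.w x.1‖) (Prod.fst ⁻¹' A) :=
  (continuousOn_snd.sub (hw.comp continuousOn_fst fun _ hx => hx)).norm

theorem open_tubeO {e : End} (h : e.ok) {a σ : ℝ} (hw : ContinuousOn e.w (e.near a a)) :
    IsOpen (tubeO e a σ) :=
  (contOn (hw.mono (e.nearO_subset_near le_rfl le_rfl))).isOpen_inter_preimage
    ((End.isOpen_nearO h a a).preimage continuous_fst) isOpen_Iio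

theorem closed_tube {e : End} (h : e.ok) {a σ : ℝ} (hw : ContinuousOn e.w (e.near a a)) :
    IsClosed (tube (e.gr (e.near a a)) σ) := by
  have e1 : tube (e.gr (e.near a a)) σ =
      Prod.fst ⁻¹' e.near a a ∩ (fun x : E => ‖x.2 - e.w x.1‖) ⁻¹' Iic σ :=
    Set.ext fun _ => mem_tube_gr
  rw [e1]
  exact (contOn hw).preimage_isClosed_of_isClosed
    ((End.isCompact_near h a a).isClosed.preimage continuous_fst) isClosed_Iic

theorem tubeO_sub {e : End} {a σ : ℝ} : tubeO e a σ ⊆ tube (e.gr (e.near a a)) σ := fun _ hx =>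
  mem_tube_gr.2 ⟨e.nearO_subset_near le_rfl le_rfl hx.1, hx.2.le⟩

theorem ev_dep {e : End} (hr : 0 < e.r) {y : E} (hy : y.1 ≠ e.c) {t : ℝ} (ht : t < e.dep y.1) :
    ∀ᶠ x : E in 𝓝 y, x.1 ≠ e.c ∧ t < e.dep x.1 :=
  continuous_fst.continuousAt.eventually (p := fun z => z ≠ e.c ∧ t < e.dep z)
    (Filter.Eventually.and (isOpen_ne.mem_nhds hy)
      ((End.continuousAt_dep hr hy).eventually (lt_mem_nhds ht)))

end Pc

theorem st_pc (hB : St_PB) : St_PC := by
  intro ι _ F0 F1 Γ Nd e d R a σ hP h1 hD hS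
  have h0 := hP.poly
  have cw : ∀ j, ContinuousOn (e j).w ((e j).near a a) := fun j => (hD.wan j).continuousOn
  have hcn : ∀ j, (e j).circ ⊆ (e j).nearO a a := fun j =>
    End.circ_subset_nearO (hP.ok j) hD.apos hD.apos
  have hnn : ∀ j, (e j).nearO a a ⊆ (e j).near a a := fun j => (e j).nearO_subset_near le_rfl le_rfl
  obtain ⟨η, hη, E1⟩ := Pc.tube_ev hP.cpt (Q := fun p : E × ℂ =>
      (p.2 ≠ 0 → pen F0 F1 p.2 p.1 = 0 →
        dz (pen F0 F1 p.2) p.1 ≠ 0 ∨ dw (pen F0 F1 p.2) p.1 ≠ 0) ∧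
      (dw (pen F0 F1 p.2) p.1 = 0 → dw (dw (pen F0 F1 p.2)) p.1 ≠ 0) ∧
      ∀ j, (e j).k ≠ Kind.pt → p.1 ∈ tube ((e j).gr ((e j).near a a)) σ → -a < (e j).dep p.1.1)
    (fun y hy => by
      refine Filter.Eventually.and ?_ (Filter.Eventually.and ?_ (eventually_all.2 fun j => ?_))
      · by_cases hn : y ∈ Nd
        · obtain ⟨N, hN, h2⟩ := hS y hy hn
          filter_upwards [(continuous_fst.continuousAt (x := (y, (0 : ℂ)))).preimage_mem_nhds hN]
            with p hp hε using h2 p.2 hε p.1 hp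
        · rcases hP.grad y hy hn with h2 | h2
          · filter_upwards [Pc.ev_pen h0.dz h1.dz h2] with p hp _ _
            exact Or.inl (by rwa [Pc.dz_pen h0 h1])
          · filter_upwards [Pc.ev_pen h0.dw h1.dw h2] with p hp _ _
            exact Or.inr (by rwa [Pc.dw_pen h0 h1])
      · by_cases h2 : dw F0 y = 0
        · filter_upwards [Pc.ev_pen h0.dw.dw h1.dw.dw (hP.ww y hy h2)] with p hp _
          rwa [Pc.dw_pen h0 h1, Pc.dw_pen h0.dw h1.dw]
        · filter_upwards [Pc.ev_pen h0.dw h1.dw h2] with p hp h3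
          rw [Pc.dw_pen h0 h1] at h3
          exact absurd h3 hp
      · by_cases hk : (e j).k = Kind.pt
        · exact Eventually.of_forall fun _ h => absurd hk h
        by_cases ht : y ∈ tube ((e j).gr ((e j).near a a)) σ
        · have h2 := (mem_tube_gr.1 ht).1
          rw [End.near_loop hk] at h2
          have h3 := (End.side_iff hk ((hP.ok j).pos hk) h2.1).1 ((hD.loc j y ht).1 hy).2
          filter_upwards [(continuous_fst.continuousAt (x := (y, (0 : ℂ)))).eventually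
            (Pc.ev_dep ((hP.ok j).pos hk) h2.1 (show -a < _ by linarith [hD.apos]))]
            with p hp _ _ using hp.2
        · filter_upwards [(continuous_fst.continuousAt (x := (y, (0 : ℂ)))).preimage_mem_nhds
            ((Pc.closed_tube (hP.ok j) (cw j)).isOpen_compl.mem_nhds ht)] with p hp _ h2
          exact absurd h2 hp)
  have E2 : ∀ j, ∀ᶠ ε in 𝓝 (0 : ℂ), ∀ z ∈ (e j).near a a, AnalyticAt ℂ (d j) (z, ε) ∧
      ‖ε * d j (z, ε)‖ < min σ R ∧ dw (pen F0 F1 ε) (z, (e j).w z + ε * d j (z, ε)) ≠ 0 := by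
    intro j
    obtain ⟨η', hη', h2⟩ := Pc.tube_ev (End.isCompact_near (hP.ok j) a a)
      (Q := fun p : ℂ × ℂ => AnalyticAt ℂ (d j) p ∧ ‖p.2 * d j p‖ < min σ R ∧
        pen (dw F0) (dw F1) p.2 (p.1, (e j).w p.1 + p.2 * d j p) ≠ 0) (fun z hz => by
      have h2 := hD.dan j (z, 0) ⟨hz, rfl⟩
      have h3 : ContinuousAt (fun p : ℂ × ℂ => p.2 * d j p) (z, 0) :=
        continuousAt_snd.mul h2.continuousAt
      have h4 : ContinuousAt (fun p : ℂ × ℂ => (e j).w p.1) (z, 0) :=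
        ContinuousAt.comp (g := (e j).w) (f := Prod.fst) (hD.wan j z hz).continuousAt
          continuousAt_fst
      refine h2.eventually_analyticAt.and (Filter.Eventually.and
        (h3.norm.eventually (gt_mem_nhds ?_)) (ContinuousAt.eventually_ne ?_ ?_))
      · simpa using ⟨hD.spos, hD.Rpos⟩
      · exact ContinuousAt.comp (g := fun q : E × ℂ => pen (dw F0) (dw F1) q.2 q.1)
          (f := fun p : ℂ × ℂ => ((p.1, (e j).w p.1 + p.2 * d j p), p.2))
          (Pc.cont_pen h0.dw h1.dw).continuousAt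
          ((continuousAt_fst.prodMk (h4.add h3)).prodMk continuousAt_snd)
      · simpa [pen] using (hD.wreg j z hz).2)
    filter_upwards [h2] with ε hε z hz
    rw [Pc.dw_pen h0 h1]
    exact hε z (self_subset_thickening hη' _ hz)
  have E3 := (hB ι F0 F1 Γ Nd e d R a σ hP h1 hD).1 (min η R) (lt_min hη hD.Rpos)
  filter_upwards [self_mem_nhdsWithin, nhdsWithin_le_nhds E1,
    nhdsWithin_le_nhds (eventually_all.2 E2), nhdsWithin_le_nhds E3, nhdsWithin_le_nhds hD.sheet]
    with ε hε e1 e2 e3 e4 hconn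
  have t1 : ∀ y ∈ pset F0 F1 Γ e R a σ ε, y ∈ thickening η Γ := fun y hy =>
    thickening_mono (min_le_left _ _) _ (e3.1 hy)
  have t2 : ∀ y ∈ pset F0 F1 Γ e R a σ ε, y ∈ thickening R Γ := fun y hy =>
    thickening_mono (min_le_right _ _) _ (e3.1 hy)
  have sh : ∀ j, ∀ y ∈ tube ((e j).gr ((e j).near a a)) σ,
      (pen F0 F1 ε y = 0 ↔ y.2 = (e j).w y.1 + ε * d j (y.1, ε)) := by
    intro j y hy
    obtain ⟨h2, h3⟩ := mem_tube_gr.1 hy
    have h4 := e4 j y.1 h2 _ h3
    rw [add_sub_cancel, sub_eq_iff_eq_add'] at h4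
    exact h4
  have inO : ∀ j, ∀ y : E, y.1 ∈ (e j).nearO a a → y.2 = (e j).w y.1 + ε * d j (y.1, ε) →
      y ∈ tubeO (e j) a σ := by
    intro j y h2 h3
    refine ⟨h2, ?_⟩
    rw [h3, add_sub_cancel_left]
    exact (e2 j y.1 (hnn j h2)).2.1.trans_le (min_le_left _ _)
  refine ⟨Pc.poly_pen h0 h1 ε, ?_, fun y hy => hy.2.1,
    fun y hy => (e1 y (t1 y hy)).1 hε hy.2.1, fun y hy => (e1 y (t1 y hy)).2.1, hP.ok,
    fun j z hz => ?_, fun j => ?_, fun j z hz => (e2 j z (hnn j (hcn j hz))).2.2,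
    fun j z hz => ?_, fun y hy hl => ?_, hconn, fun i j hij => ?_⟩
  · refine (hP.cpt.cthickening (r := R)).of_isClosed_subset ?_ fun y hy => hy.1
    refine isClosed_cthickening.inter ((isClosed_eq (Pc.poly_pen h0 h1 ε).continuous
      continuous_const).inter ?_)
    have e5 : {y : E | ∀ j, y ∈ tubeO (e j) a σ → (e j).side y.1} =
        ⋂ j, ((tubeO (e j) a σ)ᶜ ∪ Prod.fst ⁻¹' {z | (e j).side z}) := by
      ext y
      simp only [mem_iInter, mem_union, mem_compl_iff, mem_preimage, imp_iff_not_or]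
      rfl
    show IsClosed {y : E | ∀ j, y ∈ tubeO (e j) a σ → (e j).side y.1}
    rw [e5]
    exact isClosed_iInter fun j => (Pc.open_tubeO (hP.ok j) (cw j)).isClosed_compl.union
      ((e j).isClosed_side.preimage continuous_fst)
  · exact (hP.wan j z hz).add (analyticAt_const.mul
      (AnalyticAt.comp (g := d j) (f := fun z : ℂ => (z, ε)) (e2 j z (hnn j (hcn j hz))).1
        (analyticAt_id.prod analyticAt_const)))
  · filter_upwards [(End.isOpen_nearO (hP.ok j) a a).mem_nhdsSet.2 (hcn j)] with z hz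
    exact (sh j _ (Pc.tubeO_sub (inO j (z, (e j).w z + ε * d j (z, ε)) hz rfl))).2 rfl
  · have h2 := inO j (z, (e j).w z + ε * d j (z, ε)) (hcn j hz) rfl
    have h3 : (z, (e j).w z) ∈ Γ := by
      refine (hP.loc j z hz).self_of_nhds.2 ⟨rfl, ?_⟩
      have : ‖z - (e j).c‖ = (e j).r := mem_sphere_iff_norm.1 hz
      exact ⟨fun _ => this.le, fun _ => this.ge⟩
    have h4 : ((z, (e j).w z + ε * d j (z, ε)) : E) ∈ thickening R Γ := by
      refine mem_thickening_iff.2 ⟨_, h3, ?_⟩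
      rw [dist_prod_same_left, dist_eq_norm, add_sub_cancel_left]
      exact (e2 j z (hnn j (hcn j hz))).2.1.trans_le (min_le_right _ _)
    filter_upwards [(Pc.open_tubeO (hP.ok j) (cw j)).mem_nhds h2, isOpen_thickening.mem_nhds h4]
      with y h5 h6
    have h7 := sh j y (Pc.tubeO_sub h5)
    refine ⟨fun hy => ⟨h7.1 hy.2.1, hy.2.2 j h5⟩, fun hy =>
      ⟨thickening_subset_cthickening _ _ h6, h7.2 hy.1, fun i hi => ?_⟩⟩
    by_cases hij : i = j
    · rw [hij]; exact hy.2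
    · exact absurd (Pc.tubeO_sub h5) (disjoint_left.1 (hD.disj hij) (Pc.tubeO_sub hi))
  · have h2 : ∀ j, ∀ᶠ x in 𝓝 y, x ∈ tubeO (e j) a σ → (e j).side x.1 := by
      intro j
      by_cases hk : (e j).k = Kind.pt
      · exact Eventually.of_forall fun x _ => End.side_pt hk _
      have hr := (hP.ok j).pos hk
      by_cases ht : y ∈ tube ((e j).gr ((e j).near a a)) σ
      · have h3 := (mem_tube_gr.1 ht).1
        rw [End.near_loop hk] at h3
        have h4 := (e1 y (t1 y hy)).2.2 j hk ht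
        have h5 := (sh j y ht).1 hy.2.1
        have h6 : 0 < (e j).dep y.1 := by
          by_contra h6
          have h7 : y.1 ∈ (e j).nearO a a := by
            rw [End.nearO_loop hk]
            exact ⟨h3.1, h4, by linarith [hD.apos]⟩
          have h8 := (End.side_iff hk hr h3.1).1 (hy.2.2 j (inO j y h7 h5))
          exact hl ⟨j, hk, (End.mem_circ hr).2 ⟨h3.1, by linarith⟩, h5⟩
        filter_upwards [Pc.ev_dep hr h3.1 h6] with x hx _
        exact (End.side_iff hk hr hx.1).2 hx.2.le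
      · filter_upwards [(Pc.closed_tube (hP.ok j) (cw j)).isOpen_compl.mem_nhds ht] with x hx h3
        exact absurd (Pc.tubeO_sub h3) hx
    filter_upwards [eventually_all.2 h2, isOpen_thickening.mem_nhds (t2 y hy)] with x h3 h4 h5
    exact ⟨thickening_subset_cthickening _ _ h4, h5, h3⟩
  · exact (hD.disj hij).mono (fun y hy => Pc.tubeO_sub (inO i y (hcn i hy.1) hy.2))
      fun y hy => Pc.tubeO_sub (inO j y (hcn j hy.1) hy.2)

end Pool.Agent.CF
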