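import Pool.Agent.Lib.CF.Blue2

open Set Metric Filter Topology

namespace Pool.Agent.CF

namespace PD

variable {ι : Type} {F0 F1 : E → ℂ} {Γ Nd : Set E} {e : ι → End} {d : ι → ℂ × ℂ → ℂ} {R a σ : ℝ}

theorem small [Fintype ι] (h : PreCurve F0 Γ e Nd) (D : PData F0 F1 Γ e d R a σ) {η : ℝ}
    (hη : 0 < η) : ∀ᶠ ε in 𝓝 (0 : ℂ), ∀ j, ∀ z ∈ (e j).near a a,
      ContinuousAt (d j) (z, ε) ∧ ‖ε * d j (z, ε)‖ < η := by
  refine eventually_all.2 fun j => (End.isCompact_near (h.ok j) a a).eventually_forall_of_forall_eventually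
    fun z hz => ?_
  have h1 := D.dan j (z, 0) ⟨hz, rfl⟩
  have t : Tendsto (fun p : ℂ × ℂ => (p.2, p.1)) (𝓝 (0, z)) (𝓝 (z, 0)) :=
    (continuous_snd.prodMk continuous_fst).continuousAt
  have h2 : ContinuousAt (fun p : ℂ × ℂ => ‖p.1 * d j (p.2, p.1)‖) (0, z) :=
    (continuousAt_fst.mul (ContinuousAt.comp (f := fun p : ℂ × ℂ => (p.2, p.1))
      h1.continuousAt (continuous_snd.prodMk continuous_fst).continuousAt)).norm
  filter_upwards [t.eventually h1.eventually_analyticAt,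
    h2.eventually_lt continuousAt_const (by simpa using hη)] with p p1 p2 using ⟨p1.continuousAt, p2⟩

theorem ann_near {j : ι} (hk : (e j).k ≠ Kind.pt) (ha : 0 < a) :
    (e j).ann (Ioo 0 a) ⊆ (e j).nearO a a := by
  rw [End.nearO_loop hk]
  exact End.ann_mono (Ioo_subset_Ioo_left (by linarith))

theorem circ_near (h : PreCurve F0 Γ e Nd) (ha : 0 < a) (j : ι) : (e j).circ ⊆ (e j).near a a :=
  (End.circ_subset_nearO (h.ok j) ha ha).trans ((e j).nearO_subset_near le_rfl le_rfl)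

theorem dense (h : PreCurve F0 Γ e Nd) (D : PData F0 F1 Γ e d R a σ) :
    Γ ⊆ closure (Γ \ loops e) := by
  intro y hy
  by_cases hl : y ∈ loops e
  swap
  · exact subset_closure ⟨hy, hl⟩
  obtain ⟨j, hk, h1, h2⟩ := hl
  have hr := (h.ok j).pos hk
  have c1 : y.1 ∈ closure ((e j).ann (Ioo 0 a)) := by
    have : y.1 ∈ (e j).ann (Icc 0 a) := by
      obtain ⟨a1, a2⟩ := (End.mem_circ hr).1 h1
      exact ⟨a1, a2.ge, a2.trans_le D.apos.le⟩
    rw [End.ann_eq_image hr] at this ⊢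
    refine image_closure_subset_closure_image (e j).continuous_param ?_
    rwa [closure_prod_eq, closure_Ioo D.apos.ne, closure_Icc]
  have c2 := mem_closure_image (f := fun z => ((z, (e j).w z) : E))
    (continuousAt_id.prodMk (h.wan j _ h1).continuousAt) c1
  rw [← h2] at c2
  refine closure_mono ?_ c2
  rintro _ ⟨z, hz, rfl⟩
  have t : ((z, (e j).w z) : E) ∈ tube ((e j).gr ((e j).near a a)) σ := mem_tube_gr.2
    ⟨(e j).nearO_subset_near le_rfl le_rfl (ann_near hk D.apos hz), by simpa using D.spos.le⟩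
  refine ⟨(D.loc j _ t).2 ⟨rfl, (End.side_iff hk hr hz.1).2 hz.2.1.le⟩, ?_⟩
  rintro ⟨i, -, i1, i2⟩
  by_cases hij : i = j
  · subst hij
    exact hz.2.1.ne' ((End.mem_circ hr).1 i1).2
  · exact disjoint_left.1 (D.disj hij) (mem_tube_gr.2 ⟨circ_near h D.apos i i1,
      by rw [i2, sub_self, norm_zero]; exact D.spos.le⟩) t

theorem isOpen_tubeO (h : PreCurve F0 Γ e Nd) (D : PData F0 F1 Γ e d R a σ) (j : ι) :
    IsOpen (tubeO (e j) a σ) := by
  refine isOpen_iff_mem_nhds.2 fun y hy => ?_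
  have c : ContinuousAt (fun x : E => ‖x.2 - (e j).w x.1‖) y :=
    (continuousAt_snd.sub ((D.wan j _ ((e j).nearO_subset_near le_rfl le_rfl hy.1)).continuousAt.comp
      continuousAt_fst)).norm
  filter_upwards [c.eventually_lt continuousAt_const hy.2,
    continuousAt_fst.eventually ((End.isOpen_nearO (h.ok j) a a).mem_nhds hy.1)] with x x1 x2
    using ⟨x2, x1⟩

theorem at_loop [Fintype ι] (h : PreCurve F0 Γ e Nd) (D : PData F0 F1 Γ e d R a σ) {j : ι}
    (hk : (e j).k ≠ Kind.pt) : ∀ᶠ ε in 𝓝 (0 : ℂ), IsPreconnected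
      ((pset F0 F1 Γ e R a σ ε \ loops fun j => (e j).pert (d j) ε) ∩ tubeO (e j) a σ) := by
  have hr := (h.ok j).pos hk
  have nn := (ann_near hk D.apos).trans ((e j).nearO_subset_near le_rfl le_rfl)
  filter_upwards [small h D (lt_min D.spos D.Rpos), D.sheet] with ε h1 h2
  have : (pset F0 F1 Γ e R a σ ε \ loops fun j => (e j).pert (d j) ε) ∩ tubeO (e j) a σ =
      ((e j).pert (d j) ε).gr ((e j).ann (Ioo 0 a)) := by
    ext ⟨z, w⟩
    constructor
    · rintro ⟨⟨⟨-, p1, p2⟩, p3⟩, p4⟩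
      have q1 : w = (e j).w z + ε * d j (z, ε) := by
        rw [← (h2 j z ((e j).nearO_subset_near le_rfl le_rfl p4.1) _ p4.2.le).1 (by simpa using p1)]
        simp
      have q2 := p4.1
      rw [End.nearO_loop hk] at q2
      refine ⟨⟨q2.1, lt_of_le_of_ne ((End.side_iff hk hr q2.1).1 (p2 j p4)) fun q => ?_, q2.2.2⟩, q1⟩
      exact p3 ⟨j, hk, (End.mem_circ hr).2 ⟨q2.1, q.symm⟩, q1⟩
    · rintro ⟨hz, hw⟩
      obtain rfl : w = (e j).w z + ε * d j (z, ε) := hw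
      obtain ⟨q1, q2⟩ := lt_min_iff.1 (h1 j z (nn hz)).2
      have sd := (End.side_iff hk hr hz.1).2 hz.2.1.le
      have t : ((z, (e j).w z + ε * d j (z, ε)) : E) ∈ tube ((e j).gr ((e j).near a a)) σ :=
        mem_tube_gr.2 ⟨nn hz, by simpa using q1.le⟩
      refine ⟨⟨⟨mem_cthickening_of_dist_le _ (z, (e j).w z) _ _ ((D.loc j (z, (e j).w z)
        (mem_tube_gr.2 ⟨nn hz, by simpa using D.spos.le⟩)).2 ⟨rfl, sd⟩) (by simpa using q2.le),
        (h2 j z (nn hz) _ q1.le).2 rfl, fun i hi => ?_⟩, ?_⟩, ann_near hk D.apos hz,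
        by simpa using q1⟩
      · by_cases hij : i = j
        · exact hij ▸ sd
        · exact (disjoint_left.1 (D.disj hij) (mem_tube_gr.2
            ⟨(e i).nearO_subset_near le_rfl le_rfl hi.1, hi.2.le⟩) t).elim
      · rintro ⟨i, -, i1, i2⟩
        by_cases hij : i = j
        · subst hij
          exact hz.2.1.ne' ((End.mem_circ hr).1 i1).2
        · have i3 := circ_near h D.apos i i1
          refine disjoint_left.1 (D.disj hij) (mem_tube_gr.2 ⟨i3, ?_⟩) t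
          rw [show _ = (e i).w z + ε * d i (z, ε) from i2, add_sub_cancel_left]
          exact (lt_min_iff.1 (h1 i z i3).2).1.le
  rw [this]
  refine End.isPreconnected_gr (End.isPreconnected_ann hr isPreconnected_Ioo) fun z hz => ?_
  exact ((D.wan j z (nn hz)).continuousAt.add (continuousAt_const.mul (ContinuousAt.comp
    (f := fun z : ℂ => (z, ε)) (h1 j z (nn hz)).1 (by fun_prop)))).continuousWithinAt

end PD

open PD in
theorem st_pd (hB : St_PB) (hN : St_NERVE) : St_PD := by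
  intro ι _ F0 F1 Γ Nd e d R a σ h hF D hL
  obtain ⟨b1, -, b3⟩ := hB ι F0 F1 Γ Nd e d R a σ h hF D
  have box : ∀ y ∈ Γ \ loops e, ∀ N ∈ 𝓝 y, ∃ B, IsOpen B ∧ y ∈ B ∧ B ⊆ N ∧ ∀ᶠ ε in 𝓝[≠] (0 : ℂ),
      IsPreconnected ((pset F0 F1 Γ e R a σ ε \ loops fun j => (e j).pert (d j) ε) ∩ B) ∧
      ((pset F0 F1 Γ e R a σ ε \ loops fun j => (e j).pert (d j) ε) ∩ B).Nonempty := by
    intro y hy N hN
    obtain ⟨R', r1, r2⟩ := b3 {y} isCompact_singleton (singleton_subset_iff.2 hy)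
    rw [thickening_singleton] at r2
    obtain ⟨B, c1, c2, c3, c4⟩ := hL y hy.1 hy.2 _ (inter_mem hN (ball_mem_nhds y r1))
    refine ⟨B, c1, c2, c3.trans inter_subset_left, ?_⟩
    filter_upwards [c4, nhdsWithin_le_nhds r2] with ε e1 e2
    rwa [show (pset F0 F1 Γ e R a σ ε \ loops fun j => (e j).pert (d j) ε) ∩ B =
      {x | pen F0 F1 ε x = 0} ∩ B from Subset.antisymm (fun x hx => ⟨hx.1.1.2.1, hx.2⟩)
        fun x hx => ⟨e2 x (c3 hx.2).2 hx.1, hx.2⟩]
  have ne : ∀ y ∈ Γ \ loops e, ∀ N ∈ 𝓝 y, ∀ᶠ ε in 𝓝[≠] (0 : ℂ),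
      ((pset F0 F1 Γ e R a σ ε \ loops fun j => (e j).pert (d j) ε) ∩ N).Nonempty := by
    intro y hy N hN
    obtain ⟨B, -, -, c3, c4⟩ := box y hy N hN
    exact c4.mono fun ε hε => hε.2.mono (inter_subset_inter_right _ c3)
  refine ⟨hN Γ _ _ _ h.cpt sdiff_subset (dense h D) h.conn (fun y hy => ?_) ne fun η hη =>
    nhdsWithin_le_nhds ((b1 η hη).mono fun ε hε => sdiff_subset.trans hε.1), fun η hη => ?_⟩
  · by_cases hl : y ∈ loops e
    · obtain ⟨j, hk, h1, h2⟩ := hl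
      exact ⟨_, isOpen_tubeO h D j, ⟨End.circ_subset_nearO (h.ok j) D.apos D.apos h1,
        by rw [h2, sub_self, norm_zero]; exact D.spos⟩, nhdsWithin_le_nhds (at_loop h D hk)⟩
    · obtain ⟨B, c1, c2, -, c4⟩ := box y ⟨hy, hl⟩ _ univ_mem
      exact ⟨B, c1, c2, c4.mono fun ε hε => hε.1⟩
  · have := h.cpt.eventually_forall_of_forall_eventually (x₀ := (0 : ℂ))
      (P := fun ε y => ε ∈ ({0}ᶜ : Set ℂ) → y ∈ thickening η (pset F0 F1 Γ e R a σ ε)) fun y hy => by
        obtain ⟨y', p1, p2⟩ := Metric.mem_closure_iff.1 (dense h D hy) _ (half_pos hη)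
        have := eventually_nhdsWithin_iff.1 (ne y' p1 _ (ball_mem_nhds _ (half_pos hη)))
        refine (this.prod_nhds (isOpen_ball.mem_nhds (mem_ball.2 p2))).mono fun p hp hε => ?_
        obtain ⟨x, x1, x2⟩ := hp.1 hε
        refine mem_thickening_iff.2 ⟨x, x1.1, ?_⟩
        linarith [dist_triangle_right p.2 x y', mem_ball.1 x2, mem_ball.1 hp.2]
    exact eventually_nhdsWithin_iff.2 (this.mono fun ε h1 h2 y hy => h1 y hy h2)

end Pool.Agent.CF
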