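import Pool.Agent.Lib.CF.Blue2

open Set Metric Filter Topology

namespace Pool.Agent.CF

namespace PRE

variable {M C : E → ℂ} {y : E}

theorem dw1 (hM : IsPoly M) (hC : IsPoly C) (h : C y = 0) :
    dw (fun x => M x * C x) y = M y * dw C y := by
  rw [dw_mul (hM.differentiableAt y) (hC.differentiableAt y), h, mul_zero, zero_add]

theorem dz1 (hM : IsPoly M) (hC : IsPoly C) (h : C y = 0) :
    dz (fun x => M x * C x) y = M y * dz C y := by
  rw [dz_mul (hM.differentiableAt y) (hC.differentiableAt y), h, mul_zero, zero_add]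

theorem dw2 (hM : IsPoly M) (hC : IsPoly C) (h : C y = 0) :
    dw (dw fun x => M x * C x) y = 2 * dw M y * dw C y + M y * dw (dw C) y := by
  have e : (dw fun x => M x * C x) = fun x => dw M x * C x + M x * dw C x :=
    funext fun x => dw_mul (hM.differentiableAt x) (hC.differentiableAt x)
  rw [e, dw_add ((hM.dw.mul hC).differentiableAt y) ((hM.mul hC.dw).differentiableAt y),
    dw1 hM.dw hC h, dw_mul (hM.differentiableAt y) (hC.dw.differentiableAt y)]
  ring

variable {ι : Type} {Γ Γ' Nd : Set E} {e : ι → End}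

/-- the facts on one of the two curves -/
theorem side (h : IsCurve C Γ e) (hM : IsPoly M) (hc : IsClosed Γ')
    (h1 : ∀ y ∈ Γ, y ∉ Nd → M y ≠ 0 ∧ y ∉ Γ') (h2 : ∀ y ∈ Nd, y ∉ ends e) :
    (∀ y ∈ Γ, y ∉ Nd → (dz (fun x => M x * C x) y ≠ 0 ∨ dw (fun x => M x * C x) y ≠ 0) ∧
      (dw (fun x => M x * C x) y = 0 → dw (dw fun x => M x * C x) y ≠ 0) ∧
      (y ∉ loops e → ∀ᶠ x in 𝓝 y, M x * C x = 0 → x ∈ Γ)) ∧
    ∀ j, ∀ z ∈ (e j).circ, dw (fun x => M x * C x) (z, (e j).w z) ≠ 0 ∧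
      (z, (e j).w z) ∉ Γ' ∧
      ∀ᶠ y in 𝓝 (z, (e j).w z), (y ∈ Γ ∨ y ∈ Γ' ↔ y.2 = (e j).w y.1 ∧ (e j).side y.1) := by
  refine ⟨fun y hy hn => ?_, fun j z hz => ?_⟩
  · have m := (h1 y hy hn).1
    have z := h.zero y hy
    rw [dz1 hM h.poly z, dw1 hM h.poly z, dw2 hM h.poly z]
    refine ⟨(h.grad y hy).imp (mul_ne_zero m) (mul_ne_zero m), fun a => ?_, fun a => ?_⟩
    · have b := (mul_eq_zero.1 a).resolve_left m
      rw [b, mul_zero, zero_add]
      exact mul_ne_zero m (h.ww y hy b)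
    · filter_upwards [h.int y hy a, hM.continuous.continuousAt.eventually_ne m] with x a b c
      exact a ((mul_eq_zero.1 c).resolve_left b)
  · have hy := h.mem_of_circ j hz
    obtain ⟨m, n⟩ := h1 _ hy fun a => h2 _ a ⟨j, hz, rfl⟩
    rw [dw1 hM h.poly (h.zero _ hy)]
    refine ⟨mul_ne_zero m (h.wreg j z hz), n, ?_⟩
    filter_upwards [h.loc j z hz, hc.isOpen_compl.mem_nhds n] with x a b
    rw [← a, or_iff_left b]

end PRE

open PRE in
theorem st_pre : St_PRE := by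
  intro ι κ _ _ C K G Γ Γ' e e' Nd h h' hN ⟨y0, hy0⟩ hG hG0
  have eq : (fun x => G x * C x * K x) = fun x => G x * K x * C x := funext fun x => by ring
  obtain ⟨a1, a2⟩ := side (Nd := Nd) h (hG.mul h'.poly) h'.cpt.isClosed
    (fun y hy hn => ⟨mul_ne_zero (hG0 y (Or.inl hy)) fun a => hn (hN.left y hy a),
      fun a => hn (hN.left y hy (h'.zero y a))⟩) fun y hy => (hN.node y hy).2.2.2.2.2.1
  obtain ⟨b1, b2⟩ := side (Nd := Nd) h' (hG.mul h.poly) h.cpt.isClosed
    (fun y hy hn => ⟨mul_ne_zero (hG0 y (Or.inr hy)) fun a => hn (hN.right y hy a),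
      fun a => hn (hN.right y hy (h.zero y a))⟩) fun y hy => (hN.node y hy).2.2.2.2.2.2
  rw [eq] at b1 b2
  have lp : ∀ y, y ∈ loops (Sum.elim e e') ↔ y ∈ loops e ∨ y ∈ loops e' := fun y => by
    simp [loops]
  have le : loops e ⊆ ends e := fun _ ⟨j, _, a⟩ => ⟨j, a⟩
  have le' : loops e' ⊆ ends e' := fun _ ⟨j, _, a⟩ => ⟨j, a⟩
  refine ⟨(hG.mul h'.poly).mul h.poly, h.cpt.union h'.cpt, ?_, ?_, ?_, ?_, ?_, ?_, ?_, ?_, ?_, ?_,
    ?_⟩
  · rintro y (hy | hy)
    · simp [h.zero y hy]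
    · simp [h'.zero y hy]
  · rintro y (hy | hy) hn
    exacts [(a1 y hy hn).1, (b1 y hy hn).1]
  · intro y hy
    by_cases hn : y ∈ Nd
    · obtain ⟨c1, c2, c3, c4, -⟩ := hN.node y hn
      intro _
      rw [dw2 (hG.mul h'.poly) h.poly (h.zero y c1), dw1 hG h'.poly (h'.zero y c2), h'.zero y c2,
        mul_zero, zero_mul, add_zero]
      exact mul_ne_zero (mul_ne_zero two_ne_zero (mul_ne_zero (hG0 y hy) c4)) c3
    · rcases hy with hy | hy
      exacts [(a1 y hy hn).2.1, (b1 y hy hn).2.1]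
  · rintro (j | j)
    exacts [h.ok j, h'.ok j]
  · rintro (j | j)
    exacts [h.wan j, h'.wan j]
  · rintro (j | j)
    · exact (h.wz j).mono fun z hz => by simp [hz]
    · exact (h'.wz j).mono fun z hz => by simp [hz]
  · rintro (j | j) z hz
    exacts [(a2 j z hz).1, (b2 j z hz).1]
  · rintro (j | j) z hz
    exacts [(a2 j z hz).2.2, (b2 j z hz).2.2.mono fun x hx => or_comm.trans hx]
  · intro y hy hl
    rw [lp, not_or] at hl
    by_cases hn : y ∈ Nd
    · obtain ⟨c1, c2, -⟩ := hN.node y hn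
      filter_upwards [h.int y c1 hl.1, h'.int y c2 hl.2,
        hG.continuous.continuousAt.eventually_ne (hG0 y hy)] with x a b c d
      rcases mul_eq_zero.1 d with d | d
      exacts [Or.inr (b ((mul_eq_zero.1 d).resolve_left c)), Or.inl (a d)]
    · rcases hy with hy | hy
      · exact ((a1 y hy hn).2.2 hl.1).mono fun x a b => Or.inl (a b)
      · exact ((b1 y hy hn).2.2 hl.2).mono fun x a b => Or.inr (a ((congrFun eq x).trans b))
  · obtain ⟨c1, c2, -, -, -, c3, c4⟩ := hN.node y0 hy0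
    have : (Γ ∪ Γ') \ loops (Sum.elim e e') = Γ \ loops e ∪ Γ' \ loops e' := by
      ext y
      simp only [mem_diff, mem_union, lp, not_or]
      refine ⟨fun a => a.1.imp (⟨·, a.2.1⟩) (⟨·, a.2.2⟩), ?_⟩
      rintro (⟨a, b⟩ | ⟨a, b⟩)
      · exact ⟨Or.inl a, b, fun c => (hN.node y
          (hN.left y a (h'.zero y (h'.loops_subset c)))).2.2.2.2.2.2 (le' c)⟩
      · exact ⟨Or.inr a, fun c => (hN.node y
          (hN.right y a (h.zero y (h.loops_subset c)))).2.2.2.2.2.1 (le c), b⟩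
    rw [this]
    exact h.conn.union y0 ⟨c1, fun a => c3 (le a)⟩ ⟨c2, fun a => c4 (le' a)⟩ h'.conn
  · rintro (i | i) (j | j) hij
    · exact h.disj fun a => hij (congrArg _ a)
    · refine disjoint_left.2 fun y a b => (a2 i y.1 a.1).2.1 ?_
      rw [← show y.2 = (e i).w y.1 from a.2]
      exact h'.ends_subset ⟨j, b⟩
    · refine disjoint_left.2 fun y a b => (b2 i y.1 a.1).2.1 ?_
      rw [← show y.2 = (e' i).w y.1 from a.2]
      exact h.ends_subset ⟨j, b⟩
    · exact h'.disj fun a => hij (congrArg _ a)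

end Pool.Agent.CF
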