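import Pool.Agent.Lib.CF.Blue2

open Set Metric Filter Topology

namespace Pool.Agent.CF

namespace Split

theorem dw_left {C K G : E → ℂ} {y : E} (hC : IsPoly C) (hK : IsPoly K) (hG : IsPoly G)
    (h0 : C y = 0) : dw (fun x => G x * K x * C x) y = G y * K y * dw C y := by
  rw [dw_mul (F := fun x => G x * K x) ((hG.mul hK).differentiableAt y) (hC.differentiableAt y), h0,
    mul_zero, zero_add]

theorem dw_right {C K G : E → ℂ} {y : E} (hC : IsPoly C) (hK : IsPoly K) (hG : IsPoly G)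
    (h0 : K y = 0) : dw (fun x => G x * K x * C x) y = G y * C y * dw K y := by
  rw [← dw_left hK hC hG h0]
  congr 1
  funext x
  ring

end Split

theorem st_split (hR : St_LREG) (hN : St_LNODE) (hP : St_PRE) (hA : St_PA) (hB : St_PB)
    (hC : St_PC) (hD : St_PD) : St_SPLIT := by
  intro ι κ _ _ C K G q Γ Γ' e e' Nd d c1 c2 nod hne hG hq hG0 hq0 hs
  have pre := hP ι κ C K G Γ Γ' e e' Nd c1 c2 nod hne hG hG0
  obtain ⟨R, a, σ, pd⟩ := hA _ _ q _ _ _ d pre hs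
  have hnode : ∀ y ∈ Nd, LocConn (pen (fun x => G x * K x * C x) q) y ∧
      LocSmooth (pen (fun x => G x * K x * C x) q) y := fun y hy => by
    obtain ⟨h1, h2, -, -, h5, -⟩ := nod.node y hy
    exact hN C K G q y c1.poly c2.poly hG hq (c1.zero y h1) (c2.zero y h2) h5 (hG0 y (Or.inl h1))
      (hq0 y hy)
  have hconn : ∀ y ∈ Γ ∪ Γ', y ∉ loops (Sum.elim e e') →
      LocConn (pen (fun x => G x * K x * C x) q) y := fun y hy _ => by
    by_cases hn : y ∈ Nd
    · exact (hnode y hn).1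
    · exact hR _ q y pre.poly hq (pre.zero y hy) (pre.grad y hy hn)
  obtain ⟨b1, b2, b3⟩ := hB _ _ q _ _ _ d R a σ pre hq pd
  obtain ⟨d1, d2⟩ := hD _ _ q _ _ _ d R a σ pre hq pd hconn
  have c3 := hC _ _ q _ _ _ d R a σ pre hq pd fun y _ hy => (hnode y hy).2
  refine ⟨pset (fun x => G x * K x * C x) q (Γ ∪ Γ') (Sum.elim e e') R a σ, ?_, fun η hη => ?_,
    fun a' ha' => ?_, fun Z0 h1 h2 => ?_⟩
  · filter_upwards [c3, d1] with ε h1 h2 using h1 h2
  · filter_upwards [(b1 η hη).filter_mono nhdsWithin_le_nhds, d2 η hη] with ε h1 h2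
    refine ⟨h1.1, h2, fun y hy h0 => ?_⟩
    obtain ⟨y0, hy0, hw, hd⟩ := h1.2 y hy h0
    refine mem_thickening_iff.2 ⟨y0, ?_, hd⟩
    by_cases hn : y0 ∈ Nd
    · exact Or.inr hn
    have hg := hG0 y0 hy0
    rcases hy0 with h | h
    · rw [Split.dw_left c1.poly c2.poly hG (c1.zero y0 h)] at hw
      have hk : K y0 ≠ 0 := fun hk => hn (nod.left y0 h hk)
      exact Or.inl (Or.inl ⟨h, (mul_eq_zero.1 hw).resolve_left (mul_ne_zero hg hk)⟩)
    · rw [Split.dw_right c1.poly c2.poly hG (c2.zero y0 h)] at hw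
      have hk : C y0 ≠ 0 := fun hk => hn (nod.right y0 h hk)
      exact Or.inl (Or.inr ⟨h, (mul_eq_zero.1 hw).resolve_left (mul_ne_zero hg hk)⟩)
  · obtain ⟨R', hR', h⟩ := b2 a' ha'
    exact ⟨R', hR', h.filter_mono nhdsWithin_le_nhds⟩
  · obtain ⟨R', hR', h⟩ := b3 Z0 h1 h2
    exact ⟨R', hR', h.filter_mono nhdsWithin_le_nhds⟩

end Pool.Agent.CF
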