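import Pool.Agent.Lib.CF.Blue3

open Set Metric Filter Topology

namespace Pool.Agent.CF

/-- a polynomial without zeros on the end circle has a winding number -/
theorem TK.exists_wind (hW : St_WEXT) {e : End} {H : E → ℂ} (ho : e.ok) (hH : IsPoly H)
    (hw : AnalyticOnNhd ℂ e.w e.circ) (h0 : ∀ z ∈ e.circ, H (z, e.w z) ≠ 0) :
    ∃ k, HasWind e (e.res H) k := by
  have ha := End.analyticOnNhd_res hH hw
  by_cases hk : e.k = Kind.pt
  · have hc : e.c ∈ e.circ := by rw [End.circ_pt ho hk]; rfl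
    exact ⟨0, HasWind.of_pt ho hk (ha _ hc) (h0 _ hc)⟩
  · exact hW.1 e _ hk (ho.pos hk) ha h0

theorem st_tk (hW : St_WEXT) (hA : St_ARG) (hB : St_ARG2) : St_TK := by
  intro ι _ C K G q Γ e Nd Nd' lam ε hC hO hK hG hq hε hN hN' hG0 hl
  obtain ⟨kK, a1, a2⟩ := hB ι C K Γ e Nd hC hO hK hN
  obtain ⟨kq, b1, b2⟩ := hB ι C q Γ e Nd' hC hO hq hN'
  choose k c1 c2 using hl
  choose kW d1 using fun j => TK.exists_wind hW (hC.ok j) hC.poly.dw (hC.wan j) (hC.wreg j)
  have g1 : ∀ j, HasWind (e j) ((e j).res G) (kq j - (k j + kK j + kW j)) := fun j => by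
    refine ((b1 j).div (((c2 j).mul (a1 j)).mul (d1 j))).congr ?_
    filter_upwards [(c2 j).ne_zero, (a1 j).ne_zero, (d1 j).ne_zero, (b1 j).ne_zero] with
      z h1 h2 h3 h4 hz
    have h5 := h1 hz
    have h6 := h2 hz
    have h7 := h3 hz
    have h8 := h4 hz
    simp only [End.res] at h5 h6 h7 h8 ⊢
    have h9 : G (z, (e j).w z) ≠ 0 := fun h => h5 (by simp [h])
    field_simp
  have g2 := hA ι C G Γ e ∅ _ hC hO (fun y _ => hG.analyticAt y)
    (fun y hy h => Or.inr (hG0 y hy h)) (by simp) g1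
  refine ⟨fun j => k j + (kW j + (0 + kq j)), fun j => ?_, ?_⟩
  · refine ((c1 j).mul ((d1 j).mul ((HasWind.const (neg_ne_zero.2 hε)).mul (b1 j)))).congr ?_
    filter_upwards [hC.wz j] with z hz _
    simp only [End.res, pen, hz]
    ring
  · simp only [Finset.sum_sub_distrib, Finset.sum_add_distrib, Finset.card_empty, a2, b2,
      zero_add] at g2 ⊢
    push_cast at g2
    linarith

end Pool.Agent.CF
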