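import Pool.Agent.Lib.CF.Basic

open Set Metric Filter Topology

namespace Pool.Agent.CF

/-- division by `z - b`, jointly analytic in `b` -/
theorem IsPoly.div_fst {F : E → ℂ} (h : IsPoly F) :
    ∃ F1 : ℂ × E → ℂ, (∀ b, IsPoly fun y => F1 (b, y)) ∧ (∀ p, AnalyticAt ℂ F1 p) ∧
      (∀ b y, F y - F (b, y.2) = (y.1 - b) * F1 (b, y)) ∧ ∀ y, F1 (y.1, y) = CF.dz F y := by
  induction h with
  | const a => exact ⟨fun _ => 0, fun _ => .const 0, fun _ => analyticAt_const, by simp, by simp⟩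
  | fst => exact ⟨fun _ => 1, fun _ => .const 1, fun _ => analyticAt_const, by simp, by simp⟩
  | snd => exact ⟨fun _ => 0, fun _ => .const 0, fun _ => analyticAt_const, by simp, by simp⟩
  | @add F G f g a b =>
    obtain ⟨F1, a1, a2, a3, a4⟩ := a; obtain ⟨G1, b1, b2, b3, b4⟩ := b
    refine ⟨fun p => F1 p + G1 p, fun c => (a1 c).add (b1 c), fun p => (a2 p).add (b2 p),
      fun c y => by linear_combination a3 c y + b3 c y, fun y => ?_⟩
    rw [dz_add (f.differentiableAt y) (g.differentiableAt y), ← a4, ← b4]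
  | @mul F G f g a b =>
    obtain ⟨F1, a1, a2, a3, a4⟩ := a; obtain ⟨G1, b1, b2, b3, b4⟩ := b
    refine ⟨fun p => F1 p * G p.2 + F (p.1, p.2.2) * G1 p, fun c =>
      ((a1 c).mul g).add ((f.comp (.const c) .snd).mul (b1 c)), fun p => ?_,
      fun c y => by linear_combination G y * a3 c y + F (c, y.2) * b3 c y, fun y => ?_⟩
    · refine ((a2 p).mul ((g.analyticAt _).comp analyticAt_snd)).add (AnalyticAt.mul ?_ (b2 p))
      exact (f.analyticAt _).comp (f := fun p : ℂ × E => (p.1, p.2.2))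
        (analyticAt_fst.prod (analyticAt_snd.comp analyticAt_snd))
    · rw [dz_mul (f.differentiableAt y) (g.differentiableAt y), ← a4, ← b4]

/-- division by `w - a`, jointly analytic in `a` -/
theorem IsPoly.div_snd {F : E → ℂ} (h : IsPoly F) :
    ∃ F2 : ℂ × E → ℂ, (∀ a, IsPoly fun y => F2 (a, y)) ∧ (∀ p, AnalyticAt ℂ F2 p) ∧
      (∀ a y, F y - F (y.1, a) = (y.2 - a) * F2 (a, y)) ∧ ∀ y, F2 (y.2, y) = CF.dw F y := by
  obtain ⟨F1, a1, a2, a3, a4⟩ := (h.comp .snd .fst).div_fst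
  refine ⟨fun p => F1 (p.1, (p.2.2, p.2.1)), fun a => (a1 a).comp .snd .fst, fun p => ?_,
    fun a y => a3 a (y.2, y.1), fun y => a4 (y.2, y.1)⟩
  exact (a2 _).comp (f := fun p : ℂ × E => (p.1, (p.2.2, p.2.1))) (analyticAt_fst.prod
    ((analyticAt_snd.comp analyticAt_snd).prod (analyticAt_fst.comp analyticAt_snd)))

namespace SheetFam

variable {A : ℂ → E → ℂ} {w : ℂ → ℂ} {Z Z' : Set ℂ} {d : ℂ × ℂ → ℂ}

theorem mono (h : SheetFam A w Z d) (hZ : Z' ⊆ Z) : SheetFam A w Z' d := by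
  obtain ⟨h1, σ, h2, h3⟩ := h
  exact ⟨h1.mono (prod_mono hZ Subset.rfl), σ, h2, nhdsSet_mono (prod_mono hZ Subset.rfl) h3⟩

/-- uniform form on a compact set -/
theorem sheet (h : SheetFam A w Z d) (hZ : IsCompact Z) :
    ∃ σ > 0, ∃ N ∈ 𝓝ˢ Z, ∀ᶠ ε in 𝓝 (0 : ℂ), ∀ z ∈ N, AnalyticAt ℂ d (z, ε) ∧ ∀ ν : ℂ, ‖ν‖ ≤ σ →
      (A ε (z, w z + ν) = 0 ↔ ν = ε * d (z, ε)) := by
  obtain ⟨h1, σ, h2, h3⟩ := h
  have h4 : ∀ᶠ p in 𝓝ˢ (Z ×ˢ ({0} : Set ℂ)), AnalyticAt ℂ d p :=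
    eventually_nhdsSet_iff_forall.2 fun p hp => (h1 p hp).eventually_analyticAt
  have h5 := h4.and h3
  rw [hZ.nhdsSet_prod_eq isCompact_singleton, nhdsSet_singleton] at h5
  obtain ⟨pa, ha, pb, hb, h6⟩ := eventually_prod_iff.1 h5
  exact ⟨σ, h2, _, ha, hb.mono fun ε hε z hz => h6 hz hε⟩

end SheetFam

/-- a jointly continuous family converges uniformly on a compact set -/
theorem eventually_unif {Φ : ℂ × ℂ → ℂ} {Z : Set ℂ} (hZ : IsCompact Z)
    (h : ∀ z ∈ Z, ContinuousAt Φ (z, 0)) {η : ℝ} (hη : 0 < η) :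
    ∀ᶠ ε in 𝓝 (0 : ℂ), ∀ z ∈ Z, ‖Φ (z, ε) - Φ (z, 0)‖ < η := by
  refine hZ.eventually_forall_of_forall_eventually fun z hz => ?_
  have h1 : ContinuousAt (fun p : ℂ × ℂ => Φ (p.2, p.1)) (0, z) :=
    ContinuousAt.comp (g := Φ) (f := fun p : ℂ × ℂ => (p.2, p.1)) (h z hz) (by fun_prop)
  have h2 : ContinuousAt (fun p : ℂ × ℂ => Φ (p.2, 0)) (0, z) :=
    ContinuousAt.comp (g := Φ) (f := fun p : ℂ × ℂ => (p.2, 0)) (h z hz) (by fun_prop)
  exact (h1.sub h2).norm.eventually_lt continuousAt_const (by simpa using hη)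

/-- the perturbation `ε d` is uniformly small -/
theorem eventually_small {d : ℂ × ℂ → ℂ} {Z : Set ℂ} (hZ : IsCompact Z)
    (h : ∀ z ∈ Z, ContinuousAt d (z, 0)) {η : ℝ} (hη : 0 < η) :
    ∀ᶠ ε in 𝓝 (0 : ℂ), ∀ z ∈ Z, ‖ε * d (z, ε)‖ < η := by
  have := eventually_unif (Φ := fun p => p.2 * d p) hZ
    (fun z hz => continuousAt_snd.mul (h z hz)) hη
  simpa using this

/-- slices of a jointly analytic family -/
theorem eventually_analyticOnNhd {d : ℂ × ℂ → ℂ} {Z : Set ℂ} (hZ : IsCompact Z)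
    (h : AnalyticOnNhd ℂ d (Z ×ˢ {0})) :
    ∀ᶠ ε in 𝓝 (0 : ℂ), AnalyticOnNhd ℂ (fun z => d (z, ε)) Z := by
  have : ∀ᶠ ε in 𝓝 (0 : ℂ), ∀ z ∈ Z, AnalyticAt ℂ d (z, ε) := by
    refine hZ.eventually_forall_of_forall_eventually fun z hz => ?_
    exact (continuous_swap.tendsto ((0 : ℂ), z)).eventually
      (h (z, 0) ⟨hz, rfl⟩).eventually_analyticAt
  filter_upwards [this] with ε hε z hz
  exact (hε z hz).comp (f := fun z : ℂ => (z, ε)) (analyticAt_id.prod analyticAt_const)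

end Pool.Agent.CF
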