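import Pool.Agent.Lib.CF.Blue2
import Pool.Agent.Lib.CF.Div

open Set Metric Filter Topology

namespace Pool.Agent.CF

namespace Uift

lemma fderiv_snd {F : (ℂ × ℂ) × ℂ → ℂ} {y : (ℂ × ℂ) × ℂ} (hF : DifferentiableAt ℂ F y) {c : ℂ}
    (h : HasDerivAt (fun t => F (y.1, t)) c y.2) : fderiv ℂ F y (0, 1) = c := by
  have h1 : HasDerivAt (fun t : ℂ => ((y.1, t) : (ℂ × ℂ) × ℂ)) (0, 1) y.2 :=
    (hasDerivAt_const _ _).prodMk (hasDerivAt_id _)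
  exact (hF.hasFDerivAt.comp_hasDerivAt y.2 h1).unique h

/-- the local property of the sheet function at the parameter `p` -/
def Loc (F0 F1 : E → ℂ) (w : ℂ → ℂ) (σ : ℝ) (d : ℂ × ℂ → ℂ) (p : ℂ × ℂ) : Prop :=
  (∀ ν : ℂ, ‖ν‖ ≤ σ → (pen F0 F1 p.2 (p.1, w p.1 + ν) = 0 ↔ ν = p.2 * d p)) ∧
    (p.2 = 0 → d p = F1 (p.1, w p.1) / dw F0 (p.1, w p.1))

lemma local_sheet {F0 F1 : E → ℂ} {w : ℂ → ℂ} {z : ℂ} (h0 : IsPoly F0) (h1 : IsPoly F1)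
    (hw : AnalyticAt ℂ w z) (hz : ∀ᶠ x in 𝓝 z, F0 (x, w x) = 0) (hd : dw F0 (z, w z) ≠ 0) :
    ∃ d : ℂ × ℂ → ℂ, AnalyticAt ℂ d (z, 0) ∧ ∃ σ > 0, ∀ᶠ p in 𝓝 ((z, 0) : ℂ × ℂ),
      Loc F0 F1 w σ d p := by
  obtain ⟨F2, -, a2, a3, a4⟩ := h0.div_snd
  have hW : ∀ t : ℂ, AnalyticAt ℂ (fun x : (ℂ × ℂ) × ℂ => w x.1.1) ((z, 0), t) := fun t =>
    AnalyticAt.comp (g := w) (f := fun x : (ℂ × ℂ) × ℂ => x.1.1) hw
      (analyticAt_fst.comp analyticAt_fst)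
  have hZ : ∀ x0 : (ℂ × ℂ) × ℂ, AnalyticAt ℂ (fun x : (ℂ × ℂ) × ℂ => x.1.1) x0 := fun _ =>
    analyticAt_fst.comp analyticAt_fst
  have hE : ∀ x0 : (ℂ × ℂ) × ℂ, AnalyticAt ℂ (fun x : (ℂ × ℂ) × ℂ => x.1.2) x0 := fun _ =>
    analyticAt_snd.comp analyticAt_fst
  have b1 : AnalyticAt ℂ (fun x : (ℂ × ℂ) × ℂ => ((x.1.1, w x.1.1 + x.2) : E)) ((z, 0), 0) :=
    (hZ _).prod ((hW 0).add analyticAt_snd)
  have hΦ : AnalyticAt ℂ (fun x : (ℂ × ℂ) × ℂ => pen F0 F1 x.1.2 (x.1.1, w x.1.1 + x.2))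
      ((z, 0), 0) :=
    ((h0.analyticAt _).comp b1).sub ((hE _).mul ((h1.analyticAt _).comp b1))
  have dΦ : fderiv ℂ (fun x : (ℂ × ℂ) × ℂ => pen F0 F1 x.1.2 (x.1.1, w x.1.1 + x.2))
      ((z, 0), 0) (0, 1) = dw F0 (z, w z) := by
    refine fderiv_snd hΦ.differentiableAt ?_
    have c1 := hasDerivAt_curve (F := F0) (f := fun _ => z) (g := fun t => w z + t) (z := 0)
      (h0.differentiableAt _) (hasDerivAt_const _ _) ((hasDerivAt_id _).const_add _)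
    simpa [pen] using c1
  obtain ⟨g, -, -, -, g4⟩ := ift_gen hΦ (by simpa [pen] using hz.self_of_nhds) (dΦ ▸ hd)
  have b2 : ∀ t : ℂ, AnalyticAt ℂ (fun x : (ℂ × ℂ) × ℂ => ((x.1.1, w x.1.1 + x.1.2 * x.2) : E))
      ((z, 0), t) := fun t => (hZ _).prod ((hW t).add ((hE _).mul analyticAt_snd))
  have hΨ : AnalyticAt ℂ (fun x : (ℂ × ℂ) × ℂ =>
      x.2 * F2 (w x.1.1, (x.1.1, w x.1.1 + x.1.2 * x.2)) - F1 (x.1.1, w x.1.1 + x.1.2 * x.2))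
      ((z, 0), F1 (z, w z) / dw F0 (z, w z)) :=
    (analyticAt_snd.mul ((a2 _).comp ((hW _).prod (b2 _)))).sub ((h1.analyticAt _).comp (b2 _))
  have e4 : ∀ x, F2 (w x, (x, w x)) = dw F0 (x, w x) := fun x => a4 (x, w x)
  have dΨ : fderiv ℂ (fun x : (ℂ × ℂ) × ℂ =>
      x.2 * F2 (w x.1.1, (x.1.1, w x.1.1 + x.1.2 * x.2)) - F1 (x.1.1, w x.1.1 + x.1.2 * x.2))
      ((z, 0), F1 (z, w z) / dw F0 (z, w z)) (0, 1) = dw F0 (z, w z) := by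
    refine fderiv_snd hΨ.differentiableAt ?_
    simpa [e4] using ((hasDerivAt_id (F1 (z, w z) / dw F0 (z, w z))).mul_const
      (dw F0 (z, w z))).sub_const (F1 (z, w z))
  obtain ⟨d, d1, -, d3, -⟩ := ift_gen hΨ (by simp [e4, hd]) (by rw [dΨ]; exact hd)
  have t1 : Tendsto (fun p : ℂ × ℂ => ((p, p.2 * d p) : (ℂ × ℂ) × ℂ)) (𝓝 (z, 0))
      (𝓝 ((z, 0), 0)) := by
    have : ContinuousAt (fun p : ℂ × ℂ => ((p, p.2 * d p) : (ℂ × ℂ) × ℂ)) (z, 0) :=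
      continuousAt_id.prodMk (continuousAt_snd.mul d1.continuousAt)
    simpa [ContinuousAt] using this
  have t2 : ∀ᶠ p : ℂ × ℂ in 𝓝 (z, 0), F0 (p.1, w p.1) = 0 :=
    (continuous_fst.tendsto ((z, 0) : ℂ × ℂ)).eventually hz
  have t3 : ∀ᶠ p : ℂ × ℂ in 𝓝 (z, 0), p.2 * d p = g p := by
    filter_upwards [t1.eventually g4, t2, d3] with p c1 c2 c3
    refine c1.1 ?_
    have c4 := a3 (w p.1) (p.1, w p.1 + p.2 * d p)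
    simp only [pen] at c3 c4 ⊢
    linear_combination c4 + c2 + p.2 * c3
  have t4 : ∀ᶠ p : ℂ × ℂ in 𝓝 (z, 0), dw F0 (p.1, w p.1) ≠ 0 := by
    have c1 : ContinuousAt (fun p : ℂ × ℂ => w p.1) (z, 0) :=
      ContinuousAt.comp (g := w) (f := Prod.fst) hw.continuousAt continuousAt_fst
    have c2 : ContinuousAt (fun p : ℂ × ℂ => dw F0 (p.1, w p.1)) (z, 0) :=
      h0.dw.continuous.continuousAt.comp (continuousAt_fst.prodMk c1)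
    exact c2.eventually_ne hd
  rw [nhds_prod_eq] at g4
  obtain ⟨pa, ha, pb, hb, g5⟩ := eventually_prod_iff.1 g4
  obtain ⟨σ, hσ, hball⟩ := nhds_basis_closedBall.mem_iff.1 hb
  refine ⟨d, d1, σ, hσ, ?_⟩
  filter_upwards [ha, t3, t4, d3] with p c1 c2 c3 c4
  refine ⟨fun ν hν => ?_, fun hp => ?_⟩
  · rw [c2]
    exact g5 c1 (hball (mem_closedBall_zero_iff.2 hν))
  · rw [eq_div_iff c3]
    simpa [hp, e4, sub_eq_zero] using c4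

open Classical in
/-- the global sheet function -/
noncomputable def glob (F0 F1 : E → ℂ) (w : ℂ → ℂ) (σ : ℝ) (p : ℂ × ℂ) : ℂ :=
  if p.2 = 0 then F1 (p.1, w p.1) / dw F0 (p.1, w p.1)
  else if h : ∃ ν : ℂ, ‖ν‖ ≤ σ ∧ pen F0 F1 p.2 (p.1, w p.1 + ν) = 0 then h.choose / p.2 else 0

lemma glob_eq {F0 F1 : E → ℂ} {w : ℂ → ℂ} {σ : ℝ} {d : ℂ × ℂ → ℂ} {p : ℂ × ℂ}
    (h : Loc F0 F1 w σ d p) (hs : ‖p.2 * d p‖ ≤ σ) : glob F0 F1 w σ p = d p := by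
  unfold glob
  by_cases hp : p.2 = 0
  · rw [if_pos hp, h.2 hp]
  · have he : ∃ ν : ℂ, ‖ν‖ ≤ σ ∧ pen F0 F1 p.2 (p.1, w p.1 + ν) = 0 :=
      ⟨_, hs, (h.1 _ hs).2 rfl⟩
    rw [if_neg hp, dif_pos he, (h.1 _ he.choose_spec.1).1 he.choose_spec.2]
    field_simp

end Uift

theorem st_uift : St_UIFT := by
  intro F0 F1 w Z h0 h1 hZ hw hz hd
  have hloc : ∀ᶠ σ in 𝓝 (0 : ℝ), ∀ z ∈ Z, ∃ d : ℂ × ℂ → ℂ, AnalyticAt ℂ d (z, 0) ∧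
      ∀ᶠ p in 𝓝 ((z, 0) : ℂ × ℂ), Uift.Loc F0 F1 w σ d p := by
    refine hZ.eventually_forall_of_forall_eventually fun z hzZ => ?_
    obtain ⟨d, d1, σ, hσ, d2⟩ := Uift.local_sheet h0 h1 (hw z hzZ)
      (eventually_nhdsSet_iff_forall.1 hz z hzZ) (hd z hzZ)
    have t1 : Tendsto (fun x : ℝ × ℂ => ((x.2, 0) : ℂ × ℂ)) (𝓝 (0, z)) (𝓝 (z, 0)) :=
      Continuous.tendsto' (by fun_prop) _ _ rfl
    have t2 : ∀ᶠ x : ℝ × ℂ in 𝓝 (0, z), x.1 < σ :=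
      (continuous_fst.tendsto ((0, z) : ℝ × ℂ)).eventually (gt_mem_nhds hσ)
    filter_upwards [t1.eventually (d1.eventually_analyticAt.and d2.eventually_nhds), t2]
      with x c1 c2
    exact ⟨d, c1.1, c1.2.mono fun p hp => ⟨fun ν hν => hp.1 ν (hν.trans c2.le), hp.2⟩⟩
  obtain ⟨σ, hσ2, hσ⟩ := ((hloc.filter_mono nhdsWithin_le_nhds).and
    (self_mem_nhdsWithin : Ioi (0 : ℝ) ∈ 𝓝[>] 0)).exists
  have key : ∀ z ∈ Z, AnalyticAt ℂ (Uift.glob F0 F1 w σ) (z, 0) ∧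
      ∀ᶠ p in 𝓝 ((z, 0) : ℂ × ℂ), Uift.Loc F0 F1 w σ (Uift.glob F0 F1 w σ) p := by
    intro z hzZ
    obtain ⟨d, d1, d2⟩ := hσ2 z hzZ
    have c1 : ContinuousAt (fun p : ℂ × ℂ => ‖p.2 * d p‖) (z, 0) :=
      (continuousAt_snd.mul d1.continuousAt).norm
    have c2 : ∀ᶠ p : ℂ × ℂ in 𝓝 (z, 0), ‖p.2 * d p‖ < σ :=
      c1.eventually_lt continuousAt_const (by simpa using hσ)
    have c3 : d =ᶠ[𝓝 (z, 0)] Uift.glob F0 F1 w σ := by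
      filter_upwards [d2, c2] with p a b using (Uift.glob_eq a b.le).symm
    refine ⟨d1.congr c3, ?_⟩
    filter_upwards [d2, c3] with p a b
    unfold Uift.Loc at a ⊢
    rwa [← b]
  refine ⟨Uift.glob F0 F1 w σ, ⟨?_, σ, hσ, ?_⟩, Eventually.of_forall fun z => ?_⟩
  · rintro ⟨z, ε⟩ ⟨hzZ, rfl⟩
    exact (key z hzZ).1
  · refine eventually_nhdsSet_iff_forall.2 ?_
    rintro ⟨z, ε⟩ ⟨hzZ, rfl⟩
    exact (key z hzZ).2.mono fun p hp => hp.1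
  · simp [Uift.glob]

end Pool.Agent.CF
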