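import Pool.Agent.Lib.CF.Blue2

open Set Metric Filter Topology

namespace Pool.Agent.CF

namespace WFIX

variable {e : End} {W W' : ℂ → ℂ} {k k' : ℤ}

theorem wone (e : End) : HasWind e (fun _ => 1) 0 :=
  ⟨fun _ => 0, fun _ _ => analyticAt_const, Eventually.of_forall fun z _ => by simp⟩

theorem wmul (h : HasWind e W k) (h' : HasWind e W' k') :
    HasWind e (fun z => W z * W' z) (k + k') := by
  obtain ⟨g, a, b⟩ := h
  obtain ⟨g', a', b'⟩ := h'
  refine ⟨fun z => g z + g' z, fun z hz => (a z hz).add (a' z hz), ?_⟩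
  filter_upwards [b, b'] with z c c' hz
  rw [c hz, c' hz, mul_add, zpow_add₀ (sub_ne_zero.2 hz), Complex.exp_add]
  ring

theorem wdiv (h : HasWind e W k) (h' : HasWind e W' k') :
    HasWind e (fun z => W z / W' z) (k - k') := by
  obtain ⟨g, a, b⟩ := h
  obtain ⟨g', a', b'⟩ := h'
  refine ⟨fun z => g z - g' z, fun z hz => (a z hz).sub (a' z hz), ?_⟩
  filter_upwards [b, b'] with z c c' hz
  rw [c hz, c' hz, mul_sub, zpow_sub₀ (sub_ne_zero.2 hz), Complex.exp_sub, mul_div_mul_comm]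

theorem wpow (h : HasWind e W k) (m : ℕ) : HasWind e (fun z => W z ^ m) (m * k) := by
  induction m with
  | zero => simpa using wone e
  | succ m ih =>
    have := wmul ih h
    simp only [← pow_succ] at this
    rwa [Nat.cast_succ, add_mul, one_mul]

theorem wprod {ι : Type} (s : Finset ι) {V : ι → ℂ → ℂ} {m : ι → ℤ}
    (h : ∀ j ∈ s, HasWind e (V j) (m j)) : HasWind e (fun z => ∏ j ∈ s, V j z) (∑ j ∈ s, m j) := by
  classical
  induction s using Finset.induction_on with
  | empty => simpa using wone e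
  | insert a s ha ih =>
    simp only [Finset.prod_insert ha, Finset.sum_insert ha]
    exact wmul (h a (by simp)) (ih fun j hj => h j (by simp [hj]))

theorem wpt (he : e.ok) (hk : e.k = Kind.pt) (ha : AnalyticAt ℂ W e.c) (h0 : W e.c ≠ 0) :
    HasWind e W 0 := by
  refine ⟨fun z => Complex.log (W z / W e.c) + Complex.log (W e.c), ?_, ?_⟩
  · rw [End.circ_pt he hk]
    rintro z rfl
    refine AnalyticAt.add (AnalyticAt.clog (ha.div_const) ?_) analyticAt_const
    rw [div_self h0]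
    exact Complex.one_mem_slitPlane
  · rw [End.circ_pt he hk, nhdsSet_singleton]
    filter_upwards [ha.continuousAt.eventually_ne h0] with z hz _
    rw [mul_zero, zpow_zero, one_mul, Complex.exp_add, Complex.exp_log (div_ne_zero hz h0),
      Complex.exp_log h0, div_mul_cancel₀ _ h0]

theorem wout {b : ℂ} (h : ∀ z ∈ e.circ, ‖z - e.c‖ < ‖b - e.c‖) :
    HasWind e (fun z => z - b) 0 := by
  have hb : ∀ z ∈ e.circ, e.c - b ≠ 0 := fun z hz h0 => by
    have := h z hz
    rw [← sub_eq_zero.1 h0, sub_self, norm_zero] at this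
    exact absurd this (not_lt.2 (norm_nonneg _))
  refine ⟨fun z => Complex.log (e.c - b) + Complex.log (1 + (z - e.c) / (e.c - b)),
    fun z hz => ?_, eventually_nhdsSet_iff_forall.2 fun z hz => ?_⟩
  · refine AnalyticAt.add analyticAt_const (AnalyticAt.clog (by fun_prop) ?_)
    refine Complex.mem_slitPlane_of_norm_lt_one ?_
    rw [norm_div, div_lt_one (norm_pos_iff.2 (hb z hz)), norm_sub_rev e.c]
    exact h z hz
  · have hzb : z ≠ b := fun h0 => absurd (h z hz) (by rw [h0]; exact lt_irrefl _)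
    filter_upwards [isOpen_ne.mem_nhds hzb] with x hx _
    have h1 := hb z hz
    have h2 : 1 + (x - e.c) / (e.c - b) = (x - b) / (e.c - b) := by field_simp; ring
    rw [mul_zero, zpow_zero, one_mul, Complex.exp_add, Complex.exp_log h1, h2,
      Complex.exp_log (div_ne_zero (sub_ne_zero.2 hx) h1)]
    field_simp

theorem win {b : ℂ} (hk : e.k = Kind.out) (h : ∀ z ∈ e.circ, ‖b - e.c‖ < ‖z - e.c‖) :
    HasWind e (fun z => z - b) 1 := by
  have hc : ∀ z ∈ e.circ, z - e.c ≠ 0 := fun z hz =>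
    norm_pos_iff.1 ((norm_nonneg _).trans_lt (h z hz))
  refine ⟨fun z => Complex.log (1 + (e.c - b) / (z - e.c)),
    fun z hz => ?_, eventually_nhdsSet_iff_forall.2 fun z hz => ?_⟩
  · refine AnalyticAt.clog (AnalyticAt.add analyticAt_const
      (AnalyticAt.div analyticAt_const (by fun_prop) (hc z hz))) ?_
    refine Complex.mem_slitPlane_of_norm_lt_one ?_
    rw [norm_div, div_lt_one (norm_pos_iff.2 (hc z hz)), norm_sub_rev e.c]
    exact h z hz
  · have hzb : z ≠ b := fun h0 => absurd (h z hz) (by rw [h0]; exact lt_irrefl _)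
    filter_upwards [isOpen_ne.mem_nhds hzb] with x hx hxc
    have h1 : x - e.c ≠ 0 := sub_ne_zero.2 hxc
    have h2 : 1 + (e.c - b) / (x - e.c) = (x - b) / (x - e.c) := by field_simp; ring
    have h3 : e.sgn = -1 := by simp [End.sgn, hk]
    rw [h3, h2, Complex.exp_log (div_ne_zero (sub_ne_zero.2 hx) h1)]
    simp only [neg_neg, mul_one, zpow_one]
    field_simp

theorem wmove (hW : St_WEXT) (hk : e.k ≠ Kind.pt) (hr : 0 < e.r) {s A : ℝ} (h1 : -A < s)
    (h2 : s ≤ 0) (hA : 0 < A) (ha : AnalyticOnNhd ℂ W (e.ann (Icc (-A) A)))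
    (h0 : ∀ z ∈ e.ann (Icc s A), W z ≠ 0) (h : HasWind (e.move s) W k) : HasWind e W k := by
  have hr' : 0 < (e.move s).r := End.rad_pos hr s
  have hk' : (e.move s).k ≠ Kind.pt := hk
  have hok : (e.move s).ok := by simpa [End.ok, hk'] using hr'
  have hne : ∀ᶠ z in 𝓝ˢ (e.move s).circ, z ≠ e.c → W z ≠ 0 := by
    obtain ⟨g, -, b⟩ := h
    filter_upwards [b] with z c hz
    rw [c hz]
    exact mul_ne_zero (zpow_ne_zero _ (sub_ne_zero.2 hz)) (Complex.exp_ne_zero _)
  obtain ⟨δ, hδ, hs⟩ := End.shrink hok hne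
  have hm : 0 < min δ (s + A) := lt_min hδ (by linarith)
  have m1 := min_le_left δ (s + A)
  have m2 := min_le_right δ (s + A)
  obtain ⟨g, g1, g2⟩ := hW.2.1 (e.move s) W k (-min δ (s + A)) (A - s) hk' hr' (by linarith)
    (by linarith) (ha.mono fun z hz => by
      have h3 := hz.2
      rw [End.dep_move hr s hz.1] at h3
      exact ⟨hz.1, by linarith [h3.1], by linarith [h3.2]⟩)
    (fun z hz => by
      have h3 := hz.2
      rcases le_total 0 ((e.move s).dep z) with h4 | h4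
      · rw [End.dep_move hr s hz.1] at h3 h4
        exact h0 z ⟨hz.1, by linarith, by linarith [h3.2]⟩
      · refine hs δ δ le_rfl le_rfl (show z ∈ _ from ?_) hz.1
        rw [End.near_loop hk']
        exact ⟨hz.1, by linarith [h3.1], by linarith⟩) h
  have hmem : (e.move s).ann (Ioo (-min δ (s + A)) (A - s)) ∈ 𝓝ˢ e.circ := by
    refine (End.isOpen_ann hr' isOpen_Ioo).mem_nhdsSet.2 fun z hz => ?_
    obtain ⟨a, b⟩ := (End.mem_circ hr).1 hz
    refine ⟨a, ?_⟩
    rw [End.dep_move hr s a, b]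
    exact ⟨by linarith, by linarith⟩
  refine ⟨g, g1.mono (subset_of_mem_nhdsSet hmem), ?_⟩
  filter_upwards [hmem] with z hz _
  exact g2 z hz

theorem adj_loop (hk : e.k ≠ Kind.pt) (s t : ℝ) : e.adj s t = e.move s := if_neg hk

theorem adj_pt (hk : e.k = Kind.pt) (s : ℝ) : e.adj s 0 = e := by simp [End.adj, hk]

theorem move_zero (e : End) : e.move 0 = e := by
  unfold End.move
  rw [End.rad_zero]

theorem adj_k (s : ℝ) (h : (e.adj s 0).k ≠ Kind.pt) : e.k ≠ Kind.pt := fun hk =>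
  h (by rw [adj_pt hk]; exact hk)

theorem circ_move (hr : 0 < e.r) {s : ℝ} {z : ℂ} :
    z ∈ (e.move s).circ ↔ z ≠ e.c ∧ e.dep z = s := End.mem_sphere_rad hr

theorem side_move (hk : e.k ≠ Kind.pt) (hr : 0 < e.r) {s : ℝ} {z : ℂ} (hz : z ≠ e.c)
    (h : s ≤ e.dep z) : (e.move s).side z := by
  rw [End.side_iff (e := e.move s) hk (End.rad_pos hr s) hz, End.dep_move hr s hz]
  linarith

theorem one (hM : St_MOVE) (hC : St_CHAIN) (hW : St_WEXT) (hA : St_ARG) {ι : Type} [Fintype ι]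
    [DecidableEq ι] {C K : E → ℂ} {Γ : Set E} {e : ι → End} {Sig : Finset ℂ} {r1 h : ℝ} {H : ι}
    {b0 : ℂ} (cv : IsCurve C Γ e) (G : Geo C Γ e Sig r1 h) (pK : IsPoly K)
    (fin : {x | x ∈ Γ ∧ K x = 0}.Finite)
    (hK : ∀ j, ∀ z ∈ (e j).near (2 * h) (2 * r1), K (z, (e j).w z) ≠ 0) (hH : (e H).k = Kind.out)
    (hb : b0 ∈ (e H).ann (Ioo (-(2 * h)) 0)) (hb' : ∀ w, (b0, w) ∉ Γ)
    (far : ∀ j, j ≠ H → ∀ z ∈ (e j).near (2 * h) (2 * r1), ‖z - (e j).c‖ < ‖b0 - (e j).c‖)
    {j : ι} (hj : j ≠ H) (hjk : (e j).k ≠ Kind.pt) :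
    ∃ F : E → ℂ, IsPoly F ∧ (∀ y, K y = 0 → y.1 ≠ b0 → F y ≠ 0) ∧ (∀ y ∈ Γ, F y ≠ 0) ∧
      ∀ i, HasWind (e i) ((e i).res F) (if i = H then 1 else if i = j then -1 else 0) := by
  have hp := G.hpos
  have rp := G.r1pos
  have hHk : (e H).k ≠ Kind.pt := by rw [hH]; decide
  have rH := (cv.ok H).pos hHk
  have rj := (cv.ok j).pos hjk
  obtain ⟨sH, s1, s2⟩ := exists_between hb.2.1
  have s3 : sH < 0 := s2.trans hb.2.2
  obtain ⟨s, sa, sb, sc⟩ : ∃ s : ι → ℝ, s H = sH ∧ s j = -h ∧ ∀ i, i ≠ H → i ≠ j → s i = 0 :=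
    ⟨fun i => if i = H then sH else if i = j then -h else 0, by simp, by simp [hj],
      fun i a b => by simp [a, b]⟩
  have sd : ∀ i, -(2 * h) < s i ∧ s i ≤ 0 := fun i => by
    by_cases a : i = H
    · rw [a, sa]; exact ⟨s1, s3.le⟩
    by_cases b : i = j
    · rw [b, sb]; exact ⟨by linarith, by linarith⟩
    · rw [sc i a b]; exact ⟨by linarith, le_rfl⟩
  have cv' := hM ι C Γ e Sig r1 h s (fun _ => 0) cv G fun i =>
    ⟨abs_lt.2 ⟨(sd i).1, by linarith [(sd i).2]⟩, by linarith⟩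
  set Γ' := moved Γ e (fun i => (e i).adj (s i) 0) r1 h with hΓ'
  have hin : ∀ i, (e i).k ≠ Kind.pt → ∀ z ∈ (e i).ann (Icc (s i) (2 * h)),
      z ∈ (e i).near (2 * h) (2 * r1) ∧ (z, (e i).w z) ∈ Γ' := fun i hi z hz => by
    have h1 : z ∈ (e i).near (2 * h) (2 * r1) := by
      rw [End.near_loop hi]
      exact ⟨hz.1, (sd i).1.le.trans hz.2.1, hz.2.2⟩
    refine ⟨h1, Or.inr ⟨i, ⟨h1, rfl⟩, ?_⟩⟩
    simp only [adj_loop hi]
    exact side_move hi ((cv.ok i).pos hi) hz.1 hz.2.1
  have hloop : ∀ y ∈ loops fun i => (e i).adj (s i) 0, ∃ i,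
      y ∈ (e i).gr ((e i).near (2 * h) (2 * r1)) ∧ (e i).dep y.1 = s i := by
    rintro y ⟨i, h1, h2, h3⟩
    have hi := adj_k _ h1
    simp only [adj_loop hi] at h2 h3
    obtain ⟨a, b⟩ := (circ_move ((cv.ok i).pos hi)).1 h2
    exact ⟨i, ⟨(hin i hi y.1 ⟨a, b.ge, by rw [b]; linarith [(sd i).2]⟩).1, h3⟩, b⟩
  have hsub : Γ ⊆ Γ' := fun x hx => by
    by_cases h1 : ∀ i, x ∉ (e i).gr ((e i).nearO (2 * h) (2 * r1))
    · exact Or.inl ⟨hx, h1⟩
    push Not at h1
    obtain ⟨i, h2, h3⟩ := h1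
    have h4 := (e i).nearO_subset_near le_rfl le_rfl h2
    refine Or.inr ⟨i, ⟨h4, h3⟩, ?_⟩
    have h5 : (e i).side x.1 := (G.mem i h4).1 (by rw [← h3]; exact hx)
    by_cases hi : (e i).k = Kind.pt
    · simp only [adj_pt hi]; exact h5
    · simp only [adj_loop hi]
      rw [End.near_loop hi] at h4
      exact side_move hi ((cv.ok i).pos hi) h4.1
        ((sd i).2.trans ((End.side_iff hi ((cv.ok i).pos hi) h4.1).1 h5))
  obtain ⟨zj, hzj⟩ : (sphere (e j).c ((e j).rad (-h / 2))).Nonempty :=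
    NormedSpace.sphere_nonempty.2 (End.rad_pos rj _).le
  obtain ⟨z1, z2⟩ := (End.mem_sphere_rad rj).1 hzj
  obtain ⟨b1, b2⟩ := hin H hHk b0 ⟨hb.1, by rw [sa]; exact s2.le, by linarith [hb.2.2]⟩
  obtain ⟨y1, y2⟩ := hin j hjk zj ⟨z1, by rw [sb, z2]; linarith, by rw [z2]; linarith⟩
  obtain ⟨D, pD, d1, -, d3⟩ := hC ι C K Γ' _ (b0, (e H).w b0) (zj, (e j).w zj) cv' pK
    (fin.subset fun x hx => by
      rcases hx.1 with a | ⟨i, a, -⟩
      · exact ⟨a.1, hx.2⟩
      · exact absurd hx.2 (by have := hK i _ a.1; rwa [← a.2] at this))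
    b2 (fun hl => by
      obtain ⟨i, a, b⟩ := hloop _ hl
      by_cases hi : i = H
      · rw [hi, sa] at b; exact s2.ne' b
      · exact lt_irrefl _ (far i hi b0 a.1))
    (G.wz H b0 b1).2 (hK H b0 b1)
    (fun x hx hx1 => by
      rcases hx with a | ⟨i, a, -⟩
      · exact absurd a.1 (by have := hb' x.2; rwa [← show x.1 = b0 from hx1] at this)
      · by_cases hi : i = H
        · rw [hi] at a
          exact Prod.ext hx1 (a.2.trans (by rw [hx1]))
        · exact absurd (far i hi _ a.1) (by rw [hx1]; exact lt_irrefl _))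
    y2 (fun hl => by
      obtain ⟨i, a, b⟩ := hloop _ hl
      by_cases hi : i = j
      · rw [hi, sb, z2] at b; linarith
      · exact Set.disjoint_left.1 (G.disj hi) a ⟨y1, rfl⟩)
    (G.wz j zj y1).2 (hK j zj y1)
  simp only at d1 d3
  set F : E → ℂ := fun x => x.1 - b0 + K x * D x with hF
  have pF : IsPoly F := (IsPoly.fst.sub (IsPoly.const b0)).add (pK.mul pD)
  have hne : ∀ y ∈ Γ, F y ≠ 0 := fun y hy h0 => by
    have h1 := (d1 y (hsub hy)).1 h0
    rw [h1, G.mem j y1, End.side_iff hjk rj z1, z2] at hy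
    linarith
  have han : ∀ i, AnalyticOnNhd ℂ ((e i).res F) ((e i).near (2 * h) (2 * r1)) := fun i z hz =>
    AnalyticAt.comp (g := F) (f := fun z => (z, (e i).w z)) (pF.analyticAt _)
      (analyticAt_id.prod (G.wan i z hz))
  have hcn : ∀ i, (e i).circ ⊆ (e i).near (2 * h) (2 * r1) := fun i =>
    (End.circ_subset_nearO (cv.ok i) (by linarith) (by linarith)).trans
      ((e i).nearO_subset_near le_rfl le_rfl)
  have wH : HasWind (e H) ((e H).res F) 1 := by
    have h1 := d3 H 1 (by rw [adj_loop hHk]; exact hHk) (by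
      rw [adj_loop hHk]
      refine win hH fun z hz => ?_
      obtain ⟨a, b⟩ := (circ_move rH).1 hz
      change ‖b0 - (e H).c‖ < ‖z - (e H).c‖
      have h3 : (e H).sgn = -1 := by simp [End.sgn, hH]
      rw [End.norm_eq_rad rH a, End.norm_eq_rad rH hb.1, b, sa, End.rad, End.rad, h3]
      refine mul_lt_mul_of_pos_left (Real.exp_lt_exp.2 ?_) rH
      push_cast
      linarith)
    rw [adj_loop hHk] at h1
    refine wmove hW hHk rH (sd H).1 (sd H).2 (by linarith) ?_ (fun z hz h0 => ?_) h1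
    · rw [← End.near_loop hHk (2 * h) (2 * r1)]; exact han H
    · obtain ⟨a, b⟩ := hin H hHk z hz
      have h2 := (d1 _ b).1 h0
      have h3 : ((z, (e H).w z) : E) ∈ (e H).gr ((e H).near (2 * h) (2 * r1)) := ⟨a, rfl⟩
      exact Set.disjoint_left.1 (G.disj hj.symm) h3 (by rw [h2]; exact ⟨y1, rfl⟩)
  have w0 : ∀ i, i ≠ H → i ≠ j → HasWind (e i) ((e i).res F) 0 := fun i a b => by
    by_cases hi : (e i).k = Kind.pt
    · have hc : (e i).c ∈ (e i).circ := by rw [End.circ_pt (cv.ok i) hi]; rfl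
      exact wpt (cv.ok i) hi (han i _ (hcn i hc)) (hne _ (cv.mem_of_circ i hc))
    · have h1 := d3 i 0
      rw [adj_loop hi, sc i a b, move_zero] at h1
      exact h1 hi (wout fun z hz => far i a z (hcn i hz))
  obtain ⟨kj, wj⟩ := hW.1 (e j) ((e j).res F) hjk rj ((han j).mono (hcn j))
    fun z hz => hne _ (cv.mem_of_circ j hz)
  have hall : ∀ i, HasWind (e i) ((e i).res F) (if i = H then 1 else if i = j then kj else 0) :=
    fun i => by
      split_ifs with a b
      · rw [a]; exact wH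
      · rw [b]; exact wj
      · exact w0 i a b
  have hs := hA ι C F Γ e ∅ _ cv (fun b hb1 i hi => by
      have := G.sig i b (hcn i hi) b (G.br hb1)
      rw [sub_self, norm_zero] at this
      linarith) (fun y _ => pF.analyticAt y) (fun y hy h0 => absurd h0 (hne y hy))
    (fun y hy => absurd hy (Finset.notMem_empty y)) hall
  have hs' : ∑ i, (if i = H then 1 else if i = j then kj else 0) = 1 + kj := by
    have : ∀ i, (if i = H then 1 else if i = j then kj else 0) =
        (if i = H then 1 else 0) + if i = j then kj else 0 := fun i => by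
      split_ifs with a b
      · exact absurd (b.symm.trans a) hj
      all_goals simp
    simp only [this, Finset.sum_add_distrib, Finset.sum_ite_eq', Finset.mem_univ, if_true]
  have hk : kj = -1 := by
    rw [hs', Finset.card_empty] at hs
    omega
  refine ⟨F, pF, fun y h0 h1 => ?_, hne, hk ▸ hall⟩
  simp only [hF, h0, zero_mul, add_zero]
  exact sub_ne_zero.2 h1

end WFIX

open WFIX in
theorem st_wfix (hM : St_MOVE) (hC : St_CHAIN) (hW : St_WEXT) (hA : St_ARG) : St_WFIX := by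
  classical
  intro ι _ C K Γ e Sig r1 h H b0 n cv G pK fin hK hH hb hb' far npt nsum
  have key : ∀ j, ∃ F : E → ℂ, IsPoly F ∧ (∀ y, K y = 0 → y.1 ≠ b0 → F y ≠ 0) ∧
      (∀ y ∈ Γ, F y ≠ 0) ∧ ∀ i, HasWind (e i) ((e i).res F)
        (if j = H ∨ (e j).k = Kind.pt then 0 else
          if i = H then 1 else if i = j then -1 else 0) := fun j => by
    by_cases a : j = H ∨ (e j).k = Kind.pt
    · simp only [if_pos a]
      exact ⟨fun _ => 1, IsPoly.const 1, fun _ _ _ => one_ne_zero, fun _ _ => one_ne_zero,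
        fun i => wone _⟩
    · simp only [if_neg a]
      exact one hM hC hW hA cv G pK fin hK hH hb hb' far (fun b => a (Or.inl b))
        fun b => a (Or.inr b)
  choose F f1 f2 f3 f4 using key
  refine ⟨fun y => ∏ j, F j y ^ (-n j).toNat, fun y => ∏ j, F j y ^ (n j).toNat,
    IsPoly.prod _ fun j _ => (f1 j).pow _, IsPoly.prod _ fun j _ => (f1 j).pow _,
    fun y a b => ⟨Finset.prod_ne_zero_iff.2 fun j _ => pow_ne_zero _ (f2 j y a b),
      Finset.prod_ne_zero_iff.2 fun j _ => pow_ne_zero _ (f2 j y a b)⟩,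
    fun y a => ⟨Finset.prod_ne_zero_iff.2 fun j _ => pow_ne_zero _ (f3 j y a),
      Finset.prod_ne_zero_iff.2 fun j _ => pow_ne_zero _ (f3 j y a)⟩, fun i => ?_⟩
  have h1 := wdiv (wprod Finset.univ fun j _ => wpow (f4 j i) (-n j).toNat)
    (wprod Finset.univ fun j _ => wpow (f4 j i) (n j).toNat)
  rw [← Finset.sum_sub_distrib] at h1
  have h2 : ∀ j, (((-n j).toNat : ℤ) * (if j = H ∨ (e j).k = Kind.pt then 0 else
        if i = H then 1 else if i = j then -1 else 0) -
      ((n j).toNat : ℤ) * (if j = H ∨ (e j).k = Kind.pt then 0 else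
        if i = H then 1 else if i = j then -1 else 0)) =
      (if j = i then n j else 0) - if i = H then n j else 0 := fun j => by
    rw [← sub_mul, show ((-n j).toNat : ℤ) - ((n j).toNat : ℤ) = -n j by omega]
    by_cases a : (e j).k = Kind.pt
    · simp [npt j a]
    by_cases b : j = H
    · by_cases c : i = H
      · simp [b, c]
      · simp [b, c, Ne.symm c]
    by_cases c : i = H
    · simp [a, b, c]
    by_cases d : i = j
    · simp [a, b, d]
    · simp [a, b, c, d, Ne.symm d]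
  simp only [h2, Finset.sum_sub_distrib, Finset.sum_ite_eq', Finset.mem_univ, if_true] at h1
  have h3 : (∑ j, if i = H then n j else 0) = 0 := by
    split_ifs
    · exact nsum
    · simp
  rw [h3, sub_zero] at h1
  exact h1

end Pool.Agent.CF
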