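import Pool.Agent.Lib.CF.Blue3

open Set Metric Filter Topology

namespace Pool.Agent.CF

theorem st_arg2 (hW : St_WEXT) (hA : St_ARG) : St_ARG2 := by
  intro ι _ P H Γ e Z hC hoff hH hZ
  have hne : ∀ j, ∀ z ∈ (e j).circ, (e j).res H z ≠ 0 := fun j z hz h0 =>
    (hZ.2 _ (hZ.1 _ (hC.mem_of_circ j hz) h0)).2.2.2.2 j hz
  have hex : ∀ j, ∃ k, HasWind (e j) ((e j).res H) k := by
    intro j
    have han : AnalyticOnNhd ℂ ((e j).res H) (e j).circ := End.analyticOnNhd_res hH (hC.wan j)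
    by_cases hk : (e j).k = Kind.pt
    · have hc : (e j).c ∈ (e j).circ := by
        rw [End.circ_pt (hC.ok j) hk]
        exact mem_singleton _
      exact ⟨0, HasWind.of_pt (hC.ok j) hk (han _ hc) (hne j _ hc)⟩
    · exact hW.1 (e j) _ hk ((hC.ok j).pos hk) han (hne j)
  choose k hk using hex
  exact ⟨k, hk, hA ι P H Γ e Z k hC hoff (fun y _ => hH.analyticAt y)
    (fun y hy h0 => Or.inl (hZ.1 y hy h0)) hZ.2 hk⟩

theorem st_zf (hF : St_FIB) (hA : St_ARG) : St_ZF := by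
  intro ι _ P Γ e a hC hoff ha hcirc
  classical
  obtain ⟨⟨D, hD⟩, -⟩ := hF ι P Γ e hC
  have hfin := (hD a).1
  have hH : IsPoly fun y : E => y.1 - a := IsPoly.fst.sub (IsPoly.const a)
  have hZ : SimpleZ P (fun y => y.1 - a) Γ e (hfin.toFinset.image fun w => (a, w)) := by
    refine ⟨fun y hy h0 => ?_, fun y hy => ?_⟩
    · have h1 : y.1 = a := sub_eq_zero.1 h0
      refine Finset.mem_image.2 ⟨y.2, hfin.mem_toFinset.2 ?_, by rw [← h1]⟩
      show (a, y.2) ∈ Γ
      rw [← h1]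
      exact hy
    · obtain ⟨w, hw, rfl⟩ := Finset.mem_image.1 hy
      have hm : (a, w) ∈ Γ := hfin.mem_toFinset.1 hw
      have hd : dw P (a, w) ≠ 0 := fun h => ha ⟨(a, w), hm, h, rfl⟩
      refine ⟨hm, sub_self a, hd, ?_, hcirc⟩
      unfold jac
      rw [dz_sub differentiableAt_fst (differentiableAt_const a),
        dw_sub differentiableAt_fst (differentiableAt_const a)]
      simpa using hd
  have hex : ∀ j, ∃ k : ℤ, HasWind (e j) ((e j).res fun y => y.1 - a) k ∧
      k ≤ if (e j).k = Kind.out then 1 else 0 := by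
    intro j
    have hr : 0 ≤ (e j).r := by
      by_cases hk : (e j).k = Kind.pt
      · exact ((hC.ok j).zero hk).ge
      · exact ((hC.ok j).pos hk).le
    have hne : ‖a - (e j).c‖ ≠ (e j).r := fun h => hcirc j (mem_sphere_iff_norm.2 h)
    rcases lt_or_gt_of_ne hne with h | h
    · refine ⟨_, HasWind.lin_in h, ?_⟩
      rcases (e j).sgn_cases with h1 | h1 <;> simp [h1.1, h1.2]
    · refine ⟨0, HasWind.lin_out h hr, ?_⟩
      split_ifs <;> simp
  choose k hk hle using hex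
  refine ⟨_, hZ, ?_⟩
  have h1 := hA ι P _ Γ e _ k hC hoff (fun y _ => hH.analyticAt y)
    (fun y hy h0 => Or.inl (hZ.1 y hy h0)) hZ.2 hk
  have h2 : ∑ j, k j ≤ ∑ j, if (e j).k = Kind.out then (1 : ℤ) else 0 :=
    Finset.sum_le_sum fun j _ => hle j
  rw [h1, Finset.sum_boole] at h2
  exact_mod_cast h2

end Pool.Agent.CF
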