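import Pool.Agent.Lib.CF.All1
import Pool.Agent.Lib.CF.B_ARG
import Pool.Agent.Lib.CF.B_CH1
import Pool.Agent.Lib.CF.B_CHAIN
import Pool.Agent.Lib.CF.B_WFIX
import Pool.Agent.Lib.CF.B_UIFT
import Pool.Agent.Lib.CF.B_LREG
import Pool.Agent.Lib.CF.B_LNODE
import Pool.Agent.Lib.CF.B_PRE
import Pool.Agent.Lib.CF.B_PA
import Pool.Agent.Lib.CF.B_PB
import Pool.Agent.Lib.CF.B_PC
import Pool.Agent.Lib.CF.B_PD
import Pool.Agent.Lib.CF.B_SPLIT
import Pool.Agent.Lib.CF.B_ZF
import Pool.Agent.Lib.CF.B_SEC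
import Pool.Agent.Lib.CF.B_NN
import Pool.Agent.Lib.CF.B_TK

namespace Pool.Agent.CF

theorem all_arg : St_ARG := st_arg st_fib st_geo all_reg all_wext all_trz all_ft0
theorem all_chain : St_CHAIN := st_chain st_fib all_punc st_ch1
theorem all_wfix : St_WFIX := st_wfix all_move all_chain all_wext all_arg
theorem all_split : St_SPLIT :=
  st_split st_lreg st_lnode st_pre st_pa st_pb (st_pc st_pb) (st_pd st_pb st_nerve)
theorem all_arg2 : St_ARG2 := st_arg2 all_wext all_arg
theorem all_zf : St_ZF := st_zf st_fib all_arg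
theorem all_sec : St_SEC := st_sec all_wfix all_arg all_arg2
theorem all_tk : St_TK := st_tk all_wext all_arg all_arg2

end Pool.Agent.CF
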