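import Pool.Agent.Lib.CF.Alg

open Set Metric Filter Topology

namespace Pool.Agent.CF

namespace ADDP

/-- change of the direction factor -/
theorem chg {l : End} {f f' R : ℂ → ℂ} {k a b : ℤ} (h : HasWind l (fun z => f z * R z) k)
    (ha : HasWind l f a) (hb : HasWind l f' b) : HasWind l (fun z => f' z * R z) (k - a + b) := by
  refine ((h.div ha).mul hb).congr ?_
  filter_upwards [ha.ne_zero] with z h0 hz
  have := h0 hz
  field_simp

theorem same {l : End} {f f' R : ℂ → ℂ} {k : ℤ} (h : HasWind l (fun z => f z * R z) k)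
    (hs : SameW l f f') : HasWind l (fun z => f' z * R z) k := by
  obtain ⟨a, ha, hb⟩ := hs
  exact (chg h ha hb).cast (sub_add_cancel _ _)

theorem lam_same (hW : St_WUNI) {l : End} {f f' : ℂ → ℂ} (ho : l.ok)
    (h : ∃ k, HasWind l f k ∧ (l.k = Kind.pt → k = 1)) (hs : SameW l f f') :
    ∃ k, HasWind l f' k ∧ (l.k = Kind.pt → k = 1) := by
  obtain ⟨k, h1, h2⟩ := h
  obtain ⟨a, ha, hb⟩ := hs
  exact ⟨a, hb, fun hk => (hW l f a k ho ha h1).trans (h2 hk)⟩

theorem loops_sum {ι π : Type} (e : ι → End) (p : π → ℂ) (w : π → ℂ → ℂ) {y : E}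
    (h : y ∈ loops (Sum.elim e fun k => (⟨p k, 0, Kind.pt, w k⟩ : End))) : y ∈ loops e := by
  obtain ⟨j | j, h1, h2⟩ := h
  · exact ⟨j, h1, h2⟩
  · exact absurd rfl h1

theorem circ_eq {p z : ℂ} {w : ℂ → ℂ} (h : z ∈ (⟨p, 0, Kind.pt, w⟩ : End).circ) : z = p := by
  simpa [End.circ] using h

end ADDP

open ADDP in
theorem st_rota (hW : St_WUNI) : St_ROTA := by
  intro C K Nd TC TK D lam h hs
  have a := h.hC
  have b := h.hK
  obtain ⟨k, hk, hsum⟩ := a.tot
  exact ⟨⟨a.curve, a.out, a.cen, a.rad, a.ins, a.big, a.off,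
    fun j => lam_same hW (a.curve.ok j) (a.lam j) (hs j),
    fun j hj => ⟨(a.priv j hj).ins, (a.priv j hj).far, (a.priv j hj).an, (a.priv j hj).zero,
      (a.priv j hj).mem, (a.priv j hj).only, (a.priv j hj).none⟩,
    k, fun j => same (hk j) (hs j), hsum⟩,
    ⟨b.curve, b.out, b.cen, b.rad, b.ins, b.big, b.off, b.lam,
    fun j hj => ⟨(b.priv j hj).ins, (b.priv j hj).far, (b.priv j hj).an, (b.priv j hj).zero,
      (b.priv j hj).mem, (b.priv j hj).only, (b.priv j hj).none⟩, b.tot⟩,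
    h.nodal, h.off, h.nout, h.num, h.pt⟩

open ADDP in
theorem st_addp (hW : St_WUNI) (hA : St_ADDPT) : St_ADDP := by
  classical
  intro C K Nd TC TK D π _ p w lp lam h hp hk hs hH
  have a := h.hC
  have b := h.hK
  have m0 : ∀ k, p k ∈ closedBall (p k) 0 := fun k => mem_closedBall_self le_rfl
  have nK : ∀ k, ∀ y ∈ K.Γ, y.1 ≠ p k := fun k y hy e => (hk k).1.none y hy (e ▸ m0 k)
  have pr : ∀ q ρ v, Priv C K q ρ v → Priv (C.addp π p w lp lam) K q ρ v := fun q ρ v x =>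
    ⟨x.ins, x.far, x.an, x.zero, fun z hz => ⟨(x.mem z hz).1,
      fun c => (x.mem z hz).2.1 (loops_sum _ _ _ c), (x.mem z hz).2.2⟩, x.only, x.none⟩
  obtain ⟨n, hn, hsum⟩ := a.tot
  refine ⟨⟨hA _ _ _ _ _ p w a.curve (fun _ _ e => hp (congrArg Prod.fst e)) fun k => ?_, a.out, a.cen,
    a.rad, ?_, ?_, ⟨?_, a.off.2⟩, ?_, ?_,
    Sum.elim (fun j => n j - if j = C.H then Fintype.card π else 0) fun _ => 1, ?_, ?_⟩,
    ⟨b.curve, b.out, b.cen, b.rad, b.ins, b.big, ⟨b.off.1, ?_⟩, b.lam,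
    fun j hj => ⟨(b.priv j hj).ins, (b.priv j hj).far, (b.priv j hj).an, (b.priv j hj).zero,
      (b.priv j hj).mem, (b.priv j hj).only, (b.priv j hj).none⟩, b.tot⟩,
    ⟨fun y hy => ?_, h.nodal.left, h.nodal.right⟩, fun y hy => ⟨?_, (h.off y hy).2⟩, ⟨?_, h.nout.2⟩,
    h.num, h.pt⟩
  · obtain ⟨x1, x2, x3⟩ := (hk k).1.mem _ (m0 k)
    refine ⟨x1, ?_, x3, (hk k).1.an _ (m0 k), (hk k).1.zero.filter_mono (nhds_le_nhdsSet (m0 k))⟩
    rintro ⟨j, hj⟩
    by_cases e : (C.e j).k = Kind.pt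
    · have := hj.1
      rw [End.circ_pt (a.curve.ok j) e] at this
      exact (hk k).2.1 j e (Eq.symm this)
    · exact x2 ⟨j, e, hj⟩
  · rintro (j | k) hj
    · exact a.ins j fun e => hj (congrArg Sum.inl e)
    · exact (hk k).1.ins.trans subset_union_left
  · rintro (j | k) z hz
    · exact a.big j z hz
    · have h1 := (hk k).1.far _ (m0 k)
      have h2 : ‖K.c‖ = 1 := by rcases b.cen.1 with e | e <;> simp [e]
      have h3 := norm_sub_le (p k) K.c
      rw [circ_eq hz]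
      linarith
  · rintro _ ⟨y, y1, y2, rfl⟩ (j | k) hz
    · exact a.off.1 _ ⟨y, y1, y2, rfl⟩ j hz
    · have e := circ_eq hz
      have e2 := (hk k).1.only y y1 (e ▸ m0 k)
      refine ((hk k).1.mem _ (m0 k)).2.2 ?_
      rw [← e, ← e2]
      exact y2
  · rintro (j | k)
    · by_cases e : j = C.H
      · obtain ⟨m, -, h2⟩ := hH
        subst e
        exact ⟨_, h2, fun c => absurd (a.out.symm.trans c) (by decide)⟩
      · exact lam_same hW (a.curve.ok j) (a.lam j) (hs j e)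
    · exact ⟨1, (hk k).2.2, fun _ => rfl⟩
  · rintro (j | k) hj
    · exact pr _ _ _ (a.priv j hj)
    · exact pr _ _ _ (hk k).1
  · rintro (j | k)
    · by_cases e : j = C.H
      · obtain ⟨m, h1, h2⟩ := hH
        subst e
        exact (chg (hn C.H) h1 h2).cast (by simp)
      · exact (same (hn j) (hs j e)).cast (by simp [e])
    · obtain ⟨x1, -, x3⟩ := (hk k).1.mem _ (m0 k)
      refine ((hk k).2.2.mul (HasWind.of_pt (W := (⟨p k, 0, Kind.pt, w k⟩ : End).res
        fun y => dw C.P y * K.P y) (by simp [End.ok]) rfl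
        (End.analyticOnNhd_res (a.curve.poly.dw.mul b.curve.poly) (hk k).1.an _ (m0 k))
        (mul_ne_zero x3 fun c => ?_))).cast (by simp)
      exact nK k _ (h.nodal.node _ (h.nodal.left _ x1 c)).2.1 rfl
  · show ∑ j : C.ι ⊕ π, _ = TC
    rw [Fintype.sum_sum_type]
    simp [hsum]
  · rintro _ ⟨y, y1, y2, rfl⟩ (j | k) hz
    · exact b.off.2 _ ⟨y, y1, y2, rfl⟩ j hz
    · exact nK k y y1 (circ_eq hz)
  · obtain ⟨x1, x2, x3, x4, x5, x6, x7⟩ := h.nodal.node y hy
    refine ⟨x1, x2, x3, x4, x5, ?_, x7⟩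
    rintro ⟨j | k, hj⟩
    · exact x6 ⟨j, hj⟩
    · exact nK k y x2 (circ_eq hj.1)
  · rintro (j | k) hz
    · exact (h.off y hy).1 j hz
    · exact nK k y (h.nodal.node y hy).2.1 (circ_eq hz)
  · refine le_of_eq_of_le ?_ h.nout.1
    show (Finset.univ.filter fun j : C.ι ⊕ π =>
      (Sum.elim C.e (fun k => (⟨p k, 0, Kind.pt, w k⟩ : End)) j).k = Kind.out).card = _
    rw [Cv.nout, Finset.card_filter, Finset.card_filter, Fintype.sum_sum_type]
    simp only [Sum.elim_inl, Sum.elim_inr, reduceCtorEq, if_false, Finset.sum_const_zero, add_zero]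
    rfl

end Pool.Agent.CF
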