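import Pool.Agent.Lib.CF.Blue
import Pool.Agent.Lib.CF.Basic

open Set Metric Filter Topology MeasureTheory

namespace Pool.Agent.CF

namespace Addpt

theorem circ_eq (c : ℂ) (w : ℂ → ℂ) : (⟨c, 0, Kind.pt, w⟩ : End).circ = {c} := by
  simp [End.circ]

theorem loops_eq {ι κ : Type} (e : ι → End) (p : κ → ℂ) (w : κ → ℂ → ℂ) :
    loops (Sum.elim e fun k => (⟨p k, 0, Kind.pt, w k⟩ : End)) = loops e := by
  ext y
  constructor
  · rintro ⟨j | k, h1, h2⟩
    · exact ⟨j, h1, h2⟩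
    · exact absurd rfl h1
  · rintro ⟨j, h1, h2⟩
    exact ⟨Sum.inl j, h1, h2⟩

theorem mem_gr {c : ℂ} {w : ℂ → ℂ} {y : E}
    (h : y ∈ (⟨c, 0, Kind.pt, w⟩ : End).gr (⟨c, 0, Kind.pt, w⟩ : End).circ) : y = (c, w c) := by
  rw [circ_eq] at h
  obtain ⟨h1, h2⟩ := h
  have h3 : y.1 = c := h1
  exact Prod.ext h3 (h3 ▸ h2)

end Addpt

theorem st_addpt : St_ADDPT := by
  intro ι κ _ _ P Γ e p w h hinj hp
  refine ⟨h.poly, h.cpt, h.zero, h.grad, h.ww, ?_, ?_, ?_, ?_, ?_, ?_, ?_, ?_⟩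
  · rintro (j | k)
    · exact h.ok j
    · simp [End.ok]
  · rintro (j | k)
    · exact h.wan j
    · simp only [Sum.elim_inr, Addpt.circ_eq]
      intro z hz
      rw [mem_singleton_iff.1 hz]
      exact (hp k).2.2.2.1
  · rintro (j | k)
    · exact h.wz j
    · simp only [Sum.elim_inr, Addpt.circ_eq, nhdsSet_singleton]
      exact (hp k).2.2.2.2
  · rintro (j | k)
    · exact h.wreg j
    · simp only [Sum.elim_inr, Addpt.circ_eq]
      intro z hz
      rw [mem_singleton_iff.1 hz]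
      exact (hp k).2.2.1
  · rintro (j | k)
    · exact h.loc j
    · simp only [Sum.elim_inr, Addpt.circ_eq]
      intro z hz
      rw [mem_singleton_iff.1 hz]
      obtain ⟨h1, h2, h3, h4, h5⟩ := hp k
      have hl : (p k, w k (p k)) ∉ loops e := fun ⟨j, _, a⟩ => h2 ⟨j, a⟩
      obtain ⟨g, -, -, -, hg⟩ := h.chart h1 hl h3
      have ht : Tendsto (fun z : ℂ => ((z, w k z) : E)) (𝓝 (p k)) (𝓝 (p k, w k (p k))) :=
        continuousAt_id.prodMk h4.continuousAt
      have h6 : ∀ᶠ z in 𝓝 (p k), w k z = g z := by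
        filter_upwards [h5, ht.eventually hg, ht.eventually (h.int _ h1 hl)] with z a b c
        exact b.1 (c a)
      have hf : Tendsto (fun y : E => y.1) (𝓝 (p k, w k (p k))) (𝓝 (p k)) :=
        continuous_fst.continuousAt
      filter_upwards [hg, hf.eventually h6] with y a b
      rw [a, b]
      exact ⟨fun c => ⟨c, End.side_pt rfl _⟩, fun c => c.1⟩
  · rw [Addpt.loops_eq]; exact h.int
  · rw [Addpt.loops_eq]; exact h.conn
  · rintro (i | k) (j | l) hne
    · exact h.disj fun a => hne (congrArg Sum.inl a)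
    · exact disjoint_left.2 fun y a b => (hp l).2.1 ⟨i, Addpt.mem_gr b ▸ a⟩
    · exact disjoint_left.2 fun y a b => (hp k).2.1 ⟨j, Addpt.mem_gr a ▸ b⟩
    · exact disjoint_left.2 fun y a b =>
        hne (congrArg Sum.inr (hinj ((Addpt.mem_gr a).symm.trans (Addpt.mem_gr b))))

theorem st_reidx : St_REIDX := by
  intro ι κ P Γ e σ h hσ hr
  have hl : loops (e ∘ σ) = loops e := by
    ext y
    constructor
    · rintro ⟨k, h1, h2⟩
      exact ⟨σ k, h1, h2⟩
    · rintro ⟨j, h1, h2⟩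
      obtain ⟨k, rfl⟩ := hr j h1
      exact ⟨k, h1, h2⟩
  refine ⟨h.poly, h.cpt, h.zero, h.grad, h.ww, fun k => h.ok (σ k), fun k => h.wan (σ k),
    fun k => h.wz (σ k), fun k => h.wreg (σ k), fun k => h.loc (σ k), ?_, ?_,
    fun k l hne => h.disj fun a => hne (hσ a)⟩
  · rw [hl]; exact h.int
  · rw [hl]; exact h.conn

end Pool.Agent.CF
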