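import Pool.Agent.Lib.CF.Alg

open Set Metric Filter Topology

namespace Pool.Agent.CF

namespace ArcB

theorem hub_loop {A B : Cv} {T : ℤ} (h : Half A B T) : A.hub.k ≠ Kind.pt := by
  rw [h.out]; decide

theorem hub_pos {A B : Cv} {T : ℤ} (h : Half A B T) : 0 < A.hub.r := by
  have := h.rad.1
  unfold Cv.R at this
  linarith

theorem ins' {A B : Cv} {T : ℤ} (h : Half A B T) {j : A.ι} (hj : j ≠ A.H) {z : ℂ}
    (hz : ‖z - (A.e j).c‖ ≤ (A.e j).r) : ‖z - A.c‖ < A.R ∨ ‖z - B.c‖ < B.R := by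
  rcases h.ins j hj (mem_closedBall_iff_norm.2 hz) with a | a
  · exact Or.inl (mem_ball_iff_norm.1 a)
  · exact Or.inr (mem_ball_iff_norm.1 a)

/-- the curve lies over the open hub discs except for its hub loop -/
theorem proj {A B : Cv} {T : ℤ} (h : Half A B T) :
    ∀ y ∈ A.Γ, y ∈ A.hub.gr A.hub.circ ∨ ‖y.1 - A.c‖ < A.R ∨ ‖y.1 - B.c‖ < B.R := by
  have hl : ∀ y ∈ loops A.e, y ∈ A.hub.gr A.hub.circ ∨ ‖y.1 - A.c‖ < A.R ∨ ‖y.1 - B.c‖ < B.R := by
    rintro y ⟨j, -, hy⟩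
    by_cases hj : j = A.H
    · subst hj; exact Or.inl hy
    · exact Or.inr (ins' h hj (mem_sphere_iff_norm.1 hy.1).le)
  obtain ⟨c1, c2, h1, h2⟩ : ∃ c1 c2 : ℝ, A.c = c1 ∧ B.c = c2 := by
    rcases h.cen.1 with a | a
    · exact ⟨1, -1, by simp [a], by simp [h.cen.2, a]⟩
    · exact ⟨-1, 1, by simp [a], by simp [h.cen.2, a]⟩
  intro y hy
  have := h.curve.proj_two (c1 := c1) (c2 := c2) (R1 := A.R) (R2 := B.R) (fun y hy => by
    rw [← h1, ← h2]
    rcases hl y hy with a | a | a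
    · exact Or.inl (mem_sphere_iff_norm.1 a.1).le
    · exact Or.inl a.le
    · exact Or.inr a.le) y hy
  rw [← h1, ← h2] at this
  rcases this with a | a
  · exact hl y a
  · exact Or.inr a

theorem rad_lt {A B : Cv} {T : ℤ} (h : Half A B T) {s : ℝ} (hs : 0 < s) : A.hub.rad s < A.R := by
  have h1 : (A.hub.sgn : ℝ) = -1 := by simp [End.sgn, h.out]
  have h2 : Real.exp (-1 * s) < 1 := Real.exp_lt_one_iff.2 (by linarith)
  rw [End.rad, h1]
  exact mul_lt_of_lt_one_right (hub_pos h) h2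

/-- the local statement at a point of the hub circle -/
theorem loc {C K : Cv} {T T' : ℤ} (hC : Half C K T) (hK : Half K C T') {x : ℂ} (hx : x ∈ C.hub.circ) :
    ∀ᶠ z in 𝓝 x, (8 / 5 ≤ ‖z - K.c‖ → (∀ w, (z, w) ∈ C.Γ ↔ w = C.hub.w z ∧ C.hub.side z) ∧
      (∀ w, (z, w) ∉ K.Γ) ∧ (∀ j, j ≠ C.H → (C.e j).r < ‖z - (C.e j).c‖) ∧
      ∀ j, (K.e j).r < ‖z - (K.e j).c‖) ∧
      AnalyticAt ℂ C.hub.w z ∧ C.P (z, C.hub.w z) = 0 ∧ dw C.P (z, C.hub.w z) ≠ 0 := by
  have han : AnalyticAt ℂ C.hub.w x := hC.curve.wan C.H x hx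
  refine Eventually.and ?_ (han.eventually_analyticAt.and
    ((eventually_nhdsSet_iff_forall.1 (hC.curve.wz C.H) x hx).and ?_))
  swap
  · have h1 : ContinuousAt (fun z => dw C.P (z, C.hub.w z)) x :=
      hC.curve.poly.dw.continuous.continuousAt.comp (continuousAt_id.prodMk han.continuousAt)
    exact h1.eventually_ne (hC.curve.wreg C.H x hx)
  rcases lt_or_ge ‖x - K.c‖ (8 / 5) with h0 | h0
  · have h1 : ∀ᶠ z in 𝓝 x, ‖z - K.c‖ < 8 / 5 :=
      (by fun_prop : ContinuousAt (fun z : ℂ => ‖z - K.c‖) x).eventually_lt continuousAt_const h0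
    exact h1.mono fun z a b => absurd a (not_lt.2 b)
  have hx1 : ‖x - C.c‖ = C.R := mem_sphere_iff_norm.1 hx
  have hR := hK.rad.2
  have hn : ¬(‖x - C.c‖ < C.R ∨ ‖x - K.c‖ < K.R) := by
    rintro (a | a) <;> linarith
  have h1 := hC.curve.private_nhds C.H hx fun y hy e => by
    rcases proj hC y hy with a | a
    · rw [← e]; exact a.2
    · rw [e] at a; exact absurd a hn
  have h2 := fibre_near hK.curve.cpt (x := x) isOpen_empty fun y hy e => by
    rcases proj hK y hy with a | a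
    · have h3 : ‖y.1 - K.c‖ = K.R := mem_sphere_iff_norm.1 a.1
      rw [e] at h3
      exact absurd h3 (by linarith)
    · rw [e] at a; exact absurd a.symm hn
  have h3 : ∀ᶠ z in 𝓝 x, ∀ j, j ≠ C.H → (C.e j).r < ‖z - (C.e j).c‖ := by
    refine eventually_all.2 fun j => ?_
    by_cases hj : j = C.H
    · exact Eventually.of_forall fun z a => absurd hj a
    · have h4 : (C.e j).r < ‖x - (C.e j).c‖ := not_le.1 fun a => hn (ins' hC hj a)
      exact (continuousAt_const.eventually_lt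
        (by fun_prop : ContinuousAt (fun z : ℂ => ‖z - (C.e j).c‖) x) h4).mono fun z a _ => a
  have h4 : ∀ᶠ z in 𝓝 x, ∀ j, (K.e j).r < ‖z - (K.e j).c‖ := by
    refine eventually_all.2 fun j => ?_
    have h5 : (K.e j).r < ‖x - (K.e j).c‖ := by
      by_cases hj : j = K.H
      · subst hj; exact hR.trans_le h0
      · exact not_le.1 fun a => hn (ins' hK hj a).symm
    exact continuousAt_const.eventually_lt
      (by fun_prop : ContinuousAt (fun z : ℂ => ‖z - (K.e j).c‖) x) h5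
  filter_upwards [h1, h2, h3, h4] with z a b c d _
  exact ⟨a, fun w hw => b _ hw rfl, c, d⟩

end ArcB

open ArcB in
theorem st_arc : St_ARC := by
  intro C K T T' hC hK
  have hk := hub_loop hC
  have hr := hub_pos hC
  obtain ⟨h, hh, hN⟩ := End.shrink (hC.curve.ok C.H) (eventually_nhdsSet_iff_forall.2 fun x hx => loc hC hK hx)
  have hN' := hN h h le_rfl le_rfl
  change C.hub.near h h ⊆ _ at hN'
  rw [End.near_loop hk] at hN'
  refine ⟨?_, ⟨h, hh, fun z hz h8 => ?_⟩, h, hh, fun p ρ hs h8 => ?_⟩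
  · rintro y (hy | hy)
    · rcases proj hC y hy with a | a | a
      · exact Or.inl (mem_sphere_iff_norm.1 a.1).le
      · exact Or.inl a.le
      · exact Or.inr a.le
    · rcases proj hK y hy with a | a | a
      · exact Or.inr (mem_sphere_iff_norm.1 a.1).le
      · exact Or.inr a.le
      · exact Or.inl a.le
  · obtain ⟨a, b⟩ := (hN' hz).1 h8
    refine ⟨fun w => ?_, b⟩
    rw [a w, End.side_iff hk hr hz.1]
  · have hsub : C.hub.ann (Ioo 0 h) ⊆ C.hub.ann (Icc (-h) h) :=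
      End.ann_mono fun s a => ⟨by linarith [a.1], a.2.le⟩
    have hg := fun z (hz : z ∈ closedBall p ρ) => hN' (hsub (hs hz))
    refine ⟨fun z hz => ?_, h8, fun z hz => (hg z hz).2.1, ?_, fun z hz => ⟨?_, ?_, (hg z hz).2.2.2⟩,
      fun y hy hz => ?_, fun y hy hz => ?_⟩
    · rw [mem_ball_iff_norm]
      exact (End.norm_eq_rad hr (hs hz).1).trans_lt (rad_lt hC (hs hz).2.1)
    · filter_upwards [(End.isOpen_ann hr isOpen_Ioo).mem_nhdsSet.2 hs] with z hz
      exact (hN' (hsub hz)).2.2.1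
    · exact (((hg z hz).1 (h8 z hz).le).1 _).2 ⟨rfl, (End.side_iff hk hr (hs hz).1).2 (hs hz).2.1.le⟩
    · rintro ⟨j, -, hj⟩
      by_cases e : j = C.H
      · subst e
        exact (hs hz).2.1.ne' ((End.mem_circ hr).1 hj.1).2
      · exact (((hg z hz).1 (h8 z hz).le).2.2.1 j e).ne' (mem_sphere_iff_norm.1 hj.1)
    · exact ((((hg _ hz).1 (h8 _ hz).le).1 y.2).1 hy).1
    · exact ((hg _ hz).1 (h8 _ hz).le).2.1 y.2 hy

open ArcB in
theorem st_cuts : St_CUTS := by
  intro C K T hC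
  have key : ∀ j, ∀ᶠ a in 𝓝[>] (0 : ℝ), (C.e j).k ≠ Kind.pt → ∀ s, 0 < s → s ≤ a →
      (∀ z ∈ (C.e j).ann (Icc 0 s), 1 / 4 < ‖z‖) ∧
        closedBall (C.e j).c ((C.e j).rad s) ⊆ ball C.c C.R ∪ ball K.c K.R := by
    intro j
    by_cases hk : (C.e j).k = Kind.pt
    · exact Eventually.of_forall fun a b => absurd hk b
    have hr := (hC.curve.ok j).pos hk
    have hU : IsOpen {z : ℂ | 1 / 4 < ‖z‖} := isOpen_lt continuous_const continuous_norm
    obtain ⟨δ, hδ, h1⟩ := End.shrink (hC.curve.ok j) (hU.mem_nhdsSet.2 (hC.big j))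
    obtain ⟨δ', hδ', h2⟩ : ∃ δ' > 0, ∀ s, 0 < s → s ≤ δ' →
        closedBall (C.e j).c ((C.e j).rad s) ⊆ ball C.c C.R ∪ ball K.c K.R := by
      by_cases e : j = C.H
      · subst e
        exact ⟨1, one_pos, fun s hs _ =>
          (closedBall_subset_ball (rad_lt hC hs)).trans subset_union_left⟩
      · obtain ⟨ε, hε, h3⟩ := (isCompact_closedBall (C.e j).c (C.e j).r).exists_cthickening_subset_open
          (isOpen_ball.union isOpen_ball) (hC.ins j e)
        rw [cthickening_closedBall hε.le hr.le] at h3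
        have h4 : ∀ᶠ s in 𝓝 (0 : ℝ), (C.e j).rad s < ε + (C.e j).r :=
          (C.e j).continuous_rad.continuousAt.eventually_lt continuousAt_const (by
            rw [End.rad_zero]; linarith)
        obtain ⟨η, hη, h5⟩ := Metric.eventually_nhds_iff.1 h4
        refine ⟨η / 2, by positivity, fun s hs hs' => (closedBall_subset_closedBall (h5 ?_).le).trans h3⟩
        rw [Real.dist_eq, sub_zero, abs_of_pos hs]
        linarith
    filter_upwards [Ioc_mem_nhdsGT hδ, Ioc_mem_nhdsGT hδ'] with a ha ha' _ s hs hsa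
    refine ⟨fun z hz => h1 δ δ le_rfl le_rfl ?_, h2 s hs (hsa.trans ha'.2)⟩
    rw [End.near_loop hk]
    exact End.ann_mono (Icc_subset_Icc (by linarith) (hsa.trans ha.2)) hz
  obtain ⟨a, ha, ha'⟩ := ((eventually_all.2 key).and self_mem_nhdsWithin).exists
  exact ⟨a, ha', ha⟩

end Pool.Agent.CF
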