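import Pool.Agent.Lib.CF.Alg

open Set Metric Filter Topology

namespace Pool.Agent.CF

namespace PRIVO

theorem mono {A B : Cv} {p : ℂ} {ρ ρ' : ℝ} {w : ℂ → ℂ} (h : Priv A B p ρ w) (hρ : ρ' ≤ ρ) :
    Priv A B p ρ' w := by
  have hs : closedBall p ρ' ⊆ closedBall p ρ := closedBall_subset_closedBall hρ
  exact ⟨hs.trans h.ins, fun z hz => h.far z (hs hz), h.an.mono hs,
    (nhdsSet_mono hs) h.zero, fun z hz => h.mem z (hs hz),
    fun y hy hz => h.only y hy (hs hz), fun y hy hz => h.none y hy (hs hz)⟩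

/-- the pointwise content of privacy -/
def Good (A B : Cv) (w : ℂ → ℂ) (z : ℂ) : Prop :=
  z ∈ ball A.c A.R ∧ 8 / 5 < ‖z - B.c‖ ∧ AnalyticAt ℂ w z ∧
    (∀ᶠ x in 𝓝 z, A.P (x, w x) = 0) ∧
    ((z, w z) ∈ A.Γ ∧ (z, w z) ∉ loops A.e ∧ dw A.P (z, w z) ≠ 0) ∧
    (∀ y ∈ A.Γ, y.1 = z → y.2 = w y.1) ∧ ∀ y ∈ B.Γ, y.1 ≠ z

theorem good_of {A B : Cv} {p : ℂ} {ρ : ℝ} {w : ℂ → ℂ} (h : Priv A B p ρ w) {z : ℂ}
    (hz : z ∈ closedBall p ρ) : Good A B w z :=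
  ⟨h.ins hz, h.far z hz, h.an z hz, eventually_nhdsSet_iff_forall.1 h.zero z hz, h.mem z hz,
    fun y hy e => h.only y hy (e ▸ hz), fun y hy e => h.none y hy (e ▸ hz)⟩

theorem of_good {A B : Cv} {p : ℂ} {ρ : ℝ} {w : ℂ → ℂ}
    (h : ∀ z ∈ closedBall p ρ, Good A B w z) : Priv A B p ρ w :=
  ⟨fun z hz => (h z hz).1, fun z hz => (h z hz).2.1, fun z hz => (h z hz).2.2.1,
    eventually_nhdsSet_iff_forall.2 fun z hz => (h z hz).2.2.2.1,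
    fun z hz => (h z hz).2.2.2.2.1, fun y hy hz => (h _ hz).2.2.2.2.2.1 y hy rfl,
    fun y hy hz => (h _ hz).2.2.2.2.2.2 y hy rfl⟩

theorem good_nhds {A B : Cv} {w : ℂ → ℂ} {x : ℂ} (hA : IsCurve A.P A.Γ A.e)
    (hB : IsCompact B.Γ) (h : Good A B w x) : ∀ᶠ z in 𝓝 x, Good A B w z := by
  obtain ⟨h1, h2, h3, h4, ⟨h5, h6, h7⟩, h8, h9⟩ := h
  have hc : ContinuousAt (fun z => ((z, w z) : E)) x := continuousAt_id.prodMk h3.continuousAt
  have k1 := ift_unique (hA.poly.analyticAt _) h3.continuousAt h4 h7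
  obtain ⟨N, n1, n2, n3⟩ := _root_.eventually_nhds_iff.1 k1
  have k2 := fibre_near hA.cpt (x := x) n2 fun y a b => by
    have : y = (x, w x) := Prod.ext b (b ▸ h8 y a b)
    rwa [this]
  have k3 := fibre_near hB (x := x) isOpen_empty fun y a b => (h9 y a b).elim
  have k4 : ∀ᶠ z in 𝓝 x, 8 / 5 < ‖z - B.c‖ :=
    (by fun_prop : ContinuousAt (fun z : ℂ => ‖z - B.c‖) x).eventually (lt_mem_nhds h2)
  have k5 := hc.eventually (hA.int _ h5 h6)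
  have k6 := hc.eventually (hA.isCompact_loops.isClosed.isOpen_compl.mem_nhds h6)
  have k7 := hc.eventually (hA.poly.dw.continuous.continuousAt.eventually_ne h7)
  filter_upwards [isOpen_ball.mem_nhds h1, k4, h3.eventually_analyticAt, h4.eventually_nhds,
    k2, k3, k5, k6, k7] with z a1 a2 a3 a4 a5 a6 a7 a8 a9
  exact ⟨a1, a2, a3, a4, ⟨a7 a4.self_of_nhds, a8, a9⟩,
    fun y b c => (n1 y (a5 y b c)).1 (hA.zero y b), fun y b c => a6 y b c⟩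

end PRIVO

theorem st_privo : St_PRIVO := by
  intro A B p ρ w hA hB hρ h
  refine ⟨?_, fun ρ' a => PRIVO.mono h a⟩
  have h1 : IsOpen {z | PRIVO.Good A B w z} :=
    isOpen_iff_mem_nhds.2 fun x hx => PRIVO.good_nhds hA hB hx
  obtain ⟨δ, hδ, h2⟩ := (isCompact_closedBall p ρ).exists_cthickening_subset_open h1
    fun z hz => PRIVO.good_of h hz
  rw [cthickening_closedBall hδ.le hρ] at h2
  exact ⟨δ + ρ, by linarith, PRIVO.of_good fun z hz => h2 hz⟩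

theorem st_gena (hG : St_GEN) (hF : St_FIB) (hZ : St_ZF) : St_GENA := by
  intro C K Nd TC TK D U μ _ c r h hU hne
  have fb : ∀ A : Cv, IsCurve A.P A.Γ A.e → (brv A.P A.Γ).Finite := fun A hA =>
    (((hF _ _ _ _ hA).2).image Prod.fst).subset fun b ⟨y, a1, a2, a3⟩ => ⟨y, ⟨a1, a2⟩, a3⟩
  have f1 : (brv K.P K.Γ ∪ brv C.P C.Γ ∪ Prod.fst '' (Nd : Set E)).Finite :=
    ((fb K h.hK.curve).union (fb C h.hC.curve)).union (Nd.finite_toSet.image _)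
  have f2 : IsOpen (U \ (brv K.P K.Γ ∪ brv C.P C.Γ ∪ Prod.fst '' (Nd : Set E))) :=
    hU.sdiff f1.isClosed
  have f3 : (U \ (brv K.P K.Γ ∪ brv C.P C.Γ ∪ Prod.fst '' (Nd : Set E))).Nonempty := by
    obtain ⟨x, hx⟩ := hne
    exact ((infinite_of_mem_nhds x (hU.mem_nhds hx)).sdiff f1).nonempty
  obtain ⟨a, ⟨a1, a2⟩, a3⟩ := hG (μ ⊕ K.ι ⊕ C.ι)
    (Sum.elim c (Sum.elim (fun j => (K.e j).c) fun j => (C.e j).c))
    (Sum.elim r (Sum.elim (fun j => (K.e j).r) fun j => (C.e j).r)) _ f2 f3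
  have b1 : ∀ j, a ∉ (C.e j).circ := fun j => a3 (Sum.inr (Sum.inr j))
  have b2 : a ∉ brv C.P C.Γ := fun b => a2 (Or.inl (Or.inr b))
  obtain ⟨Z, z1, z2⟩ := hZ _ _ _ _ a h.hC.curve h.hC.off.1 b2 b1
  exact ⟨a, a1, fun i => a3 (Sum.inl i), fun j => a3 (Sum.inr (Sum.inl j)), b1,
    fun y hy e => a2 (Or.inr ⟨y, hy, e⟩), fun b => a2 (Or.inl (Or.inl b)), b2, Z, z1,
    z2.trans h.nout.1⟩

end Pool.Agent.CF
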