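import Pool.Agent.Lib.CF.Alg

open Set Metric Filter Topology

namespace Pool.Agent.CF

namespace SECA

/-- a uniform shrinking radius for finitely many ends -/
theorem shrink_all {ι : Type} [Fintype ι] {e : ι → End} (ho : ∀ j, (e j).ok) {N : ι → Set ℂ}
    (hN : ∀ j, N j ∈ 𝓝ˢ (e j).circ) :
    ∀ᶠ a in 𝓝[>] (0 : ℝ), ∀ j, (e j).near a a ⊆ N j := by
  refine eventually_all.2 fun j => ?_
  obtain ⟨δ, hδ, h⟩ := End.shrink (ho j) (hN j)
  filter_upwards [Ioo_mem_nhdsGT hδ] with a ha using h a a ha.2.le ha.2.le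

/-- dividing the numerator by the fixed factor -/
theorem wind {l : End} {lam Q V S : ℂ → ℂ} {k k' n : ℤ} (h1 : HasWind l lam k')
    (h2 : HasWind l (fun z => lam z * V z) k) (h3 : HasWind l Q n) (h4 : ∀ z, S z = Q z / V z) :
    HasWind l S (n - k + k') := by
  have h5 : HasWind l V (k - k') := by
    refine (h2.div h1).congr ?_
    filter_upwards [h1.ne_zero] with z a hz
    field_simp [a hz]
  exact ((h3.div h5).congr' h4).cast (by ring)

end SECA

open SECA in
theorem st_seca (hF : St_FIB) (hG : St_GEO) (hU : St_WUNI) (hA : St_ARC) (hS : St_SEC) :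
    St_SECA := by
  intro C K Nd TC TK D a Z m h hZ hm
  have hC := h.hC
  have cv := hC.curve
  have pK := h.hK.curve.poly
  obtain ⟨k, hk, hsum⟩ := hC.tot
  have hKne : ∀ j, ∀ z ∈ (C.e j).circ, K.P (z, (C.e j).w z) ≠ 0 := fun j z hz e =>
    (h.off _ (h.nodal.left _ (cv.mem_of_circ j hz) e)).1 j hz
  have hpt : ∀ j, (C.e j).k = Kind.pt →
      k j = 1 ∧ ∀ y ∈ C.Γ, y.1 = (C.e j).c → y.2 = (C.e j).w (C.e j).c := by
    refine fun j hj => ⟨?_, fun y hy e => ?_⟩
    · obtain ⟨l, hl, h1⟩ := hC.lam j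
      have hz : (C.e j).c ∈ (C.e j).circ := by rw [End.circ_pt (cv.ok j) hj]; rfl
      have h2 : HasWind (C.e j) ((C.e j).res fun y => dw C.P y * K.P y) 0 :=
        HasWind.of_pt (cv.ok j) hj (End.analyticOnNhd_res (cv.poly.dw.mul pK) (cv.wan j) _ hz)
          (mul_ne_zero (cv.wreg j _ hz) (hKne j _ hz))
      have := hU _ _ _ _ (cv.ok j) (hk j) (hl.mul h2)
      rw [this, h1 hj, add_zero]
    · have := (hC.priv j hj).only y hy (by simp [e])
      rwa [e] at this
  -- the singular values and the geometry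
  have hfin : (brv C.P C.Γ).Finite := by
    refine ((hF _ _ _ _ cv).2.image Prod.fst).subset ?_
    rintro b ⟨y, h1, h2, h3⟩
    exact ⟨y, ⟨h1, h2⟩, h3⟩
  obtain ⟨δ, hδ, geo⟩ := hG _ _ _ _ hfin.toFinset cv (by simp) (by simpa using hC.off.1)
  obtain ⟨-, ⟨h0, hh0, arc⟩, -⟩ := hA C K TC TK hC h.hK
  have hkH : C.hub.k ≠ Kind.pt := by rw [hC.out]; simp
  have hr : 0 < C.hub.r := (cv.ok C.H).pos hkH
  have hc1 : ‖C.c‖ = 1 := by rcases hC.cen.1 with e | e <;> simp [e]
  set b : ℝ → ℂ := fun s => C.c + C.c * C.hub.rad s with hb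
  have hbn : ∀ s, ‖b s - C.hub.c‖ = C.hub.rad s := fun s => by
    show ‖C.c + C.c * C.hub.rad s - C.c‖ = _
    rw [add_sub_cancel_left, norm_mul, hc1, one_mul, Complex.norm_real,
      Real.norm_of_nonneg (End.rad_pos hr s).le]
  have hbK : ∀ s, 8 / 5 ≤ ‖b s - K.c‖ := fun s => by
    have e : b s - K.c = C.c * ((2 + C.hub.rad s : ℝ) : ℂ) := by
      rw [hC.cen.2, hb]; push_cast; ring
    have := End.rad_pos hr s
    rw [e, norm_mul, hc1, one_mul, Complex.norm_real, Real.norm_of_nonneg (by linarith)]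
    linarith
  have hba : ∀ s I, s ∈ I → b s ∈ C.hub.ann I := fun s I hs =>
    End.sphere_subset_ann hr hs (mem_sphere_iff_norm.2 (hbn s))
  have hbc : Continuous b := by
    have := C.hub.continuous_rad
    rw [hb]; fun_prop
  have gap := (arc (b 0) (hba 0 _ ⟨by linarith, hh0.le⟩) (hbK 0)).2.2.1
  set ρ : C.ι → ℝ := fun j => ((C.e j).r + ‖b 0 - (C.e j).c‖) / 2 with hρ
  have e1 := shrink_all cv.ok (N := fun j => {z | K.P (z, (C.e j).w z) ≠ 0 ∧
      (j ≠ C.H → ‖z - (C.e j).c‖ < ρ j)}) fun j => eventually_nhdsSet_iff_forall.2 fun z hz => by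
    have c1 : ContinuousAt (fun z => K.P (z, (C.e j).w z)) z :=
      (End.analyticOnNhd_res pK (cv.wan j) z hz).continuousAt
    refine (c1.eventually_ne (hKne j z hz)).and ?_
    by_cases hj : j = C.H
    · exact Eventually.of_forall fun _ a => absurd hj a
    · have c2 : ContinuousAt (fun z => ‖z - (C.e j).c‖) z := by fun_prop
      have := gap j hj
      filter_upwards [c2.eventually (gt_mem_nhds (show ‖z - (C.e j).c‖ < ρ j by
        rw [mem_sphere_iff_norm.1 hz, hρ]; dsimp only; linarith))] with x hx _ using hx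
  obtain ⟨t, ht, ht0, htδ⟩ := (e1.and (Ioo_mem_nhdsGT hδ)).exists
  have e2 : ∀ᶠ s in 𝓝 (0 : ℝ), ∀ j, j ≠ C.H → ρ j < ‖b s - (C.e j).c‖ := by
    refine eventually_all.2 fun j => ?_
    by_cases hj : j = C.H
    · exact Eventually.of_forall fun _ a => absurd hj a
    · have c2 : ContinuousAt (fun s => ‖b s - (C.e j).c‖) 0 := by fun_prop
      have := gap j hj
      filter_upwards [c2.eventually (lt_mem_nhds (show ρ j < ‖b 0 - (C.e j).c‖ by
        rw [hρ]; dsimp only; linarith))] with x hx _ using hx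
  obtain ⟨s, hs1, hs2, hs3⟩ := ((e2.filter_mono nhdsWithin_le_nhds).and
    (Ioo_mem_nhdsLT (show -min t h0 < 0 by simpa using ⟨ht0, hh0⟩))).exists
  have hs4 : -t < s := by linarith [min_le_left t h0]
  have hs5 : -h0 < s := by linarith [min_le_right t h0]
  have arc2 := arc (b s) (hba s _ ⟨hs5.le, by linarith⟩) (hbK s)
  have hdep : C.hub.dep (b s) = s := (End.dep_of_norm hr (hbn s)).2
  have t2 : 2 * (t / 2) = t := by ring
  obtain ⟨q, G, pq, pG, n1, n2, w1, w2⟩ := hS _ C.P K.P C.Γ C.e hfin.toFinset (t / 2) (t / 2) C.H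
    (b s) a Z k cv (geo _ _ (by linarith) (by linarith) (by linarith) (by linarith)) pK
    (Nd.finite_toSet.subset fun y hy => h.nodal.left y hy.1 hy.2)
    (fun j z hz => by rw [t2] at hz; exact (ht j hz).1) hC.out
    (by rw [t2]; exact hba s _ ⟨hs4, hs3⟩)
    (fun w hw => by have := ((arc2.1 w).1 hw).2; linarith)
    (fun j hj z hz => by rw [t2] at hz; exact ((ht j hz).2 hj).trans (hs1 j hj)) hZ hpt
  · refine ⟨q, G, pq, pG, fun y hy => hy.elim (n2 y) fun hy => n1 y (h.hK.curve.zero y hy)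
      fun e => arc2.2.1 y.2 (by rw [← e]; exact hy), fun j hj => ?_, ?_⟩
    · obtain ⟨l, hl, -⟩ := hC.lam j
      refine ⟨l, hl, (wind hl (hk j) (w1 j hj) fun z => ?_).cast (by ring)⟩
      simp only [Cv.sec, End.res]
      rw [div_div]; ring_nf
    · obtain ⟨l, hl, -⟩ := hC.lam C.H
      have h1 : HasWind C.hub (C.sec K (fun y => G y *
          ∏ i ∈ Finset.univ.filter fun i => (C.e i).k = Kind.pt, (y.1 - (C.e i).c))
          (fun y => (y.1 - a) * q y) C.hub) _ := wind hl (hk C.H) w2 fun z => by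
        simp only [Cv.sec, End.res, Cv.hub]
        rw [div_div]; ring_nf
      have h2 : C.hub.sgn = -1 := by simp [End.sgn, hC.out]
      refine ⟨l, hl, (((HasWind.self C.hub).pow m).mul h1).cast ?_⟩
      rw [h2, hsum, ← hm]; ring

end Pool.Agent.CF
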