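import Pool.Agent.Lib.CF.Alg

open Set Metric Filter Topology

namespace Pool.Agent.CF

namespace Winq

/-- the window factor -/
noncomputable def fac {π : Type} [Fintype π] (a0 : ℂ) (p u u' p' : π → ℂ) (z : ℂ) : ℂ :=
  a0 * (∏ k, ((z - u k) * (z - u' k) * (z - p' k))) / ∏ k, (z - p k)

theorem wind_fac {π : Type} [Fintype π] {a0 : ℂ} {p u u' p' : π → ℂ} {l : End} (h0 : a0 ≠ 0) (n m : π → ℤ)
    (h1 : ∀ k, HasWind l (fun z => z - u k) (n k)) (h2 : ∀ k, HasWind l (fun z => z - u' k) 0)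
    (h3 : ∀ k, HasWind l (fun z => z - p' k) 0) (h4 : ∀ k, HasWind l (fun z => z - p k) (m k)) :
    HasWind l (fac a0 p u u' p') (∑ k, n k - ∑ k, m k) :=
  (((HasWind.const h0).mul (HasWind.prod Finset.univ fun k _ => ((h1 k).mul (h2 k)).mul (h3 k))).div
    (HasWind.prod Finset.univ fun k _ => h4 k)).cast (by simp)

theorem sec_eq (C K : Cv) {π : Type} [Fintype π] (a0 a : ℂ) (q G : E → ℂ) (p u u' p' : π → ℂ) (l : End) (z : ℂ) :
    C.sec K (gWin C G p) (qWin a0 a q u u' p') l z = C.sec K (fun y => G y *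
      ∏ i ∈ Finset.univ.filter fun i => (C.e i).k = Kind.pt, (y.1 - (C.e i).c))
      (fun y => (y.1 - a) * q y) l z * fac a0 p u u' p' z := by
  simp only [Cv.sec, End.res, gWin, qWin, fac]
  ring

theorem jac_ne {R P H : E → ℂ} {y : E} {b : ℂ} (hR : IsPoly R) (hb : y.1 = b) (h1 : R y ≠ 0) (h2 : dw P y ≠ 0)
    (hH : ∀ x, H x = (x.1 - b) * R x) : jac H P y ≠ 0 := by
  have hL : IsPoly fun x : E => x.1 - b := IsPoly.fst.sub (IsPoly.const b)
  have e1 := dz_mul (hL.differentiableAt y) (hR.differentiableAt y)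
  have e2 := dw_mul (hL.differentiableAt y) (hR.differentiableAt y)
  have e3 := dz_sub (IsPoly.fst.differentiableAt y) ((IsPoly.const b).differentiableAt y)
  have e4 := dw_sub (IsPoly.fst.differentiableAt y) ((IsPoly.const b).differentiableAt y)
  rw [funext hH]
  unfold jac
  rw [e1, e2, e3, e4, hb]
  simpa using ⟨h1, h2⟩

theorem ok_nonneg {l : End} (h : l.ok) : 0 ≤ l.r := by
  by_cases hk : l.k = Kind.pt
  · exact (h.zero hk).ge
  · exact (h.pos hk).le

theorem inside {l : End} (hk : l.k = Kind.out) (hr : 0 < l.r) {z : ℂ} (hz : z ≠ l.c) :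
    (0 < l.dep z → ‖z - l.c‖ < l.r) ∧ (l.dep z < 0 → l.r < ‖z - l.c‖) := by
  have h1 := End.norm_eq_rad hr hz
  have h2 : l.sgn = -1 := by simp [End.sgn, hk]
  rw [h1]
  unfold End.rad
  rw [h2]
  constructor
  · intro h
    exact mul_lt_of_lt_one_right hr (Real.exp_lt_one_iff.2 (by push_cast; linarith))
  · intro h
    exact lt_mul_of_one_lt_right hr (Real.one_lt_exp_iff.2 (by push_cast; linarith))

end Winq

open Winq in
theorem st_winq (hARC : St_ARC) (hADD : St_ADDP) : St_WINQ := by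
  classical
  intro C K Nd TC TK D hA
  obtain ⟨-, ⟨h1, h1p, hF⟩, h2, h2p, hP⟩ := hARC C K TC TK hA.hC hA.hK
  refine ⟨min h1 h2, lt_min h1p h2p, ?_⟩
  intro a0 a Z q G π _ p u u' p' ha0 hZ haK haN hq hG hqG hs hsH hp hu hup hk
  have hout : C.hub.k = Kind.out := hA.hC.out
  have hsg : C.hub.sgn = -1 := by simp [End.sgn, hout]
  have hR : 0 < C.hub.r := lt_trans (by norm_num) hA.hC.rad.1
  have hok := hA.hC.curve.ok
  have s1 : ∀ z ∈ C.hub.ann (Ioo 0 (min h1 h2)), z ∈ C.hub.ann (Icc (-h1) h1) := fun z hz =>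
    ⟨hz.1, by linarith [hz.2.1], (hz.2.2.trans_le (min_le_left _ _)).le⟩
  have s2 : ∀ z ∈ C.hub.ann (Ioo (-min h1 h2) 0), z ∈ C.hub.ann (Icc (-h1) h1) := fun z hz =>
    ⟨hz.1, by linarith [hz.2.1, min_le_left h1 h2], by linarith [hz.2.2]⟩
  have s3 : ∀ z ∈ C.hub.ann (Ioo 0 (min h1 h2)), 8 / 5 < ‖z - K.c‖ → Priv C K z 0 C.hub.w := fun z hz hz' => by
    refine hP z 0 ?_ ?_
    · rw [closedBall_zero, singleton_subset_iff]
      exact ⟨hz.1, hz.2.1, hz.2.2.trans_le (min_le_right _ _)⟩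
    · rw [closedBall_zero]
      rintro _ rfl
      exact hz'
  have Fp := fun k => hF _ (s1 _ (hk k).2.2.1) (hk k).2.2.2.2.2.2.1.le
  have Fu := fun k => hF _ (s1 _ (hk k).2.2.2.1) (hk k).2.2.2.2.2.2.2.1.le
  have Fu' := fun k => hF _ (s2 _ (hk k).2.2.2.2.1) (hk k).2.2.2.2.2.2.2.2.1.le
  have Fp' := fun k => hF _ (s2 _ (hk k).2.2.2.2.2.1) (hk k).2.2.2.2.2.2.2.2.2.le
  have Pp := fun k => s3 _ (hk k).2.2.1 (hk k).2.2.2.2.2.2.1
  have Pu := fun k => s3 _ (hk k).2.2.2.1 (hk k).2.2.2.2.2.2.2.1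
  have Ip : ∀ k, ‖p k - C.hub.c‖ < C.hub.r := fun k => (inside hout hR (hk k).2.2.1.1).1 (hk k).2.2.1.2.1
  have Iu : ∀ k, ‖u k - C.hub.c‖ < C.hub.r := fun k => (inside hout hR (hk k).2.2.2.1.1).1 (hk k).2.2.2.1.2.1
  have Ou : ∀ k, C.hub.r < ‖u' k - C.hub.c‖ := fun k =>
    (inside hout hR (hk k).2.2.2.2.1.1).2 (hk k).2.2.2.2.1.2.2
  have Op : ∀ k, C.hub.r < ‖p' k - C.hub.c‖ := fun k =>
    (inside hout hR (hk k).2.2.2.2.2.1.1).2 (hk k).2.2.2.2.2.1.2.2
  have Nu : ∀ k, ∀ y ∈ C.Γ, y.1 - u' k ≠ 0 := fun k y hy h => by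
    have h3 : (u' k, y.2) ∈ C.Γ := by rw [← sub_eq_zero.1 h]; exact hy
    linarith [(((Fu' k).1 _).1 h3).2, (hk k).2.2.2.2.1.2.2]
  have Np : ∀ k, ∀ y ∈ C.Γ, y.1 - p' k ≠ 0 := fun k y hy h => by
    have h3 : (p' k, y.2) ∈ C.Γ := by rw [← sub_eq_zero.1 h]; exact hy
    linarith [(((Fp' k).1 _).1 h3).2, (hk k).2.2.2.2.2.1.2.2]
  have hH : ∀ j, (C.e j).k = Kind.pt → j ≠ C.H := by
    rintro j hj rfl
    exact absurd (hj.symm.trans hout) (by decide)
  have cp : ∀ k j, (C.e j).k = Kind.pt → p k - (C.e j).c ≠ 0 := fun k j hj =>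
    norm_pos_iff.1 ((ok_nonneg (hok j)).trans_lt ((Fp k).2.2.1 j (hH j hj)))
  have mp := fun k => (Pp k).mem _ (mem_closedBall_self le_rfl)
  have mu := fun k => (Pu k).mem _ (mem_closedBall_self le_rfl)
  have lin : ∀ b : ℂ, IsPoly fun y : E => y.1 - b := fun b => IsPoly.fst.sub (IsPoly.const b)
  have pG0 : IsPoly fun y => G y * ∏ i ∈ Finset.univ.filter fun i => (C.e i).k = Kind.pt, (y.1 - (C.e i).c) :=
    hG.mul (IsPoly.prod _ fun i _ => lin _)
  have pW : ∀ s : Finset π, IsPoly fun y : E => ∏ k ∈ s, ((y.1 - u k) * (y.1 - u' k) * (y.1 - p' k)) := fun s =>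
    IsPoly.prod _ fun k _ => ((lin _).mul (lin _)).mul (lin _)
  refine ⟨hADD C K Nd TC TK D π p _ _ _ hA hp (fun k => ⟨Pp k, fun j hj h => cp k j hj (by rw [h, sub_self]), ?_⟩)
    (fun j hj => ?_) ?_, pG0.mul (IsPoly.prod _ fun k _ => lin _),
    ((IsPoly.const a0).mul ((lin a).mul hq)).mul (pW _), fun y hy => ?_, fun y hy h => ?_, ⟨fun y hy h => ?_, ?_⟩,
    fun y hy => ?_, fun y hy j => ?_⟩
  · have lo : ∀ b, b ≠ p k → HasWind ⟨p k, 0, Kind.pt, C.hub.w⟩ (fun z => z - b) 0 := fun b hb =>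
      HasWind.lin_out (norm_pos_iff.2 (sub_ne_zero.2 hb)) le_rfl
    have h3 := wind_fac (l := ⟨p k, 0, Kind.pt, C.hub.w⟩) (p := p) ha0 (fun _ => 0)
      (fun k' => if k' = k then -1 else 0) (fun k' => lo _ (hup k' k))
      (fun k' => lo (u' k') fun h => by linarith [Ip k, h ▸ Ou k'])
      (fun k' => lo (p' k') fun h => by linarith [Ip k, h ▸ Op k']) fun k' => by
        split_ifs with h
        · rw [h]
          exact HasWind.self ⟨p k, 0, Kind.pt, C.hub.w⟩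
        · exact lo _ fun h' => h (hp h')
    have hw : AnalyticAt ℂ C.hub.w (p k) := (Pp k).an _ (mem_closedBall_self le_rfl)
    have an : ∀ H : E → ℂ, IsPoly H → AnalyticAt ℂ (fun z => H (z, C.hub.w z)) (p k) := fun H hH =>
      (hH.analyticAt _).comp (f := fun z => (z, C.hub.w z)) (analyticAt_id.prod hw)
    have n1 : (G (p k, C.hub.w (p k)) * ∏ i ∈ Finset.univ.filter fun i => (C.e i).k = Kind.pt, (p k - (C.e i).c)) *
        K.P (p k, C.hub.w (p k)) * dw C.P (p k, C.hub.w (p k)) ≠ 0 :=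
      mul_ne_zero (mul_ne_zero (mul_ne_zero (hqG _ (Or.inl (mp k).1)).2
        (Finset.prod_ne_zero_iff.2 fun i hi => cp k i (Finset.mem_filter.1 hi).2))
        fun h => (Fp k).2.1 _ (hA.nodal.node _ (hA.nodal.left _ (mp k).1 h)).2.1) (mp k).2.2
    have h4 : HasWind ⟨p k, 0, Kind.pt, C.hub.w⟩ (C.sec K (fun y => G y *
        ∏ i ∈ Finset.univ.filter fun i => (C.e i).k = Kind.pt, (y.1 - (C.e i).c))
        (fun y => (y.1 - a) * q y) C.hub) 0 :=
      HasWind.of_pt (by simp [End.ok]) rfl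
        ((an _ ((lin a).mul hq)).div (an _ ((pG0.mul hA.hK.curve.poly).mul hA.hC.curve.poly.dw)) n1)
        (div_ne_zero (mul_ne_zero (sub_ne_zero.2 (hk k).2.1) (hqG _ (Or.inl (mp k).1)).1) n1)
    exact ((h4.mul h3).congr' fun z => sec_eq C K a0 a q G p u u' p' _ z).cast (by simp)
  · obtain ⟨n, h3, h4⟩ := hs j hj
    have r0 := ok_nonneg (hok j)
    have h5 := wind_fac (l := C.e j) ha0 (fun _ => 0) (fun _ => 0)
      (fun k => HasWind.lin_out ((Fu k).2.2.1 j hj) r0) (fun k => HasWind.lin_out ((Fu' k).2.2.1 j hj) r0)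
      (fun k => HasWind.lin_out ((Fp' k).2.2.1 j hj) r0) fun k => HasWind.lin_out ((Fp k).2.2.1 j hj) r0
    exact ⟨n, h3, ((h4.mul h5).congr' fun z => sec_eq C K a0 a q G p u u' p' _ z).cast (by simp)⟩
  · obtain ⟨n, h3, h4⟩ := hsH
    have h5 := wind_fac (l := C.hub) ha0 (fun _ => -C.hub.sgn) (fun _ => -C.hub.sgn)
      (fun k => HasWind.lin_in (Iu k)) (fun k => HasWind.lin_out (Ou k) hR.le)
      (fun k => HasWind.lin_out (Op k) hR.le) fun k => HasWind.lin_in (Ip k)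
    refine ⟨n, h3, (((h4.div ((HasWind.self C.hub).pow (Fintype.card π))).mul h5).congr
      (Eventually.of_forall fun z hz => ?_)).cast (by simp [hsg])⟩
    have h6 : (z - C.hub.c) ^ Fintype.card π ≠ 0 := pow_ne_zero _ (sub_ne_zero.2 hz)
    rw [sec_eq, Cv.c, mul_div_cancel_left₀ _ h6]
    rfl
  · refine mul_ne_zero (mul_ne_zero (hqG y (Or.inr hy)).2 (Finset.prod_ne_zero_iff.2 fun i hi h => ?_))
      (Finset.prod_ne_zero_iff.2 fun k _ h => ?_)
    · exact (hA.hC.priv i (Finset.mem_filter.1 hi).2).none y hy (by simpa using sub_eq_zero.1 h)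
    · exact (Pp k).none y hy (by simpa using sub_eq_zero.1 h)
  · rcases mul_eq_zero.1 h with h | h
    · rcases mul_eq_zero.1 h with h | h
      · exact absurd h (hqG y (Or.inl hy)).2
      · obtain ⟨i, hi, h⟩ := Finset.prod_eq_zero_iff.1 h
        have h3 := sub_eq_zero.1 h
        have h4 := (hA.hC.priv i (Finset.mem_filter.1 hi).2).only y hy (by simpa using h3)
        exact ⟨Sum.inl i, (Finset.mem_filter.1 hi).2, Prod.ext h3 (h4.trans (congrArg _ h3))⟩
    · obtain ⟨k, -, h⟩ := Finset.prod_eq_zero_iff.1 h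
      have h3 := sub_eq_zero.1 h
      have h4 := (Pp k).only y hy (by simpa using h3)
      exact ⟨Sum.inr k, rfl, Prod.ext h3 (h4.trans (congrArg _ h3))⟩
  · rcases mul_eq_zero.1 h with h | h
    · exact Finset.mem_union_left _ (hZ.1 y hy ((mul_eq_zero.1 ((mul_eq_zero.1 h).resolve_left ha0)).resolve_right
        (hqG y (Or.inl hy)).1))
    · obtain ⟨k, -, h⟩ := Finset.prod_eq_zero_iff.1 h
      have h3 := sub_eq_zero.1 ((mul_eq_zero.1 ((mul_eq_zero.1 h).resolve_right (Np k y hy))).resolve_right (Nu k y hy))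
      have h4 := (Pu k).only y hy (by simpa using h3)
      exact Finset.mem_union_right _ (Finset.mem_image.2
        ⟨k, Finset.mem_univ _, (Prod.ext h3 (h4.trans (congrArg _ h3))).symm⟩)
  · intro y hy
    rcases Finset.mem_union.1 hy with hy | hy
    · obtain ⟨b1, b2, b3, -, b5⟩ := hZ.2 y hy
      have b6 : y.1 = a := sub_eq_zero.1 b2
      refine ⟨b1, by simp [qWin, b6], b3, jac_ne (((IsPoly.const a0).mul hq).mul (pW Finset.univ)) b6
        (mul_ne_zero (mul_ne_zero ha0 (hqG y (Or.inl b1)).1) (Finset.prod_ne_zero_iff.2 fun k _ =>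
          mul_ne_zero (mul_ne_zero (sub_ne_zero.2 (b6 ▸ (hk k).1.symm)) (Nu k y b1)) (Np k y b1))) b3
        fun x => by unfold qWin; ring, ?_⟩
      rintro (j | k)
      · exact b5 j
      · intro h
        exact (hk k).2.1 (((sphere_zero (x := p k)).subset h).symm.trans b6)
    · obtain ⟨k, -, rfl⟩ := Finset.mem_image.1 hy
      refine ⟨(mu k).1, mul_eq_zero_of_right _ (Finset.prod_eq_zero (Finset.mem_univ k) (by simp)), (mu k).2.2,
        jac_ne (b := u k) ((((IsPoly.const a0).mul ((lin a).mul hq)).mul ((lin (u' k)).mul (lin (p' k)))).mul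
          (pW (Finset.univ.erase k))) rfl
        (mul_ne_zero (mul_ne_zero (mul_ne_zero ha0 (mul_ne_zero (sub_ne_zero.2 (hk k).1) (hqG _ (Or.inl (mu k).1)).1))
          (mul_ne_zero (Nu k _ (mu k).1) (Np k _ (mu k).1))) (Finset.prod_ne_zero_iff.2 fun k' hk' =>
          mul_ne_zero (mul_ne_zero (sub_ne_zero.2 fun h => Finset.ne_of_mem_erase hk' (hu h).symm)
            (Nu k' _ (mu k).1)) (Np k' _ (mu k).1))) (mu k).2.2 fun x => ?_, ?_⟩
      · unfold qWin
        rw [← Finset.mul_prod_erase _ _ (Finset.mem_univ k)]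
        ring
      · rintro (j | k') h
        · by_cases hj : j = C.H
          · subst hj
            exact (Iu k).ne (mem_sphere_iff_norm.1 h)
          · exact ((Fu k).2.2.1 j hj).ne' (mem_sphere_iff_norm.1 h)
        · exact hup k k' ((sphere_zero (x := p k')).subset h)
  · obtain ⟨b1, b2, -⟩ := hA.nodal.node y hy
    refine mul_ne_zero (mul_ne_zero ha0 (mul_ne_zero (sub_ne_zero.2 (haN y hy)) (hqG y (Or.inl b1)).1))
      (Finset.prod_ne_zero_iff.2 fun k _ => mul_ne_zero (mul_ne_zero (fun h => ?_) (Nu k y b1)) (Np k y b1))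
    exact (Pu k).none y b2 (by simpa using sub_eq_zero.1 h)
  · rcases Finset.mem_union.1 hy with hy | hy
    · rw [sub_eq_zero.1 (hZ.2 y hy).2.1]
      exact haK j
    · obtain ⟨k, -, rfl⟩ := Finset.mem_image.1 hy
      exact fun h => ((Fu k).2.2.2 j).ne' (mem_sphere_iff_norm.1 h)

end Pool.Agent.CF
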