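import Pool.Agent.Lib.CF.B_SPLA
import Pool.Agent.Lib.CF.B_ARC
import Pool.Agent.Lib.CF.B_PRIVO
import Pool.Agent.Lib.CF.B_ADDP
import Pool.Agent.Lib.CF.B_ADDPT
import Pool.Agent.Lib.CF.B_SECA
import Pool.Agent.Lib.CF.B_WINQ
import Pool.Agent.Lib.CF.B_COLLAR

namespace Pool.Agent.CF

theorem all_ta : St_TA := st_ta st_wuni all_wext all_arg2
theorem all_rota : St_ROTA := st_rota st_wuni
theorem all_addp : St_ADDP := st_addp st_wuni st_addpt
theorem all_gena : St_GENA := st_gena st_gen st_fib all_zf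
theorem all_seca : St_SECA := st_seca st_fib st_geo st_wuni st_arc all_sec
theorem all_winq : St_WINQ := st_winq st_arc all_addp

end Pool.Agent.CF
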