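import Pool.Agent.Lib.CF.Alg

open Set Metric Filter Topology

namespace Pool.Agent.CF

namespace Grow

variable {C K : Cv} {y : ℝ}

theorem e_H (C : Cv) (y : ℝ) : (C.grow y).e C.H = C.hub.move (-y) := if_pos rfl

theorem e_ne (C : Cv) {y : ℝ} {j : C.ι} (h : j ≠ C.H) : (C.grow y).e j = C.e j := if_neg h

theorem hub (C : Cv) (y : ℝ) : (C.grow y).hub = C.hub.move (-y) := e_H C y

theorem c_eq (C : Cv) (y : ℝ) : (C.grow y).c = C.c := by rw [Cv.c, hub]; rfl

theorem R_eq (C : Cv) (y : ℝ) : (C.grow y).R = C.hub.rad (-y) := by rw [Cv.R, hub]; rfl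

theorem k_eq (C : Cv) (y : ℝ) (j : C.ι) : ((C.grow y).e j).k = (C.e j).k := by
  by_cases h : j = C.H
  · rw [h, e_H]; rfl
  · rw [e_ne C h]

theorem w_eq (C : Cv) (y : ℝ) (j : C.ι) : ((C.grow y).e j).w = (C.e j).w := by
  by_cases h : j = C.H
  · rw [h, e_H]; rfl
  · rw [e_ne C h]

theorem rad_anti {l : End} (hk : l.k = Kind.out) (hr : 0 < l.r) {s t : ℝ} (h : s ≤ t) :
    l.rad t ≤ l.rad s := by
  have : (l.sgn : ℝ) = -1 := by simp [End.sgn, hk]
  unfold End.rad
  rw [this]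
  exact mul_le_mul_of_nonneg_left (Real.exp_le_exp.2 (by linarith)) hr.le

theorem R_le (hk : C.hub.k = Kind.out) (hr : 0 < C.R) (hy : 0 ≤ y) : C.R ≤ (C.grow y).R := by
  have := rad_anti hk hr (s := -y) (t := 0) (by linarith)
  rwa [End.rad_zero, ← R_eq] at this

theorem layer (hk : C.hub.k = Kind.out) (hr : 0 < C.R) {z : ℂ} (hz : z ∈ C.hub.ann (Icc (-y) 0)) :
    C.R ≤ ‖z - C.c‖ ∧ ‖z - C.c‖ ≤ (C.grow y).R := by
  have h1 : ‖z - C.c‖ = C.hub.rad (C.hub.dep z) := End.norm_eq_rad hr hz.1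
  have h2 := rad_anti hk hr hz.2.2
  rw [End.rad_zero] at h2
  rw [h1, R_eq]
  exact ⟨h2, rad_anti hk hr hz.2.1⟩

theorem priv1 (hk : C.hub.k = Kind.out) (hr : 0 < C.R) (hy : 0 ≤ y) {p : ℂ} {ρ : ℝ} {w : ℂ → ℂ}
    (h : Priv C K p ρ w) : Priv (C.grow y) K p ρ w where
  ins := by rw [c_eq]; exact h.ins.trans (ball_subset_ball (R_le hk hr hy))
  far := h.far
  an := h.an
  zero := h.zero
  mem z hz := by
    obtain ⟨h1, h2, h3⟩ := h.mem z hz
    refine ⟨Or.inl h1, ?_, h3⟩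
    rintro ⟨j, a, b⟩
    by_cases hj : j = C.H
    · rw [hj, e_H] at b
      have b1 : ‖z - C.c‖ = C.hub.rad (-y) := mem_sphere_iff_norm.1 b.1
      have b2 := mem_ball_iff_norm.1 (h.ins hz)
      have b3 := R_le hk hr hy
      rw [R_eq] at b3
      linarith
    · rw [e_ne C hj] at a b
      exact h2 ⟨j, a, b⟩
  only x hx hz := by
    rcases hx with hx | hx
    · exact h.only x hx hz
    · exact absurd (mem_ball_iff_norm.1 (h.ins hz)) (not_lt.2 (layer hk hr hx.1).1)
  none := h.none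

theorem priv2 (hk : C.hub.k = Kind.out) (hr : 0 < C.R) (hR : (C.grow y).R < 8 / 5) {p : ℂ} {ρ : ℝ}
    {w : ℂ → ℂ} (h : Priv K C p ρ w) : Priv K (C.grow y) p ρ w where
  ins := h.ins
  far := by rw [c_eq]; exact h.far
  an := h.an
  zero := h.zero
  mem := h.mem
  only := h.only
  none x hx hz := by
    rcases hx with hx | hx
    · exact h.none x hx hz
    · linarith [h.far _ hz, (layer hk hr hx.1).2]

theorem ann_near (hk : C.hub.k = Kind.out) {r1 h : ℝ} (hy : 0 ≤ y) (hh : y < 2 * h) :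
    C.hub.ann (Icc (-y) 0) ⊆ (C.e C.H).near (2 * h) (2 * r1) := by
  rw [End.near_loop (e := C.e C.H) (by rw [show (C.e C.H).k = Kind.out from hk]; simp)]
  exact End.ann_mono (Icc_subset_Icc (by linarith) (by linarith))

theorem curve (hM : St_MOVE) (hc : IsCurve C.P C.Γ C.e) (hk : C.hub.k = Kind.out) (hr : 0 < C.R)
    {Sig : Finset ℂ} {r1 h : ℝ} (G : Geo C.P C.Γ C.e Sig r1 h) (hy : 0 ≤ y) (hh : y < 2 * h) :
    IsCurve (C.grow y).P (C.grow y).Γ (C.grow y).e := by
  classical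
  have hp : C.hub.k ≠ Kind.pt := by rw [hk]; simp
  have h1 := hM C.ι C.P C.Γ C.e Sig r1 h (fun j => if j = C.H then -y else 0) (fun _ => 0) hc G
    fun j => ⟨by split_ifs <;> simp [abs_of_nonneg hy, hh, G.hpos], by linarith [G.r1pos]⟩
  have h2 : (fun j => (C.e j).adj (if j = C.H then -y else 0) 0) = (C.grow y).e := by
    funext j
    by_cases hj : j = C.H
    · rw [hj, e_H, if_pos rfl]; exact if_neg hp
    · rw [e_ne C hj, if_neg hj, End.adj, End.move_zero]; simp
  have sd : ∀ {z : ℂ}, z ≠ C.hub.c → ((C.hub.move (-y)).side z ↔ -y ≤ C.hub.dep z) := fun hz => by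
    rw [End.side_iff (e := C.hub.move (-y)) hp (End.rad_pos hr _) hz, End.dep_move hr _ hz]
    exact sub_nonneg
  have nc : ∀ {z : ℂ}, z ∈ (C.e C.H).near (2 * h) (2 * r1) → z ≠ C.hub.c := fun hz => by
    rw [End.near_loop (e := C.e C.H) hp] at hz; exact hz.1
  have h3 : moved C.Γ C.e (C.grow y).e r1 h = (C.grow y).Γ := by
    ext x
    constructor
    · rintro (a | ⟨j, a, b⟩)
      · exact Or.inl a.1
      have e : x = (x.1, (C.e j).w x.1) := Prod.ext rfl a.2
      by_cases hj : j = C.H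
      · subst hj
        rw [e_H, sd (nc a.1)] at b
        rcases le_total 0 (C.hub.dep x.1) with d | d
        · exact Or.inl (e ▸ (G.mem _ a.1).2 ((End.side_iff hp hr (nc a.1)).2 d))
        · exact Or.inr ⟨⟨nc a.1, b, d⟩, a.2⟩
      · rw [e_ne C hj] at b
        exact Or.inl (e ▸ (G.mem _ a.1).2 b)
    · rintro (a | a)
      · by_cases b : ∀ j, x ∉ (C.e j).gr ((C.e j).nearO (2 * h) (2 * r1))
        · exact Or.inl ⟨a, b⟩
        push Not at b
        obtain ⟨j, b⟩ := b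
        have d := (C.e j).nearO_subset_near le_rfl le_rfl b.1
        have e : x = (x.1, (C.e j).w x.1) := Prod.ext rfl b.2
        have f := (G.mem _ d).1 (e ▸ a)
        refine Or.inr ⟨j, ⟨d, b.2⟩, ?_⟩
        by_cases hj : j = C.H
        · subst hj
          rw [e_H, sd (nc d)]
          linarith [(End.side_iff hp hr (nc d)).1 f]
        · rwa [e_ne C hj]
      · refine Or.inr ⟨C.H, ⟨ann_near hk hy hh a.1, a.2⟩, ?_⟩
        rw [e_H, sd a.1.1]
        exact a.1.2.1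
  rw [h2, h3] at h1
  exact h1

theorem wind (hk : C.hub.k = Kind.out) (hr : 0 < C.R) (j : C.ι) {W : ℂ → ℂ} {k : ℤ}
    (h : HasWind (C.e j) W k) : ∀ᶠ y in 𝓝[>] (0 : ℝ), HasWind ((C.grow y).e j) W k := by
  by_cases hj : j = C.H
  · subst hj
    have hp : C.hub.k ≠ Kind.pt := by rw [hk]; simp
    obtain ⟨δ, h1, h2⟩ := h.adj (show C.hub.ok by rw [End.ok, if_neg hp]; exact hr)
    filter_upwards [Ioo_mem_nhdsGT h1] with y hy
    have := h2 (-y) 0 (by rw [abs_neg, abs_of_pos hy.1]; exact hy.2) h1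
    rwa [End.adj, if_neg (show ¬(C.e C.H).k = Kind.pt from hp), ← show (C.grow y).e C.H = (C.e C.H).move (-y) from e_H C y] at this
  · exact Eventually.of_forall fun y => by rwa [e_ne C hj]

end Grow

open Grow in
theorem st_grow (hF : St_FIB) (hG : St_GEO) (hM : St_MOVE) : St_GROW := by
  classical
  intro C K Nd TC TK D h
  have hC := h.hC
  have hK := h.hK
  have hk := hC.out
  have hr : 0 < C.R := by linarith [hC.rad.1]
  have hp : C.hub.k ≠ Kind.pt := by rw [hk]; simp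
  have fin : ∀ {A B : Cv} {T : ℤ}, Half A B T → (brv A.P A.Γ).Finite := fun {A _ _} a =>
    ((hF A.ι A.P A.Γ A.e a.curve).2.image Prod.fst).subset fun _ ⟨x, b, c, d⟩ => ⟨x, ⟨b, c⟩, d⟩
  obtain ⟨δ, hδ, geo⟩ := hG C.ι C.P C.Γ C.e
    ((fin hC).toFinset ∪ (fin hK).toFinset ∪ Nd.image Prod.fst) hC.curve
    (fun b hb => by simp [hb]) fun b hb j => by
      simp only [Finset.coe_union, Finite.coe_toFinset, Finset.coe_image, mem_union] at hb
      rcases hb with (a | a) | ⟨x, a, rfl⟩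
      exacts [hC.off.1 b a j, hK.off.2 b a j, (h.off x a).1 j]
  have G := geo (δ / 2) (δ / 2) (by linarith) (by linarith) (by linarith) (by linarith)
  have k0 : ∀ᶠ z in 𝓝ˢ C.hub.circ, K.P (z, C.hub.w z) ≠ 0 :=
    eventually_nhdsSet_iff_forall.2 fun z hz =>
      (End.analyticOnNhd_res hK.curve.poly (hC.curve.wan C.H) z hz).continuousAt.eventually_ne
        fun a => (h.off _ (h.nodal.left _ (hC.curve.mem_of_circ C.H hz) a)).1 C.H hz
  obtain ⟨η, hη, k1⟩ := End.shrink (hC.curve.ok C.H) k0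
  have r1 : ∀ᶠ y in 𝓝[>] (0 : ℝ), (C.grow y).R < 8 / 5 := by
    have : ContinuousAt (fun y : ℝ => C.hub.rad (-y)) 0 :=
      (C.hub.continuous_rad.comp continuous_neg).continuousAt
    simp only [R_eq]
    refine nhdsWithin_le_nhds (this.eventually (gt_mem_nhds ?_))
    simp only [neg_zero, End.rad_zero]
    exact hC.rad.2
  choose kl l1 l2 using hC.lam
  obtain ⟨kt, t1, t2⟩ := hC.tot
  filter_upwards [Ioo_mem_nhdsGT hδ, Ioo_mem_nhdsGT hη, r1,
    eventually_all.2 fun j => wind hk hr j (l1 j), eventually_all.2 fun j => wind hk hr j (t1 j)]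
    with y y1 y2 y3 y4 y5
  have hy := y1.1.le
  have hh : y < 2 * (δ / 2) := by linarith [y1.2]
  have hR := R_le hk hr hy
  have br : brv (C.grow y).P (C.grow y).Γ ⊆ brv C.P C.Γ := by
    rintro b ⟨x, a | a, c, d⟩
    · exact ⟨x, a, c, d⟩
    · have e : x = (x.1, (C.e C.H).w x.1) := Prod.ext rfl a.2
      exact absurd (e ▸ c) (G.wz C.H _ (ann_near hk hy hh a.1)).2
  have sg : ∀ b ∈ (fin hC).toFinset ∪ (fin hK).toFinset ∪ Nd.image Prod.fst, ∀ j,
      b ∉ ((C.grow y).e j).circ := fun b hb j hj => by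
    by_cases e : j = C.H
    · rw [e, e_H] at hj
      have := G.sig C.H b (ann_near hk hy hh
        (End.sphere_subset_ann (e := C.hub) hr (left_mem_Icc.2 (by linarith)) hj)) b hb
      rw [sub_self, norm_zero] at this
      linarith
    · rw [e_ne C e] at hj
      exact Geo.off hC.curve G b hb j hj
  have nd : ∀ x ∈ Nd, ∀ j, x.1 ∉ ((C.grow y).e j).circ := fun x hx =>
    sg x.1 (Finset.mem_union_right _ (Finset.mem_image_of_mem _ hx))
  refine ⟨⟨⟨curve hM hC.curve hk hr G hy hh, by rw [hub]; exact hk, by rw [c_eq]; exact hC.cen,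
    ⟨hC.rad.1.trans_le hR, y3⟩, fun j hj => ?_, fun j z hz => ?_,
    ⟨fun b hb => sg b (by simp [br hb]), fun b hb => hC.off.2 b (br hb)⟩,
    fun j => ⟨kl j, y4 j, fun a => l2 j ((k_eq C y j).symm.trans a)⟩, fun j a => ?_, kt, fun j => ?_, t2⟩,
    ⟨hK.curve, hK.out, by rw [c_eq]; exact hK.cen, hK.rad, fun j hj => ?_, hK.big,
      ⟨hK.off.1, fun b hb => sg b (by simp [hb])⟩, hK.lam,
      fun j a => priv2 hk hr y3 (hK.priv j a), hK.tot⟩,
    ⟨fun x hx => ?_, fun x hx a => ?_, h.nodal.right⟩, fun x hx => ⟨nd x hx, (h.off x hx).2⟩,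
    ⟨?_, h.nout.2⟩, h.num, h.pt.imp fun x a => ⟨Or.inl a.1, a.2⟩⟩,
    fun p ρ w a => priv1 hk hr hy a, fun p ρ w a => priv2 hk hr y3 a⟩
  · rw [e_ne C hj, c_eq]
    exact (hC.ins j hj).trans (union_subset_union_left _ (ball_subset_ball hR))
  · by_cases e : j = C.H
    · rw [e, e_H] at hz
      have a1 : ‖z - C.c‖ = C.hub.rad (-y) := mem_sphere_iff_norm.1 hz
      have a2 : ‖C.c‖ = 1 := by rcases hC.cen.1 with a | a <;> simp [a]
      have a3 := norm_sub_le z C.c
      rw [R_eq] at hR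
      linarith [hC.rad.1]
    · rw [e_ne C e] at hz
      exact hC.big j z hz
  · have e : j ≠ C.H := fun e => hp (by rw [k_eq, e] at a; exact a)
    rw [e_ne C e] at a ⊢
    exact priv1 hk hr hy (hC.priv j a)
  · exact (y5 j).congr' fun z => by simp only [Cv.W, End.res, w_eq]; rfl
  · rw [c_eq]
    exact (hK.ins j hj).trans (union_subset_union_right _ (ball_subset_ball hR))
  · obtain ⟨a1, a2, a3, a4, a5, -, a7⟩ := h.nodal.node x hx
    exact ⟨Or.inl a1, a2, a3, a4, a5, fun ⟨j, b⟩ => nd x hx j b.1, a7⟩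
  · rcases hx with hx | hx
    · exact h.nodal.left x hx a
    · have e : x = (x.1, C.hub.w x.1) := Prod.ext rfl hx.2
      have := k1 y y y2.2.le y2.2.le (show x.1 ∈ (C.e C.H).near y y by
        rw [End.near_loop (e := C.e C.H) hp]
        exact End.ann_mono (Icc_subset_Icc le_rfl hy) hx.1)
      exact absurd (e ▸ a) this
  · refine le_of_eq_of_le ?_ h.nout.1
    exact congrArg Finset.card (Finset.filter_congr fun j _ => by rw [k_eq])

end Pool.Agent.CF
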