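import Pool.Agent.Lib.CF.Blue
import Pool.Agent.Lib.CF.Basic

open Set Metric Filter Topology MeasureTheory

namespace Pool.Agent.CF

namespace POL

theorem ann_eq {e : End} (hr : 0 < e.r) {a b p q : ℝ}
    (h : ∀ s, s ∈ Icc a b ↔ e.rad p ≤ e.rad s ∧ e.rad s ≤ e.rad q) :
    e.ann (Icc a b) = {z | e.rad p ≤ ‖z - e.c‖ ∧ ‖z - e.c‖ ≤ e.rad q} := by
  ext z
  refine ⟨fun hz => ?_, fun hz => ?_⟩
  · rw [mem_ofPred_eq, End.norm_eq_rad hr hz.1]; exact (h _).1 hz.2
  · have h0 : z ≠ e.c := fun k => by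
      have := (End.rad_pos hr p).trans_le hz.1
      simp [k] at this
    rw [mem_ofPred_eq, End.norm_eq_rad hr h0] at hz
    exact ⟨h0, (h _).2 hz⟩

theorem hasDerivAt_rad (e : End) (s : ℝ) : HasDerivAt e.rad (e.sgn * e.rad s) s := by
  have := (((hasDerivAt_id s).const_mul (e.sgn : ℝ)).exp).const_mul e.r
  exact this.congr_deriv (by simp only [End.rad, id]; ring)

end POL

open POL in
theorem st_pol (h : St_POL0) : St_POL := by
  intro e F γ a b _ hr hab hγ hF
  have hI : IntegrableOn (fun z => F z * (γ (e.dep z) / ‖z - e.c‖ ^ 2)) (e.ann (Icc a b)) :=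
    hF.mul_continuousOn (fun z hz => ((hγ.continuousAt.comp (End.continuousAt_dep hr hz.1)).div
      (by fun_prop) (pow_ne_zero _ (norm_ne_zero_iff.2 (sub_ne_zero.2 hz.1)))).continuousWithinAt)
      (End.isCompact_ann hr isCompact_Icc)
  set g : ℝ → ℝ := fun ρ =>
    ρ * Real.circleAverage (fun z => F z * (γ (e.dep z) / ‖z - e.c‖ ^ 2)) e.c ρ with hg
  have key : ∀ s, (g ∘ e.rad) s * (e.sgn * e.rad s) =
      e.sgn * (γ s * Real.circleAverage F e.c (e.rad s)) := fun s => by
    have h0 := End.rad_pos hr s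
    have : Real.circleAverage (fun z => F z * (γ (e.dep z) / ‖z - e.c‖ ^ 2)) e.c (e.rad s) =
        (γ s / e.rad s ^ 2) • Real.circleAverage F e.c (e.rad s) := by
      rw [← Real.circleAverage_fun_smul]
      refine Real.circleAverage_congr_sphere fun z hz => ?_
      rw [abs_of_pos h0] at hz
      simp only [smul_eq_mul, ((End.mem_sphere_rad hr).1 hz).2, mem_sphere_iff_norm.1 hz, mul_comm]
    simp only [hg, Function.comp, this, smul_eq_mul]
    field_simp
  have hle : ∀ s t, e.rad s ≤ e.rad t ↔ e.sgn * s ≤ e.sgn * t := fun s t => by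
    rw [End.rad, End.rad, mul_le_mul_iff_right₀ hr, Real.exp_le_exp]
  refine ⟨hI, ?_⟩
  rcases e.sgn_cases with ⟨-, hs⟩ | ⟨-, hs⟩
  · have hd : ∀ x ∈ Ioo (min a b) (max a b), (e.sgn : ℝ) * e.rad x ≤ 0 := fun x _ => by
      simp [hs, (End.rad_pos hr x).le]
    have e1 := ann_eq hr (a := a) (b := b) (p := b) (q := a) fun s => by simp [hle, hs, and_comm]
    rw [e1] at hI ⊢
    obtain ⟨h1, h2⟩ := h _ e.c _ _ (End.rad_pos hr b).le ((hle b a).2 (by simpa [hs] using hab)) hI
    have h3 := (intervalIntegral.integrable_comp_mul_deriv_iff_of_deriv_nonpos (g := g)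
      e.continuous_rad.continuousOn (fun x _ => hasDerivAt_rad e x) hd).2 h1.symm
    have h4 := intervalIntegral.integral_comp_mul_deriv_of_deriv_nonpos (g := g)
      e.continuous_rad.continuousOn (fun x _ => hasDerivAt_rad e x) hd
    simp only [key] at h3 h4
    simp only [hs, Int.reduceNeg, Int.cast_neg, Int.cast_one, neg_mul, one_mul,
      intervalIntegral.integral_neg] at h3 h4
    refine ⟨by simpa [Pi.neg_def] using h3.neg, ?_⟩
    rw [h2, intervalIntegral.integral_symm, ← h4, neg_neg]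
  · have hd : ∀ x ∈ Ioo (min a b) (max a b), 0 ≤ (e.sgn : ℝ) * e.rad x := fun x _ => by
      simp [hs, (End.rad_pos hr x).le]
    have e1 := ann_eq hr (a := a) (b := b) (p := a) (q := b) fun s => by simp [hle, hs]
    rw [e1] at hI ⊢
    obtain ⟨h1, h2⟩ := h _ e.c _ _ (End.rad_pos hr a).le ((hle a b).2 (by simpa [hs] using hab)) hI
    have h3 := (intervalIntegral.integrable_comp_mul_deriv_iff_of_deriv_nonneg (g := g)
      e.continuous_rad.continuousOn (fun x _ => hasDerivAt_rad e x) hd).2 h1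
    have h4 := intervalIntegral.integral_comp_mul_deriv_of_deriv_nonneg (g := g)
      e.continuous_rad.continuousOn (fun x _ => hasDerivAt_rad e x) hd
    simp only [key] at h3 h4
    simp only [hs, Int.cast_one, one_mul] at h3 h4
    exact ⟨h3, by rw [h2, h4]⟩

end Pool.Agent.CF
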