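import Pool.Agent.Lib.CF.Blue3

open Set Metric Filter Topology

namespace Pool.Agent.CF

namespace SEC

theorem lin {e : End} (ho : e.ok) {b : ℂ} (hb : b ∉ e.circ) :
    ∃ m : ℤ, HasWind e (fun z => z - b) m ∧ (e.k = Kind.pt → m = 0) := by
  have hr : 0 ≤ e.r := by
    by_cases hk : e.k = Kind.pt
    · exact (ho.zero hk).ge
    · exact (ho.pos hk).le
  have hne : ‖b - e.c‖ ≠ e.r := fun h => hb (mem_sphere_iff_norm.2 h)
  rcases lt_or_gt_of_ne hne with h | h
  · refine ⟨_, HasWind.lin_in h, fun hk => ?_⟩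
    rw [ho.zero hk] at h
    exact absurd h (not_lt.2 (norm_nonneg _))
  · exact ⟨0, HasWind.lin_out h hr, fun _ => rfl⟩

theorem anal (Γ : Set E) (b : ℂ) : AnalyticOnNhd ℂ (fun y : E => y.1 - b) Γ :=
  fun _ _ => analyticAt_fst.sub analyticAt_const

/-- windings of `z - c i` for a private point end `i` -/
theorem ptw (hARG : St_ARG) {ι : Type} [Fintype ι] [DecidableEq ι] {C : E → ℂ} {Γ : Set E}
    {e : ι → End} (hc : IsCurve C Γ e) (hoff : Off (brv C Γ) e) (i : ι) (hi : (e i).k = Kind.pt)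
    (hp : ∀ y ∈ Γ, y.1 = (e i).c → y.2 = (e i).w (e i).c) :
    ∃ m : ι → ℤ, (∀ j, HasWind (e j) (fun z => z - (e i).c) (m j)) ∧ ∑ j, m j = 0 ∧
      ∀ j, (e j).k = Kind.pt → m j = if i = j then -1 else 0 := by
  have h1 : ∀ j, ∃ m : ℤ, HasWind (e j) (fun z => z - (e i).c) m ∧
      ((e j).k = Kind.pt → m = if i = j then -1 else 0) := by
    intro j
    by_cases hij : i = j
    · subst hij
      refine ⟨_, HasWind.self (e i), fun _ => ?_⟩
      simp [End.sgn, hi]
    · have h2 : (e i).c ∉ (e j).circ := fun h => by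
        have h3 := hp _ (hc.mem_of_circ j h) rfl
        have h4 : (e i).c ∈ (e i).circ := by rw [End.circ_pt (hc.ok i) hi]; rfl
        have h5 : (((e i).c, (e j).w (e i).c) : E) ∈ (e i).gr (e i).circ := ⟨h4, h3⟩
        exact Set.disjoint_left.1 (hc.disj hij) h5 ⟨h, rfl⟩
      obtain ⟨m, a, b⟩ := lin (hc.ok j) h2
      exact ⟨m, a, fun hk => by rw [b hk, if_neg hij]⟩
  choose m a b using h1
  refine ⟨m, a, ?_, b⟩
  have := hARG ι C (fun y => y.1 - (e i).c) Γ e ∅ m hc hoff (anal _ _) (fun y hy h0 => ?_)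
    (by simp) a
  · simpa using this
  · have h2 : y.1 = (e i).c := sub_eq_zero.1 h0
    exact Or.inr ⟨i, hi, Prod.ext h2 (hp y hy h2)⟩

end SEC

open SEC in
theorem st_sec (hW : St_WFIX) (hARG : St_ARG) (_hARG2 : St_ARG2) : St_SEC := by
  intro ι _ C K Γ e Sig r1 h H b0 a Z k hc hG hK hfin hKne hH hb0 hb1 hb2 hZ hpt
  classical
  have hoff : Off (brv C Γ) e := fun b hb => Geo.off hc hG b (hG.br hb)
  have ha : ∀ j, a ∉ (e j).circ := fun j hj => by
    have h1 := hc.mem_of_circ j hj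
    exact (hZ.2 _ (hZ.1 _ h1 (sub_self a))).2.2.2.2 j hj
  choose α hα1 hα2 using fun j => lin (hc.ok j) (ha j)
  have hαs : ∑ j, α j = Z.card :=
    hARG ι C (fun y => y.1 - a) Γ e Z α hc hoff (anal _ _) (fun y hy h0 => Or.inl (hZ.1 y hy h0))
      hZ.2 hα1
  have h1 : ∀ i, ∃ m : ι → ℤ, (e i).k = Kind.pt →
      (∀ j, HasWind (e j) (fun z => z - (e i).c) (m j)) ∧ ∑ j, m j = 0 ∧
      ∀ j, (e j).k = Kind.pt → m j = if i = j then -1 else 0 := fun i => by
    by_cases hi : (e i).k = Kind.pt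
    · obtain ⟨m, hm⟩ := ptw hARG hc hoff i hi (hpt i hi).2
      exact ⟨m, fun _ => hm⟩
    · exact ⟨fun _ => 0, fun h => absurd h hi⟩
  choose m hm using h1
  set S : Finset ι := Finset.univ.filter fun i => (e i).k = Kind.pt with hS
  have hmem : ∀ i, i ∈ S ↔ (e i).k = Kind.pt := fun i => by simp [hS]
  set β : ι → ℤ := fun j => α j - ∑ i ∈ S, m i j with hβ
  have hβ1 : ∀ j, HasWind (e j) (fun z => (z - a) / ∏ i ∈ S, (z - (e i).c)) (β j) := fun j =>
    (hα1 j).div (HasWind.prod S fun i hi => (hm i ((hmem i).1 hi)).1 j)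
  have hβ2 : ∑ j, β j = Z.card := by
    simp only [hβ]
    rw [Finset.sum_sub_distrib, hαs, Finset.sum_comm,
      Finset.sum_eq_zero fun i hi => (hm i ((hmem i).1 hi)).2.1, sub_zero]
  have hβ3 : ∀ j, (e j).k = Kind.pt → β j = 1 := fun j hj => by
    simp only [hβ]
    rw [hα2 j hj, Finset.sum_congr rfl fun i hi => (hm i ((hmem i).1 hi)).2.2 j hj,
      Finset.sum_ite_eq', if_pos ((hmem j).2 hj)]
    norm_num
  obtain ⟨q, G, hq, hG', h2, h3, h4⟩ := hW ι C K Γ e Sig r1 h H b0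
    (fun j => k j - β j - if j = H then (∑ j, k j - Z.card) else 0) hc hG hK hfin hKne hH hb0 hb1
    hb2 (fun j hj => by
      have : j ≠ H := fun h => by rw [h, hH] at hj; cases hj
      rw [if_neg this, hβ3 j hj, (hpt j hj).1]; norm_num)
    (by
      rw [Finset.sum_sub_distrib, Finset.sum_sub_distrib, hβ2, Finset.sum_ite_eq',
        if_pos (Finset.mem_univ H), sub_self])
  have h5 : ∀ j, HasWind (e j) ((e j).res fun y => (y.1 - a) * q y /
      (G y * ∏ i ∈ S, (y.1 - (e i).c)))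
      (k j - if j = H then (∑ j, k j - Z.card) else 0) := fun j => by
    refine (((hβ1 j).mul (h4 j)).congr' fun z => ?_).cast (by ring)
    simp only [End.res]
    rw [mul_comm (G _), mul_div_mul_comm]
  refine ⟨q, G, hq, hG', h2, h3, fun j hj => (h5 j).cast (by rw [if_neg hj, sub_zero]),
    (h5 H).cast (by rw [if_pos rfl])⟩

end Pool.Agent.CF
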