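import Pool.Agent.Lib.CF.Blue3

open Set Metric Filter Topology

namespace Pool.Agent.CF

namespace Ta

theorem dw_pen' {F0 F1 : E → ℂ} (h0 : IsPoly F0) (h1 : IsPoly F1) (ε : ℂ) (y : E) :
    dw (pen F0 F1 ε) y = dw F0 y - ε * dw F1 y := by
  rw [dw_eq (h0.differentiableAt y), dw_eq (h1.differentiableAt y)]
  exact ((hasDerivAt_dw (h0.differentiableAt y)).fun_sub
    ((hasDerivAt_dw (h1.differentiableAt y)).const_mul ε)).deriv

theorem ex_wind (hE : St_WEXT) {e : End} (ho : e.ok) {W : ℂ → ℂ} (h : AnalyticOnNhd ℂ W e.circ)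
    (h0 : ∀ z ∈ e.circ, W z ≠ 0) : ∃ k, HasWind e W k := by
  by_cases hk : e.k = Kind.pt
  · have hc : e.c ∈ e.circ := by rw [End.circ_pt ho hk]; rfl
    exact ⟨0, HasWind.of_pt ho hk (h _ hc) (h0 _ hc)⟩
  · exact hE.1 e W hk (ho.pos hk) h h0

theorem ana_y {w : ℂ → ℂ} {Z : Set ℂ} {d : ℂ × ℂ → ℂ} (hw : AnalyticOnNhd ℂ w Z)
    (hd : AnalyticOnNhd ℂ d (Z ×ˢ {0})) {z : ℂ} (hz : z ∈ Z) :
    AnalyticAt ℂ (fun p : ℂ × ℂ => ((p.1, w p.1 + p.2 * d p) : E)) (z, 0) :=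
  analyticAt_fst.prod (((hw z hz).comp (f := Prod.fst) analyticAt_fst).add
    (analyticAt_snd.mul (hd _ ⟨hz, rfl⟩)))

theorem ana_comp {w : ℂ → ℂ} {Z : Set ℂ} {d : ℂ × ℂ → ℂ} (hw : AnalyticOnNhd ℂ w Z)
    (hd : AnalyticOnNhd ℂ d (Z ×ˢ {0})) {z : ℂ} (hz : z ∈ Z) {B : E → ℂ}
    (hB : AnalyticAt ℂ B (z, w z)) :
    AnalyticAt ℂ (fun p : ℂ × ℂ => B (p.1, w p.1 + p.2 * d p)) (z, 0) :=
  AnalyticAt.comp (g := B) (f := fun p : ℂ × ℂ => ((p.1, w p.1 + p.2 * d p) : E))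
    (by simpa using hB) (ana_y hw hd hz)

theorem fam {e : End} {d : ℂ × ℂ → ℂ} {F0 q B : E → ℂ} {k : ℤ} (hw : AnalyticOnNhd ℂ e.w e.circ)
    (hd : AnalyticOnNhd ℂ d (e.circ ×ˢ {0})) (h0 : IsPoly F0) (h1 : IsPoly q)
    (hB : ∀ z ∈ e.circ, AnalyticAt ℂ B (z, e.w z))
    (hn : ∀ z ∈ e.circ, dw F0 (z, e.w z) * B (z, e.w z) ≠ 0)
    (h : HasWind e (fun z => dw F0 (z, e.w z) * B (z, e.w z)) k) :
    ∀ᶠ ε in 𝓝 (0 : ℂ), HasWind e (fun z => dw (pen F0 q ε) (z, e.w z + ε * d (z, ε)) *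
      B (z, e.w z + ε * d (z, ε))) k := by
  have h2 := HasWind.family (e := e) (k := k)
    (Φ := fun p => (dw F0 (p.1, e.w p.1 + p.2 * d p) - p.2 * dw q (p.1, e.w p.1 + p.2 * d p)) *
      B (p.1, e.w p.1 + p.2 * d p)) ?_ (by simpa using hn) (h.congr' fun z => by simp)
  · filter_upwards [h2] with ε a using a.congr' fun z => by rw [dw_pen' h0 h1]
  · rintro ⟨z, ε⟩ ⟨hz, rfl⟩
    exact ((ana_comp hw hd hz (h0.dw.analyticAt _)).sub
      (analyticAt_snd.mul (ana_comp hw hd hz (h1.dw.analyticAt _)))).mul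
      (ana_comp hw hd hz (hB z hz))

theorem curry' {Z : Set ℂ} (hZ : IsCompact Z) {P : ℂ × ℂ → Prop}
    (h : ∀ᶠ p in 𝓝ˢ (Z ×ˢ ({0} : Set ℂ)), P p) :
    ∀ᶠ ε in 𝓝 (0 : ℂ), ∀ᶠ z in 𝓝ˢ Z, P (z, ε) := by
  rw [hZ.nhdsSet_prod_eq isCompact_singleton, nhdsSet_singleton] at h
  obtain ⟨pa, ha, pb, hb, hab⟩ := eventually_prod_iff.1 h
  filter_upwards [hb] with ε h1
  filter_upwards [ha] with z h2 using hab h2 h1

theorem sheet {A : ℂ → E → ℂ} {w : ℂ → ℂ} {Z : Set ℂ} {d : ℂ × ℂ → ℂ} (h : SheetFam A w Z d) :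
    ∀ᶠ p in 𝓝ˢ (Z ×ˢ ({0} : Set ℂ)), A p.2 (p.1, w p.1 + p.2 * d p) = 0 := by
  obtain ⟨hd, σ, hσ, h1⟩ := h
  have h2 : ∀ᶠ p in 𝓝ˢ (Z ×ˢ ({0} : Set ℂ)), ‖p.2 * d p‖ < σ := by
    refine eventually_nhdsSet_iff_forall.2 ?_
    rintro ⟨z, ε⟩ ⟨hz, rfl⟩
    have h3 : ContinuousAt (fun p : ℂ × ℂ => ‖p.2 * d p‖) (z, 0) :=
      (continuousAt_snd.mul (hd _ ⟨hz, rfl⟩).continuousAt).norm
    exact h3.eventually_lt continuousAt_const (by simpa using hσ)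
  filter_upwards [h1, h2] with p a b using (a _ b.le).2 rfl

theorem ne_of_simple {ι : Type} {P H : E → ℂ} {Γ : Set E} {e : ι → End} {Z : Finset E}
    (hc : IsCurve P Γ e) (h : SimpleZ P H Γ e Z) (j : ι) {z : ℂ} (hz : z ∈ (e j).circ) :
    H (z, (e j).w z) ≠ 0 := fun h0 =>
  (h.2 _ (h.1 _ (hc.mem_of_circ j hz) h0)).2.2.2.2 j hz

theorem dw3 {C K G : E → ℂ} (hC : IsPoly C) (hK : IsPoly K) (hG : IsPoly G) (y : E) :
    dw (fun x => G x * K x * C x) y = (dw G y * K y + G y * dw K y) * C y + G y * K y * dw C y := by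
  rw [dw_mul ((hG.mul hK).differentiableAt y) (hC.differentiableAt y),
    dw_mul (hG.differentiableAt y) (hK.differentiableAt y)]

/-- an end of the curve `C` -/
theorem left (hU : St_WUNI) (hE : St_WEXT) {C K G q : E → ℂ} {e : End} {d : ℂ × ℂ → ℂ}
    {lam : ℂ → ℂ} {kq kG kK k : ℤ} (hC : IsPoly C) (hK : IsPoly K) (hG : IsPoly G) (hq : IsPoly q)
    (ho : e.ok) (hw : AnalyticOnNhd ℂ e.w e.circ) (hz : ∀ᶠ z in 𝓝ˢ e.circ, C (z, e.w z) = 0)
    (nC : ∀ z ∈ e.circ, dw C (z, e.w z) ≠ 0) (nK : ∀ z ∈ e.circ, K (z, e.w z) ≠ 0)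
    (nG : ∀ z ∈ e.circ, G (z, e.w z) ≠ 0) (nq : ∀ z ∈ e.circ, q (z, e.w z) ≠ 0)
    (hS : SheetFam (pen (fun x => G x * K x * C x) q) e.w e.circ d)
    (wq : HasWind e (e.res q) kq) (wG : HasWind e (e.res G) kG) (wK : HasWind e (e.res K) kK)
    (wl : HasWind e lam k) (wr : HasWind e (e.res fun y => q y / (G y * K y * dw C y)) k) :
    ∀ᶠ ε in 𝓝[≠] (0 : ℂ), HasWind e (fun z => lam z * (e.pert d ε).res
      (fun y => dw (pen (fun x => G x * K x * C x) q ε) y * C y) z) (2 * kq - kG - kK) := by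
  obtain ⟨kD, wD⟩ := ex_wind hE ho (End.analyticOnNhd_res hC.dw hw) nC
  have hk : k = kq - (kG + kK + kD) := hU e _ _ _ ho wr (wq.div ((wG.mul wK).mul wD))
  have hGK : ∀ᶠ z in 𝓝ˢ e.circ, G (z, e.w z) * K (z, e.w z) ≠ 0 :=
    eventually_nhdsSet_iff_forall.2 fun z h =>
      (End.analyticOnNhd_res (hG.mul hK) hw z h).continuousAt.eventually_ne
        (mul_ne_zero (nG z h) (nK z h))
  have h1 : ∀ᶠ z in 𝓝ˢ e.circ, dw (fun x => G x * K x * C x) (z, e.w z) *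
      (q (z, e.w z) / (G (z, e.w z) * K (z, e.w z))) = q (z, e.w z) * dw C (z, e.w z) := by
    filter_upwards [hz, hGK] with z a b
    rw [dw3 hC hK hG, a, mul_zero, zero_add]
    field_simp [left_ne_zero_of_mul b, right_ne_zero_of_mul b]
  have h2 := fam (B := fun y => q y / (G y * K y)) (k := kq + kD) hw hS.1 ((hG.mul hK).mul hC) hq
    (fun z h => (hq.analyticAt _).div ((hG.mul hK).analyticAt _) (mul_ne_zero (nG z h) (nK z h)))
    (fun z h => by rw [h1.self_of_nhdsSet z h]; exact mul_ne_zero (nq z h) (nC z h))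
    ((wq.mul wD).congr (by filter_upwards [h1] with z a _ using a))
  have h3 : ∀ᶠ p in 𝓝ˢ (e.circ ×ˢ ({0} : Set ℂ)),
      G (p.1, e.w p.1 + p.2 * d p) * K (p.1, e.w p.1 + p.2 * d p) ≠ 0 := by
    refine eventually_nhdsSet_iff_forall.2 ?_
    rintro ⟨z, ε⟩ ⟨h, rfl⟩
    exact (ana_comp (B := fun y => G y * K y) hw hS.1 h
      ((hG.mul hK).analyticAt _)).continuousAt.eventually_ne
        (by simpa using mul_ne_zero (nG z h) (nK z h))
  have h4 := curry' e.isCompact_circ ((sheet hS).and h3)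
  filter_upwards [mem_nhdsWithin_of_mem_nhds h2, mem_nhdsWithin_of_mem_nhds h4,
    self_mem_nhdsWithin] with ε a b c
  refine (((HasWind.const (a := ε) c).mul (wl.mul a)).congr ?_).cast (by rw [hk]; ring)
  filter_upwards [b] with z h _
  obtain ⟨h5, h6⟩ := h
  have h7 : C (z, e.w z + ε * d (z, ε)) = ε * (q (z, e.w z + ε * d (z, ε)) /
      (G (z, e.w z + ε * d (z, ε)) * K (z, e.w z + ε * d (z, ε)))) := by
    rw [← mul_div_assoc, eq_div_iff h6]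
    simp only [pen] at h5
    linear_combination h5
  show lam z * (dw _ (z, e.w z + ε * d (z, ε)) * C (z, e.w z + ε * d (z, ε))) = _
  rw [h7]; ring

/-- an end of the curve `K` -/
theorem right (hE : St_WEXT) {C K G q : E → ℂ} {e : End} {d : ℂ × ℂ → ℂ}
    {lam : ℂ → ℂ} {kG kC a : ℤ} (hC : IsPoly C) (hK : IsPoly K) (hG : IsPoly G) (hq : IsPoly q)
    (ho : e.ok) (hw : AnalyticOnNhd ℂ e.w e.circ) (hz : ∀ᶠ z in 𝓝ˢ e.circ, K (z, e.w z) = 0)
    (nK : ∀ z ∈ e.circ, dw K (z, e.w z) ≠ 0) (nC : ∀ z ∈ e.circ, C (z, e.w z) ≠ 0)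
    (nG : ∀ z ∈ e.circ, G (z, e.w z) ≠ 0)
    (hS : SheetFam (pen (fun x => G x * K x * C x) q) e.w e.circ d)
    (wG : HasWind e (e.res G) kG) (wC : HasWind e (e.res C) kC)
    (wl : HasWind e (fun z => lam z * e.res (fun y => dw K y * C y) z) a) :
    ∀ᶠ ε in 𝓝[≠] (0 : ℂ), HasWind e (fun z => lam z * (e.pert d ε).res
      (fun y => dw (pen (fun x => G x * K x * C x) q ε) y * C y) z) (a + kG + kC) := by
  obtain ⟨kD, wD⟩ := ex_wind hE ho (End.analyticOnNhd_res (hK.dw.mul hC) hw)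
    fun z h => mul_ne_zero (nK z h) (nC z h)
  have w1 : HasWind e lam (a - kD) := by
    refine (wl.div wD).congr ?_
    filter_upwards [wD.ne_zero] with z h h'
    rw [mul_div_assoc, div_self (h h'), mul_one]
  have h1 : ∀ᶠ z in 𝓝ˢ e.circ, dw (fun x => G x * K x * C x) (z, e.w z) * C (z, e.w z) =
      dw K (z, e.w z) * C (z, e.w z) * G (z, e.w z) * C (z, e.w z) := by
    filter_upwards [hz] with z h
    rw [dw3 hC hK hG, h]; ring
  have h2 := fam (B := C) (k := kD + kG + kC) hw hS.1 ((hG.mul hK).mul hC) hq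
    (fun z _ => hC.analyticAt _)
    (fun z h => by
      rw [h1.self_of_nhdsSet z h]
      exact mul_ne_zero (mul_ne_zero (mul_ne_zero (nK z h) (nC z h)) (nG z h)) (nC z h))
    (((wD.mul wG).mul wC).congr (by filter_upwards [h1] with z h _ using h))
  filter_upwards [mem_nhdsWithin_of_mem_nhds h2] with ε h
  exact (w1.mul h).cast (by ring)

end Ta

theorem st_ta (hU : St_WUNI) (hE : St_WEXT) (hA : St_ARG2) : St_TA := by
  intro ι κ _ _ C K G q Γ Γ' e e' Nd Nd' d lam TK hC hK oC oK hG hq nG sK sC sq hS hl hT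
  obtain ⟨kq, wq, eq⟩ := hA ι C q Γ e Nd' hC oC hq sq
  obtain ⟨kK, wK, eK⟩ := hA ι C K Γ e Nd hC oC hK.poly sK
  obtain ⟨kG, wG, eG⟩ := hA ι C G Γ e ∅ hC oC hG
    ⟨fun y hy h => absurd h (nG y (Or.inl hy)), fun y hy => absurd hy (Finset.notMem_empty y)⟩
  obtain ⟨kC, wC, eC⟩ := hA κ K C Γ' e' Nd hK oK hC.poly sC
  obtain ⟨kH, wH, eH⟩ := hA κ K G Γ' e' ∅ hK oK hG
    ⟨fun y hy h => absurd h (nG y (Or.inr hy)), fun y hy => absurd hy (Finset.notMem_empty y)⟩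
  obtain ⟨a, wa, ea⟩ := hT
  have h1 : ∀ j, ∀ᶠ ε in 𝓝[≠] (0 : ℂ), HasWind ((Sum.elim e e' j).pert (d j) ε)
      (fun z => lam j z * ((Sum.elim e e' j).pert (d j) ε).res
        (fun y => dw (pen (fun x => G x * K x * C x) q ε) y * C y) z)
      (Sum.elim (fun j => 2 * kq j - kG j - kK j) (fun j => a j + kH j + kC j) j) := by
    rintro (j | j)
    · obtain ⟨k, w1, w2⟩ := hl j
      exact Ta.left hU hE hC.poly hK.poly hG hq (hC.ok j) (hC.wan j) (hC.wz j) (hC.wreg j)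
        (fun z hz => Ta.ne_of_simple hC sK j hz)
        (fun z hz => nG _ (Or.inl (hC.mem_of_circ j hz)))
        (fun z hz => Ta.ne_of_simple hC sq j hz) (hS (Sum.inl j)) (wq j) (wG j) (wK j) w1 w2
    · exact Ta.right hE hC.poly hK.poly hG hq (hK.ok j) (hK.wan j) (hK.wz j) (hK.wreg j)
        (fun z hz => Ta.ne_of_simple hK sC j hz)
        (fun z hz => nG _ (Or.inr (hK.mem_of_circ j hz))) (hS (Sum.inr j)) (wH j) (wC j) (wa j)
  filter_upwards [eventually_all.2 h1] with ε h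
  refine ⟨_, h, ?_⟩
  rw [Fintype.sum_sum_type]
  simp only [Sum.elim_inl, Sum.elim_inr, Finset.sum_sub_distrib, Finset.sum_add_distrib,
    ← Finset.mul_sum, eq, eK, eG, eC, eH, ea, Finset.card_empty]
  push_cast
  ring

end Pool.Agent.CF
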