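import Pool.Agent.Lib.CF.AlgB
import Pool.Agent.Lib.CF.All2
import Pool.Agent.Lib.CF.B_TA

open Set Metric Filter Topology

namespace Pool.Agent.CF

namespace Spla

variable {C K : Cv} {Nd Nd' : Finset E} {TC TK : ℤ} {D : ℕ} {G q : E → ℂ} {Sig : Finset ℂ}
  {r1 h : ℝ} {s t : C.ι → ℝ} {d : C.ι ⊕ K.ι → ℂ × ℂ → ℂ} {lam : C.ι → ℂ → ℂ}

theorem card (hA : Alg C K Nd TC TK D) (hS : SplitIn C K Nd Nd' G q Sig r1 h s t d lam) :
    (Nd'.card : ℤ) = TC := by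
  have hC := hA.hC.curve
  have hK := hA.hK.curve
  obtain ⟨k0, a1, a2⟩ := hA.hC.tot
  obtain ⟨kq, b1, b2⟩ := all_arg2 _ C.P q C.Γ C.e Nd' hC hA.hC.off.1 hS.pq hS.qz
  choose k c1 c2 using hS.dir
  have hz := (hA.nodal.simpleZ hC hK hA.off).1
  choose kW d1 using fun j => exists_wind all_wext (hC.ok j) (hC.poly.dw.mul hK.poly) (hC.wan j)
    fun z hz' => mul_ne_zero (hC.wreg j z hz') fun h0 =>
      (hz.2 _ (hz.1 _ (hC.mem_of_circ j hz') h0)).2.2.2.2 j hz'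
  have e1 : ∀ j, k0 j = k j + kW j := fun j =>
    st_wuni _ _ _ _ (hC.ok j) (a1 j) ((c1 j).mul (d1 j))
  have g1 : ∀ j, HasWind (C.e j) ((C.e j).res G) (kq j - (k j + kW j)) := fun j => by
    refine ((b1 j).div ((c2 j).mul (d1 j))).congr ?_
    filter_upwards [(c2 j).ne_zero, (d1 j).ne_zero, (b1 j).ne_zero] with z h1 h3 h4 hz
    have h5 := h1 hz
    have h7 := h3 hz
    have h8 := h4 hz
    simp only [End.res, Cv.sec] at h5 h7 h8 ⊢
    have h9 : G (z, (C.e j).w z) ≠ 0 := fun h => h5 (by simp [h])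
    have h10 := left_ne_zero_of_mul h7
    have h11 := right_ne_zero_of_mul h7
    field_simp
  have g2 := all_arg _ C.P G C.Γ C.e ∅ _ hC hA.hC.off.1 (fun y _ => hS.pG.analyticAt y)
    (fun y hy h => Or.inr (hS.gC y hy h)) (by simp) g1
  simp only [← e1, Finset.sum_sub_distrib, Finset.card_empty, a2, b2] at g2
  push_cast at g2
  linarith

theorem curve (hA : Alg C K Nd TC TK D) (hS : SplitIn C K Nd Nd' G q Sig r1 h s t d lam) :
    IsCurve C.P (C.cut s t r1 h) fun j => (C.e j).adj (s j) (t j) :=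
  all_move _ _ _ _ _ _ _ s t hA.hC.curve hS.geo hS.st

theorem sub (hA : Alg C K Nd TC TK D) (hS : SplitIn C K Nd Nd' G q Sig r1 h s t d lam) :
    C.cut s t r1 h ⊆ C.Γ :=
  hS.geo.cut_subset hA.hC.curve fun j hk => (hS.loop j hk).1.le

theorem circ (hA : Alg C K Nd TC TK D) (hS : SplitIn C K Nd Nd' G q Sig r1 h s t d lam) (j : C.ι) :
    ((C.e j).adj (s j) (t j)).circ ⊆ (C.e j).near (2 * h) (2 * r1) :=
  (End.adj_circ_subset (hA.hC.curve.ok j) (hS.st j).1 (hS.st j).2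
    (by linarith [hS.geo.r1pos])).trans (hS.geo.nearO_sub j)

theorem off (hA : Alg C K Nd TC TK D) (hS : SplitIn C K Nd Nd' G q Sig r1 h s t d lam) {b : ℂ}
    (hb : b ∈ Sig) (j : C.ι) : b ∉ ((C.e j).adj (s j) (t j)).circ := fun a =>
  hS.geo.not_near hb j (circ hA hS j a)

theorem mem (hS : SplitIn C K Nd Nd' G q Sig r1 h s t d lam) {y : E} (hy : y ∈ C.Γ)
    (hb : y.1 ∈ Sig) : y ∈ C.cut s t r1 h :=
  hS.geo.mem_moved hy fun j a => absurd (hS.geo.nearO_sub j a.1) (hS.geo.not_near hb j)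

theorem simple (hA : Alg C K Nd TC TK D) (hS : SplitIn C K Nd Nd' G q Sig r1 h s t d lam)
    {H : E → ℂ} {Z : Finset E} (hZ : SimpleZ C.P H C.Γ C.e Z) (h1 : ∀ y ∈ Z, y.1 ∈ Sig) :
    SimpleZ C.P H (C.cut s t r1 h) (fun j => (C.e j).adj (s j) (t j)) Z :=
  ⟨fun y hy => hZ.1 y (sub hA hS hy), fun y hy =>
    ⟨mem hS (hZ.2 y hy).1 (h1 y hy), (hZ.2 y hy).2.1, (hZ.2 y hy).2.2.1, (hZ.2 y hy).2.2.2.1,
      off hA hS (h1 y hy)⟩⟩

/-- the cut curve has no point over the open hole -/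
theorem hole (hA : Alg C K Nd TC TK D) (hS : SplitIn C K Nd Nd' G q Sig r1 h s t d lam) {j : C.ι}
    (hk : (C.e j).k = Kind.pt) {y : E} (hy : y ∈ C.cut s t r1 h) : t j ≤ ‖y.1 - (C.e j).c‖ := by
  by_contra a
  have h1 : y.1 ∈ closedBall (C.e j).c (t j) := mem_closedBall_iff_norm.2 (not_le.1 a).le
  have h2 := hS.geo.side_of_moved hy (j := j)
    ⟨by rw [End.nearO_pt hk]; exact closedBall_subset_ball (hS.st j).2 h1,
      (hS.port j hk).2.only y (sub hA hS hy) h1⟩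
  beta_reduce at h2
  rw [End.adj_pt hk (hS.port j hk).1, End.side_hole] at h2
  exact a h2

theorem gne (hA : Alg C K Nd TC TK D) (hS : SplitIn C K Nd Nd' G q Sig r1 h s t d lam) :
    ∀ y ∈ C.cut s t r1 h ∪ K.Γ, G y ≠ 0 := by
  rintro y (hy | hy) h0
  · obtain ⟨j, hk, e⟩ := hS.gC y (sub hA hS hy) h0
    have := hole hA hS hk hy
    rw [e] at this
    simp at this; linarith [(hS.port j hk).1]
  · exact hS.gK y hy h0

theorem nodal (hA : Alg C K Nd TC TK D) (hS : SplitIn C K Nd Nd' G q Sig r1 h s t d lam) :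
    Nodal C.P K.P (C.cut s t r1 h) K.Γ (fun j => (C.e j).adj (s j) (t j)) K.e Nd := by
  refine ⟨fun y hy => ?_, fun y hy => hA.nodal.left y (sub hA hS hy), hA.nodal.right⟩
  obtain ⟨a, b, c, e, f, -, g⟩ := hA.nodal.node y hy
  exact ⟨mem hS a (hS.sig.2.1 y hy), b, c, e, f,
    fun ⟨j, hj⟩ => off hA hS (hS.sig.2.1 y hy) j hj.1, g⟩

theorem pt (hA : Alg C K Nd TC TK D) (hS : SplitIn C K Nd Nd' G q Sig r1 h s t d lam) :
    ∃ y ∈ C.cut s t r1 h, ‖y.1‖ < 1 / 5 := by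
  obtain ⟨y, hy, h1⟩ := hA.pt
  refine ⟨y, hS.geo.mem_moved hy fun j hj => ?_, h1⟩
  by_cases hk : (C.e j).k = Kind.pt
  · rw [End.adj_pt hk (hS.port j hk).1, End.side_hole]
    by_contra a
    have := (hS.port j hk).2.norm_gt hA.hC.norm_c.2 (mem_closedBall_iff_norm.2 (not_le.1 a).le)
    linarith
  · have h2 := hj.1
    rw [End.nearO_loop hk] at h2
    have hr := (hA.hC.curve.ok j).pos hk
    rw [End.adj_loop hk, End.side_move hk hr h2.1]
    by_contra a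
    have h3 : (C.e j).side y.1 := by
      refine (hS.geo.mem j (hS.geo.nearO_sub j hj.1)).1 ?_
      rw [← hj.2]; exact hy
    have := (hS.loop j hk).2.1 y.1 ⟨h2.1, (End.side_iff hk hr h2.1).1 h3, (not_le.1 a).le⟩
    linarith

variable {Γε : ℂ → Set E} {Br : Set E}

theorem dw_pen {F0 F1 : E → ℂ} (h0 : IsPoly F0) (h1 : IsPoly F1) (ε : ℂ) (y : E) :
    dw (pen F0 F1 ε) y = dw F0 y - ε * dw F1 y := by
  unfold pen
  rw [dw_sub (h0.differentiableAt y) ((IsPoly.const ε).mul h1 |>.differentiableAt y),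
    dw_mul (differentiableAt_const _) (h1.differentiableAt y)]
  simp

/-- ports of `K` stay private -/
theorem privK (hA : Alg C K Nd TC TK D)
    (hS : SplitIn C K Nd Nd' G q Sig r1 h s t d lam)
    (hO : SplitOut (C.pA K G q) (C.cut s t r1 h ∪ K.Γ) Br (C.ee K s t) d Γε) {p : ℂ} {ρ : ℝ}
    {w : ℂ → ℂ} {d' : ℂ × ℂ → ℂ} (hp : Priv K C p ρ w)
    (hf : SheetFam (C.pA K G q) w (closedBall p ρ) d') :
    ∀ᶠ ε in 𝓝[≠] (0 : ℂ),
      Priv (C.split K G q s t d lam Γε ε) C p ρ fun z => w z + ε * d' (z, ε) := by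
  have hZ := isCompact_closedBall p ρ
  have hC := hA.hC.curve
  have hK := hA.hK.curve
  obtain ⟨σ, hσ, N, hN, h1⟩ := hf.sheet hZ
  obtain ⟨N1, hN1, hN1c, hN1s⟩ : ∃ N1 ∈ 𝓝ˢ (closedBall p ρ), IsCompact N1 ∧ N1 ⊆ N := by
    obtain ⟨U, a, b, c⟩ := mem_nhdsSet_iff_exists.1 hN
    obtain ⟨δ, e, f⟩ := hZ.exists_cthickening_subset_open a b
    exact ⟨_, cthickening_mem_nhdsSet _ e, hZ.cthickening, f.trans c⟩
  have hdc : ∀ z ∈ N1, ContinuousAt d' (z, 0) := fun z hz =>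
    (h1.self_of_nhds z (hN1s hz)).1.continuousAt
  have hZ1 : closedBall p ρ ⊆ N1 := subset_of_mem_nhdsSet hN1
  have hgr : IsCompact ((fun z => ((z, w z) : E)) '' closedBall p ρ) :=
    hZ.image_of_continuousOn (continuousOn_id.prodMk hp.an.continuousOn)
  obtain ⟨R, hR, h2⟩ := hO.inner _ hgr (by
    rintro _ ⟨z, hz, rfl⟩
    refine ⟨Or.inr (hp.mem z hz).1, ?_⟩
    rintro ⟨j | j, a, b⟩
    · exact hp.none _ (sub hA hS ((curve hA hS).ends_subset ⟨j, b⟩)) hz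
    · exact (hp.mem z hz).2.1 ⟨j, a, b⟩)
  obtain ⟨η, hη, h3⟩ := st_priv.1 (C.cut s t r1 h ∪ K.Γ) _ w
    ((curve hA hS).cpt.union hK.cpt) hZ hp.an.continuousOn (by
      rintro y (hy | hy) hz
      · exact absurd hz (hp.none y (sub hA hS hy))
      · exact hp.only y hy hz) σ hσ
  have hF : IsPoly fun x => G x * K.P x * C.P x := (hS.pG.mul hK.poly).mul hC.poly
  have h4 : ∀ᶠ ε in 𝓝 (0 : ℂ), ∀ z ∈ closedBall p ρ,
      dw (C.pA K G q ε) (z, w z + ε * d' (z, ε)) ≠ 0 := by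
    refine hZ.eventually_forall_of_forall_eventually fun z hz => ?_
    have a1 : ContinuousAt (fun x : ℂ × ℂ => ((x.2, w x.2 + x.1 * d' (x.2, x.1)) : E)) (0, z) := by
      have b1 := (hp.an z hz).continuousAt
      have b2 : ContinuousAt (fun x : ℂ × ℂ => d' (x.2, x.1)) (0, z) :=
        ContinuousAt.comp (g := d') (f := fun x : ℂ × ℂ => (x.2, x.1)) (hdc z (hZ1 hz))
          (by fun_prop)
      have b3 : ContinuousAt (fun x : ℂ × ℂ => w x.2) (0, z) :=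
        ContinuousAt.comp (g := w) (f := fun x : ℂ × ℂ => x.2) b1 (by fun_prop)
      exact continuousAt_snd.prodMk (b3.add (continuousAt_fst.mul b2))
    have a2 : ContinuousAt (fun x : ℂ × ℂ =>
        dw (fun x => G x * K.P x * C.P x) (x.2, w x.2 + x.1 * d' (x.2, x.1)) -
          x.1 * dw q (x.2, w x.2 + x.1 * d' (x.2, x.1))) (0, z) :=
      (hF.dw.continuous.continuousAt.comp a1).sub
        (continuousAt_fst.mul (hS.pq.dw.continuous.continuousAt.comp a1))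
    have a3 : dw (fun x => G x * K.P x * C.P x) (z, w z) ≠ 0 := by
      have b0 := hK.zero _ (hp.mem z hz).1
      rw [dw_mul ((hS.pG.mul hK.poly).differentiableAt _) (hC.poly.differentiableAt _),
        dw_mul (hS.pG.differentiableAt _) (hK.poly.differentiableAt _), b0]
      simp only [mul_zero, zero_add, zero_mul, add_zero]
      refine mul_ne_zero (mul_ne_zero (hS.gK _ (hp.mem z hz).1) (hp.mem z hz).2.2) fun b1 => ?_
      exact hp.none _ (hA.nodal.node _ (hA.nodal.right _ (hp.mem z hz).1 b1)).1 hz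
    filter_upwards [a2.eventually_ne (y := 0) (by simpa using a3)] with x hx
    rw [Cv.pA, dw_pen hF hS.pq]; exact hx
  filter_upwards [nhdsWithin_le_nhds h1, nhdsWithin_le_nhds (eventually_small hN1c hdc hσ),
    nhdsWithin_le_nhds (eventually_small hN1c hdc hR), h2, hO.close η hη, nhdsWithin_le_nhds h4,
    hO.curve] with ε a1 a2 a3 a4 a5 a6 a7
  have b1 : ∀ z ∈ N1, C.pA K G q ε (z, w z + ε * d' (z, ε)) = 0 := fun z hz =>
    ((a1 z (hN1s hz)).2 _ (a2 z hz).le).2 rfl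
  refine ⟨hp.ins, hp.far, fun z hz => (hp.an z hz).add (analyticAt_const.mul ?_),
    mem_of_superset hN1 b1, fun z hz => ?_, fun x hx hz => ?_, hp.none⟩
  · exact (a1 z (hN1s (hZ1 hz))).1.comp (f := fun z : ℂ => (z, ε))
      (analyticAt_id.prod analyticAt_const)
  · have := a4 (z, w z + ε * d' (z, ε)) (mem_thickening_iff.2 ⟨(z, w z), ⟨z, hz, rfl⟩, by
      simpa [Prod.dist_eq, dist_eq_norm, hR] using a3 z (hZ1 hz)⟩) (b1 z (hZ1 hz))
    exact ⟨this.1, this.2, a6 z hz⟩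
  · have c1 := ((a1 x.1 (hN1s (hZ1 hz))).2 (x.2 - w x.1) (h3 x (a5.1 hx) hz).le).1
      (by simpa using a7.zero x hx)
    rw [← c1]; ring

/-- ports of `C` are private for the new pair -/
theorem privC (hA : Alg C K Nd TC TK D)
    (hS : SplitIn C K Nd Nd' G q Sig r1 h s t d lam)
    (hO : SplitOut (C.pA K G q) (C.cut s t r1 h ∪ K.Γ) Br (C.ee K s t) d Γε) {j : C.ι}
    (hk : (C.e j).k = Kind.pt) {ρ : ℝ} (hρ : ρ < t j) :
    ∀ᶠ ε in 𝓝[≠] (0 : ℂ), Priv C (C.split K G q s t d lam Γε ε) (C.e j).c ρ (C.e j).w := by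
  have hp := (hS.port j hk).2
  have hs : closedBall (C.e j).c ρ ⊆ closedBall (C.e j).c (t j) :=
    closedBall_subset_closedBall hρ.le
  obtain ⟨η, hη, h3⟩ := st_priv.2 (C.cut s t r1 h ∪ K.Γ) (closedBall (C.e j).c ρ)
    ((curve hA hS).cpt.union hA.hK.curve.cpt) isClosed_closedBall (by
      rintro y (hy | hy) hz
      · have := hole hA hS hk hy
        rw [mem_closedBall_iff_norm] at hz; linarith
      · exact hp.none y hy (hs hz))
  filter_upwards [hO.close η hη] with ε a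
  exact ⟨hs.trans hp.ins, fun z hz => hp.far z (hs hz), hp.an.mono hs, nhdsSet_mono hs hp.zero,
    fun z hz => hp.mem z (hs hz), fun x hx hz => hp.only x hx (hs hz), fun x hx => h3 x (a.1 hx)⟩

theorem brsig (hA : Alg C K Nd TC TK D) (hS : SplitIn C K Nd Nd' G q Sig r1 h s t d lam) {y : E}
    (hy : y ∈ ({y | y ∈ C.cut s t r1 h ∧ dw C.P y = 0} ∪ {y | y ∈ K.Γ ∧ dw K.P y = 0} ∪ Nd :
      Set E)) : y.1 ∈ Sig ∧ ∀ j, y.1 ∉ (K.e j).circ := by
  rcases hy with (hy | hy) | hy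
  · exact ⟨hS.geo.br ⟨y, sub hA hS hy.1, hy.2, rfl⟩,
      hA.hC.off.2 _ ⟨y, sub hA hS hy.1, hy.2, rfl⟩⟩
  · exact ⟨hS.sig.1 ⟨y, hy.1, hy.2, rfl⟩, hA.hK.off.1 _ ⟨y, hy.1, hy.2, rfl⟩⟩
  · exact ⟨hS.sig.2.1 y hy, (hA.off y hy).2⟩

theorem nout (ε : ℂ) : (C.split K G q s t d lam Γε ε).nout = C.nout + K.nout := by
  classical
  unfold Cv.nout
  simp only [Finset.card_filter]
  erw [Fintype.sum_sum_type]
  congr 1
  refine Finset.sum_congr rfl fun j _ => ?_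
  exact if_congr (End.adj_out (e := C.e j) (s := s j) (t := t j)) rfl rfl

theorem ne_pt (hS : SplitIn C K Nd Nd' G q Sig r1 h s t d lam) (j : C.ι) :
    ((C.e j).adj (s j) (t j)).k ≠ Kind.pt := End.adj_ne_pt fun hk => (hS.port j hk).1

theorem alg (hA : Alg C K Nd TC TK D) (hS : SplitIn C K Nd Nd' G q Sig r1 h s t d lam)
    (hO : SplitOut (C.pA K G q) (C.cut s t r1 h ∪ K.Γ)
      ({y | y ∈ C.cut s t r1 h ∧ dw C.P y = 0} ∪ {y | y ∈ K.Γ ∧ dw K.P y = 0} ∪ Nd)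
      (C.ee K s t) d Γε) :
    ∀ᶠ ε in 𝓝[≠] (0 : ℂ),
      Alg (C.split K G q s t d lam Γε ε) C Nd' (2 * TC + TK) (2 * TC - Nd.card) (2 * D) := by
  have hC := hA.hC.curve
  have hK := hA.hK.curve
  have hc := curve hA hS
  have hcard := card hA hS
  have hz := hA.nodal.simpleZ hC hK hA.off
  have hCo : ∀ b ∈ Sig, ∀ j, b ∉ (C.e j).circ := fun b hb j a =>
    hS.geo.not_near hb j (hS.geo.nearO_sub j (End.circ_subset_nearO (hC.ok j)
      (by linarith [hS.geo.hpos]) (by linarith [hS.geo.r1pos]) a))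
  have hBr : IsCompact ({y | y ∈ C.cut s t r1 h ∧ dw C.P y = 0} ∪ {y | y ∈ K.Γ ∧ dw K.P y = 0} ∪
      Nd : Set E) :=
    (((st_fib _ _ _ _ hc).2.union (st_fib _ _ _ _ hK).2).union Nd.finite_toSet).isCompact
  have e1 := st_offp _ ((C.ι ⊕ K.ι) ⊕ C.ι) _ _ _ _ _ _
    (Sum.elim (fun j => (C.ee K s t j).circ) fun j => (C.e j).circ) hO hBr
    (by rintro (j | j) <;> exact isClosed_sphere) (by
      rintro y hy ((j | j) | j)
      · exact off hA hS (brsig hA hS hy).1 j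
      · exact (brsig hA hS hy).2 j
      · exact hCo _ (brsig hA hS hy).1 j)
  have e2 : ∀ᶠ ε in 𝓝[≠] (0 : ℂ), ∀ j, (K.e j).k = Kind.pt →
      Priv (C.split K G q s t d lam Γε ε) C (K.e j).c 0
        fun z => (K.e j).w z + ε * d (Sum.inr j) (z, ε) := by
    refine eventually_all.2 fun j => ?_
    by_cases hk : (K.e j).k = Kind.pt
    · refine (privK hA hS hO (hA.hK.priv j hk) ((hS.fam (Sum.inr j)).mono ?_)).mono fun _ a _ => a
      show closedBall (K.e j).c 0 ⊆ (K.e j).circ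
      rw [End.circ_pt (hK.ok j) hk, closedBall_zero]
    · exact Eventually.of_forall fun _ a => absurd a hk
  have e3 : ∀ᶠ ε in 𝓝[≠] (0 : ℂ), ∀ j, (C.e j).k = Kind.pt →
      Priv C (C.split K G q s t d lam Γε ε) (C.e j).c 0 (C.e j).w := by
    refine eventually_all.2 fun j => ?_
    by_cases hk : (C.e j).k = Kind.pt
    · exact (privC hA hS hO hk (hS.port j hk).1).mono fun _ a _ => a
    · exact Eventually.of_forall fun _ a => absurd a hk
  have e4 := st_ta st_wuni all_wext all_arg2 _ _ C.P K.P G q _ _ _ K.e Nd Nd' d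
    (Sum.elim lam K.lam) TK hc hK
    (fun b ⟨y, a, a', a''⟩ => off hA hS (hS.geo.br ⟨y, sub hA hS a, a', a''⟩)) hA.hK.off.1 hS.pG
    hS.pq (gne hA hS) (simple hA hS hz.1 hS.sig.2.1) hz.2 (simple hA hS hS.qz hS.sig.2.2) hS.fam
    (fun j => by rw [End.adj_res]; exact hS.new j) hA.hK.tot
  have e5 := st_nn _ _ _ C.P K.P G q _ _ C.Γ _ _ K.e C.e Nd Nd' d Γε hc hK (nodal hA hS) hS.pG
    hS.pq (gne hA hS) hS.qn (fun j => (hS.fam j).1) hO (sub hA hS)
    (fun y hy => ⟨hC.zero y hy, hS.qz.1 y hy⟩) fun y hy => by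
      obtain ⟨a, b, c, e, f⟩ := hS.qz.2 y hy
      exact ⟨mem hS a (hS.sig.2.2 y hy), b, c, e,
        fun ⟨j, hj⟩ => off hA hS (hS.sig.2.2 y hy) j hj.1, fun ⟨j, hj⟩ => f j hj.1⟩
  obtain ⟨y0, hy0, hy1⟩ := pt hA hS
  have hn := hA.num
  have hD := hA.nout
  filter_upwards [hO.curve, e1, e2, e3, e4, e5, hO.close _ (sub_pos.2 hy1), self_mem_nhdsWithin]
    with ε a0 a1 a2 a3 a4 a5 a6 a7
  refine ⟨⟨a0, hA.hK.out, hA.hK.cen, hA.hK.rad, ?_, ?_,
    ⟨fun b hb j => a1 b hb (Sum.inl j), fun b hb j => a1 b hb (Sum.inr j)⟩, ?_, ?_,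
      hcard ▸ a4⟩, ⟨hC, hA.hC.out, hA.hC.cen, hA.hC.rad, hA.hC.ins, hA.hC.big,
    ⟨hA.hC.off.1, ?_⟩, hA.hC.lam, a3, hcard ▸ all_tk _ C.P K.P G q _ _ Nd Nd' C.lam ε hC
      hA.hC.off.1 hK.poly hS.pG hS.pq a7 hz.1 hS.qz hS.gC hS.dir⟩, a5, fun y hy => ⟨?_,
      (hS.qz.2 y hy).2.2.2.2⟩, ⟨by rw [nout]; omega, by omega⟩, ⟨by omega, by omega, by omega⟩, ?_⟩
  · rintro (j | j) hj
    · show closedBall ((C.e j).adj (s j) (t j)).c ((C.e j).adj (s j) (t j)).r ⊆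
        ball K.c K.R ∪ ball C.c C.R
      by_cases hk : (C.e j).k = Kind.pt
      · rw [End.adj_pt hk (hS.port j hk).1]
        exact (hS.port j hk).2.ins.trans subset_union_right
      · rw [End.adj_loop hk, union_comm]; exact (hS.loop j hk).2.2
    · exact hA.hK.ins j fun e => hj (congrArg Sum.inr e)
  · rintro (j | j) z hz
    · change z ∈ ((C.e j).adj (s j) (t j)).circ at hz
      by_cases hk : (C.e j).k = Kind.pt
      · rw [End.adj_pt hk (hS.port j hk).1] at hz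
        linarith [(hS.port j hk).2.norm_gt hA.hC.norm_c.2 (sphere_subset_closedBall hz)]
      · rw [End.adj_loop hk] at hz
        exact (hS.loop j hk).2.1 z (End.sphere_subset_ann ((hC.ok j).pos hk)
          (right_mem_Icc.2 (hS.loop j hk).1.le) hz)
    · exact hA.hK.big j z hz
  · rintro (j | j)
    · obtain ⟨k, b, -⟩ := hS.new j
      exact ⟨k, b, fun e => absurd e (ne_pt hS j)⟩
    · exact hA.hK.lam j
  · rintro (j | j) hk
    · exact absurd hk (ne_pt hS j)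
    · exact a2 j hk
  · rintro b hb (j | j)
    · exact off hA hS (hS.geo.br hb) j
    · exact hA.hC.off.2 b hb j
  · rintro (j | j)
    · exact off hA hS (hS.sig.2.2 y hy) j
    · exact hS.qo y hy j
  · obtain ⟨x, hx, b⟩ := mem_thickening_iff.1 (a6.2.1 (Or.inl hy0))
    refine ⟨x, hx, ?_⟩
    have b1 : ‖y0.1 - x.1‖ ≤ dist y0 x := by rw [← dist_eq_norm]; exact le_max_left _ _
    have b2 := norm_sub_norm_le x.1 y0.1
    rw [norm_sub_rev] at b2
    linarith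

end Spla

/-- the split without growth: the new pair is the new curve and the old curve `C` -/
def St_SPL0 : Prop :=
  ∀ (C K : Cv) (Nd Nd' : Finset E) (TC TK : ℤ) (D : ℕ) (G q : E → ℂ) (Sig : Finset ℂ) (r1 h : ℝ)
    (s t : C.ι → ℝ) (d : C.ι ⊕ K.ι → ℂ × ℂ → ℂ) (lam : C.ι → ℂ → ℂ), Alg C K Nd TC TK D →
    SplitIn C K Nd Nd' G q Sig r1 h s t d lam →
    (Nd'.card : ℤ) = TC ∧ IsCurve C.P (C.cut s t r1 h) (fun j => (C.e j).adj (s j) (t j)) ∧
    C.cut s t r1 h ⊆ C.Γ ∧ (∀ y ∈ C.cut s t r1 h ∪ K.Γ, G y ≠ 0) ∧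
    ∃ Γε, SplitOut (C.pA K G q) (C.cut s t r1 h ∪ K.Γ)
        ({y | y ∈ C.cut s t r1 h ∧ dw C.P y = 0} ∪ {y | y ∈ K.Γ ∧ dw K.P y = 0} ∪ Nd)
        (C.ee K s t) d Γε ∧
      (∀ᶠ ε in 𝓝[≠] (0 : ℂ),
        Alg (C.split K G q s t d lam Γε ε) C Nd' (2 * TC + TK) (2 * TC - Nd.card) (2 * D)) ∧
      (∀ p ρ w d', Priv K C p ρ w → SheetFam (C.pA K G q) w (closedBall p ρ) d' →
        ∀ᶠ ε in 𝓝[≠] (0 : ℂ),
          Priv (C.split K G q s t d lam Γε ε) C p ρ fun z => w z + ε * d' (z, ε)) ∧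
      ∀ j, (C.e j).k = Kind.pt → ∀ ρ < t j, ∀ᶠ ε in 𝓝[≠] (0 : ℂ),
        Priv C (C.split K G q s t d lam Γε ε) (C.e j).c ρ (C.e j).w

theorem all_spl0 : St_SPL0 := by
  intro C K Nd Nd' TC TK D G q Sig r1 h s t d lam hA hS
  obtain ⟨Γε, hO⟩ := all_split _ _ C.P K.P G q _ _ _ K.e Nd d (Spla.curve hA hS) hA.hK.curve
    (Spla.nodal hA hS) (Finset.card_pos.1 (by have := hA.num.1; omega)) hS.pG hS.pq
    (Spla.gne hA hS) hS.qn hS.fam
  exact ⟨Spla.card hA hS, Spla.curve hA hS, Spla.sub hA hS, Spla.gne hA hS, Γε, hO,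
    Spla.alg hA hS hO, fun _ _ _ _ a b => Spla.privK hA hS hO a b,
    fun _ a _ b => Spla.privC hA hS hO a b⟩

end Pool.Agent.CF
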