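import Pool.Agent.Lib.CF.Defs

open Set Metric Filter Topology MeasureTheory

namespace Pool.Agent.CF

/-! ### A. planar potential theory -/

def St_TMC : Prop :=
  ∀ (c : ℂ) (r : ℝ) (f : ℂ → ℝ), 0 < r → ContinuousOn f (sphere c r) → ∀ η > 0,
    ∃ G : Polynomial ℂ, ∀ z ∈ sphere c r, |(G.eval z).re - f z| ≤ η

def St_USC : Prop :=
  ∀ (c : ℂ) (r : ℝ) (f : ℂ → ℝ) (B : ℝ), 0 < r → UpperSemicontinuousOn f (sphere c r) →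
    (∀ z ∈ sphere c r, |f z| ≤ B) → CircleIntegrable f c r ∧
      ∀ B', (∀ z ∈ sphere c r, f z ≤ B') → ∀ η > 0, ∃ g : ℂ → ℝ, Continuous g ∧
        (∀ z ∈ sphere c r, f z ≤ g z ∧ g z ≤ B') ∧
        Real.circleAverage g c r ≤ Real.circleAverage f c r + η

def St_TM : Prop :=
  ∀ (c : ℂ) (r : ℝ) (f : ℂ → ℝ) (B : ℝ), 0 < r → UpperSemicontinuousOn f (sphere c r) →
    (∀ z ∈ sphere c r, |f z| ≤ B) → ∀ η > 0, ∃ G : Polynomial ℂ,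
      (∀ z ∈ sphere c r, f z ≤ (G.eval z).re) ∧ (G.eval c).re ≤ Real.circleAverage f c r + η

def St_SMMP : Prop :=
  ∀ (u h : ℂ → ℝ) (U W : Set ℂ), IsOpen U → SM u U → IsCompact W → W ⊆ U → ContinuousOn h W →
    LRe h (interior W) → (∀ z ∈ W, z ∉ interior W → u z ≤ h z) → ∀ z ∈ W, u z ≤ h z

def St_SMD : Prop :=
  ∀ (u : ℂ → ℝ) (U : Set ℂ) (c : ℂ) (r : ℝ), IsOpen U → SM u U → 0 < r → closedBall c r ⊆ U →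
    u c ≤ Real.circleAverage u c r

def St_TC : Prop :=
  ∀ (u : ℂ → ℝ) (U : Set ℂ) (c : ℂ) (r0 r r1 : ℝ), IsOpen U → SM u U → 0 < r0 → r0 < r → r < r1 →
    {z | r0 ≤ ‖z - c‖ ∧ ‖z - c‖ ≤ r1} ⊆ U →
    Real.log (r1 / r0) * Real.circleAverage u c r ≤
      Real.log (r1 / r) * Real.circleAverage u c r0 + Real.log (r / r0) * Real.circleAverage u c r1

def St_POL0 : Prop :=
  ∀ (F : ℂ → ℝ) (c : ℂ) (a b : ℝ), 0 ≤ a → a ≤ b →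
    IntegrableOn F {z | a ≤ ‖z - c‖ ∧ ‖z - c‖ ≤ b} →
    IntervalIntegrable (fun ρ => ρ * Real.circleAverage F c ρ) volume a b ∧
      ∫ z in {z | a ≤ ‖z - c‖ ∧ ‖z - c‖ ≤ b}, F z =
        2 * Real.pi * ∫ ρ in a..b, ρ * Real.circleAverage F c ρ

def St_POL : Prop :=
  ∀ (e : End) (F : ℂ → ℝ) (γ : ℝ → ℝ) (a b : ℝ), e.k ≠ Kind.pt → 0 < e.r → a ≤ b →
    Continuous γ → IntegrableOn F (e.ann (Icc a b)) →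
    IntegrableOn (fun z => F z * (γ (e.dep z) / ‖z - e.c‖ ^ 2)) (e.ann (Icc a b)) ∧
    IntervalIntegrable (fun s => γ s * Real.circleAverage F e.c (e.rad s)) volume a b ∧
      ∫ z in e.ann (Icc a b), F z * (γ (e.dep z) / ‖z - e.c‖ ^ 2) =
        2 * Real.pi * ∫ s in a..b, γ s * Real.circleAverage F e.c (e.rad s)

def St_AREA : Prop :=
  ∀ (u : ℂ → ℝ) (U : Set ℂ) (c : ℂ) (r : ℝ), IsOpen U → SM u U → 0 < r → closedBall c r ⊆ U →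
    IntegrableOn u (closedBall c r) ∧ Real.pi * r ^ 2 * u c ≤ ∫ z in closedBall c r, u z

def St_DIST : Prop :=
  ∀ (u ψ : ℂ → ℝ) (U K : Set ℂ), IsOpen U → SM u U → IsCompact K → K ⊆ U → ContDiffOn ℝ 2 ψ U →
    (∀ z ∈ U, 0 ≤ ψ z) → (∀ z ∈ U, z ∉ K → ψ z = 0) →
    IntegrableOn (fun z => u z * lap ψ z) U ∧ 0 ≤ ∫ z in U, u z * lap ψ z

def St_RAD : Prop :=
  ∀ (e : End) (φ : ℝ → ℝ) (z : ℂ), 0 < e.r → ContDiff ℝ 2 φ → z ≠ e.c →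
    ContDiffAt ℝ 2 (fun x => φ (e.dep x)) z ∧
      lap (fun x => φ (e.dep x)) z = deriv (deriv φ) (e.dep z) / ‖z - e.c‖ ^ 2

def St_CUT : Prop :=
  ∃ β0 : ℝ, 0 < β0 ∧ ∀ t0 t1 l : ℝ, t0 < t1 → 0 < l → ∃ φ β : ℝ → ℝ, ContDiff ℝ 2 φ ∧
    Continuous β ∧ (∀ t, 0 ≤ β t ∧ β t ≤ β0 / (t1 - t0)) ∧ (∀ t, t ∉ Icc t0 t1 → β t = 0) ∧
    ∫ t in t0..t1, β t = 1 ∧ (∀ t, 0 ≤ φ t ∧ φ t ≤ 1) ∧ (∀ t ≤ t0 - l, φ t = 0) ∧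
    (∀ t, t1 ≤ t → φ t = 1) ∧ ∀ t, deriv (deriv φ) t = (β (t + l) - β t) / l

def St_LOW : Prop :=
  ∀ (e : End) (h : ℝ), e.k ≠ Kind.pt → 0 < e.r → 0 < h → ∃ Λ2 > 0,
    ∀ (v G : ℂ → ℝ) (C Λ : ℝ), SM v (e.ann (Ioo (h / 16) (2 * h))) →
      (∀ z ∈ e.ann (Ioo (h / 16) (2 * h)), v z ≤ C) → Integrable G → (∀ z, 0 ≤ G z) →
      (∀ z ∈ e.ann (Icc (7 * h / 8) h), C - v z ≤ G z) → ∫ z, G z ≤ Λ →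
      ∀ s ∈ Icc (5 * h / 8) (3 * h / 4), C - Real.circleAverage v e.c (e.rad s) ≤ Λ2 * Λ

/-! ### B. curves: topology, geometry, flux -/

def St_FIB : Prop :=
  ∀ (ι : Type) (P : E → ℂ) (Γ : Set E) (e : ι → End), IsCurve P Γ e →
    (∃ D : ℕ, ∀ z, (fib Γ z).Finite ∧ (fib Γ z).ncard ≤ D) ∧ {y | y ∈ Γ ∧ dw P y = 0}.Finite

def St_COLLAR : Prop :=
  ∀ (ι : Type) [Fintype ι] (Z : Set E) (N F : ι → Set E), IsPreconnected Z → (∀ j, IsOpen (N j)) →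
    (∀ j, IsClosed (F j)) → (∀ j, Z ∩ F j ⊆ N j) →
    (Pairwise fun i j => Disjoint (Z ∩ N i) (Z ∩ N j)) →
    (∀ j, IsPreconnected ((Z ∩ N j) \ F j)) → IsPreconnected (Z \ ⋃ j, F j)

def St_PUNC : Prop :=
  ∀ (ι : Type) [Fintype ι] (P : E → ℂ) (Γ : Set E) (e : ι → End) (T : Set E), IsCurve P Γ e →
    T.Finite → IsPreconnected ((Γ \ loops e) \ T)

def St_GEO : Prop :=
  ∀ (ι : Type) [Fintype ι] (P : E → ℂ) (Γ : Set E) (e : ι → End) (Sig : Finset ℂ), IsCurve P Γ e →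
    brv P Γ ⊆ Sig → Off (Sig : Set ℂ) e →
    ∃ δ > 0, ∀ r1 h, 0 < r1 → r1 < δ → 0 < h → h < δ → Geo P Γ e Sig r1 h

def St_REG : Prop :=
  ∀ (ι : Type) [Fintype ι] (P : E → ℂ) (Γ : Set E) (e : ι → End) (Sig : Finset ℂ) (r1 h : ℝ),
    IsCurve P Γ e → Geo P Γ e Sig r1 h →
    (∀ a ρ', 0 < a → a < 2 * h → 0 < ρ' → ρ' < 2 * r1 → IsPreconnected (reg Γ e Sig a 0 ρ') ∧
      ∀ ρ, 0 ≤ ρ → Graphs Γ (reg Γ e Sig a ρ ρ')) ∧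
    ∀ a ρ, 0 < a → a ≤ 2 * h → 0 < ρ → ρ ≤ 2 * r1 → IsCompact (core Γ e Sig ρ a)

def St_HAR : Prop :=
  ∀ (Γ K : Set E) (Ω : ℕ → Set E), Monotone Ω → (∀ n, Ω n ⊆ Γ ∧ Graphs Γ (Ω n)) →
    IsPreconnected (⋃ n, Ω n) → IsCompact K → K ⊆ ⋃ n, Ω n → ∃ (n : ℕ) (Λ : ℝ), 0 < Λ ∧
      ∀ (u : E → ℝ) (C : ℝ), 0 < C → SMc u (Ω n) → (∀ y ∈ Ω n, u y ≤ C) → (∃ y ∈ K, 0 ≤ u y) →
        ∃ G : ℂ → ℝ, Integrable G ∧ (∀ z, 0 ≤ G z) ∧ ∫ z, G z ≤ Λ * C ∧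
          ∀ (z : ℂ) (T : Finset ℂ), (∀ w ∈ T, (z, w) ∈ K) → ∑ w ∈ T, (C - u (z, w)) ≤ G z

def St_FLX : Prop :=
  ∀ (Γ Ω K : Set E) (u Ψ L : E → ℝ), (∀ z, (fib Γ z).Finite) → Ω ⊆ Γ → Graphs Γ Ω → IsCompact K →
    K ⊆ Ω → SMc u Ω → (∀ y ∈ Γ, 0 ≤ Ψ y) → (∀ y ∈ Γ, y ∉ K → Ψ y = 0 ∧ L y = 0) →
    (∀ y ∈ Ω, ∀ g : ℂ → ℂ, AnalyticAt ℂ g y.1 → g y.1 = y.2 → (∀ᶠ z in 𝓝 y.1, (z, g z) ∈ Ω) →
      ContDiffAt ℝ 2 (fun z => Ψ (z, g z)) y.1 ∧ lap (fun z => Ψ (z, g z)) y.1 = L y) →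
    ∀ M : ℂ → ℝ, Integrable M → (∀ z, tr Γ (fun y => u y * L y) z ≤ M z) → 0 ≤ ∫ z, M z

/-- the in-loop of radius `r1` about a puncture -/
def punc (b : ℂ) (r1 : ℝ) : End := ⟨b, r1, Kind.inn, fun _ => 0⟩

/-- the radial weight `φ'' (dep z) / |z - c| ^ 2` on the annulus of depths `[a, b]` -/
noncomputable def wt (e : End) (φ : ℝ → ℝ) (a b : ℝ) : ℂ → ℝ :=
  (e.ann (Icc a b)).indicator fun z => deriv (deriv φ) (e.dep z) / ‖z - e.c‖ ^ 2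

def St_FTA : Prop :=
  ∀ (ι : Type) [Fintype ι] (P : E → ℂ) (Γ : Set E) (e : ι → End) (Sig : Finset ℂ) (r1 h r2 : ℝ)
    (u : E → ℝ) (φ1 φ2 : ℝ → ℝ), IsCurve P Γ e → Geo P Γ e Sig r1 h → 0 < r2 → r2 ≤ r1 / 64 →
    SMc u (reg Γ e Sig (h / 16) r2 r2) → ContDiff ℝ 2 φ1 → ContDiff ℝ 2 φ2 →
    (∀ t, 0 ≤ φ1 t ∧ φ1 t ≤ 1) → (∀ t, 0 ≤ φ2 t ∧ φ2 t ≤ 1) →
    (∀ t ≤ h / 8, φ1 t = 0) → (∀ t, 3 * h / 4 ≤ t → φ1 t = 1) →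
    (∀ t ≤ Real.log (2 * r2 / r1), φ2 t = 0) → (∀ t, 0 ≤ t → φ2 t = 1) →
    ∀ M : ℂ → ℝ, Integrable M →
      (∀ z, (∑ j, u (z, (e j).w z) *
          if (e j).k = Kind.pt then wt (punc (e j).c r1) φ2 (Real.log (2 * r2 / r1)) 0 z
          else wt (e j) φ1 (h / 8) (3 * h / 4) z) +
        ∑ b ∈ Sig, tr Γ u z * wt (punc b r1) φ2 (Real.log (2 * r2 / r1)) 0 z ≤ M z) →
      0 ≤ ∫ z, M z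

def St_FT0 : Prop :=
  ∃ c0 : ℝ, 0 < c0 ∧ ∀ (ι : Type) [Fintype ι] (P : E → ℂ) (Γ : Set E) (e : ι → End)
    (Sig : Finset ℂ) (r1 h r2 : ℝ) (u : E → ℝ) (κ : ι → ℝ) (κb : ℂ → ℝ) (C Λ S : ℝ) (G : ℂ → ℝ),
    IsCurve P Γ e → Geo P Γ e Sig r1 h → 0 < r2 → r2 ≤ r1 / 64 →
    SMc u (reg Γ e Sig (h / 16) r2 r2) → 0 ≤ C → 0 ≤ Λ → 0 ≤ S → (∀ j, |κ j| ≤ S) →
    (∀ b ∈ Sig, |κb b| ≤ S) → Integrable G → (∀ z, 0 ≤ G z) → ∫ z, G z ≤ Λ * r1 ^ 2 →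
    (∀ j, (e j).k ≠ Kind.pt → ∀ s ∈ Icc (5 * h / 8) (3 * h / 4),
      Real.circleAverage (fun z => u (z, (e j).w z)) (e j).c ((e j).rad (s - h / 2)) ≤
        Real.circleAverage (fun z => u (z, (e j).w z)) (e j).c ((e j).rad s) + κ j * (h / 2)) →
    (∀ j, (e j).k = Kind.pt → ∀ z,
      (2 * r2 ≤ ‖z - (e j).c‖ → ‖z - (e j).c‖ ≤ 4 * r2 →
        u (z, (e j).w z) ≤ C + κ j * Real.log (r1 / ‖z - (e j).c‖)) ∧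
      (r1 / 2 ≤ ‖z - (e j).c‖ → ‖z - (e j).c‖ ≤ r1 → -u (z, (e j).w z) ≤ G z)) →
    (∀ b ∈ Sig, ∀ z,
      (2 * r2 ≤ ‖z - b‖ → ‖z - b‖ ≤ 4 * r2 → tr Γ u z ≤ C + κb b * Real.log (r1 / ‖z - b‖)) ∧
      (r1 / 2 ≤ ‖z - b‖ → ‖z - b‖ ≤ r1 → -tr Γ u z ≤ G z)) →
    0 ≤ ∑ j, κ j + ∑ b ∈ Sig, κb b +
      (Fintype.card ι + Sig.card) * c0 * (C + Λ + S) / Real.log (r1 / (4 * r2))

def St_ENV : Prop :=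
  ∀ (X K O Ω : Set E) (φ : E → ℝ) (τ N B : ℝ), HULL.LM X K O → 0 < τ → tube Ω τ ⊆ O →
    LAbs φ (tube Ω τ) → (∀ x ∈ X, x ∈ K → x ∈ tube Ω τ → φ x = 0) →
    (∀ x ∈ X, x ∉ K → ∀ y ∈ Ω, y.1 = x.1 → ‖x.2 - y.2‖ ≠ τ) →
    (∀ x ∈ X, x ∈ tube Ω τ → φ x ≤ B) → SMc (env X φ τ N) Ω

def St_PART : Prop :=
  ∀ (ι : Type) [Fintype ι] (P : E → ℂ) (Γ : Set E) (e : ι → End) (Sig : Finset ℂ) (r1 h : ℝ),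
    IsCurve P Γ e → Geo P Γ e Sig r1 h → ∃ Λ > 0, ∀ C, 1 ≤ C → ∀ κ : ι → ℝ, ∑ j, κ j ≤ -1 / 8 →
    ∃ r20 > 0, ∀ r2, 0 < r2 → r2 ≤ r20 → ∀ (X K O : Set E) (τ : ℝ) (φ : E → ℝ), HULL.LM X K O →
      0 < τ → tube (reg Γ e Sig (h / 16) r2 r2) τ ⊆ O →
      LAbs φ (tube (reg Γ e Sig (h / 16) r2 r2) τ) →
      (∀ x ∈ X, x ∈ K → x ∈ tube (reg Γ e Sig (h / 16) r2 r2) τ → φ x = 0) →
      (∀ x ∈ X, x ∉ K → ∀ y ∈ reg Γ e Sig (h / 16) r2 r2, y.1 = x.1 → ‖x.2 - y.2‖ ≠ τ) →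
      (∀ x ∈ X, x ∈ tube (reg Γ e Sig (h / 16) r2 (r1 / 4)) τ → φ x ≤ Real.exp C) →
      (∀ j, (e j).k = Kind.pt → ∀ x ∈ X, r2 < ‖x.1 - (e j).c‖ → ‖x.1 - (e j).c‖ ≤ r1 / 4 →
        ‖x.2 - (e j).w x.1‖ ≤ τ → φ x ≤ Real.exp (C + κ j * Real.log (r1 / ‖x.1 - (e j).c‖))) →
      (∃ x ∈ X, x ∈ tube (core Γ e Sig r1 h) τ ∧ 1 ≤ φ x) →
      (∀ j, (e j).k ≠ Kind.pt → SLH (e j) X φ τ h C (Λ * C) (κ j)) → False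

/-! ### winding numbers and the argument principle -/

def St_WFAC : Prop :=
  ∀ (e : End) (W : ℂ → ℂ) (a b : ℝ), e.k ≠ Kind.pt → 0 < e.r →
    AnalyticOnNhd ℂ W (e.ann (Ioo a b)) → (∀ z ∈ e.ann (Ioo a b), W z ≠ 0) →
    ∃ (k : ℤ) (g : ℂ → ℂ), AnalyticOnNhd ℂ g (e.ann (Ioo a b)) ∧
      ∀ z ∈ e.ann (Ioo a b), W z = (z - e.c) ^ (-e.sgn * k) * Complex.exp (g z)

def St_WUNI : Prop :=
  ∀ (e : End) (W : ℂ → ℂ) (k k' : ℤ), e.ok → HasWind e W k → HasWind e W k' → k = k'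

def St_WEXT : Prop :=
  (∀ (e : End) (W : ℂ → ℂ), e.k ≠ Kind.pt → 0 < e.r → AnalyticOnNhd ℂ W e.circ →
    (∀ z ∈ e.circ, W z ≠ 0) → ∃ k, HasWind e W k) ∧
  (∀ (e : End) (W : ℂ → ℂ) (k : ℤ) (a b : ℝ), e.k ≠ Kind.pt → 0 < e.r → a < 0 → 0 < b →
    AnalyticOnNhd ℂ W (e.ann (Ioo a b)) → (∀ z ∈ e.ann (Ioo a b), W z ≠ 0) → HasWind e W k →
    ∃ g : ℂ → ℂ, AnalyticOnNhd ℂ g (e.ann (Ioo a b)) ∧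
      ∀ z ∈ e.ann (Ioo a b), W z = (z - e.c) ^ (-e.sgn * k) * Complex.exp (g z)) ∧
  (∀ (e : End) (W : ℂ → ℂ) (k : ℤ) (ρ : ℝ), e.k = Kind.pt → e.r = 0 →
    AnalyticOnNhd ℂ W (ball e.c ρ \ {e.c}) → (∀ z ∈ ball e.c ρ \ {e.c}, W z ≠ 0) → HasWind e W k →
    ∃ g : ℂ → ℂ, AnalyticOnNhd ℂ g (ball e.c ρ) ∧
      ∀ z ∈ ball e.c ρ \ {e.c}, W z = (z - e.c) ^ (-k) * Complex.exp (g z)) ∧
  ∀ (e : End) (g : ℂ → ℂ) (a b : ℝ), e.k ≠ Kind.pt → 0 < e.r →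
    AnalyticOnNhd ℂ g (e.ann (Ioo a b)) → ∀ s ∈ Ioo a b, ∀ s' ∈ Ioo a b,
      Real.circleAverage (fun z => (g z).re) e.c (e.rad s) =
        Real.circleAverage (fun z => (g z).re) e.c (e.rad s')

def St_TRZ : Prop :=
  ∀ (ι : Type) [Fintype ι] (P H : E → ℂ) (Γ : Set E) (e : ι → End) (b : ℂ) (Z : Finset ℂ),
    IsCurve P Γ e → AnalyticOnNhd ℂ H Γ → (∀ j, b ∉ (e j).circ) →
    (∀ w, w ∈ Z ↔ (b, w) ∈ Γ ∧ H (b, w) = 0) →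
    (∀ w ∈ Z, dw P (b, w) ≠ 0 ∧ jac H P (b, w) ≠ 0) →
    ∃ C, ∀ᶠ z in 𝓝[≠] b, |tr Γ (fun y => Real.log ‖H y‖) z - Z.card * Real.log ‖z - b‖| ≤ C

def St_ARG : Prop :=
  ∀ (ι : Type) [Fintype ι] (P H : E → ℂ) (Γ : Set E) (e : ι → End) (Z : Finset E) (k : ι → ℤ),
    IsCurve P Γ e → Off (brv P Γ) e → AnalyticOnNhd ℂ H Γ →
    (∀ y ∈ Γ, H y = 0 → y ∈ Z ∨ ∃ j, (e j).k = Kind.pt ∧ y = ((e j).c, (e j).w (e j).c)) →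
    (∀ y ∈ Z, y ∈ Γ ∧ H y = 0 ∧ dw P y ≠ 0 ∧ jac H P y ≠ 0 ∧ ∀ j, y.1 ∉ (e j).circ) →
    (∀ j, HasWind (e j) ((e j).res H) (k j)) → ∑ j, k j = Z.card

/-! ### C. tubes -/

def St_TUBE : Prop :=
  ∀ (ι : Type) [Fintype ι] (P : E → ℂ) (Γ : Set E) (e : ι → End) (Sig : Finset ℂ) (r1 h : ℝ),
    IsCurve P Γ e → Geo P Γ e Sig r1 h → ∀ τ > 0, ∃ R0 > 0, ∀ x ∈ thickening R0 Γ,
      x ∈ tube (core Γ e Sig r1 h) τ ∨ (∃ j, x ∈ tube ((e j).gr ((e j).near h r1)) τ) ∨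
        ∃ b ∈ Sig, ‖x.1 - b‖ < r1

def St_SHELL : Prop :=
  ∀ (ι : Type) [Fintype ι] (P : E → ℂ) (Γ Γ' : Set E) (e : ι → End) (Sig : Finset ℂ) (r1 h : ℝ),
    IsCurve P Γ e → Geo P Γ e Sig r1 h → IsCompact Γ' →
    ((∀ y ∈ Γ, y ∈ Γ' → y.1 ∈ Sig) → ∀ ρ > 0, ∃ τ0 > 0, ∀ τ' > 0, ∃ R0 > 0,
      ∀ x ∈ thickening R0 (Γ ∪ Γ'), ∀ y ∈ Γ, (∀ b ∈ Sig, ρ ≤ ‖y.1 - b‖) → y.1 = x.1 →
        ‖x.2 - y.2‖ ≤ τ0 → ‖x.2 - y.2‖ < τ') ∧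
    ∀ j, Disjoint Γ' ((e j).gr ((e j).near (2 * h) (2 * r1))) → ∃ τ0 > 0, ∀ τ' > 0, ∃ R0 > 0,
      ∀ x ∈ thickening R0 (Γ ∪ Γ'), x.1 ∈ (e j).near (2 * h) (2 * r1) →
        ‖x.2 - (e j).w x.1‖ ≤ τ0 →
          ‖x.2 - (e j).w x.1‖ < τ' ∧ ((e j).k ≠ Kind.pt → -τ' < (e j).dep x.1)

def St_VB : Prop :=
  ∀ (ι ι' : Type) [Fintype ι] [Fintype ι'] (P P' : E → ℂ) (Γ Γ' : Set E) (e : ι → End)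
    (e' : ι' → End) (Sig Sig' : Finset ℂ) (r1 h r1' h' : ℝ),
    IsCurve P Γ e → Geo P Γ e Sig r1 h → IsCurve P' Γ' e' → Geo P' Γ' e' Sig' r1' h' →
    (∀ y ∈ Γ, y ∈ Γ' → y.1 ∈ Sig ∧ y.1 ∈ Sig') → ∃ R1 > 0, ∀ R, 0 < R → R ≤ R1 → ∀ τ > 0,
      ∃ R0 > 0, ∀ x ∈ thickening R0 (Γ ∪ Γ'),
        x ∈ closure ({x | (∃ b ∈ Sig, ‖x.1 - b‖ < r1) ∧ x ∈ thickening R Γ} ∪
          {x | (∃ b ∈ Sig', ‖x.1 - b‖ < r1') ∧ x ∈ thickening R Γ'}) →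
        x ∈ {x : E | (∃ b ∈ Sig, ‖x.1 - b‖ < r1) ∧ x ∈ thickening R Γ} ∪
          {x | (∃ b ∈ Sig', ‖x.1 - b‖ < r1') ∧ x ∈ thickening R Γ'} ∨
        x ∈ tube (core Γ e Sig r1 h) τ ∨ x ∈ tube (core Γ' e' Sig' r1' h') τ

def St_MAXC : Prop :=
  ∀ (ι : Type) [Fintype ι] (P : E → ℂ) (Γ : Set E) (e : ι → End), IsCurve P Γ e →
    Γ ⊆ HULL.hull (loops e)

def St_ZNEAR : Prop :=
  ∀ (ι : Type) [Fintype ι] (P : E → ℂ) (Γ : Set E) (e : ι → End), IsCurve P Γ e → ∀ a > 0,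
    ∃ R0 > 0, ∀ x ∈ thickening R0 Γ, P x = 0 →
      x ∈ Γ ∨ ∃ j, (e j).k ≠ Kind.pt ∧ x ∈ (e j).gr ((e j).ann (Ioo (-a) 0))

/-! ### D. changing the ends -/

def St_ADDPT : Prop :=
  ∀ (ι κ : Type) [Fintype ι] [Fintype κ] (P : E → ℂ) (Γ : Set E) (e : ι → End) (p : κ → ℂ)
    (w : κ → ℂ → ℂ), IsCurve P Γ e → (Function.Injective fun k => (p k, w k (p k))) →
    (∀ k, (p k, w k (p k)) ∈ Γ ∧ (p k, w k (p k)) ∉ ends e ∧ dw P (p k, w k (p k)) ≠ 0 ∧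
      AnalyticAt ℂ (w k) (p k) ∧ ∀ᶠ z in 𝓝 (p k), P (z, w k z) = 0) →
    IsCurve P Γ (Sum.elim e fun k => ⟨p k, 0, Kind.pt, w k⟩)

def St_REIDX : Prop :=
  ∀ (ι κ : Type) (P : E → ℂ) (Γ : Set E) (e : ι → End) (σ : κ → ι), IsCurve P Γ e →
    Function.Injective σ → (∀ j, (e j).k ≠ Kind.pt → j ∈ range σ) → IsCurve P Γ (e ∘ σ)

def St_MOVE : Prop :=
  ∀ (ι : Type) [Fintype ι] (P : E → ℂ) (Γ : Set E) (e : ι → End) (Sig : Finset ℂ) (r1 h : ℝ)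
    (s t : ι → ℝ), IsCurve P Γ e → Geo P Γ e Sig r1 h → (∀ j, |s j| < 2 * h ∧ t j < 2 * r1) →
    IsCurve P (moved Γ e (fun j => (e j).adj (s j) (t j)) r1 h) fun j => (e j).adj (s j) (t j)

def St_GEN : Prop :=
  ∀ (ι : Type) [Fintype ι] (c : ι → ℂ) (r : ι → ℝ) (U : Set ℂ), IsOpen U → U.Nonempty →
    ∃ a ∈ U, ∀ j, a ∉ sphere (c j) (r j)

end Pool.Agent.CF
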