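import Pool.Agent.Lib.CF.Blue
import Pool.Agent.Lib.CF.Basic

open Set Metric Filter Topology

namespace Pool.Agent.CF

/-! ### E. the chain lemma -/

def St_CH1 : Prop :=
  ∀ (ι : Type) [Fintype ι] (C K : E → ℂ) (Γ : Set E) (e : ι → End) (y0 : E), IsCurve C Γ e →
    IsPoly K → y0 ∈ Γ → y0 ∉ loops e → dw C y0 ≠ 0 → K y0 ≠ 0 → ∃ N ∈ 𝓝 y0,
      ∀ y ∈ N, ∀ y' ∈ N, y ∈ Γ → y' ∈ Γ → ∀ h : E → ℂ, IsPoly h → (∀ x ∈ Γ, h x = 0 ↔ x = y) →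
        jac h C y ≠ 0 → ∃ D : E → ℂ, IsPoly D ∧ (∀ x ∈ Γ, h x + K x * D x = 0 ↔ x = y') ∧
          jac (fun x => h x + K x * D x) C y' ≠ 0 ∧ ∀ x ∈ loops e, ‖K x * D x‖ < ‖h x‖

def St_CHAIN : Prop :=
  ∀ (ι : Type) [Fintype ι] (C K : E → ℂ) (Γ : Set E) (e : ι → End) (y0 y : E), IsCurve C Γ e →
    IsPoly K → {x | x ∈ Γ ∧ K x = 0}.Finite → y0 ∈ Γ → y0 ∉ loops e → dw C y0 ≠ 0 → K y0 ≠ 0 →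
    (∀ x ∈ Γ, x.1 = y0.1 → x = y0) → y ∈ Γ → y ∉ loops e → dw C y ≠ 0 → K y ≠ 0 →
    ∃ D : E → ℂ, IsPoly D ∧ (∀ x ∈ Γ, x.1 - y0.1 + K x * D x = 0 ↔ x = y) ∧
      jac (fun x => x.1 - y0.1 + K x * D x) C y ≠ 0 ∧
      ∀ j k, (e j).k ≠ Kind.pt → HasWind (e j) (fun z => z - y0.1) k →
        HasWind (e j) ((e j).res fun x => x.1 - y0.1 + K x * D x) k

def St_WFIX : Prop :=
  ∀ (ι : Type) [Fintype ι] (C K : E → ℂ) (Γ : Set E) (e : ι → End) (Sig : Finset ℂ) (r1 h : ℝ)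
    (H : ι) (b0 : ℂ) (n : ι → ℤ), IsCurve C Γ e → Geo C Γ e Sig r1 h → IsPoly K →
    {x | x ∈ Γ ∧ K x = 0}.Finite →
    (∀ j, ∀ z ∈ (e j).near (2 * h) (2 * r1), K (z, (e j).w z) ≠ 0) → (e H).k = Kind.out →
    b0 ∈ (e H).ann (Ioo (-(2 * h)) 0) → (∀ w, (b0, w) ∉ Γ) →
    (∀ j, j ≠ H → ∀ z ∈ (e j).near (2 * h) (2 * r1), ‖z - (e j).c‖ < ‖b0 - (e j).c‖) →
    (∀ j, (e j).k = Kind.pt → n j = 0) → ∑ j, n j = 0 →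
    ∃ q G : E → ℂ, IsPoly q ∧ IsPoly G ∧ (∀ y, K y = 0 → y.1 ≠ b0 → q y ≠ 0 ∧ G y ≠ 0) ∧
      (∀ y ∈ Γ, q y ≠ 0 ∧ G y ≠ 0) ∧ ∀ j, HasWind (e j) ((e j).res fun y => q y / G y) (n j)

/-! ### F. smoothing the nodes -/

/-- two curves meeting transversally in the nodes `Nd` -/
structure Nodal {ι κ : Type} (C K : E → ℂ) (Γ Γ' : Set E) (e : ι → End) (e' : κ → End)
    (Nd : Finset E) : Prop where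
  node : ∀ y ∈ Nd, y ∈ Γ ∧ y ∈ Γ' ∧ dw C y ≠ 0 ∧ dw K y ≠ 0 ∧ jac K C y ≠ 0 ∧ y ∉ ends e ∧
    y ∉ ends e'
  left : ∀ y ∈ Γ, K y = 0 → y ∈ Nd
  right : ∀ y ∈ Γ', C y = 0 → y ∈ Nd

/-- the pencil `F0 - ε F1` -/
def pen (F0 F1 : E → ℂ) (ε : ℂ) (y : E) : ℂ := F0 y - ε * F1 y

/-- the end with the perturbed sheet -/
def End.pert (e : End) (d : ℂ × ℂ → ℂ) (ε : ℂ) : End := e.setW fun z => e.w z + ε * d (z, ε)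

/-- a curve which may be singular at the points of `Nd` -/
structure PreCurve {ι : Type} (P : E → ℂ) (Γ : Set E) (e : ι → End) (Nd : Set E) : Prop where
  poly : IsPoly P
  cpt : IsCompact Γ
  zero : ∀ y ∈ Γ, P y = 0
  grad : ∀ y ∈ Γ, y ∉ Nd → dz P y ≠ 0 ∨ dw P y ≠ 0
  ww : ∀ y ∈ Γ, dw P y = 0 → dw (dw P) y ≠ 0
  ok : ∀ j, (e j).ok
  wan : ∀ j, AnalyticOnNhd ℂ (e j).w (e j).circ
  wz : ∀ j, ∀ᶠ z in 𝓝ˢ (e j).circ, P (z, (e j).w z) = 0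
  wreg : ∀ j, ∀ z ∈ (e j).circ, dw P (z, (e j).w z) ≠ 0
  loc : ∀ j, ∀ z ∈ (e j).circ, ∀ᶠ y in 𝓝 (z, (e j).w z),
    (y ∈ Γ ↔ y.2 = (e j).w y.1 ∧ (e j).side y.1)
  int : ∀ y ∈ Γ, y ∉ loops e → ∀ᶠ x in 𝓝 y, P x = 0 → x ∈ Γ
  conn : IsPreconnected (Γ \ loops e)
  disj : Pairwise fun i j => Disjoint ((e i).gr (e i).circ) ((e j).gr (e j).circ)

/-- small boxes in which the zero set of `A ε` is connected and nonempty -/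
def LocConn (A : ℂ → E → ℂ) (y : E) : Prop :=
  ∀ N ∈ 𝓝 y, ∃ B, IsOpen B ∧ y ∈ B ∧ B ⊆ N ∧
    ∀ᶠ ε in 𝓝[≠] (0 : ℂ), IsPreconnected ({x | A ε x = 0} ∩ B) ∧ ({x | A ε x = 0} ∩ B).Nonempty

/-- the zero set of `A ε` is smooth near `y` -/
def LocSmooth (A : ℂ → E → ℂ) (y : E) : Prop :=
  ∃ N ∈ 𝓝 y, ∀ ε ≠ 0, ∀ x ∈ N, A ε x = 0 → dz (A ε) x ≠ 0 ∨ dw (A ε) x ≠ 0

def tubeO (e : End) (a σ : ℝ) : Set E := {y | y.1 ∈ e.nearO a a ∧ ‖y.2 - e.w y.1‖ < σ}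

/-- the perturbed curve -/
def pset {ι : Type} (F0 F1 : E → ℂ) (Γ : Set E) (e : ι → End) (R a σ : ℝ) (ε : ℂ) : Set E :=
  {y | y ∈ cthickening R Γ ∧ pen F0 F1 ε y = 0 ∧ ∀ j, y ∈ tubeO (e j) a σ → (e j).side y.1}

structure PData {ι : Type} (F0 F1 : E → ℂ) (Γ : Set E) (e : ι → End) (d : ι → ℂ × ℂ → ℂ)
    (R a σ : ℝ) : Prop where
  Rpos : 0 < R
  apos : 0 < a
  spos : 0 < σ
  wan : ∀ j, AnalyticOnNhd ℂ (e j).w ((e j).near a a)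
  wreg : ∀ j, ∀ z ∈ (e j).near a a, F0 (z, (e j).w z) = 0 ∧ dw F0 (z, (e j).w z) ≠ 0
  disj : Pairwise fun i j =>
    Disjoint (tube ((e i).gr ((e i).near a a)) σ) (tube ((e j).gr ((e j).near a a)) σ)
  loc : ∀ j, ∀ y ∈ tube ((e j).gr ((e j).near a a)) σ,
    (y ∈ Γ ↔ y.2 = (e j).w y.1 ∧ (e j).side y.1)
  zer : ∀ y ∈ cthickening R Γ, F0 y = 0 →
    y ∈ Γ ∨ ∃ j, y ∈ (e j).gr ((e j).nearO a a) ∧ ¬(e j).side y.1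
  dan : ∀ j, AnalyticOnNhd ℂ (d j) ((e j).near a a ×ˢ {0})
  sheet : ∀ᶠ ε in 𝓝 (0 : ℂ), ∀ j, ∀ z ∈ (e j).near a a, ∀ ν : ℂ, ‖ν‖ ≤ σ →
    (pen F0 F1 ε (z, (e j).w z + ν) = 0 ↔ ν = ε * d j (z, ε))

def St_UIFT : Prop :=
  ∀ (F0 F1 : E → ℂ) (w : ℂ → ℂ) (Z : Set ℂ), IsPoly F0 → IsPoly F1 → IsCompact Z →
    AnalyticOnNhd ℂ w Z → (∀ᶠ z in 𝓝ˢ Z, F0 (z, w z) = 0) → (∀ z ∈ Z, dw F0 (z, w z) ≠ 0) →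
    ∃ d, SheetFam (pen F0 F1) w Z d ∧ ∀ᶠ z in 𝓝ˢ Z, d (z, 0) = F1 (z, w z) / dw F0 (z, w z)

def St_LREG : Prop :=
  ∀ (F0 F1 : E → ℂ) (y : E), IsPoly F0 → IsPoly F1 → F0 y = 0 → dz F0 y ≠ 0 ∨ dw F0 y ≠ 0 →
    LocConn (pen F0 F1) y

def St_LNODE : Prop :=
  ∀ (C K G q : E → ℂ) (y : E), IsPoly C → IsPoly K → IsPoly G → IsPoly q → C y = 0 → K y = 0 →
    jac K C y ≠ 0 → G y ≠ 0 → q y ≠ 0 →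
    LocConn (pen (fun x => G x * K x * C x) q) y ∧ LocSmooth (pen (fun x => G x * K x * C x) q) y

def St_NERVE : Prop :=
  ∀ (Z0 Z : Set E) (W : ℂ → Set E) (l : Filter ℂ), IsCompact Z0 → Z ⊆ Z0 → Z0 ⊆ closure Z →
    IsPreconnected Z → (∀ y ∈ Z0, ∃ B, IsOpen B ∧ y ∈ B ∧ ∀ᶠ ε in l, IsPreconnected (W ε ∩ B)) →
    (∀ y ∈ Z, ∀ N ∈ 𝓝 y, ∀ᶠ ε in l, (W ε ∩ N).Nonempty) →
    (∀ η > 0, ∀ᶠ ε in l, W ε ⊆ thickening η Z0) → ∀ᶠ ε in l, IsPreconnected (W ε)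

def St_PRE : Prop :=
  ∀ (ι κ : Type) [Fintype ι] [Fintype κ] (C K G : E → ℂ) (Γ Γ' : Set E) (e : ι → End)
    (e' : κ → End) (Nd : Finset E), IsCurve C Γ e → IsCurve K Γ' e' → Nodal C K Γ Γ' e e' Nd →
    Nd.Nonempty → IsPoly G → (∀ y ∈ Γ ∪ Γ', G y ≠ 0) →
    PreCurve (fun x => G x * K x * C x) (Γ ∪ Γ') (Sum.elim e e') Nd

def St_PA : Prop :=
  ∀ (ι : Type) [Fintype ι] (F0 F1 : E → ℂ) (Γ Nd : Set E) (e : ι → End) (d : ι → ℂ × ℂ → ℂ),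
    PreCurve F0 Γ e Nd → (∀ j, SheetFam (pen F0 F1) (e j).w (e j).circ (d j)) →
    ∃ R a σ, PData F0 F1 Γ e d R a σ

def St_PB : Prop :=
  ∀ (ι : Type) [Fintype ι] (F0 F1 : E → ℂ) (Γ Nd : Set E) (e : ι → End) (d : ι → ℂ × ℂ → ℂ)
    (R a σ : ℝ), PreCurve F0 Γ e Nd → IsPoly F1 → PData F0 F1 Γ e d R a σ →
    (∀ η > 0, ∀ᶠ ε in 𝓝 (0 : ℂ), pset F0 F1 Γ e R a σ ε ⊆ thickening η Γ ∧
      ∀ y ∈ pset F0 F1 Γ e R a σ ε, dw (pen F0 F1 ε) y = 0 →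
        ∃ y0 ∈ Γ, dw F0 y0 = 0 ∧ dist y y0 < η) ∧
    (∀ a' > 0, ∃ R' > 0, ∀ᶠ ε in 𝓝 (0 : ℂ), ∀ y ∈ thickening R' Γ, pen F0 F1 ε y = 0 →
      y ∈ pset F0 F1 Γ e R a σ ε ∨
        ∃ j, (e j).k ≠ Kind.pt ∧ y ∈ ((e j).pert (d j) ε).gr ((e j).ann (Ioo (-a') 0))) ∧
    ∀ Z0, IsCompact Z0 → Z0 ⊆ Γ \ loops e → ∃ R' > 0, ∀ᶠ ε in 𝓝 (0 : ℂ),
      ∀ y ∈ thickening R' Z0, pen F0 F1 ε y = 0 →
        y ∈ pset F0 F1 Γ e R a σ ε \ loops fun j => (e j).pert (d j) ε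

def St_PD : Prop :=
  ∀ (ι : Type) [Fintype ι] (F0 F1 : E → ℂ) (Γ Nd : Set E) (e : ι → End) (d : ι → ℂ × ℂ → ℂ)
    (R a σ : ℝ), PreCurve F0 Γ e Nd → IsPoly F1 → PData F0 F1 Γ e d R a σ →
    (∀ y ∈ Γ, y ∉ loops e → LocConn (pen F0 F1) y) →
    (∀ᶠ ε in 𝓝[≠] (0 : ℂ),
      IsPreconnected (pset F0 F1 Γ e R a σ ε \ loops fun j => (e j).pert (d j) ε)) ∧
    ∀ η > 0, ∀ᶠ ε in 𝓝[≠] (0 : ℂ), Γ ⊆ thickening η (pset F0 F1 Γ e R a σ ε)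

def St_PC : Prop :=
  ∀ (ι : Type) [Fintype ι] (F0 F1 : E → ℂ) (Γ Nd : Set E) (e : ι → End) (d : ι → ℂ × ℂ → ℂ)
    (R a σ : ℝ), PreCurve F0 Γ e Nd → IsPoly F1 → PData F0 F1 Γ e d R a σ →
    (∀ y ∈ Γ, y ∈ Nd → LocSmooth (pen F0 F1) y) →
    ∀ᶠ ε in 𝓝[≠] (0 : ℂ),
      IsPreconnected (pset F0 F1 Γ e R a σ ε \ loops fun j => (e j).pert (d j) ε) →
      IsCurve (pen F0 F1 ε) (pset F0 F1 Γ e R a σ ε) fun j => (e j).pert (d j) ε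

/-- output of the split: `A ε = G K C - ε q`, the curves `Γε ε` -/
structure SplitOut {ι : Type} (A : ℂ → E → ℂ) (Γ0 Br : Set E) (e : ι → End)
    (d : ι → ℂ × ℂ → ℂ) (Γε : ℂ → Set E) : Prop where
  curve : ∀ᶠ ε in 𝓝[≠] (0 : ℂ), IsCurve (A ε) (Γε ε) fun j => (e j).pert (d j) ε
  close : ∀ η > 0, ∀ᶠ ε in 𝓝[≠] (0 : ℂ), Γε ε ⊆ thickening η Γ0 ∧ Γ0 ⊆ thickening η (Γε ε) ∧
    ∀ y ∈ Γε ε, dw (A ε) y = 0 → y ∈ thickening η Br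
  zer : ∀ a > 0, ∃ R > 0, ∀ᶠ ε in 𝓝[≠] (0 : ℂ), ∀ y ∈ thickening R Γ0, A ε y = 0 →
    y ∈ Γε ε ∨ ∃ j, (e j).k ≠ Kind.pt ∧ y ∈ ((e j).pert (d j) ε).gr ((e j).ann (Ioo (-a) 0))
  inner : ∀ Z0, IsCompact Z0 → Z0 ⊆ Γ0 \ loops e → ∃ R > 0, ∀ᶠ ε in 𝓝[≠] (0 : ℂ),
    ∀ y ∈ thickening R Z0, A ε y = 0 → y ∈ Γε ε \ loops fun j => (e j).pert (d j) ε

def St_SPLIT : Prop :=
  ∀ (ι κ : Type) [Fintype ι] [Fintype κ] (C K G q : E → ℂ) (Γ Γ' : Set E) (e : ι → End)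
    (e' : κ → End) (Nd : Finset E) (d : ι ⊕ κ → ℂ × ℂ → ℂ), IsCurve C Γ e → IsCurve K Γ' e' →
    Nodal C K Γ Γ' e e' Nd → Nd.Nonempty → IsPoly G → IsPoly q → (∀ y ∈ Γ ∪ Γ', G y ≠ 0) →
    (∀ y ∈ Nd, q y ≠ 0) →
    (∀ j, SheetFam (pen (fun x => G x * K x * C x) q) (Sum.elim e e' j).w (Sum.elim e e' j).circ
      (d j)) →
    ∃ Γε, SplitOut (pen (fun x => G x * K x * C x) q) (Γ ∪ Γ')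
      ({y | y ∈ Γ ∧ dw C y = 0} ∪ {y | y ∈ Γ' ∧ dw K y = 0} ∪ Nd) (Sum.elim e e') d Γε

/-- fibrewise closeness to a private sheet -/
def St_PRIV : Prop :=
  (∀ (Γ : Set E) (Z : Set ℂ) (w : ℂ → ℂ), IsCompact Γ → IsCompact Z → ContinuousOn w Z →
    (∀ y ∈ Γ, y.1 ∈ Z → y.2 = w y.1) → ∀ σ > 0, ∃ η > 0, ∀ x ∈ thickening η Γ, x.1 ∈ Z →
      ‖x.2 - w x.1‖ < σ) ∧
  ∀ (Γ : Set E) (Z : Set ℂ), IsCompact Γ → IsClosed Z → (∀ y ∈ Γ, y.1 ∉ Z) →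
    ∃ η > 0, ∀ x ∈ thickening η Γ, x.1 ∉ Z

end Pool.Agent.CF
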