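import Pool.Agent.Lib.CF.Blue2
import Pool.Agent.Lib.CF.Wind

open Set Metric Filter Topology

namespace Pool.Agent.CF

/-- total winding of a family of functions on the ends -/
def TotW {ι : Type} [Fintype ι] (e : ι → End) (W : ι → ℂ → ℂ) (T : ℤ) : Prop :=
  ∃ k : ι → ℤ, (∀ j, HasWind (e j) (W j) (k j)) ∧ ∑ j, k j = T

/-- `Z` is the set of zeros of `H` on `Γ`; they are simple, regular and lie over no circle -/
def SimpleZ {ι : Type} (P H : E → ℂ) (Γ : Set E) (e : ι → End) (Z : Finset E) : Prop :=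
  (∀ y ∈ Γ, H y = 0 → y ∈ Z) ∧
    ∀ y ∈ Z, y ∈ Γ ∧ H y = 0 ∧ dw P y ≠ 0 ∧ jac H P y ≠ 0 ∧ ∀ j, y.1 ∉ (e j).circ

/-- argument principle, existence form -/
def St_ARG2 : Prop :=
  ∀ (ι : Type) [Fintype ι] (P H : E → ℂ) (Γ : Set E) (e : ι → End) (Z : Finset E),
    IsCurve P Γ e → Off (brv P Γ) e → IsPoly H → SimpleZ P H Γ e Z →
    TotW e (fun j => (e j).res H) Z.card

/-- the number of points over a generic value is at most the number of out-loops -/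
def St_ZF : Prop :=
  ∀ (ι : Type) [Fintype ι] (P : E → ℂ) (Γ : Set E) (e : ι → End) (a : ℂ), IsCurve P Γ e →
    Off (brv P Γ) e → a ∉ brv P Γ → (∀ j, a ∉ (e j).circ) →
    ∃ Z : Finset E, SimpleZ P (fun y => y.1 - a) Γ e Z ∧
      Z.card ≤ (Finset.univ.filter fun j => (e j).k = Kind.out).card

/-- the secant: `Q0 = (z - a) q / (G ∏ (z - p))` has prescribed windings off the hub -/
def St_SEC : Prop :=
  ∀ (ι : Type) [Fintype ι] (C K : E → ℂ) (Γ : Set E) (e : ι → End) (Sig : Finset ℂ) (r1 h : ℝ)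
    (H : ι) (b0 a : ℂ) (Z : Finset E) (k : ι → ℤ), IsCurve C Γ e → Geo C Γ e Sig r1 h → IsPoly K →
    {x | x ∈ Γ ∧ K x = 0}.Finite →
    (∀ j, ∀ z ∈ (e j).near (2 * h) (2 * r1), K (z, (e j).w z) ≠ 0) → (e H).k = Kind.out →
    b0 ∈ (e H).ann (Ioo (-(2 * h)) 0) → (∀ w, (b0, w) ∉ Γ) →
    (∀ j, j ≠ H → ∀ z ∈ (e j).near (2 * h) (2 * r1), ‖z - (e j).c‖ < ‖b0 - (e j).c‖) →
    SimpleZ C (fun y => y.1 - a) Γ e Z →
    (∀ j, (e j).k = Kind.pt → k j = 1 ∧ ∀ y ∈ Γ, y.1 = (e j).c → y.2 = (e j).w (e j).c) →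
    ∃ q G : E → ℂ, IsPoly q ∧ IsPoly G ∧ (∀ y, K y = 0 → y.1 ≠ b0 → q y ≠ 0 ∧ G y ≠ 0) ∧
      (∀ y ∈ Γ, q y ≠ 0 ∧ G y ≠ 0) ∧
      (∀ j, j ≠ H → HasWind (e j) ((e j).res fun y => (y.1 - a) * q y /
        (G y * ∏ i ∈ Finset.univ.filter fun i => (e i).k = Kind.pt, (y.1 - (e i).c))) (k j)) ∧
      HasWind (e H) ((e H).res fun y => (y.1 - a) * q y /
        (G y * ∏ i ∈ Finset.univ.filter fun i => (e i).k = Kind.pt, (y.1 - (e i).c)))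
        (k H - (∑ j, k j - Z.card))

/-- the new pair `(A, C)` meets transversally in the zeros `Nd'` of `q` -/
def St_NN : Prop :=
  ∀ (ι κ μ : Type) [Fintype ι] [Fintype κ] (C K G q : E → ℂ) (Γ Γ' Γc Br : Set E) (e : ι → End)
    (e' : κ → End) (ec : μ → End) (Nd Nd' : Finset E) (d : ι ⊕ κ → ℂ × ℂ → ℂ) (Γε : ℂ → Set E),
    IsCurve C Γ e → IsCurve K Γ' e' → Nodal C K Γ Γ' e e' Nd → IsPoly G → IsPoly q →
    (∀ y ∈ Γ ∪ Γ', G y ≠ 0) → (∀ y ∈ Nd, q y ≠ 0) →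
    (∀ j, AnalyticOnNhd ℂ (d j) ((Sum.elim e e' j).circ ×ˢ {0})) →
    SplitOut (pen (fun x => G x * K x * C x) q) (Γ ∪ Γ') Br (Sum.elim e e') d Γε →
    Γ ⊆ Γc → (∀ y ∈ Γc, C y = 0 ∧ (q y = 0 → y ∈ Nd')) →
    (∀ y ∈ Nd', y ∈ Γ ∧ q y = 0 ∧ dw C y ≠ 0 ∧ jac q C y ≠ 0 ∧ y ∉ ends e ∧ y ∉ ends ec) →
    ∀ᶠ ε in 𝓝[≠] (0 : ℂ), Nodal (pen (fun x => G x * K x * C x) q ε) C (Γε ε) Γc
      (fun j => (Sum.elim e e' j).pert (d j) ε) ec Nd'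

/-- branch values of the new curve stay off any finite family of circles -/
def St_OFFP : Prop :=
  ∀ (ι μ : Type) [Fintype μ] (A : ℂ → E → ℂ) (Γ0 Br : Set E) (e : ι → End) (d : ι → ℂ × ℂ → ℂ)
    (Γε : ℂ → Set E) (Z : μ → Set ℂ), SplitOut A Γ0 Br e d Γε → IsCompact Br →
    (∀ i, IsClosed (Z i)) → (∀ y ∈ Br, ∀ i, y.1 ∉ Z i) →
    ∀ᶠ ε in 𝓝[≠] (0 : ℂ), ∀ b ∈ brv (A ε) (Γε ε), ∀ i, b ∉ Z i

/-- the number `T` of the new curve `A`: the directions `lam` on the ends of the cut curve have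
the winding of `q / (G K dw C)` -/
def St_TA : Prop :=
  ∀ (ι κ : Type) [Fintype ι] [Fintype κ] (C K G q : E → ℂ) (Γ Γ' : Set E) (e : ι → End)
    (e' : κ → End) (Nd Nd' : Finset E) (d : ι ⊕ κ → ℂ × ℂ → ℂ) (lam : ι ⊕ κ → ℂ → ℂ) (TK : ℤ),
    IsCurve C Γ e → IsCurve K Γ' e' → Off (brv C Γ) e → Off (brv K Γ') e' → IsPoly G → IsPoly q →
    (∀ y ∈ Γ ∪ Γ', G y ≠ 0) → SimpleZ C K Γ e Nd → SimpleZ K C Γ' e' Nd → SimpleZ C q Γ e Nd' →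
    (∀ j, SheetFam (pen (fun x => G x * K x * C x) q) (Sum.elim e e' j).w (Sum.elim e e' j).circ
      (d j)) →
    (∀ j, ∃ k, HasWind (e j) (lam (Sum.inl j)) k ∧
      HasWind (e j) ((e j).res fun y => q y / (G y * K y * dw C y)) k) →
    TotW e' (fun j z => lam (Sum.inr j) z * (e' j).res (fun y => dw K y * C y) z) TK →
    ∀ᶠ ε in 𝓝[≠] (0 : ℂ), TotW (fun j => (Sum.elim e e' j).pert (d j) ε)
      (fun j z => lam j z * ((Sum.elim e e' j).pert (d j) ε).res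
        (fun y => dw (pen (fun x => G x * K x * C x) q ε) y * C y) z) (2 * Nd'.card + TK)

/-- the number `T` of the old curve in its new role -/
def St_TK : Prop :=
  ∀ (ι : Type) [Fintype ι] (C K G q : E → ℂ) (Γ : Set E) (e : ι → End) (Nd Nd' : Finset E)
    (lam : ι → ℂ → ℂ) (ε : ℂ), IsCurve C Γ e → Off (brv C Γ) e → IsPoly K → IsPoly G → IsPoly q →
    ε ≠ 0 → SimpleZ C K Γ e Nd → SimpleZ C q Γ e Nd' →
    (∀ y ∈ Γ, G y = 0 → ∃ j, (e j).k = Kind.pt ∧ y = ((e j).c, (e j).w (e j).c)) →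
    (∀ j, ∃ k, HasWind (e j) (lam j) k ∧
      HasWind (e j) ((e j).res fun y => q y / (G y * K y * dw C y)) k) →
    TotW e (fun j z => lam j z * (e j).res
      (fun y => dw C y * pen (fun x => G x * K x * C x) q ε y) z) (2 * Nd'.card - Nd.card)

/-- conversion between `Nodal` and `SimpleZ` -/
theorem Nodal.simpleZ {ι κ : Type} {C K : E → ℂ} {Γ Γ' : Set E} {e : ι → End} {e' : κ → End}
    {Nd : Finset E} (h : Nodal C K Γ Γ' e e' Nd) (hC : IsCurve C Γ e) (hK : IsCurve K Γ' e')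
    (h1 : ∀ y ∈ Nd, (∀ j, y.1 ∉ (e j).circ) ∧ ∀ j, y.1 ∉ (e' j).circ) :
    SimpleZ C K Γ e Nd ∧ SimpleZ K C Γ' e' Nd := by
  refine ⟨⟨h.left, fun y hy => ?_⟩, h.right, fun y hy => ?_⟩
  · obtain ⟨a, b, c, -, f, -⟩ := h.node y hy
    exact ⟨a, hK.zero y b, c, f, (h1 y hy).1⟩
  · obtain ⟨a, b, -, c, f, -⟩ := h.node y hy
    refine ⟨b, hC.zero y a, c, fun g => f ?_, (h1 y hy).2⟩
    unfold jac at g ⊢; linear_combination -g

end Pool.Agent.CF
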