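import Pool.Agent.Lib.HULL.LM

open Set Metric Filter Topology

namespace Pool.Agent.CF

abbrev E := ℂ × ℂ

/-- partial derivative in the first variable -/
noncomputable def dz (F : E → ℂ) (y : E) : ℂ := deriv (fun z => F (z, y.2)) y.1

/-- partial derivative in the second variable -/
noncomputable def dw (F : E → ℂ) (y : E) : ℂ := deriv (fun w => F (y.1, w)) y.2

/-- `jac H P y / dw P y` is the derivative of `H` along the local graph of `P = 0` -/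
noncomputable def jac (H P : E → ℂ) (y : E) : ℂ := dz H y * dw P y - dw H y * dz P y

/-- polynomial functions of two variables -/
inductive IsPoly : (E → ℂ) → Prop
  | const (a : ℂ) : IsPoly fun _ => a
  | fst : IsPoly fun y => y.1
  | snd : IsPoly fun y => y.2
  | add {F G : E → ℂ} : IsPoly F → IsPoly G → IsPoly fun y => F y + G y
  | mul {F G : E → ℂ} : IsPoly F → IsPoly G → IsPoly fun y => F y * G y

inductive Kind
  | out
  | inn
  | pt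
  deriving DecidableEq

/-- an end of a curve: circle `(c, r)` (a point if `k = pt`, then `r = 0`) and the sheet `w` -/
structure End where
  c : ℂ
  r : ℝ
  k : Kind
  w : ℂ → ℂ

namespace End

def sgn (e : End) : ℤ := if e.k = Kind.out then -1 else 1

/-- depth; the curve side of a loop is `0 < dep` -/
noncomputable def dep (e : End) (z : ℂ) : ℝ := e.sgn * Real.log (‖z - e.c‖ / e.r)

/-- radius of the circle at depth `s` -/
noncomputable def rad (e : End) (s : ℝ) : ℝ := e.r * Real.exp (e.sgn * s)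

def ann (e : End) (I : Set ℝ) : Set ℂ := {z | z ≠ e.c ∧ e.dep z ∈ I}

def circ (e : End) : Set ℂ := sphere e.c e.r

def gr (e : End) (A : Set ℂ) : Set E := {y | y.1 ∈ A ∧ y.2 = e.w y.1}

/-- closed neighbourhood of the circle (depth at most `a`) or of the point (radius `ρ`) -/
def near (e : End) (a ρ : ℝ) : Set ℂ :=
  if e.k = Kind.pt then closedBall e.c ρ else e.ann (Icc (-a) a)

/-- open version of `near` -/
def nearO (e : End) (a ρ : ℝ) : Set ℂ :=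
  if e.k = Kind.pt then ball e.c ρ else e.ann (Ioo (-a) a)

/-- the closed curve side -/
def side (e : End) (z : ℂ) : Prop :=
  (e.k = Kind.out → ‖z - e.c‖ ≤ e.r) ∧ (e.k = Kind.inn → e.r ≤ ‖z - e.c‖)

def ok (e : End) : Prop := if e.k = Kind.pt then e.r = 0 else 0 < e.r

/-- the same end with another sheet -/
def setW (e : End) (w : ℂ → ℂ) : End := ⟨e.c, e.r, e.k, w⟩

/-- the loop moved to depth `s` -/
noncomputable def move (e : End) (s : ℝ) : End := ⟨e.c, e.rad s, e.k, e.w⟩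

/-- a point end replaced by an in-loop of radius `t` -/
def hole (e : End) (t : ℝ) : End := ⟨e.c, t, Kind.inn, e.w⟩

/-- loops are moved to depth `s`, point ends get a hole of radius `t` if `0 < t` -/
noncomputable def adj (e : End) (s t : ℝ) : End :=
  if e.k = Kind.pt then (if 0 < t then e.hole t else e) else e.move s

/-- restriction of a function to the sheet -/
def res (e : End) (H : E → ℂ) (z : ℂ) : ℂ := H (z, e.w z)

end End

/-- winding number with the boundary orientation, in relational form -/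
def HasWind (e : End) (W : ℂ → ℂ) (k : ℤ) : Prop :=
  ∃ g : ℂ → ℂ, AnalyticOnNhd ℂ g e.circ ∧
    ∀ᶠ z in 𝓝ˢ e.circ, z ≠ e.c → W z = (z - e.c) ^ (-e.sgn * k) * Complex.exp (g z)

def loops {ι : Type} (e : ι → End) : Set E :=
  {y | ∃ j, (e j).k ≠ Kind.pt ∧ y ∈ (e j).gr (e j).circ}

def ends {ι : Type} (e : ι → End) : Set E := {y | ∃ j, y ∈ (e j).gr (e j).circ}

/-- curve structure -/
structure IsCurve {ι : Type} (P : E → ℂ) (Γ : Set E) (e : ι → End) : Prop where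
  poly : IsPoly P
  cpt : IsCompact Γ
  zero : ∀ y ∈ Γ, P y = 0
  grad : ∀ y ∈ Γ, dz P y ≠ 0 ∨ dw P y ≠ 0
  ww : ∀ y ∈ Γ, dw P y = 0 → dw (dw P) y ≠ 0
  ok : ∀ j, (e j).ok
  wan : ∀ j, AnalyticOnNhd ℂ (e j).w (e j).circ
  wz : ∀ j, ∀ᶠ z in 𝓝ˢ (e j).circ, P (z, (e j).w z) = 0
  wreg : ∀ j, ∀ z ∈ (e j).circ, dw P (z, (e j).w z) ≠ 0
  loc : ∀ j, ∀ z ∈ (e j).circ, ∀ᶠ y in 𝓝 (z, (e j).w z),
    (y ∈ Γ ↔ y.2 = (e j).w y.1 ∧ (e j).side y.1)
  int : ∀ y ∈ Γ, y ∉ loops e → ∀ᶠ x in 𝓝 y, P x = 0 → x ∈ Γ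
  conn : IsPreconnected (Γ \ loops e)
  disj : Pairwise fun i j => Disjoint ((e i).gr (e i).circ) ((e j).gr (e j).circ)

/-- the values in `B` lie on no loop circle and are not point ends -/
def Off {ι : Type} (B : Set ℂ) (e : ι → End) : Prop := ∀ b ∈ B, ∀ j, b ∉ (e j).circ

/-- branch values -/
def brv (P : E → ℂ) (Γ : Set E) : Set ℂ := {b | ∃ y ∈ Γ, dw P y = 0 ∧ y.1 = b}

def fib (Γ : Set E) (z : ℂ) : Set ℂ := {w | (z, w) ∈ Γ}

/-- sum over the fibre -/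
noncomputable def tr (Γ : Set E) (f : E → ℝ) (z : ℂ) : ℝ := ∑ᶠ w ∈ fib Γ z, f (z, w)

structure Geo {ι : Type} (P : E → ℂ) (Γ : Set E) (e : ι → End) (Sig : Finset ℂ) (r1 h : ℝ) :
    Prop where
  r1pos : 0 < r1
  hpos : 0 < h
  br : brv P Γ ⊆ Sig
  dd : ∀ b ∈ Sig, ∀ b' ∈ Sig, b ≠ b' → 4 * r1 < ‖b - b'‖
  wan : ∀ j, AnalyticOnNhd ℂ (e j).w ((e j).near (2 * h) (2 * r1))
  wz : ∀ j, ∀ z ∈ (e j).near (2 * h) (2 * r1), P (z, (e j).w z) = 0 ∧ dw P (z, (e j).w z) ≠ 0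
  loc : ∀ j, ∀ z ∈ (e j).near (2 * h) (2 * r1), ∀ᶠ y in 𝓝 (z, (e j).w z),
    (y ∈ Γ ↔ y.2 = (e j).w y.1 ∧ (e j).side y.1)
  sig : ∀ j, ∀ z ∈ (e j).near (2 * h) (2 * r1), ∀ b ∈ Sig, 2 * r1 < ‖z - b‖
  disj : Pairwise fun i j => Disjoint ((e i).gr ((e i).near (2 * h) (2 * r1)))
    ((e j).gr ((e j).near (2 * h) (2 * r1)))

def core {ι : Type} (Γ : Set E) (e : ι → End) (Sig : Finset ℂ) (r1 h : ℝ) : Set E :=
  {y | y ∈ Γ ∧ (∀ b ∈ Sig, r1 ≤ ‖y.1 - b‖) ∧ ∀ j, y ∉ (e j).gr ((e j).nearO h r1)}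

/-- the points of `Γ` deeper than `a` at loops, further than `ρ` from `Sig` and further than
`ρ'` from the point ends -/
def reg {ι : Type} (Γ : Set E) (e : ι → End) (Sig : Finset ℂ) (a ρ ρ' : ℝ) : Set E :=
  {y | y ∈ Γ ∧ (∀ b ∈ Sig, ρ < ‖y.1 - b‖) ∧ ∀ j, y ∉ (e j).gr ((e j).near a ρ')}

/-- the curve cut or extended along the sheets: `e'` are the new ends -/
def moved {ι : Type} (Γ : Set E) (e e' : ι → End) (r1 h : ℝ) : Set E :=
  {y | (y ∈ Γ ∧ ∀ j, y ∉ (e j).gr ((e j).nearO (2 * h) (2 * r1))) ∨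
    ∃ j, y ∈ (e j).gr ((e j).near (2 * h) (2 * r1)) ∧ (e' j).side y.1}

/-- closed fibrewise tube -/
def tube (A : Set E) (τ : ℝ) : Set E := {x | ∃ y ∈ A, y.1 = x.1 ∧ ‖x.2 - y.2‖ ≤ τ}

/-- locally the real part of an analytic function -/
def LRe (h : ℂ → ℝ) (U : Set ℂ) : Prop :=
  ∀ z ∈ U, ∃ G : ℂ → ℂ, AnalyticAt ℂ G z ∧ ∀ᶠ x in 𝓝 z, h x = (G x).re

/-- locally the modulus of an analytic function -/
def LAbs (φ : E → ℝ) (U : Set E) : Prop :=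
  ∀ y ∈ U, ∃ G : E → ℂ, AnalyticAt ℂ G y ∧ ∀ᶠ x in 𝓝 y, φ x = ‖G x‖

/-- bounded subharmonic function -/
structure SM (u : ℂ → ℝ) (U : Set ℂ) : Prop where
  usc : UpperSemicontinuousOn u U
  bdd : ∃ B, ∀ z ∈ U, |u z| ≤ B
  sub : ∀ z ∈ U, ∀ᶠ r in 𝓝[>] (0 : ℝ), u z ≤ Real.circleAverage u z r

/-- bounded subharmonic function on a part of a curve -/
structure SMc (u : E → ℝ) (Ω : Set E) : Prop where
  bdd : ∃ B, ∀ y ∈ Ω, |u y| ≤ B
  sm : ∀ (U : Set ℂ) (g : ℂ → ℂ), IsOpen U → AnalyticOnNhd ℂ g U → (∀ z ∈ U, (z, g z) ∈ Ω) →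
    SM (fun z => u (z, g z)) U

/-- envelope of `φ` over the fibre discs, cut from below -/
noncomputable def env (X : Set E) (φ : E → ℝ) (τ N : ℝ) (y : E) : ℝ :=
  Real.log (max (sSup (φ '' {x | x ∈ X ∧ y.1 = x.1 ∧ ‖x.2 - y.2‖ ≤ τ})) (Real.exp (-N)))

/-- the slope property at a loop, the input of `St_PART` -/
def SLH (e : End) (X : Set E) (φ : E → ℝ) (τ h B Λ0 κ : ℝ) : Prop :=
  ∃ Λ1 : ℝ, ∀ s ∈ Icc (5 * h / 8) (3 * h / 4), ∀ f : ℂ → ℝ, Continuous f →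
    (∀ z ∈ sphere e.c (e.rad s), f z ≤ B) → -Λ0 ≤ Real.circleAverage f e.c (e.rad s) →
    (∀ x ∈ X, x.1 ∈ sphere e.c (e.rad s) → ‖x.2 - e.w x.1‖ ≤ τ → φ x ≤ Real.exp (f x.1)) →
    ∃ Bd : ℂ → ℝ, ContinuousOn Bd (sphere e.c (e.rad (s - h / 2))) ∧
      (∀ z ∈ sphere e.c (e.rad (s - h / 2)), -Λ1 ≤ Bd z) ∧
      (∀ x ∈ X, x.1 ∈ sphere e.c (e.rad (s - h / 2)) → ‖x.2 - e.w x.1‖ ≤ τ →
        φ x ≤ Real.exp (Bd x.1)) ∧
      Real.circleAverage Bd e.c (e.rad (s - h / 2)) ≤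
        Real.circleAverage f e.c (e.rad s) + κ * (h / 2)

noncomputable abbrev lap (f : ℂ → ℝ) : ℂ → ℝ := Laplacian.laplacian f

/-- every point of `Ω` has a neighbourhood in which `Γ` is an analytic graph contained in `Ω` -/
def Graphs (Γ Ω : Set E) : Prop :=
  ∀ y ∈ Ω, ∃ g : ℂ → ℂ, AnalyticAt ℂ g y.1 ∧ g y.1 = y.2 ∧ (∀ᶠ z in 𝓝 y.1, (z, g z) ∈ Ω) ∧
    ∀ᶠ x in 𝓝 y, x ∈ Γ → x.2 = g x.1

/-- the zeros of `A ε` near the graph of `w` over `Z` form the sheet `w + ε d` -/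
def SheetFam (A : ℂ → E → ℂ) (w : ℂ → ℂ) (Z : Set ℂ) (d : ℂ × ℂ → ℂ) : Prop :=
  AnalyticOnNhd ℂ d (Z ×ˢ {0}) ∧ ∃ σ > 0, ∀ᶠ p in 𝓝ˢ (Z ×ˢ ({0} : Set ℂ)), ∀ ν : ℂ, ‖ν‖ ≤ σ →
    (A p.2 (p.1, w p.1 + ν) = 0 ↔ ν = p.2 * d p)

end Pool.Agent.CF
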