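import Pool.Agent.Lib.CF.All3

/-! The windings of the secant with windows, end by end. -/

open Set Metric Filter Topology

namespace Pool.Agent.CF

theorem SameW.refl {l : End} {W : ℂ → ℂ} {k : ℤ} (h : HasWind l W k) : SameW l W W := ⟨k, h, h⟩

theorem SameW.symm {l : End} {W W' : ℂ → ℂ} (h : SameW l W W') : SameW l W' W :=
  let ⟨k, a, b⟩ := h; ⟨k, b, a⟩

theorem SameW.trans {l : End} (ho : l.ok) {W W' W'' : ℂ → ℂ} (h : SameW l W W')
    (h' : SameW l W' W'') : SameW l W W'' := by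
  obtain ⟨k, a, b⟩ := h
  obtain ⟨k', a', b'⟩ := h'
  exact ⟨k, a, b'.cast (st_wuni _ _ _ _ ho a' b)⟩

/-- the ratio of two functions with the same winding is an exponential -/
theorem SameW.exp {l : End} {W W' : ℂ → ℂ} (h : SameW l W W') :
    ∃ g : ℂ → ℂ, AnalyticOnNhd ℂ g l.circ ∧
      ∀ᶠ z in 𝓝ˢ l.circ, z ≠ l.c → W' z = W z * Complex.exp (g z) := by
  obtain ⟨k, ⟨g, a1, a2⟩, g', b1, b2⟩ := h
  refine ⟨fun z => g' z - g z, b1.sub a1, ?_⟩
  filter_upwards [a2, b2] with z c d hz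
  rw [c hz, d hz, mul_assoc, ← Complex.exp_add]
  congr 2
  ring

/-- equal totals and equal windings off the hub give equal windings at the hub -/
theorem sameW_hub {C K : Cv} {T : ℤ} {lam : C.ι → ℂ → ℂ} (h : Half C K T)
    (h' : Half (C.rot lam) K T) (hs : ∀ j, j ≠ C.H → SameW (C.e j) (C.lam j) (lam j)) :
    SameW C.hub (C.lam C.H) (lam C.H) := by
  classical
  obtain ⟨k, a1, a2⟩ := h.tot
  obtain ⟨k', b1, b2⟩ : ∃ k : C.ι → ℤ, (∀ j, HasWind (C.e j) ((C.rot lam).W K j) (k j)) ∧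
    ∑ j, k j = T := h'.tot
  choose n c1 _ using h.lam
  obtain ⟨n', d1⟩ : ∃ n : C.ι → ℤ, ∀ j, HasWind (C.e j) (lam j) (n j) := by
    choose n c1 _ using h'.lam
    exact ⟨n, c1⟩
  have e : ∀ j, k' j - n' j = k j - n j := fun j => by
    have x1 : HasWind (C.e j) ((C.e j).res fun y => dw C.P y * K.P y) (k j - n j) := by
      refine ((a1 j).div (c1 j)).congr ?_
      filter_upwards [(c1 j).ne_zero] with z a hz
      exact (mul_div_cancel_left₀ _ (a hz)).symm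
    have x2 : HasWind (C.e j) ((C.e j).res fun y => dw C.P y * K.P y) (k' j - n' j) := by
      refine ((b1 j).div (d1 j)).congr ?_
      filter_upwards [(d1 j).ne_zero] with z a hz
      exact (mul_div_cancel_left₀ _ (a hz)).symm
    exact st_wuni _ _ _ _ (h.curve.ok j) x2 x1
  have e2 : ∀ j, j ≠ C.H → n' j = n j := fun j hj => by
    obtain ⟨m, x1, x2⟩ := hs j hj
    exact (st_wuni _ _ _ _ (h.curve.ok j) (d1 j) x2).trans
      (st_wuni _ _ _ _ (h.curve.ok j) x1 (c1 j))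
  have e3 : ∑ j, (n' j - n j) = 0 := by
    have : ∀ j, n' j - n j = k' j - k j := fun j => by linarith [e j]
    simp only [this, Finset.sum_sub_distrib, a2, b2, sub_self]
  rw [Finset.sum_eq_single C.H (fun j _ hj => sub_eq_zero.2 (e2 j hj)) (by simp)] at e3
  exact ⟨n C.H, c1 C.H, (d1 C.H).cast (sub_eq_zero.1 e3)⟩

open Winq in
/-- the windings of the secant with windows at the old ends -/
theorem win_dir {C K : Cv} {TC TK : ℤ} (hC : Half C K TC) (hK : Half K C TK) : ∃ h > 0,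
    ∀ (a0 a : ℂ) (q G : E → ℂ) (π : Type) [Fintype π] (p u u' p' : π → ℂ), a0 ≠ 0 →
    (∀ k, p k ∈ C.hub.ann (Ioo 0 h) ∧ u k ∈ C.hub.ann (Ioo 0 h) ∧
      u' k ∈ C.hub.ann (Ioo (-h) 0) ∧ p' k ∈ C.hub.ann (Ioo (-h) 0) ∧ 8 / 5 < ‖p k - K.c‖ ∧
      8 / 5 < ‖u k - K.c‖ ∧ 8 / 5 < ‖u' k - K.c‖ ∧ 8 / 5 < ‖p' k - K.c‖) →
    ∀ j n, HasWind (C.e j) (C.sec K (fun y => G y *
      ∏ i ∈ Finset.univ.filter fun i => (C.e i).k = Kind.pt, (y.1 - (C.e i).c))
      (fun y => (y.1 - a) * q y) (C.e j)) n →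
      HasWind (C.e j) (C.sec K (gWin C G p) (qWin a0 a q u u' p') (C.e j)) n := by
  obtain ⟨-, ⟨h1, h1p, hF⟩, -⟩ := st_arc C K TC TK hC hK
  refine ⟨h1, h1p, fun a0 a q G π _ p u u' p' ha0 hk j n h4 => ?_⟩
  have hout : C.hub.k = Kind.out := hC.out
  have hR : 0 < C.hub.r := lt_trans (by norm_num) hC.rad.1
  have s1 : ∀ z ∈ C.hub.ann (Ioo 0 h1), z ∈ C.hub.ann (Icc (-h1) h1) := fun z hz =>
    ⟨hz.1, by linarith [hz.2.1], hz.2.2.le⟩
  have s2 : ∀ z ∈ C.hub.ann (Ioo (-h1) 0), z ∈ C.hub.ann (Icc (-h1) h1) := fun z hz =>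
    ⟨hz.1, hz.2.1.le, by linarith [hz.2.2]⟩
  have h5 : HasWind (C.e j) (fac a0 p u u' p') 0 := by
    by_cases hj : j = C.H
    · subst hj
      exact (wind_fac (l := C.hub) ha0 (fun _ => -C.hub.sgn) (fun _ => -C.hub.sgn)
        (fun k => HasWind.lin_in ((inside hout hR (hk k).2.1.1).1 (hk k).2.1.2.1))
        (fun k => HasWind.lin_out ((inside hout hR (hk k).2.2.1.1).2 (hk k).2.2.1.2.2) hR.le)
        (fun k => HasWind.lin_out ((inside hout hR (hk k).2.2.2.1.1).2 (hk k).2.2.2.1.2.2) hR.le)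
        fun k => HasWind.lin_in ((inside hout hR (hk k).1.1).1 (hk k).1.2.1)).cast (sub_self _)
    · have r0 := ok_nonneg (hC.curve.ok j)
      exact (wind_fac (l := C.e j) ha0 (fun _ => 0) (fun _ => 0)
        (fun k => HasWind.lin_out ((hF _ (s1 _ (hk k).2.1) (hk k).2.2.2.2.2.1.le).2.2.1 j hj) r0)
        (fun k => HasWind.lin_out
          ((hF _ (s2 _ (hk k).2.2.1) (hk k).2.2.2.2.2.2.1.le).2.2.1 j hj) r0)
        (fun k => HasWind.lin_out
          ((hF _ (s2 _ (hk k).2.2.2.1) (hk k).2.2.2.2.2.2.2.le).2.2.1 j hj) r0)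
        fun k => HasWind.lin_out ((hF _ (s1 _ (hk k).1) (hk k).2.2.2.2.1.le).2.2.1 j hj) r0).cast
        (sub_self _)
  exact ((h4.mul h5).congr' fun z => sec_eq C K a0 a q G p u u' p' _ z).cast (add_zero _)

end Pool.Agent.CF
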